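import Pool.Agent.MP_4d0c14_b.Mat

/-! Iwahori factorisation of the congruence subgroups and generation by transvections. -/

namespace Pool.Agent.MP_4d0c14_b

open scoped Matrix

variable {n : ℕ} {F : Type}

theorem M1_iff [Field F] {g : GL (Fin n) F} : IsUp1 g ↔
    (g : Matrix (Fin n) (Fin n) F).BlockTriangular id ∧
      ∀ i, (g : Matrix (Fin n) (Fin n) F) i i = 1 := by
  refine ⟨fun h => ⟨fun i j hij => (h i j (le_of_lt hij)).trans (Matrix.one_apply_ne (ne_of_gt hij)),
    fun i => (h i i le_rfl).trans (Matrix.one_apply_eq i)⟩, fun h i j hij => ?_⟩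
  rcases hij.eq_or_lt with rfl | hij
  · rw [h.2, Matrix.one_apply_eq]
  · rw [h.1 hij, Matrix.one_apply_ne hij.ne']

theorem M1_diag [Field F] {A B : Matrix (Fin n) (Fin n) F} (hA : A.BlockTriangular id)
    (hB : B.BlockTriangular id) (i : Fin n) : (A * B) i i = A i i * B i i := by
  rw [Matrix.mul_apply]
  refine Finset.sum_eq_single i (fun j _ hj => ?_) (by simp)
  rcases lt_or_gt_of_ne hj with h | h
  · rw [hA h, zero_mul]
  · rw [hB h, mul_zero]

theorem M1_tr_tv [Field F] (i j : Fin n) (h : i ≠ j) (s : F) :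
    tr (tv i j h s) = tv j i h.symm s :=
  Units.ext (by simp [Matrix.transvection])

/-- The strictly upper triangular part. -/
def M1_up [Field F] : Matrix (Fin n) (Fin n) F →ₗ[F] Matrix (Fin n) (Fin n) F where
  toFun U := Matrix.of fun i j => if i < j then U i j else 0
  map_add' U V := by
    ext i j
    by_cases h : i < j <;> simp [h]
  map_smul' c U := by
    ext i j
    by_cases h : i < j <;> simp [h]

theorem IsUp1.mul [Field F] {g h : GL (Fin n) F} (hg : IsUp1 g) (hh : IsUp1 h) : IsUp1 (g * h) := by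
  rw [M1_iff] at *
  exact ⟨hg.1.mul hh.1, fun i => by rw [Units.val_mul, M1_diag hg.1 hh.1, hg.2, hh.2, one_mul]⟩

theorem IsUp1.inv [Field F] {g : GL (Fin n) F} (hg : IsUp1 g) : IsUp1 g⁻¹ := by
  rw [M1_iff] at *
  have h1 : ((g⁻¹ : GL (Fin n) F) : Matrix (Fin n) (Fin n) F).BlockTriangular id := by
    let _ := g.invertible
    rw [Matrix.coe_units_inv]
    exact Matrix.blockTriangular_inv_of_blockTriangular hg.1
  refine ⟨h1, fun i => ?_⟩
  have h2 := M1_diag hg.1 h1 i
  rwa [Units.mul_inv, Matrix.one_apply_eq, hg.2, one_mul, eq_comm] at h2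

theorem isLow1_iff [Field F] {g : GL (Fin n) F} : IsLow1 g ↔ IsUp1 (tr g) :=
  ⟨fun h i j hij => (h j i hij).trans (by simp [Matrix.one_apply, eq_comm]),
    fun h i j hij => (h j i hij).trans (by simp [Matrix.one_apply, eq_comm])⟩

theorem IsLow1.mul [Field F] {g h : GL (Fin n) F} (hg : IsLow1 g) (hh : IsLow1 h) :
    IsLow1 (g * h) := by
  rw [isLow1_iff] at *
  rw [tr_mul]
  exact hh.mul hg

theorem IsLow1.inv [Field F] {g : GL (Fin n) F} (hg : IsLow1 g) : IsLow1 g⁻¹ :=
  isLow1_iff.2 (isLow1_iff.1 hg).inv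

theorem IsUp1.det [Field F] {g : GL (Fin n) F} (hg : IsUp1 g) :
    (g : Matrix (Fin n) (Fin n) F).det = 1 := by
  rw [M1_iff] at hg
  rw [Matrix.det_of_isUpperTriangular hg.1]
  exact Finset.prod_eq_one fun i _ => hg.2 i

theorem isUp1_tv [Field F] {i j : Fin n} (h : i < j) (s : F) : IsUp1 (tv i j h.ne s) := by
  intro a b hab
  rw [coe_tv, Matrix.transvection, Matrix.add_apply, Matrix.single_apply_of_ne, add_zero]
  rintro ⟨rfl, rfl⟩
  exact hab.not_gt h

theorem isLow1_tv [Field F] {i j : Fin n} (h : j < i) (s : F) : IsLow1 (tv i j h.ne' s) := by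
  rw [isLow1_iff, M1_tr_tv]
  exact isUp1_tv h s

theorem dg_conj_tv [Field F] (t : Fin n → Fˣ) (i j : Fin n) (h : i ≠ j) (s : F) :
    dg t * tv i j h s * (dg t)⁻¹ = tv i j h (t i * s / t j) := by
  ext a b
  rw [← dg_inv, Units.val_mul, Units.val_mul, coe_dg, coe_dg, coe_tv, coe_tv,
    Matrix.mul_diagonal, Matrix.diagonal_mul, Matrix.transvection, Matrix.transvection,
    Matrix.add_apply, Matrix.add_apply, mul_add, add_mul]
  congr 1
  · by_cases e : a = b
    · subst e
      simp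
    · simp [e]
  · by_cases e : i = a ∧ j = b
    · obtain ⟨rfl, rfl⟩ := e
      simp [div_eq_mul_inv]
    · simp [Matrix.single_apply_of_ne _ _ _ _ _ e]

variable [NormedField F]

theorem near_tv {r : ℝ} (hr : 0 < r) (i j : Fin n) (h : i ≠ j) (s : F) :
    Near r (tv i j h s) ↔ ‖s‖ < r := by
  simp only [Near, coe_tv, Matrix.transvection, add_sub_cancel_left]
  refine ⟨fun H => by simpa using H i j, fun H a b => ?_⟩
  rw [Matrix.single_apply]
  split_ifs
  · exact H
  · rwa [norm_zero]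

theorem near_dg {r : ℝ} (hr : 0 < r) (t : Fin n → Fˣ) :
    Near r (dg t) ↔ ∀ i, ‖(t i : F) - 1‖ < r := by
  refine ⟨fun H i => by simpa using H i i, fun H a b => ?_⟩
  by_cases e : a = b
  · simpa [e] using H b
  · simpa [e] using hr

variable [IsUltrametricDist F]

theorem exists_gl_of_mle {s : ℝ} (hs : s < 1) {X : Matrix (Fin n) (Fin n) F} (hX : MLe s X) :
    ∃ g : GL (Fin n) F, (g : Matrix (Fin n) (Fin n) F) = 1 + X := by
  refine ⟨Matrix.GeneralLinearGroup.mkOfDetNeZero (1 + X) fun h => ?_, rfl⟩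
  obtain ⟨v, h1, h2⟩ := Matrix.exists_mulVec_eq_zero_iff.2 h
  rw [Matrix.add_mulVec, Matrix.one_mulVec, add_eq_zero_iff_neg_eq] at h2
  have h3 := (hX.mono (le_max_left s 0)).mulVec (le_max_right s 0) v
  rw [← h2, norm_neg] at h3
  exact h3.not_gt (mul_lt_of_lt_one_left (norm_pos_iff.2 h1) (max_lt hs one_pos))

theorem MLe.norm_det_le {α : Type} [Fintype α] [DecidableEq α] {C : ℝ} (hC : 0 ≤ C)
    {X : Matrix α α F} (hX : MLe C X) : ‖X.det‖ ≤ C ^ Fintype.card α := by
  rw [Matrix.det_apply']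
  refine IsUltrametricDist.norm_sum_le_of_forall_le_of_nonneg (pow_nonneg hC _) fun σ _ => ?_
  rw [norm_mul, norm_prod]
  refine (mul_le_of_le_one_left (Finset.prod_nonneg fun _ _ => norm_nonneg _)
    (IsUltrametricDist.norm_intCast_le_one F _)).trans ?_
  rw [← Finset.card_univ, ← Finset.prod_const]
  exact Finset.prod_le_prod (fun _ _ => norm_nonneg _) fun i _ => hX _ _

theorem Bnd.norm_det {g : GL (Fin n) F} (hg : Bnd 1 g) :
    ‖(g : Matrix (Fin n) (Fin n) F).det‖ = 1 := by
  rw [bnd_iff] at hg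
  have h1 := hg.1.norm_det_le zero_le_one
  have h2 := hg.2.norm_det_le zero_le_one
  have h3 := congrArg (fun M => ‖Matrix.det M‖) g.mul_inv
  simp only [Matrix.det_mul, norm_mul, Matrix.det_one, norm_one] at h3
  rw [one_pow] at h1 h2
  exact le_antisymm h1 (h3.ge.trans (mul_le_of_le_one_right (norm_nonneg _) h2))

theorem M1_fix {s a : ℝ} (hs0 : 0 ≤ s) (hs : s < 1) (ha : 0 ≤ a) {X Y U : Matrix (Fin n) (Fin n) F}
    (hX : MLe s X) (hY : MLe a Y) (h : U + M1_up (Y + X * U) = 0) : MLe a U := by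
  let Z : Fin n → Fin n → F := fun i j => U i j
  have hZ : MLe ‖Z‖ U := fun i j => (norm_le_pi_norm (Z i) j).trans (norm_le_pi_norm Z i)
  have h0 : 0 ≤ max a (s * ‖Z‖) := le_max_of_le_left ha
  have h1 : MLe (max a (s * ‖Z‖)) U := fun i j => by
    have h2 : U i j + (if i < j then (Y + X * U) i j else 0) = 0 := congrFun (congrFun h i) j
    rw [eq_neg_of_add_eq_zero_left h2, norm_neg]
    split_ifs
    · exact (hY.mono (le_max_left _ _)).add
        ((hX.mul hZ hs0 (norm_nonneg _)).mono (le_max_right _ _)) i j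
    · rwa [norm_zero]
  have h2 : ‖Z‖ ≤ max a (s * ‖Z‖) :=
    (pi_norm_le_iff_of_nonneg h0).2 fun i => (pi_norm_le_iff_of_nonneg h0).2 (h1 i)
  refine hZ.mono ((le_max_iff.1 h2).elim id fun h3 => le_trans ?_ ha)
  nlinarith [norm_nonneg Z]

theorem exists_ldu {r : ℝ} (hr0 : 0 < r) (hr : r ≤ 1) {k : GL (Fin n) F} (hk : Near r k) :
    ∃ (l u : GL (Fin n) F) (t : Fin n → Fˣ), IsLow1 l ∧ IsUp1 u ∧ Near r l ∧ Near r u ∧
      Near r (dg t) ∧ k = l * dg t * u := by
  obtain ⟨s, hs0, hs, hX⟩ := hk.exists_le hr0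
  obtain ⟨X, e⟩ : ∃ X, (k : Matrix (Fin n) (Fin n) F) - 1 = X := ⟨_, rfl⟩
  rw [e] at hX
  have hi : Function.Injective
      (LinearMap.id + M1_up ∘ₗ LinearMap.mulLeft F X : Matrix (Fin n) (Fin n) F →ₗ[F] _) := by
    refine (injective_iff_map_eq_zero _).2 fun U hU => ?_
    have h1 := M1_fix hs0 (hs.trans_le hr) le_rfl hX (MLe.zero le_rfl) (U := U)
      (by rw [zero_add]; exact hU)
    exact MLe.eq_zero fun ε hε => h1.mono hε.le
  obtain ⟨U, hU⟩ := LinearMap.surjective_of_injective hi (-M1_up X)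
  have h1 : U + M1_up (X + X * U) = 0 := by
    rw [map_add, add_left_comm, add_eq_zero_iff_neg_eq]
    exact hU.symm
  have h2 := M1_fix hs0 (hs.trans_le hr) hs0 hX hX h1
  have h3 : ∀ i j, U i j + (if i < j then (X + X * U) i j else 0) = 0 := fun i j =>
    congrFun (congrFun h1 i) j
  obtain ⟨g, hg⟩ := exists_gl_of_mle (hs.trans_le hr) h2
  have h4 : IsUp1 g := fun i j hij => by
    have h5 := h3 i j
    rw [if_neg hij.not_gt, add_zero] at h5
    rw [hg, Matrix.add_apply, h5, add_zero]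
  have h5 : Near r g := fun i j => by
    rw [hg, add_sub_cancel_left]
    exact (h2 i j).trans_lt hs
  have h6 := hk.mul hr0 hr h5
  have h7 : ∀ i j, i < j → ((k * g : GL (Fin n) F) : Matrix (Fin n) (Fin n) F) i j = 0 := by
    intro i j hij
    have h8 := h3 i j
    rw [if_pos hij] at h8
    rw [Units.val_mul, hg, ← add_sub_cancel 1 (k : Matrix (Fin n) (Fin n) F), e,
      add_mul, one_mul, mul_add, mul_one, add_assoc, Matrix.add_apply, Matrix.add_apply,
      Matrix.one_apply_ne hij.ne, zero_add, h8]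
  have h8 : ∀ i, ((k * g : GL (Fin n) F) : Matrix (Fin n) (Fin n) F) i i ≠ 0 := fun i h => by
    have h9 := h6 i i
    rw [Matrix.sub_apply, h, Matrix.one_apply_eq, zero_sub, norm_neg, norm_one] at h9
    exact h9.not_ge hr
  have h9 : Near r (dg fun i => Units.mk0 _ (h8 i)) := (near_dg hr0 _).2 fun i => by
    simpa using h6 i i
  refine ⟨k * g * (dg fun i => Units.mk0 _ (h8 i))⁻¹, g⁻¹, _, fun i j hij => ?_, h4.inv,
    h6.mul hr0 hr (h9.inv hr0 hr), h5.inv hr0 hr, h9, by group⟩
  rw [← dg_inv, Units.val_mul, coe_dg, Matrix.mul_diagonal]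
  rcases hij.eq_or_lt with rfl | hij
  · rw [Matrix.one_apply_eq, Pi.inv_apply, Units.val_inv_eq_inv_val, Units.val_mk0,
      mul_inv_cancel₀ (h8 i)]
  · rw [h7 i j hij, zero_mul, Matrix.one_apply_ne hij.ne]

theorem up1_induction {r : ℝ} (hr0 : 0 < r) (hr : r ≤ 1) (Q : GL (Fin n) F → Prop) (h1 : Q 1)
    (hstep : ∀ (i j : Fin n) (h : i < j) (s : F) (u : GL (Fin n) F), ‖s‖ < r → IsUp1 u →
      Near r u → Q u → Q (tv i j h.ne s * u))
    {u : GL (Fin n) F} (hu : IsUp1 u) (hn : Near r u) : Q u := by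
  classical
  obtain ⟨S, hS⟩ : ∃ S : Finset (Fin n × Fin n), ∀ i j, i < j →
      (u : Matrix (Fin n) (Fin n) F) i j ≠ 0 → (i, j) ∈ S := ⟨Finset.univ, by simp⟩
  induction S using Finset.induction_on_max_value (f := fun p : Fin n × Fin n => p.1) generalizing u with
  | empty =>
    obtain rfl : u = 1 := by
      ext i j
      rcases le_or_gt j i with h | h
      · exact hu i j h
      · rw [Units.val_one, Matrix.one_apply_ne h.ne]
        by_contra h2
        simpa using hS i j h h2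
    exact h1
  | insert p S _ hm ih =>
    obtain ⟨i, j⟩ := p
    rcases le_or_gt j i with h | h
    · refine ih hu hn fun a b hab h2 => (Finset.mem_insert.1 (hS a b hab h2)).resolve_left ?_
      rintro ⟨⟩
      exact h.not_gt hab
    have h2 : ∀ b, (u : Matrix (Fin n) (Fin n) F) j b = (1 : Matrix (Fin n) (Fin n) F) j b := by
      intro b
      rcases le_or_gt b j with h3 | h3
      · exact hu j b h3
      · rw [Matrix.one_apply_ne h3.ne]
        by_contra h4
        rcases Finset.mem_insert.1 (hS j b h3 h4) with h5 | h5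
        · exact h.ne' (congrArg Prod.fst h5)
        · exact (hm _ h5).not_gt h
    have h3 : ‖(u : Matrix (Fin n) (Fin n) F) i j‖ < r := by
      simpa [h.ne] using hn i j
    have h4 := (isUp1_tv h (-(u : Matrix (Fin n) (Fin n) F) i j)).mul hu
    have h5 := ((near_tv hr0 i j h.ne _).2 (by rwa [norm_neg] :
      ‖-(u : Matrix (Fin n) (Fin n) F) i j‖ < r)).mul hr0 hr hn
    have h6 := hstep i j h _ _ h3 h4 h5 (ih h4 h5 fun a b hab h7 => by
      rw [Units.val_mul, coe_tv] at h7
      by_cases e : a = i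
      · subst e
        rw [Matrix.transvection_mul_apply_same, h2] at h7
        by_cases e : j = b
        · subst e
          simp at h7
        · rw [Matrix.one_apply_ne e, mul_zero, add_zero] at h7
          exact (Finset.mem_insert.1 (hS a b hab h7)).resolve_left
            fun h8 => e (congrArg Prod.snd h8).symm
      · rw [Matrix.transvection_mul_apply_of_ne _ _ _ _ e] at h7
        exact (Finset.mem_insert.1 (hS a b hab h7)).resolve_left
          fun h8 => e (congrArg Prod.fst h8))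
    rwa [tv_neg, mul_inv_cancel_left] at h6

theorem low1_induction {r : ℝ} (hr0 : 0 < r) (hr : r ≤ 1) (Q : GL (Fin n) F → Prop) (h1 : Q 1)
    (hstep : ∀ (i j : Fin n) (h : j < i) (s : F) (u : GL (Fin n) F), ‖s‖ < r → IsLow1 u →
      Near r u → Q u → Q (u * tv i j h.ne' s))
    {u : GL (Fin n) F} (hu : IsLow1 u) (hn : Near r u) : Q u := by
  have e : tr (1 : GL (Fin n) F) = 1 := Units.ext Matrix.transpose_one
  refine up1_induction hr0 hr (fun g => Q (tr g)) (by rwa [e]) (fun i j h s v hs hv hv' hq => ?_)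
    (isLow1_iff.1 hu) hn.tr
  rw [tr_mul, M1_tr_tv]
  exact hstep j i h s _ hs (isLow1_iff.2 hv) hv'.tr hq

end Pool.Agent.MP_4d0c14_b
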