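import Pool.Agent.MP_4d0c14_b.Alg
import Pool.Agent.MP_4d0c14_b.M1

/-! Regular functions: translations, finite rank, polynomial curves, density. -/

namespace Pool.Agent.MP_4d0c14_b

open scoped Matrix
open Polynomial

variable {n : ℕ} {F E ι : Type}

section Alg

variable [Field F] [Field E] {κ : ι → F →+* E} {f : GL (Fin n) F → E}

theorem A1_ent (κ : ι → F →+* E) (σ : ι) (i j : Fin n) :
    (fun g : GL (Fin n) F => κ σ ((g : Matrix (Fin n) (Fin n) F) i j)) ∈ Reg n κ :=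
  Algebra.subset_adjoin (Or.inl ⟨σ, i, j, rfl⟩)

theorem A1_ent' (κ : ι → F →+* E) (σ : ι) (i j : Fin n) :
    (fun g : GL (Fin n) F => κ σ (((g⁻¹ : GL (Fin n) F) : Matrix (Fin n) (Fin n) F) i j)) ∈
      Reg n κ :=
  Algebra.subset_adjoin (Or.inr ⟨σ, i, j, rfl⟩)

theorem A1_const (κ : ι → F →+* E) (c : E) : (fun _ : GL (Fin n) F => c) ∈ Reg n κ :=
  (Reg n κ).algebraMap_mem c

theorem A1_ind (Q : (GL (Fin n) F → E) → Prop)
    (h1 : ∀ σ i j, Q fun g => κ σ ((g : Matrix (Fin n) (Fin n) F) i j))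
    (h2 : ∀ σ i j, Q fun g => κ σ (((g⁻¹ : GL (Fin n) F) : Matrix (Fin n) (Fin n) F) i j))
    (hc : ∀ c : E, Q fun _ => c)
    (ha : ∀ u v, u ∈ Reg n κ → v ∈ Reg n κ → Q u → Q v → Q fun g => u g + v g)
    (hm : ∀ u v, u ∈ Reg n κ → v ∈ Reg n κ → Q u → Q v → Q fun g => u g * v g)
    (hf : f ∈ Reg n κ) : Q f := by
  induction hf using Algebra.adjoin_induction with
  | mem x hx =>
    rcases hx with ⟨σ, i, j, rfl⟩ | ⟨σ, i, j, rfl⟩
    exacts [h1 σ i j, h2 σ i j]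
  | algebraMap r => exact hc r
  | add x y hx hy ihx ihy => exact ha x y hx hy ihx ihy
  | mul x y hx hy ihx ihy => exact hm x y hx hy ihx ihy

theorem A1_rank (hf : f ∈ Reg n κ) : ∃ (T : Type) (_ : Fintype T) (u v : T → GL (Fin n) F → E),
    (∀ i, u i ∈ Reg n κ ∧ v i ∈ Reg n κ) ∧ ∀ x h, f (x * h) = ∑ i, u i x * v i h := by
  refine A1_ind (fun f => ∃ (T : Type) (_ : Fintype T) (u v : T → GL (Fin n) F → E),
    (∀ i, u i ∈ Reg n κ ∧ v i ∈ Reg n κ) ∧ ∀ x h, f (x * h) = ∑ i, u i x * v i h)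
    ?_ ?_ ?_ ?_ ?_ hf
  · intro σ i j
    refine ⟨Fin n, inferInstance, _, _, fun k => ⟨A1_ent κ σ i k, A1_ent κ σ k j⟩, fun x h => ?_⟩
    beta_reduce
    rw [Units.val_mul, Matrix.mul_apply, map_sum]
    exact Finset.sum_congr rfl fun k _ => map_mul _ _ _
  · intro σ i j
    refine ⟨Fin n, inferInstance, _, _, fun k => ⟨A1_ent' κ σ k j, A1_ent' κ σ i k⟩,
      fun x h => ?_⟩
    beta_reduce
    rw [mul_inv_rev, Units.val_mul, Matrix.mul_apply, map_sum]
    exact Finset.sum_congr rfl fun k _ => (map_mul _ _ _).trans (mul_comm _ _)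
  · intro c
    exact ⟨Unit, inferInstance, fun _ _ => c, fun _ _ => 1,
      fun _ => ⟨A1_const κ c, A1_const κ 1⟩, by simp⟩
  · rintro u v - - ⟨T, _, a, b, hab, h⟩ ⟨T', _, a', b', hab', h'⟩
    refine ⟨T ⊕ T', inferInstance, Sum.elim a a', Sum.elim b b', ?_, fun x y => ?_⟩
    · rintro (i | i)
      exacts [hab i, hab' i]
    · beta_reduce
      rw [h, h', Fintype.sum_sum_type]
      rfl
  · rintro u v - - ⟨T, _, a, b, hab, h⟩ ⟨T', _, a', b', hab', h'⟩
    refine ⟨T × T', inferInstance, fun i => a i.1 * a' i.2, fun i => b i.1 * b' i.2,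
      fun i => ⟨mul_mem (hab _).1 (hab' _).1, mul_mem (hab _).2 (hab' _).2⟩, fun x y => ?_⟩
    beta_reduce
    rw [h, h', Finset.sum_mul_sum, Fintype.sum_prod_type]
    refine Finset.sum_congr rfl fun i _ => Finset.sum_congr rfl fun j _ => ?_
    simp only [Pi.mul_apply]
    ring

theorem reg_finite_rank (hf : f ∈ Reg n κ) : ∃ (N : ℕ) (u v : Fin N → GL (Fin n) F → E),
    (∀ i, u i ∈ Reg n κ ∧ v i ∈ Reg n κ) ∧ ∀ x h, f (x * h) = ∑ i, u i x * v i h := by
  obtain ⟨T, _, u, v, huv, h⟩ := A1_rank hf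
  let e := (Fintype.equivFin T).symm
  refine ⟨Fintype.card T, fun i => u (e i), fun i => v (e i), fun i => huv _, fun x y => ?_⟩
  rw [h]
  exact (e.sum_comp fun i => u i x * v i y).symm

theorem reg_left (hf : f ∈ Reg n κ) (g : GL (Fin n) F) : (fun x => f (g * x)) ∈ Reg n κ := by
  obtain ⟨N, u, v, huv, h⟩ := reg_finite_rank hf
  have e : (fun x => f (g * x)) = ∑ i, u i g • v i := by
    funext x
    rw [h, Finset.sum_apply]
    rfl
  rw [e]
  exact Subalgebra.sum_mem _ fun i _ => Subalgebra.smul_mem _ (huv i).2 _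

theorem reg_right (hf : f ∈ Reg n κ) (g : GL (Fin n) F) : (fun x => f (x * g)) ∈ Reg n κ := by
  obtain ⟨N, u, v, huv, h⟩ := reg_finite_rank hf
  have e : (fun x => f (x * g)) = ∑ i, v i g • u i := by
    funext x
    rw [h, Finset.sum_apply]
    exact Finset.sum_congr rfl fun i _ => mul_comm _ _
  rw [e]
  exact Subalgebra.sum_mem _ fun i _ => Subalgebra.smul_mem _ (huv i).1 _

theorem reg_inv (hf : f ∈ Reg n κ) : (fun x => f x⁻¹) ∈ Reg n κ := by
  refine A1_ind (fun f => (fun x => f x⁻¹) ∈ Reg n κ) ?_ ?_ ?_ ?_ ?_ hf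
  · exact fun σ i j => A1_ent' κ σ i j
  · intro σ i j
    simpa only [inv_inv] using A1_ent κ σ i j
  · exact fun c => A1_const κ c
  · exact fun u v _ _ hu hv => add_mem hu hv
  · exact fun u v _ _ hu hv => mul_mem hu hv

theorem A1_det {m : Type} [Fintype m] [DecidableEq m] (κ : ι → F →+* E) (σ : ι)
    (s t : m → Fin n) : (fun g : GL (Fin n) F =>
      κ σ ((g : Matrix (Fin n) (Fin n) F).submatrix s t).det) ∈ Reg n κ := by
  have e : (fun g : GL (Fin n) F => κ σ ((g : Matrix (Fin n) (Fin n) F).submatrix s t).det) =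
      ∑ π : Equiv.Perm m, ((Equiv.Perm.sign π : ℤ) : E) •
        ∏ i, fun g : GL (Fin n) F => κ σ ((g : Matrix (Fin n) (Fin n) F) (s (π i)) (t i)) := by
    funext g
    rw [Matrix.det_apply', map_sum, Finset.sum_apply]
    refine Finset.sum_congr rfl fun π _ => ?_
    rw [map_mul, map_intCast, map_prod, Pi.smul_apply, Finset.prod_apply]
    rfl
  rw [e]
  exact Subalgebra.sum_mem _ fun π _ => Subalgebra.smul_mem _
    (Subalgebra.prod_mem _ fun i _ => A1_ent κ σ _ _) _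

theorem A1_minor_last (g : GL (Fin n) F) (i : Fin n) (hi : ¬ (i : ℕ) + 1 < n) :
    minor g i = (g : Matrix (Fin n) (Fin n) F).det := by
  have hn : (i : ℕ) + 1 = n := le_antisymm i.2 (not_lt.1 hi)
  exact Matrix.det_submatrix_equiv_self (finCongr hn) _

theorem hw_mem_reg [Fintype ι] (κ : ι → F →+* E) {a : ι → Fin n → ℤ} (ha : ∀ σ, Antitone (a σ)) :
    hw κ a ∈ Reg n κ := by
  have e : hw κ a = ∏ σ, ∏ i, fun g : GL (Fin n) F => κ σ (minor g i) ^ gap (a σ) i := by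
    funext g
    simp only [Finset.prod_apply]
    rfl
  rw [e]
  refine Subalgebra.prod_mem _ fun σ _ => Subalgebra.prod_mem _ fun i _ => ?_
  have hm : (fun g : GL (Fin n) F => κ σ (minor g i)) ∈ Reg n κ := A1_det κ σ _ _
  rcases le_or_gt 0 (gap (a σ) i) with h | h
  · obtain ⟨m, hm'⟩ := Int.eq_ofNat_of_zero_le h
    simp only [hm', zpow_natCast]
    exact pow_mem hm m
  · have hi : ¬ (i : ℕ) + 1 < n := fun hi => by
      rw [gap, dif_pos hi, sub_neg, ← not_le] at h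
      exact h (ha σ (Fin.le_def.2 (Nat.le_succ _)))
    obtain ⟨m, hm'⟩ := Int.exists_eq_neg_ofNat h.le
    have h2 := pow_mem (reg_inv hm) m
    convert h2 using 1
    funext g
    rw [hm', zpow_neg, zpow_natCast, ← inv_pow, Pi.pow_apply, A1_minor_last _ _ hi,
      A1_minor_last _ _ hi, ← map_inv₀, Matrix.coe_units_inv, Matrix.det_nonsing_inv,
      Ring.inverse_eq_inv']

theorem A1_eval [CharZero F] [CharZero E] (φ : F →+* E) (q : F[X]) (y : ℚ) :
    (q.map φ).eval (y : E) = φ (q.eval (y : F)) := by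
  rw [eval_map, ← map_ratCast φ y, eval₂_hom]

theorem reg_curve [Fintype ι] [CharZero F] [CharZero E] (hf : f ∈ Reg n κ)
    (M : Matrix (Fin n) (Fin n) F[X]) : ∃ (N : ℕ) (P : E[X]), ∀ (y : ℚ) (g : GL (Fin n) F),
      (g : Matrix (Fin n) (Fin n) F) = M.map (eval (y : F)) →
      f g * (∏ σ, κ σ (g : Matrix (Fin n) (Fin n) F).det) ^ N = P.eval (y : E) := by
  classical
  have hd : ∀ (y : ℚ) (g : GL (Fin n) F),
      (g : Matrix (Fin n) (Fin n) F) = M.map (eval (y : F)) → ∀ σ,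
      (M.det.map (κ σ)).eval (y : E) = κ σ (g : Matrix (Fin n) (Fin n) F).det := by
    intro y g hg σ
    rw [A1_eval, hg]
    exact congrArg _ ((evalRingHom (y : F)).map_det M)
  have hD : ∀ (y : ℚ) (g : GL (Fin n) F),
      (g : Matrix (Fin n) (Fin n) F) = M.map (eval (y : F)) →
      (∏ σ, M.det.map (κ σ)).eval (y : E) = ∏ σ, κ σ (g : Matrix (Fin n) (Fin n) F).det := by
    intro y g hg
    rw [eval_prod]
    exact Finset.prod_congr rfl fun σ _ => hd y g hg σ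
  refine A1_ind (fun f => ∃ (N : ℕ) (P : E[X]), ∀ (y : ℚ) (g : GL (Fin n) F),
      (g : Matrix (Fin n) (Fin n) F) = M.map (eval (y : F)) →
      f g * (∏ σ, κ σ (g : Matrix (Fin n) (Fin n) F).det) ^ N = P.eval (y : E))
    ?_ ?_ ?_ ?_ ?_ hf
  · intro σ i j
    refine ⟨0, (M i j).map (κ σ), fun y g hg => ?_⟩
    beta_reduce
    rw [pow_zero, mul_one, A1_eval, hg, Matrix.map_apply]
  · intro σ i j
    refine ⟨1, (M.adjugate i j).map (κ σ) * ∏ τ ∈ Finset.univ.erase σ, M.det.map (κ τ),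
      fun y g hg => ?_⟩
    have h1 : (M.adjugate i j).eval (y : F) = (g : Matrix (Fin n) (Fin n) F).adjugate i j := by
      rw [hg]
      exact congrFun (congrFun ((evalRingHom (y : F)).map_adjugate M) i) j
    have h2 : (g : Matrix (Fin n) (Fin n) F).det ≠ 0 := Matrix.GeneralLinearGroup.det_ne_zero g
    beta_reduce
    rw [pow_one, eval_mul, eval_prod, Finset.prod_congr rfl fun τ _ => hd y g hg τ, A1_eval, h1,
      ← Finset.mul_prod_erase _ _ (Finset.mem_univ σ), ← mul_assoc, ← map_mul,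
      Matrix.coe_units_inv, Matrix.inv_def, Ring.inverse_eq_inv', Matrix.smul_apply, smul_eq_mul,
      mul_right_comm, inv_mul_cancel₀ h2, one_mul]
  · intro c
    exact ⟨0, C c, fun y g _ => by simp⟩
  · rintro u v - - ⟨N, P, h⟩ ⟨N', P', h'⟩
    refine ⟨N + N', P * (∏ σ, M.det.map (κ σ)) ^ N' + P' * (∏ σ, M.det.map (κ σ)) ^ N,
      fun y g hg => ?_⟩
    beta_reduce
    rw [eval_add, eval_mul, eval_mul, eval_pow, eval_pow, hD y g hg, ← h y g hg, ← h' y g hg]
    ring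
  · rintro u v - - ⟨N, P, h⟩ ⟨N', P', h'⟩
    refine ⟨N + N', P * P', fun y g hg => ?_⟩
    beta_reduce
    rw [eval_mul, ← h y g hg, ← h' y g hg]
    ring

end Alg

variable [NormedField F] [IsUltrametricDist F] [NormedField E] [IsUltrametricDist E]
  {κ : ι → F →+* E} {f : GL (Fin n) F → E}

omit [IsUltrametricDist E] in
theorem reg_eq_zero [Fintype ι] [CharZero F] [CharZero E] (p : ℕ) (hp0 : p ≠ 0) (hp : ‖(p : F)‖ < 1)
    (hf : f ∈ Reg n κ) {r : ℝ} (hr : 0 < r) (h : ∀ k, Near r k → f k = 0) : f = 0 := by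
  funext g
  set Y : Matrix (Fin n) (Fin n) F := (g : Matrix (Fin n) (Fin n) F) - 1 with hY
  let M : Matrix (Fin n) (Fin n) F[X] :=
    Matrix.of fun i j => C ((1 : Matrix (Fin n) (Fin n) F) i j) + X * C (Y i j)
  have hM : ∀ y : F, M.map (eval y) = 1 + y • Y := fun y => by
    ext i j
    simp only [M, Matrix.map_apply, Matrix.of_apply, eval_add, eval_mul, eval_C, eval_X,
      Matrix.add_apply, Matrix.smul_apply, smul_eq_mul]
  obtain ⟨N, P, hP⟩ := reg_curve hf M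
  obtain ⟨B, hB0, hB⟩ := MLe.exists_bound Y
  have hp1 : 2 ≤ p := by
    rcases p with _ | _ | p
    · exact absurd rfl hp0
    · simp at hp
    · omega
  obtain ⟨m₀, hm₀⟩ := exists_pow_lt_of_lt_one (div_pos (lt_min hr one_pos) hB0) hp
  have hroot : ∀ m : ℕ, P.IsRoot (((p ^ (m₀ + m) : ℕ) : E)) := by
    intro m
    have hs : ‖((p ^ (m₀ + m) : ℕ) : F)‖ * B < min r 1 := by
      rw [← lt_div_iff₀ hB0, Nat.cast_pow, norm_pow]
      exact (pow_le_pow_of_le_one (norm_nonneg _) hp.le (Nat.le_add_right _ _)).trans_lt hm₀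
    have hX := hB.smul ((p ^ (m₀ + m) : ℕ) : F)
    obtain ⟨k, hk⟩ := exists_gl_of_mle (hs.trans_le (min_le_right _ _)) hX
    have hn : Near r k := fun i j => by
      rw [hk, add_sub_cancel_left]
      exact (hX i j).trans_lt (hs.trans_le (min_le_left _ _))
    have := hP ((p ^ (m₀ + m) : ℕ) : ℚ) k (by rw [hM, Rat.cast_natCast, hk])
    rw [h k hn, zero_mul, Rat.cast_natCast] at this
    exact this.symm
  have hP0 : P = 0 := by
    refine eq_zero_of_infinite_isRoot P (Set.infinite_of_injective_forall_mem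
      (f := fun m : ℕ => ((p ^ (m₀ + m) : ℕ) : E)) (fun a b hab => ?_) hroot)
    exact Nat.add_left_cancel (Nat.pow_right_injective hp1 (Nat.cast_injective hab))
  have h1 := hP 1 g (by rw [hM, Rat.cast_one, one_smul, hY, add_sub_cancel])
  rw [hP0, eval_zero] at h1
  refine (mul_eq_zero.1 h1).resolve_right (pow_ne_zero _ (Finset.prod_ne_zero_iff.2 fun σ _ => ?_))
  exact (_root_.map_ne_zero _).2 (Matrix.GeneralLinearGroup.det_ne_zero g)

omit [IsUltrametricDist F] in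
theorem reg_bdd (hκ : ∀ σ x, ‖κ σ x‖ = ‖x‖) (hf : f ∈ Reg n κ) (C : ℝ) :
    ∃ C' : ℝ, 0 < C' ∧ ∀ g, Bnd C g → ‖f g‖ ≤ C' := by
  refine A1_ind (fun f => ∃ C' : ℝ, 0 < C' ∧ ∀ g, Bnd C g → ‖f g‖ ≤ C') ?_ ?_ ?_ ?_ ?_ hf
  · intro σ i j
    exact ⟨max C 1, lt_max_of_lt_right one_pos, fun g hg =>
      (hκ _ _).trans_le ((hg i j).1.trans (le_max_left _ _))⟩
  · intro σ i j
    exact ⟨max C 1, lt_max_of_lt_right one_pos, fun g hg =>
      (hκ _ _).trans_le ((hg i j).2.trans (le_max_left _ _))⟩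
  · intro c
    exact ⟨max ‖c‖ 1, lt_max_of_lt_right one_pos, fun g _ => le_max_left _ _⟩
  · rintro u v - - ⟨a, ha, h⟩ ⟨b, -, h'⟩
    exact ⟨max a b, lt_max_of_lt_left ha, fun g hg =>
      (IsUltrametricDist.norm_add_le_max _ _).trans (max_le_max (h g hg) (h' g hg))⟩
  · rintro u v - - ⟨a, ha, h⟩ ⟨b, hb, h'⟩
    exact ⟨a * b, mul_pos ha hb, fun g hg =>
      (norm_mul _ _).trans_le (mul_le_mul (h g hg) (h' g hg) (norm_nonneg _) ha.le)⟩

theorem reg_cont (hκ : ∀ σ x, ‖κ σ x‖ = ‖x‖) (hf : f ∈ Reg n κ) {ε : ℝ} (hε : 0 < ε) :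
    ∃ r : ℝ, 0 < r ∧ ∀ k, Near r k → ‖f k - f 1‖ ≤ ε := by
  revert ε
  refine A1_ind (fun f => ∀ {ε : ℝ}, 0 < ε → ∃ r : ℝ, 0 < r ∧ ∀ k, Near r k → ‖f k - f 1‖ ≤ ε)
    ?_ ?_ ?_ ?_ ?_ hf
  · intro σ i j ε hε
    refine ⟨ε, hε, fun k hk => ?_⟩
    rw [← map_sub, hκ]
    exact (hk i j).le
  · intro σ i j ε hε
    refine ⟨min ε 1, lt_min hε one_pos, fun k hk => ?_⟩
    rw [← map_sub, hκ, inv_one]
    exact (hk.inv (lt_min hε one_pos) (min_le_right _ _) i j).le.trans (min_le_left _ _)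
  · intro c ε hε
    exact ⟨1, one_pos, fun k _ => by simpa using hε.le⟩
  · intro u v _ _ hu hv ε hε
    obtain ⟨r, hr, h⟩ := hu hε
    obtain ⟨s, hs, h'⟩ := hv hε
    refine ⟨min r s, lt_min hr hs, fun k hk => ?_⟩
    rw [add_sub_add_comm]
    exact (IsUltrametricDist.norm_add_le_max _ _).trans
      (max_le (h k (hk.mono (min_le_left _ _))) (h' k (hk.mono (min_le_right _ _))))
  · intro u v hu' hv' hu hv ε hε
    obtain ⟨a, ha, hua⟩ := reg_bdd hκ hu' 1
    obtain ⟨b, hb, hvb⟩ := reg_bdd hκ hv' 1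
    obtain ⟨r, hr, h⟩ := hu (div_pos hε hb)
    obtain ⟨s, hs, h'⟩ := hv (div_pos hε ha)
    refine ⟨min 1 (min r s), lt_min one_pos (lt_min hr hs), fun k hk => ?_⟩
    have e : u k * v k - u 1 * v 1 = u k * (v k - v 1) + (u k - u 1) * v 1 := by ring
    have h1 := hua k ((hk.mono (min_le_left _ _)).bnd one_pos le_rfl)
    have h2 := hvb 1 ((near_one one_pos).bnd one_pos le_rfl)
    have h3 := h k (hk.mono ((min_le_right _ _).trans (min_le_left _ _)))
    have h4 := h' k (hk.mono ((min_le_right _ _).trans (min_le_right _ _)))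
    rw [e]
    refine (IsUltrametricDist.norm_add_le_max _ _).trans (max_le ?_ ?_)
    · rw [norm_mul]
      exact (mul_le_mul h1 h4 (norm_nonneg _) ha.le).trans_eq (mul_div_cancel₀ _ ha.ne')
    · rw [norm_mul]
      exact (mul_le_mul h3 h2 (norm_nonneg _) (div_pos hε hb).le).trans_eq
        (div_mul_cancel₀ _ hb.ne')

end Pool.Agent.MP_4d0c14_b
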