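import Pool.Agent.MP_4d0c14_b.Alg

/-! Invariance properties of the highest weight function. -/

namespace Pool.Agent.MP_4d0c14_b

open scoped Matrix

variable {n : ℕ} {F E ι : Type} [Field F] [Field E] [Fintype ι] (κ : ι → F →+* E)
  (a : ι → Fin n → ℤ)

theorem A2_abel (x : ℕ → E) (hx : ∀ i, x i ≠ 0) (c : ℕ → ℤ) (m : ℕ) :
    (∏ i ∈ Finset.range m, (∏ j ∈ Finset.range (i + 1), x j) ^ (c i - c (i + 1))) *
      (∏ j ∈ Finset.range m, x j) ^ c m = ∏ i ∈ Finset.range m, x i ^ c i := by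
  induction m with
  | zero => simp
  | succ m ih =>
    rw [Finset.prod_range_succ, mul_assoc,
      ← zpow_add₀ (Finset.prod_ne_zero_iff.2 fun j _ => hx j), sub_add_cancel,
      Finset.prod_range_succ x, mul_zpow, ← mul_assoc, ih, Finset.prod_range_succ]

theorem A2_det {k : ℕ} (M : Matrix (Fin n) (Fin n) F) (hM : ∀ i j, j < i → M i j = 0)
    (e : Fin k → Fin n) (he : Function.Injective e) :
    (M.submatrix e e).det = ∏ j, M (e j) (e j) := by
  have hs : StrictMono (e ∘ Tuple.sort e) :=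
    (Tuple.monotone_sort e).strictMono_of_injective (he.comp (Tuple.sort e).injective)
  rw [← Matrix.det_submatrix_equiv_self (Tuple.sort e), Matrix.det_of_isUpperTriangular,
    ← Equiv.prod_comp (Tuple.sort e) fun j => M (e j) (e j)]
  · rfl
  · exact fun i j h => hM _ _ (hs h)

theorem A2_minor_up {u : GL (Fin n) F} (hu : IsUp u) (g : GL (Fin n) F) (i : Fin n) :
    minor (g * u) i = minor g i * ∏ j : Fin ((i : ℕ) + 1),
      (u : Matrix (Fin n) (Fin n) F) (Fin.castLE i.2 j) (Fin.castLE i.2 j) := by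
  rw [← A2_det _ hu _ (Fin.castLE_injective i.2), minor, minor, ← Matrix.det_mul]
  congr 1
  ext p q
  rw [Units.val_mul, Matrix.submatrix_apply, Matrix.mul_apply, Matrix.mul_apply]
  refine (Fintype.sum_of_injective _ (Fin.castLE_injective i.2) _ _ (fun c hc => ?_)
    fun _ => rfl).symm
  have h : (i : ℕ) < c := by
    by_contra h
    exact hc ⟨⟨c, by omega⟩, rfl⟩
  rw [hu c _ (by have := q.2; simp only [Fin.lt_def, Fin.val_castLE]; omega), mul_zero]

theorem A2_diag_ne {b : GL (Fin n) F} (hb : IsUp b) (i : Fin n) :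
    (b : Matrix (Fin n) (Fin n) F) i i ≠ 0 := by
  have h := (Matrix.isUnits_det_units b).ne_zero
  rw [Matrix.det_of_isUpperTriangular fun i j h => hb i j h] at h
  exact Finset.prod_ne_zero_iff.1 h i (Finset.mem_univ _)

theorem chi_mul (s t : Fin n → Fˣ) : chi κ a (s * t) = chi κ a s * chi κ a t := by
  simp only [chi, Pi.mul_apply, Units.val_mul, map_mul, mul_zpow, Finset.prod_mul_distrib]

theorem chi_one : chi κ a 1 = 1 := by
  simp [chi]

theorem chi_ne_zero (t : Fin n → Fˣ) : chi κ a t ≠ 0 :=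
  Finset.prod_ne_zero_iff.2 fun σ _ => Finset.prod_ne_zero_iff.2 fun i _ =>
    zpow_ne_zero _ ((map_ne_zero (κ σ)).2 (t i).ne_zero)

theorem prod_gap {x : Fin n → E} (hx : ∀ i, x i ≠ 0) (c : Fin n → ℤ) :
    ∏ i : Fin n, (∏ j : Fin ((i : ℕ) + 1), x (Fin.castLE i.2 j)) ^ gap c i = ∏ i, x i ^ c i := by
  let x' : ℕ → E := fun j => if h : j < n then x ⟨j, h⟩ else 1
  let c' : ℕ → ℤ := fun j => if h : j < n then c ⟨j, h⟩ else 0
  have hx' : ∀ j, x' j ≠ 0 := fun j => by
    simp only [x']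
    split_ifs
    · exact hx _
    · exact one_ne_zero
  have h := A2_abel x' hx' c' n
  rw [show c' n = 0 from dif_neg (lt_irrefl n), zpow_zero, mul_one,
    ← Fin.prod_univ_eq_prod_range
      (fun i => (∏ j ∈ Finset.range (i + 1), x' j) ^ (c' i - c' (i + 1))),
    ← Fin.prod_univ_eq_prod_range (fun i => x' i ^ c' i)] at h
  have e1 : ∀ i : Fin n, x' i = x i := fun i => dif_pos i.2
  have e2 : ∀ i : Fin n, c' i = c i := fun i => dif_pos i.2
  simp only [e1, e2] at h
  rw [← h]
  refine Finset.prod_congr rfl fun i _ => ?_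
  rw [← Fin.prod_univ_eq_prod_range x']
  congr 1
  exact Finset.prod_congr rfl fun j _ => (e1 (Fin.castLE i.2 j)).symm

theorem hw_tr (g : GL (Fin n) F) : hw κ a (tr g) = hw κ a g := by
  have h : ∀ i, minor (tr g) i = minor g i := fun i => by
    rw [minor, minor, coe_tr, ← Matrix.transpose_submatrix, Matrix.det_transpose]
  simp only [hw, h]

theorem hw_mul_up {u : GL (Fin n) F} (hu : IsUp1 u) (g : GL (Fin n) F) :
    hw κ a (g * u) = hw κ a g := by
  have h1 : IsUp u := fun i j h => by rw [hu i j h.le, Matrix.one_apply_ne h.ne']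
  have h2 : ∀ i, (u : Matrix (Fin n) (Fin n) F) i i = 1 := fun i => by
    rw [hu i i le_rfl, Matrix.one_apply_eq]
  simp only [hw, A2_minor_up h1, h2, Finset.prod_const_one, mul_one]

theorem hw_low_mul {u : GL (Fin n) F} (hu : IsLow1 u) (g : GL (Fin n) F) :
    hw κ a (u * g) = hw κ a g := by
  have h : IsUp1 (tr u) := fun i j h => by
    rw [coe_tr, Matrix.transpose_apply, hu j i h, Matrix.one_apply, Matrix.one_apply]
    simp only [eq_comm]
  rw [← hw_tr, tr_mul, hw_mul_up κ a h, hw_tr]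

theorem A2_mul_dg (t : Fin n → Fˣ) (g : GL (Fin n) F) :
    hw κ a (g * dg t) = chi κ a t * hw κ a g := by
  have h1 : IsUp (dg t) := fun i j h => Matrix.diagonal_apply_ne _ h.ne'
  simp only [hw, chi, A2_minor_up h1, coe_dg, Matrix.diagonal_apply_eq, map_mul, map_prod,
    mul_zpow, Finset.prod_mul_distrib]
  rw [mul_comm]
  congr 1
  exact Finset.prod_congr rfl fun σ _ =>
    prod_gap (x := fun i => κ σ (t i)) (fun i => (map_ne_zero (κ σ)).2 (t i).ne_zero) _

theorem hw_dg_mul (t : Fin n → Fˣ) (g : GL (Fin n) F) :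
    hw κ a (dg t * g) = chi κ a t * hw κ a g := by
  rw [← hw_tr, tr_mul, tr_dg, A2_mul_dg, hw_tr]

theorem hw_mul_dg (t : Fin n → Fˣ) (g : GL (Fin n) F) :
    hw κ a (g * dg t) = chi κ a t * hw κ a g := A2_mul_dg κ a t g

theorem hw_one : hw κ a (1 : GL (Fin n) F) = 1 := by
  have h : ∀ i, minor (1 : GL (Fin n) F) i = 1 := fun i => by
    rw [minor, Units.val_one, Matrix.submatrix_one _ (Fin.castLE_injective i.2), Matrix.det_one]
  simp [hw, h]

theorem exists_hw_perm (s : Equiv.Perm (Fin n)) : ∃ w : GL (Fin n) F, ∀ b, IsUp b →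
    hw κ a (w⁻¹ * b * w) =
      ∏ σ, ∏ i, κ σ ((b : Matrix (Fin n) (Fin n) F) (s i) (s i)) ^ a σ i := by
  refine ⟨⟨s.symm.toPEquiv.toMatrix, s.toPEquiv.toMatrix, ?_, ?_⟩, fun b hb => ?_⟩
  · rw [← PEquiv.toMatrix_trans, ← Equiv.toPEquiv_trans, Equiv.symm_trans_self,
      Equiv.toPEquiv_refl, PEquiv.toMatrix_refl]
  · rw [← PEquiv.toMatrix_trans, ← Equiv.toPEquiv_trans, Equiv.self_trans_symm,
      Equiv.toPEquiv_refl, PEquiv.toMatrix_refl]
  · refine Finset.prod_congr rfl fun σ _ => ?_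
    rw [← prod_gap (x := fun i => κ σ ((b : Matrix (Fin n) (Fin n) F) (s i) (s i)))
      fun i => (map_ne_zero (κ σ)).2 (A2_diag_ne hb _)]
    refine Finset.prod_congr rfl fun i _ => ?_
    rw [← map_prod, ← A2_det _ hb (fun j : Fin ((i : ℕ) + 1) => s (Fin.castLE i.2 j))
      (s.injective.comp (Fin.castLE_injective i.2)), minor, Units.val_mul, Units.val_mul,
      Units.inv_mk, PEquiv.toMatrix_toPEquiv_mul, PEquiv.mul_toMatrix_toPEquiv]
    rfl

theorem alg_low_mul (φ : algSpace κ a) {u : GL (Fin n) F} (hu : IsLow1 u) (g : GL (Fin n) F) :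
    φ.1 (u * g) = φ.1 g := by
  obtain ⟨φ, hφ⟩ := φ
  induction hφ using Submodule.span_induction with
  | mem _ h =>
    obtain ⟨y, rfl⟩ := h
    change hw κ a (u * g * y) = hw κ a (g * y)
    rw [mul_assoc, hw_low_mul κ a hu]
  | zero => rfl
  | add f f' _ _ h h' => exact congrArg₂ (· + ·) h h'
  | smul c f _ h => exact congrArg (c • ·) h

theorem alg_dg_mul (φ : algSpace κ a) (t : Fin n → Fˣ) (g : GL (Fin n) F) :
    φ.1 (dg t * g) = chi κ a t * φ.1 g := by
  obtain ⟨φ, hφ⟩ := φ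
  induction hφ using Submodule.span_induction with
  | mem _ h =>
    obtain ⟨y, rfl⟩ := h
    change hw κ a (dg t * g * y) = chi κ a t * hw κ a (g * y)
    rw [mul_assoc, hw_dg_mul]
  | zero => exact (mul_zero _).symm
  | add f f' _ _ h h' => exact (congrArg₂ (· + ·) h h').trans (mul_add _ _ _).symm
  | smul c f _ h => exact (congrArg (c * ·) h).trans (mul_left_comm _ _ _)

theorem hw_mem_algSpace : hw κ a ∈ algSpace κ a :=
  Submodule.subset_span ⟨1, funext fun x => congrArg _ (mul_one x)⟩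

theorem span_orbit_hw :
    Submodule.span E (Set.range fun g => algR κ a g ⟨hw κ a, hw_mem_algSpace κ a⟩) = ⊤ := by
  apply Submodule.map_injective_of_injective (algSpace κ a).injective_subtype
  rw [Submodule.map_span, Submodule.map_subtype_top, ← Set.range_comp]
  rfl

end Pool.Agent.MP_4d0c14_b
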