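import Pool.Agent.MP_4d0c14_b.A1
import Pool.Agent.MP_4d0c14_b.A2
import Pool.Agent.MP_4d0c14_b.M1

/-! The matrix model and its grading. -/

namespace Pool.Agent.MP_4d0c14_b

open scoped Matrix

variable {n : ℕ} {F E ι : Type} [NormedField F] [IsUltrametricDist F] [CharZero F]
  [NormedField E] [CharZero E] [Fintype ι] {κ : ι → F →+* E} {a : ι → Fin n → ℤ}

omit [IsUltrametricDist F] [CharZero F] [CharZero E] in
theorem alg_mem_reg (ha : ∀ σ, Antitone (a σ)) (φ : algSpace κ a) : φ.1 ∈ Reg n κ := by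
  have h : algSpace κ a ≤ Subalgebra.toSubmodule (Reg n κ) := by
    rw [algSpace, Submodule.span_le]
    rintro _ ⟨g, rfl⟩
    exact reg_right (hw_mem_reg κ ha) g
  exact h φ.2

omit [IsUltrametricDist F] [CharZero F] [CharZero E] in
theorem exists_model (κ : ι → F →+* E) (ha : ∀ σ, Antitone (a σ)) :
    ∃ (N : ℕ) (e : algSpace κ a ≃ₗ[E] (Fin N → E))
      (ρ : GL (Fin n) F →* Matrix (Fin N) (Fin N) E), IsModel κ a e ρ := by
  obtain ⟨N, u, v, -, h⟩ := reg_finite_rank (hw_mem_reg κ ha)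
  have h1 : algSpace κ a ≤ Submodule.span E (Set.range u) := by
    rw [algSpace, Submodule.span_le]
    rintro _ ⟨g, rfl⟩
    have e : (fun x => hw κ a (x * g)) = ∑ i, v i g • u i := by
      funext x
      simp [h, mul_comm]
    simp only [e]
    exact Submodule.sum_mem _ fun i _ => Submodule.smul_mem _ _ (Submodule.subset_span ⟨i, rfl⟩)
  have := FiniteDimensional.span_of_finite E (Set.finite_range u)
  have := Submodule.finiteDimensional_of_le h1
  let b := Module.finBasis E (algSpace κ a)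
  refine ⟨_, b.equivFun, (LinearMap.toMatrixAlgEquiv b).toAlgHom.toMonoidHom.comp (algR κ a),
    fun g φ => ?_⟩
  exact (LinearMap.toMatrix_mulVec_repr b b (algR κ a g) φ).symm

omit [IsUltrametricDist F] [CharZero F] [CharZero E] in
/-- the coordinates are combinations of evaluations at points of a separating set -/
theorem exists_coord {N : ℕ} (e : algSpace κ a ≃ₗ[E] (Fin N → E)) (A : Set (GL (Fin n) F))
    (hA : ∀ φ : algSpace κ a, (∀ x ∈ A, φ.1 x = 0) → φ = 0) (i : Fin N) :
    ∃ c : GL (Fin n) F →₀ E, (∀ x ∈ c.support, x ∈ A) ∧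
      ∀ φ : algSpace κ a, e φ i = c.sum fun x y => y * φ.1 x := by
  have := e.symm.finiteDimensional
  let ev : GL (Fin n) F → algSpace κ a →ₗ[E] E := fun x =>
    (LinearMap.proj x).comp (algSpace κ a).subtype
  have h1 := FiniteDimensional.mem_span_of_iInf_ker_le_ker (L := fun x : A => ev x)
    (K := (LinearMap.proj i).comp e.toLinearMap) fun φ hφ => by
      rw [hA φ fun x hx => (Submodule.mem_iInf _).1 hφ ⟨x, hx⟩]
      exact zero_mem _
  rw [← Set.image_eq_range, Finsupp.mem_span_image_iff_linearCombination] at h1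
  obtain ⟨c, hc, h2⟩ := h1
  refine ⟨c, fun x hx => hc hx, fun φ => ?_⟩
  have h3 := LinearMap.congr_fun h2 φ
  rw [Finsupp.linearCombination_apply, Finsupp.sum, LinearMap.sum_apply] at h3
  exact h3.symm

omit [IsUltrametricDist F] [CharZero F] [CharZero E] in
theorem A3_entry {N : ℕ} {e : algSpace κ a ≃ₗ[E] (Fin N → E)}
    {ρ : GL (Fin n) F →* Matrix (Fin N) (Fin N) E} (h : IsModel κ a e ρ) (g : GL (Fin n) F)
    (i j : Fin N) : ρ g i j = e (algR κ a g (e.symm (Pi.single j 1))) i := by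
  rw [h, e.apply_symm_apply, Matrix.mulVec_single_one]
  rfl

omit [IsUltrametricDist F] [CharZero F] [CharZero E] in
theorem IsModel.reg (ha : ∀ σ, Antitone (a σ)) {N : ℕ} {e : algSpace κ a ≃ₗ[E] (Fin N → E)}
    {ρ : GL (Fin n) F →* Matrix (Fin N) (Fin N) E} (h : IsModel κ a e ρ) (i j : Fin N) :
    (fun g => ρ g i j) ∈ Reg n κ := by
  obtain ⟨c, -, hc⟩ := exists_coord e Set.univ
    (fun φ hφ => Subtype.ext (funext fun x => hφ x trivial)) i
  have e1 : (fun g => ρ g i j) =
      ∑ x ∈ c.support, c x • fun g => (e.symm (Pi.single j 1)).1 (x * g) := by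
    funext g
    rw [A3_entry h, hc, Finset.sum_apply]
    rfl
  rw [e1]
  exact Subalgebra.sum_mem _ fun x _ =>
    Subalgebra.smul_mem _ (reg_left (alg_mem_reg ha _) x) _

theorem alg_eq_zero_of_up (p : ℕ) (hp0 : p ≠ 0) (hp : ‖(p : F)‖ < 1) (ha : ∀ σ, Antitone (a σ))
    (φ : algSpace κ a) (h : ∀ u, IsUp1 u → φ.1 u = 0) : φ = 0 := by
  refine Subtype.ext (reg_eq_zero p hp0 hp (alg_mem_reg ha φ) one_pos fun k hk => ?_)
  obtain ⟨l, u, t, hl, hu, -, -, -, rfl⟩ := exists_ldu one_pos le_rfl hk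
  rw [mul_assoc, alg_low_mul κ a φ hl, alg_dg_mul, h u hu, mul_zero]

omit [IsUltrametricDist F] in
theorem A3_poly (ha : ∀ σ, Antitone (a σ)) (φ : algSpace κ a) (x : GL (Fin n) F) :
    ∃ P : Polynomial E, IsUp1 x → P.eval 0 = φ.1 1 ∧ ∀ (z : Fˣ) (y : ℚ), (z : F) = y →
      φ.1 (x * dg fun i => z ^ (i : ℕ)) = chi κ a (fun i => z ^ (i : ℕ)) * P.eval (y : E) := by
  obtain ⟨N, P, hP⟩ := reg_curve (alg_mem_reg ha φ) (Matrix.of fun i k : Fin n =>
    if i ≤ k then Polynomial.C (x.val i k) * Polynomial.X ^ ((k : ℕ) - i) else 0)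
  refine ⟨P, fun hx => ⟨?_, fun z y hz => ?_⟩⟩
  · have h := hP 0 1 (by
      ext i k
      rcases lt_trichotomy i k with h | rfl | h
      · have h2 : (k : ℕ) - i ≠ 0 := by have : (i : ℕ) < k := h; omega
        simp [h.le, h.ne, h2]
      · simp [hx i i le_rfl]
      · simp [h.not_ge, h.ne'])
    simpa using h.symm
  · have h := hP y ((dg fun i => z ^ (i : ℕ))⁻¹ * x * dg fun i => z ^ (i : ℕ)) (by
      ext i k
      rw [← dg_inv, ← hz]
      by_cases h : i ≤ k
      · obtain ⟨d, hd⟩ := Nat.exists_eq_add_of_le (show (i : ℕ) ≤ k from h)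
        simp only [Units.val_mul, coe_dg, Matrix.mul_diagonal, Matrix.diagonal_mul, h, hd,
          Matrix.map_apply, Matrix.of_apply, if_true, Nat.add_sub_cancel_left, Pi.inv_apply,
          Polynomial.eval_mul, Polynomial.eval_C, Polynomial.eval_pow, Polynomial.eval_X,
          Units.val_inv_eq_inv_val, Units.val_pow_eq_pow_val, pow_add]
        field_simp
      · have h2 := hx i k (not_le.1 h).le
        rw [Matrix.one_apply_ne (not_le.1 h).ne'] at h2
        simp [h, h2])
    rw [Units.val_mul, Units.val_mul, Matrix.det_mul, Matrix.det_mul, hx.det, mul_one,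
      ← Matrix.det_mul, Units.inv_mul, Matrix.det_one] at h
    simp only [map_one, Finset.prod_const_one, one_pow, mul_one] at h
    rw [← h, ← alg_dg_mul, ← mul_assoc, ← mul_assoc, mul_inv_cancel, one_mul]

theorem A3_coef {N D : ℕ} (c : Fin (D + 1) → Matrix (Fin N) (Fin N) E)
    (h : ∀ y : ℚ, y ≠ 0 → ∑ M : Fin (D + 1), ((y : E) ^ (M : ℕ)) • c M = 0) (M : Fin (D + 1)) :
    c M = 0 := by
  ext i j
  refine congrFun (Matrix.eq_zero_of_forall_index_sum_pow_mul_eq_zero
    (f := fun k : Fin (D + 1) => ((((k : ℕ) + 1 : ℚ)) : E)) (v := fun M => c M i j)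
    (fun k k' hk => ?_) fun k => ?_) M
  · have h1 := Rat.cast_injective hk
    exact Fin.ext (by exact_mod_cast add_right_cancel h1)
  · have h1 := congrFun (congrFun (h ((k : ℕ) + 1) (by positivity)) i) j
    rw [Matrix.sum_apply] at h1
    exact h1

theorem IsModel.graded (p : ℕ) (hp0 : p ≠ 0) (hp : ‖(p : F)‖ < 1) (ha : ∀ σ, Antitone (a σ))
    {N : ℕ} {e : algSpace κ a ≃ₗ[E] (Fin N → E)}
    {ρ : GL (Fin n) F →* Matrix (Fin N) (Fin N) E} (h : IsModel κ a e ρ) :
    ∃ (l : Fin N → E) (D : ℕ) (π : Fin (D + 1) → Matrix (Fin N) (Fin N) E),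
      (∀ φ : algSpace κ a, l ⬝ᵥ e φ = φ.1 1) ∧
      Graded κ a ρ (e ⟨hw κ a, hw_mem_algSpace κ a⟩) l π := by
  let l : Fin N → E := fun j => (e.symm (Pi.single j 1)).1 1
  have hl : ∀ φ : algSpace κ a, l ⬝ᵥ e φ = φ.1 1 := fun φ => by
    conv_rhs => rw [← e.symm_apply_apply φ, pi_eq_sum_univ' (e φ), map_sum]
    simp only [map_smul, Submodule.coe_sum, Submodule.coe_smul, Finset.sum_apply, Pi.smul_apply,
      smul_eq_mul, dotProduct, l, mul_comm]
  choose c hc hc' using exists_coord e {u | IsUp1 u} (alg_eq_zero_of_up p hp0 hp ha)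
  choose P hP using fun j => A3_poly ha (e.symm (Pi.single j 1))
  let Q : Fin N × Fin N → Polynomial E := fun q => ∑ x ∈ (c q.1).support, c q.1 x • P q.2 x
  let D := Finset.univ.sup fun q => (Q q).natDegree
  let π : Fin (D + 1) → Matrix (Fin N) (Fin N) E := fun M => Matrix.of fun i j => (Q (i, j)).coeff M
  have hT : ∀ (y : E) i j, (∑ M : Fin (D + 1), (y ^ (M : ℕ)) • π M) i j = (Q (i, j)).eval y :=
    fun y i j => by
      rw [Polynomial.eval_eq_sum_range' (n := D + 1) (Nat.lt_succ_of_le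
        (Finset.le_sup (f := fun q => (Q q).natDegree) (Finset.mem_univ (i, j)))),
        Finset.sum_range, Matrix.sum_apply]
      exact Finset.sum_congr rfl fun M _ => mul_comm _ _
  have eig : ∀ (z : Fˣ) (y : ℚ), (z : F) = y → ρ (dg fun i => z ^ (i : ℕ)) =
      chi κ a (fun i => z ^ (i : ℕ)) • ∑ M : Fin (D + 1), ((y : E) ^ (M : ℕ)) • π M :=
    fun z y hz => by
      ext i j
      rw [Matrix.smul_apply, hT, A3_entry h, hc', Polynomial.eval_finsetSum, Finsupp.sum,
        smul_eq_mul, Finset.mul_sum]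
      refine Finset.sum_congr rfl fun x hx => ?_
      rw [algR_apply, (hP j x (hc i x hx)).2 z y hz, Polynomial.eval_smul, smul_eq_mul,
        mul_left_comm]
  have hmul : ∀ y y' : ℚ, y ≠ 0 → y' ≠ 0 →
      ∑ M : Fin (D + 1), (((y * y' : ℚ) : E) ^ (M : ℕ)) • π M =
        (∑ M : Fin (D + 1), ((y : E) ^ (M : ℕ)) • π M) *
          ∑ M : Fin (D + 1), ((y' : E) ^ (M : ℕ)) • π M := fun y y' hy hy' => by
    let z : Fˣ := Units.mk0 (y : F) (by exact_mod_cast hy)
    let z' : Fˣ := Units.mk0 (y' : F) (by exact_mod_cast hy')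
    have h1 := eig (z * z') (y * y') (by simp [z, z'])
    have h2 : (fun i : Fin n => (z * z') ^ (i : ℕ)) =
        (fun i : Fin n => z ^ (i : ℕ)) * fun i : Fin n => z' ^ (i : ℕ) :=
      funext fun i => mul_pow _ _ _
    rw [h2, dg_mul, map_mul, eig z y rfl, eig z' y' rfl, chi_mul, smul_mul_smul_comm] at h1
    exact (smul_right_injective _ (mul_ne_zero (chi_ne_zero κ a _) (chi_ne_zero κ a _)) h1).symm
  refine ⟨l, D, π, hl, ?_, fun u hu => ?_, fun u hu => ?_, fun t => ?_, ?_, ?_, fun M M' => ?_, eig⟩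
  · rw [hl]
    exact hw_one κ a
  · rw [← h]
    exact congrArg e (Subtype.ext (funext fun x => hw_mul_up κ a hu x))
  · funext j
    have h1 := hl (algR κ a u (e.symm (Pi.single j 1)))
    rw [h, Matrix.dotProduct_mulVec, e.apply_symm_apply, dotProduct_single_one, algR_apply,
      one_mul, ← mul_one u, alg_low_mul κ a _ hu, mul_one] at h1
    exact h1
  · rw [← h, ← map_smul]
    exact congrArg e (Subtype.ext (funext fun x => hw_mul_dg κ a t x))
  · ext i j
    rw [Matrix.vecMulVec_apply, hc', Finsupp.sum, Finset.sum_mul]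
    change (Q (i, j)).coeff 0 = _
    rw [Polynomial.coeff_zero_eq_eval_zero, Polynomial.eval_finsetSum]
    refine Finset.sum_congr rfl fun x hx => ?_
    have h1 : hw κ a x = 1 := by
      rw [← one_mul x, hw_mul_up κ a (hc i x hx), hw_one]
    simp only [Polynomial.eval_smul, (hP j x (hc i x hx)).1, h1, mul_one, smul_eq_mul, l]
  · have h1 := eig 1 1 (by simp)
    have h2 : (fun i : Fin n => (1 : Fˣ) ^ (i : ℕ)) = 1 := funext fun i => one_pow _
    rw [h2, dg_one, map_one, chi_one] at h1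
    simpa using h1.symm
  · have h1 : ∀ y' : ℚ, y' ≠ 0 → ((y' : E) ^ (M : ℕ)) • π M -
        π M * ∑ M : Fin (D + 1), ((y' : E) ^ (M : ℕ)) • π M = 0 := fun y' hy' =>
      A3_coef (fun M => ((y' : E) ^ (M : ℕ)) • π M -
        π M * ∑ M : Fin (D + 1), ((y' : E) ^ (M : ℕ)) • π M) (fun y hy => by
          have h2 := hmul y y' hy hy'
          rw [Finset.sum_mul] at h2
          simp only [smul_sub, Finset.sum_sub_distrib, smul_smul, ← mul_pow, ← Rat.cast_mul,
            ← smul_mul_assoc, h2, sub_self]) M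
    refine sub_eq_zero.1 (A3_coef (fun M' => π M * π M' - if M = M' then π M else 0)
      (fun y hy => ?_) M')
    have h2 := h1 y hy
    rw [Finset.mul_sum, sub_eq_zero] at h2
    simp only [smul_sub, Finset.sum_sub_distrib, smul_ite, smul_zero, Finset.sum_ite_eq,
      Finset.mem_univ, if_true, h2, mul_smul_comm, sub_self]

end Pool.Agent.MP_4d0c14_b
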