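import Pool.Agent.MP_4d0c14_b.A3

/-! Burnside density, the invariant form, and the consequences for open subgroups. -/

namespace Pool.Agent.MP_4d0c14_b

open scoped Matrix

variable {n : ℕ} {F E ι : Type} [NormedField F] [IsUltrametricDist F] [CharZero F]
  [NormedField E] [CharZero E] [Fintype ι] {κ : ι → F →+* E} {a : ι → Fin n → ℤ}
  {N : ℕ} {ρ : GL (Fin n) F →* Matrix (Fin N) (Fin N) E}

omit [NormedField F] [IsUltrametricDist F] [CharZero F] [CharZero E] [Fintype ι] in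
theorem A4_span_top (S : Set (Fin N → E))
    (h : ∀ v : Fin N → E, (∀ y ∈ S, y ⬝ᵥ v = 0) → v = 0) : Submodule.span E S = ⊤ := by
  by_contra hne
  obtain ⟨f, hf0, hf⟩ := Submodule.exists_le_ker_of_lt_top _ (lt_top_iff_ne_top.2 hne)
  have hfx : ∀ x : Fin N → E, f x = x ⬝ᵥ fun i => f fun j => if i = j then 1 else 0 := fun x => by
    rw [LinearMap.pi_apply_eq_sum_univ f x]
    rfl
  have h0 := h (fun i => f fun j => if i = j then 1 else 0) fun y hy => by
    rw [← hfx]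
    exact hf (Submodule.subset_span hy)
  apply hf0
  refine LinearMap.ext fun x => ?_
  rw [hfx, h0, dotProduct_zero]
  rfl

omit [NormedField F] [IsUltrametricDist F] [CharZero F] [CharZero E] [Fintype ι] in
theorem A4_fun_eq (f : Matrix (Fin N) (Fin N) E →ₗ[E] E) (X : Matrix (Fin N) (Fin N) E) :
    f X = ∑ i, ∑ j, f (Matrix.single i j 1) * X i j := by
  conv_lhs => rw [Matrix.matrix_eq_sum_single X]
  rw [map_sum]
  refine Finset.sum_congr rfl fun i _ => ?_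
  rw [map_sum]
  refine Finset.sum_congr rfl fun j _ => ?_
  have : Matrix.single i j (X i j) = X i j • Matrix.single i j (1 : E) := by simp
  rw [this, map_smul, smul_eq_mul, mul_comm]

omit [IsUltrametricDist F] [CharZero F] [CharZero E] in
theorem A4_eval {e : algSpace κ a ≃ₗ[E] (Fin N → E)} (h : IsModel κ a e ρ) {l : Fin N → E}
    (hl : ∀ φ : algSpace κ a, l ⬝ᵥ e φ = φ.1 1) (g : GL (Fin n) F) (φ : algSpace κ a) :
    (l ᵥ* ρ g) ⬝ᵥ e φ = φ.1 g := by
  rw [← Matrix.dotProduct_mulVec, ← h g φ, hl, algR_apply, one_mul]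

omit [IsUltrametricDist F] [CharZero F] [CharZero E] in
theorem A4_span_w {e : algSpace κ a ≃ₗ[E] (Fin N → E)} (h : IsModel κ a e ρ) :
    Submodule.span E (Set.range fun g => ρ g *ᵥ e ⟨hw κ a, hw_mem_algSpace κ a⟩) = ⊤ := by
  have h1 := congrArg (Submodule.map e.toLinearMap) (span_orbit_hw κ a)
  rw [Submodule.map_span, Submodule.map_top, LinearEquiv.range, ← Set.range_comp] at h1
  rw [← h1]
  congr 2
  funext g
  exact (h g _).symm

omit [IsUltrametricDist F] [CharZero F] [CharZero E] in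
theorem A4_span_l {e : algSpace κ a ≃ₗ[E] (Fin N → E)} (h : IsModel κ a e ρ) {l : Fin N → E}
    (hl : ∀ φ : algSpace κ a, l ⬝ᵥ e φ = φ.1 1) :
    Submodule.span E (Set.range fun g => l ᵥ* ρ g) = ⊤ := by
  refine A4_span_top _ fun v hv => ?_
  obtain ⟨φ, rfl⟩ := e.surjective v
  have : φ = 0 := Subtype.ext (funext fun g => by
    rw [← A4_eval h hl g φ]
    exact hv _ ⟨g, rfl⟩)
  rw [this, map_zero]

omit [IsUltrametricDist F] in
theorem A4_kill {w l : Fin N → E} {D : ℕ} {π : Fin (D + 1) → Matrix (Fin N) (Fin N) E}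
    (hG : Graded κ a ρ w l π) (f : Matrix (Fin N) (Fin N) E →ₗ[E] E) (hf : ∀ g, f (ρ g) = 0) :
    f (Matrix.vecMulVec w l) = 0 := by
  have hinj : Function.Injective fun j : Fin (D + 1) => ((((j : ℕ) : ℚ) + 1 : ℚ) : E) := by
    intro i j hij
    have h1 : ((i : ℕ) : ℚ) + 1 = ((j : ℕ) : ℚ) + 1 := Rat.cast_injective hij
    have h2 : ((i : ℕ) : ℚ) = ((j : ℕ) : ℚ) := add_right_cancel h1
    exact Fin.ext (Nat.cast_injective h2)
  have h0 := Matrix.eq_zero_of_forall_index_sum_pow_mul_eq_zero (v := fun M => f (π M)) hinj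
    fun j => by
      have hz : ((((j : ℕ) : ℚ) + 1 : ℚ) : F) ≠ 0 := by
        rw [Rat.cast_ne_zero]
        positivity
      have h1 := hf (dg fun i => (Units.mk0 _ hz) ^ (i : ℕ))
      rw [hG.eig (Units.mk0 _ hz) _ rfl, map_smul, smul_eq_zero, map_sum] at h1
      rcases h1 with h1 | h1
      · exact absurd h1 (chi_ne_zero κ a _)
      · simpa only [map_smul, smul_eq_mul] using h1
  rw [← hG.zero]
  exact congrFun h0 0

omit [IsUltrametricDist F] in
theorem A4_burn {w l : Fin N → E} {D : ℕ} {π : Fin (D + 1) → Matrix (Fin N) (Fin N) E}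
    (hG : Graded κ a ρ w l π) (hw' : Submodule.span E (Set.range fun g => ρ g *ᵥ w) = ⊤)
    (hl' : Submodule.span E (Set.range fun g => l ᵥ* ρ g) = ⊤) :
    Submodule.span E (Set.range ρ) = ⊤ := by
  by_contra hne
  obtain ⟨f, hf0, hf⟩ := Submodule.exists_le_ker_of_lt_top _ (lt_top_iff_ne_top.2 hne)
  have h1 : ∀ g k, f (Matrix.vecMulVec (ρ g *ᵥ w) (l ᵥ* ρ k)) = 0 := fun g k => by
    have := A4_kill hG (f ∘ₗ (LinearMap.mulLeft E (ρ g) ∘ₗ LinearMap.mulRight E (ρ k))) fun x => by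
      change f (ρ g * (ρ x * ρ k)) = 0
      rw [← map_mul, ← map_mul]
      exact hf (Submodule.subset_span ⟨_, rfl⟩)
    change f (ρ g * (Matrix.vecMulVec w l * ρ k)) = 0 at this
    rwa [Matrix.vecMulVec_mul, Matrix.mul_vecMulVec] at this
  have h2 : ∀ x k, f (Matrix.vecMulVec x (l ᵥ* ρ k)) = 0 := fun x k => by
    have hx : x ∈ Submodule.span E (Set.range fun g => ρ g *ᵥ w) := hw' ▸ Submodule.mem_top
    induction hx using Submodule.span_induction with
    | mem x hx =>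
      obtain ⟨g, rfl⟩ := hx
      exact h1 g k
    | zero => simp
    | add x y _ _ hx hy => rw [Matrix.add_vecMulVec, map_add, hx, hy, add_zero]
    | smul c x _ hx => rw [Matrix.smul_vecMulVec, map_smul, hx, smul_zero]
  have h3 : ∀ x y, f (Matrix.vecMulVec x y) = 0 := fun x y => by
    have hy : y ∈ Submodule.span E (Set.range fun g => l ᵥ* ρ g) := hl' ▸ Submodule.mem_top
    induction hy using Submodule.span_induction with
    | mem y hy =>
      obtain ⟨g, rfl⟩ := hy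
      exact h2 x g
    | zero => simp
    | add y z _ _ hy hz => rw [Matrix.vecMulVec_add, map_add, hy, hz, add_zero]
    | smul c y _ hy => rw [Matrix.vecMulVec_smul, map_smul, hy, smul_zero]
  apply hf0
  refine LinearMap.ext fun X => ?_
  rw [A4_fun_eq f X]
  simp [Matrix.single_eq_single_vecMulVec_single, h3]

omit [IsUltrametricDist F] [CharZero F] [CharZero E] in
theorem A4_form {e : algSpace κ a ≃ₗ[E] (Fin N → E)} (h : IsModel κ a e ρ) {l : Fin N → E}
    (hl : ∀ φ : algSpace κ a, l ⬝ᵥ e φ = φ.1 1) :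
    ∃ S : GL (Fin N) E, ∀ g, (ρ g)ᵀ * S = S * ρ (tr g) := by
  set w := e ⟨hw κ a, hw_mem_algSpace κ a⟩ with hwd
  have hB : ∀ g k, (l ᵥ* ρ (tr g)) ⬝ᵥ (ρ k *ᵥ w) = hw κ a (tr g * k) := fun g k => by
    rw [Matrix.dotProduct_mulVec, Matrix.vecMul_vecMul, ← map_mul, hwd, A4_eval h hl]
  have h1 : ∀ v : Fin N → E, ∃ s : Fin N → E, ∀ k, (ρ k *ᵥ w) ⬝ᵥ s = (l ᵥ* ρ (tr k)) ⬝ᵥ v := by
    intro v
    have hv : v ∈ Submodule.span E (Set.range fun g => ρ g *ᵥ w) :=
      A4_span_w h ▸ Submodule.mem_top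
    induction hv using Submodule.span_induction with
    | mem x hx =>
      obtain ⟨g, rfl⟩ := hx
      refine ⟨l ᵥ* ρ (tr g), fun k => ?_⟩
      rw [dotProduct_comm, hB, hB, ← hw_tr κ a (tr g * k), tr_mul, tr_tr]
    | zero => exact ⟨0, fun k => by simp⟩
    | add x y _ _ hx hy =>
      obtain ⟨s, hs⟩ := hx
      obtain ⟨t, ht⟩ := hy
      exact ⟨s + t, fun k => by rw [dotProduct_add, dotProduct_add, hs, ht]⟩
    | smul c x _ hx =>
      obtain ⟨s, hs⟩ := hx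
      exact ⟨c • s, fun k => by rw [dotProduct_smul, dotProduct_smul, hs]⟩
  choose s hs using h1
  let S : Matrix (Fin N) (Fin N) E := Matrix.of fun i j => s (Pi.single j 1) i
  have hS : ∀ k, (ρ k *ᵥ w) ᵥ* S = l ᵥ* ρ (tr k) := fun k => by
    funext j
    have := hs (Pi.single j 1) k
    rw [dotProduct_single_one] at this
    exact this
  have hunit : IsUnit S := by
    rw [← Matrix.vecMul_surjective_iff_isUnit]
    intro y
    have hy : y ∈ Submodule.span E (Set.range fun g => l ᵥ* ρ g) :=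
      A4_span_l h hl ▸ Submodule.mem_top
    induction hy using Submodule.span_induction with
    | mem y hy =>
      obtain ⟨g, rfl⟩ := hy
      exact ⟨ρ (tr g) *ᵥ w, by simpa only [tr_tr] using hS (tr g)⟩
    | zero => exact ⟨0, Matrix.zero_vecMul _⟩
    | add y z _ _ hy hz =>
      obtain ⟨u, rfl⟩ := hy
      obtain ⟨v, rfl⟩ := hz
      exact ⟨u + v, Matrix.add_vecMul _ _ _⟩
    | smul c y _ hy =>
      obtain ⟨u, rfl⟩ := hy
      exact ⟨c • u, Matrix.smul_vecMul _ _ _⟩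
  refine ⟨hunit.unit, fun g => ?_⟩
  rw [IsUnit.unit_spec, Matrix.ext_iff_vecMul]
  intro v
  have hv : v ∈ Submodule.span E (Set.range fun g => ρ g *ᵥ w) :=
    A4_span_w h ▸ Submodule.mem_top
  induction hv using Submodule.span_induction with
  | mem x hx =>
    obtain ⟨k, rfl⟩ := hx
    rw [← Matrix.vecMul_vecMul, ← Matrix.vecMul_vecMul, Matrix.vecMul_transpose,
      Matrix.mulVec_mulVec, ← map_mul, hS, hS, tr_mul, map_mul, Matrix.vecMul_vecMul]
  | zero => simp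
  | add x y _ _ hx hy => rw [Matrix.add_vecMul, Matrix.add_vecMul, hx, hy]
  | smul c x _ hx => rw [Matrix.smul_vecMul, Matrix.smul_vecMul, hx]

theorem IsModel.algOK (p : ℕ) (hp0 : p ≠ 0) (hp : ‖(p : F)‖ < 1) (ha : ∀ σ, Antitone (a σ))
    {e : algSpace κ a ≃ₗ[E] (Fin N → E)} (h : IsModel κ a e ρ) : AlgOK κ a ρ := by
  obtain ⟨l, D, π, hl, hG⟩ := h.graded p hp0 hp ha
  refine ⟨h.reg ha, A4_burn hG (A4_span_w h) (A4_span_l h hl), A4_form h hl, fun s => ?_,
    fun z => ?_, ⟨_, l, D, π, hG⟩⟩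
  · obtain ⟨w, hw'⟩ := exists_hw_perm κ a s
    refine ⟨l ᵥ* ρ w⁻¹, ρ w *ᵥ e ⟨hw κ a, hw_mem_algSpace κ a⟩, fun b hb => ?_⟩
    rw [← hw' b hb, Matrix.mulVec_mulVec, Matrix.dotProduct_mulVec, Matrix.vecMul_vecMul,
      ← map_mul, ← map_mul, A4_eval h hl, mul_assoc]
  · rw [Matrix.ext_iff_mulVec]
    intro v
    obtain ⟨φ, rfl⟩ := e.surjective v
    rw [← h, Matrix.smul_mulVec, Matrix.one_mulVec, ← map_smul]
    congr 1
    refine Subtype.ext (funext fun x => ?_)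
    rw [algR_apply, ← dg_const_comm, alg_dg_mul]
    rfl

omit [IsUltrametricDist F] [CharZero F] [CharZero E] in
theorem AlgOK.nonempty (h : AlgOK κ a ρ) : Nonempty (Fin N) := by
  obtain ⟨w, l, D, π, hG⟩ := h.grad
  by_contra hne
  rw [not_nonempty_iff] at hne
  have := hG.lw
  simp [dotProduct] at this

theorem AlgOK.burn_near (h : AlgOK κ a ρ) (p : ℕ) (hp0 : p ≠ 0) (hp : ‖(p : F)‖ < 1) {r : ℝ}
    (hr : 0 < r) : Submodule.span E {A | ∃ k, Near r k ∧ A = ρ k} = ⊤ := by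
  by_contra hne
  obtain ⟨f, hf0, hf⟩ := Submodule.exists_le_ker_of_lt_top _ (lt_top_iff_ne_top.2 hne)
  have hreg : (fun g => f (ρ g)) ∈ Reg n κ := by
    have : (fun g => f (ρ g)) =
        ∑ i, ∑ j, f (Matrix.single i j 1) • fun g : GL (Fin n) F => ρ g i j := by
      funext g
      rw [A4_fun_eq f (ρ g)]
      simp [Finset.sum_apply]
    rw [this]
    exact Subalgebra.sum_mem _ fun i _ => Subalgebra.sum_mem _ fun j _ =>
      Subalgebra.smul_mem _ (h.reg i j) _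
  have h0 := reg_eq_zero p hp0 hp hreg hr fun k hk => hf (Submodule.subset_span ⟨k, hk, rfl⟩)
  apply hf0
  refine LinearMap.ext_on_range h.burn fun g => congrFun h0 g

theorem AlgOK.schur (h : AlgOK κ a ρ) (p : ℕ) (hp0 : p ≠ 0) (hp : ‖(p : F)‖ < 1) {r : ℝ}
    (hr : 0 < r) {X : Matrix (Fin N) (Fin N) E} (hX : ∀ k, Near r k → ρ k * X = X * ρ k) :
    ∃ c : E, X = c • (1 : Matrix (Fin N) (Fin N) E) := by
  have h1 : ∀ A : Matrix (Fin N) (Fin N) E, A * X = X * A := fun A => by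
    have hA : A ∈ Submodule.span E {A | ∃ k, Near r k ∧ A = ρ k} :=
      h.burn_near p hp0 hp hr ▸ Submodule.mem_top
    induction hA using Submodule.span_induction with
    | mem x hx =>
      obtain ⟨k, hk, rfl⟩ := hx
      exact hX k hk
    | zero => simp
    | add x y _ _ hx hy => rw [add_mul, mul_add, hx, hy]
    | smul c x _ hx => rw [Matrix.smul_mul, Matrix.mul_smul, hx]
  obtain ⟨c, hc⟩ := Matrix.mem_range_scalar_iff_commute_single'.2 fun i j => h1 (Matrix.single i j 1)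
  exact ⟨c, by rw [← hc, Matrix.scalar_apply, Matrix.smul_one_eq_diagonal]⟩

theorem AlgOK.irred (h : AlgOK κ a ρ) (p : ℕ) (hp0 : p ≠ 0) (hp : ‖(p : F)‖ < 1) {r : ℝ}
    (hr : 0 < r) (U : Submodule E (Fin N → E)) (hU : ∀ k, Near r k → ∀ v ∈ U, ρ k *ᵥ v ∈ U)
    {v : Fin N → E} (hv : v ∈ U) (h0 : v ≠ 0) : U = ⊤ := by
  have h1 : ∀ A : Matrix (Fin N) (Fin N) E, A *ᵥ v ∈ U := fun A => by
    have hA : A ∈ Submodule.span E {A | ∃ k, Near r k ∧ A = ρ k} :=
      h.burn_near p hp0 hp hr ▸ Submodule.mem_top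
    induction hA using Submodule.span_induction with
    | mem x hx =>
      obtain ⟨k, hk, rfl⟩ := hx
      exact hU k hk v hv
    | zero => simp
    | add x y _ _ hx hy => rw [Matrix.add_mulVec]; exact U.add_mem hx hy
    | smul c x _ hx => rw [Matrix.smul_mulVec]; exact U.smul_mem c hx
  obtain ⟨i, hi⟩ := Function.ne_iff.1 h0
  have hi' : v i ≠ 0 := hi
  refine eq_top_iff.2 fun u _ => ?_
  have := h1 (Matrix.vecMulVec u (Pi.single i (v i)⁻¹))
  rwa [Matrix.vecMulVec_mulVec, single_dotProduct, inv_mul_cancel₀ hi', MulOpposite.op_one,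
    one_smul] at this

variable [IsUltrametricDist E]

omit [IsUltrametricDist F] [CharZero F] [CharZero E] in
theorem AlgOK.bdd (h : AlgOK κ a ρ) (hκ : ∀ σ x, ‖κ σ x‖ = ‖x‖) (C : ℝ) :
    ∃ C' : ℝ, 0 < C' ∧ ∀ g, Bnd C g → MLe C' (ρ g) := by
  choose c _ hc using fun i j => reg_bdd hκ (h.reg i j) C
  obtain ⟨C', hC', hb⟩ := MLe.exists_bound (Matrix.of c)
  exact ⟨C', hC', fun g hg i j => (hc i j g hg).trans ((le_abs_self _).trans (hb i j))⟩

omit [CharZero F] [CharZero E] in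
theorem AlgOK.cont (h : AlgOK κ a ρ) (hκ : ∀ σ x, ‖κ σ x‖ = ‖x‖) {ε : ℝ} (hε : 0 < ε) :
    ∃ r : ℝ, 0 < r ∧ ∀ k, Near r k → MLe ε (ρ k - 1) := by
  choose r hr hc using fun i j => reg_cont hκ (h.reg i j) hε
  have := h.nonempty
  obtain ⟨x, hx⟩ := Finite.exists_min fun x : Fin N × Fin N => r x.1 x.2
  refine ⟨r x.1 x.2, hr _ _, fun k hk i j => ?_⟩
  have h1 := hc i j k (hk.mono (hx (i, j)))
  rwa [map_one] at h1

omit [IsUltrametricDist F] [CharZero F] [CharZero E] in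
theorem AlgOK.lower (h : AlgOK κ a ρ) (hκ : ∀ σ x, ‖κ σ x‖ = ‖x‖) : ∃ C : ℝ, 0 < C ∧
    ∀ (s : Equiv.Perm (Fin n)) (b : GL (Fin n) F), IsUp b → ∀ M : ℝ, 0 ≤ M → MLe M (ρ b) →
      ∏ σ, ∏ i, ‖(b : Matrix (Fin n) (Fin n) F) (s i) (s i)‖ ^ a σ i ≤ C * M := by
  choose l w hlw using h.tri
  obtain ⟨C, hC⟩ := (Set.finite_range fun s => ‖l s‖ * ‖w s‖).bddAbove
  refine ⟨max C 1, lt_max_of_lt_right one_pos, fun s b hb M hM hρ => ?_⟩
  have h1 : ∏ σ, ∏ i, ‖(b : Matrix (Fin n) (Fin n) F) (s i) (s i)‖ ^ a σ i =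
      ‖l s ⬝ᵥ (ρ b *ᵥ w s)‖ := by
    rw [hlw s b hb, norm_prod]
    refine Finset.prod_congr rfl fun σ _ => ?_
    rw [norm_prod]
    refine Finset.prod_congr rfl fun i _ => ?_
    rw [norm_zpow, hκ]
  have h2 : ‖l s ⬝ᵥ (ρ b *ᵥ w s)‖ ≤ ‖l s‖ * (M * ‖w s‖) := by
    refine IsUltrametricDist.norm_sum_le_of_forall_le_of_nonneg (by positivity) fun x _ => ?_
    rw [norm_mul]
    exact mul_le_mul (norm_le_pi_norm _ x) ((norm_le_pi_norm _ x).trans (hρ.mulVec hM _))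
      (norm_nonneg _) (norm_nonneg _)
  have h3 : ‖l s‖ * ‖w s‖ ≤ max C 1 := (hC ⟨s, rfl⟩).trans (le_max_left _ _)
  rw [h1]
  calc _ ≤ ‖l s‖ * (M * ‖w s‖) := h2
    _ = ‖l s‖ * ‖w s‖ * M := by ring
    _ ≤ max C 1 * M := mul_le_mul_of_nonneg_right h3 hM

end Pool.Agent.MP_4d0c14_b
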