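import Pool.Agent.MP_4d0c14_b.Mat

/-! Regular functions, matrix models of the algebraic representation. -/

namespace Pool.Agent.MP_4d0c14_b

open scoped Matrix

variable {n : ℕ} {F E ι : Type} [Field F] [Field E]

/-- The algebra of regular functions on `GL(n, F)` with values in `E`. -/
def Reg (n : ℕ) (κ : ι → F →+* E) : Subalgebra E (GL (Fin n) F → E) :=
  Algebra.adjoin E
    ({f | ∃ σ i j, f = fun g : GL (Fin n) F => κ σ ((g : Matrix (Fin n) (Fin n) F) i j)} ∪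
      {f | ∃ σ i j, f = fun g : GL (Fin n) F =>
        κ σ (((g⁻¹ : GL (Fin n) F) : Matrix (Fin n) (Fin n) F) i j)})

variable [Fintype ι]

/-- The highest weight character. -/
def chi (κ : ι → F →+* E) (a : ι → Fin n → ℤ) (t : Fin n → Fˣ) : E :=
  ∏ σ, ∏ i, κ σ (t i) ^ a σ i

/-- The algebraic representation, unbundled. -/
noncomputable def algR (κ : ι → F →+* E) (a : ι → Fin n → ℤ) :
    Representation E (GL (Fin n) F) (algSpace κ a) :=
  (rightReg (GL (Fin n) F) E E).subrepresentation (algSpace κ a) (algSpace_le κ a)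

theorem algR_apply (κ : ι → F →+* E) (a : ι → Fin n → ℤ) (g : GL (Fin n) F) (φ : algSpace κ a)
    (x : GL (Fin n) F) : (algR κ a g φ).1 x = φ.1 (x * g) := rfl

/-- `ρ` is the matrix of the algebraic representation in the coordinates `e`. -/
def IsModel (κ : ι → F →+* E) (a : ι → Fin n → ℤ) {N : ℕ} (e : algSpace κ a ≃ₗ[E] (Fin N → E))
    (ρ : GL (Fin n) F →* Matrix (Fin N) (Fin N) E) : Prop :=
  ∀ g φ, e (algR κ a g φ) = ρ g *ᵥ e φ

/-- The grading by the principal one-parameter subgroup and the highest weight vector. -/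
structure Graded (κ : ι → F →+* E) (a : ι → Fin n → ℤ) {N : ℕ}
    (ρ : GL (Fin n) F →* Matrix (Fin N) (Fin N) E) (w l : Fin N → E) {D : ℕ}
    (π : Fin (D + 1) → Matrix (Fin N) (Fin N) E) : Prop where
  lw : l ⬝ᵥ w = 1
  up : ∀ u, IsUp1 u → ρ u *ᵥ w = w
  low : ∀ u, IsLow1 u → l ᵥ* ρ u = l
  tor : ∀ t, ρ (dg t) *ᵥ w = chi κ a t • w
  zero : π 0 = Matrix.vecMulVec w l
  sum : ∑ M, π M = 1
  orth : ∀ M M', π M * π M' = if M = M' then π M else 0
  eig : ∀ (z : Fˣ) (y : ℚ), (z : F) = y → ρ (dg fun i => z ^ (i : ℕ)) =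
    chi κ a (fun i => z ^ (i : ℕ)) • ∑ M : Fin (D + 1), ((y : E) ^ (M : ℕ)) • π M

/-- The properties of the algebraic representation used in the proof. -/
structure AlgOK (κ : ι → F →+* E) (a : ι → Fin n → ℤ) {N : ℕ}
    (ρ : GL (Fin n) F →* Matrix (Fin N) (Fin N) E) : Prop where
  reg : ∀ i j, (fun g => ρ g i j) ∈ Reg n κ
  burn : Submodule.span E (Set.range ρ) = ⊤
  form : ∃ S : GL (Fin N) E, ∀ g, (ρ g)ᵀ * S = S * ρ (tr g)
  tri : ∀ s : Equiv.Perm (Fin n), ∃ l w : Fin N → E, ∀ b, IsUp b →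
    l ⬝ᵥ (ρ b *ᵥ w) = ∏ σ, ∏ i, κ σ ((b : Matrix (Fin n) (Fin n) F) (s i) (s i)) ^ a σ i
  cen : ∀ z : Fˣ, ρ (dg fun _ => z) = chi κ a (fun _ => z) • (1 : Matrix (Fin N) (Fin N) E)
  grad : ∃ (w l : Fin N → E) (D : ℕ) (π : Fin (D + 1) → Matrix (Fin N) (Fin N) E),
    Graded κ a ρ w l π

end Pool.Agent.MP_4d0c14_b
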