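import Pool.Agent.MP_4d0c14_b.Fib

/-! Algebraic properties of the convolution. -/

namespace Pool.Agent.MP_4d0c14_b

open scoped Matrix

namespace Fib

variable {G E ι : Type} [Group G] [Field E] [Fintype ι] [DecidableEq ι] {D : Fib G E ι}
  {φ κ κ' Y Y' : G → Matrix ι ι E}

theorem Eqv.zero : D.Eqv 0 := fun x h _ => by simp
theorem Eqv.add (h : D.Eqv Y) (h' : D.Eqv Y') : D.Eqv (Y + Y') := fun x g hg => by
  simp only [Pi.add_apply, h x g hg, h' x g hg, mul_add]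
theorem Eqv.neg (h : D.Eqv Y) : D.Eqv (-Y) := fun x g hg => by
  simp only [Pi.neg_apply, h x g hg, mul_neg]
theorem Eqv.sub (h : D.Eqv Y) (h' : D.Eqv Y') : D.Eqv (Y - Y') := fun x g hg => by
  simp only [Pi.sub_apply, h x g hg, h' x g hg, mul_sub]
theorem Eqv.smul (h : D.Eqv Y) (c : E) : D.Eqv (c • Y) := fun x g hg => by
  simp only [Pi.smul_apply, h x g hg, Matrix.mul_smul]
theorem Eqv.sum {σ : Type} {s : Finset σ} {Y : σ → G → Matrix ι ι E} (h : ∀ i ∈ s, D.Eqv (Y i)) :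
    D.Eqv (∑ i ∈ s, Y i) := fun x g hg => by
  simp only [Finset.sum_apply, Finset.mul_sum]
  exact Finset.sum_congr rfl fun i hi => h i hi x g hg
theorem Eqv.translate (h : D.Eqv Y) (g : G) (A : Matrix ι ι E) :
    D.Eqv fun x => Y (g * x) * A := fun x k hk => by
  show Y (g * (x * k)) * A = D.μ k⁻¹ * (Y (g * x) * A)
  rw [← mul_assoc g, h _ k hk, mul_assoc]

theorem LEqv.zero : D.LEqv 0 := fun x h _ => by simp
theorem LEqv.add (h : D.LEqv Y) (h' : D.LEqv Y') : D.LEqv (Y + Y') := fun x g hg => by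
  simp only [Pi.add_apply, h x g hg, h' x g hg, add_mul]
theorem LEqv.neg (h : D.LEqv Y) : D.LEqv (-Y) := fun x g hg => by
  simp only [Pi.neg_apply, h x g hg, neg_mul]
theorem LEqv.sub (h : D.LEqv Y) (h' : D.LEqv Y') : D.LEqv (Y - Y') := fun x g hg => by
  simp only [Pi.sub_apply, h x g hg, h' x g hg, sub_mul]
theorem LEqv.sum {σ : Type} {s : Finset σ} {Y : σ → G → Matrix ι ι E}
    (h : ∀ i ∈ s, D.LEqv (Y i)) : D.LEqv (∑ i ∈ s, Y i) := fun x g hg => by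
  simp only [Finset.sum_apply, Finset.sum_mul]
  exact Finset.sum_congr rfl fun i hi => h i hi x g hg

theorem C1_mono (h : D.Fin0 Y) (hs : ∀ x, Y' x ≠ 0 → Y x ≠ 0) : D.Fin0 Y' := by
  obtain ⟨T, hT⟩ := h
  exact ⟨T, fun x hx => hT x (hs x hx)⟩

theorem Fin0.zero : D.Fin0 0 := ⟨∅, fun _ hx => (hx rfl).elim⟩
theorem Fin0.add (h : D.Fin0 Y) (h' : D.Fin0 Y') : D.Fin0 (Y + Y') := by
  classical
  obtain ⟨T, hT⟩ := h
  obtain ⟨T', hT'⟩ := h'
  refine ⟨T ∪ T', fun x hx => ?_⟩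
  by_cases h1 : Y x = 0
  · have h2 : Y' x ≠ 0 := fun h2 => hx (by simp [h1, h2])
    obtain ⟨t, ht, hh⟩ := hT' x h2
    exact ⟨t, Finset.mem_union_right _ ht, hh⟩
  · obtain ⟨t, ht, hh⟩ := hT x h1
    exact ⟨t, Finset.mem_union_left _ ht, hh⟩
theorem Fin0.neg (h : D.Fin0 Y) : D.Fin0 (-Y) :=
  C1_mono h fun x hx h0 => hx (by simp [h0])
theorem Fin0.sub (h : D.Fin0 Y) (h' : D.Fin0 Y') : D.Fin0 (Y - Y') := by
  rw [sub_eq_add_neg]
  exact h.add h'.neg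
theorem Fin0.smul (h : D.Fin0 Y) (c : E) : D.Fin0 (c • Y) :=
  C1_mono h fun x hx h0 => hx (by simp [h0])
theorem Fin0.sum {σ : Type} {s : Finset σ} {Y : σ → G → Matrix ι ι E}
    (h : ∀ i ∈ s, D.Fin0 (Y i)) : D.Fin0 (∑ i ∈ s, Y i) :=
  Finset.sum_induction Y D.Fin0 (fun _ _ a b => a.add b) Fin0.zero h
theorem Fin0.translate (h : D.Fin0 Y) (g : G) (A : Matrix ι ι E) :
    D.Fin0 fun x => Y (g * x) * A := by
  classical
  obtain ⟨T, hT⟩ := h
  refine ⟨T.image fun t => g⁻¹ * t, fun x hx => ?_⟩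
  have h1 : Y (g * x) ≠ 0 := fun h0 => hx (by simp [h0])
  obtain ⟨t, ht, hh⟩ := hT _ h1
  refine ⟨g⁻¹ * t, Finset.mem_image_of_mem _ ht, ?_⟩
  simpa [mul_assoc] using hh

theorem Ker.sub (h : D.Ker Y) (h' : D.Ker Y') : D.Ker (Y - Y') :=
  ⟨h.1.sub h'.1, h.2.1.sub h'.2.1, h.2.2.sub h'.2.2⟩

theorem del_ker : D.Ker D.del := by
  refine ⟨fun x h hh => ?_, fun x h hh => ?_, ⟨{1}, fun x hx => ?_⟩⟩
  · by_cases hx : x ∈ D.H
    · have h1 : x * h ∈ D.H := D.H.mul_mem hx hh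
      simp only [del, hx, h1, if_true]
      rw [mul_inv_rev, D.μ_mul _ (D.H.inv_mem hh) _ (D.H.inv_mem hx)]
    · have h1 : x * h ∉ D.H := fun h1 => hx ((D.H.mul_mem_cancel_right hh).1 h1)
      simp [del, hx, h1]
  · by_cases hx : x ∈ D.H
    · have h1 : h * x ∈ D.H := D.H.mul_mem hh hx
      simp only [del, hx, h1, if_true]
      rw [mul_inv_rev, D.μ_mul _ (D.H.inv_mem hx) _ (D.H.inv_mem hh)]
    · have h1 : h * x ∉ D.H := fun h1 => hx ((D.H.mul_mem_cancel_left hh).1 h1)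
      simp [del, hx, h1]
  · refine ⟨1, Finset.mem_singleton_self _, ?_⟩
    by_contra h1
    apply hx
    have h2 : x ∉ D.H := by simpa using h1
    simp [del, h2]

/-- the support of `x ↦ κ x⁻¹` -/
theorem C1_inv (h : D.Fin0 κ) : ∃ T : Finset G, ∀ x, κ x⁻¹ ≠ 0 → ∃ t ∈ T, t⁻¹ * x ∈ D.H := by
  classical
  obtain ⟨T, hT⟩ := h
  choose U hU using D.fin
  refine ⟨T.biUnion fun t => U t⁻¹, fun x hx => ?_⟩
  obtain ⟨t, ht, hh⟩ := hT _ hx
  obtain ⟨u, hu, hk⟩ := hU t⁻¹ _ (D.H.inv_mem hh)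
  refine ⟨u, Finset.mem_biUnion.2 ⟨t, ht, hu⟩, ?_⟩
  simpa [mul_assoc] using hk

theorem Ker.dual (h : D.Ker κ) : D.dual.Ker (dK κ) := by
  refine ⟨fun x k hk => ?_, fun x k hk => ?_, ?_⟩
  · have hk' : k ∈ D.H := hk
    show (κ (x * k)⁻¹)ᵀ = (D.μ k⁻¹⁻¹)ᵀ * (κ x⁻¹)ᵀ
    rw [mul_inv_rev, h.2.1 _ _ (D.H.inv_mem hk'), Matrix.transpose_mul]
  · have hk' : k ∈ D.H := hk
    show (κ (k * x)⁻¹)ᵀ = (κ x⁻¹)ᵀ * (D.μ k⁻¹⁻¹)ᵀ
    rw [mul_inv_rev, h.1 _ _ (D.H.inv_mem hk'), Matrix.transpose_mul]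
  · obtain ⟨T, hT⟩ := C1_inv h.2.2
    refine ⟨T, fun x hx => hT x fun h0 => hx ?_⟩
    simp [dK, h0]

/-- inequivalent representatives -/
theorem exists_reps (H : Subgroup G) (T : Finset G) : ∃ T' : Finset G, T' ⊆ T ∧
    (∀ t ∈ T', ∀ t' ∈ T', t⁻¹ * t' ∈ H → t = t') ∧ ∀ t ∈ T, ∃ t' ∈ T', t'⁻¹ * t ∈ H := by
  classical
  induction T using Finset.induction_on with
  | empty => exact ⟨∅, by simp, by simp, by simp⟩
  | insert a T _ ih =>
    obtain ⟨T', h1, h2, h3⟩ := ih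
    by_cases ha : ∃ t' ∈ T', t'⁻¹ * a ∈ H
    · refine ⟨T', h1.trans (Finset.subset_insert _ _), h2, fun t ht => ?_⟩
      rcases Finset.mem_insert.1 ht with rfl | ht
      · exact ha
      · exact h3 t ht
    · refine ⟨insert a T', Finset.insert_subset_insert _ h1, fun t ht t' ht' hh => ?_,
        fun t ht => ?_⟩
      · rcases Finset.mem_insert.1 ht with e | ht
        · rcases Finset.mem_insert.1 ht' with e' | ht'
          · rw [e, e']
          · refine (ha ⟨t', ht', ?_⟩).elim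
            have := H.inv_mem hh
            rw [e] at this
            simpa using this
        · rcases Finset.mem_insert.1 ht' with e' | ht'
          · exact (ha ⟨t, ht, e' ▸ hh⟩).elim
          · exact h2 t ht t' ht' hh
      · rcases Finset.mem_insert.1 ht with e | ht
        · exact ⟨a, Finset.mem_insert_self _ _, by simp [e]⟩
        · obtain ⟨t', ht', hh⟩ := h3 t ht
          exact ⟨t', Finset.mem_insert_of_mem ht', hh⟩

/-- a finite union of double cosets is a finite union of cosets -/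
theorem exists_sat (D : Fib G E ι) (T : Finset G) : ∃ T' : Finset G,
    ∀ h ∈ D.H, ∀ x, (∃ t ∈ T, t⁻¹ * x ∈ D.H) → ∃ t' ∈ T', t'⁻¹ * (h * x) ∈ D.H := by
  classical
  choose U hU using D.fin
  refine ⟨T.biUnion U, fun h hh x hx => ?_⟩
  obtain ⟨t, ht, hk⟩ := hx
  obtain ⟨u, hu, hl⟩ := hU t h hh
  refine ⟨u, Finset.mem_biUnion.2 ⟨t, ht, hu⟩, ?_⟩
  have := D.H.mul_mem hl hk
  simpa [mul_assoc] using this

theorem C1_fin {P : G → Prop} (h : ∃ T : Finset G, ∀ x, P x → ∃ t ∈ T, t⁻¹ * x ∈ D.H) :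
    {q : G ⧸ D.H | P q.out}.Finite := by
  obtain ⟨T, hT⟩ := h
  refine (T.finite_toSet.image fun t : G => (t : G ⧸ D.H)).subset fun q hq => ?_
  obtain ⟨t, ht, hh⟩ := hT _ hq
  refine ⟨t, ht, ?_⟩
  show (t : G ⧸ D.H) = q
  rw [← QuotientGroup.out_eq' q]
  exact QuotientGroup.eq.2 hh

theorem C1_finR (h : D.Fin0 Y) : {q : G ⧸ D.H | Y q.out ≠ 0}.Finite := C1_fin h

theorem C1_finL (h : D.Fin0 κ) (x : G) : {q : G ⧸ D.H | κ (q.out⁻¹ * x) ≠ 0}.Finite := by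
  classical
  refine C1_fin (P := fun g => κ (g⁻¹ * x) ≠ 0) ?_
  obtain ⟨T, hT⟩ := C1_inv h
  refine ⟨T.image fun t => x * t, fun g hg => ?_⟩
  obtain ⟨t, ht, hh⟩ := hT (x⁻¹ * g) (by simpa using hg)
  refine ⟨x * t, Finset.mem_image_of_mem _ ht, ?_⟩
  simpa [mul_assoc] using hh

theorem term_finite (hf : D.Fin0 κ ∨ D.Fin0 Y) (x : G) :
    (Function.support fun q : G ⧸ D.H => κ (q.out⁻¹ * x) * Y q.out).Finite := by
  rcases hf with h | h
  · exact (C1_finL h x).subset fun q hq h0 => hq (by simp [h0])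
  · exact (C1_finR h).subset fun q hq h0 => hq (by simp [h0])

theorem term_out (hκ : D.LEqv κ) (hY : D.Eqv Y) (g x : G) :
    κ ((g : G ⧸ D.H).out⁻¹ * x) * Y (g : G ⧸ D.H).out = κ (g⁻¹ * x) * Y g := by
  obtain ⟨h, hh⟩ := QuotientGroup.mk_out_eq_mul D.H g
  rw [hh, mul_inv_rev, mul_assoc, hκ _ _ (D.H.inv_mem h.2), hY _ _ h.2, inv_inv, mul_assoc,
    ← mul_assoc (D.μ h), D.μ_mul_inv h.2, one_mul]

theorem conv_eq_sum (hκ : D.LEqv κ) (hY : D.Eqv Y) (x : G) (T : Finset G)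
    (hT : ∀ t ∈ T, ∀ t' ∈ T, t⁻¹ * t' ∈ D.H → t = t')
    (hs : ∀ g, κ (g⁻¹ * x) * Y g ≠ 0 → ∃ t ∈ T, t⁻¹ * g ∈ D.H) :
    D.conv κ Y x = ∑ t ∈ T, κ (t⁻¹ * x) * Y t := by
  classical
  unfold conv
  rw [finsum_eq_sum_of_support_subset _ (s := T.image fun t : G => (t : G ⧸ D.H)),
    Finset.sum_image]
  · exact Finset.sum_congr rfl fun t _ => term_out hκ hY t x
  · intro t ht t' ht' e
    exact hT t ht t' ht' (QuotientGroup.eq.1 e)
  · intro q hq
    obtain ⟨t, ht, hh⟩ := hs _ hq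
    refine Finset.mem_coe.2 (Finset.mem_image.2 ⟨t, ht, ?_⟩)
    rw [← QuotientGroup.out_eq' q]
    exact QuotientGroup.eq.2 hh

theorem conv_zero_right : D.conv κ 0 = 0 := by
  funext x
  simp [conv]

theorem conv_add_right (hf : D.Fin0 κ ∨ D.Fin0 Y ∧ D.Fin0 Y') :
    D.conv κ (Y + Y') = D.conv κ Y + D.conv κ Y' := by
  funext x
  simp only [conv, Pi.add_apply, mul_add]
  exact finsum_add_distrib (term_finite (hf.imp_right And.left) x)
    (term_finite (hf.imp_right And.right) x)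

theorem conv_neg_right : D.conv κ (-Y) = -D.conv κ Y := by
  funext x
  simp only [conv, Pi.neg_apply, mul_neg]
  exact finsum_neg_distrib _

theorem conv_sub_right (hf : D.Fin0 κ ∨ D.Fin0 Y ∧ D.Fin0 Y') :
    D.conv κ (Y - Y') = D.conv κ Y - D.conv κ Y' := by
  funext x
  simp only [conv, Pi.sub_apply, mul_sub]
  exact finsum_sub_distrib (term_finite (hf.imp_right And.left) x)
    (term_finite (hf.imp_right And.right) x)

theorem conv_smul_right (c : E) : D.conv κ (c • Y) = c • D.conv κ Y := by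
  funext x
  simp only [conv, Pi.smul_apply, Matrix.mul_smul]
  exact (smul_finsum c _).symm

theorem conv_sum_right {σ : Type} {s : Finset σ} {Y : σ → G → Matrix ι ι E}
    (hf : D.Fin0 κ ∨ ∀ i ∈ s, D.Fin0 (Y i)) :
    D.conv κ (∑ i ∈ s, Y i) = ∑ i ∈ s, D.conv κ (Y i) := by
  funext x
  simp only [conv, Finset.sum_apply, Finset.mul_sum]
  exact finsum_sum_comm s (fun (q : G ⧸ D.H) i => κ (q.out⁻¹ * x) * Y i q.out)
    fun i hi => term_finite (hf.imp_right fun h => h i hi) x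

theorem conv_sub_left (hf : D.Fin0 κ ∧ D.Fin0 κ' ∨ D.Fin0 Y) :
    D.conv (κ - κ') Y = D.conv κ Y - D.conv κ' Y := by
  funext x
  simp only [conv, Pi.sub_apply, sub_mul]
  exact finsum_sub_distrib (term_finite (hf.imp_left And.left) x)
    (term_finite (hf.imp_left And.right) x)

theorem conv_eqv (hκ : D.Eqv κ) (hf : D.Fin0 κ ∨ D.Fin0 Y) : D.Eqv (D.conv κ Y) := by
  intro x h hh
  unfold conv
  rw [mul_finsum' _ _ (term_finite hf x)]
  refine finsum_congr fun q => ?_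
  rw [← mul_assoc, hκ _ _ hh, mul_assoc]

theorem conv_translate (hκ : D.LEqv κ) (hY : D.Eqv Y) (hf : D.Fin0 κ ∨ D.Fin0 Y) (g : G)
    (A : Matrix ι ι E) (x : G) :
    D.conv κ (fun y => Y (g * y) * A) x = D.conv κ Y (g * x) * A := by
  unfold conv
  rw [finsum_mul' _ _ (term_finite hf (g * x))]
  conv_rhs => rw [← finsum_comp_equiv (MulAction.toPerm g : Equiv.Perm (G ⧸ D.H))]
  refine finsum_congr fun q => ?_
  have e : (MulAction.toPerm g : Equiv.Perm (G ⧸ D.H)) q = ((g * q.out : G) : G ⧸ D.H) := by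
    rw [MulAction.toPerm_apply]
    conv_lhs => rw [← QuotientGroup.out_eq' q]
    rfl
  rw [e, term_out hκ hY, ← mul_assoc]
  congr 3
  group

theorem conv_leqv (hκ : D.LEqv κ) (hY : D.Eqv Y) (hY' : D.LEqv Y) (hf : D.Fin0 κ ∨ D.Fin0 Y) :
    D.LEqv (D.conv κ Y) := by
  intro x h hh
  have h1 := conv_translate hκ hY hf h 1 x
  have h2 := conv_translate hκ hY hf 1 (D.μ h⁻¹) x
  rw [mul_one] at h1
  rw [one_mul] at h2
  rw [← h1, ← h2]
  congr 1
  funext y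
  rw [mul_one, one_mul, hY' _ _ hh]

theorem conv_fin0 (hκ : D.Fin0 κ) (hY : D.Fin0 Y) : D.Fin0 (D.conv κ Y) := by
  classical
  obtain ⟨S, hS⟩ := hκ
  obtain ⟨T, hT⟩ := hY
  obtain ⟨U, hU⟩ := exists_sat D S
  refine ⟨(T ×ˢ U).image fun p => p.1 * p.2, fun x hx => ?_⟩
  have h1 : ∃ q : G ⧸ D.H, κ (q.out⁻¹ * x) * Y q.out ≠ 0 := by
    by_contra h0
    apply hx
    push Not at h0
    simp [conv, h0]
  obtain ⟨q, hq⟩ := h1
  obtain ⟨t, ht, hh⟩ := hT q.out fun h0 => hq (by simp [h0])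
  obtain ⟨u, hu, hk⟩ := hU _ hh _ (hS (q.out⁻¹ * x) fun h0 => hq (by simp [h0]))
  refine ⟨t * u, Finset.mem_image.2 ⟨(t, u), Finset.mem_product.2 ⟨ht, hu⟩, rfl⟩, ?_⟩
  simpa [mul_assoc] using hk

theorem Ker.conv (hκ : D.Ker κ) (hY : D.Ker Y) : D.Ker (D.conv κ Y) :=
  ⟨conv_eqv hκ.1 (Or.inl hκ.2.2), conv_leqv hκ.2.1 hY.1 hY.2.1 (Or.inl hκ.2.2),
    conv_fin0 hκ.2.2 hY.2.2⟩

theorem C1_del_one : D.del 1 = 1 := by
  simp [del, D.μ_one]

theorem C1_del_mem {x : G} (h : D.del x ≠ 0) : x ∈ D.H := by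
  by_contra h1
  exact h (by simp [del, h1])

theorem conv_del (hκ : D.LEqv κ) : D.conv κ D.del = κ := by
  funext x
  rw [conv_eq_sum hκ del_ker.1 x {1}]
  · simp [C1_del_one]
  · intro t ht t' ht' _
    rw [Finset.mem_singleton.1 ht, Finset.mem_singleton.1 ht']
  · intro g hg
    refine ⟨1, Finset.mem_singleton_self _, ?_⟩
    have : g ∈ D.H := C1_del_mem fun h0 => hg (by simp [h0])
    simpa using this

theorem del_conv (hY : D.Eqv Y) : D.conv D.del Y = Y := by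
  funext x
  rw [conv_eq_sum del_ker.2.1 hY x {x}]
  · simp [C1_del_one]
  · intro t ht t' ht' _
    rw [Finset.mem_singleton.1 ht, Finset.mem_singleton.1 ht']
  · intro g hg
    refine ⟨x, Finset.mem_singleton_self _, ?_⟩
    have : g⁻¹ * x ∈ D.H := C1_del_mem fun h0 => hg (by simp [h0])
    simpa using D.H.inv_mem this

theorem C1_pair {α β : Type} {S : Set α} {R : α → Set β} (hS : S.Finite)
    (hR : ∀ a, (R a).Finite) : {p : α × β | p.1 ∈ S ∧ p.2 ∈ R p.1}.Finite := by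
  refine (hS.biUnion fun a _ => (hR a).image fun b => (a, b)).subset fun p hp => ?_
  exact Set.mem_biUnion hp.1 ⟨p.2, hp.2, rfl⟩

theorem C1_swap {α β M : Type} [AddCommMonoid M] (f : α → β → M)
    (hf : (Function.support fun p : α × β => f p.1 p.2).Finite) :
    ∑ᶠ a, ∑ᶠ b, f a b = ∑ᶠ b, ∑ᶠ a, f a b := by
  have h1 := finsum_curry (fun p : α × β => f p.1 p.2) hf
  have h2 := finsum_curry (fun p : β × α => f p.2 p.1)
    ((hf.image Prod.swap).subset fun p hp => ⟨p.swap, hp, rfl⟩)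
  rw [← h1, ← h2, ← finsum_comp_equiv (Equiv.prodComm β α)]
  rfl

theorem conv_assoc (hφ : D.LEqv φ) (hκ : D.Ker κ) (hY : D.Eqv Y) (hf : D.Fin0 φ ∨ D.Fin0 Y) :
    D.conv φ (D.conv κ Y) = D.conv (D.conv φ κ) Y := by
  funext x
  have hL : D.conv φ (D.conv κ Y) x = ∑ᶠ (q : G ⧸ D.H) (p : G ⧸ D.H),
      φ (q.out⁻¹ * x) * (κ (p.out⁻¹ * q.out) * Y p.out) := by
    refine finsum_congr fun q => ?_
    exact mul_finsum' _ _ (term_finite (Or.inl hκ.2.2) q.out)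
  have hR : D.conv (D.conv φ κ) Y x = ∑ᶠ (p : G ⧸ D.H) (q : G ⧸ D.H),
      φ (q.out⁻¹ * x) * (κ (p.out⁻¹ * q.out) * Y p.out) := by
    refine finsum_congr fun p => ?_
    rw [← conv_translate hφ hκ.1 (Or.inr hκ.2.2)]
    rfl
  rw [hL, hR]
  apply C1_swap
  rcases hf with h | h
  · refine (C1_pair (C1_finL h x) fun q : G ⧸ D.H => C1_finL hκ.2.2 q.out).subset fun p hp => ?_
    exact ⟨fun h0 => hp (by simp [h0]), fun h0 => hp (by simp [h0])⟩
  · have h2 := (C1_pair (C1_finR h) fun p : G ⧸ D.H =>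
      C1_finR (hκ.2.2.translate p.out⁻¹ 1)).image Prod.swap
    refine h2.subset fun p hp => ⟨p.swap, ⟨fun h0 => hp ?_, fun h0 => hp ?_⟩, rfl⟩
    · have h3 : Y p.2.out = 0 := h0
      simp [h3]
    · have h3 : κ (p.2.out⁻¹ * p.1.out) * 1 = 0 := h0
      rw [mul_one] at h3
      simp [h3]

end Fib

end Pool.Agent.MP_4d0c14_b
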