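import Pool.Agent.MP_4d0c14_b.C1

/-! Norm estimates, truncation and averaging. -/

namespace Pool.Agent.MP_4d0c14_b

open scoped Matrix

namespace Fib

set_option linter.unusedSectionVars false

variable {G E ι : Type} [Group G] [NormedField E] [IsUltrametricDist E] [Fintype ι]
  [DecidableEq ι] {D : Fib G E ι} {κ Y Y' : G → Matrix ι ι E}

theorem C2_dec_mono_aux {a b : ℝ} (hb : 0 < b) : b * (a / b) = a := by field_simp

theorem Bdd.dual (h : D.Bdd) : D.dual.Bdd := by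
  obtain ⟨C, hC, h⟩ := h
  exact ⟨C, hC, fun g hg => (h _ (D.H.inv_mem hg)).transpose⟩

theorem Fin0.dec (h : D.Fin0 Y) : D.Dec Y := by
  obtain ⟨T, hT⟩ := h
  refine fun ε hε => ⟨T, fun x hx => ?_⟩
  by_cases h0 : Y x = 0
  · rw [h0]; exact MLe.zero hε.le
  · obtain ⟨t, ht, h⟩ := hT x h0
    exact absurd h (hx t ht)

theorem Dec.add (h : D.Dec Y) (h' : D.Dec Y') : D.Dec (Y + Y') := by
  classical
  intro ε hε
  obtain ⟨T, hT⟩ := h ε hε
  obtain ⟨T', hT'⟩ := h' ε hε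
  exact ⟨T ∪ T', fun x hx => (hT x fun t ht => hx t (Finset.mem_union_left _ ht)).add
    (hT' x fun t ht => hx t (Finset.mem_union_right _ ht))⟩

theorem Dec.neg (h : D.Dec Y) : D.Dec (-Y) := fun ε hε => by
  obtain ⟨T, hT⟩ := h ε hε
  exact ⟨T, fun x hx => (hT x hx).neg⟩

theorem Dec.sub (h : D.Dec Y) (h' : D.Dec Y') : D.Dec (Y - Y') := by
  rw [sub_eq_add_neg]; exact h.add h'.neg

theorem Dec.smul (h : D.Dec Y) (c : E) : D.Dec (c • Y) := fun ε hε => by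
  have hc : 0 < ‖c‖ + 1 := by positivity
  obtain ⟨T, hT⟩ := h (ε / (‖c‖ + 1)) (div_pos hε hc)
  refine ⟨T, fun x hx => ((hT x hx).smul c).mono ?_⟩
  calc ‖c‖ * (ε / (‖c‖ + 1)) ≤ (‖c‖ + 1) * (ε / (‖c‖ + 1)) :=
        mul_le_mul_of_nonneg_right (by linarith) (div_pos hε hc).le
    _ = ε := C2_dec_mono_aux hc

theorem Dec.sum {σ : Type} {s : Finset σ} {Y : σ → G → Matrix ι ι E} (h : ∀ i ∈ s, D.Dec (Y i)) :
    D.Dec (∑ i ∈ s, Y i) :=
  Finset.sum_induction Y D.Dec (fun _ _ => Dec.add) Fin0.zero.dec h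

theorem Dec.translate (h : D.Dec Y) (g : G) (A : Matrix ι ι E) :
    D.Dec fun x => Y (g * x) * A := fun ε hε => by
  classical
  obtain ⟨C, hC, hA⟩ := MLe.exists_bound A
  obtain ⟨T, hT⟩ := h (ε / C) (div_pos hε hC)
  refine ⟨T.image (g⁻¹ * ·), fun x hx => ?_⟩
  have h1 := (hT (g * x) fun t ht hm => hx (g⁻¹ * t) (Finset.mem_image_of_mem _ ht)
    (by simpa [mul_assoc] using hm)).mul hA (div_pos hε hC).le hC.le
  rwa [div_mul_cancel₀ _ hC.ne'] at h1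

theorem C2_dec_right (h : D.Dec Y) {g : G} (hg : g ∈ D.H) (A : Matrix ι ι E) :
    D.Dec fun x => A * Y (x * g) := fun ε hε => by
  obtain ⟨C, hC, hA⟩ := MLe.exists_bound A
  obtain ⟨T, hT⟩ := h (ε / C) (div_pos hε hC)
  refine ⟨T, fun x hx => ?_⟩
  have h1 := hA.mul (hT (x * g) fun t ht hm => hx t ht
    (by simpa [mul_assoc] using D.H.mul_mem hm (D.H.inv_mem hg))) hC.le (div_pos hε hC).le
  rwa [C2_dec_mono_aux hC] at h1

theorem Dec.exists_bound (hB : D.Bdd) (he : D.Eqv Y) (h : D.Dec Y) :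
    ∃ M : ℝ, 0 < M ∧ ∀ x, MLe M (Y x) := by
  obtain ⟨C, hC, hμ⟩ := hB
  obtain ⟨T, hT⟩ := h 1 one_pos
  choose c hc hcY using fun t : G => MLe.exists_bound (Y t)
  have hs : 0 ≤ ∑ t ∈ T, c t := Finset.sum_nonneg fun t _ => (hc t).le
  refine ⟨1 + C * ∑ t ∈ T, c t, by positivity, fun x => ?_⟩
  by_cases hx : ∀ t ∈ T, t⁻¹ * x ∉ D.H
  · exact (hT x hx).mono (le_add_of_nonneg_right (by positivity))
  · push Not at hx
    obtain ⟨t, ht, hm⟩ := hx
    have e : Y x = D.μ (t⁻¹ * x)⁻¹ * Y t := by rw [← he t _ hm, mul_inv_cancel_left]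
    rw [e]
    refine ((hμ _ (D.H.inv_mem hm)).mul (hcY t) hC.le (hc t).le).mono ?_
    have := Finset.single_le_sum (f := c) (fun t _ => (hc t).le) ht
    nlinarith

theorem conv_mle {a b : ℝ} (ha : 0 ≤ a) (hb : 0 ≤ b) (hκ : ∀ x, MLe a (κ x))
    (hY : ∀ x, MLe b (Y x)) (x : G) : MLe (a * b) (D.conv κ Y x) :=
  MLe.finsum (mul_nonneg ha hb) fun _ => (hκ _).mul (hY _) ha hb

theorem conv_dec (hB : D.Bdd) (hκ : D.Ker κ) (hY : D.Dec Y) : D.Dec (D.conv κ Y) := by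
  classical
  intro ε hε
  obtain ⟨M, hM, hκM⟩ := Dec.exists_bound hB hκ.1 hκ.2.2.dec
  obtain ⟨S, hS⟩ := hY (ε / M) (div_pos hε hM)
  obtain ⟨T, hT⟩ := hκ.2.2
  obtain ⟨T', hT'⟩ := exists_sat D T
  refine ⟨Finset.image₂ (· * ·) S T', fun x hx => MLe.finsum hε.le fun q => ?_⟩
  by_cases hq : ∀ s ∈ S, s⁻¹ * q.out ∉ D.H
  · have h1 := (hκM (q.out⁻¹ * x)).mul (hS _ hq) hM.le (div_pos hε hM).le
    rwa [C2_dec_mono_aux hM] at h1
  · push Not at hq
    obtain ⟨s, hs, hm⟩ := hq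
    by_cases h0 : κ (q.out⁻¹ * x) = 0
    · rw [h0, Matrix.zero_mul]; exact MLe.zero hε.le
    · obtain ⟨t', ht', h2⟩ := hT' _ hm _ (hT _ h0)
      exact absurd (by simpa [mul_assoc] using h2)
        (hx (s * t') (Finset.mem_image₂_of_mem hs ht'))

/-- truncation of a bi-equivariant function tending to zero -/
theorem exists_trunc (he : D.Eqv Y) (hl : D.LEqv Y) (hd : D.Dec Y) {ε : ℝ} (hε : 0 < ε) :
    ∃ Y', D.Ker Y' ∧ ∀ x, MLe ε (Y x - Y' x) := by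
  classical
  obtain ⟨T, hT⟩ := hd ε hε
  obtain ⟨T', hT'⟩ := exists_sat D T
  let P : G → Prop := fun x => ∃ h ∈ D.H, ∃ t ∈ T, t⁻¹ * (h * x) ∈ D.H
  have hr : ∀ x, ∀ h ∈ D.H, P x → P (x * h) := fun x h hh ⟨k, hk, t, ht, hm⟩ =>
    ⟨k, hk, t, ht, by simpa [mul_assoc] using D.H.mul_mem hm hh⟩
  have hL : ∀ x, ∀ h ∈ D.H, P x → P (h * x) := fun x h hh ⟨k, hk, t, ht, hm⟩ =>
    ⟨k * h⁻¹, D.H.mul_mem hk (D.H.inv_mem hh), t, ht, by simpa [mul_assoc] using hm⟩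
  refine ⟨fun x => if P x then Y x else 0, ⟨fun x h hh => ?_, fun x h hh => ?_, T', ?_⟩, ?_⟩
  · by_cases hx : P x
    · simp only [if_pos hx, if_pos (hr x h hh hx)]
      exact he x h hh
    · have hx' : ¬P (x * h) := fun hp => hx (by simpa using hr _ _ (D.H.inv_mem hh) hp)
      simp only [if_neg hx, if_neg hx', Matrix.mul_zero]
  · by_cases hx : P x
    · simp only [if_pos hx, if_pos (hL x h hh hx)]
      exact hl x h hh
    · have hx' : ¬P (h * x) := fun hp => hx (by simpa using hL _ _ (D.H.inv_mem hh) hp)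
      simp only [if_neg hx, if_neg hx', Matrix.zero_mul]
  · intro x hx
    have hp : P x := by
      by_contra hp
      exact hx (if_neg hp)
    obtain ⟨h, hh, t, ht, hm⟩ := hp
    simpa using hT' _ (D.H.inv_mem hh) _ ⟨t, ht, hm⟩
  · intro x
    by_cases hx : P x
    · simp only [if_pos hx, sub_self]
      exact MLe.zero hε.le
    · simp only [if_neg hx, sub_zero]
      exact hT x fun t ht hm => hx ⟨1, D.H.one_mem, t, ht, by simpa using hm⟩

/-- an exact bi-equivariant solution gives approximate solutions of finite support -/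
theorem approx_of_sol (hB : D.Bdd) {d : ℕ} {κ : Fin d → G → Matrix ι ι E} (hκ : ∀ i, D.Ker (κ i))
    (Y : Fin d → G → Matrix ι ι E) (hY : ∀ i, D.Eqv (Y i) ∧ D.LEqv (Y i) ∧ D.Dec (Y i))
    (h : ∑ i, D.conv (κ i) (Y i) = D.del) : D.Approx κ := by
  intro ε hε
  choose M hM hκM using fun i => Dec.exists_bound hB (hκ i).1 (hκ i).2.2.dec
  choose Y' hY' hb using fun i =>
    exists_trunc (hY i).1 (hY i).2.1 (hY i).2.2 (div_pos hε (hM i))
  refine ⟨Y', hY', fun x => ?_⟩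
  have e : D.del x - ∑ i, D.conv (κ i) (Y' i) x = ∑ i, D.conv (κ i) (Y i - Y' i) x := by
    rw [← h, Finset.sum_apply, ← Finset.sum_sub_distrib]
    refine Finset.sum_congr rfl fun i _ => ?_
    rw [conv_sub_right (Or.inl (hκ i).2.2), Pi.sub_apply]
  rw [e]
  refine MLe.sum hε.le fun i _ => ?_
  have h1 := conv_mle (D := D) (hM i).le (div_pos hε (hM i)).le (hκM i) (Y := Y i - Y' i)
    (fun y => hb i y) x
  rwa [C2_dec_mono_aux (hM i)] at h1

/-- representatives of `H / K`; left translation permutes them -/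
theorem C2_reps {M : Type} [AddCommMonoid M] (H K : Subgroup G)
    (hfin : ∃ T : Finset G, ∀ h ∈ H, ∃ t ∈ T, t⁻¹ * h ∈ K) (hK : K ≤ H) :
    ∃ R : Finset G, R.Nonempty ∧ (∀ t ∈ R, t ∈ H) ∧ ∀ F : G → M,
      (∀ t ∈ H, ∀ k ∈ K, F (t * k) = F t) → ∀ h ∈ H, ∑ t ∈ R, F (h * t) = ∑ t ∈ R, F t := by
  classical
  obtain ⟨T, hT⟩ := hfin
  obtain ⟨R, hsub, hinj, hcov⟩ := exists_reps K (T.filter (· ∈ H))
  have hRH : ∀ t ∈ R, t ∈ H := fun t ht => (Finset.mem_filter.1 (hsub ht)).2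
  have hc : ∀ g : G, ∃ r, g ∈ H → r ∈ R ∧ r⁻¹ * g ∈ K := by
    intro g
    by_cases hg : g ∈ H
    · obtain ⟨t, ht, hm⟩ := hT g hg
      have htH : t ∈ H := by simpa using H.mul_mem hg (H.inv_mem (hK hm))
      obtain ⟨r, hr, hm'⟩ := hcov t (Finset.mem_filter.2 ⟨ht, htH⟩)
      exact ⟨r, fun _ => ⟨hr, by simpa [mul_assoc] using K.mul_mem hm' hm⟩⟩
    · exact ⟨1, fun h => absurd h hg⟩
  choose σ hσ using hc
  refine ⟨R, ⟨σ 1, (hσ 1 H.one_mem).1⟩, hRH, fun F hF h hh => ?_⟩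
  have key : ∀ h ∈ H, ∀ t ∈ R, σ (h⁻¹ * σ (h * t)) = t := by
    intro h hh t ht
    have h1 := hσ (h * t) (H.mul_mem hh (hRH t ht))
    have h2 := hσ (h⁻¹ * σ (h * t)) (H.mul_mem (H.inv_mem hh) (hRH _ h1.1))
    exact hinj _ h2.1 _ ht (by simpa [mul_assoc] using K.mul_mem h2.2 h1.2)
  refine Finset.sum_nbij' (fun t => σ (h * t)) (fun t => σ (h⁻¹ * t))
    (fun t ht => (hσ _ (H.mul_mem hh (hRH t ht))).1)
    (fun t ht => (hσ _ (H.mul_mem (H.inv_mem hh) (hRH t ht))).1)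
    (fun t ht => key h hh t ht) (fun t ht => ?_) (fun t ht => ?_)
  · simpa using key h⁻¹ (H.inv_mem hh) t ht
  · have h1 := hσ (h * t) (H.mul_mem hh (hRH t ht))
    rw [← hF _ (hRH _ h1.1) _ h1.2, mul_inv_cancel_left]

/-- averaging on the left over `H / K` -/
theorem exists_avg_left [CharZero E] (K : Subgroup G) (hK : K ≤ D.H)
    (hfin : ∃ T : Finset G, ∀ h ∈ D.H, ∃ t ∈ T, t⁻¹ * h ∈ K) {d : ℕ}
    {κ : Fin d → G → Matrix ι ι E} (hκ : ∀ i, D.Ker (κ i)) (Y : Fin d → G → Matrix ι ι E)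
    (hY : ∀ i, D.Eqv (Y i) ∧ D.Dec (Y i))
    (hl : ∀ i, ∀ k ∈ K, ∀ x, Y i (k⁻¹ * x) * D.μ k⁻¹ = Y i x)
    (h : ∑ i, D.conv (κ i) (Y i) = D.del) :
    ∃ Y' : Fin d → G → Matrix ι ι E, (∀ i, D.Eqv (Y' i) ∧ D.LEqv (Y' i) ∧ D.Dec (Y' i)) ∧
      ∑ i, D.conv (κ i) (Y' i) = D.del := by
  obtain ⟨R, hne, hRH, hperm⟩ := C2_reps (M := Matrix ι ι E) D.H K hfin hK
  have hc : (R.card : E) ≠ 0 := Nat.cast_ne_zero.2 hne.card_pos.ne'
  refine ⟨fun i => (R.card : E)⁻¹ • ∑ t ∈ R, fun x => Y i (t⁻¹ * x) * D.μ t⁻¹,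
    fun i => ⟨?_, ?_, ?_⟩, ?_⟩
  · exact (Eqv.sum fun t _ => (hY i).1.translate _ _).smul _
  · intro x h hh
    simp only [Pi.smul_apply, Finset.sum_apply, Matrix.smul_mul, Finset.sum_mul]
    congr 1
    rw [← hperm (fun t => Y i (t⁻¹ * (h * x)) * D.μ t⁻¹) ?_ h hh]
    · refine Finset.sum_congr rfl fun t ht => ?_
      simp only [mul_inv_rev]
      rw [D.μ_mul _ (D.H.inv_mem (hRH t ht)) _ (D.H.inv_mem hh), Matrix.mul_assoc]
      simp [mul_assoc]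
    · intro t ht k hk
      simp only [mul_inv_rev]
      rw [D.μ_mul _ (D.H.inv_mem (hK hk)) _ (D.H.inv_mem ht), ← Matrix.mul_assoc, mul_assoc k⁻¹,
        hl i k hk]
  · exact (Dec.sum fun t _ => (hY i).2.translate _ _).smul _
  · funext x
    have e : ∀ i, D.conv (κ i) ((R.card : E)⁻¹ • ∑ t ∈ R, fun x => Y i (t⁻¹ * x) * D.μ t⁻¹) x =
        (R.card : E)⁻¹ • ∑ t ∈ R, D.conv (κ i) (Y i) (t⁻¹ * x) * D.μ t⁻¹ := by
      intro i
      rw [conv_smul_right, conv_sum_right (Or.inl (hκ i).2.2), Pi.smul_apply, Finset.sum_apply]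
      congr 1
      exact Finset.sum_congr rfl fun t _ =>
        conv_translate (hκ i).2.1 (hY i).1 (Or.inl (hκ i).2.2) _ _ _
    have e2 : ∀ t ∈ R, ∑ i, D.conv (κ i) (Y i) (t⁻¹ * x) * D.μ t⁻¹ = D.del x := by
      intro t ht
      rw [← Finset.sum_mul, ← Finset.sum_apply, h,
        (del_ker (D := D)).2.1 x _ (D.H.inv_mem (hRH t ht)), inv_inv, Matrix.mul_assoc,
        D.μ_mul_inv (hRH t ht), Matrix.mul_one]
    rw [Finset.sum_apply, Finset.sum_congr rfl fun i _ => e i, ← Finset.smul_sum,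
      Finset.sum_comm, Finset.sum_congr rfl e2, Finset.sum_const, ← Nat.cast_smul_eq_nsmul E,
      smul_smul, inv_mul_cancel₀ hc, one_smul]

/-- averaging on the right over `H / K` -/
theorem exists_avg_right [CharZero E] (K : Subgroup G) (hK : K ≤ D.H)
    (hfin : ∃ T : Finset G, ∀ h ∈ D.H, ∃ t ∈ T, t⁻¹ * h ∈ K) (β : G → Matrix ι ι E)
    (hβ : ∀ x, ∀ k ∈ K, β (x * k) = D.μ k⁻¹ * β x) (hd : D.Dec β) :
    ∃ β' : G → Matrix ι ι E, D.Eqv β' ∧ D.Dec β' ∧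
      ∀ (g : G) (A : Matrix ι ι E) (Z : G → Matrix ι ι E), D.Eqv Z →
        (∀ x, Z x = β (g * x) * A - β x) → ∀ x, Z x = β' (g * x) * A - β' x := by
  obtain ⟨R, hne, hRH, hperm⟩ := C2_reps (M := Matrix ι ι E) D.H K hfin hK
  have hc : (R.card : E) ≠ 0 := Nat.cast_ne_zero.2 hne.card_pos.ne'
  refine ⟨(R.card : E)⁻¹ • ∑ t ∈ R, fun y => D.μ t * β (y * t), ?_, ?_, ?_⟩
  · intro x h hh
    simp only [Pi.smul_apply, Finset.sum_apply, Matrix.mul_smul]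
    congr 1
    rw [← hperm (fun t => D.μ t * β (x * t)) ?_ h hh, Finset.mul_sum]
    · refine Finset.sum_congr rfl fun t ht => ?_
      rw [D.μ_mul _ hh _ (hRH t ht), ← Matrix.mul_assoc, ← Matrix.mul_assoc, D.μ_inv_mul hh,
        Matrix.one_mul, mul_assoc x]
    · intro t ht k hk
      rw [D.μ_mul _ ht _ (hK hk), ← mul_assoc x, hβ _ k hk, Matrix.mul_assoc,
        ← Matrix.mul_assoc (D.μ k), D.μ_mul_inv (hK hk), Matrix.one_mul]
  · exact (Dec.sum fun t ht => C2_dec_right hd (hRH t ht) _).smul _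
  · intro g A Z hZ hZβ x
    have e : ∀ t ∈ R, D.μ t * β (g * x * t) * A - D.μ t * β (x * t) = Z x := by
      intro t ht
      rw [Matrix.mul_assoc, ← Matrix.mul_sub, mul_assoc g, ← hZβ, hZ x t (hRH t ht),
        ← Matrix.mul_assoc, D.μ_mul_inv (hRH t ht), Matrix.one_mul]
    simp only [Pi.smul_apply, Finset.sum_apply, Matrix.smul_mul, Finset.sum_mul]
    rw [← smul_sub, ← Finset.sum_sub_distrib, Finset.sum_congr rfl e, Finset.sum_const,
      ← Nat.cast_smul_eq_nsmul E, smul_smul, inv_mul_cancel₀ hc, one_smul]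

end Fib

end Pool.Agent.MP_4d0c14_b
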