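import Pool.Agent.MP_4d0c14_b.C2

/-! Gluing the local coboundaries. -/

namespace Pool.Agent.MP_4d0c14_b

open scoped Matrix

namespace Fib

variable {G E ι : Type} [Group G] [NormedField E] [IsUltrametricDist E] [CharZero E] [Fintype ι]
  [DecidableEq ι] {D : Fib G E ι}

omit [IsUltrametricDist E] [CharZero E] in
theorem C3_conj {Y : G → Matrix ι ι E} (hY : D.Eqv Y) {s x : G} (h : x⁻¹ * s * x ∈ D.H) :
    Y (s⁻¹ * x) = D.μ (x⁻¹ * s * x) * Y x := by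
  have := hY x _ (D.H.inv_mem h)
  rw [inv_inv] at this
  rw [← this]
  congr 1
  group

omit [CharZero E] in
theorem C3_unif (hB : D.Bdd) (X : D.H1Data) (Z : G → G → Matrix ι ι E)
    (hZ : ∀ k ∈ D.H, D.Eqv (Z k) ∧ D.Dec (Z k))
    (hc : ∀ k ∈ D.H, ∀ k' ∈ D.H, ∀ x, Z (k * k') x = Z k x + Z k' (k⁻¹ * x) * D.μ k⁻¹)
    (hcont : ∀ ε : ℝ, 0 < ε → ∃ i, ∀ k ∈ X.K i, ∀ x, MLe ε (Z k x)) {δ : ℝ} (hδ : 0 < δ) :
    ∃ T : Finset G, ∀ k ∈ X.K 0, ∀ x, (∀ t ∈ T, t⁻¹ * x ∉ D.H) → MLe δ (Z k x) := by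
  classical
  obtain ⟨C, hC, hμ⟩ := hB
  obtain ⟨i, hi⟩ := hcont δ hδ
  obtain ⟨T, hT⟩ := X.K_fin i
  have hKH : ∀ k ∈ X.K 0, k ∈ D.H := fun k hk => X.Kp_le (X.K_le hk)
  have h1 : ∀ t : G, ∃ S : Finset G, t ∈ D.H → ∀ h ∈ D.H, ∀ x, (∀ s ∈ S, s⁻¹ * x ∉ D.H) →
      MLe (δ / C) (Z t (h⁻¹ * x)) := by
    intro t
    by_cases ht : t ∈ D.H
    · obtain ⟨S0, hS0⟩ := (hZ t ht).2 (δ / C) (div_pos hδ hC)
      obtain ⟨S, hS⟩ := exists_sat D S0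
      refine ⟨S, fun _ h hh x hx => hS0 _ fun s hs hs' => ?_⟩
      obtain ⟨t', ht', h'⟩ := hS h hh _ ⟨s, hs, hs'⟩
      rw [mul_inv_cancel_left] at h'
      exact hx t' ht' h'
    · exact ⟨∅, fun h => absurd h ht⟩
  choose S hS using h1
  refine ⟨T.biUnion S, fun k hk x hx => ?_⟩
  obtain ⟨t, ht, hkt⟩ := hT k hk
  have hk' : k * t⁻¹ ∈ D.H := hKH _ (X.anti (Nat.zero_le i) hkt)
  have htH : t ∈ D.H := by
    have := D.H.mul_mem (D.H.inv_mem hk') (hKH k hk)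
    rwa [mul_inv_rev, inv_inv, inv_mul_cancel_right] at this
  have e := hc _ hk' t htH x
  rw [inv_mul_cancel_right] at e
  rw [e]
  refine (hi _ hkt x).add ?_
  have h2 := (hS t htH _ hk' x fun s hs => hx s (Finset.mem_biUnion.2 ⟨t, ht, hs⟩)).mul
    (hμ _ (D.H.inv_mem hk')) (div_pos hδ hC).le hC.le
  rwa [div_mul_cancel₀ _ hC.ne'] at h2

theorem glue (hB : D.Bdd) (X : D.H1Data) (Z : G → G → Matrix ι ι E)
    (hZ : ∀ k ∈ D.H, D.Eqv (Z k) ∧ D.Dec (Z k))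
    (hc : ∀ k ∈ D.H, ∀ k' ∈ D.H, ∀ x, Z (k * k') x = Z k x + Z k' (k⁻¹ * x) * D.μ k⁻¹)
    (hz : ∀ z ∈ X.Z, Z z = 0)
    (hcont : ∀ ε : ℝ, 0 < ε → ∃ i, ∀ k ∈ X.K i, ∀ x, MLe ε (Z k x)) :
    ∃ β : G → Matrix ι ι E, D.Eqv β ∧ D.Dec β ∧
      ∀ k ∈ X.K 0, ∀ x, Z k x = β (k⁻¹ * x) * D.μ k⁻¹ - β x := by
  classical
  have hKH : ∀ k ∈ X.K 0, k ∈ D.H := fun k hk => X.Kp_le (X.K_le hk)
  obtain ⟨C, hC, hloc⟩ := X.loc
  have h1 : ∀ x : G, ∃ b : Matrix ι ι E,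
      (∀ k ∈ X.K 0, x⁻¹ * k * x ∈ X.Kp → Z k x = D.μ (x⁻¹ * k * x) * b * D.μ k⁻¹ - b) ∧
      ∀ M : ℝ, 0 ≤ M → (∀ k ∈ X.K 0, x⁻¹ * k * x ∈ X.Kp → MLe M (Z k x)) → MLe (C * M) b := by
    intro x
    refine hloc x (fun k => Z k x) (fun k hk k' hk' h _ => ?_) (fun z hz' _ => ?_) fun ε hε => ?_
    · rw [hc k (hKH k hk) k' (hKH k' hk'), C3_conj (hZ k' (hKH k' hk')).1 (X.Kp_le h)]
    · rw [hz z hz']; rfl
    · obtain ⟨i, hi⟩ := hcont ε hε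
      exact ⟨i, fun k hk _ => hi k hk x⟩
  choose b hb hbM using h1
  let F : G → G → G → Matrix ι ι E := fun x k h => D.μ h⁻¹ * (b x + Z k x) * D.μ k
  have hF : ∀ x, ∀ k ∈ X.K 0, ∀ h ∈ X.Kp, ∀ k' ∈ X.K 0, ∀ h' ∈ X.Kp,
      k⁻¹ * x * h = k'⁻¹ * x * h' → F x k h = F x k' h' := by
    intro x k hk h hh k' hk' h' hh' e
    have hs : k' * k⁻¹ ∈ X.K 0 := (X.K 0).mul_mem hk' ((X.K 0).inv_mem hk)
    have e1 : x⁻¹ * (k' * k⁻¹) * x = h' * h⁻¹ := by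
      have : k⁻¹ * x = k'⁻¹ * x * h' * h⁻¹ := by rw [← e]; group
      calc x⁻¹ * (k' * k⁻¹) * x = x⁻¹ * k' * (k⁻¹ * x) := by group
        _ = h' * h⁻¹ := by rw [this]; group
    have hp : x⁻¹ * (k' * k⁻¹) * x ∈ X.Kp := e1 ▸ X.Kp.mul_mem hh' (X.Kp.inv_mem hh)
    have e2 := hc _ (hKH _ hs) k (hKH k hk) x
    rw [inv_mul_cancel_right, C3_conj (hZ k (hKH k hk)).1 (X.Kp_le hp), hb x _ hs hp, e1] at e2
    have e3 : b x + Z k' x = D.μ (h' * h⁻¹) * (b x + Z k x) * D.μ (k' * k⁻¹)⁻¹ := by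
      rw [e2, Matrix.mul_add, Matrix.add_mul]; abel
    have e4 : D.μ h'⁻¹ * D.μ (h' * h⁻¹) = D.μ h⁻¹ := by
      rw [← D.μ_mul _ (D.H.inv_mem (X.Kp_le hh')) _ (X.Kp_le (e1 ▸ hp)), inv_mul_cancel_left]
    have e5 : D.μ (k' * k⁻¹)⁻¹ * D.μ k' = D.μ k := by
      rw [← D.μ_mul _ (D.H.inv_mem (hKH _ hs)) _ (hKH _ hk'), mul_inv_rev, inv_inv,
        inv_mul_cancel_right]
    change D.μ h⁻¹ * (b x + Z k x) * D.μ k = D.μ h'⁻¹ * (b x + Z k' x) * D.μ k'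
    rw [e3, ← e4, ← e5]
    simp only [Matrix.mul_assoc]
  let S : Setoid G :=
    { r := fun x y => ∃ k ∈ X.K 0, ∃ h ∈ X.Kp, y = k⁻¹ * x * h
      iseqv :=
        { refl := fun x => ⟨1, (X.K 0).one_mem, 1, X.Kp.one_mem, by group⟩
          symm := by
            rintro x y ⟨k, hk, h, hh, rfl⟩
            exact ⟨k⁻¹, (X.K 0).inv_mem hk, h⁻¹, X.Kp.inv_mem hh, by group⟩
          trans := by
            rintro x y z ⟨k, hk, h, hh, rfl⟩ ⟨k', hk', h', hh', rfl⟩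
            exact ⟨k * k', (X.K 0).mul_mem hk hk', h * h', X.Kp.mul_mem hh hh', by group⟩ } }
  let rep : G → G := fun y => (Quotient.mk S y).out
  have hrep : ∀ y, ∃ k ∈ X.K 0, ∃ h ∈ X.Kp, y = k⁻¹ * rep y * h := fun y =>
    Quotient.exact (Quotient.out_eq (Quotient.mk S y))
  have hrep' : ∀ y, ∀ k ∈ X.K 0, ∀ h ∈ X.Kp, rep (k⁻¹ * y * h) = rep y := fun y k hk h hh => by
    have : Quotient.mk S y = Quotient.mk S (k⁻¹ * y * h) := Quotient.sound ⟨k, hk, h, hh, rfl⟩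
    simp only [rep, this]
  choose kk hkk hh hhh hy using hrep
  let β : G → Matrix ι ι E := fun y => F (rep y) (kk y) (hh y)
  have hβ : ∀ y, ∀ k ∈ X.K 0, ∀ h ∈ X.Kp,
      β (k⁻¹ * y * h) = F (rep y) (kk y * k) (hh y * h) := by
    intro y k hk h hh'
    have e := hy (k⁻¹ * y * h)
    change F (rep (k⁻¹ * y * h)) _ _ = _
    rw [hrep' y k hk h hh'] at e ⊢
    refine hF _ _ (hkk _) _ (hhh _) _ ((X.K 0).mul_mem (hkk y) hk) _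
      (X.Kp.mul_mem (hhh y) hh') ?_
    rw [← e]
    conv_lhs => rw [hy y]
    group
  have hβ1 : ∀ y, ∀ h ∈ X.Kp, β (y * h) = D.μ h⁻¹ * β y := by
    intro y h hh'
    have e := hβ y 1 (X.K 0).one_mem h hh'
    rw [inv_one, one_mul, mul_one] at e
    rw [e]
    change D.μ (hh y * h)⁻¹ * _ * _ = D.μ h⁻¹ * (D.μ (hh y)⁻¹ * _ * _)
    rw [mul_inv_rev, D.μ_mul _ (D.H.inv_mem (X.Kp_le hh')) _ (D.H.inv_mem (X.Kp_le (hhh y)))]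
    simp only [Matrix.mul_assoc]
  have hβ2 : ∀ k ∈ X.K 0, ∀ y, Z k y = β (k⁻¹ * y) * D.μ k⁻¹ - β y := by
    intro k hk y
    have e := hβ y k hk 1 X.Kp.one_mem
    rw [mul_one, mul_one] at e
    rw [e]
    have e1 : Z k y = D.μ (hh y)⁻¹ * Z k ((kk y)⁻¹ * rep y) := by
      conv_lhs => rw [hy y]
      exact (hZ k (hKH k hk)).1 _ _ (X.Kp_le (hhh y))
    change _ = D.μ (hh y)⁻¹ * (b (rep y) + Z (kk y * k) (rep y)) * D.μ (kk y * k) * D.μ k⁻¹ -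
      D.μ (hh y)⁻¹ * (b (rep y) + Z (kk y) (rep y)) * D.μ (kk y)
    rw [e1, hc _ (hKH _ (hkk y)) k (hKH k hk), D.μ_mul _ (hKH _ (hkk y)) _ (hKH k hk),
      Matrix.mul_assoc _ _ (D.μ k⁻¹), Matrix.mul_assoc _ _ (D.μ k⁻¹), D.μ_mul_inv (hKH k hk),
      Matrix.mul_one, ← add_assoc, Matrix.mul_add _ (_ + _), Matrix.add_mul, add_sub_cancel_left,
      Matrix.mul_assoc, Matrix.mul_assoc, D.μ_inv_mul (hKH _ (hkk y)), Matrix.mul_one]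
  have hd : D.Dec β := by
    intro ε hε
    obtain ⟨C0, hC0, hμ⟩ := id hB
    have hδ : 0 < ε / (C0 * (C + 1) * C0) := by positivity
    obtain ⟨T1, hT1⟩ := C3_unif hB X Z hZ hc hcont hδ
    obtain ⟨T2, hT2⟩ := exists_sat D T1
    refine ⟨T2, fun y hy' => ?_⟩
    have hx : ∀ t ∈ T1, t⁻¹ * rep y ∉ D.H := by
      intro t ht h'
      obtain ⟨t', ht', h''⟩ := hT2 _ (D.H.inv_mem (hKH _ (hkk y))) (rep y * hh y)
        ⟨t, ht, by rw [← mul_assoc]; exact D.H.mul_mem h' (X.Kp_le (hhh y))⟩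
      rw [← mul_assoc (kk y)⁻¹, ← hy y] at h''
      exact hy' t' ht' h''
    set δ := ε / (C0 * (C + 1) * C0) with hδe
    have a1 : MLe ((C + 1) * δ) (b (rep y) + Z (kk y) (rep y)) :=
      ((hbM _ δ hδ.le fun k hk _ => hT1 k hk _ hx).mono (by nlinarith)).add
        ((hT1 _ (hkk y) _ hx).mono (by nlinarith))
    have a2 := ((hμ _ (D.H.inv_mem (X.Kp_le (hhh y)))).mul a1 hC0.le (by positivity)).mul
      (hμ _ (hKH _ (hkk y))) (by positivity) hC0.le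
    refine a2.mono (le_of_eq ?_)
    rw [hδe]
    field_simp
  obtain ⟨β', h1, h2, h3⟩ := exists_avg_right X.Kp X.Kp_le X.Kp_fin β hβ1 hd
  exact ⟨β', h1, h2, fun k hk => h3 k⁻¹ (D.μ k⁻¹) (Z k) (hZ k (hKH k hk)).1 (hβ2 k hk)⟩

end Fib

end Pool.Agent.MP_4d0c14_b
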