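import Pool.Agent.MP_4d0c14_b.G5
import Pool.Agent.MP_4d0c14_b.C3

/-! The case of two operators. -/

namespace Pool.Agent.MP_4d0c14_b

open scoped Matrix

namespace Fib

section C4aux

variable {G E ι : Type} [Group G] [Field E] [Fintype ι] [DecidableEq ι] {D : Fib G E ι}

/-- the left action -/
def C4_act (D : Fib G E ι) (h : G) (Y : G → Matrix ι ι E) : G → Matrix ι ι E :=
  fun x => Y (h⁻¹ * x) * D.μ h⁻¹

theorem C4_add (h : G) (Y Y' : G → Matrix ι ι E) :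
    C4_act D h (Y + Y') = C4_act D h Y + C4_act D h Y' := by
  funext x
  simp only [C4_act, Pi.add_apply, Matrix.add_mul]

theorem C4_sub (h : G) (Y Y' : G → Matrix ι ι E) :
    C4_act D h (Y - Y') = C4_act D h Y - C4_act D h Y' := by
  funext x
  simp only [C4_act, Pi.sub_apply, Matrix.sub_mul]

theorem C4_mul {h h' : G} (hh : h ∈ D.H) (hh' : h' ∈ D.H) (Y : G → Matrix ι ι E) :
    C4_act D (h * h') Y = C4_act D h (C4_act D h' Y) := by
  funext x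
  simp only [C4_act, mul_inv_rev, mul_assoc,
    D.μ_mul _ (D.H.inv_mem hh') _ (D.H.inv_mem hh)]

theorem C4_conv {κ Y : G → Matrix ι ι E} (hκ : D.Ker κ) (hY : D.Eqv Y) (h : G) :
    D.conv κ (C4_act D h Y) = C4_act D h (D.conv κ Y) :=
  funext fun x => conv_translate hκ.2.1 hY (Or.inl hκ.2.2) _ _ x

theorem C4_leqv {Y : G → Matrix ι ι E} (hY : D.LEqv Y) {h : G} (hh : h ∈ D.H) :
    C4_act D h Y = Y := by
  funext x
  rw [C4_act, hY x _ (D.H.inv_mem hh), Matrix.mul_assoc, D.μ_inv_mul (D.H.inv_mem hh),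
    Matrix.mul_one]

theorem C4_cen {Y : G → Matrix ι ι E} (hY : D.Eqv Y) {z : G} (hz : z ∈ D.H)
    (hc : ∀ g, z⁻¹ * g = g * z⁻¹) (hs : ∃ c : E, D.μ z⁻¹ = c • (1 : Matrix ι ι E)) :
    C4_act D z Y = Y := by
  funext x
  obtain ⟨c, hs⟩ := hs
  have h1 := D.μ_inv_mul (D.H.inv_mem hz)
  rw [C4_act, hc, hY x _ (D.H.inv_mem hz)]
  rw [hs, Matrix.mul_smul, Matrix.mul_one] at h1
  rw [hs, Matrix.mul_smul, Matrix.mul_one, ← Matrix.smul_mul, h1, Matrix.one_mul]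

end C4aux

variable {G E ι : Type} [Group G] [NontriviallyNormedField E] [IsUltrametricDist E]
  [CompleteSpace E] [CharZero E] [Fintype ι] [DecidableEq ι] {D : Fib G E ι}

/-- the left action of `K i` on a function tending to zero is continuous -/
theorem act_cont (hB : D.Bdd) (X : D.H1Data) {Y : G → Matrix ι ι E} (he : D.Eqv Y) (hd : D.Dec Y)
    (ε : ℝ) (hε : 0 < ε) :
    ∃ i, ∀ k ∈ X.K i, ∀ x, MLe ε (Y (k⁻¹ * x) * D.μ k⁻¹ - Y x) := by
  classical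
  obtain ⟨M, hM, hY⟩ := Dec.exists_bound hB he hd
  obtain ⟨C, hC, hμ⟩ := hB
  obtain ⟨T, hT⟩ := hd (min ε (ε / C)) (lt_min hε (div_pos hε hC))
  have hδ : 0 < ε / (C * M * (C + 1)) := by positivity
  set δ := ε / (C * M * (C + 1)) with hδ'
  choose j hj using fun x => X.cont x δ hδ
  refine ⟨(insert 1 T).sup j, fun k hk x => ?_⟩
  have hk' : ∀ t ∈ insert 1 T, ∀ k ∈ X.K ((insert 1 T).sup j), k ∈ X.K (j t) :=
    fun t ht k hk => X.anti (Finset.le_sup ht) hk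
  have hkH : k ∈ D.H := X.Kp_le (X.K_le (X.anti (Nat.zero_le _) hk))
  have hki := D.H.inv_mem hkH
  by_cases hx : ∀ t ∈ T, t⁻¹ * x ∉ D.H
  · have h1 : ∀ t ∈ T, t⁻¹ * (k⁻¹ * x) ∉ D.H := fun t ht h => by
      have h2 := D.H.mul_mem (hj t k (hk' t (Finset.mem_insert_of_mem ht) k hk)).1 h
      refine hx t ht ?_
      convert h2 using 1
      group
    refine MLe.sub ((((hT _ h1).mono (min_le_right _ _)).mul (hμ _ hki) (div_pos hε hC).le
      hC.le).mono (le_of_eq ?_)) ((hT _ hx).mono (min_le_left _ _))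
    field_simp
  · push Not at hx
    obtain ⟨t, ht, hx⟩ := hx
    obtain ⟨hA, hA'⟩ := hj t k (hk' t (Finset.mem_insert_of_mem ht) k hk)
    have hB' := (hj 1 k⁻¹ (hk' 1 (Finset.mem_insert_self _ _) _ (inv_mem hk))).2
    rw [inv_one, one_mul, mul_one] at hB'
    have e1 : Y x = D.μ (t⁻¹ * x)⁻¹ * Y t := by
      rw [← he t _ hx, mul_inv_cancel_left]
    have e2 : Y (k⁻¹ * x) = D.μ (t⁻¹ * x)⁻¹ * D.μ (t⁻¹ * k * t) * Y t := by
      have h3 := he t _ (D.H.mul_mem (D.H.inv_mem hA) hx)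
      rw [mul_inv_rev (t⁻¹ * k * t)⁻¹, inv_inv, D.μ_mul _ (D.H.inv_mem hx) _ hA] at h3
      rw [← h3]
      congr 1
      group
    have e3 : Y (k⁻¹ * x) * D.μ k⁻¹ - Y x = D.μ (t⁻¹ * x)⁻¹ *
        ((D.μ (t⁻¹ * k * t) - 1) * Y t * D.μ k⁻¹ + Y t * (D.μ k⁻¹ - 1)) := by
      rw [e1, e2]
      noncomm_ring
    rw [e3]
    have h4 : MLe (δ * M * (C + 1)) ((D.μ (t⁻¹ * k * t) - 1) * Y t * D.μ k⁻¹) :=
      ((hA'.mul (hY t) hδ.le hM.le).mul (hμ _ hki) (mul_pos hδ hM).le hC.le).mono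
        (mul_le_mul_of_nonneg_left (by linarith) (mul_pos hδ hM).le)
    have h5 : MLe (δ * M * (C + 1)) (Y t * (D.μ k⁻¹ - 1)) :=
      ((hY t).mul hB' hM.le hδ.le).mono (by nlinarith [mul_pos (mul_pos hδ hM) hC])
    refine ((hμ _ (D.H.inv_mem hx)).mul (h4.add h5) hC.le (by positivity)).mono (le_of_eq ?_)
    rw [hδ']
    field_simp

theorem core_two (hB : D.Bdd) (hL : HasLat D.H) (X : D.H1Data) (κ : Fin 2 → G → Matrix ι ι E)
    (hκ : ∀ i, D.Ker (κ i)) (hc : D.conv (κ 0) (κ 1) = D.conv (κ 1) (κ 0)) (hd : D.Dense κ)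
    (hd' : D.dual.Dense fun i => dK (κ i)) : D.Approx κ := by
  obtain ⟨hs, hk, C, hC, hb⟩ := exact_two hB hL κ hκ hc hd hd'
  obtain ⟨Y₀, Y₁, ⟨e0, d0⟩, ⟨e1, d1⟩, hY⟩ := hs D.del del_ker.1 del_ker.2.2.dec
  have f0 := (hκ 0).2.2
  have f1 := (hκ 1).2.2
  have hZ : ∀ h ∈ D.H, ∃ Z, D.Eqv Z ∧ D.Dec Z ∧ C4_act D h Y₀ - Y₀ = -D.conv (κ 1) Z ∧
      C4_act D h Y₁ - Y₁ = D.conv (κ 0) Z := fun h hh => by
    refine hk _ _ ((e0.translate _ _).sub e0) ((d0.translate _ _).sub d0)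
      ((e1.translate _ _).sub e1) ((d1.translate _ _).sub d1) ?_
    have h1 := C4_leqv (D := D) del_ker.2.1 hh
    rw [← hY, C4_add] at h1
    show D.conv (κ 0) (C4_act D h Y₀ - Y₀) + D.conv (κ 1) (C4_act D h Y₁ - Y₁) = 0
    rw [conv_sub_right (Or.inl f0), conv_sub_right (Or.inl f1), C4_conv (hκ 0) e0,
      C4_conv (hκ 1) e1, sub_add_sub_comm, h1, sub_self]
  choose! Z hZe hZd hZ0 hZ1 using hZ
  have hZ0' : ∀ h ∈ D.H, D.conv (κ 1) (Z h) = Y₀ - C4_act D h Y₀ := fun h hh => by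
    rw [← neg_sub, hZ0 h hh, neg_neg]
  have uniq : ∀ W, D.Eqv W → D.Dec W → D.conv (κ 0) W = 0 → D.conv (κ 1) W = 0 → W = 0 := by
    intro W hW hW' h0 h1
    funext x
    have h2 := hb W hW hW' 0 le_rfl (fun x => by rw [h0]; exact MLe.zero le_rfl)
      (fun x => by rw [h1]; exact MLe.zero le_rfl) x
    rw [mul_zero] at h2
    exact MLe.eq_zero fun ε hε => h2.mono hε.le
  have cen : ∀ z ∈ X.Z, ∀ Y, D.Eqv Y → C4_act D z Y = Y := fun z hz Y hY =>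
    C4_cen hY (X.Z_le hz) (X.Z_cen _ (inv_mem hz)) (X.Z_sc _ (inv_mem hz))
  have hKH : ∀ i, ∀ k ∈ X.K i, k ∈ D.H := fun i k hk =>
    X.Kp_le (X.K_le (X.anti (Nat.zero_le _) hk))
  obtain ⟨β, be, bd, hβ⟩ := glue hB X Z (fun k hk => ⟨hZe k hk, hZd k hk⟩)
    (fun k hk k' hk' x => by
      have hkk := D.H.mul_mem hk hk'
      have h1 := uniq (Z (k * k') - (Z k + C4_act D k (Z k')))
        ((hZe _ hkk).sub ((hZe _ hk).add ((hZe _ hk').translate _ _)))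
        ((hZd _ hkk).sub ((hZd _ hk).add ((hZd _ hk').translate _ _)))
        (by
          rw [conv_sub_right (Or.inl f0), conv_add_right (Or.inl f0), C4_conv (hκ 0) (hZe _ hk'),
            ← hZ1 _ hkk, ← hZ1 _ hk, ← hZ1 _ hk', C4_sub, C4_mul hk hk']
          abel)
        (by
          rw [conv_sub_right (Or.inl f1), conv_add_right (Or.inl f1), C4_conv (hκ 1) (hZe _ hk'),
            hZ0' _ hkk, hZ0' _ hk, hZ0' _ hk', C4_sub, C4_mul hk hk']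
          abel)
      exact congrFun (sub_eq_zero.1 h1) x)
    (fun z hz => uniq _ (hZe _ (X.Z_le hz)) (hZd _ (X.Z_le hz))
      (by rw [← hZ1 _ (X.Z_le hz), cen z hz _ e1, sub_self])
      (by rw [hZ0' _ (X.Z_le hz), cen z hz _ e0, sub_self]))
    (fun ε hε => by
      obtain ⟨i0, h0⟩ := act_cont hB X e0 d0 (ε / C) (div_pos hε hC)
      obtain ⟨i1, h1⟩ := act_cont hB X e1 d1 (ε / C) (div_pos hε hC)
      refine ⟨max i0 i1, fun k hk x => ?_⟩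
      have hH := hKH _ k hk
      refine (hb (Z k) (hZe k hH) (hZd k hH) (ε / C) (div_pos hε hC).le (fun y => ?_)
        (fun y => ?_) x).mono (le_of_eq ?_)
      · rw [← hZ1 k hH]
        exact h1 k (X.anti (le_max_right _ _) hk) y
      · rw [hZ0' k hH, ← neg_sub]
        exact (h0 k (X.anti (le_max_left _ _) hk) y).neg
      · field_simp)
  have hβ' : ∀ k ∈ X.K 0, Z k = C4_act D k β - β := fun k hk => funext (hβ k hk)
  have E0 : D.Eqv (Y₀ + D.conv (κ 1) β) := e0.add (conv_eqv (hκ 1).1 (Or.inl f1))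
  have E1 : D.Eqv (Y₁ - D.conv (κ 0) β) := e1.sub (conv_eqv (hκ 0).1 (Or.inl f0))
  have I0 : ∀ k ∈ X.K 0, C4_act D k (Y₀ + D.conv (κ 1) β) = Y₀ + D.conv (κ 1) β := fun k hk => by
    have h1 := hZ0' k (hKH 0 k hk)
    rw [hβ' k hk, conv_sub_right (Or.inl f1), C4_conv (hκ 1) be, sub_eq_sub_iff_add_eq_add] at h1
    rw [C4_add, add_comm, h1]
  have I1 : ∀ k ∈ X.K 0, C4_act D k (Y₁ - D.conv (κ 0) β) = Y₁ - D.conv (κ 0) β := fun k hk => by
    have h1 := hZ1 k (hKH 0 k hk)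
    rw [hβ' k hk, conv_sub_right (Or.inl f0), C4_conv (hκ 0) be, sub_eq_sub_iff_sub_eq_sub] at h1
    rw [C4_sub, h1]
  have key : ∀ Y, D.Eqv Y → (∀ k ∈ X.K 0, C4_act D k Y = Y) → ∀ g ∈ X.Kp, ∀ x,
      Y (g⁻¹ * x) * D.μ g⁻¹ = Y x := fun Y hY hI g hg x => by
    obtain ⟨k, hk, z, hz, rfl⟩ := X.Kp_dec g hg
    have h1 := C4_mul (hKH 0 k hk) (X.Z_le hz) Y
    rw [cen z hz Y hY, hI k hk] at h1
    exact congrFun h1 x
  obtain ⟨Y', hY', hsum⟩ := exists_avg_left X.Kp X.Kp_le X.Kp_fin hκ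
    ![Y₀ + D.conv (κ 1) β, Y₁ - D.conv (κ 0) β]
    (Fin.forall_fin_two.2 ⟨⟨E0, d0.add (conv_dec hB (hκ 1) bd)⟩,
      ⟨E1, d1.sub (conv_dec hB (hκ 0) bd)⟩⟩)
    (Fin.forall_fin_two.2 ⟨key _ E0 I0, key _ E1 I1⟩)
    (by
      rw [Fin.sum_univ_two]
      show D.conv (κ 0) (Y₀ + D.conv (κ 1) β) + D.conv (κ 1) (Y₁ - D.conv (κ 0) β) = _
      rw [conv_add_right (Or.inl f0), conv_sub_right (Or.inl f1),
        conv_assoc (hκ 0).2.1 (hκ 1) be (Or.inl f0), conv_assoc (hκ 1).2.1 (hκ 0) be (Or.inl f1),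
        hc, ← hY]
      abel)
  exact approx_of_sol hB hκ Y' hY' hsum

end Fib

end Pool.Agent.MP_4d0c14_b
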