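import Pool.Agent.MP_4d0c14_b.Final

/-! When all blocks have size one, a type is equal to its transpose. -/

namespace Pool.Agent.MP_4d0c14_b

open scoped Matrix
open CategoryTheory

namespace TypeData

variable {n m : ℕ} {F E : Type} [NormedField F] [Field E] (D : TypeData n n m F E)

theorem b_inj : Function.Injective D.b := Finite.injective_iff_surjective.2 D.surj

theorem tr_eq_of_levi {g : GL (Fin n) F} (hg : IsLevi D.b g) : tr g = g := by
  ext i j
  by_cases h : i = j
  · subst h
    rfl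
  · have h1 := hg i j fun e => h (D.b_inj e)
    have h2 := hg j i fun e => h (D.b_inj e).symm
    change (g : Matrix (Fin n) (Fin n) F) j i = _
    rw [h1, h2]

theorem diag_ne_zero {g : GL (Fin n) F} (hg : IsLevi D.b g) (i : Fin n) :
    (g : Matrix (Fin n) (Fin n) F) i i ≠ 0 := by
  intro h0
  have h := congrFun (congrFun g.mul_inv i) i
  rw [Matrix.mul_apply, Matrix.one_apply_eq, Finset.sum_eq_zero] at h
  · exact zero_ne_one h
  · intro j _
    by_cases hij : i = j
    · subst hij
      rw [h0, zero_mul]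
    · rw [hg i j fun e => hij (D.b_inj e), zero_mul]

theorem lam_symm (j : D.J) : (D.lam j)ᵀ = D.lam j := by
  have hl := D.levi _ j.2
  let e := Equiv.ofBijective D.b ⟨D.b_inj, D.surj⟩
  let z : Fin n → Fˣ := fun i => Units.mk0 _ (D.diag_ne_zero hl (e.symm i))
  obtain ⟨h1, h2⟩ := D.centre z
  have : j = ⟨_, h1⟩ := by
    apply Subtype.ext
    ext a c
    by_cases hac : a = c
    · subst hac
      have : e.symm (D.b a) = a := e.symm_apply_apply a
      simp [dg, z, this]
    · simp [dg, hac, hl a c fun h => hac (D.b_inj h)]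
  rw [this, h2]
  simp

theorem indSpace_transpose : indSpace D = indSpace D.transpose := by
  have hJ : ∀ g, g ∈ D.transpose.J ↔ g ∈ D.J := fun g =>
    ⟨fun h => by
      have h' : tr g ∈ D.J := h
      rwa [D.tr_eq_of_levi (D.transpose.levi g h)] at h',
    fun h => by
      change tr g ∈ D.J
      rwa [D.tr_eq_of_levi (D.levi g h)]⟩
  have hl : ∀ (g) (h : g ∈ D.J), D.transpose.lam ⟨g, (hJ g).2 h⟩ = D.lam ⟨g, h⟩ := fun g h => by
    change (D.lam ⟨tr g, _⟩)ᵀ = _
    rw [D.lam_symm]
    exact congrArg D.lam (Subtype.ext (D.tr_eq_of_levi (D.levi g h)))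
  ext f
  constructor
  · rintro ⟨h1, h2, h3⟩
    refine ⟨fun j u g hu => ?_, h2, fun g => ?_⟩
    · have := h1 ⟨j.1, (hJ _).1 j.2⟩ u g hu
      rw [← hl] at this
      exact this
    · obtain ⟨S, hS⟩ := h3 g
      refine ⟨S, fun x hx h0 => ?_⟩
      obtain ⟨s, hs, h⟩ := hS x hx h0
      exact ⟨s, hs, (hJ _).2 h⟩
  · rintro ⟨h1, h2, h3⟩
    refine ⟨fun j u g hu => ?_, h2, fun g => ?_⟩
    · have := h1 ⟨j.1, (hJ _).2 j.2⟩ u g hu
      rw [hl] at this
      exact this
    · obtain ⟨S, hS⟩ := h3 g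
      refine ⟨S, fun x hx h0 => ?_⟩
      obtain ⟨s, hs, h⟩ := hS x hx h0
      exact ⟨s, hs, (hJ _).1 h⟩

theorem iso_transpose : Nonempty (indRep D ≅ indRep D.transpose) := by
  refine ⟨eqToIso ?_⟩
  unfold indRep
  congr 1
  exact D.indSpace_transpose

end TypeData

end Pool.Agent.MP_4d0c14_b
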