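import Pool.Agent.MP_4d0c14_b.I4
import Pool.Agent.MP_4d0c14_b.C2

/-! The approximate inverse contradicts the orbit estimate. -/

namespace Pool.Agent.MP_4d0c14_b

open scoped Matrix Kronecker

/-- a matrix commuting with all `A ⊗ 1` is of the form `1 ⊗ B` -/
theorem eq_one_kron {E ι₁ ι : Type} [Field E] [Fintype ι₁] [DecidableEq ι₁] [Fintype ι]
    [DecidableEq ι] (S : Set (Matrix ι₁ ι₁ E)) (hS : Submodule.span E S = ⊤)
    (X : Matrix (ι₁ × ι) (ι₁ × ι) E)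
    (hX : ∀ A ∈ S, (A ⊗ₖ (1 : Matrix ι ι E)) * X = X * (A ⊗ₖ (1 : Matrix ι ι E))) (i : ι₁) :
    X = (1 : Matrix ι₁ ι₁ E) ⊗ₖ Matrix.of fun a b => X (i, a) (i, b) := by
  have h1 : ∀ A : Matrix ι₁ ι₁ E,
      (A ⊗ₖ (1 : Matrix ι ι E)) * X = X * (A ⊗ₖ (1 : Matrix ι ι E)) := by
    intro A
    have hA : A ∈ Submodule.span E S := hS ▸ Submodule.mem_top
    induction hA using Submodule.span_induction with
    | mem A h => exact hX A h
    | zero => simp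
    | add A B _ _ hA hB => rw [Matrix.add_kronecker, add_mul, mul_add, hA, hB]
    | smul c A _ hA => rw [Matrix.smul_kronecker, smul_mul_assoc, mul_smul_comm, hA]
  ext ⟨j, a⟩ ⟨k, b⟩
  have := congrFun (congrFun (h1 (Matrix.single i j 1)) (i, a)) (k, b)
  simp only [Matrix.mul_apply, Fintype.sum_prod_type, Matrix.kroneckerMap_apply, Matrix.single,
    Matrix.one_apply, Matrix.of_apply] at this ⊢
  by_cases hjk : j = k
  · subst hjk
    simpa [ite_and, Finset.sum_ite_eq, Finset.sum_ite_eq'] using this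
  · simpa [ite_and, hjk, Finset.sum_ite_eq, Finset.sum_ite_eq'] using this

/-- the map `B ↦ 1 ⊗ B` -/
def E1_ok (ι₁ : Type) {E ι : Type} [Field E] [DecidableEq ι₁] :
    Matrix ι ι E →+ Matrix (ι₁ × ι) (ι₁ × ι) E where
  toFun B := (1 : Matrix ι₁ ι₁ E) ⊗ₖ B
  map_zero' := Matrix.kronecker_zero _
  map_add' := fun _ _ => Matrix.kronecker_add _ _ _

theorem E1_ok_inj {ι₁ E ι : Type} [Field E] [DecidableEq ι₁] [Nonempty ι₁] {B B' : Matrix ι ι E}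
    (h : (1 : Matrix ι₁ ι₁ E) ⊗ₖ B = (1 : Matrix ι₁ ι₁ E) ⊗ₖ B') : B = B' := by
  obtain ⟨i⟩ := ‹Nonempty ι₁›
  ext a b
  simpa using congrFun (congrFun h (i, a)) (i, b)

/-- grouping a finite invariant sum by orbits -/
theorem E1_orbit_sum {N α E ι : Type} [Group N] [MulAction N α] [NormedField E]
    [IsUltrametricDist E] (t : α → Matrix ι ι E) (hfin : (Function.support t).Finite)
    (hinv : ∀ (u : N) c, t (u • c) = t c) {a : ℝ} (ha : 0 ≤ a)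
    (hb : ∀ c, t c ≠ 0 → MLe a ((((MulAction.stabilizer N c).index : ℕ) : E) • t c)) :
    MLe a (∑ᶠ c, t c) := by
  classical
  rw [finsum_eq_sum t hfin, Finset.sum_partition (MulAction.orbitRel N α)]
  refine MLe.sum ha fun y hy => ?_
  obtain ⟨c, hc, rfl⟩ := Finset.mem_image.1 hy
  have hc' : t c ≠ 0 := by simpa using hc
  have h1 : ∀ y, (Quotient.mk (MulAction.orbitRel N α) y = Quotient.mk _ c) ↔
      y ∈ MulAction.orbit N c := fun y => by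
    rw [Quotient.eq, MulAction.orbitRel_apply]
  have h2 : ((hfin.toFinset.filter fun y =>
      Quotient.mk (MulAction.orbitRel N α) y = Quotient.mk _ c : Finset α) : Set α) =
      MulAction.orbit N c := by
    ext y
    simp only [Finset.coe_filter, Set.Finite.mem_toFinset, Function.mem_support, Set.mem_ofPred_eq,
      h1]
    refine ⟨fun h => h.2, fun h => ⟨?_, h⟩⟩
    obtain ⟨u, rfl⟩ := h
    simpa [hinv] using hc'
  rw [Finset.sum_congr rfl (g := fun _ => t c), Finset.sum_const, ← Set.ncard_coe_finset, h2,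
    ← MulAction.index_stabilizer, ← Nat.cast_smul_eq_nsmul E]
  · exact hb c hc'
  · intro y hy
    obtain ⟨u, rfl⟩ := (h1 y).1 (Finset.mem_filter.1 hy).2
    exact hinv u c

namespace Iw

variable {G E ι ι₁ : Type} [Group G] [NormedField E] [IsUltrametricDist E]
  [Fintype ι] [DecidableEq ι] (D : Iw G E ι) [Fintype ι₁] [DecidableEq ι₁]
  (ρ : G →* Matrix ι₁ ι₁ E)

theorem exists_small_unit [Nonempty ι₁] {d : ℕ} {γ : Fin d → G} (hγ : ∀ i, D.Pos (γ i))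
    (hburn : ∀ x : G, Submodule.span E {A | ∃ k ∈ D.H, x⁻¹ * k * x ∈ D.H ∧ D.lam k = 1 ∧
      D.lam (x⁻¹ * k * x) = 1 ∧ A = ρ k} = ⊤)
    (h : (D.tfib ρ).Approx fun i => D.tker ρ (γ i)) (ε : ℝ) (hε : 0 < ε) :
    ∃ q : G → Matrix ι ι E, D.fib.Ker q ∧ (∀ x, MLe ε (ρ x⁻¹ ⊗ₖ q x)) ∧ D.pmap q 1 = 1 := by
  obtain ⟨Y, hY, hle⟩ := h ε hε
  obtain ⟨i⟩ := ‹Nonempty ι₁›
  have hc : ∀ j, (D.tfib ρ).Ker ((D.tfib ρ).conv (D.tker ρ (γ j)) (Y j)) := fun j =>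
    (D.tker_ker ρ (hγ j)).conv (hY j)
  obtain ⟨Q, hQ⟩ : ∃ Q, Q = (D.tfib ρ).del - ∑ j, (D.tfib ρ).conv (D.tker ρ (γ j)) (Y j) :=
    ⟨_, rfl⟩
  have hs : (D.tfib ρ).Ker (∑ j, (D.tfib ρ).conv (D.tker ρ (γ j)) (Y j)) :=
    ⟨Fib.Eqv.sum fun j _ => (hc j).1, Fib.LEqv.sum fun j _ => (hc j).2.1,
      Fib.Fin0.sum fun j _ => (hc j).2.2⟩
  have hK : (D.tfib ρ).Ker Q := hQ ▸ Fib.del_ker.sub hs
  have hle' : ∀ x, MLe ε (Q x) := fun x => by
    rw [hQ, Pi.sub_apply, Finset.sum_apply]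
    exact hle x
  have hp : D.tpmap ρ Q 1 = 1 := by
    rw [hQ, D.tpmap_sub ρ Fib.del_ker.2.2 hs.2.2, D.tpmap_sum ρ fun j _ => (hc j).2.2,
      D.tpmap_del, D.phi_one, Matrix.one_kronecker_one, Finset.sum_eq_zero, sub_zero]
    exact fun j _ => D.tpmap_tker ρ (hγ j) (hY j).1 (hY j).2.2 1
  have hR : ∀ x, ∀ k ∈ D.H, Q (x * k) = (ρ k⁻¹ ⊗ₖ D.lam k⁻¹) * Q x := hK.1
  have hL : ∀ x, ∀ k ∈ D.H, Q (k * x) = Q x * (ρ k⁻¹ ⊗ₖ D.lam k⁻¹) := hK.2.1
  have hX : ∀ x, ∃ B : Matrix ι ι E,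
      (ρ x ⊗ₖ (1 : Matrix ι ι E)) * Q x = (1 : Matrix ι₁ ι₁ E) ⊗ₖ B := by
    intro x
    refine ⟨_, eq_one_kron _ (hburn x) _ ?_ i⟩
    rintro A ⟨k, hk, hk', h1, h2, rfl⟩
    have e1 := hL x k⁻¹ (D.H.inv_mem hk)
    have e2 := hR x (x⁻¹ * k * x)⁻¹ (D.H.inv_mem hk')
    have e3 : x * (x⁻¹ * k * x)⁻¹ = k⁻¹ * x := by group
    rw [inv_inv, h1] at e1
    rw [inv_inv, h2, e3, e1] at e2
    rw [Matrix.mul_assoc, e2, ← Matrix.mul_assoc, ← Matrix.mul_assoc, ← Matrix.mul_kronecker_mul,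
      ← Matrix.mul_kronecker_mul, ← map_mul, ← map_mul]
    congr 3
    group
  choose q hq using hX
  have hQq : ∀ x, Q x = ρ x⁻¹ ⊗ₖ q x := fun x => by
    have e : (ρ x⁻¹ ⊗ₖ (1 : Matrix ι ι E)) * ((ρ x ⊗ₖ (1 : Matrix ι ι E)) * Q x) = Q x := by
      rw [← Matrix.mul_assoc, ← Matrix.mul_kronecker_mul, ← map_mul, inv_mul_cancel, map_one,
        Matrix.one_mul, Matrix.one_kronecker_one, Matrix.one_mul]
    rw [← e, hq, ← Matrix.mul_kronecker_mul, Matrix.mul_one, Matrix.one_mul]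
  refine ⟨q, ⟨fun x k hk => ?_, fun x k hk => ?_, ?_⟩, fun x => hQq x ▸ hle' x, ?_⟩
  · apply E1_ok_inj (ι₁ := ι₁)
    rw [← hq, hR x k hk, hQq x, ← Matrix.mul_kronecker_mul, ← Matrix.mul_kronecker_mul,
      ← map_mul, ← map_mul, ← mul_inv_rev, mul_inv_cancel, map_one, Matrix.one_mul]
    rfl
  · apply E1_ok_inj (ι₁ := ι₁)
    rw [← hq, hL x k hk, hQq x, ← Matrix.mul_kronecker_mul, ← Matrix.mul_kronecker_mul,
      ← map_mul, ← map_mul, ← mul_inv_rev, mul_inv_cancel, map_one, Matrix.one_mul]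
    rfl
  · obtain ⟨T, hT⟩ := hK.2.2
    refine ⟨T, fun x hx => hT x fun h0 => hx ?_⟩
    apply E1_ok_inj (ι₁ := ι₁)
    rw [← hq, h0, Matrix.mul_zero, Matrix.kronecker_zero]
  · apply E1_ok_inj (ι₁ := ι₁)
    rw [Matrix.one_kronecker_one, ← hp]
    have e := (E1_ok ι₁ (E := E) (ι := ι)).map_finsum_of_preimage_zero
      (fun B hB => E1_ok_inj (ι₁ := ι₁) (hB.trans (Matrix.kronecker_zero _).symm))
      fun c : G ⧸ D.H => D.phi (1 * c.out) * q c.out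
    refine e.trans (finsum_congr fun c => ?_)
    rw [hQq, ← Matrix.mul_kronecker_mul, ← map_mul, mul_inv_cancel, map_one]
    rfl

theorem not_small_unit [Nonempty ι] (N : Subgroup G) (hN : ∀ u ∈ N, u ∈ D.H ∧ u ∈ D.P ∧ D.lam u = 1)
    (C : ℝ) (hC : ∀ p ∈ D.P, ∃ i i', ∀ a a',
      ‖(((MulAction.stabilizer G (p : G ⧸ D.H)).relIndex N : ℕ) : E)‖ * ‖D.lam p a a'‖ ≤
        C * ‖ρ p⁻¹ i i'‖) :
    ¬∀ ε : ℝ, 0 < ε →
      ∃ q : G → Matrix ι ι E, D.fib.Ker q ∧ (∀ x, MLe ε (ρ x⁻¹ ⊗ₖ q x)) ∧ D.pmap q 1 = 1 := by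
  intro h
  have hpos : 0 < 2 * (|C| + 1) := by positivity
  obtain ⟨q, ⟨hR, hL, T, hT⟩, hle, h1⟩ := h (1 / (2 * (|C| + 1))) (by positivity)
  set ε := 1 / (2 * (|C| + 1)) with hε
  have hε0 : 0 < ε := by positivity
  have hR' : ∀ x, ∀ k ∈ D.H, q (x * k) = D.lam k⁻¹ * q x := hR
  have hL' : ∀ x, ∀ k ∈ D.H, q (k * x) = q x * D.lam k⁻¹ := hL
  have e1 : ∀ g, ∀ k ∈ D.H, D.phi (g * k) * q (g * k) = D.phi g * q g := fun g k hk => by
    have e : D.lam k * D.lam k⁻¹ = 1 := D.fib.μ_mul_inv hk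
    rw [D.phi_right hk, hR' g k hk, Matrix.mul_assoc, ← Matrix.mul_assoc (D.lam k), e,
      Matrix.one_mul]
  have e2 : ∀ g, ∀ u ∈ N, D.phi (u * g) * q (u * g) = D.phi g * q g := fun g u hu => by
    rw [D.phi_left (hN u hu).2.1, hL' g u (hN u hu).1, (hN u hu).2.2,
      (hN u⁻¹ (N.inv_mem hu)).2.2, Matrix.one_mul, Matrix.mul_one]
  obtain ⟨t, ht⟩ : ∃ t : G ⧸ D.H → Matrix ι ι E, t = fun c => D.phi (1 * c.out) * q c.out :=
    ⟨_, rfl⟩
  have e3 : ∀ g : G, t (g : G ⧸ D.H) = D.phi g * q g := fun g => by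
    obtain ⟨k, hk⟩ := QuotientGroup.mk_out_eq_mul D.H g
    rw [ht]
    simp only [one_mul]
    rw [hk, e1 g k k.2]
  have hfin : (Function.support t).Finite := by
    refine (T.finite_toSet.image fun g : G => (g : G ⧸ D.H)).subset fun c hc => ?_
    obtain ⟨g, rfl⟩ := QuotientGroup.mk_surjective c
    rw [Function.mem_support, e3] at hc
    obtain ⟨s, hs, hs'⟩ := hT g fun h0 => hc (by rw [h0, Matrix.mul_zero])
    exact ⟨s, hs, QuotientGroup.eq.2 hs'⟩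
  have hsum : ∑ᶠ c, t c = 1 := by rw [ht]; exact h1
  have hM := E1_orbit_sum (N := N) t hfin (a := |C| * ε) (fun u c => ?_) (by positivity)
    fun c hc => ?_
  · obtain ⟨a⟩ := ‹Nonempty ι›
    have h2 := hM a a
    rw [hsum, Matrix.one_apply_eq, norm_one, hε, mul_one_div, le_div_iff₀ hpos] at h2
    linarith [abs_nonneg C]
  · obtain ⟨g, rfl⟩ := QuotientGroup.mk_surjective c
    have e : (u • (g : G ⧸ D.H)) = (((u : G) * g : G) : G ⧸ D.H) := rfl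
    rw [e, e3, e3, e2 g u u.2]
  · obtain ⟨g, rfl⟩ := QuotientGroup.mk_surjective c
    rw [e3] at hc
    obtain ⟨p, hp, k, hk, rfl⟩ : ∃ p ∈ D.P, ∃ k ∈ D.H, g = p * k := by
      by_contra h0
      exact hc (by rw [D.phi_eq_zero h0, Matrix.zero_mul])
    have e4 : ((p * k : G) : G ⧸ D.H) = (p : G ⧸ D.H) := QuotientGroup.mk_mul_of_mem p hk
    have e5 : D.phi p = D.lam p := by
      have := D.phi_mul hp D.H.one_mem
      rwa [mul_one, D.lam_one, Matrix.mul_one] at this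
    have e6 : (MulAction.stabilizer N (p : G ⧸ D.H)).index =
        (MulAction.stabilizer G (p : G ⧸ D.H)).relIndex N := rfl
    rw [e4, e3, e5, e6]
    obtain ⟨i, i', hi⟩ := hC p hp
    intro a b
    rw [← Matrix.smul_mul, Matrix.mul_apply]
    refine IsUltrametricDist.norm_sum_le_of_forall_le_of_nonneg (by positivity) fun a' _ => ?_
    have h3 := hle p (i, a') (i', b)
    rw [Matrix.kroneckerMap_apply, norm_mul] at h3
    rw [Matrix.smul_apply, norm_mul, smul_eq_mul, norm_mul]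
    calc _ ≤ (|C| * ‖ρ p⁻¹ i i'‖) * ‖q p a' b‖ :=
          mul_le_mul_of_nonneg_right ((hi a a').trans
            (mul_le_mul_of_nonneg_right (le_abs_self C) (norm_nonneg _))) (norm_nonneg _)
      _ = |C| * (‖ρ p⁻¹ i i'‖ * ‖q p a' b‖) := mul_assoc _ _ _
      _ ≤ |C| * ε := mul_le_mul_of_nonneg_left h3 (abs_nonneg C)

end Iw

end Pool.Agent.MP_4d0c14_b
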