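import Pool.Agent.MP_4d0c14_b.Mat
import Pool.Agent.MP_4d0c14_nt.SA

/-! Compactness and discreteness facts for a local field. -/

namespace Pool.Agent.MP_4d0c14_b

open scoped Matrix

variable {n : ℕ} {F : Type} [NormedField F] [IsUltrametricDist F]

/-- The open ball of radius `r` as an additive subgroup. -/
def ballG (F : Type) [NormedField F] [IsUltrametricDist F] (r : ℝ) (hr : 0 < r) :
    AddSubgroup F where
  carrier := {x | ‖x‖ < r}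
  add_mem' := fun {a b} ha hb => (IsUltrametricDist.norm_add_le_max a b).trans_lt (max_lt ha hb)
  zero_mem' := by simpa using hr
  neg_mem' := fun {a} ha => by simpa using ha

/-- The cardinality of the residue field. -/
noncomputable def resCard (F : Type) [NormedField F] [IsUltrametricDist F] : ℕ :=
  Nat.card (IsLocalRing.ResidueField (NormedField.valuation (K := F)).valuationSubring)

theorem exists_norm_eq_zpow (ϖ : Fˣ) (hϖ : ‖(ϖ : F)‖ < 1)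
    (hmax : ∀ x : F, ‖x‖ < 1 → ‖x‖ ≤ ‖(ϖ : F)‖) {x : F} (hx : x ≠ 0) :
    ∃ e : ℤ, ‖x‖ = ‖(ϖ : F)‖ ^ e := by
  have hp : 0 < ‖(ϖ : F)‖ := norm_pos_iff.2 ϖ.ne_zero
  obtain ⟨k, h1, h2⟩ := exists_mem_Ioc_zpow (norm_pos_iff.2 hx) ((one_lt_inv₀ hp).2 hϖ)
  have hz : 0 < ‖(ϖ : F)‖ ^ (k + 1) := zpow_pos hp _
  have h3 : ‖x * (ϖ : F) ^ (k + 1)‖ = ‖x‖ * ‖(ϖ : F)‖ ^ (k + 1) := by
    rw [norm_mul, norm_zpow]
  have h4 : ‖x‖ * ‖(ϖ : F)‖ ^ (k + 1) ≤ 1 := by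
    rwa [inv_zpow, ← one_div, le_div_iff₀ hz] at h2
  have h5 : ‖(ϖ : F)‖ < ‖x‖ * ‖(ϖ : F)‖ ^ (k + 1) := by
    rw [inv_zpow, ← one_div, div_lt_iff₀ (zpow_pos hp _)] at h1
    rw [zpow_add_one₀ hp.ne', ← mul_assoc]
    exact lt_mul_of_one_lt_left hp h1
  have h6 : ‖x‖ * ‖(ϖ : F)‖ ^ (k + 1) = 1 := by
    refine h4.antisymm (not_lt.1 fun h => ?_)
    have := hmax _ (h3 ▸ h)
    rw [h3] at this
    exact absurd this (not_le.2 h5)
  exact ⟨-(k + 1), by rw [zpow_neg]; exact eq_inv_of_mul_eq_one_left h6⟩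

theorem M3_step (ϖ : Fˣ) (hϖ : ‖(ϖ : F)‖ < 1)
    (hmax : ∀ x : F, ‖x‖ < 1 → ‖x‖ ≤ ‖(ϖ : F)‖) (c : ℕ) :
    (ballG F (‖(ϖ : F)‖ ^ (c + 1)) (pow_pos (norm_pos_iff.2 ϖ.ne_zero) _)).relIndex
      (ballG F (‖(ϖ : F)‖ ^ c) (pow_pos (norm_pos_iff.2 ϖ.ne_zero) _)) = resCard F := by
  have hp : 0 < ‖(ϖ : F)‖ := norm_pos_iff.2 ϖ.ne_zero
  have hϖ0 : (ϖ : F) ≠ 0 := ϖ.ne_zero
  have hm : ∀ x : F, ‖x‖ < ‖(ϖ : F)‖ ^ c →
      x / (ϖ : F) ^ (c + 1) ∈ (NormedField.valuation (K := F)).valuationSubring := by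
    intro x hx
    rw [MP_4d0c14_nt.SA_mem, norm_div, norm_pow, div_le_one (pow_pos hp _)]
    have h1 := hmax (x / (ϖ : F) ^ c) (by
      rw [norm_div, norm_pow, div_lt_one (pow_pos hp _)]; exact hx)
    rw [norm_div, norm_pow, div_le_iff₀ (pow_pos hp _)] at h1
    rw [pow_succ']
    exact h1
  let f : ballG F (‖(ϖ : F)‖ ^ c) (pow_pos hp _) →+
      IsLocalRing.ResidueField (NormedField.valuation (K := F)).valuationSubring :=
    AddMonoidHom.mk' (fun x => IsLocalRing.residue _ ⟨x.1 / (ϖ : F) ^ (c + 1), hm x.1 x.2⟩)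
      fun x y => by
        rw [← map_add]
        congr 1
        exact Subtype.ext (add_div _ _ _)
  have hs : Function.Surjective f := by
    intro a
    obtain ⟨y, rfl⟩ := IsLocalRing.residue_surjective a
    have hy : ‖(y : F)‖ ≤ 1 := (MP_4d0c14_nt.SA_mem _).1 y.2
    have h1 : ‖(y : F) * (ϖ : F) ^ (c + 1)‖ < ‖(ϖ : F)‖ ^ c := by
      rw [norm_mul, norm_pow]
      calc ‖(y : F)‖ * ‖(ϖ : F)‖ ^ (c + 1) ≤ 1 * ‖(ϖ : F)‖ ^ (c + 1) :=
            mul_le_mul_of_nonneg_right hy (pow_pos hp _).le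
        _ < ‖(ϖ : F)‖ ^ c := by
            rw [one_mul, pow_succ]
            exact mul_lt_of_lt_one_right (pow_pos hp _) hϖ
    refine ⟨⟨_, h1⟩, ?_⟩
    change IsLocalRing.residue _ _ = _
    congr 1
    exact Subtype.ext (mul_div_cancel_right₀ _ (pow_ne_zero _ hϖ0))
  have hk : (ballG F (‖(ϖ : F)‖ ^ (c + 1)) (pow_pos hp _)).addSubgroupOf
      (ballG F (‖(ϖ : F)‖ ^ c) (pow_pos hp _)) = f.ker := by
    ext x
    rw [AddSubgroup.mem_addSubgroupOf, AddMonoidHom.mem_ker]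
    have h1 := MP_4d0c14_nt.SA_res_eq (F := F) ⟨x.1 / (ϖ : F) ^ (c + 1), hm x.1 x.2⟩ 0
    rw [map_zero] at h1
    refine Iff.trans ?_ h1.symm
    change ‖x.1‖ < _ ↔ ‖x.1 / (ϖ : F) ^ (c + 1) - 0‖ < 1
    rw [sub_zero, norm_div, norm_pow, div_lt_one (pow_pos hp _)]
  rw [AddSubgroup.relIndex, hk, AddSubgroup.index_ker, AddMonoidHom.range_eq_top.2 hs,
    AddSubgroup.card_top]
  rfl

theorem relIndex_ballG (ϖ : Fˣ) (hϖ : ‖(ϖ : F)‖ < 1)
    (hmax : ∀ x : F, ‖x‖ < 1 → ‖x‖ ≤ ‖(ϖ : F)‖) (c e : ℕ) :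
    (ballG F (‖(ϖ : F)‖ ^ (c + e)) (pow_pos (norm_pos_iff.2 ϖ.ne_zero) _)).relIndex
      (ballG F (‖(ϖ : F)‖ ^ c) (pow_pos (norm_pos_iff.2 ϖ.ne_zero) _)) = resCard F ^ e := by
  have hp : 0 < ‖(ϖ : F)‖ := norm_pos_iff.2 ϖ.ne_zero
  have hle : ∀ a b : ℕ, a ≤ b → ballG F (‖(ϖ : F)‖ ^ b) (pow_pos hp _) ≤
      ballG F (‖(ϖ : F)‖ ^ a) (pow_pos hp _) := fun a b hab x hx =>
    lt_of_lt_of_le hx (pow_le_pow_of_le_one hp.le hϖ.le hab)
  induction e with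
  | zero => simp
  | succ e ih =>
    have h1 := AddSubgroup.relIndex_mul_relIndex _ _ _ (hle (c + e) (c + e + 1) (Nat.le_succ _))
      (hle c (c + e) (Nat.le_add_right _ _))
    rw [M3_step ϖ hϖ hmax, ih] at h1
    rw [pow_succ']
    exact h1.symm

variable [ProperSpace F]

theorem resCard_ne_zero : resCard F ≠ 0 := by
  have := MP_4d0c14_nt.SA_finite (F := F)
  exact Nat.card_pos.ne'

theorem M3_cover (C : ℝ) {r : ℝ} (hr : 0 < r) (A : Set (GL (Fin n) F))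
    (hA : ∀ g ∈ A, Bnd C g) : ∃ T : Finset (GL (Fin n) F), (∀ t ∈ T, t ∈ A) ∧
      ∀ g ∈ A, ∃ t ∈ T, Near r (t⁻¹ * g) := by
  classical
  let D : ℝ := max C 1
  have hD : 0 < D := lt_max_of_lt_right one_pos
  let φ : GL (Fin n) F → Fin n → Fin n → F := fun g i j => (g : Matrix (Fin n) (Fin n) F) i j
  have hsub : φ '' A ⊆ Metric.closedBall 0 D := by
    rintro _ ⟨g, hg, rfl⟩
    rw [mem_closedBall_zero_iff]
    exact (pi_norm_le_iff_of_nonneg hD.le).2 fun i => (pi_norm_le_iff_of_nonneg hD.le).2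
      fun j => (hA g hg i j).1.trans (le_max_left _ _)
  have htb : TotallyBounded (φ '' A) :=
    (isCompact_closedBall (0 : Fin n → Fin n → F) D).totallyBounded.subset hsub
  obtain ⟨t, ht, hfin, hcov⟩ := Metric.finite_approx_of_totallyBounded htb (r / D) (div_pos hr hD)
  obtain ⟨T, hTA, hT, rfl⟩ := Set.Finite.exists_subset_finite_image_eq hfin ht
  refine ⟨hT.toFinset, fun u hu => hTA (hT.mem_toFinset.1 hu), fun g hg => ?_⟩
  obtain ⟨_, ⟨u, hu, rfl⟩, hgu⟩ := Set.mem_iUnion₂.1 (hcov ⟨g, hg, rfl⟩)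
  refine ⟨u, hT.mem_toFinset.2 hu, ?_⟩
  rw [Metric.mem_ball, dist_eq_norm] at hgu
  have h1 : MLe ‖φ g - φ u‖ 
      ((g : Matrix (Fin n) (Fin n) F) - (u : Matrix (Fin n) (Fin n) F)) := fun i j =>
    (norm_le_pi_norm ((φ g - φ u) i) j).trans (norm_le_pi_norm (φ g - φ u) i)
  have h2 : MLe D ((u⁻¹ : GL (Fin n) F) : Matrix (Fin n) (Fin n) F) :=
    (bnd_iff.1 (hA u (hTA hu))).2.mono (le_max_left _ _)
  have h3 := h2.mul h1 hD.le (norm_nonneg _)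
  have e : ((u⁻¹ * g : GL (Fin n) F) : Matrix (Fin n) (Fin n) F) - 1 =
      ((u⁻¹ : GL (Fin n) F) : Matrix (Fin n) (Fin n) F) *
        ((g : Matrix (Fin n) (Fin n) F) - (u : Matrix (Fin n) (Fin n) F)) := by
    rw [Matrix.mul_sub, ← Units.val_mul, ← Units.val_mul, inv_mul_cancel, Units.val_one]
  intro i j
  rw [e]
  refine (h3 i j).trans_lt ?_
  rwa [lt_div_iff₀' hD] at hgu

theorem finite_cover (C : ℝ) {r : ℝ} (hr : 0 < r) : ∃ T : Finset (GL (Fin n) F),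
    ∀ g, Bnd C g → ∃ t ∈ T, Bnd C t ∧ Near r (t⁻¹ * g) := by
  obtain ⟨T, h1, h2⟩ := M3_cover (n := n) (F := F) C hr {g | Bnd C g} fun _ hg => hg
  refine ⟨T, fun g hg => ?_⟩
  obtain ⟨t, ht, h3⟩ := h2 g hg
  exact ⟨t, ht, h1 t ht, h3⟩

/-- a version relative to a subset -/
theorem finite_cover_of_subset (C : ℝ) {r : ℝ} (hr : 0 < r) (A : Set (GL (Fin n) F))
    (hA : ∀ g ∈ A, Bnd C g) : ∃ T : Finset (GL (Fin n) F), (∀ t ∈ T, t ∈ A) ∧
      ∀ g ∈ A, ∃ t ∈ T, Near r (t⁻¹ * g) := M3_cover C hr A hA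

theorem exists_pow_near {g : GL (Fin n) F} (hg : Bnd 1 g) {r : ℝ} (hr : 0 < r) :
    ∃ m : ℕ, 0 < m ∧ Near r (g ^ m) := by
  have hb : ∀ m : ℕ, Bnd 1 (g ^ m) := by
    intro m
    induction m with
    | zero => rw [pow_zero]; exact (near_one one_pos).bnd one_pos le_rfl
    | succ m ih =>
      have := ih.mul hg zero_le_one zero_le_one
      rwa [one_mul, ← pow_succ] at this
  have hs : 0 < min r 1 := lt_min hr one_pos
  obtain ⟨T, hT⟩ := finite_cover (n := n) (F := F) 1 hs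
  choose t ht _ hn using fun m : ℕ => hT (g ^ m) (hb m)
  have key : ∀ a b : ℕ, a < b → t a = t b → ∃ m : ℕ, 0 < m ∧ Near r (g ^ m) := by
    intro a b hab h
    refine ⟨b - a, Nat.sub_pos_of_lt hab, ?_⟩
    have h1 := ((hn a).inv hs (min_le_right _ _)).mul hs (min_le_right _ _) (hn b)
    have e : ((t a)⁻¹ * g ^ a)⁻¹ * ((t b)⁻¹ * g ^ b) = g ^ (b - a) := by
      obtain ⟨k, rfl⟩ := Nat.exists_eq_add_of_le hab.le
      rw [h, Nat.add_sub_cancel_left, pow_add]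
      group
    rw [e] at h1
    exact h1.mono (min_le_left _ _)
  obtain ⟨a, b, hab, h⟩ := Finite.exists_ne_map_eq_of_infinite
    (fun m : ℕ => (⟨t m, ht m⟩ : T))
  have h' : t a = t b := congrArg Subtype.val h
  rcases lt_or_gt_of_ne hab with h1 | h1
  · exact key a b h1 h'
  · exact key b a h1 h'.symm

theorem exists_pow_sub_one_lt {x : F} (hx : ‖x‖ = 1) {r : ℝ} (hr : 0 < r) :
    ∃ m : ℕ, 0 < m ∧ ‖x ^ m - 1‖ < r := by
  have hmem : ∀ k : ℕ, x ^ k ∈ Metric.closedBall (0 : F) 1 := fun k => by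
    simp [hx]
  obtain ⟨a, -, φ, hφ, hlim⟩ := (isCompact_closedBall (0 : F) 1).tendsto_subseq hmem
  obtain ⟨N, hN⟩ := Metric.cauchySeq_iff'.1 hlim.cauchySeq r hr
  have h1 := hN (N + 1) (Nat.le_succ N)
  have hlt : φ N < φ (N + 1) := hφ (Nat.lt_succ_self N)
  obtain ⟨m, hm⟩ : ∃ m, φ (N + 1) = φ N + (m + 1) := ⟨φ (N + 1) - φ N - 1, by omega⟩
  simp only [Function.comp_apply, dist_eq_norm, hm] at h1
  have h2 : x ^ (φ N + (m + 1)) - x ^ φ N = x ^ φ N * (x ^ (m + 1) - 1) := by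
    ring
  rw [h2, norm_mul, norm_pow, hx, one_pow, one_mul] at h1
  exact ⟨m + 1, Nat.succ_pos m, h1⟩

end Pool.Agent.MP_4d0c14_b
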