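import Pool.Agent.MP_4d0c14_b.GE2
import Pool.Agent.MP_4d0c14_b.M3

/-! Divisibility of the index of a subgroup of the unipotent radical. -/

namespace Pool.Agent.MP_4d0c14_b

open scoped Matrix

theorem index_mul_dvd {A C : Type} [Group A] [Group C] (ψ : A →* C) (hψ : Function.Surjective ψ)
    (S : Subgroup A) (L : Subgroup C) (h : ∀ s ∈ S, ψ s ∈ L) :
    L.index * S.relIndex ψ.ker ∣ S.index := by
  have h1 : S.relIndex ψ.ker = S.relIndex (ψ.ker ⊔ S) := by
    refine Nat.card_congr (Equiv.ofBijective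
      (Subgroup.quotientSubgroupOfEmbeddingOfLE S (le_sup_left : ψ.ker ≤ ψ.ker ⊔ S))
      ⟨(Subgroup.quotientSubgroupOfEmbeddingOfLE _ _).injective, fun q => ?_⟩)
    obtain ⟨⟨g, hg⟩, rfl⟩ := QuotientGroup.mk_surjective q
    obtain ⟨y, hy, z, hz, rfl⟩ := Subgroup.mem_sup_of_normal_left.1 hg
    refine ⟨QuotientGroup.mk ⟨y, hy⟩, ?_⟩
    rw [Subgroup.quotientSubgroupOfEmbeddingOfLE_apply_mk, QuotientGroup.eq,
      Subgroup.mem_subgroupOf]
    simpa using hz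
  have h2 : ψ.ker ⊔ S ≤ L.comap ψ := sup_le (Subgroup.ker_le_comap ψ L) h
  rw [← Subgroup.relIndex_mul_index (le_sup_right : S ≤ ψ.ker ⊔ S), h1, mul_comm,
    ← Subgroup.index_comap_of_surjective L hψ]
  exact Nat.mul_dvd_mul_left _ (Subgroup.index_dvd_of_le h2)

section

variable {n k : ℕ} {F : Type} [NormedField F] {b : Fin n → Fin k}

theorem E2_mul {g g' : GL (Fin n) F} (hg : IsUnip b g) (hg' : IsUnip b g') {a c : Fin n}
    (hac : b a < b c) (h0 : ∀ x, b a < b x → b x < b c →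
      (g : Matrix (Fin n) (Fin n) F) a x * (g' : Matrix (Fin n) (Fin n) F) x c = 0) :
    ((g * g' : GL (Fin n) F) : Matrix (Fin n) (Fin n) F) a c =
      (g : Matrix (Fin n) (Fin n) F) a c + (g' : Matrix (Fin n) (Fin n) F) a c := by
  have h : ∀ x, (g : Matrix (Fin n) (Fin n) F) a x * (g' : Matrix (Fin n) (Fin n) F) x c =
      (if x = c then (g : Matrix (Fin n) (Fin n) F) a c else 0) +
        if a = x then (g' : Matrix (Fin n) (Fin n) F) a c else 0 := fun x => by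
    rcases le_or_gt (b x) (b a) with h1 | h1
    · have h2 : x ≠ c := fun e => absurd (e ▸ h1) hac.not_ge
      rw [hg a x h1, if_neg h2, Matrix.one_apply]
      split_ifs with h3
      · rw [h3, one_mul, zero_add]
      · simp
    · have h2 : a ≠ x := fun e => absurd (e ▸ h1) (lt_irrefl _)
      rw [if_neg h2, add_zero]
      rcases le_or_gt (b c) (b x) with h3 | h3
      · rw [hg' x c h3, Matrix.one_apply]
        split_ifs with h4
        · rw [h4, mul_one]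
        · simp
      · rw [h0 x h1 h3, if_neg fun e => absurd (e ▸ h3) (lt_irrefl _)]
  rw [Units.val_mul, Matrix.mul_apply, Finset.sum_congr rfl fun x _ => h x,
    Finset.sum_add_distrib]
  simp

theorem E2_ne {a c : Fin n} (hac : b a < b c) : a ≠ c := fun e => absurd (e ▸ hac) (lt_irrefl _)

theorem E2_sub (g : GL (Fin n) F) {a c : Fin n} (hac : b a < b c) :
    ((g : Matrix (Fin n) (Fin n) F) - 1) a c = (g : Matrix (Fin n) (Fin n) F) a c := by
  rw [Matrix.sub_apply, Matrix.one_apply_ne (E2_ne hac), sub_zero]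

theorem E2_add {g g' : GL (Fin n) F} (hg : IsUnip b g) (hg' : IsUnip b g') {a c : Fin n}
    (hac : b a < b c) {h : ℕ} (hh : (b c : ℕ) - b a ≤ h) (h0 : ∀ a' c', b a' < b c' →
      (b c' : ℕ) - b a' < h → (g : Matrix (Fin n) (Fin n) F) a' c' = 0) :
    ((g * g' : GL (Fin n) F) : Matrix (Fin n) (Fin n) F) a c =
      (g : Matrix (Fin n) (Fin n) F) a c + (g' : Matrix (Fin n) (Fin n) F) a c :=
  E2_mul hg hg' hac fun x h1 h2 => by
    rw [h0 a x h1 (by rw [Fin.lt_def] at h1 h2; omega), zero_mul]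

variable [IsUltrametricDist F]

variable (b) in
/-- The height filtration. -/
def E2_A (r : ℝ) (h₀ : 0 < r) (h₁ : r ≤ 1) (h : ℕ) : Subgroup (GL (Fin n) F) where
  carrier := {g | IsUnip b g ∧ Near r g ∧ ∀ a c, b a < b c → (b c : ℕ) - b a < h →
    (g : Matrix (Fin n) (Fin n) F) a c = 0}
  mul_mem' := fun {g g'} hg hg' => ⟨hg.1.mul hg'.1, hg.2.1.mul h₀ h₁ hg'.2.1, fun a c h1 h2 => by
    rw [E2_add hg.1 hg'.1 h1 h2.le hg.2.2, hg.2.2 a c h1 h2, hg'.2.2 a c h1 h2, add_zero]⟩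
  one_mem' := ⟨isUnip_one, near_one h₀, fun a c h1 _ => Matrix.one_apply_ne (E2_ne h1)⟩
  inv_mem' := fun {g} hg => ⟨hg.1.inv, hg.2.1.inv h₀ h₁, fun a c h1 h2 => by
    have := E2_add hg.1 hg.1.inv h1 h2.le hg.2.2
    rw [mul_inv_cancel, hg.2.2 a c h1 h2, zero_add] at this
    rw [← this]
    exact Matrix.one_apply_ne (E2_ne h1)⟩

variable (b) in
/-- The entries of a given height. -/
def E2_ψ (r : ℝ) (h₀ : 0 < r) (h₁ : r ≤ 1) (h : ℕ) : E2_A (F := F) b r h₀ h₁ h →*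
    ({x : Fin n × Fin n // b x.1 < b x.2 ∧ (b x.2 : ℕ) - b x.1 = h} →
      Multiplicative (ballG F r h₀)) :=
  MonoidHom.mk' (fun g x => Multiplicative.ofAdd
    ⟨(g.1 : Matrix (Fin n) (Fin n) F) x.1.1 x.1.2, by
      have := g.2.2.1 x.1.1 x.1.2
      rwa [E2_sub _ x.2.1] at this⟩) fun g g' => by
    funext x
    exact congrArg Multiplicative.ofAdd
      (Subtype.ext (E2_add g.2.1 g'.2.1 x.2.1 x.2.2.le g.2.2.2))

theorem E2_ker (r : ℝ) (h₀ : 0 < r) (h₁ : r ≤ 1) (h : ℕ) : (E2_ψ (F := F) b r h₀ h₁ h).ker =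
    (E2_A b r h₀ h₁ (h + 1)).subgroupOf (E2_A b r h₀ h₁ h) := by
  ext g
  rw [MonoidHom.mem_ker, Subgroup.mem_subgroupOf]
  constructor
  · refine fun H => ⟨g.2.1, g.2.2.1, fun a c h1 h2 => ?_⟩
    rcases Nat.lt_succ_iff_lt_or_eq.1 h2 with h3 | h3
    · exact g.2.2.2 a c h1 h3
    · exact congrArg (fun y => (Multiplicative.toAdd y).1) (congrFun H ⟨(a, c), h1, h3⟩)
  · intro H
    funext x
    exact congrArg Multiplicative.ofAdd
      (Subtype.ext (H.2.2 _ _ x.2.1 (Nat.lt_succ_of_le x.2.2.le)))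

theorem E2_surj (hb : Monotone b) (r : ℝ) (h₀ : 0 < r) (h₁ : r ≤ 1) (h : ℕ) :
    Function.Surjective (E2_ψ (F := F) b r h₀ h₁ h) := by
  intro y
  obtain ⟨X, hX, hX'⟩ : ∃ X : Matrix (Fin n) (Fin n) F,
      (∀ x : {x : Fin n × Fin n // b x.1 < b x.2 ∧ (b x.2 : ℕ) - b x.1 = h},
        X x.1.1 x.1.2 = (Multiplicative.toAdd (y x)).1) ∧
      ∀ a c, ¬(b a < b c ∧ (b c : ℕ) - b a = h) → X a c = 0 :=
    ⟨Matrix.of fun a c => if H : b a < b c ∧ (b c : ℕ) - b a = h then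
      (Multiplicative.toAdd (y ⟨(a, c), H⟩)).1 else 0, fun x => dif_pos x.2,
      fun a c H => dif_neg H⟩
  have h2 : ∀ a c, b c ≤ b a → (1 + X) a c = (1 : Matrix (Fin n) (Fin n) F) a c := fun a c H => by
    rw [Matrix.add_apply, hX' a c fun H' => H.not_gt H'.1, add_zero]
  have h3 : (1 + X).det ≠ 0 := by
    rw [Matrix.det_of_isUpperTriangular fun a c (H : c < a) => by
      rw [h2 a c (hb H.le), Matrix.one_apply_ne H.ne']]
    simp [h2]
  have h4 : ∀ a c, b a < b c → (1 + X) a c = X a c := fun a c H => by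
    rw [Matrix.add_apply, Matrix.one_apply_ne (E2_ne H), zero_add]
  refine ⟨⟨Matrix.GeneralLinearGroup.mkOfDetNeZero _ h3, h2, fun a c => ?_, fun a c H H' => ?_⟩, ?_⟩
  · change ‖(1 + X - 1) a c‖ < r
    rw [add_sub_cancel_left]
    by_cases H : b a < b c ∧ (b c : ℕ) - b a = h
    · rw [hX ⟨(a, c), H⟩]
      exact (Multiplicative.toAdd (y ⟨(a, c), H⟩)).2
    · rwa [hX' a c H, norm_zero]
  · exact (h4 a c H).trans (hX' a c fun H'' => H'.ne H''.2)
  · funext x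
    exact congrArg Multiplicative.ofAdd (Subtype.ext ((h4 _ _ x.2.1).trans (hX x)))

end

namespace TypeData

variable {n k m : ℕ} {F E : Type} [NormedField F] [Field E] (D : TypeData n k m F E)

/-- conjugation does not change the lowest nonzero entries -/
theorem conj_entry {s u : GL (Fin n) F} (hs : IsUnip D.b s) (hu : IsUnip D.b u) {a c : Fin n}
    (hac : D.b a < D.b c) (h0 : ∀ a' c', D.b a' < D.b c' →
      (D.b c' : ℕ) - D.b a' < (D.b c : ℕ) - D.b a → (s : Matrix (Fin n) (Fin n) F) a' c' = 0) :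
    ((u⁻¹ * s * u : GL (Fin n) F) : Matrix (Fin n) (Fin n) F) a c =
      (s : Matrix (Fin n) (Fin n) F) a c := by
  have h : ∀ x, ((u⁻¹ : GL (Fin n) F) : Matrix (Fin n) (Fin n) F) a x *
      ((s * u : GL (Fin n) F) : Matrix (Fin n) (Fin n) F) x c =
      ((u⁻¹ : GL (Fin n) F) : Matrix (Fin n) (Fin n) F) a x * (u : Matrix (Fin n) (Fin n) F) x c +
        if a = x then (s : Matrix (Fin n) (Fin n) F) a c else 0 := fun x => by
    rcases le_or_gt (D.b x) (D.b a) with h1 | h1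
    · rw [hu.inv a x h1, Matrix.one_apply]
      split_ifs with h3
      · rw [← h3, E2_add hs hu hac le_rfl h0, one_mul, one_mul, add_comm]
      · simp
    · rw [if_neg (E2_ne h1), add_zero]
      rcases le_or_gt (D.b c) (D.b x) with h3 | h3
      · rw [hs.mul hu x c h3, hu x c h3]
      · have h4 : (D.b c : ℕ) - D.b x < (D.b c : ℕ) - D.b a := by
          rw [Fin.lt_def] at h1 h3
          omega
        rw [E2_add hs hu h3 h4.le h0, h0 x c h3 h4, zero_add]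
  rw [mul_assoc, Units.val_mul, Matrix.mul_apply, Finset.sum_congr rfl fun x _ => h x,
    Finset.sum_add_distrib, ← Matrix.mul_apply, Units.inv_mul, Matrix.one_apply_ne (E2_ne hac)]
  simp

theorem pow_dvd_relIndex [IsUltrametricDist F] (ϖ : Fˣ) (hϖ : ‖(ϖ : F)‖ < 1)
    (hmax : ∀ x : F, ‖x‖ < 1 → ‖x‖ ≤ ‖(ϖ : F)‖) (c₀ : ℕ) (h₀ : 0 < ‖(ϖ : F)‖ ^ c₀)
    (h₁ : ‖(ϖ : F)‖ ^ c₀ ≤ 1) (S : Subgroup (GL (Fin n) F)) (e : Fin n × Fin n → ℕ)
    (hS : ∀ s ∈ S, IsUnip D.b s → Near (‖(ϖ : F)‖ ^ c₀) s → ∀ a c, D.b a < D.b c →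
      (∀ a' c', D.b a' < D.b c' → (D.b c' : ℕ) - D.b a' < (D.b c : ℕ) - D.b a →
        (s : Matrix (Fin n) (Fin n) F) a' c' = 0) →
      ‖(s : Matrix (Fin n) (Fin n) F) a c‖ < ‖(ϖ : F)‖ ^ (c₀ + e (a, c))) :
    resCard F ^ (∑ x ∈ Finset.univ.filter (fun x : Fin n × Fin n => D.b x.1 < D.b x.2), e x) ∣
      S.relIndex (D.UU ⊓ KK n F (‖(ϖ : F)‖ ^ c₀) h₀ h₁) := by
  have key : ∀ h ≤ k, resCard F ^ (∑ x ∈ Finset.univ.filter (fun x : Fin n × Fin n =>
      D.b x.1 < D.b x.2 ∧ h ≤ (D.b x.2 : ℕ) - D.b x.1), e x) ∣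
      S.relIndex (E2_A D.b _ h₀ h₁ h) := by
    intro h hk
    induction hk using Nat.decreasingInduction with
    | self =>
      rw [Finset.filter_false_of_mem fun x _ H => absurd H.2 (by have := (D.b x.2).2; omega)]
      simp
    | of_succ h hk ih =>
      have h2 := index_mul_dvd _ (E2_surj D.mono _ h₀ h₁ h) (S.subgroupOf _)
        (Subgroup.pi Set.univ fun x => AddSubgroup.toSubgroup
          ((ballG F (‖(ϖ : F)‖ ^ (c₀ + e x.1))
            (pow_pos (norm_pos_iff.2 ϖ.ne_zero) _)).addSubgroupOf (ballG F _ h₀)))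
        fun s hs x _ => hS s hs s.2.1 s.2.2.1 _ _ x.2.1 fun a' c' H H' =>
          s.2.2.2 a' c' H (H'.trans_eq x.2.2)
      have h3 : E2_A (F := F) D.b _ h₀ h₁ (h + 1) ≤ E2_A D.b _ h₀ h₁ h := fun g hg =>
        ⟨hg.1, hg.2.1, fun a c H H' => hg.2.2 a c H (Nat.lt_succ_of_lt H')⟩
      rw [E2_ker, Subgroup.relIndex_subgroupOf h3, Subgroup.index_pi] at h2
      refine dvd_trans (dvd_of_eq ?_) ((Nat.mul_dvd_mul_left _ ih).trans h2)
      have h4 : ∀ x : Fin n × Fin n, (AddSubgroup.toSubgroup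
          ((ballG F (‖(ϖ : F)‖ ^ (c₀ + e x))
            (pow_pos (norm_pos_iff.2 ϖ.ne_zero) _)).addSubgroupOf (ballG F _ h₀))).index =
          resCard F ^ e x := fun x => by
        rw [AddSubgroup.index_toSubgroup]
        exact relIndex_ballG ϖ hϖ hmax c₀ (e x)
      rw [Finset.prod_congr rfl fun x _ => h4 x.1, Finset.prod_pow_eq_pow_sum, ← pow_add,
        ← Finset.sum_subtype (Finset.univ.filter fun x : Fin n × Fin n =>
          D.b x.1 < D.b x.2 ∧ (D.b x.2 : ℕ) - D.b x.1 = h) (by simp) e,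
        Finset.sum_filter, Finset.sum_filter, Finset.sum_filter, ← Finset.sum_add_distrib]
      refine congrArg _ (Finset.sum_congr rfl fun x _ => ?_)
      split_ifs <;> omega
  have h5 := key 0 k.zero_le
  have h6 : E2_A (F := F) D.b _ h₀ h₁ 0 = D.UU ⊓ KK n F (‖(ϖ : F)‖ ^ c₀) h₀ h₁ :=
    Subgroup.ext fun g => ⟨fun H => ⟨H.1, H.2.1⟩,
      fun H => ⟨H.1, H.2, fun _ _ _ H' => absurd H' (Nat.not_lt_zero _)⟩⟩
  simpa only [h6, Nat.zero_le, and_true] using h5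

end TypeData

end Pool.Agent.MP_4d0c14_b
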