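import Pool.Agent.MP_4d0c14_b.Stmt

/-! The Emerton condition in every chamber. -/

namespace Pool.Agent.MP_4d0c14_b

open Finset in
theorem E3_ind {n k m : ℕ} {F E ι : Type} [NormedField F] [NormedField E] [Fintype ι]
    (D : TypeData n k m F E) (a : ι → Fin n → ℤ) (ϖ : Fˣ) (q : ℕ)
    (hcent : ‖((D.omega fun _ => ϖ : Eˣ) : E)‖ * ‖(ϖ : F)‖ ^ (∑ σ, ∑ i, a σ i) = 1)
    (hE : ∀ I, Emerton D a ϖ q I) (s : Equiv.Perm (Fin n)) (c : ℤ) (t : ℕ) :
    ∀ v : Fin k → ℤ, (∀ i, c ≤ v i ∧ v i ≤ c + t) → (Antitone fun i => v (D.b (s i))) →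
      ‖((D.omega fun i => ϖ ^ v i : Eˣ) : E)‖ *
        ‖(q : E)‖ ^ (∑ x ∈ univ.filter (fun x : Fin n × Fin n => D.b x.1 < D.b x.2),
          (v (D.b x.1) - v (D.b x.2)).toNat) *
        ‖(ϖ : F)‖ ^ (∑ σ, ∑ i, a σ i * v (D.b (s i))) ≤ 1 := by
  induction t with
  | zero =>
    intro v hv _
    obtain rfl : v = fun _ => c := funext fun i => by have := hv i; omega
    have h1 : (fun _ : Fin k => ϖ ^ c) = (fun _ => ϖ) ^ c := rfl
    simp only [h1, map_zpow, Units.val_zpow_eq_zpow_val, norm_zpow, sub_self, Int.toNat_zero,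
      sum_const_zero, pow_zero, mul_one, ← sum_mul, zpow_mul, ← mul_zpow, hcent, one_zpow, le_refl]
  | succ t ih =>
    intro v hv ha
    obtain ⟨I, hI⟩ : ∃ I : Finset (Fin k), ∀ i, i ∈ I ↔ v i = c + t + 1 :=
      ⟨univ.filter fun i => v i = c + t + 1, fun i => by simp⟩
    push_cast at hv
    have h1 := ih (fun i => v i - if i ∈ I then 1 else 0)
      (fun i => by have := hv i; simp only [hI]; split_ifs <;> omega) fun i j hij => by
        have := ha hij
        have := hv (D.b (s i))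
        simp only [hI] at *
        split_ifs <;> omega
    have h2 := mul_le_one₀ h1 (by positivity) (hE I)
    have e1 : (fun i => ϖ ^ v i) =
        (fun i => ϖ ^ (v i - if i ∈ I then 1 else 0)) * fun i => if i ∈ I then ϖ else 1 := by
      funext i
      rw [Pi.mul_apply]
      split_ifs
      · rw [zpow_sub_one, inv_mul_cancel_right]
      · rw [sub_zero, mul_one]
    have e2 : ∑ x ∈ univ.filter (fun x : Fin n × Fin n => D.b x.1 < D.b x.2),
        (v (D.b x.1) - v (D.b x.2)).toNat =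
        ∑ x ∈ univ.filter (fun x : Fin n × Fin n => D.b x.1 < D.b x.2),
          ((v (D.b x.1) - if D.b x.1 ∈ I then 1 else 0) -
            (v (D.b x.2) - if D.b x.2 ∈ I then 1 else 0)).toNat +
        (univ.filter fun x : Fin n × Fin n =>
          D.b x.1 < D.b x.2 ∧ D.b x.1 ∈ I ∧ D.b x.2 ∉ I).card := by
      rw [← filter_filter, card_filter, ← sum_add_distrib]
      refine sum_congr rfl fun x _ => ?_
      have := hv (D.b x.1)
      have := hv (D.b x.2)
      simp only [hI]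
      split_ifs <;> omega
    have e3 : ∀ i : Fin n, (i : ℕ) < (univ.filter fun x => D.b x ∈ I).card ↔ D.b (s i) ∈ I := by
      intro i
      rw [← card_equiv s (s := univ.filter fun i => D.b (s i) ∈ I) (by simp)]
      refine Fin.lt_card_filter_univ_iff_apply_of_imp (fun i => D.b (s i) ∈ I) fun i j hij h => ?_
      have := ha hij
      have := hv (D.b (s j))
      simp only [hI] at *
      omega
    have e4 : ∑ σ, ∑ i, a σ i * v (D.b (s i)) =
        ∑ σ, ∑ i, a σ i * (v (D.b (s i)) - if D.b (s i) ∈ I then 1 else 0) +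
        ∑ σ, ∑ i ∈ univ.filter
          (fun i : Fin n => (i : ℕ) < (univ.filter fun x => D.b x ∈ I).card), a σ i := by
      simp only [e3, sum_filter, ← sum_add_distrib]
      refine sum_congr rfl fun σ _ => sum_congr rfl fun i _ => ?_
      split_ifs <;> ring
    rw [e1, e2, e4, map_mul, Units.val_mul, norm_mul, pow_add,
      zpow_add₀ (norm_ne_zero_iff.2 ϖ.ne_zero)]
    refine le_of_eq_of_le ?_ h2
    ring

theorem emerton_all {n k m : ℕ} {F E ι : Type} [NormedField F] [NormedField E] [Fintype ι]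
    (D : TypeData n k m F E) (a : ι → Fin n → ℤ) (ϖ : Fˣ) (q : ℕ)
    (hcent : ‖((D.omega fun _ => ϖ : Eˣ) : E)‖ * ‖(ϖ : F)‖ ^ (∑ σ, ∑ i, a σ i) = 1)
    (hE : ∀ I, Emerton D a ϖ q I) (v : Fin k → ℤ) : ∃ s : Equiv.Perm (Fin n),
      ‖((D.omega fun i => ϖ ^ v i : Eˣ) : E)‖ *
        ‖(q : E)‖ ^ (∑ x ∈ Finset.univ.filter (fun x : Fin n × Fin n => D.b x.1 < D.b x.2),
          (v (D.b x.1) - v (D.b x.2)).toNat) *
        ‖(ϖ : F)‖ ^ (∑ σ, ∑ i, a σ i * v (D.b (s i))) ≤ 1 := by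
  refine ⟨Tuple.sort fun i => -v (D.b i), E3_ind D a ϖ q hcent hE _ (-(∑ i, (v i).natAbs : ℕ))
    (2 * ∑ i, (v i).natAbs) v (fun i => ?_) fun i j hij =>
      neg_le_neg_iff.1 (Tuple.monotone_sort (fun i => -v (D.b i)) hij)⟩
  have := Finset.single_le_sum (f := fun i => (v i).natAbs) (fun _ _ => Nat.zero_le _)
    (Finset.mem_univ i)
  omega

end Pool.Agent.MP_4d0c14_b
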