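import Pool.Agent.MP_4d0c14_b.GE2
import Pool.Agent.MP_4d0c14_b.M3

/-! `H` is open and compact modulo the centre. -/

namespace Pool.Agent.MP_4d0c14_b

open scoped Matrix

namespace TypeData

variable {n k m : ℕ} {F E : Type} [NormedField F] [IsUltrametricDist F]

section

variable [Field E] (D : TypeData n k m F E) {r : ℝ} (hr : D.Good r)

theorem GE4_dec {h : GL (Fin n) F} (hh : h ∈ D.HH hr) :
    ∃ j w, j ∈ D.J ∧ D.Flat j ∧ Bnd 1 w ∧ h = j * w := by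
  obtain ⟨j, hj, hf, X, -, hX, e⟩ := hh
  refine ⟨j, j⁻¹ * h, hj, hf, Near.bnd one_pos le_rfl fun a c => ?_, by group⟩
  rw [Units.val_mul, e, ← Matrix.mul_assoc, Units.inv_mul, Matrix.one_mul, add_sub_cancel_left]
  exact (Bd.mle D hX a c).trans_lt hr.2.1

theorem GE4_bnd : ∃ C : ℝ, 0 < C ∧ ∀ (θ : ℝ) (j w : GL (Fin n) F), 0 < θ → j ∈ D.J → Bnd 1 w →
    (∀ a, θ⁻¹ ≤ D.sl j (D.b a) ∧ D.sl j (D.b a) ≤ θ) → Bnd (C * θ) (j * w) := by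
  obtain ⟨C, hC, h⟩ := D.entry_le
  refine ⟨C, hC, fun θ j w hθ hj hw hs => ?_⟩
  have h1 : Bnd (C * θ) j := fun a c =>
    ⟨(h j hj a c).trans (mul_le_mul_of_nonneg_left (hs a).2 hC.le),
      (h _ (D.J.inv_mem hj) a c).trans (mul_le_mul_of_nonneg_left (by
        rw [D.sl_inv (D.levi _ hj)]
        exact inv_le_of_inv_le₀ hθ (hs a).1) hC.le)⟩
  simpa using h1.mul hw (by positivity) zero_le_one

theorem near_mem : ∃ r₁ : ℝ, 0 < r₁ ∧ r₁ ≤ 1 ∧ ∀ g, Near r₁ g → g ∈ D.HH hr ∧ D.lamF g = 1 := by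
  obtain ⟨C, hC, h⟩ := D.bd_of_mle
  have h0 := hr.1
  have h1 : 0 < min 1 (r * r / C) := lt_min one_pos (by positivity)
  refine ⟨_, h1, min_le_left _ _, fun g hg => ?_⟩
  obtain ⟨s, hs0, hs, hs'⟩ := hg.exists_le h1
  have h2 : C * s ≤ r * r := by
    rw [mul_comm]
    exact (le_div_iff₀ hC).1 (hs.le.trans (min_le_right _ _))
  have h3 := Bd.mono D (h s _ hs0 hs') h2
  have h4 := D.inH_of (g := g) hr D.J.one_mem (fun i i' => by rw [D.sl_one, D.sl_one])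
    (Bd.mono D h3 (mul_le_of_le_one_right h0.le hr.2.1.le))
    (Bd.mask D h3 (by positivity) (· = ·)) (by simp)
  exact ⟨h4.1, h4.2.trans (map_one D.lam)⟩

theorem scalar_mem (z : Fˣ) : dg (fun _ => z) ∈ D.HH hr ∧
    D.lamF (dg fun _ => z) = (D.omega fun _ => z : E) • (1 : Matrix (Fin m) (Fin m) E) := by
  have h := D.cen_mem fun _ => z
  exact ⟨(D.inH_iff_flat hr (D.levi _ h)).2 ⟨h, fun i i' => by rw [D.sl_cen, D.sl_cen]⟩,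
    (D.lamF_of_mem h).trans (D.lam_cen _)⟩

theorem hh_bnd (ϖ : Fˣ) (hϖ : ‖(ϖ : F)‖ < 1) :
    ∃ C : ℝ, 0 < C ∧ ∀ h ∈ D.HH hr, ∃ e : ℤ, Bnd C (dg (fun _ => ϖ ^ e) * h) := by
  obtain ⟨C, hC, hb⟩ := D.GE4_bnd
  have h0 : 0 < ‖(ϖ : F)‖ := norm_pos_iff.2 ϖ.ne_zero
  have h1 : 1 < ‖(ϖ : F)‖⁻¹ := (one_lt_inv₀ h0).2 hϖ
  refine ⟨C * ‖(ϖ : F)‖⁻¹, by positivity, fun h hh => ?_⟩
  obtain ⟨j, w, hj, hf, hw, rfl⟩ := D.GE4_dec hr hh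
  rcases isEmpty_or_nonempty (Fin n) with hn | ⟨⟨a₀⟩⟩
  · exact ⟨0, fun a => hn.elim a⟩
  obtain ⟨e, h2, h3⟩ := exists_mem_Ioc_zpow (D.sl_pos (D.levi _ hj) (D.b a₀)) h1
  have h4 := D.cen_mem fun _ => ϖ ^ e
  have h5 : 0 < ‖(ϖ : F)‖ ^ e := zpow_pos h0 e
  refine ⟨e, ?_⟩
  rw [← mul_assoc]
  refine hb _ (D.cen (fun _ => ϖ ^ e) * j) w (by positivity) (D.J.mul_mem h4 hj) hw fun a => ?_
  rw [D.sl_mul (D.levi _ h4) (D.levi _ hj), D.sl_cen, hf _ (D.b a₀), inv_inv,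
    Units.val_zpow_eq_zpow_val, norm_zpow]
  rw [zpow_add_one₀ (by positivity), inv_zpow] at h3
  rw [inv_zpow, inv_lt_iff_one_lt_mul₀' h5] at h2
  exact ⟨hϖ.le.trans h2.le, (le_inv_mul_iff₀ h5).1 h3⟩

theorem hh_bnd_of_det : ∃ C : ℝ, 0 < C ∧ ∀ h ∈ D.HH hr,
    ‖(h : Matrix (Fin n) (Fin n) F).det‖ = 1 → Bnd C h := by
  obtain ⟨C, hC, hb⟩ := D.GE4_bnd
  refine ⟨C * 1, by positivity, fun h hh hd => ?_⟩
  obtain ⟨j, w, hj, hf, hw, rfl⟩ := D.GE4_dec hr hh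
  refine hb 1 j w one_pos hj hw fun a => ?_
  rw [Units.val_mul, Matrix.det_mul, norm_mul, hw.norm_det, mul_one,
    D.norm_det_of_flat (D.levi _ hj) fun i => hf i (D.b a),
    pow_eq_one_iff_of_nonneg (D.sl_pos (D.levi _ hj) _).le a.pos.ne'] at hd
  rw [hd, inv_one]
  exact ⟨le_rfl, le_rfl⟩

variable [ProperSpace F]

theorem hh_cover (ϖ : Fˣ) (hϖ : ‖(ϖ : F)‖ < 1) {s : ℝ} (hs : 0 < s) :
    ∃ T : Finset (GL (Fin n) F), (∀ t ∈ T, t ∈ D.HH hr) ∧ ∀ h ∈ D.HH hr, ∃ t ∈ T, ∃ e : ℤ,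
      Near s (t⁻¹ * (dg (fun _ => ϖ ^ e) * h)) := by
  obtain ⟨C, -, hC⟩ := D.hh_bnd hr ϖ hϖ
  obtain ⟨T, h1, h2⟩ := finite_cover_of_subset C hs {h | h ∈ D.HH hr ∧ Bnd C h} fun g hg => hg.2
  refine ⟨T, fun t ht => (h1 t ht).1, fun h hh => ?_⟩
  obtain ⟨e, he⟩ := hC h hh
  obtain ⟨t, ht, h3⟩ := h2 _ ⟨(D.HH hr).mul_mem (D.scalar_mem hr _).1 hh, he⟩
  exact ⟨t, ht, e, h3⟩

theorem hh_fin (ϖ : Fˣ) (hϖ : ‖(ϖ : F)‖ < 1) (g : GL (Fin n) F) :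
    ∃ T : Finset (GL (Fin n) F), ∀ h ∈ D.HH hr, ∃ t ∈ T, t⁻¹ * (h * g) ∈ D.HH hr := by
  classical
  obtain ⟨r₁, h0, -, h1⟩ := D.near_mem hr
  obtain ⟨s, hs, h2⟩ := exists_near_conj g h0
  obtain ⟨T, -, h3⟩ := D.hh_cover hr ϖ hϖ hs
  refine ⟨T.image (· * g), fun h hh => ?_⟩
  obtain ⟨t, ht, e, h4⟩ := h3 h hh
  refine ⟨t * g, Finset.mem_image_of_mem _ ht, ?_⟩
  have h5 := (h1 _ (h2 _ h4)).1
  have h6 : g⁻¹ * (t⁻¹ * (dg (fun _ => ϖ ^ e) * h)) * g =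
      dg (fun _ => ϖ ^ e) * ((t * g)⁻¹ * (h * g)) := by
    rw [← mul_assoc (dg _), dg_const_comm _ (t * g)⁻¹, mul_inv_rev]
    simp only [mul_assoc]
  rw [h6] at h5
  exact ((D.HH hr).mul_mem_cancel_left (D.scalar_mem hr _).1).1 h5

end

theorem lam_bdd [ProperSpace F] [NormedField E] [IsUltrametricDist E] (D : TypeData n k m F E)
    (C : ℝ) : ∃ C' : ℝ, 0 < C' ∧ ∀ j ∈ D.J, Bnd C j → MLe C' (D.lamF j) := by
  obtain ⟨r, hr, h⟩ := D.smooth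
  obtain ⟨T, h1, h2⟩ := finite_cover_of_subset C hr {j | j ∈ D.J ∧ Bnd C j} fun g hg => hg.2
  choose f hf hf' using fun t : GL (Fin n) F => MLe.exists_bound (D.lamF t)
  have h0 := Finset.sum_nonneg fun t (_ : t ∈ T) => (hf t).le
  refine ⟨∑ t ∈ T, f t + 1, by positivity, fun j hj hC => ?_⟩
  obtain ⟨t, ht, h3⟩ := h2 j ⟨hj, hC⟩
  have h4 := (h1 t ht).1
  obtain ⟨h5, h6⟩ := h _ (D.levi _ (D.J.mul_mem (D.J.inv_mem h4) hj)) h3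
  have h7 : D.lamF j = D.lamF t := by
    rw [D.lamF_of_mem hj, D.lamF_of_mem h4, ← mul_one (D.lam ⟨t, h4⟩), ← h6, ← map_mul]
    exact congrArg _ (Subtype.ext (mul_inv_cancel_left t j).symm)
  rw [h7]
  exact (hf' t).mono ((Finset.single_le_sum (fun t _ => (hf t).le) ht).trans (by linarith))

end TypeData

end Pool.Agent.MP_4d0c14_b
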