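import Pool.Agent.MP_4d0c14_b.E2
import Pool.Agent.MP_4d0c14_b.E3
import Pool.Agent.MP_4d0c14_b.GE4
import Pool.Agent.MP_4d0c14_b.A4

/-! The orbit estimate. -/

namespace Pool.Agent.MP_4d0c14_b

open scoped Matrix

theorem E4_bnd_dg {n : ℕ} {F : Type} [NormedField F] (t : Fin n → Fˣ)
    (ht : ∀ i, ‖(t i : F)‖ = 1) : Bnd 1 (dg t) := by
  intro i j
  rw [← dg_inv, coe_dg, coe_dg]
  by_cases h : i = j
  · subst h
    simp [ht i]
  · simp [Matrix.diagonal_apply_ne _ h]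

theorem E4_stab {G : Type} [Group G] (H : Subgroup G) (x s : G)
    (hs : s ∈ MulAction.stabilizer G (x : G ⧸ H)) : x⁻¹ * s * x ∈ H := by
  rw [MulAction.mem_stabilizer_iff, MulAction.Quotient.smul_coe, smul_eq_mul,
    QuotientGroup.eq] at hs
  have := H.inv_mem hs
  simpa [mul_assoc] using this

theorem E4_conj_sub {n : ℕ} {F : Type} [Field F] (j y : GL (Fin n) F) :
    ((j * y * j⁻¹ : GL (Fin n) F) : Matrix (Fin n) (Fin n) F) - 1 =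
      (j : Matrix (Fin n) (Fin n) F) * ((y : Matrix (Fin n) (Fin n) F) - 1) *
        ((j⁻¹ : GL (Fin n) F) : Matrix (Fin n) (Fin n) F) := by
  rw [Matrix.mul_sub, Matrix.sub_mul, Matrix.mul_one, ← Units.val_mul, ← Units.val_mul,
    ← Units.val_mul, mul_inv_cancel, Units.val_one]

theorem E4_zpow_sum {α : Type} {x : ℝ} (hx : x ≠ 0) (s : Finset α) (f : α → ℤ) :
    x ^ (∑ i ∈ s, f i) = ∏ i ∈ s, x ^ f i := by
  classical
  induction s using Finset.induction_on with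
  | empty => simp
  | insert a s ha ih => rw [Finset.sum_insert ha, Finset.prod_insert ha, zpow_add₀ hx, ih]

namespace TypeData

variable {n k m N : ℕ} {F E ι : Type} [NormedField F] [IsUltrametricDist F] [ProperSpace F]
  [NormedField E] [IsUltrametricDist E] [CharZero E] [Fintype ι]
  (D : TypeData n k m F E) {r : ℝ} (hr : D.Good r) (ϖ : Fˣ) (hϖ : ‖(ϖ : F)‖ < 1)
  (hmax : ∀ x : F, ‖x‖ < 1 → ‖x‖ ≤ ‖(ϖ : F)‖)

omit [ProperSpace F] [IsUltrametricDist E] [CharZero E] in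
include hϖ hmax in
theorem exists_cen_pow : ∃ C : ℝ, 0 < C ∧ ∀ j ∈ D.J, ∃ (v : Fin k → ℤ) (j' : GL (Fin n) F),
    j' ∈ D.J ∧ Bnd C j' ∧ j = D.cen (fun i => ϖ ^ v i) * j' := by
  obtain ⟨C, hC⟩ := D.bdd
  have hC1 : 0 < max C 1 := lt_max_of_lt_right one_pos
  refine ⟨1 * max C 1, by simp, fun j hj => ?_⟩
  obtain ⟨z, hz⟩ := hC j hj
  have h1 : ∀ i, ∃ e : ℤ, ‖(((z i)⁻¹ : Fˣ) : F)‖ = ‖(ϖ : F)‖ ^ e := fun i =>
    exists_norm_eq_zpow ϖ hϖ hmax (Units.ne_zero _)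
  choose v hv using h1
  have hp : (0 : ℝ) < ‖(ϖ : F)‖ := norm_pos_iff.2 ϖ.ne_zero
  let ε : Fin k → Fˣ := fun i => (ϖ ^ v i)⁻¹ * (z i)⁻¹
  have hε : ∀ i, ‖(ε i : F)‖ = 1 := fun i => by
    simp only [ε, Units.val_mul, norm_mul, hv i, Units.val_inv_eq_inv_val (ϖ ^ v i), norm_inv,
      Units.val_zpow_eq_zpow_val, norm_zpow]
    exact inv_mul_cancel₀ (zpow_pos hp _).ne'
  refine ⟨v, D.cen ε * (D.cen z * j),
    D.J.mul_mem (D.cen_mem _) (D.J.mul_mem (D.cen_mem _) hj),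
    Bnd.mul (E4_bnd_dg _ fun a => hε _) (Bnd.mono hz (le_max_left _ _)) zero_le_one hC1.le, ?_⟩
  rw [← mul_assoc, ← mul_assoc, ← D.cen_mul, ← D.cen_mul]
  have : (fun i => ϖ ^ v i) * ε * z = 1 := by
    funext i
    simp [ε]
  rw [this]
  exact (one_mul j).symm.trans (congrArg (· * j) dg_one.symm)

omit [ProperSpace F] [IsUltrametricDist E] [CharZero E] in
theorem E4_entry {C : ℝ} (hC : 0 ≤ C) (v : Fin k → ℤ) {w j' : GL (Fin n) F} (hw : IsUnip D.b w)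
    (hj' : j' ∈ D.J) (hb : Bnd C j')
    (hH : (D.cen (fun i => ϖ ^ v i) * j')⁻¹ * w * (D.cen (fun i => ϖ ^ v i) * j') ∈ D.HH hr)
    {a c : Fin n} (hac : a ≠ c) :
    ‖(w : Matrix (Fin n) (Fin n) F) a c‖ ≤ C * C * ‖(ϖ : F)‖ ^ (v (D.b a) - v (D.b c)) := by
  have hp : (0 : ℝ) < ‖(ϖ : F)‖ := norm_pos_iff.2 ϖ.ne_zero
  set t := D.cen (fun i => ϖ ^ v i) with ht
  have hl : IsLevi D.b (t * j')⁻¹ := (D.levi _ (D.J.mul_mem (D.cen_mem _) hj')).inv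
  have hu : IsUnip D.b ((t * j')⁻¹ * w * (t * j')) := by
    simpa only [inv_inv] using hw.conj hl
  have h1 : MLe 1 ((((t * j')⁻¹ * w * (t * j') : GL (Fin n) F) : Matrix (Fin n) (Fin n) F) - 1) :=
    (Bd.mle D (InH.bd_of_dpart D hH (D.dpart_unip hu))).mono hr.2.1.le
  rw [bnd_iff] at hb
  have h2 := (hb.1.mul h1 hC zero_le_one).mul hb.2 (by simpa using hC) hC
  rw [← E4_conj_sub, mul_one] at h2
  have e : j' * ((t * j')⁻¹ * w * (t * j')) * j'⁻¹ = t⁻¹ * w * t := by group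
  have h3 := h2 a c
  rw [e, Matrix.sub_apply, Matrix.one_apply_ne hac, sub_zero, ht, ← D.cen_inv, Units.val_mul,
    Units.val_mul, cen, cen, coe_dg, coe_dg, Matrix.mul_diagonal, Matrix.diagonal_mul, norm_mul,
    norm_mul] at h3
  simp only [Pi.inv_apply, Units.val_inv_eq_inv_val, norm_inv, Units.val_zpow_eq_zpow_val,
    norm_zpow] at h3
  rw [zpow_sub₀ hp.ne']
  have h4 := zpow_pos hp (v (D.b a))
  have h5 := zpow_pos hp (v (D.b c))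
  calc ‖(w : Matrix (Fin n) (Fin n) F) a c‖
      = ((‖(ϖ : F)‖ ^ v (D.b a))⁻¹ * ‖(w : Matrix (Fin n) (Fin n) F) a c‖ *
          ‖(ϖ : F)‖ ^ v (D.b c)) * (‖(ϖ : F)‖ ^ v (D.b a) / ‖(ϖ : F)‖ ^ v (D.b c)) := by
        field_simp
    _ ≤ _ := mul_le_mul_of_nonneg_right h3 (div_pos h4 h5).le

include hϖ hmax in
theorem norm_relIndex_le (c₀ : ℕ) (h₀ : 0 < ‖(ϖ : F)‖ ^ c₀) (h₁ : ‖(ϖ : F)‖ ^ c₀ ≤ 1) (C : ℝ) :
    ∃ C' : ℝ, 0 < C' ∧ ∀ (v : Fin k → ℤ) (u j' : GL (Fin n) F), IsUnip D.b u → j' ∈ D.J →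
      Bnd C j' →
      ‖(((MulAction.stabilizer (GL (Fin n) F)
          ((u * D.cen (fun i => ϖ ^ v i) * j' : GL (Fin n) F) : GL (Fin n) F ⧸ D.HH hr)).relIndex
          (D.UU ⊓ KK n F (‖(ϖ : F)‖ ^ c₀) h₀ h₁) : ℕ) : E)‖ ≤
        C' * ‖(resCard F : E)‖ ^
          (∑ x ∈ Finset.univ.filter (fun x : Fin n × Fin n => D.b x.1 < D.b x.2),
            (v (D.b x.1) - v (D.b x.2)).toNat) := by
  have hp : (0 : ℝ) < ‖(ϖ : F)‖ := norm_pos_iff.2 ϖ.ne_zero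
  have hC1 : 0 < max C 1 := lt_max_of_lt_right one_pos
  obtain ⟨c₁, hc₁⟩ := exists_pow_lt_of_lt_one (inv_pos.2 (mul_pos hC1 hC1)) hϖ
  have hc₁' : max C 1 * max C 1 * ‖(ϖ : F)‖ ^ c₁ < 1 := by
    rwa [← one_div, lt_div_iff₀ (mul_pos hC1 hC1), mul_comm] at hc₁
  have hq0 : 0 < ‖(resCard F : E)‖ := norm_pos_iff.2 (Nat.cast_ne_zero.2 resCard_ne_zero)
  have hq1 : ‖(resCard F : E)‖ ≤ 1 := IsUltrametricDist.norm_natCast_le_one E _
  refine ⟨(‖(resCard F : E)‖ ^ (n * n * (c₀ + c₁)))⁻¹, inv_pos.2 (pow_pos hq0 _),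
    fun v u j' hu hj' hb => ?_⟩
  let e : Fin n × Fin n → ℕ := fun x => (v (D.b x.1) - v (D.b x.2) - c₀ - c₁).toNat
  have hdvd := D.pow_dvd_relIndex ϖ hϖ hmax c₀ h₀ h₁ (MulAction.stabilizer (GL (Fin n) F)
    ((u * D.cen (fun i => ϖ ^ v i) * j' : GL (Fin n) F) : GL (Fin n) F ⧸ D.HH hr)) e (by
      intro s hs hsu hsn a c hac h0
      have hne : a ≠ c := fun h => hac.ne (congrArg _ h)
      rcases Nat.eq_zero_or_pos (e (a, c)) with he | he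
      · have := hsn a c
        rwa [Matrix.sub_apply, Matrix.one_apply_ne hne, sub_zero, ← add_zero c₀, ← he] at this
      · have h1 := E4_stab _ _ _ hs
        have e1 : (u * D.cen (fun i => ϖ ^ v i) * j')⁻¹ * s * (u * D.cen (fun i => ϖ ^ v i) * j') =
            (D.cen (fun i => ϖ ^ v i) * j')⁻¹ * (u⁻¹ * s * u) *
              (D.cen (fun i => ϖ ^ v i) * j') := by group
        rw [e1] at h1
        have h2 := D.E4_entry hr ϖ hC1.le v ((hu.inv.mul hsu).mul hu) hj'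
          (hb.mono (le_max_left _ _)) h1 hne
        rw [D.conj_entry hsu hu hac h0] at h2
        have e2 : v (D.b a) - v (D.b c) = ((c₁ + (c₀ + e (a, c)) : ℕ) : ℤ) := by
          simp only [e] at he ⊢
          omega
        rw [e2, zpow_natCast, pow_add, ← mul_assoc] at h2
        exact h2.trans_lt (mul_lt_of_lt_one_left (pow_pos hp _) hc₁'))
  obtain ⟨t, ht⟩ := hdvd
  rw [ht, Nat.cast_mul, Nat.cast_pow, norm_mul, norm_pow]
  have hsum : ∑ x ∈ Finset.univ.filter (fun x : Fin n × Fin n => D.b x.1 < D.b x.2),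
      (v (D.b x.1) - v (D.b x.2)).toNat ≤
      n * n * (c₀ + c₁) +
        ∑ x ∈ Finset.univ.filter (fun x : Fin n × Fin n => D.b x.1 < D.b x.2), e x := by
    calc _ ≤ ∑ x ∈ Finset.univ.filter (fun x : Fin n × Fin n => D.b x.1 < D.b x.2),
          ((c₀ + c₁) + e x) := Finset.sum_le_sum fun x _ => by
            simp only [e]
            omega
      _ ≤ _ := by
        rw [Finset.sum_add_distrib, Finset.sum_const, smul_eq_mul]
        refine Nat.add_le_add_right (Nat.mul_le_mul_right _ ?_) _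
        simpa using Finset.card_filter_le (Finset.univ : Finset (Fin n × Fin n))
          (fun x => D.b x.1 < D.b x.2)
  have h3 := pow_le_pow_of_le_one hq0.le hq1 hsum
  rw [pow_add] at h3
  rw [le_inv_mul_iff₀ (pow_pos hq0 _)]
  refine le_trans ?_ h3
  refine mul_le_mul_of_nonneg_left ?_ (pow_pos hq0 _).le
  exact mul_le_of_le_one_right (pow_pos hq0 _).le (IsUltrametricDist.norm_natCast_le_one E _)

include hϖ hmax in
theorem orbit_bound {κ : ι → F →+* E} {a : ι → Fin n → ℤ}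
    {ρ : GL (Fin n) F →* Matrix (Fin N) (Fin N) E} (ok : AlgOK κ a ρ) (hκ : ∀ σ x, ‖κ σ x‖ = ‖x‖)
    (hcent : ‖((D.omega fun _ => ϖ : Eˣ) : E)‖ * ‖(ϖ : F)‖ ^ (∑ σ, ∑ i, a σ i) = 1)
    (hE : ∀ I, Emerton D a ϖ (resCard F) I) :
    ∃ U : Subgroup (GL (Fin n) F), (∀ u ∈ U, u ∈ D.HH hr ∧ u ∈ D.PP ∧ D.lamF u = 1) ∧
      ∃ C : ℝ, ∀ p ∈ D.PP, ∃ i i', ∀ c c',
        ‖(((MulAction.stabilizer (GL (Fin n) F) (p : GL (Fin n) F ⧸ D.HH hr)).relIndex U : ℕ) :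
          E)‖ * ‖D.lamF p c c'‖ ≤ C * ‖ρ p⁻¹ i i'‖ := by
  have hp : (0 : ℝ) < ‖(ϖ : F)‖ := norm_pos_iff.2 ϖ.ne_zero
  obtain ⟨r₁, hr₁, -, hnear⟩ := D.near_mem hr
  obtain ⟨c₀, hc₀⟩ := exists_pow_lt_of_lt_one hr₁ hϖ
  have h₀ : 0 < ‖(ϖ : F)‖ ^ c₀ := pow_pos hp _
  have h₁ : ‖(ϖ : F)‖ ^ c₀ ≤ 1 := pow_le_one₀ hp.le hϖ.le
  obtain ⟨C₀, hC₀, hcen⟩ := D.exists_cen_pow ϖ hϖ hmax
  obtain ⟨C', hC', hidx⟩ := D.norm_relIndex_le hr ϖ hϖ hmax c₀ h₀ h₁ C₀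
  obtain ⟨L, hL, hlam⟩ := D.lam_bdd C₀
  obtain ⟨R, hR, hρ⟩ := ok.bdd hκ C₀
  obtain ⟨Cl, hCl, hlow⟩ := ok.lower hκ
  have := ok.nonempty
  refine ⟨D.UU ⊓ KK n F (‖(ϖ : F)‖ ^ c₀) h₀ h₁, fun u hu => ?_, C' * L * (Cl * R), ?_⟩
  · have h := hnear u (Near.mono hu.2 hc₀.le)
    exact ⟨h.1, ⟨1, D.J.one_mem, u, hu.1, (one_mul u).symm⟩, h.2⟩
  rintro _ ⟨j, hj, u, hu, rfl⟩
  obtain ⟨v, j', hj', hb, hjj⟩ := hcen j hj
  have hu' : IsUnip D.b (j * u * j⁻¹) := hu.conj (D.levi _ hj)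
  have e1 : j * u = j * u * j⁻¹ * D.cen (fun i => ϖ ^ v i) * j' := by
    rw [mul_assoc _ _ j', ← hjj]
    group
  obtain ⟨⟨i, i'⟩, hi⟩ := Finite.exists_max fun x : Fin N × Fin N => ‖ρ (j * u)⁻¹ x.1 x.2‖
  refine ⟨i, i', fun c c' => ?_⟩
  have hM : MLe ‖ρ (j * u)⁻¹ i i'‖ (ρ (j * u)⁻¹) := fun x y => hi (x, y)
  have h1 := hidx v _ j' hu' hj' hb
  rw [← e1] at h1
  have h2 : ‖D.lamF (j * u) c c'‖ ≤ ‖((D.omega fun i => ϖ ^ v i : Eˣ) : E)‖ * L := by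
    have e2 : (⟨j, hj⟩ : D.J) = ⟨_, D.cen_mem fun i => ϖ ^ v i⟩ * ⟨j', hj'⟩ := Subtype.ext hjj
    rw [D.lamF_mul_unip hj hu, e2, map_mul, D.lam_cen, smul_mul_assoc, one_mul,
      ← D.lamF_of_mem hj']
    exact (hlam j' hj' hb).smul _ c c'
  obtain ⟨s, hs⟩ := emerton_all D a ϖ (resCard F) hcent hE v
  have e3 : j' * (j * u)⁻¹ = D.cen (fun i => ϖ ^ v i)⁻¹ * (j * u * j⁻¹)⁻¹ := by
    rw [D.cen_inv]
    conv_lhs => rw [e1]
    group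
  have hup := hu'.inv.isUp1 D.mono
  have h3 : IsUp (j' * (j * u)⁻¹) := by
    intro x y hxy
    rw [e3, Units.val_mul, cen, coe_dg, Matrix.diagonal_mul, hup x y hxy.le,
      Matrix.one_apply_ne hxy.ne', mul_zero]
  have h4 := hlow s _ h3 (R * ‖ρ (j * u)⁻¹ i i'‖) (mul_nonneg hR.le (norm_nonneg _)) (by
    rw [map_mul]
    exact (hρ j' hb).mul hM hR.le (norm_nonneg _))
  have h5 : ∏ σ, ∏ i, ‖((j' * (j * u)⁻¹ : GL (Fin n) F) : Matrix (Fin n) (Fin n) F) (s i) (s i)‖ ^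
      a σ i = (‖(ϖ : F)‖ ^ (∑ σ, ∑ i, a σ i * v (D.b (s i))))⁻¹ := by
    rw [E4_zpow_sum hp.ne', ← Finset.prod_inv_distrib]
    refine Finset.prod_congr rfl fun σ _ => ?_
    rw [E4_zpow_sum hp.ne', ← Finset.prod_inv_distrib]
    refine Finset.prod_congr rfl fun x _ => ?_
    rw [e3, Units.val_mul, cen, coe_dg, Matrix.diagonal_mul, hup _ _ le_rfl, Matrix.one_apply_eq,
      mul_one]
    simp only [Pi.inv_apply, Units.val_inv_eq_inv_val, norm_inv, Units.val_zpow_eq_zpow_val,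
      norm_zpow]
    rw [inv_zpow, ← zpow_mul, mul_comm]
  rw [h5] at h4
  have h6 := (le_mul_inv_iff₀ (zpow_pos hp _)).2 hs
  rw [one_mul] at h6
  have h7 := h6.trans h4
  calc _ ≤ (C' * ‖(resCard F : E)‖ ^
          (∑ x ∈ Finset.univ.filter (fun x : Fin n × Fin n => D.b x.1 < D.b x.2),
            (v (D.b x.1) - v (D.b x.2)).toNat)) *
        (‖((D.omega fun i => ϖ ^ v i : Eˣ) : E)‖ * L) :=
        mul_le_mul h1 h2 (norm_nonneg _) ((norm_nonneg _).trans h1)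
    _ = C' * L * (‖((D.omega fun i => ϖ ^ v i : Eˣ) : E)‖ * ‖(resCard F : E)‖ ^
          (∑ x ∈ Finset.univ.filter (fun x : Fin n × Fin n => D.b x.1 < D.b x.2),
            (v (D.b x.1) - v (D.b x.2)).toNat)) := by ring
    _ ≤ C' * L * (Cl * (R * ‖ρ (j * u)⁻¹ i i'‖)) :=
        mul_le_mul_of_nonneg_left h7 (mul_pos hC' hL).le
    _ = _ := by ring

end TypeData

end Pool.Agent.MP_4d0c14_b
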