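import Pool.Agent.MP_4d0c14_b.I4
import Pool.Agent.MP_4d0c14_nt.SF

/-! Either the quotient seminorm is a norm, or the image of the Hecke operators is dense. -/

namespace Pool.Agent.MP_4d0c14_b

open scoped Matrix Kronecker TensorProduct

/-- `ρ ⊗ π` has an invariant ultrametric norm. -/
def NormOn {G E ι₁ W : Type} [Group G] [NormedField E] [Fintype ι₁] [DecidableEq ι₁]
    [AddCommGroup W] [Module E W] (ρ : G →* Matrix ι₁ ι₁ E) (π : Representation E G W) : Prop :=
  ∃ N : Seminorm E ((ι₁ → E) ⊗[E] W), (∀ x, N x = 0 → x = 0) ∧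
    (∀ x y, N (x + y) ≤ max (N x) (N y)) ∧
    ∀ g x, N (TensorProduct.map (Matrix.toLin' (ρ g)) (π g) x) = N x

theorem I5_quot {G E κ X : Type} [Group G] [NontriviallyNormedField E] [IsUltrametricDist E]
    [Fintype κ] [AddCommGroup X] [Module E X] (p : (G →₀ (κ → E)) →ₗ[E] X)
    (hs : Function.Surjective p) (T : G → X → X)
    (hT : ∀ g z, p (Finsupp.mapDomain (g * ·) z) = T g (p z)) :
    ∃ N : Seminorm E X, (∀ x y, N (x + y) ≤ max (N x) (N y)) ∧ (∀ g x, N (T g x) = N x) ∧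
      ∀ x, N x = 0 → ∀ ε : ℝ, 0 < ε → ∃ z, p z = x ∧ ∀ g, ‖z g‖ ≤ ε := by
  let A : X → Set ℝ := fun x => {r | ∃ z, p z = x ∧ ∀ g, ‖z g‖ ≤ r}
  have hne : ∀ x, (A x).Nonempty := by
    intro x
    obtain ⟨z, rfl⟩ := hs x
    refine ⟨∑ g ∈ z.support, ‖z g‖, z, rfl, fun g => ?_⟩
    by_cases hg : z g = 0
    · rw [hg, norm_zero]
      exact Finset.sum_nonneg fun _ _ => norm_nonneg _
    · exact Finset.single_le_sum (f := fun g => ‖z g‖) (fun _ _ => norm_nonneg _)
        (Finsupp.mem_support_iff.2 hg)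
  have hpos : ∀ x, ∀ r ∈ A x, 0 ≤ r := by
    rintro x r ⟨z, -, hz⟩
    exact (norm_nonneg _).trans (hz 1)
  have hbd : ∀ x, BddBelow (A x) := fun x => ⟨0, hpos x⟩
  have hnn : ∀ x, 0 ≤ sInf (A x) := fun x => le_csInf (hne x) (hpos x)
  have hlt : ∀ x r, sInf (A x) < r → r ∈ A x := by
    intro x r hr
    obtain ⟨s, ⟨z, hz, hz'⟩, hsr⟩ := exists_lt_of_csInf_lt (hne x) hr
    exact ⟨z, hz, fun g => (hz' g).trans hsr.le⟩
  have h0 : sInf (A 0) = 0 :=
    le_antisymm (csInf_le (hbd 0) ⟨0, map_zero _, fun g => by simp⟩) (hnn 0)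
  have hmax : ∀ x y, sInf (A (x + y)) ≤ max (sInf (A x)) (sInf (A y)) := by
    intro x y
    refine le_of_forall_gt_imp_ge_of_dense fun r hr => csInf_le (hbd _) ?_
    obtain ⟨z, hz, hz'⟩ := hlt x r ((le_max_left _ _).trans_lt hr)
    obtain ⟨u, hu, hu'⟩ := hlt y r ((le_max_right _ _).trans_lt hr)
    refine ⟨z + u, by rw [map_add, hz, hu], fun g => ?_⟩
    rw [Finsupp.add_apply]
    exact (IsUltrametricDist.norm_add_le_max _ _).trans (max_le (hz' g) (hu' g))
  have hsm : ∀ (a : E) x, sInf (A (a • x)) ≤ ‖a‖ * sInf (A x) := by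
    intro a x
    by_cases ha : a = 0
    · rw [ha, zero_smul, h0, norm_zero, zero_mul]
    have ha' : 0 < ‖a‖ := norm_pos_iff.2 ha
    rw [← div_le_iff₀' ha']
    refine le_csInf (hne x) ?_
    rintro r ⟨z, hz, hz'⟩
    rw [div_le_iff₀' ha']
    refine csInf_le (hbd _) ⟨a • z, by rw [map_smul, hz], fun g => ?_⟩
    rw [Finsupp.smul_apply, norm_smul]
    exact mul_le_mul_of_nonneg_left (hz' g) ha'.le
  have hact : ∀ g x, A x ⊆ A (T g x) := by
    rintro g x r ⟨z, rfl, hz⟩
    refine ⟨_, hT g z, fun h => ?_⟩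
    have := Finsupp.mapDomain_apply (mul_right_injective g) z (g⁻¹ * h)
    rw [mul_inv_cancel_left] at this
    rw [this]
    exact hz _
  have hinv : ∀ g x, T g⁻¹ (T g x) = x := by
    intro g x
    obtain ⟨z, rfl⟩ := hs x
    rw [← hT, ← hT, ← Finsupp.mapDomain_comp]
    congr 1
    exact (Finsupp.mapDomain_congr fun h _ => by simp).trans Finsupp.mapDomain_id
  refine ⟨Seminorm.ofSMulLE (fun x => sInf (A x)) h0 (fun x y => (hmax x y).trans
    (max_le (le_add_of_nonneg_right (hnn y)) (le_add_of_nonneg_left (hnn x)))) hsm, hmax,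
    fun g x => ?_, fun x hx ε hε => hlt x ε ?_⟩
  · change sInf (A _) = sInf (A x)
    congr 1
    refine subset_antisymm ?_ (hact g x)
    have := hact g⁻¹ (T g x)
    rwa [hinv] at this
  · change sInf (A x) = 0 at hx
    rwa [hx]

section Alg

variable {G E ι ι₁ W : Type} [Group G] [Field E] [Fintype ι] [DecidableEq ι] [Fintype ι₁]
  [DecidableEq ι₁] (ρ : G →* Matrix ι₁ ι₁ E) [AddCommGroup W] [Module E W]

/-- The representation on column vectors. -/
noncomputable def I5_rep : Representation E G (ι₁ → E) :=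
  (Matrix.toLinAlgEquiv' : Matrix ι₁ ι₁ E ≃ₐ[E] _).toMonoidHom.comp ρ

theorem I5_rep_apply (g : G) : I5_rep ρ g = Matrix.toLin' (ρ g) := rfl

/-- The presentation map. -/
noncomputable def I5_pv (π : Representation E G W) (w : ι → W) :
    (G →₀ (ι₁ × ι → E)) →ₗ[E] (ι₁ → E) ⊗[E] W :=
  Finsupp.lsum E fun g => Fintype.linearCombination E fun c : ι₁ × ι =>
    (ρ g *ᵥ Pi.single c.1 1) ⊗ₜ[E] π g (w c.2)

omit [DecidableEq ι] in
theorem I5_pv_single (π : Representation E G W) (w : ι → W) (g : G) (z : ι₁ × ι → E) :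
    I5_pv ρ π w (Finsupp.single g z) =
      ∑ c, z c • (ρ g *ᵥ Pi.single c.1 1) ⊗ₜ[E] π g (w c.2) := by
  rw [I5_pv, Finsupp.lsum_single, Fintype.linearCombination_apply]

omit [DecidableEq ι] in
theorem I5_pv_act (π : Representation E G W) (w : ι → W) (g : G) (z : G →₀ (ι₁ × ι → E)) :
    I5_pv ρ π w (Finsupp.mapDomain (g * ·) z) =
      TensorProduct.map (Matrix.toLin' (ρ g)) (π g) (I5_pv ρ π w z) := by
  induction z using Finsupp.induction_linear with
  | zero => simp only [Finsupp.mapDomain_zero, map_zero]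
  | add a b ha hb => simp only [Finsupp.mapDomain_add, map_add, ha, hb]
  | single h v =>
    rw [Finsupp.mapDomain_single, I5_pv_single, I5_pv_single, map_sum]
    refine Finset.sum_congr rfl fun c _ => ?_
    rw [map_smul, TensorProduct.map_tmul, Matrix.toLin'_apply, Matrix.mulVec_mulVec, map_mul,
      map_mul, Module.End.mul_apply]

theorem I5_pv_surj (π : Representation E G W) (hirr : π.IsIrreducible) (w : ι → W) {a : ι}
    (ha : w a ≠ 0) : Function.Surjective (I5_pv ρ π w) := by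
  have htop : Submodule.span E (Set.range fun g => π g (w a)) = ⊤ := by
    refine MP_4d0c14_nt.SF_irr π hirr _ (fun g u hu => ?_) (Submodule.subset_span ⟨1, by simp⟩) ha
    have : Submodule.span E (Set.range fun g => π g (w a)) ≤
        (Submodule.span E (Set.range fun g => π g (w a))).comap (π g) := by
      rw [Submodule.span_le]
      rintro _ ⟨h, rfl⟩
      exact Submodule.subset_span ⟨g * h, by simp⟩
    exact this hu
  rw [← LinearMap.range_eq_top, eq_top_iff]
  rintro x -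
  induction x using TensorProduct.induction_on with
  | zero => exact zero_mem _
  | add a b ha hb => exact add_mem ha hb
  | tmul v u =>
    have : Submodule.span E (Set.range fun g => π g (w a)) ≤
        (LinearMap.range (I5_pv ρ π w)).comap (TensorProduct.mk E (ι₁ → E) W v) := by
      rw [Submodule.span_le]
      rintro _ ⟨h, rfl⟩
      refine ⟨Finsupp.single h fun c => if c.2 = a then (ρ h⁻¹ *ᵥ v) c.1 else 0, ?_⟩
      have e : v = ∑ i, (ρ h⁻¹ *ᵥ v) i • ρ h *ᵥ Pi.single i 1 := by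
        simp only [← Matrix.mulVec_smul, ← Matrix.mulVec_sum]
        rw [← pi_eq_sum_univ' (ρ h⁻¹ *ᵥ v), Matrix.mulVec_mulVec, ← map_mul, mul_inv_cancel,
          map_one, Matrix.one_mulVec]
      rw [I5_pv_single, Fintype.sum_prod_type, TensorProduct.mk_apply]
      conv_rhs => rw [e, TensorProduct.sum_tmul]
      refine Finset.sum_congr rfl fun i _ => ?_
      rw [Finset.sum_eq_single a (fun b _ hb => by simp [hb]) (by simp), if_pos rfl,
        TensorProduct.smul_tmul']
    exact this (by rw [htop]; trivial)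

/-- Evaluation of tensors as functions on the group. -/
noncomputable def I5_psi (ev : W →ₗ[E] G → ι → E) :
    (ι₁ → E) ⊗[E] W →ₗ[E] G → ι₁ × ι → E :=
  TensorProduct.lift (LinearMap.mk₂ E (fun v f u c => v c.1 * ev f u c.2)
    (fun _ _ _ => by ext; simp [add_mul]) (fun _ _ _ => by ext; simp [mul_assoc])
    (fun _ _ _ => by ext; simp [mul_add]) (fun _ _ _ => by ext; simp [mul_left_comm]))

theorem I5_psi_pv (π : Representation E G W) (w : ι → W) (ev : W →ₗ[E] G → ι → E)
    (hev : ∀ g w u, ev (π g w) u = ev w (u * g)) (φ : G → Matrix ι ι E)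
    (hw : ∀ a u, ev (w a) u = φ u *ᵥ Pi.single a 1) (z : G →₀ (ι₁ × ι → E)) (u : G) :
    I5_psi ev (I5_pv ρ π w z) u = z.sum fun g v => (ρ g ⊗ₖ φ (u * g)) *ᵥ v := by
  induction z using Finsupp.induction_linear with
  | zero => simp
  | add a b ha hb =>
    rw [map_add, map_add, Pi.add_apply, ha, hb, Finsupp.sum_add_index' (by simp)
      (fun _ _ _ => Matrix.mulVec_add _ _ _)]
  | single h v =>
    rw [Finsupp.sum_single_index (by simp), I5_pv_single, map_sum]
    ext c
    simp [I5_psi, hev, hw, Matrix.mulVec, dotProduct, Finset.sum_apply, Pi.single_apply, mul_comm]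

end Alg

namespace Iw

variable {G E ι ι₁ W : Type} [Group G] [NontriviallyNormedField E] [IsUltrametricDist E]
  [Fintype ι] [DecidableEq ι] (D : Iw G E ι) [Fintype ι₁] [DecidableEq ι₁]
  (ρ : G →* Matrix ι₁ ι₁ E) [AddCommGroup W] [Module E W]

theorem norm_or_dense [Nonempty ι] (hB : (D.tfib ρ).Bdd) {d : ℕ} {γ : Fin d → G} (hγ : D.Gen γ)
    (π : Representation E G W) (hirr : π.IsIrreducible) (ev : W →ₗ[E] G → ι → E)
    (hinj : Function.Injective ev) (hev : ∀ g w u, ev (π g w) u = ev w (u * g))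
    (hphi : ∀ v : ι → E, ∃ w, ∀ u, ev w u = D.phi u *ᵥ v)
    (hsm : ∀ T : Finset W,
      Submodule.span E {A | ∃ k, (∀ w ∈ T, π k w = w) ∧ A = ρ k} = ⊤) :
    NormOn ρ π ∨ (D.tfib ρ).Dense fun i => D.tker ρ (γ i) := by
  classical
  choose w hw using fun a : ι => hphi (Pi.single a 1)
  obtain ⟨a⟩ := ‹Nonempty ι›
  have ha : w a ≠ 0 := fun h => by
    have := congrFun (hw a 1) a
    rw [h, D.phi_one] at this
    simp at this
  obtain ⟨N, h1, h2, h3⟩ := I5_quot (I5_pv ρ π w) (I5_pv_surj ρ π hirr w ha) _ (I5_pv_act ρ π w)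
  let K : Submodule E ((ι₁ → E) ⊗[E] W) :=
    { carrier := {x | N x = 0}
      add_mem' := fun {a b} (ha : N a = 0) (hb : N b = 0) =>
        le_antisymm ((h1 a b).trans (by rw [ha, hb, max_self])) (apply_nonneg N _)
      zero_mem' := map_zero N
      smul_mem' := fun c x (hx : N x = 0) => by
        change N (c • x) = 0
        rw [map_smul_eq_mul, hx, mul_zero] }
  have hsm' : ∀ T : Finset W,
      Submodule.span E {A | ∃ k, (∀ w ∈ T, π k w = w) ∧ A = I5_rep ρ k} = ⊤ := by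
    intro T
    have h := congrArg (Submodule.map (Matrix.toLin' (R := E) (m := ι₁) (n := ι₁)).toLinearMap)
      (hsm T)
    rw [Submodule.map_span, Submodule.map_top, LinearEquiv.range] at h
    rw [eq_top_iff, ← h]
    refine Submodule.span_mono ?_
    rintro _ ⟨_, ⟨k, hk, rfl⟩, rfl⟩
    exact ⟨k, hk, rfl⟩
  rcases MP_4d0c14_nt.prasad (I5_rep ρ) π hirr hsm' K
    (fun g x (hx : N x = 0) => (h2 g x).trans hx) with h | h
  · refine Or.inl ⟨N, fun x hx => ?_, h1, h2⟩
    have : x ∈ K := hx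
    rwa [h] at this
  refine Or.inr fun ε hε => ?_
  obtain ⟨C, hC, hμ⟩ := hB
  have hx : ∀ c : ι₁ × ι, N (I5_pv ρ π w (Finsupp.single 1 (Pi.single c 1))) = 0 := fun c =>
    show _ ∈ K by rw [h]; trivial
  choose z hz hz' using fun c => h3 _ (hx c) (ε / C) (div_pos hε hC)
  obtain ⟨de, -, df⟩ := Fib.del_ker (D := D.tfib ρ)
  let Y : ι₁ × ι → G → G → Matrix (ι₁ × ι) (ι₁ × ι) E := fun c g x =>
    (D.tfib ρ).del (g⁻¹ * x) * Matrix.vecMulVec (z c g) (Pi.single c 1)
  have Yf : ∀ c, (D.tfib ρ).Fin0 (∑ g ∈ (z c).support, Y c g) := fun c =>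
    Fib.Fin0.sum fun g _ => df.translate _ _
  have Sf : (D.tfib ρ).Fin0 (∑ c, ∑ g ∈ (z c).support, Y c g) := Fib.Fin0.sum fun c _ => Yf c
  have Se : (D.tfib ρ).Eqv (∑ c, ∑ g ∈ (z c).support, Y c g) :=
    Fib.Eqv.sum fun c _ => Fib.Eqv.sum fun g _ => de.translate _ _
  have hc : ∀ c u, D.tpmap ρ (∑ g ∈ (z c).support, Y c g) u =
      Matrix.vecMulVec (((1 : Matrix ι₁ ι₁ E) ⊗ₖ D.phi u) *ᵥ Pi.single c 1) (Pi.single c 1) := by
    intro c u
    have e := I5_psi_pv ρ π w ev hev D.phi hw (z c) u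
    rw [hz, I5_psi_pv ρ π w ev hev D.phi hw, Finsupp.sum_single_index (by simp), map_one,
      mul_one] at e
    have e' : ∀ (T : Finset G) (v : G → ι₁ × ι → E) (y : ι₁ × ι → E),
        Matrix.vecMulVec (∑ g ∈ T, v g) y = ∑ g ∈ T, Matrix.vecMulVec (v g) y := by
      intro T v y
      ext i j
      simp [Matrix.sum_apply, Matrix.vecMulVec_apply, Finset.sum_mul]
    rw [D.tpmap_sum ρ fun g _ => df.translate _ _, e, Finsupp.sum, e']
    refine Finset.sum_congr rfl fun g _ => ?_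
    rw [D.tpmap_translate ρ de df, D.tpmap_del, ← Matrix.mul_kronecker_mul, mul_one, one_mul,
      Matrix.mul_vecMulVec]
  obtain ⟨A, hA, hA'⟩ := D.tpresentation ρ hγ (de.sub Se) (df.sub Sf) fun u => by
    rw [D.tpmap_sub ρ df Sf, D.tpmap_sum ρ fun c _ => Yf c, D.tpmap_del, sub_eq_zero]
    ext i j
    simp [hc, Matrix.sum_apply, Matrix.vecMulVec_apply, Pi.single_apply]
  refine ⟨A, hA, fun x => ?_⟩
  have e := congrFun hA' x
  rw [Pi.sub_apply, Finset.sum_apply, Finset.sum_apply] at e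
  rw [← e, sub_sub_cancel]
  refine MLe.sum hε.le fun c _ => ?_
  rw [Finset.sum_apply]
  refine MLe.sum hε.le fun g _ => ?_
  have b1 : MLe C ((D.tfib ρ).del (g⁻¹ * x)) := by
    unfold Fib.del
    split_ifs with hm
    · exact hμ _ ((D.tfib ρ).H.inv_mem hm)
    · exact MLe.zero hC.le
  have b2 : MLe (ε / C) (Matrix.vecMulVec (z c g) (Pi.single c (1 : E))) := fun i j => by
    rw [Matrix.vecMulVec_apply, Pi.single_apply]
    split_ifs
    · rw [mul_one]
      exact (norm_le_pi_norm _ i).trans (hz' c g)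
    · rw [mul_zero, norm_zero]
      exact (div_pos hε hC).le
  have b3 := b1.mul b2 hC.le (div_pos hε hC).le
  rwa [mul_div_cancel₀ _ hC.ne'] at b3

end Iw

end Pool.Agent.MP_4d0c14_b
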