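import Pool.Agent.MP_4d0c14_b.GIw
import Pool.Agent.MP_4d0c14_b.A4
import Pool.Agent.MP_4d0c14_b.I5

/-! Boundedness, Burnside hypotheses and transport of invariant norms. -/

namespace Pool.Agent.MP_4d0c14_b

open scoped Matrix Kronecker TensorProduct

theorem NormOn.of_equiv {G E ι₁ W W' : Type} [Group G] [NormedField E] [Fintype ι₁]
    [DecidableEq ι₁] [AddCommGroup W] [Module E W] [AddCommGroup W'] [Module E W']
    {ρ : G →* Matrix ι₁ ι₁ E} {π : Representation E G W} {π' : Representation E G W'}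
    (e : W ≃ₗ[E] W') (he : ∀ g w, e (π g w) = π' g (e w)) (h : NormOn ρ π') : NormOn ρ π := by
  obtain ⟨N, h0, h1, h2⟩ := h
  refine ⟨N.comp (e.lTensor (ι₁ → E)).toLinearMap, fun x hx => ?_, fun x y => ?_, fun g x => ?_⟩
  · exact (e.lTensor (ι₁ → E)).map_eq_zero_iff.1 (h0 _ hx)
  · simp only [Seminorm.comp_apply, map_add]
    exact h1 _ _
  · simp only [Seminorm.comp_apply]
    rw [← h2 g ((e.lTensor (ι₁ → E)).toLinearMap x)]
    congr 1
    induction x using TensorProduct.induction_on with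
    | zero => simp
    | tmul a b => simp [he]
    | add a b ha hb => simp only [map_add, ha, hb]

theorem isIrreducible_of_equiv {G E W W' : Type} [Group G] [Field E] [AddCommGroup W]
    [Module E W] [AddCommGroup W'] [Module E W'] {π : Representation E G W}
    {π' : Representation E G W'} (e : W ≃ₗ[E] W') (he : ∀ g w, e (π g w) = π' g (e w))
    (h : π.IsIrreducible) : π'.IsIrreducible := by
  have he' : ∀ g w, e.symm (π' g w) = π g (e.symm w) := fun g w => by
    rw [e.symm_apply_eq, he, e.apply_symm_apply]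
  let f : Subrepresentation π' ≃o Subrepresentation π :=
    { toFun := fun U => ⟨U.toSubmodule.comap e.toLinearMap, fun g v hv => by
        change e (π g v) ∈ U.toSubmodule
        rw [he]
        exact U.apply_mem_toSubmodule g hv⟩
      invFun := fun U => ⟨U.toSubmodule.comap e.symm.toLinearMap, fun g v hv => by
        change e.symm (π' g v) ∈ U.toSubmodule
        rw [he']
        exact U.apply_mem_toSubmodule g hv⟩
      left_inv := fun U => Subrepresentation.toSubmodule_injective (by ext v; simp)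
      right_inv := fun U => Subrepresentation.toSubmodule_injective (by ext v; simp)
      map_rel_iff' := fun {U V} =>
        Submodule.comap_le_comap_iff_of_surjective (f := e.toLinearMap) e.surjective }
  exact f.isSimpleOrder_iff.2 h

theorem NormOn.hasInvariantNorm {n N : ℕ} {F E ι : Type} [Field F] [NormedField E] [Fintype ι]
    {κ : ι → F →+* E} {a : ι → Fin n → ℤ} {e : algSpace κ a ≃ₗ[E] (Fin N → E)}
    {ρ : GL (Fin n) F →* Matrix (Fin N) (Fin N) E} (he : IsModel κ a e ρ)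
    (B : Rep E (GL (Fin n) F)) (h : NormOn ρ B.ρ) : HasInvariantNorm (algRep κ a) B := by
  obtain ⟨M, h0, h1, h2⟩ := h
  have key : ∀ g (x : algSpace κ a ⊗[E] B.V), e.rTensor B.V ((algR κ a).tprod B.ρ g x) =
      TensorProduct.map (Matrix.toLin' (ρ g)) (B.ρ g) (e.rTensor B.V x) := fun g x => by
    induction x using TensorProduct.induction_on with
    | zero => simp
    | tmul a b => simp [he g]
    | add a b ha hb => simp only [map_add, ha, hb]
  refine ⟨fun x => M (e.rTensor B.V x), fun x => apply_nonneg M _,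
    fun x hx => (e.rTensor B.V).map_eq_zero_iff.1 (h0 _ hx), fun c x => ?_, fun x y => ?_,
    fun g x => (congrArg M (key g x)).trans (h2 g _)⟩
  · exact (congrArg M (map_smul (e.rTensor B.V) c x)).trans (map_smul_eq_mul M c _)
  · exact (congrArg M (map_add (e.rTensor B.V) x y)).le.trans (h1 _ _)

namespace TypeData

variable {n k m N : ℕ} {F E ι : Type} [NormedField F] [IsUltrametricDist F] [ProperSpace F]
  [NormedField E] [Fintype ι] (D : TypeData n k m F E) {r : ℝ} (hr : D.Good r) (ϖ : Fˣ)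
  (hϖ : ‖(ϖ : F)‖ < 1) {κ : ι → F →+* E} {a : ι → Fin n → ℤ}
  {ρ : GL (Fin n) F →* Matrix (Fin N) (Fin N) E}

omit [IsUltrametricDist F] [ProperSpace F] in
theorem nonempty_of_irr (h : (indRep D).ρ.IsIrreducible) : Nonempty (Fin m) := by
  by_contra h0
  have := not_nonempty_iff.1 h0
  have : Subsingleton (indRep D).V := inferInstanceAs (Subsingleton (indSpace D))
  exact bot_ne_top (α := Subrepresentation (indRep D).ρ)
    (Subrepresentation.toSubmodule_injective (Subsingleton.elim _ _))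

theorem tfib_bdd [IsUltrametricDist E] (ok : AlgOK κ a ρ) (hκ : ∀ σ x, ‖κ σ x‖ = ‖x‖)
    (hcent : ‖((D.omega fun _ => ϖ : Eˣ) : E)‖ * ‖(ϖ : F)‖ ^ (∑ σ, ∑ i, a σ i) = 1) :
    ((D.iw hr ϖ hϖ).tfib ρ).Bdd := by
  obtain ⟨C, hC, h1⟩ := D.hh_bnd hr ϖ hϖ
  obtain ⟨C₁, hC₁, h2⟩ := ok.bdd hκ C
  obtain ⟨C₂, hC₂, h3⟩ := D.lam_bdd C
  refine ⟨C₁ * C₂, mul_pos hC₁ hC₂, fun h hh => ?_⟩
  obtain ⟨e, he⟩ := h1 h hh
  obtain ⟨g, hg, hb, rfl⟩ : ∃ g ∈ D.HH hr, Bnd C g ∧ h = dg (fun _ => ϖ ^ (-e)) * g := by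
    refine ⟨_, (D.HH hr).mul_mem (D.scalar_mem hr _).1 hh, he, ?_⟩
    rw [← mul_assoc, ← dg_mul, zpow_neg]
    exact (one_mul h).symm.trans (congrArg (· * h)
      (dg_one.symm.trans (congrArg dg (funext fun _ => (inv_mul_cancel _).symm))))
  have h4 : MLe C₂ (D.lamF g) := by
    obtain ⟨j, hj, _, X, h5, h6, h7⟩ := hg
    have h8 : (j : Matrix (Fin n) (Fin n) F) = D.dpart g := by
      rw [h7, D.dpart_levi_mul (D.levi _ hj), D.dpart_add, h5, add_zero, ← Units.val_one,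
        D.dpart_unip isUnip_one, mul_one]
    have h9 : ((j⁻¹ : GL (Fin n) F) : Matrix (Fin n) (Fin n) F) =
        (1 + X) * ((g⁻¹ : GL (Fin n) F) : Matrix (Fin n) (Fin n) F) := by
      rw [Units.eq_mul_inv_iff_mul_eq, h7, Units.inv_mul_cancel_left]
    rw [D.lamF_eq hj h8, ← D.lamF_of_mem hj]
    refine h3 j hj (bnd_iff.2 ⟨fun a c => ?_, ?_⟩)
    · rw [h8, dpart, Matrix.of_apply]
      split_ifs
      · exact (hb a c).1
      · exact norm_zero.le.trans hC.le
    · rw [h9, ← one_mul C]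
      exact (MLe.one.add ((Bd.mle D h6).mono hr.2.1.le)).mul (bnd_iff.1 hb).2 zero_le_one hC.le
  have h5 : ‖chi κ a (fun _ => ϖ ^ (-e))‖ * ‖(D.omega fun _ => ϖ ^ (-e) : E)‖ = 1 := by
    have h6 : (D.omega fun _ => ϖ ^ (-e)) = D.omega (fun _ => ϖ) ^ (-e) := map_zpow D.omega _ _
    have h7 : (‖(ϖ : F)‖) ≠ 0 := norm_ne_zero_iff.2 ϖ.ne_zero
    have h8 : ‖chi κ a (fun _ => ϖ ^ (-e))‖ = (‖(ϖ : F)‖ ^ ∑ σ, ∑ i, a σ i) ^ (-e) := by
      have h9 : ∀ {β : Type} (s : Finset β) (f : β → ℤ),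
          ‖(ϖ : F)‖ ^ ∑ i ∈ s, f i = ∏ i ∈ s, ‖(ϖ : F)‖ ^ f i := fun s f => by
        classical
        induction s using Finset.induction_on with
        | empty => simp
        | insert x s hx ih => rw [Finset.sum_insert hx, Finset.prod_insert hx, zpow_add₀ h7, ih]
      simp only [chi, norm_prod, norm_zpow, hκ, Units.val_zpow_eq_zpow_val, h9,
        Finset.prod_zpow, zpow_comm _ (-e)]
    rw [h6, h8, Units.val_zpow_eq_zpow_val, norm_zpow, ← mul_zpow, mul_comm, hcent, one_zpow]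
  change MLe _ (ρ _ ⊗ₖ D.lamF _)
  rw [map_mul, (InH.mul D hr (D.scalar_mem hr _).1 hg).2, ok.cen, (D.scalar_mem hr _).2,
    smul_one_mul, smul_one_mul, Matrix.smul_kronecker, Matrix.kronecker_smul, smul_smul]
  have h6 := ((h2 g hb).kron h4).smul (chi κ a (fun _ => ϖ ^ (-e)) * D.omega fun _ => ϖ ^ (-e))
  rwa [norm_mul, h5, one_mul] at h6

theorem burn_conj [CharZero F] [CharZero E] (ok : AlgOK κ a ρ) (p : ℕ) (hp0 : p ≠ 0)
    (hp : ‖(p : F)‖ < 1) (x : GL (Fin n) F) :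
    Submodule.span E {A | ∃ g ∈ (D.iw hr ϖ hϖ).H, x⁻¹ * g * x ∈ (D.iw hr ϖ hϖ).H ∧
      (D.iw hr ϖ hϖ).lam g = 1 ∧ (D.iw hr ϖ hϖ).lam (x⁻¹ * g * x) = 1 ∧ A = ρ g} = ⊤ := by
  obtain ⟨r₁, h1, _, h2⟩ := D.near_mem hr
  obtain ⟨s, h3, h4⟩ := exists_near_conj x h1
  refine top_unique ((ok.burn_near p hp0 hp (lt_min h1 h3)).ge.trans (Submodule.span_mono ?_))
  rintro _ ⟨g, hg, rfl⟩
  have h5 := h2 g (hg.mono (min_le_left _ _))
  have h6 := h2 _ (h4 g (hg.mono (min_le_right _ _)))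
  exact ⟨g, h5.1, h6.1, h5.2, h6.2, rfl⟩

omit [ProperSpace F] in
theorem burn_fix [CharZero F] [CharZero E] (ok : AlgOK κ a ρ) (p : ℕ) (hp0 : p ≠ 0)
    (hp : ‖(p : F)‖ < 1) (T : Finset (indRep D).V) :
    Submodule.span E {A | ∃ g, (∀ w ∈ T, (indRep D).ρ g w = w) ∧ A = ρ g} = ⊤ := by
  classical
  obtain ⟨s, h1, h2⟩ : ∃ s : ℝ, 0 < s ∧ ∀ g, Near s g → ∀ w ∈ T, (indRep D).ρ g w = w := by
    induction T using Finset.induction_on with
    | empty => exact ⟨1, one_pos, by simp⟩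
    | insert w T _ ih =>
      obtain ⟨s, h1, h2⟩ := ih
      obtain ⟨_, ⟨t, h3, h4⟩, _⟩ := (show indSpace D from w).2
      refine ⟨min s t, lt_min h1 h3, fun g hg => Finset.forall_mem_insert _ _ _ |>.2
        ⟨Subtype.ext (funext fun x => h4 g x (hg.mono (min_le_right _ _))),
          h2 g (hg.mono (min_le_left _ _))⟩⟩
  refine top_unique ((ok.burn_near p hp0 hp h1).ge.trans (Submodule.span_mono ?_))
  rintro _ ⟨g, hg, rfl⟩
  exact ⟨g, h2 g hg, rfl⟩

end TypeData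

end Pool.Agent.MP_4d0c14_b
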