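import Pool.Agent.MP_4d0c14_b.Mat

/-! The Cartan decomposition. -/

namespace Pool.Agent.MP_4d0c14_b

open scoped Matrix

section aux

variable {n : ℕ} {F : Type} [NormedField F]

/-- Equivalence under the maximal bounded subgroup. -/
def M2_E (X Y : Matrix (Fin n) (Fin n) F) : Prop :=
  ∃ k₁ k₂ : GL (Fin n) F, Bnd 1 k₁ ∧ Bnd 1 k₂ ∧
    X = (k₁ : Matrix (Fin n) (Fin n) F) * Y * (k₂ : Matrix (Fin n) (Fin n) F)

theorem M2_one : Bnd 1 (1 : GL (Fin n) F) := bnd_iff.2 ⟨MLe.one, by rw [inv_one]; exact MLe.one⟩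

theorem M2_tr {X Y : Matrix (Fin n) (Fin n) F} (h : M2_E Xᵀ Y) : M2_E X Yᵀ := by
  obtain ⟨k₁, k₂, h1, h2, h⟩ := h
  refine ⟨tr k₂, tr k₁, h2.tr, h1.tr, ?_⟩
  rw [coe_tr, coe_tr, ← Matrix.transpose_mul, ← Matrix.transpose_mul, ← Matrix.mul_assoc, ← h,
    Matrix.transpose_transpose]

/-- Permutation matrices. -/
def M2_pm (σ : Equiv.Perm (Fin n)) : GL (Fin n) F where
  val := σ.permMatrix F
  inv := σ⁻¹.permMatrix F
  val_inv := by rw [← Matrix.permMatrix_mul]; simp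
  inv_val := by rw [← Matrix.permMatrix_mul]; simp

theorem M2_pm_le (σ : Equiv.Perm (Fin n)) : MLe 1 (σ.permMatrix F) := fun i j => by
  rw [Equiv.Perm.permMatrix, PEquiv.toMatrix_apply]
  split_ifs <;> simp

theorem M2_perm (X : Matrix (Fin n) (Fin n) F) (σ τ : Equiv.Perm (Fin n)) :
    M2_E X (X.submatrix σ τ) := by
  refine ⟨M2_pm σ.symm, M2_pm τ, bnd_iff.2 ⟨M2_pm_le _, M2_pm_le _⟩,
    bnd_iff.2 ⟨M2_pm_le _, M2_pm_le _⟩, ?_⟩
  change X = (σ.symm.toPEquiv.toMatrix : Matrix _ _ F) * _ * (τ.toPEquiv.toMatrix : Matrix _ _ F)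
  rw [PEquiv.toMatrix_toPEquiv_mul, PEquiv.mul_toMatrix_toPEquiv]
  ext a c
  simp

theorem M2_div {x y : F} (h : ‖y‖ ≤ ‖x‖) : y / x * x = y ∧ ‖y / x‖ ≤ 1 := by
  refine ⟨?_, by rw [norm_div]; exact div_le_one_of_le₀ h (norm_nonneg _)⟩
  by_cases hx : x = 0
  · rw [hx, norm_zero, norm_le_zero_iff] at h
    rw [h, hx, mul_zero]
  · exact div_mul_cancel₀ _ hx

variable [IsUltrametricDist F]

theorem M2_trans {X Y Z : Matrix (Fin n) (Fin n) F} (h : M2_E X Y) (h' : M2_E Y Z) :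
    M2_E X Z := by
  obtain ⟨k₁, k₂, h1, h2, rfl⟩ := h
  obtain ⟨l₁, l₂, h3, h4, rfl⟩ := h'
  refine ⟨k₁ * l₁, l₂ * k₂, by simpa using h1.mul h3 zero_le_one zero_le_one,
    by simpa using h4.mul h2 zero_le_one zero_le_one, ?_⟩
  simp only [Units.val_mul, Matrix.mul_assoc]

theorem M2_row (X : Matrix (Fin n) (Fin n) F) (i : Fin n) (u : Fin n → F) (hu : u i = 0)
    (h1 : ∀ a, ‖u a‖ ≤ 1) : M2_E X (Matrix.of fun a c => X a c - u a * X i c) := by
  set N : Matrix (Fin n) (Fin n) F := Matrix.of fun a b => if b = i then u a else 0 with hN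
  have hm : ∀ (Y : Matrix (Fin n) (Fin n) F) a c, (N * Y) a c = u a * Y i c := fun Y a c => by
    simp [hN, Matrix.mul_apply]
  have h0 : N * N = 0 := by
    ext a c
    rw [hm]
    simp [hN, hu]
  have hl : MLe 1 N := fun a b => by
    simp only [hN, Matrix.of_apply]
    split_ifs
    · exact h1 a
    · simp
  refine ⟨⟨1 + N, 1 - N, ?_, ?_⟩, 1, bnd_iff.2 ⟨MLe.one.add hl, MLe.one.sub hl⟩, M2_one, ?_⟩
  · rw [Matrix.add_mul, Matrix.one_mul, Matrix.mul_sub, h0, Matrix.mul_one]; abel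
  · rw [Matrix.sub_mul, Matrix.one_mul, Matrix.mul_add, h0, Matrix.mul_one]; abel
  · rw [Units.val_one, Matrix.mul_one]
    change X = (1 + N) * _
    ext a c
    rw [Matrix.add_mul, Matrix.one_mul, Matrix.add_apply, hm]
    simp [hu]

theorem M2_step (X : Matrix (Fin n) (Fin n) F) (i : Fin n) (h1 : ∀ a, ‖X a i‖ ≤ ‖X i i‖)
    (h2 : ∀ c, ‖X i c‖ ≤ ‖X i i‖) : ∃ Y, M2_E X Y ∧ (∀ a, a ≠ i → Y a i = 0 ∧ Y i a = 0) ∧
      ∀ a c, a ≠ i → c ≠ i → Y a c = X a c - X a i / X i i * X i c := by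
  have e1 := M2_row X i (fun a => if a = i then 0 else X a i / X i i) (if_pos rfl) fun a => by
    split_ifs
    · simp
    · exact (M2_div (h1 a)).2
  have e2 := fun Y : Matrix (Fin n) (Fin n) F => M2_tr (M2_row Yᵀ i
    (fun a => if a = i then 0 else X i a / X i i) (if_pos rfl) fun a => by
      split_ifs
      · simp
      · exact (M2_div (h2 a)).2)
  refine ⟨_, M2_trans e1 (e2 _), fun a ha => ⟨?_, ?_⟩, fun a c ha hc => ?_⟩
  · simp [ha, (M2_div (h1 a)).1]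
  · simp [ha, (M2_div (h2 a)).1]
  · simp [ha, hc, (M2_div (h1 a)).1]

theorem M2_diag (S : Finset (Fin n)) : ∀ X : Matrix (Fin n) (Fin n) F,
    (∀ a c, a ≠ c → a ∉ S ∨ c ∉ S → X a c = 0) → ∃ d, M2_E X (Matrix.diagonal d) := by
  induction S using Finset.strongInduction with
  | H S ih =>
  intro X hX
  rcases S.eq_empty_or_nonempty with rfl | hS
  · refine ⟨fun a => X a a, 1, 1, M2_one, M2_one, ?_⟩
    ext a c
    by_cases h : a = c
    · simp [h]
    · simp [h, hX a c h (by simp)]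
  obtain ⟨⟨i, j⟩, hij, hmax⟩ := Finset.exists_max_image (S ×ˢ S) (fun p => ‖X p.1 p.2‖)
    (hS.product hS)
  obtain ⟨hi, hj⟩ := Finset.mem_product.1 hij
  have hs : ∀ c, Equiv.swap i j c ∈ S ↔ c ∈ S := fun c => by
    rw [Equiv.swap_apply_def]
    split_ifs with h1 h2
    · simp [h1, hi, hj]
    · simp [h2, hi, hj]
    · rfl
  set X₁ := X.submatrix (Equiv.refl _) (Equiv.swap i j) with hX₁
  have e1 : M2_E X X₁ := M2_perm X _ _
  have h0 : ∀ a c, a ≠ c → a ∉ S ∨ c ∉ S → X₁ a c = 0 := fun a c hac h => by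
    refine hX a (Equiv.swap i j c) ?_ (by rwa [hs])
    by_cases hc : c ∈ S
    · rintro rfl
      exact h.elim (fun h => h ((hs c).2 hc)) fun h => h hc
    · rwa [Equiv.swap_apply_of_ne_of_ne (ne_of_mem_of_not_mem hi hc).symm
        (ne_of_mem_of_not_mem hj hc).symm]
  have hm : ∀ a c, a = i ∨ c = i → ‖X₁ a c‖ ≤ ‖X₁ i i‖ := fun a c hac => by
    by_cases h : a ∈ S ∧ c ∈ S
    · simpa [hX₁] using hmax (a, Equiv.swap i j c) (Finset.mem_product.2 ⟨h.1, (hs c).2 h.2⟩)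
    · rw [h0 a c ?_ (not_and_or.1 h), norm_zero]
      · exact norm_nonneg _
      · rintro rfl
        exact h (by rcases hac with rfl | rfl <;> exact ⟨hi, hi⟩)
  obtain ⟨Y, e2, h1, h2⟩ := M2_step X₁ i (fun a => hm a i (Or.inr rfl)) fun c => hm i c (Or.inl rfl)
  obtain ⟨d, e3⟩ := ih (S.erase i) (Finset.erase_ssubset hi) Y fun a c hac h => by
    by_cases ha : a = i
    · subst ha
      exact (h1 c hac.symm).2
    by_cases hc : c = i
    · subst hc
      exact (h1 a ha).1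
    simp only [Finset.mem_erase, ne_eq, ha, hc, not_false_eq_true, true_and] at h
    rw [h2 a c ha hc, h0 a c hac h]
    rcases h with h | h
    · simp [h0 a i ha (Or.inl h)]
    · simp [h0 i c (Ne.symm hc) (Or.inr h)]
  exact ⟨d, M2_trans e1 (M2_trans e2 e3)⟩

end aux

theorem exists_cartan {n : ℕ} {F : Type} [NormedField F] [IsUltrametricDist F]
    (g : GL (Fin n) F) : ∃ (k₁ k₂ : GL (Fin n) F) (t : Fin n → Fˣ), Bnd 1 k₁ ∧ Bnd 1 k₂ ∧
      (Monotone fun i => ‖(t i : F)‖) ∧ g = k₁ * dg t * k₂ := by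
  obtain ⟨d, hd⟩ := M2_diag Finset.univ (g : Matrix (Fin n) (Fin n) F) fun a c _ h => by simp at h
  have e := M2_trans hd (M2_perm _ (Tuple.sort fun i => ‖d i‖) (Tuple.sort fun i => ‖d i‖))
  rw [Matrix.submatrix_diagonal_equiv] at e
  obtain ⟨k₁, k₂, h1, h2, h⟩ := e
  have h0 : ∀ i, (d ∘ Tuple.sort fun i => ‖d i‖) i ≠ 0 := fun i => by
    have := g.det_ne_zero
    rw [h, Matrix.det_mul, Matrix.det_mul, Matrix.det_diagonal] at this
    exact Finset.prod_ne_zero_iff.1 (right_ne_zero_of_mul (left_ne_zero_of_mul this)) i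
      (Finset.mem_univ i)
  exact ⟨k₁, k₂, fun i => Units.mk0 _ (h0 i), h1, h2, Tuple.monotone_sort fun i => ‖d i‖,
    Units.ext h⟩

end Pool.Agent.MP_4d0c14_b
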