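import Pool.Agent.MP_4d0c14_b.H1
import Pool.Agent.MP_4d0c14_b.M2

/-! The uniform bound for the coboundary. -/

namespace Pool.Agent.MP_4d0c14_b

open scoped Matrix

theorem H5_pow {F : Type} [NormedField F] [IsUltrametricDist F] {z : F} {r : ℝ} (hr : r ≤ 1)
    (h : ‖z - 1‖ < r) (i : ℕ) : ‖z ^ i - 1‖ < r := by
  induction i with
  | zero => simpa using (norm_nonneg _).trans_lt h
  | succ i ih =>
    have e : z ^ (i + 1) - 1 = (z ^ i - 1) * (z - 1) + ((z ^ i - 1) + (z - 1)) := by ring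
    rw [e]
    refine (IsUltrametricDist.norm_add_le_max _ _).trans_lt (max_lt ?_
      ((IsUltrametricDist.norm_add_le_max _ _).trans_lt (max_lt ih h)))
    rw [norm_mul]
    exact (mul_le_of_le_one_left (norm_nonneg _) (ih.le.trans hr)).trans_lt h

theorem H5_span {E : Type} [NormedField E] {N : ℕ} {S : Set (Fin N → E)}
    (hS : Submodule.span E S = ⊤) : ∃ C : ℝ, 0 < C ∧ ∀ (X : Matrix (Fin N) (Fin N) E) (B : ℝ),
      0 ≤ B → (∀ v ∈ S, ‖X *ᵥ v‖ ≤ B) → MLe (C * B) X := by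
  have h : ∀ v ∈ Submodule.span E S, ∃ C : ℝ, 0 ≤ C ∧ ∀ (X : Matrix (Fin N) (Fin N) E) (B : ℝ),
      (∀ v ∈ S, ‖X *ᵥ v‖ ≤ B) → ‖X *ᵥ v‖ ≤ C * B := fun v hv => by
    induction hv using Submodule.span_induction with
    | mem v hv => exact ⟨1, zero_le_one, fun X B h => (h v hv).trans_eq (one_mul B).symm⟩
    | zero => exact ⟨0, le_rfl, fun X B _ => by simp⟩
    | add v v' _ _ h h' =>
      obtain ⟨C, hC, h⟩ := h
      obtain ⟨C', hC', h'⟩ := h'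
      refine ⟨C + C', add_nonneg hC hC', fun X B hB => ?_⟩
      rw [Matrix.mulVec_add, add_mul]
      exact (norm_add_le _ _).trans (add_le_add (h X B hB) (h' X B hB))
    | smul c v _ h =>
      obtain ⟨C, hC, h⟩ := h
      refine ⟨‖c‖ * C, mul_nonneg (norm_nonneg c) hC, fun X B hB => ?_⟩
      rw [Matrix.mulVec_smul, norm_smul, mul_assoc]
      exact mul_le_mul_of_nonneg_left (h X B hB) (norm_nonneg c)
  choose C hC hC' using fun j : Fin N => h (Pi.single j 1) (hS ▸ Submodule.mem_top)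
  refine ⟨1 + ∑ j, C j, add_pos_of_pos_of_nonneg one_pos (Finset.sum_nonneg fun j _ => hC j),
    fun X B hB hX i j => ?_⟩
  have h1 := (norm_le_pi_norm _ i).trans (hC' j X B hX)
  rw [Matrix.mulVec_single_one, Matrix.col_apply] at h1
  refine h1.trans (mul_le_mul_of_nonneg_right ?_ hB)
  linarith [Finset.single_le_sum (fun j _ => hC j) (Finset.mem_univ j)]

theorem H5_conj {n : ℕ} {F : Type} [NormedField F] {r : ℝ} {t : Fin n → Fˣ}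
    (ht : Monotone fun i => ‖(t i : F)‖) {k : GL (Fin n) F} (hk : Near r k) (hl : IsLow1 k) :
    Near r ((dg t)⁻¹ * k * dg t) := fun i j => by
  have e : ((((dg t)⁻¹ * k * dg t : GL (Fin n) F) : Matrix (Fin n) (Fin n) F) - 1) i j =
      ((k : Matrix (Fin n) (Fin n) F) - 1) i j * (t j / t i) := by
    rw [← dg_inv]
    by_cases h : i = j
    · subst h
      simp [mul_comm]
    · simp [h, div_eq_mul_inv]
      ring
  rw [e, norm_mul]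
  rcases le_total i j with h | h
  · have h1 := hk i j
    rw [Matrix.sub_apply, hl i j h, sub_self, norm_zero] at h1 ⊢
    rwa [zero_mul]
  · refine (mul_le_of_le_one_right (norm_nonneg _) ?_).trans_lt (hk i j)
    rw [norm_div]
    exact div_le_one_of_le₀ (ht h) (norm_nonneg _)

variable {n N : ℕ} {F E ι : Type} [NormedField F] [IsUltrametricDist F] [CharZero F]
  [NormedField E] [IsUltrametricDist E] [CharZero E] [Fintype ι] {κ : ι → F →+* E}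
  {a : ι → Fin n → ℤ} {ρ : GL (Fin n) F →* Matrix (Fin N) (Fin N) E}

omit [IsUltrametricDist E] in
theorem span_low (ok : AlgOK κ a ρ) (p : ℕ) (hp0 : p ≠ 0) (hp : ‖(p : F)‖ < 1) {D : ℕ}
    {w l : Fin N → E} {π : Fin (D + 1) → Matrix (Fin N) (Fin N) E} (hg : Graded κ a ρ w l π)
    {r : ℝ} (hr0 : 0 < r) (hr : r ≤ 1) :
    Submodule.span E {v | ∃ k, Near r k ∧ IsLow1 k ∧ v = ρ k *ᵥ w} = ⊤ := by
  refine ok.irred p hp0 hp hr0 _ (fun k hk v hv => ?_) (v := w) (Submodule.subset_span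
    ⟨1, near_one hr0, fun _ _ _ => rfl, by simp⟩) fun h => ?_
  · induction hv using Submodule.span_induction with
    | mem v hv =>
      obtain ⟨k', hk', -, rfl⟩ := hv
      obtain ⟨l', u, t, hl, hu, hl', -, -, e⟩ := exists_ldu hr0 hr (hk.mul hr0 hr hk')
      rw [Matrix.mulVec_mulVec, ← map_mul, e, map_mul, map_mul, ← Matrix.mulVec_mulVec,
        ← Matrix.mulVec_mulVec, hg.up u hu, hg.tor, Matrix.mulVec_smul]
      exact Submodule.smul_mem _ _ (Submodule.subset_span ⟨l', hl', hl, rfl⟩)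
    | zero => simp
    | add v v' _ _ h h' => rw [Matrix.mulVec_add]; exact add_mem h h'
    | smul c v _ h => rw [Matrix.mulVec_smul]; exact Submodule.smul_mem _ _ h
  · have h1 := hg.lw
    rw [h, dotProduct_zero] at h1
    exact zero_ne_one h1

omit [IsUltrametricDist F] [CharZero F] [IsUltrametricDist E] [CharZero E] in
theorem H5_tor {D : ℕ} {w l : Fin N → E} {π : Fin (D + 1) → Matrix (Fin N) (Fin N) E}
    (hg : Graded κ a ρ w l π) (t : Fin n → Fˣ) :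
    ρ (dg t)⁻¹ *ᵥ w = (chi κ a t)⁻¹ • w := by
  rw [eq_inv_smul_iff₀ (chi_ne_zero κ a t), ← Matrix.mulVec_smul, ← hg.tor, Matrix.mulVec_mulVec,
    ← map_mul, inv_mul_cancel, map_one, Matrix.one_mulVec]

omit [IsUltrametricDist F] [CharZero F] [IsUltrametricDist E] in
theorem H5_inv {D : ℕ} {w l : Fin N → E} {π : Fin (D + 1) → Matrix (Fin N) (Fin N) E}
    (hg : Graded κ a ρ w l π) {y : ℚ} (hy : 1 < y) :
    (∑ M : Fin (D + 1), ((y : E) ^ (M : ℕ) - 1)⁻¹ • π M) *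
      (∑ M : Fin (D + 1), (y : E) ^ (M : ℕ) • π M - 1) = 1 - π 0 := by
  have e : ∀ M : Fin (D + 1), π M * (∑ M : Fin (D + 1), (y : E) ^ (M : ℕ) • π M - 1) =
      ((y : E) ^ (M : ℕ) - 1) • π M := fun M => by
    simp only [Matrix.mul_sub, Matrix.mul_sum, Matrix.mul_smul, hg.orth, Matrix.mul_one, smul_ite,
      smul_zero, Finset.sum_ite_eq, Finset.mem_univ, if_true, sub_smul, one_smul]
  simp only [Matrix.sum_mul, Matrix.smul_mul, e, smul_smul]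
  rw [← hg.sum, Fin.sum_univ_succ, Fin.sum_univ_succ, add_sub_cancel_left, Fin.val_zero, pow_zero,
    sub_self, mul_zero, zero_smul, zero_add]
  refine Finset.sum_congr rfl fun M _ => ?_
  rw [inv_mul_cancel₀, one_smul]
  rw [sub_ne_zero, Fin.val_succ]
  exact_mod_cast (one_lt_pow₀ hy (Nat.succ_ne_zero _)).ne'

theorem bound_diag (ok : AlgOK κ a ρ) (hκ : ∀ σ x, ‖κ σ x‖ = ‖x‖) (p : ℕ) (hp0 : p ≠ 0)
    (hp : ‖(p : F)‖ < 1) {r : ℝ} (hr0 : 0 < r) (hr : r ≤ 1) : ∃ C : ℝ, 0 < C ∧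
    ∀ t : Fin n → Fˣ, (Monotone fun i => ‖(t i : F)‖) → ∀ b : Matrix (Fin N) (Fin N) E,
      ∃ c : E, ∀ M : ℝ, 0 ≤ M → (∀ k, Near r k → Near r ((dg t)⁻¹ * k * dg t) →
        MLe M (ρ ((dg t)⁻¹ * k * dg t) * b * ρ k⁻¹ - b)) → MLe (C * M) (b - c • ρ (dg t)⁻¹) := by
  obtain ⟨w, l, D, π, hg⟩ := ok.grad
  obtain ⟨C₁, hC₁, h₁⟩ := ok.bdd hκ 1
  obtain ⟨C₂, hC₂, h₂⟩ := H5_span (span_low ok p hp0 hp hg hr0 hr)
  obtain ⟨m, hm⟩ := exists_pow_lt_of_lt_one hr0 hp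
  have hz0 : (1 + (p : F) ^ m) ≠ 0 := by exact_mod_cast (by positivity : 1 + p ^ m ≠ 0)
  obtain ⟨z, hz⟩ : ∃ z : Fˣ, (z : F) = 1 + (p : F) ^ m := ⟨Units.mk0 _ hz0, rfl⟩
  have hy : (1 : ℚ) < 1 + (p : ℚ) ^ m := lt_add_of_pos_right _ (by positivity)
  have h3 := hg.eig z (1 + (p : ℚ) ^ m) (by rw [hz]; push_cast; rfl)
  have h4 := H5_inv hg hy
  have h5 : Near r (dg fun i : Fin n => z ^ (i : ℕ)) := (near_dg hr0 _).2 fun i => by
    rw [Units.val_pow_eq_pow_val]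
    exact H5_pow hr (by rwa [hz, add_sub_cancel_left, norm_pow]) _
  generalize (∑ M : Fin (D + 1), (((1 + (p : ℚ) ^ m : ℚ) : E) ^ (M : ℕ) - 1)⁻¹ • π M) = A at h4
  generalize (∑ M : Fin (D + 1), ((1 + (p : ℚ) ^ m : ℚ) : E) ^ (M : ℕ) • π M) = T at h3 h4
  generalize (fun i : Fin n => z ^ (i : ℕ)) = s at h3 h5
  obtain ⟨C₃, hC₃, h₃⟩ := MLe.exists_bound A
  refine ⟨C₂ * (C₁ * (1 + C₃) * (‖w‖ + 1)), by positivity, fun t ht b =>
    ⟨chi κ a t * (l ⬝ᵥ b *ᵥ w), fun M hM h => ?_⟩⟩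
  have h6 : (dg t)⁻¹ * dg s * dg t = dg s := by
    rw [mul_assoc, ← dg_mul, mul_comm s t, dg_mul, inv_mul_cancel_left]
  have h7 : (b - (chi κ a t * (l ⬝ᵥ b *ᵥ w)) • ρ (dg t)⁻¹) *ᵥ w =
      A *ᵥ ((ρ ((dg t)⁻¹ * dg s * dg t) * b * ρ (dg s)⁻¹ - b) *ᵥ w) := by
    have e : (ρ (dg s) * b * ρ (dg s)⁻¹ - b) *ᵥ w = (T - 1) *ᵥ (b *ᵥ w) := by
      rw [Matrix.sub_mulVec, Matrix.sub_mulVec, Matrix.one_mulVec, ← Matrix.mulVec_mulVec,
        ← Matrix.mulVec_mulVec, H5_tor hg, h3, Matrix.smul_mulVec, Matrix.mulVec_smul,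
        Matrix.mulVec_smul, smul_inv_smul₀ (chi_ne_zero κ a s)]
    rw [h6, e, Matrix.mulVec_mulVec (b *ᵥ w), h4, Matrix.sub_mulVec, Matrix.sub_mulVec,
      Matrix.one_mulVec, Matrix.smul_mulVec, H5_tor hg, hg.zero, Matrix.vecMulVec_mulVec,
      smul_smul, mul_right_comm, mul_inv_cancel₀ (chi_ne_zero κ a t), one_mul, op_smul_eq_smul]
  have h8 : ∀ k, ρ ((dg t)⁻¹ * k * dg t) * b * ρ k⁻¹ - b =
      ρ ((dg t)⁻¹ * k * dg t) * (b - (chi κ a t * (l ⬝ᵥ b *ᵥ w)) • ρ (dg t)⁻¹) * ρ k⁻¹ -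
        (b - (chi κ a t * (l ⬝ᵥ b *ᵥ w)) • ρ (dg t)⁻¹) := fun k => by
    rw [Matrix.mul_sub, Matrix.sub_mul, Matrix.mul_smul, Matrix.smul_mul, ← map_mul, ← map_mul,
      mul_inv_cancel_right, mul_inv_cancel_right, sub_sub_sub_cancel_right]
  have h9 : ‖(b - (chi κ a t * (l ⬝ᵥ b *ᵥ w)) • ρ (dg t)⁻¹) *ᵥ w‖ ≤ C₃ * (M * ‖w‖) := by
    rw [h7]
    exact (h₃.mulVec hC₃.le _).trans (mul_le_mul_of_nonneg_left
      ((h _ h5 (h6.symm ▸ h5)).mulVec hM w) hC₃.le)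
  simp only [h8] at h
  generalize b - (chi κ a t * (l ⬝ᵥ b *ᵥ w)) • ρ (dg t)⁻¹ = b₁ at h h9 ⊢
  rw [mul_assoc]
  refine h₂ b₁ _ (by positivity) ?_
  rintro _ ⟨k, hk, hl, rfl⟩
  have h10 := H5_conj ht hk hl
  have h11 := (h k⁻¹ (hk.inv hr0 hr) (H5_conj ht (hk.inv hr0 hr) hl.inv)).mulVec hM w
  have e : b₁ *ᵥ ρ k *ᵥ w = ρ ((dg t)⁻¹ * k * dg t) *ᵥ
      ((ρ ((dg t)⁻¹ * k⁻¹ * dg t) * b₁ * ρ k⁻¹⁻¹ - b₁) *ᵥ w + b₁ *ᵥ w) := by
    rw [← Matrix.add_mulVec, sub_add_cancel, Matrix.mulVec_mulVec, Matrix.mulVec_mulVec, inv_inv,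
      ← Matrix.mul_assoc, ← Matrix.mul_assoc, ← map_mul,
      show (dg t)⁻¹ * k * dg t * ((dg t)⁻¹ * k⁻¹ * dg t) = 1 by group, map_one, Matrix.one_mul]
  rw [e]
  refine ((h₁ _ (h10.bnd hr0 hr)).mulVec hC₁.le _).trans ((mul_le_mul_of_nonneg_left
    ((norm_add_le _ _).trans (add_le_add h11 h9)) hC₁.le).trans ?_)
  have h12 : 0 ≤ C₁ * (1 + C₃) * M := by positivity
  nlinarith

theorem bound_all (ok : AlgOK κ a ρ) (hκ : ∀ σ x, ‖κ σ x‖ = ‖x‖) (p : ℕ) (hp0 : p ≠ 0)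
    (hp : ‖(p : F)‖ < 1) {r : ℝ} (hr0 : 0 < r) (hr : r ≤ 1) : ∃ C : ℝ, 0 < C ∧
    ∀ (x : GL (Fin n) F) (b : Matrix (Fin N) (Fin N) E),
      ∃ c : E, ∀ M : ℝ, 0 ≤ M → (∀ k, Near r k → Near r (x⁻¹ * k * x) →
        MLe M (ρ (x⁻¹ * k * x) * b * ρ k⁻¹ - b)) → MLe (C * M) (b - c • ρ x⁻¹) := by
  obtain ⟨C₁, hC₁, h₁⟩ := ok.bdd hκ 1
  obtain ⟨C, hC, h₂⟩ := bound_diag ok hκ p hp0 hp hr0 hr
  refine ⟨C₁ * (C * (C₁ * C₁)) * C₁, by positivity, fun x b => ?_⟩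
  obtain ⟨k₁, k₂, t, hk₁, hk₂, ht, rfl⟩ := exists_cartan x
  obtain ⟨c, hc⟩ := h₂ t ht (ρ k₂ * b * ρ k₁)
  refine ⟨c, fun M hM h => ?_⟩
  have h3 := hc (C₁ * M * C₁) (by positivity) fun k hk hk' => by
    have e1 : (k₁ * dg t * k₂)⁻¹ * (k₁⁻¹⁻¹ * k * k₁⁻¹) * (k₁ * dg t * k₂) =
        k₂⁻¹ * ((dg t)⁻¹ * k * dg t) * k₂ := by group
    have h4 := h _ (hk.conj hr0 hk₁.inv) (e1 ▸ hk'.conj hr0 hk₂)
    have e2 : ρ ((dg t)⁻¹ * k * dg t) * (ρ k₂ * b * ρ k₁) * ρ k⁻¹ - ρ k₂ * b * ρ k₁ =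
        ρ k₂ * (ρ (k₂⁻¹ * ((dg t)⁻¹ * k * dg t) * k₂) * b * ρ (k₁⁻¹⁻¹ * k * k₁⁻¹)⁻¹ - b) *
          ρ k₁ := by
      have e3 : k₂ * (k₂⁻¹ * ((dg t)⁻¹ * k * dg t) * k₂) = (dg t)⁻¹ * k * dg t * k₂ := by group
      have e4 : (k₁⁻¹⁻¹ * k * k₁⁻¹)⁻¹ * k₁ = k₁ * k⁻¹ := by group
      rw [Matrix.mul_sub, Matrix.sub_mul, ← Matrix.mul_assoc (ρ k₂), ← Matrix.mul_assoc (ρ k₂),
        ← map_mul, e3, Matrix.mul_assoc _ (ρ _⁻¹) (ρ k₁), ← map_mul, e4, map_mul ρ _ k₂, map_mul ρ k₁]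
      simp only [Matrix.mul_assoc]
    rw [e1] at h4
    rw [e2]
    exact ((h₁ _ hk₂).mul h4 hC₁.le hM).mul (h₁ _ hk₁) (by positivity) hC₁.le
  have e : b - c • ρ (k₁ * dg t * k₂)⁻¹ =
      ρ k₂⁻¹ * (ρ k₂ * b * ρ k₁ - c • ρ (dg t)⁻¹) * ρ k₁⁻¹ := by
    rw [Matrix.mul_sub, Matrix.sub_mul, Matrix.mul_smul, Matrix.smul_mul, ← map_mul, ← map_mul,
      ← Matrix.mul_assoc, ← Matrix.mul_assoc, ← map_mul, inv_mul_cancel, map_one, Matrix.one_mul,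
      Matrix.mul_assoc, ← map_mul, mul_inv_cancel, map_one, Matrix.mul_one, mul_inv_rev,
      mul_inv_rev, mul_assoc]
  rw [e]
  exact (((h₁ _ hk₂.inv).mul h3 hC₁.le (by positivity)).mul (h₁ _ hk₁.inv) (by positivity)
    hC₁.le).mono (le_of_eq (by ring))

end Pool.Agent.MP_4d0c14_b
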