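import Pool.Agent.MP_4d0c14_b.H4
import Pool.Agent.MP_4d0c14_b.H5

/-! The local vanishing statement with a uniform bound. -/

namespace Pool.Agent.MP_4d0c14_b

open scoped Matrix Kronecker

theorem H6_ext {G R E : Type} [Group G] [Ring R] [Field E] [CharZero E] [Algebra E R]
    (ρ : G →* R) (S T : G → Prop) (v : G → R) (hS : ∀ k k', S k → S k' → S (k * k'))
    (hTS : ∀ k, T k → S k) (hconj : ∀ k m, S k → T m → T (k⁻¹ * m * k))
    (hpow : ∀ k, S k → ∃ m : ℕ, 0 < m ∧ T (k ^ m))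
    (hschur : ∀ X : R, (∀ k, T k → ρ k * X = X * ρ k) → ∃ c : E, X = c • (1 : R))
    (hv : ∀ k k', S k → S k' → v (k * k') = v k + ρ k * v k' * ρ k⁻¹)
    (h0 : ∀ k, T k → v k = 0) (k : G) (hk : S k) : v k = 0 := by
  have hi : ∀ g : G, ρ g⁻¹ * ρ g = 1 := fun g => by rw [← map_mul, inv_mul_cancel, map_one]
  have hi' : ∀ g : G, ρ g * ρ g⁻¹ = 1 := fun g => by rw [← map_mul, mul_inv_cancel, map_one]
  obtain ⟨c, hc⟩ := hschur (v k) fun m hm => by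
    have h1 := hv m k (hTS m hm) hk
    have h2 := hv k _ hk (hTS _ (hconj k m hk hm))
    rw [h0 _ (hconj k m hk hm), mul_zero, zero_mul, add_zero,
      show k * (k⁻¹ * m * k) = m * k by group, h1, h0 m hm, zero_add] at h2
    calc ρ m * v k = ρ m * v k * ρ m⁻¹ * ρ m := by rw [mul_assoc _ _ (ρ m), hi, mul_one]
      _ = v k * ρ m := by rw [h2]
  have h3 : ∀ j : ℕ, S (k ^ (j + 1)) ∧ v (k ^ (j + 1)) = ((j + 1 : ℕ) : E) • v k := by
    intro j
    induction j with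
    | zero => simpa using hk
    | succ j ih =>
      rw [pow_succ' k (j + 1)]
      refine ⟨hS _ _ hk ih.1, ?_⟩
      rw [hv _ _ hk ih.1, ih.2, hc, smul_smul, mul_smul_comm, mul_one, smul_mul_assoc, hi',
        smul_smul, ← add_smul]
      congr 1
      push_cast
      ring
  obtain ⟨m, hm, hm'⟩ := hpow k hk
  obtain ⟨j, rfl⟩ := Nat.exists_eq_succ_of_ne_zero hm.ne'
  have h4 := (h3 j).2
  rw [h0 _ hm'] at h4
  exact (smul_eq_zero.1 h4.symm).resolve_left (Nat.cast_ne_zero.2 j.succ_ne_zero)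

theorem H6_block {I J E : Type} [Fintype I] [Fintype J] [DecidableEq J] [CommRing E]
    (A B : Matrix I I E) (X : Matrix (I × J) (I × J) E) (i i' : I) (c c' : J) :
    ((A ⊗ₖ (1 : Matrix J J E)) * X * (B ⊗ₖ (1 : Matrix J J E))) (i, c) (i', c') =
      (A * (Matrix.of fun j j' => X (j, c) (j', c')) * B) i i' := by
  simp [Matrix.mul_apply, Fintype.sum_prod_type, Matrix.one_apply]

variable (p : ℕ) [Fact p.Prime] {n N : ℕ} {F E ι : Type} [NontriviallyNormedField F]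
  [IsUltrametricDist F] [NormedAlgebra ℚ_[p] F] [FiniteDimensional ℚ_[p] F] [NormedField E]
  [IsUltrametricDist E] [NormedAlgebra ℚ_[p] E] [Fintype ι] {κ : ι → F →+* E}
  {a : ι → Fin n → ℤ} {ρ : GL (Fin n) F →* Matrix (Fin N) (Fin N) E}

include p in
theorem h1_local (ok : AlgOK κ a ρ) (hκ : ∀ σ x, ‖κ σ x‖ = ‖x‖) {r : ℝ} (hr0 : 0 < r)
    (hr : r ≤ 1) : ∃ C : ℝ, 0 < C ∧
    ∀ (x : GL (Fin n) F) (u : GL (Fin n) F → Matrix (Fin N) (Fin N) E),
      (∀ k k', Near r k → Near r k' → Near r (x⁻¹ * k * x) → Near r (x⁻¹ * k' * x) →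
        u (k * k') = u k + ρ (x⁻¹ * k * x) * u k' * ρ k⁻¹) →
      (∀ z : Fˣ, Near r (dg fun _ : Fin n => z) → u (dg fun _ => z) = 0) → Cts u →
      ∃ b : Matrix (Fin N) (Fin N) E,
        (∀ k, Near r k → Near r (x⁻¹ * k * x) → u k = ρ (x⁻¹ * k * x) * b * ρ k⁻¹ - b) ∧
        ∀ M : ℝ, 0 ≤ M → (∀ k, Near r k → Near r (x⁻¹ * k * x) → MLe M (u k)) →
          MLe (C * M) b := by
  have : ProperSpace F := FiniteDimensional.proper ℚ_[p] F
  have : CharZero E := charZero_of_injective_algebraMap (algebraMap ℚ_[p] E).injective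
  have : CharZero F := charZero_of_injective_algebraMap (algebraMap ℚ_[p] F).injective
  have hp0 : p ≠ 0 := (Fact.out : p.Prime).ne_zero
  have hp : ‖(p : F)‖ < 1 := by
    have : (p : F) = algebraMap ℚ_[p] F p := by simp
    rw [this, norm_algebraMap']
    exact Padic.norm_p_lt_one
  obtain ⟨C, hC, hb⟩ := bound_all ok hκ p hp0 hp hr0 hr
  refine ⟨C, hC, fun x u hu hz hc => ?_⟩
  obtain ⟨s₀, hs₀, hsr⟩ := exists_near_conj x hr0
  have hs0 : 0 < min s₀ r := lt_min hs₀ hr0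
  have hs1 : min s₀ r ≤ 1 := (min_le_right _ _).trans hr
  have hTS : ∀ k : GL (Fin n) F, Near (min s₀ r) k → Near r k ∧ Near r (x⁻¹ * k * x) :=
    fun k hk => ⟨hk.mono (min_le_right _ _), hsr k (hk.mono (min_le_left _ _))⟩
  have hu' : ∀ k k' : GL (Fin n) F, Near r k ∧ Near r (x⁻¹ * k * x) →
      Near r k' ∧ Near r (x⁻¹ * k' * x) →
      ρ x * u (k * k') = ρ x * u k + ρ k * (ρ x * u k') * ρ k⁻¹ := fun k k' hk hk' => by
    have e : ρ x * ρ (x⁻¹ * k * x) = ρ k * ρ x := by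
      rw [← map_mul, ← map_mul]; congr 1; group
    rw [hu k k' hk.1 hk'.1 hk.2 hk'.2, mul_add, ← mul_assoc, ← mul_assoc, e, mul_assoc (ρ k)]
  obtain ⟨b', hb'⟩ := whitehead p ok hκ hs0 hs1 (u := fun k => ρ x * u k)
    (fun k k' hk hk' => hu' k k' (hTS k hk) (hTS k' hk'))
    (fun ε hε => by
      obtain ⟨B, hB, hB'⟩ := MLe.exists_bound (ρ x)
      obtain ⟨δ, hδ, h⟩ := hc (ε / B) (div_pos hε hB)
      refine ⟨δ, hδ, fun k hk => ?_⟩
      have := hB'.mul (h k hk) hB.le (div_pos hε hB).le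
      rwa [mul_div_cancel₀ _ hB.ne'] at this)
    (fun z h => by simp only [hz z (hTS _ h).1, mul_zero])
  have key := H6_ext (E := E) ρ (fun k => Near r k ∧ Near r (x⁻¹ * k * x)) (Near (min s₀ r))
    (fun k => ρ x * u k - (ρ k * b' * ρ k⁻¹ - b'))
    (fun k k' hk hk' => ⟨hk.1.mul hr0 hr hk'.1, by
      rw [show x⁻¹ * (k * k') * x = x⁻¹ * k * x * (x⁻¹ * k' * x) by group]
      exact hk.2.mul hr0 hr hk'.2⟩) hTS
    (fun k m hk hm => hm.conj hs0 (hk.1.bnd hr0 hr))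
    (fun k hk => exists_pow_near (hk.1.bnd hr0 hr) hs0)
    (fun X hX => ok.schur p hp0 hp hs0 hX)
    (fun k k' hk hk' => by
      simp only [hu' k k' hk hk', mul_inv_rev, map_mul]
      noncomm_ring)
    (fun k hk => sub_eq_zero.2 (hb' k hk))
  have h1 : ∀ k, Near r k → Near r (x⁻¹ * k * x) →
      u k = ρ (x⁻¹ * k * x) * (ρ x⁻¹ * b') * ρ k⁻¹ - ρ x⁻¹ * b' := fun k hk hk' => by
    have e : ρ (x⁻¹ * k * x) * ρ x⁻¹ = ρ x⁻¹ * ρ k := by
      rw [← map_mul, ← map_mul]; congr 1; group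
    have e' : u k = ρ x⁻¹ * (ρ x * u k) := by
      rw [← mul_assoc, ← map_mul, inv_mul_cancel, map_one, one_mul]
    rw [e', sub_eq_zero.1 (key k ⟨hk, hk'⟩), ← mul_assoc (ρ (x⁻¹ * k * x)), e]
    noncomm_ring
  obtain ⟨c, hc'⟩ := hb x (ρ x⁻¹ * b')
  refine ⟨ρ x⁻¹ * b' - c • ρ x⁻¹, fun k hk hk' => ?_,
    fun M hM h => hc' M hM fun k hk hk' => h1 k hk hk' ▸ h k hk hk'⟩
  have e : ρ (x⁻¹ * k * x) * ρ x⁻¹ * ρ k⁻¹ = ρ x⁻¹ := by
    rw [← map_mul, ← map_mul]; congr 1; group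
  rw [mul_sub, sub_mul, mul_smul_comm, smul_mul_assoc, e, h1 k hk hk']
  abel

include p in
theorem h1_local_kron (ok : AlgOK κ a ρ) (hκ : ∀ σ x, ‖κ σ x‖ = ‖x‖) {r : ℝ} (hr0 : 0 < r)
    (hr : r ≤ 1) (J : Type) [Fintype J] [DecidableEq J] : ∃ C : ℝ, 0 < C ∧
    ∀ (x : GL (Fin n) F) (u : GL (Fin n) F → Matrix (Fin N × J) (Fin N × J) E),
      (∀ k k', Near r k → Near r k' → Near r (x⁻¹ * k * x) → Near r (x⁻¹ * k' * x) →
        u (k * k') = u k + (ρ (x⁻¹ * k * x) ⊗ₖ (1 : Matrix J J E)) * u k' *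
          (ρ k⁻¹ ⊗ₖ (1 : Matrix J J E))) →
      (∀ z : Fˣ, Near r (dg fun _ : Fin n => z) → u (dg fun _ => z) = 0) →
      (∀ ε : ℝ, 0 < ε → ∃ δ : ℝ, 0 < δ ∧ ∀ k, Near δ k → MLe ε (u k)) →
      ∃ b : Matrix (Fin N × J) (Fin N × J) E,
        (∀ k, Near r k → Near r (x⁻¹ * k * x) → u k =
          (ρ (x⁻¹ * k * x) ⊗ₖ (1 : Matrix J J E)) * b * (ρ k⁻¹ ⊗ₖ (1 : Matrix J J E)) - b) ∧
        ∀ M : ℝ, 0 ≤ M → (∀ k, Near r k → Near r (x⁻¹ * k * x) → MLe M (u k)) →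
          MLe (C * M) b := by
  obtain ⟨C, hC, h⟩ := h1_local p ok hκ hr0 hr
  refine ⟨C, hC, fun x u hu hz hc => ?_⟩
  choose b hb hM using fun c c' : J =>
    h x (fun k => Matrix.of fun i i' => u k (i, c) (i', c'))
      (fun k k' h1 h2 h3 h4 => by
        ext i i'
        rw [Matrix.add_apply, ← H6_block, Matrix.of_apply, hu k k' h1 h2 h3 h4]
        rfl)
      (fun z hz' => by simp only [hz z hz']; rfl)
      (fun ε hε => by
        obtain ⟨δ, hδ, h⟩ := hc ε hε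
        exact ⟨δ, hδ, fun k hk i i' => h k hk _ _⟩)
  refine ⟨Matrix.of fun i i' => b i.2 i'.2 i.1 i'.1, fun k hk hk' => ?_,
    fun M hM0 hu' i i' => hM i.2 i'.2 M hM0 (fun k hk hk' j j' => hu' k hk hk' _ _) _ _⟩
  ext ⟨i, c⟩ ⟨i', c'⟩
  rw [Matrix.sub_apply, H6_block]
  exact congrFun (congrFun (hb c c' k hk hk') i) i'

end Pool.Agent.MP_4d0c14_b
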