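import Pool.Agent.MP_4d0c14_b.GIw
import Pool.Agent.MP_4d0c14_b.H6

/-! The data for the vanishing of the obstruction in degree one. -/

namespace Pool.Agent.MP_4d0c14_b

open scoped Matrix Kronecker

section Aux

variable {n : ℕ} {F : Type}

/-- The scalar matrices. -/
def F2_sc (n : ℕ) [Field F] : Fˣ →* GL (Fin n) F where
  toFun z := dg fun _ => z
  map_one' := dg_one
  map_mul' s t := dg_mul (fun _ => s) (fun _ => t)

theorem F2_sc_comm [Field F] (z : Fˣ) (g : GL (Fin n) F) : F2_sc n z * g = g * F2_sc n z :=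
  dg_const_comm z g

theorem F2_pos {s : ℝ} (h0 : 0 < s) (i : ℕ) : 0 < s / (i + 1) := by positivity

theorem F2_le {s : ℝ} (h0 : 0 < s) (i : ℕ) : s / (i + 1) ≤ s :=
  div_le_self h0.le (by linarith [(Nat.cast_nonneg i : (0 : ℝ) ≤ i)])

theorem F2_small (s : ℝ) {δ : ℝ} (hδ : 0 < δ) : ∃ i : ℕ, s / (i + 1) ≤ δ := by
  obtain ⟨i, hi⟩ := exists_nat_ge (s / δ)
  refine ⟨i, ?_⟩
  rw [div_le_iff₀ hδ] at hi
  rw [div_le_iff₀ (by positivity)]
  nlinarith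

variable [NormedField F] [IsUltrametricDist F] {s : ℝ}

/-- The decreasing sequence of congruence subgroups. -/
noncomputable def F2_K (n : ℕ) (F : Type) [NormedField F] [IsUltrametricDist F] (h0 : 0 < s) (h1 : s ≤ 1)
    (i : ℕ) : Subgroup (GL (Fin n) F) :=
  KK n F (s / (i + 1)) (F2_pos h0 i) ((F2_le h0 i).trans h1)

theorem F2_mem {h0 : 0 < s} {h1 : s ≤ 1} {i : ℕ} {g : GL (Fin n) F} :
    g ∈ F2_K n F h0 h1 i ↔ Near (s / (i + 1)) g := Iff.rfl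

theorem F2_mem0 {h0 : 0 < s} {h1 : s ≤ 1} {g : GL (Fin n) F} :
    g ∈ F2_K n F h0 h1 0 ↔ Near s g := by
  rw [F2_mem, Nat.cast_zero, zero_add, div_one]

/-- The congruence subgroup times the powers of `ϖ`. -/
def F2_Kp (n : ℕ) (h0 : 0 < s) (h1 : s ≤ 1) (ϖ : Fˣ) : Subgroup (GL (Fin n) F) where
  carrier := {g | ∃ (k : GL (Fin n) F) (e : ℤ), Near s k ∧ g = k * F2_sc n (ϖ ^ e)}
  mul_mem' := by
    rintro _ _ ⟨k, e, hk, rfl⟩ ⟨k', e', hk', rfl⟩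
    refine ⟨k * k', e + e', hk.mul h0 h1 hk', ?_⟩
    rw [zpow_add, map_mul, mul_assoc, ← mul_assoc (F2_sc n (ϖ ^ e)), F2_sc_comm (ϖ ^ e) k',
      mul_assoc, mul_assoc]
  one_mem' := ⟨1, 0, near_one h0, by rw [zpow_zero, map_one, mul_one]⟩
  inv_mem' := by
    rintro _ ⟨k, e, hk, rfl⟩
    refine ⟨k⁻¹, -e, hk.inv h0 h1, ?_⟩
    rw [mul_inv_rev, zpow_neg, ← map_inv, F2_sc_comm]

theorem F2_near_mem {h0 : 0 < s} {h1 : s ≤ 1} (ϖ : Fˣ) {g : GL (Fin n) F} (hg : Near s g) :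
    g ∈ F2_Kp n h0 h1 ϖ := ⟨g, 0, hg, by rw [zpow_zero, map_one, mul_one]⟩

theorem F2_key {h0 : 0 < s} {h1 : s ≤ 1} {ϖ : Fˣ} (hϖ : ‖(ϖ : F)‖ < 1) {x k : GL (Fin n) F}
    (hk : Near s k) (h : x⁻¹ * k * x ∈ F2_Kp n h0 h1 ϖ) : Near s (x⁻¹ * k * x) := by
  obtain ⟨k', e, hk', he⟩ := h
  rcases Nat.eq_zero_or_pos n with rfl | hn
  · exact fun i => i.elim0
  have d1 := (hk.bnd h0 h1).norm_det
  have d2 := (hk'.bnd h0 h1).norm_det
  have d3 : ((x⁻¹ * k * x : GL (Fin n) F) : Matrix (Fin n) (Fin n) F).det =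
      (k : Matrix (Fin n) (Fin n) F).det := by
    rw [Units.val_mul, Units.val_mul, Matrix.det_mul, Matrix.det_mul, mul_right_comm,
      ← Matrix.det_mul, Units.inv_mul, Matrix.det_one, one_mul]
  have d4 : ((F2_sc n (ϖ ^ e) : GL (Fin n) F) : Matrix (Fin n) (Fin n) F).det =
      ((ϖ : F) ^ e) ^ n := by
    have : ((F2_sc n (ϖ ^ e) : GL (Fin n) F) : Matrix (Fin n) (Fin n) F) =
        Matrix.diagonal fun _ => ((ϖ ^ e : Fˣ) : F) := rfl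
    rw [this, Matrix.det_diagonal]
    simp
  rw [he, Units.val_mul, Matrix.det_mul, d4] at d3
  have d5 := congrArg norm d3
  rw [norm_mul, d1, d2, one_mul, norm_pow, norm_zpow,
    pow_eq_one_iff_of_nonneg (zpow_nonneg (norm_nonneg _) _) hn.ne',
    zpow_eq_one_iff_right₀ (norm_nonneg _) hϖ.ne] at d5
  rw [he, d5, zpow_zero, map_one, mul_one]
  exact hk'

theorem F2_kron {α β E : Type} [DecidableEq α] [DecidableEq β] [NormedField E] {ε : ℝ}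
    {A : Matrix α α E} (h : MLe ε (A - 1)) : MLe ε (A ⊗ₖ (1 : Matrix β β E) - 1) := by
  have e : A ⊗ₖ (1 : Matrix β β E) - 1 = (A - 1) ⊗ₖ (1 : Matrix β β E) := by
    rw [← Matrix.one_kronecker_one (α := E) (m := α) (n := β)]
    ext i j
    simp only [Matrix.sub_apply, Matrix.kroneckerMap_apply, sub_mul]
  rw [e]
  simpa using h.kron (MLe.one (α := β) (E := E))

end Aux

theorem TypeData.nonempty_h1Data (p : ℕ) [Fact p.Prime] {n k m N : ℕ} {F E ι : Type}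
    [NontriviallyNormedField F] [IsUltrametricDist F] [NormedAlgebra ℚ_[p] F]
    [FiniteDimensional ℚ_[p] F] [ProperSpace F] [NormedField E] [IsUltrametricDist E]
    [NormedAlgebra ℚ_[p] E] [Fintype ι] (D : TypeData n k m F E) {r : ℝ} (hr : D.Good r)
    (ϖ : Fˣ) (hϖ : ‖(ϖ : F)‖ < 1) {κ : ι → F →+* E} {a : ι → Fin n → ℤ}
    {ρ : GL (Fin n) F →* Matrix (Fin N) (Fin N) E} (ok : AlgOK κ a ρ)
    (hκ : ∀ σ x, ‖κ σ x‖ = ‖x‖) : Nonempty ((D.iw hr ϖ hϖ).tfib ρ).H1Data := by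
  obtain ⟨s, h0, h1, hs⟩ := D.near_mem hr
  have hμ : ∀ g, Near s g → ((D.iw hr ϖ hϖ).tfib ρ).μ g =
      ρ g ⊗ₖ (1 : Matrix (Fin m) (Fin m) E) := fun g hg =>
    congrArg (fun A => ρ g ⊗ₖ A) (hs g hg).2
  refine ⟨⟨F2_K n F h0 h1, F2_Kp n h0 h1 ϖ, (F2_sc n).range, ?_, ?_, ?_, ?_, ?_, ?_, ?_, ?_, ?_,
    ?_, ?_⟩⟩
  · intro i j hij g hg
    refine Near.mono (F2_mem.1 hg) (div_le_div_of_nonneg_left h0.le (by positivity) ?_)
    have : (i : ℝ) ≤ j := Nat.cast_le.2 hij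
    linarith
  · exact fun g hg => F2_near_mem ϖ (F2_mem0.1 hg)
  · rintro _ ⟨g, e, hg, rfl⟩
    exact (D.HH hr).mul_mem (hs g hg).1 (D.scalar_mem hr _).1
  · rintro _ ⟨z, rfl⟩
    exact (D.scalar_mem hr z).1
  · rintro _ ⟨z, rfl⟩ g
    exact F2_sc_comm z g
  · rintro _ ⟨z, rfl⟩
    refine ⟨chi κ a (fun _ => z) * (D.omega fun _ => z : E), ?_⟩
    have e : ((D.iw hr ϖ hϖ).tfib ρ).μ (F2_sc n z) =
        ρ (dg fun _ => z) ⊗ₖ D.lamF (dg fun _ => z) := rfl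
    rw [e, ok.cen, (D.scalar_mem hr z).2, Matrix.smul_kronecker, Matrix.kronecker_smul,
      Matrix.one_kronecker_one, smul_smul]
  · rintro _ ⟨g, e, hg, rfl⟩
    exact ⟨g, F2_mem0.2 hg, _, ⟨_, rfl⟩, rfl⟩
  · obtain ⟨T, -, hT⟩ := D.hh_cover hr ϖ hϖ h0
    refine ⟨T, fun h hh => ?_⟩
    obtain ⟨t, ht, e, he⟩ := hT h hh
    refine ⟨t, ht, t⁻¹ * (F2_sc n (ϖ ^ e) * h), -e, he, ?_⟩
    rw [F2_sc_comm, zpow_neg, map_inv, ← mul_assoc, mul_inv_cancel_right]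
  · intro i
    obtain ⟨T, -, hT⟩ := finite_cover_of_subset (n := n) (F := F) 1 (F2_pos h0 i) {g | Near s g}
      fun g hg => Near.bnd h0 h1 hg
    classical
    refine ⟨T.image Inv.inv, fun g hg => ?_⟩
    obtain ⟨t, ht, h⟩ := hT g⁻¹ ((F2_mem0.1 hg).inv h0 h1)
    refine ⟨t⁻¹, Finset.mem_image_of_mem _ ht, ?_⟩
    have := (F2_K n F h0 h1 i).inv_mem (F2_mem.2 h)
    rwa [mul_inv_rev, inv_inv] at this
  · intro x ε hε
    obtain ⟨δ, hδ, hc⟩ := ok.cont hκ hε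
    obtain ⟨η, hη, hx⟩ := exists_near_conj x (lt_min h0 hδ)
    obtain ⟨i, hi⟩ := F2_small s hη
    refine ⟨i, fun g hg => ?_⟩
    have h2 := hx g ((F2_mem.1 hg).mono hi)
    have h3 := h2.mono (min_le_left _ _)
    refine ⟨(hs _ h3).1, ?_⟩
    rw [hμ _ h3]
    exact F2_kron (hc _ (h2.mono (min_le_right _ _)))
  · obtain ⟨C, hC, H⟩ := h1_local_kron p ok hκ h0 h1 (Fin m)
    refine ⟨C, hC, fun x u hu hz hc => ?_⟩
    obtain ⟨b, hb, hM⟩ := H x u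
      (fun g g' hg hg' hx hx' => by
        rw [hu g (F2_mem0.2 hg) g' (F2_mem0.2 hg') (F2_near_mem ϖ hx) (F2_near_mem ϖ hx'),
          hμ _ hx, hμ _ (hg.inv h0 h1)])
      (fun z hn => hz _ ⟨z, rfl⟩ (F2_mem0.2 hn))
      (fun ε hε => by
        obtain ⟨i, hi⟩ := hc ε hε
        obtain ⟨η, hη, hx⟩ := exists_near_conj x h0
        exact ⟨min (s / (i + 1)) η, lt_min (F2_pos h0 i) hη, fun g hg =>
          hi g (F2_mem.2 (hg.mono (min_le_left _ _)))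
            (F2_near_mem ϖ (hx g (hg.mono (min_le_right _ _))))⟩)
    refine ⟨b, fun g hg hx => ?_, fun M hM0 h => hM M hM0 fun g hg hx =>
      h g (F2_mem0.2 hg) (F2_near_mem ϖ hx)⟩
    have hg' := F2_mem0.1 hg
    have hx' := F2_key hϖ hg' hx
    rw [hμ _ hx', hμ _ (hg'.inv h0 h1)]
    exact hb g hg' hx'

end Pool.Agent.MP_4d0c14_b
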