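import Pool.Agent.MP_4d0c14_b.Mat

/-! Abstract compact induction: matrix valued functions on `G`, convolution over `G ⧸ H`. -/

namespace Pool.Agent.MP_4d0c14_b

open scoped Matrix

/-- A subgroup `H` whose double cosets are finite unions of cosets, with a representation `μ`. -/
structure Fib (G E ι : Type) [Group G] [Field E] [Fintype ι] [DecidableEq ι] where
  H : Subgroup G
  μ : G → Matrix ι ι E
  μ_one : μ 1 = 1
  μ_mul : ∀ h ∈ H, ∀ h' ∈ H, μ (h * h') = μ h * μ h'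
  fin : ∀ g : G, ∃ T : Finset G, ∀ h ∈ H, ∃ t ∈ T, t⁻¹ * (h * g) ∈ H

namespace Fib

section Alg

variable {G E ι : Type} [Group G] [Field E] [Fintype ι] [DecidableEq ι] (D : Fib G E ι)

theorem μ_inv_mul {h : G} (hh : h ∈ D.H) : D.μ h⁻¹ * D.μ h = 1 := by
  rw [← D.μ_mul _ (D.H.inv_mem hh) _ hh, inv_mul_cancel, D.μ_one]

theorem μ_mul_inv {h : G} (hh : h ∈ D.H) : D.μ h * D.μ h⁻¹ = 1 := by
  rw [← D.μ_mul _ hh _ (D.H.inv_mem hh), mul_inv_cancel, D.μ_one]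

/-- right equivariance -/
def Eqv (Y : G → Matrix ι ι E) : Prop := ∀ x, ∀ h ∈ D.H, Y (x * h) = D.μ h⁻¹ * Y x

/-- left equivariance -/
def LEqv (Y : G → Matrix ι ι E) : Prop := ∀ x, ∀ h ∈ D.H, Y (h * x) = Y x * D.μ h⁻¹

/-- support in finitely many cosets `t H` -/
def Fin0 (Y : G → Matrix ι ι E) : Prop :=
  ∃ T : Finset G, ∀ x, Y x ≠ 0 → ∃ t ∈ T, t⁻¹ * x ∈ D.H

/-- elements of the Hecke algebra -/
def Ker (Y : G → Matrix ι ι E) : Prop := D.Eqv Y ∧ D.LEqv Y ∧ D.Fin0 Y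

/-- convolution -/
noncomputable def conv (κ Y : G → Matrix ι ι E) : G → Matrix ι ι E :=
  fun x => ∑ᶠ q : G ⧸ D.H, κ (q.out⁻¹ * x) * Y q.out

open Classical in
/-- the unit -/
noncomputable def del : G → Matrix ι ι E := fun x => if x ∈ D.H then D.μ x⁻¹ else 0

/-- the dual data -/
def dual : Fib G E ι where
  H := D.H
  μ := fun h => (D.μ h⁻¹)ᵀ
  μ_one := by simp [D.μ_one]
  μ_mul := fun h hh h' hh' => by
    rw [mul_inv_rev, D.μ_mul _ (D.H.inv_mem hh') _ (D.H.inv_mem hh), Matrix.transpose_mul]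
  fin := D.fin

end Alg

section Normed

variable {G E ι : Type} [Group G] [NormedField E] [Fintype ι] [DecidableEq ι] (D : Fib G E ι)

/-- `μ` is bounded on `H` -/
def Bdd : Prop := ∃ C : ℝ, 0 < C ∧ ∀ h ∈ D.H, MLe C (D.μ h)

/-- tends to zero on `G ⧸ H` -/
def Dec (Y : G → Matrix ι ι E) : Prop :=
  ∀ ε : ℝ, 0 < ε → ∃ T : Finset G, ∀ x, (∀ t ∈ T, t⁻¹ * x ∉ D.H) → MLe ε (Y x)

/-- The image of the operators `κ i` is dense. -/
def Dense {d : ℕ} (κ : Fin d → G → Matrix ι ι E) : Prop :=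
  ∀ ε : ℝ, 0 < ε → ∃ Y : Fin d → G → Matrix ι ι E, (∀ i, D.Eqv (Y i) ∧ D.Fin0 (Y i)) ∧
    ∀ x, MLe ε (D.del x - ∑ i, D.conv (κ i) (Y i) x)

/-- The ideal of the Hecke algebra generated by the `κ i` is dense. -/
def Approx {d : ℕ} (κ : Fin d → G → Matrix ι ι E) : Prop :=
  ∀ ε : ℝ, 0 < ε → ∃ Y : Fin d → G → Matrix ι ι E, (∀ i, D.Ker (Y i)) ∧
    ∀ x, MLe ε (D.del x - ∑ i, D.conv (κ i) (Y i) x)

/-- The data used to kill the obstruction in degree one. -/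
structure H1Data where
  K : ℕ → Subgroup G
  Kp : Subgroup G
  Z : Subgroup G
  anti : Antitone K
  K_le : K 0 ≤ Kp
  Kp_le : Kp ≤ D.H
  Z_le : Z ≤ D.H
  Z_cen : ∀ z ∈ Z, ∀ g, z * g = g * z
  Z_sc : ∀ z ∈ Z, ∃ c : E, D.μ z = c • (1 : Matrix ι ι E)
  Kp_dec : ∀ g ∈ Kp, ∃ k ∈ K 0, ∃ z ∈ Z, g = k * z
  Kp_fin : ∃ T : Finset G, ∀ h ∈ D.H, ∃ t ∈ T, t⁻¹ * h ∈ Kp
  K_fin : ∀ i, ∃ T : Finset G, ∀ k ∈ K 0, ∃ t ∈ T, k * t⁻¹ ∈ K i
  cont : ∀ (x : G) (ε : ℝ), 0 < ε → ∃ i, ∀ k ∈ K i,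
    x⁻¹ * k * x ∈ D.H ∧ MLe ε (D.μ (x⁻¹ * k * x) - 1)
  loc : ∃ C : ℝ, 0 < C ∧ ∀ (x : G) (u : G → Matrix ι ι E),
    (∀ k ∈ K 0, ∀ k' ∈ K 0, x⁻¹ * k * x ∈ Kp → x⁻¹ * k' * x ∈ Kp →
      u (k * k') = u k + D.μ (x⁻¹ * k * x) * u k' * D.μ k⁻¹) →
    (∀ z ∈ Z, z ∈ K 0 → u z = 0) →
    (∀ ε : ℝ, 0 < ε → ∃ i, ∀ k ∈ K i, x⁻¹ * k * x ∈ Kp → MLe ε (u k)) →
    ∃ b : Matrix ι ι E,
      (∀ k ∈ K 0, x⁻¹ * k * x ∈ Kp → u k = D.μ (x⁻¹ * k * x) * b * D.μ k⁻¹ - b) ∧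
      ∀ M : ℝ, 0 ≤ M → (∀ k ∈ K 0, x⁻¹ * k * x ∈ Kp → MLe M (u k)) → MLe (C * M) b

end Normed

end Fib

/-- the adjoint kernel -/
def dK {G E ι : Type} [Group G] (κ : G → Matrix ι ι E) : G → Matrix ι ι E := fun x => (κ x⁻¹)ᵀ

/-- A residually finite subgroup acting on `G ⧸ H` with finitely many orbits and finite
stabilisers. -/
def HasLat {G : Type} [Group G] (H : Subgroup G) : Prop :=
  ∃ Γ : Subgroup G, Group.ResiduallyFinite Γ ∧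
    (∃ T : Finset G, ∀ x, ∃ γ ∈ Γ, ∃ t ∈ T, (γ * t)⁻¹ * x ∈ H) ∧
    ∀ x : G, {γ | γ ∈ Γ ∧ x⁻¹ * γ * x ∈ H}.Finite

/-- A residually finite subgroup acting freely on `G ⧸ H` with finitely many orbits. -/
structure FreeLat {G : Type} [Group G] (H : Subgroup G) where
  Γ : Subgroup G
  rf : Group.ResiduallyFinite Γ
  N : ℕ
  a : Fin N → G
  bij : Function.Bijective fun p : Γ × Fin N => (((p.1 : G) * a p.2 : G) : G ⧸ H)

section Gam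

variable {Γ J E : Type} [Group Γ] [Fintype J] [DecidableEq J]

/-- The operator `(op k y) γ = ∑ η, k η (y (γ η))`. -/
noncomputable def op [Field E] (k : Γ →₀ Matrix J J E) (y : Γ → J → E) : Γ → J → E :=
  fun γ => k.sum fun η A => A *ᵥ y (γ * η)

/-- The adjoint kernel `η ↦ (k η⁻¹)ᵀ`. -/
noncomputable def st [Field E] (k : Γ →₀ Matrix J J E) : Γ →₀ Matrix J J E :=
  Finsupp.mapRange Matrix.transpose Matrix.transpose_zero (Finsupp.equivMapDomain (Equiv.inv Γ) k)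

omit [Fintype J] [DecidableEq J] in
@[simp] theorem st_apply [Field E] (k : Γ →₀ Matrix J J E) (η : Γ) : st k η = (k η⁻¹)ᵀ := by
  simp [st]

/-- tends to zero at infinity -/
def C0 [NormedField E] (y : Γ → J → E) : Prop := ∀ ε : ℝ, 0 < ε → {γ | ε < ‖y γ‖}.Finite

open Classical in
/-- the generators are approximated by the images of the operators -/
def DenseG [NormedField E] {d : ℕ} (a : Fin d → Γ →₀ Matrix J J E) : Prop :=
  ∀ j : J, ∃ y : Fin d → Γ → J → E, (∀ i, (Function.support (y i)).Finite) ∧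
    ∀ γ, ‖(if γ = 1 then Pi.single j 1 else 0 : J → E) - ∑ i, op (a i) (y i) γ‖ ≤ 1 / 2

end Gam

end Pool.Agent.MP_4d0c14_b
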