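import Pool.Agent.MP_4d0c14_b.GIw

/-! Generators of the positive elements for two and for three blocks. -/

namespace Pool.Agent.MP_4d0c14_b

theorem exists_gen_int {J : Type} [Group J] (φ : J →* Multiplicative ℤ)
    (h : ∃ j, 0 < (φ j).toAdd) :
    ∃ γ, 0 < (φ γ).toAdd ∧ ∀ j, ∃ c : ℤ, (φ j).toAdd = c * (φ γ).toAdd := by
  let S : AddSubgroup ℤ :=
    { carrier := {x | ∃ j, (φ j).toAdd = x}
      add_mem' := by
        rintro _ _ ⟨a, rfl⟩ ⟨b, rfl⟩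
        exact ⟨a * b, by simp⟩
      zero_mem' := ⟨1, by simp⟩
      neg_mem' := by
        rintro _ ⟨a, rfl⟩
        exact ⟨a⁻¹, by simp⟩ }
  obtain ⟨a, ha⟩ := Int.subgroup_cyclic S
  have hmem : ∀ j, ∃ c : ℤ, (φ j).toAdd = c * a := by
    intro j
    have h1 : (φ j).toAdd ∈ S := ⟨j, rfl⟩
    rw [ha, AddSubgroup.mem_closure_singleton] at h1
    obtain ⟨c, hc⟩ := h1
    exact ⟨c, by rw [← hc, zsmul_eq_mul, Int.cast_id]⟩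
  have haS : a ∈ S := by
    rw [ha]
    exact AddSubgroup.subset_closure rfl
  obtain ⟨g, hg⟩ := haS
  rcases lt_trichotomy a 0 with h0 | h0 | h0
  · refine ⟨g⁻¹, by simp [hg, h0], fun j => ?_⟩
    obtain ⟨c, hc⟩ := hmem j
    exact ⟨-c, by simp [hg, hc]⟩
  · obtain ⟨j, hj⟩ := h
    obtain ⟨c, hc⟩ := hmem j
    rw [hc, h0] at hj
    simp at hj
  · refine ⟨g, by rw [hg]; exact h0, fun j => ?_⟩
    obtain ⟨c, hc⟩ := hmem j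
    exact ⟨c, by rw [hg, hc]⟩

theorem exists_gen_int_two {J : Type} [Group J] (φ : J →* Multiplicative (ℤ × ℤ))
    (h₁ : ∃ j, 0 < (φ j).toAdd.1) (h₂ : ∃ j, (φ j).toAdd.1 = 0 ∧ 0 < (φ j).toAdd.2) :
    ∃ γ₁ γ₂, 0 ≤ (φ γ₁).toAdd ∧ 0 ≤ (φ γ₂).toAdd ∧
      ∀ j, ∃ c₁ c₂ : ℤ, (φ j).toAdd = c₁ • (φ γ₁).toAdd + c₂ • (φ γ₂).toAdd := by
  let φ₁ : J →* Multiplicative ℤ :=
    MonoidHom.mk' (fun j => Multiplicative.ofAdd (φ j).toAdd.1) (fun a b => by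
      simp [← ofAdd_add])
  let φ₂ : φ₁.ker →* Multiplicative ℤ :=
    MonoidHom.mk' (fun j => Multiplicative.ofAdd (φ j.1).toAdd.2) (fun a b => by
      simp [← ofAdd_add])
  have hker : ∀ j, j ∈ φ₁.ker ↔ (φ j).toAdd.1 = 0 := fun j => by
    rw [MonoidHom.mem_ker]
    exact ofAdd_eq_one
  obtain ⟨g₁, hg₁, hgen₁⟩ := exists_gen_int φ₁ h₁
  obtain ⟨g₂, hg₂, hgen₂⟩ := exists_gen_int φ₂ (by
    obtain ⟨j, hj, hj'⟩ := h₂
    exact ⟨⟨j, (hker j).2 hj⟩, hj'⟩)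
  have hg₁' : 0 < (φ g₁).toAdd.1 := hg₁
  have hg₂' : 0 < (φ g₂.1).toAdd.2 := hg₂
  have hg₂0 : (φ g₂.1).toAdd.1 = 0 := (hker _).1 g₂.2
  refine ⟨g₁ * g₂.1 ^ |(φ g₁).toAdd.2|, g₂.1, ?_, ?_, fun j => ?_⟩
  · rw [map_mul, map_zpow, toAdd_mul, toAdd_zpow, Prod.le_def]
    simp only [Prod.fst_add, Prod.snd_add, Prod.smul_fst, Prod.smul_snd, Prod.fst_zero,
      Prod.snd_zero, hg₂0, smul_eq_mul, mul_zero, add_zero]
    refine ⟨hg₁'.le, ?_⟩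
    have h1 := neg_abs_le (φ g₁).toAdd.2
    have h2 := abs_nonneg (φ g₁).toAdd.2
    nlinarith
  · rw [Prod.le_def]
    exact ⟨hg₂0.ge, hg₂'.le⟩
  · obtain ⟨c₁, hc₁⟩ := hgen₁ j
    have hc₁' : (φ j).toAdd.1 = c₁ * (φ g₁).toAdd.1 := hc₁
    have hk : j * g₁ ^ (-c₁) ∈ φ₁.ker := by
      rw [hker, map_mul, map_zpow, toAdd_mul, toAdd_zpow]
      simp [hc₁']
    obtain ⟨c₂, hc₂⟩ := hgen₂ ⟨_, hk⟩
    have hc₂' : (φ (j * g₁ ^ (-c₁))).toAdd.2 = c₂ * (φ g₂.1).toAdd.2 := hc₂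
    rw [map_mul, map_zpow, toAdd_mul, toAdd_zpow] at hc₂'
    simp only [Prod.snd_add, Prod.smul_snd, smul_eq_mul] at hc₂'
    refine ⟨c₁, c₂ - c₁ * |(φ g₁).toAdd.2|, ?_⟩
    rw [map_mul, map_zpow, toAdd_mul, toAdd_zpow]
    refine Prod.ext ?_ ?_
    · simp only [Prod.fst_add, Prod.smul_fst, smul_eq_mul, hg₂0, hc₁']
      ring
    · simp only [Prod.snd_add, Prod.smul_snd, smul_eq_mul]
      linear_combination hc₂'

namespace TypeData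

variable {n k m : ℕ} {F E : Type} [NormedField F] [IsUltrametricDist F] [Field E]

theorem exists_slope_hom (D : TypeData n k m F E) (ϖ : Fˣ) (hϖ : ‖(ϖ : F)‖ < 1)
    (hmax : ∀ x : F, ‖x‖ < 1 → ‖x‖ ≤ ‖(ϖ : F)‖) : ∃ φ : D.J →* Multiplicative (Fin k → ℤ),
      ∀ (j : D.J) i, D.sl j i ^ n.factorial = ‖(ϖ : F)‖ ^ (φ j).toAdd i := by
  have h0 : 0 < ‖(ϖ : F)‖ := norm_pos_iff.2 ϖ.ne_zero
  have hex : ∀ (j : D.J) (i : Fin k), ∃ e : ℤ, D.sl j i ^ n.factorial = ‖(ϖ : F)‖ ^ e :=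
    fun j i => D.sl_pow_factorial ϖ (fun x hx => exists_norm_eq_zpow ϖ hϖ hmax hx)
      (D.levi _ j.2) i
  choose e he using hex
  refine ⟨MonoidHom.mk' (fun j => Multiplicative.ofAdd (e j)) (fun a b => ?_), he⟩
  rw [← ofAdd_add]
  congr 1
  funext i
  apply zpow_right_injective₀ h0 hϖ.ne
  change ‖(ϖ : F)‖ ^ e (a * b) i = ‖(ϖ : F)‖ ^ (e a i + e b i)
  rw [zpow_add₀ h0.ne', ← he, ← he, ← he, ← mul_pow, Subgroup.coe_mul,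
    D.sl_mul (D.levi _ a.2) (D.levi _ b.2)]

theorem comm_mem (D : TypeData n k m F E) {r : ℝ} (hr : D.Good r) {j j' : GL (Fin n) F}
    (hj : j ∈ D.J) (hj' : j' ∈ D.J) : (j * j')⁻¹ * (j' * j) ∈ D.HH hr := by
  have h1 : j * j' ∈ D.J := D.J.mul_mem hj hj'
  have h2 : j' * j ∈ D.J := D.J.mul_mem hj' hj
  have h3 : (j * j')⁻¹ * (j' * j) ∈ D.J := D.J.mul_mem (D.J.inv_mem h1) h2
  have h4 : ∀ i, D.sl ((j * j')⁻¹ * (j' * j)) i = 1 := fun i => by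
    rw [D.sl_mul (D.levi _ (D.J.inv_mem h1)) (D.levi _ h2), D.sl_inv (D.levi _ h1),
      D.sl_mul (D.levi _ hj) (D.levi _ hj'), D.sl_mul (D.levi _ hj') (D.levi _ hj),
      mul_comm (D.sl j' i)]
    exact inv_mul_cancel₀ (mul_pos (D.sl_pos (D.levi _ hj) i) (D.sl_pos (D.levi _ hj') i)).ne'
  exact (D.inH_iff_flat hr (D.levi _ h3)).2 ⟨h3, fun i i' => by rw [h4, h4]⟩

omit [IsUltrametricDist F] in
theorem GE5_pos (D : TypeData n k m F E) (ϖ : Fˣ) (hϖ : ‖(ϖ : F)‖ < 1)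
    (φ : D.J →* Multiplicative (Fin k → ℤ))
    (hφ : ∀ (j : D.J) i, D.sl j i ^ n.factorial = ‖(ϖ : F)‖ ^ (φ j).toAdd i) (j : D.J)
    (hj : Monotone (φ j).toAdd) : D.Pos j := by
  have h0 : 0 < ‖(ϖ : F)‖ := norm_pos_iff.2 ϖ.ne_zero
  refine ⟨j.2, fun i i' h => ?_⟩
  have h1 : D.sl j i' ^ n.factorial ≤ D.sl j i ^ n.factorial := by
    rw [hφ, hφ]
    exact (zpow_le_zpow_iff_right_of_lt_one₀ h0 hϖ).2 (hj h)
  exact (pow_le_pow_iff_left₀ (D.sl_pos (D.levi _ j.2) i').le (D.sl_pos (D.levi _ j.2) i).le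
    n.factorial_ne_zero).1 h1

theorem GE5_flat (D : TypeData n k m F E) {r : ℝ} (hr : D.Good r) (ϖ : Fˣ)
    (φ : D.J →* Multiplicative (Fin k → ℤ))
    (hφ : ∀ (j : D.J) i, D.sl j i ^ n.factorial = ‖(ϖ : F)‖ ^ (φ j).toAdd i) (j : D.J)
    (hj : ∀ i i', (φ j).toAdd i = (φ j).toAdd i') : (j : GL (Fin n) F) ∈ D.HH hr := by
  refine (D.inH_iff_flat hr (D.levi _ j.2)).2 ⟨j.2, fun i i' => ?_⟩
  have h1 : D.sl j i ^ n.factorial = D.sl j i' ^ n.factorial := by rw [hφ, hφ, hj i i']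
  exact (pow_left_inj₀ (D.sl_pos (D.levi _ j.2) i).le (D.sl_pos (D.levi _ j.2) i').le
    n.factorial_ne_zero).1 h1

omit [IsUltrametricDist F] in
theorem GE5_cen (D : TypeData n k m F E) (ϖ : Fˣ) (hϖ : ‖(ϖ : F)‖ < 1)
    (φ : D.J →* Multiplicative (Fin k → ℤ))
    (hφ : ∀ (j : D.J) i, D.sl j i ^ n.factorial = ‖(ϖ : F)‖ ^ (φ j).toAdd i) (e : Fin k → ℕ) :
    ∃ j : D.J, ∀ i, (φ j).toAdd i = e i * n.factorial := by
  have h0 : 0 < ‖(ϖ : F)‖ := norm_pos_iff.2 ϖ.ne_zero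
  refine ⟨⟨D.cen fun i => ϖ ^ e i, D.cen_mem _⟩, fun i => ?_⟩
  apply zpow_right_injective₀ h0 hϖ.ne
  change ‖(ϖ : F)‖ ^ _ = ‖(ϖ : F)‖ ^ _
  rw [← hφ, D.sl_cen, Units.val_pow_eq_pow_val, norm_pow, ← pow_mul, ← zpow_natCast]
  simp

variable [ProperSpace F]

theorem exists_gen_two (D : TypeData n 2 m F E) {r : ℝ} (hr : D.Good r) (ϖ : Fˣ)
    (hϖ : ‖(ϖ : F)‖ < 1) (hmax : ∀ x : F, ‖x‖ < 1 → ‖x‖ ≤ ‖(ϖ : F)‖) :
    ∃ γ : Fin 1 → GL (Fin n) F, (D.iw hr ϖ hϖ).Gen γ := by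
  obtain ⟨φ, hφ⟩ := D.exists_slope_hom ϖ hϖ hmax
  let ψ : D.J →* Multiplicative ℤ :=
    MonoidHom.mk' (fun j => Multiplicative.ofAdd ((φ j).toAdd 1 - (φ j).toAdd 0)) (fun a b => by
      rw [← ofAdd_add, map_mul, toAdd_mul, Pi.add_apply, Pi.add_apply]
      congr 1
      ring)
  have hψ : ∀ j, (ψ j).toAdd = (φ j).toAdd 1 - (φ j).toAdd 0 := fun j => rfl
  obtain ⟨g, hg, hgen⟩ := exists_gen_int ψ (by
    obtain ⟨j, hj⟩ := D.GE5_cen ϖ hϖ φ hφ ![0, 1]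
    refine ⟨j, ?_⟩
    rw [hψ, hj, hj]
    simpa using n.factorial_pos)
  refine ⟨fun _ => g, fun _ => D.GE5_pos ϖ hϖ φ hφ g ?_, fun j hj => ?_⟩
  · rw [Fin.monotone_iff_le_succ]
    intro i
    fin_cases i
    have := hψ g
    change (φ g).toAdd 0 ≤ (φ g).toAdd 1
    omega
  · have hjJ : j ∈ D.J := hj.1
    obtain ⟨c, hc⟩ := hgen ⟨j, hjJ⟩
    have hm : (g : GL (Fin n) F) ∈ Submonoid.closure
        (Set.range fun _ : Fin 1 => (g : GL (Fin n) F)) := Submonoid.subset_closure ⟨0, rfl⟩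
    refine ⟨g ^ (-c).toNat, pow_mem hm _, g ^ c.toNat, pow_mem hm _, ?_⟩
    obtain ⟨x, hx⟩ : ∃ x : D.J, x = (g ^ c.toNat)⁻¹ * (⟨j, hjJ⟩ * g ^ (-c).toNat) := ⟨_, rfl⟩
    have h1 : (ψ x).toAdd = 0 := by
      rw [hx]
      simp only [map_mul, map_inv, map_pow, toAdd_mul, toAdd_inv, toAdd_pow, hc, nsmul_eq_mul]
      have h2 := Int.toNat_sub_toNat_neg c
      linear_combination (-(ψ g).toAdd) * h2
    rw [hψ] at h1
    have h3 : ∀ i, (φ x).toAdd i = (φ x).toAdd 0 := by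
      intro i
      fin_cases i
      · rfl
      · exact sub_eq_zero.1 h1
    have h4 := D.GE5_flat hr ϖ φ hφ x fun i i' => by rw [h3 i, h3 i']
    rw [hx] at h4
    exact h4

theorem exists_gen_three (D : TypeData n 3 m F E) {r : ℝ} (hr : D.Good r) (ϖ : Fˣ)
    (hϖ : ‖(ϖ : F)‖ < 1) (hmax : ∀ x : F, ‖x‖ < 1 → ‖x‖ ≤ ‖(ϖ : F)‖) :
    ∃ γ : Fin 2 → GL (Fin n) F, (D.iw hr ϖ hϖ).Gen γ := by
  obtain ⟨φ, hφ⟩ := D.exists_slope_hom ϖ hϖ hmax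
  let ψ : D.J →* Multiplicative (ℤ × ℤ) :=
    MonoidHom.mk' (fun j => Multiplicative.ofAdd
      ((φ j).toAdd 1 - (φ j).toAdd 0, (φ j).toAdd 2 - (φ j).toAdd 1)) (fun a b => by
      rw [← ofAdd_add, map_mul, toAdd_mul, Pi.add_apply, Pi.add_apply, Pi.add_apply,
        Prod.mk_add_mk]
      congr 2 <;> ring)
  have hψ : ∀ j, (ψ j).toAdd =
      ((φ j).toAdd 1 - (φ j).toAdd 0, (φ j).toAdd 2 - (φ j).toAdd 1) := fun j => rfl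
  obtain ⟨g₁, g₂, hg₁, hg₂, hgen⟩ := exists_gen_int_two ψ (by
    obtain ⟨j, hj⟩ := D.GE5_cen ϖ hϖ φ hφ ![0, 1, 1]
    refine ⟨j, ?_⟩
    rw [hψ, hj, hj]
    simpa using n.factorial_pos) (by
    obtain ⟨j, hj⟩ := D.GE5_cen ϖ hϖ φ hφ ![0, 0, 1]
    refine ⟨j, ?_⟩
    rw [hψ, hj, hj, hj]
    simpa using n.factorial_pos)
  have hpos : ∀ g : D.J, 0 ≤ (ψ g).toAdd → D.Pos g := fun g hg => by
    refine D.GE5_pos ϖ hϖ φ hφ g ?_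
    rw [hψ, Prod.le_def] at hg
    obtain ⟨h1, h2⟩ := hg
    rw [Fin.monotone_iff_le_succ]
    intro i
    fin_cases i
    · exact sub_nonneg.1 h1
    · exact sub_nonneg.1 h2
  refine ⟨![g₁, g₂], fun i => ?_, fun j hj => ?_⟩
  · fin_cases i
    · exact hpos g₁ hg₁
    · exact hpos g₂ hg₂
  · have hjJ : j ∈ D.J := hj.1
    obtain ⟨c₁, c₂, hc⟩ := hgen ⟨j, hjJ⟩
    have hm₁ : (g₁ : GL (Fin n) F) ∈ Submonoid.closure
        (Set.range ![(g₁ : GL (Fin n) F), g₂]) := Submonoid.subset_closure ⟨0, rfl⟩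
    have hm₂ : (g₂ : GL (Fin n) F) ∈ Submonoid.closure
        (Set.range ![(g₁ : GL (Fin n) F), g₂]) := Submonoid.subset_closure ⟨1, rfl⟩
    refine ⟨g₁ ^ (-c₁).toNat * g₂ ^ (-c₂).toNat, mul_mem (pow_mem hm₁ _) (pow_mem hm₂ _),
      g₁ ^ c₁.toNat * g₂ ^ c₂.toNat, mul_mem (pow_mem hm₁ _) (pow_mem hm₂ _), ?_⟩
    obtain ⟨x, hx⟩ : ∃ x : D.J, x = (g₁ ^ c₁.toNat * g₂ ^ c₂.toNat)⁻¹ *
      (⟨j, hjJ⟩ * (g₁ ^ (-c₁).toNat * g₂ ^ (-c₂).toNat)) := ⟨_, rfl⟩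
    have h1 : (ψ x).toAdd = 0 := by
      rw [hx]
      simp only [map_mul, map_inv, map_pow, toAdd_mul, toAdd_inv, toAdd_pow, hc]
      have h2 := Int.toNat_sub_toNat_neg c₁
      have h3 := Int.toNat_sub_toNat_neg c₂
      refine Prod.ext ?_ ?_
      · simp only [Prod.fst_add, Prod.fst_neg, Prod.smul_fst, Prod.fst_zero]
        simp only [nsmul_eq_mul, smul_eq_mul]
        linear_combination (-(ψ g₁).toAdd.1) * h2 + (-(ψ g₂).toAdd.1) * h3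
      · simp only [Prod.snd_add, Prod.snd_neg, Prod.smul_snd, Prod.snd_zero]
        simp only [nsmul_eq_mul, smul_eq_mul]
        linear_combination (-(ψ g₁).toAdd.2) * h2 + (-(ψ g₂).toAdd.2) * h3
    rw [hψ, Prod.ext_iff] at h1
    have h4 : (φ x).toAdd 1 = (φ x).toAdd 0 := sub_eq_zero.1 h1.1
    have h5 : (φ x).toAdd 2 = (φ x).toAdd 1 := sub_eq_zero.1 h1.2
    have h6 : ∀ i, (φ x).toAdd i = (φ x).toAdd 0 := by
      intro i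
      fin_cases i
      · rfl
      · exact h4
      · exact h5.trans h4
    have h7 := D.GE5_flat hr ϖ φ hφ x fun i i' => by rw [h6 i, h6 i']
    rw [hx] at h7
    exact h7

end TypeData

end Pool.Agent.MP_4d0c14_b
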