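import Pool.Agent.MP_4d0c14_b.I3

/-! Twisting by a representation `ρ` of the whole group. -/

namespace Pool.Agent.MP_4d0c14_b

open scoped Matrix Kronecker

namespace Iw

variable {G E ι ι₁ : Type} [Group G] [Field E] [Fintype ι] [DecidableEq ι] (D : Iw G E ι)
  [Fintype ι₁] [DecidableEq ι₁] (ρ : G →* Matrix ι₁ ι₁ E)

/-- the right factor of a Kronecker product as an additive map -/
def I4_kr {ι ι₁ E : Type} [Field E] (A : Matrix ι₁ ι₁ E) :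
    Matrix ι ι E →+ Matrix (ι₁ × ι) (ι₁ × ι) E where
  toFun := fun B => A ⊗ₖ B
  map_zero' := Matrix.kronecker_zero A
  map_add' := Matrix.kronecker_add A

/-- a block of a matrix -/
def I4_blk {ι ι₁ E : Type} [Field E] (i i' : ι₁) :
    Matrix (ι₁ × ι) (ι₁ × ι) E →+ Matrix ι ι E where
  toFun := fun M => Matrix.of fun a a' => M (i, a) (i', a')
  map_zero' := rfl
  map_add' := fun _ _ => rfl

omit [DecidableEq ι] in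
theorem I4_blk_mul (i i' : ι₁) (A : Matrix ι ι E) (M : Matrix (ι₁ × ι) (ι₁ × ι) E) :
    I4_blk i i' (((1 : Matrix ι₁ ι₁ E) ⊗ₖ A) * M) = A * I4_blk i i' M := by
  ext a a'
  change (((1 : Matrix ι₁ ι₁ E) ⊗ₖ A) * M) (i, a) (i', a') = ∑ j, A a j * M (i, j) (i', a')
  simp [Matrix.mul_apply, Fintype.sum_prod_type, Matrix.one_apply]

omit [Fintype ι] [DecidableEq ι] [Fintype ι₁] [DecidableEq ι₁] in
theorem I4_blk_ext {M M' : Matrix (ι₁ × ι) (ι₁ × ι) E}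
    (h : ∀ i i', I4_blk i i' M = I4_blk i i' M') : M = M' := by
  ext ⟨i, a⟩ ⟨i', a'⟩
  exact congrFun (congrFun (h i i') a) a'

theorem I4_U_mul (x y : G) (A : Matrix ι ι E) :
    (ρ x ⊗ₖ (1 : Matrix ι ι E)) * (ρ y ⊗ₖ A) = ρ (x * y) ⊗ₖ A := by
  rw [← Matrix.mul_kronecker_mul, one_mul, map_mul]

theorem I4_split (x : G) (A : Matrix ι ι E) :
    ρ x ⊗ₖ A = ((1 : Matrix ι₁ ι₁ E) ⊗ₖ A) * (ρ x ⊗ₖ (1 : Matrix ι ι E)) := by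
  rw [← Matrix.mul_kronecker_mul, one_mul, mul_one]

theorem I4_U_cancel (x : G) (M : Matrix (ι₁ × ι) (ι₁ × ι) E) :
    (ρ x⁻¹ ⊗ₖ (1 : Matrix ι ι E)) * ((ρ x ⊗ₖ (1 : Matrix ι ι E)) * M) = M := by
  rw [← mul_assoc, I4_U_mul, inv_mul_cancel, map_one, Matrix.one_kronecker_one, one_mul]

theorem I4_U_cancel' (x : G) (M : Matrix (ι₁ × ι) (ι₁ × ι) E) :
    (ρ x ⊗ₖ (1 : Matrix ι ι E)) * ((ρ x⁻¹ ⊗ₖ (1 : Matrix ι ι E)) * M) = M := by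
  rw [← mul_assoc, I4_U_mul, mul_inv_cancel, map_one, Matrix.one_kronecker_one, one_mul]

theorem tdel (x : G) : (D.tfib ρ).del x = ρ x⁻¹ ⊗ₖ D.fib.del x := by
  by_cases hx : x ∈ D.H
  · have h1 : x ∈ (D.tfib ρ).H := hx
    have h2 : x ∈ D.fib.H := hx
    simp only [Fib.del, if_pos h1, if_pos h2]
    rfl
  · have h1 : x ∉ (D.tfib ρ).H := hx
    have h2 : x ∉ D.fib.H := hx
    simp only [Fib.del, if_neg h1, if_neg h2, Matrix.kronecker_zero]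

theorem I4_twist_eqv {q : G → Matrix ι ι E} (hq : D.fib.Eqv q) :
    (D.tfib ρ).Eqv fun x => ρ x⁻¹ ⊗ₖ q x := by
  intro x h hh
  change ρ (x * h)⁻¹ ⊗ₖ q (x * h) = (ρ h⁻¹ ⊗ₖ D.lam h⁻¹) * (ρ x⁻¹ ⊗ₖ q x)
  rw [hq x h hh, ← Matrix.mul_kronecker_mul, mul_inv_rev, map_mul]
  rfl

theorem I4_twist_leqv {q : G → Matrix ι ι E} (hq : D.fib.LEqv q) :
    (D.tfib ρ).LEqv fun x => ρ x⁻¹ ⊗ₖ q x := by
  intro x h hh
  change ρ (h * x)⁻¹ ⊗ₖ q (h * x) = (ρ x⁻¹ ⊗ₖ q x) * (ρ h⁻¹ ⊗ₖ D.lam h⁻¹)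
  rw [hq x h hh, ← Matrix.mul_kronecker_mul, mul_inv_rev, map_mul]
  rfl

theorem I4_twist_fin0 {q : G → Matrix ι ι E} (hq : D.fib.Fin0 q) :
    (D.tfib ρ).Fin0 fun x => ρ x⁻¹ ⊗ₖ q x := by
  obtain ⟨T, hT⟩ := hq
  refine ⟨T, fun x hx => hT x fun h0 => hx ?_⟩
  simp only [h0, Matrix.kronecker_zero]

theorem twist_ker {q : G → Matrix ι ι E} (hq : D.fib.Ker q) :
    (D.tfib ρ).Ker fun x => ρ x⁻¹ ⊗ₖ q x :=
  ⟨D.I4_twist_eqv ρ hq.1, D.I4_twist_leqv ρ hq.2.1, D.I4_twist_fin0 ρ hq.2.2⟩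

theorem I4_twist_conv {q q' : G → Matrix ι ι E} (hq : D.fib.Fin0 q ∨ D.fib.Fin0 q') (x : G) :
    (D.tfib ρ).conv (fun x => ρ x⁻¹ ⊗ₖ q x) (fun x => ρ x⁻¹ ⊗ₖ q' x) x =
      ρ x⁻¹ ⊗ₖ D.fib.conv q q' x := by
  have h := (I4_kr (ι := ι) (ρ x⁻¹)).map_finsum (Fib.term_finite hq x)
  refine Eq.trans ?_ h.symm
  refine finsum_congr fun r => ?_
  change (ρ (r.out⁻¹ * x)⁻¹ ⊗ₖ q (r.out⁻¹ * x)) * (ρ r.out⁻¹ ⊗ₖ q' r.out) =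
    ρ x⁻¹ ⊗ₖ (q (r.out⁻¹ * x) * q' r.out)
  rw [← Matrix.mul_kronecker_mul, ← map_mul]
  congr 2
  group

theorem twist_conv {q q' : G → Matrix ι ι E} (hq : D.fib.Fin0 q) (x : G) :
    (D.tfib ρ).conv (fun x => ρ x⁻¹ ⊗ₖ q x) (fun x => ρ x⁻¹ ⊗ₖ q' x) x =
      ρ x⁻¹ ⊗ₖ D.fib.conv q q' x := D.I4_twist_conv ρ (Or.inl hq) x

theorem I4_rel_ker {j : G} (hj : D.Pos j) : D.fib.Ker (D.kap j - D.fib.del) :=
  (D.kap_ker hj).sub Fib.del_ker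

theorem tker_ker {j : G} (hj : D.Pos j) : (D.tfib ρ).Ker (D.tker ρ j) :=
  D.twist_ker ρ (D.I4_rel_ker hj)

theorem I4_conv_rel {j j' : G} (hj : D.Pos j) (hj' : D.Pos j') :
    D.fib.conv (D.kap j - D.fib.del) (D.kap j' - D.fib.del) =
      D.kap (j' * j) - D.kap j' - (D.kap j - D.fib.del) := by
  rw [Fib.conv_sub_right (Or.inl (D.I4_rel_ker hj).2.2), Fib.conv_del (D.I4_rel_ker hj).2.1,
    Fib.conv_sub_left (Or.inr (D.kap_ker hj').2.2), D.conv_kap hj hj',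
    Fib.del_conv (D.kap_ker hj').1]

theorem tker_comm {j j' : G} (hj : D.Pos j) (hj' : D.Pos j') (h : (j * j')⁻¹ * (j' * j) ∈ D.H) :
    (D.tfib ρ).conv (D.tker ρ j) (D.tker ρ j') = (D.tfib ρ).conv (D.tker ρ j') (D.tker ρ j) := by
  funext x
  have h1 := D.twist_conv ρ (q' := D.kap j' - D.fib.del) (D.I4_rel_ker hj).2.2 x
  have h2 := D.twist_conv ρ (q' := D.kap j - D.fib.del) (D.I4_rel_ker hj').2.2 x
  refine h1.trans (Eq.trans ?_ h2.symm)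
  rw [D.I4_conv_rel hj hj', D.I4_conv_rel hj' hj,
    D.kap_congr (D.pos_mul _ _ hj hj') (D.pos_mul _ _ hj' hj) h]
  congr 1
  simp only [Pi.sub_apply]
  abel

theorem I4_phi_leqv : D.fib.LEqv fun z => D.phi z⁻¹ := by
  intro x h hh
  change D.phi (h * x)⁻¹ = D.phi x⁻¹ * D.lam h⁻¹
  rw [mul_inv_rev, D.phi_right (D.H.inv_mem hh)]

theorem I4_tpmap_eq {Y : G → Matrix (ι₁ × ι) (ι₁ × ι) E} (hf : (D.tfib ρ).Fin0 Y) (u : G) :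
    D.tpmap ρ Y u = (ρ u⁻¹ ⊗ₖ (1 : Matrix ι ι E)) *
      (D.tfib ρ).conv (fun z => ρ z⁻¹ ⊗ₖ D.phi z⁻¹) Y u⁻¹ := by
  have h := mul_finsum' _ (ρ u⁻¹ ⊗ₖ (1 : Matrix ι ι E))
    (Fib.term_finite (κ := fun z => ρ z⁻¹ ⊗ₖ D.phi z⁻¹) (Or.inr hf) u⁻¹)
  refine Eq.trans ?_ h.symm
  refine finsum_congr fun r => ?_
  change (ρ r.out ⊗ₖ D.phi (u * r.out)) * Y r.out = (ρ u⁻¹ ⊗ₖ (1 : Matrix ι ι E)) *
    ((ρ (r.out⁻¹ * u⁻¹)⁻¹ ⊗ₖ D.phi (r.out⁻¹ * u⁻¹)⁻¹) * Y r.out)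
  rw [← mul_assoc, I4_U_mul, mul_inv_rev, inv_inv, inv_inv, inv_mul_cancel_left]

theorem tpmap_del (u : G) : D.tpmap ρ (D.tfib ρ).del u = (1 : Matrix ι₁ ι₁ E) ⊗ₖ D.phi u := by
  rw [D.I4_tpmap_eq ρ Fib.del_ker.2.2, Fib.conv_del (D.I4_twist_leqv ρ D.I4_phi_leqv), I4_U_mul,
    inv_inv, inv_mul_cancel, map_one]

theorem tpmap_sub {Y Y' : G → Matrix (ι₁ × ι) (ι₁ × ι) E} (hY : (D.tfib ρ).Fin0 Y)
    (hY' : (D.tfib ρ).Fin0 Y') (u : G) :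
    D.tpmap ρ (Y - Y') u = D.tpmap ρ Y u - D.tpmap ρ Y' u := by
  rw [D.I4_tpmap_eq ρ hY, D.I4_tpmap_eq ρ hY', D.I4_tpmap_eq ρ (hY.sub hY'),
    Fib.conv_sub_right (Or.inr ⟨hY, hY'⟩), Pi.sub_apply, mul_sub]

theorem tpmap_sum {σ : Type} {s : Finset σ} {Y : σ → G → Matrix (ι₁ × ι) (ι₁ × ι) E}
    (hY : ∀ i ∈ s, (D.tfib ρ).Fin0 (Y i)) (u : G) :
    D.tpmap ρ (∑ i ∈ s, Y i) u = ∑ i ∈ s, D.tpmap ρ (Y i) u := by
  rw [D.I4_tpmap_eq ρ (Fib.Fin0.sum hY), Fib.conv_sum_right (Or.inr hY), Finset.sum_apply,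
    Finset.mul_sum]
  exact Finset.sum_congr rfl fun i hi => (D.I4_tpmap_eq ρ (hY i hi) u).symm

theorem tpmap_translate {Y : G → Matrix (ι₁ × ι) (ι₁ × ι) E} (he : (D.tfib ρ).Eqv Y)
    (hf : (D.tfib ρ).Fin0 Y) (g : G) (A : Matrix (ι₁ × ι) (ι₁ × ι) E) (u : G) :
    D.tpmap ρ (fun x => Y (g⁻¹ * x) * A) u =
      (ρ g ⊗ₖ (1 : Matrix ι ι E)) * D.tpmap ρ Y (u * g) * A := by
  rw [D.I4_tpmap_eq ρ (hf.translate g⁻¹ A), D.I4_tpmap_eq ρ hf,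
    Fib.conv_translate (D.I4_twist_leqv ρ D.I4_phi_leqv) he (Or.inr hf), ← mul_assoc, ← mul_assoc,
    I4_U_mul, mul_inv_rev, mul_inv_cancel_left]

theorem tpmap_tker {j : G} (hj : D.Pos j) {Y : G → Matrix (ι₁ × ι) (ι₁ × ι) E}
    (he : (D.tfib ρ).Eqv Y) (hf : (D.tfib ρ).Fin0 Y) (u : G) :
    D.tpmap ρ ((D.tfib ρ).conv (D.tker ρ j) Y) u = 0 := by
  have h0 : (D.tfib ρ).conv (fun z => ρ z⁻¹ ⊗ₖ D.phi z⁻¹) (D.tker ρ j) = 0 := by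
    funext x
    have h1 := D.I4_twist_conv ρ (q := fun z => D.phi z⁻¹) (Or.inr (D.I4_rel_ker hj).2.2) x
    refine h1.trans ?_
    have h2 := D.pmap_eq_conv (D.kap j) x⁻¹
    rw [inv_inv, D.pmap_kap hj] at h2
    rw [Fib.conv_sub_right (Or.inr ⟨(D.kap_ker hj).2.2, Fib.del_ker.2.2⟩),
      Fib.conv_del D.I4_phi_leqv, Pi.sub_apply, ← h2, sub_self, Matrix.kronecker_zero]
    rfl
  rw [D.I4_tpmap_eq ρ (Fib.conv_fin0 (D.tker_ker ρ hj).2.2 hf),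
    Fib.conv_assoc (D.I4_twist_leqv ρ D.I4_phi_leqv) (D.tker_ker ρ hj) he (Or.inr hf), h0]
  simp [Fib.conv]

theorem I4_blk_conv {q : G → Matrix ι ι E} {Y : G → Matrix (ι₁ × ι) (ι₁ × ι) E}
    (hf : (D.tfib ρ).Fin0 Y) (i i' : ι₁) (x : G) :
    I4_blk i i' ((ρ x ⊗ₖ (1 : Matrix ι ι E)) * (D.tfib ρ).conv (fun z => ρ z⁻¹ ⊗ₖ q z) Y x) =
      D.fib.conv q (fun z => I4_blk i i' ((ρ z ⊗ₖ (1 : Matrix ι ι E)) * Y z)) x := by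
  have h := ((I4_blk (ι := ι) i i').comp
    (AddMonoidHom.mulLeft (ρ x ⊗ₖ (1 : Matrix ι ι E)))).map_finsum
    (Fib.term_finite (κ := fun z => ρ z⁻¹ ⊗ₖ q z) (Or.inr hf) x)
  refine h.trans (finsum_congr fun r => ?_)
  change I4_blk i i' ((ρ x ⊗ₖ (1 : Matrix ι ι E)) *
    ((ρ (r.out⁻¹ * x)⁻¹ ⊗ₖ q (r.out⁻¹ * x)) * Y r.out)) =
    q (r.out⁻¹ * x) * I4_blk i i' ((ρ r.out ⊗ₖ (1 : Matrix ι ι E)) * Y r.out)
  rw [← mul_assoc, I4_U_mul, mul_inv_rev, inv_inv, mul_inv_cancel_left, I4_split, mul_assoc,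
    I4_blk_mul]

theorem I4_untw_eqv {Y : G → Matrix (ι₁ × ι) (ι₁ × ι) E} (he : (D.tfib ρ).Eqv Y) (i i' : ι₁) :
    D.fib.Eqv fun z => I4_blk i i' ((ρ z ⊗ₖ (1 : Matrix ι ι E)) * Y z) := by
  intro x h hh
  have h1 : Y (x * h) = (ρ h⁻¹ ⊗ₖ D.lam h⁻¹) * Y x := he x h hh
  change I4_blk i i' ((ρ (x * h) ⊗ₖ (1 : Matrix ι ι E)) * Y (x * h)) =
    D.lam h⁻¹ * I4_blk i i' ((ρ x ⊗ₖ (1 : Matrix ι ι E)) * Y x)
  rw [h1, ← mul_assoc, I4_U_mul, mul_inv_cancel_right, I4_split, mul_assoc, I4_blk_mul]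

theorem I4_untw_fin0 {Y : G → Matrix (ι₁ × ι) (ι₁ × ι) E} (hf : (D.tfib ρ).Fin0 Y) (i i' : ι₁) :
    D.fib.Fin0 fun z => I4_blk i i' ((ρ z ⊗ₖ (1 : Matrix ι ι E)) * Y z) := by
  obtain ⟨T, hT⟩ := hf
  refine ⟨T, fun x hx => hT x fun h0 => hx ?_⟩
  simp only [h0, mul_zero, map_zero]

/-- the matrix with given blocks -/
def I4_asm {ι ι₁ E : Type} (B : ι₁ → ι₁ → Matrix ι ι E) : Matrix (ι₁ × ι) (ι₁ × ι) E :=
  Matrix.of fun p p' => B p.1 p'.1 p.2 p'.2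

omit [Fintype ι] [DecidableEq ι] [Fintype ι₁] [DecidableEq ι₁] in
theorem I4_blk_asm (B : ι₁ → ι₁ → Matrix ι ι E) (i i' : ι₁) : I4_blk i i' (I4_asm B) = B i i' :=
  rfl

theorem I4_tw_eqv {B : ι₁ → ι₁ → G → Matrix ι ι E} (hB : ∀ i i', D.fib.Eqv (B i i')) :
    (D.tfib ρ).Eqv fun x => (ρ x⁻¹ ⊗ₖ (1 : Matrix ι ι E)) * I4_asm fun i i' => B i i' x := by
  intro x h hh
  have h1 : (I4_asm fun i i' => B i i' (x * h)) =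
      ((1 : Matrix ι₁ ι₁ E) ⊗ₖ D.lam h⁻¹) * I4_asm fun i i' => B i i' x :=
    I4_blk_ext fun i i' => by
      rw [I4_blk_mul, I4_blk_asm, I4_blk_asm]
      exact hB i i' x h hh
  change (ρ (x * h)⁻¹ ⊗ₖ (1 : Matrix ι ι E)) * (I4_asm fun i i' => B i i' (x * h)) =
    (ρ h⁻¹ ⊗ₖ D.lam h⁻¹) * ((ρ x⁻¹ ⊗ₖ (1 : Matrix ι ι E)) * I4_asm fun i i' => B i i' x)
  rw [h1, ← mul_assoc, ← mul_assoc, ← Matrix.mul_kronecker_mul, ← Matrix.mul_kronecker_mul,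
    mul_one, one_mul, mul_one, mul_inv_rev, map_mul]

theorem I4_tw_fin0 {B : ι₁ → ι₁ → G → Matrix ι ι E} (hB : ∀ i i', D.fib.Fin0 (B i i')) :
    (D.tfib ρ).Fin0 fun x => (ρ x⁻¹ ⊗ₖ (1 : Matrix ι ι E)) * I4_asm fun i i' => B i i' x := by
  classical
  choose T hT using hB
  refine ⟨Finset.univ.biUnion fun p : ι₁ × ι₁ => T p.1 p.2, fun x hx => ?_⟩
  by_contra hne
  apply hx
  have h1 : (I4_asm fun i i' => B i i' x) = 0 := I4_blk_ext fun i i' => by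
    rw [I4_blk_asm, map_zero]
    by_contra h0
    obtain ⟨t, ht, ht'⟩ := hT i i' x h0
    exact hne ⟨t, Finset.mem_biUnion.2 ⟨(i, i'), Finset.mem_univ _, ht⟩, ht'⟩
  simp only [h1, mul_zero]

theorem tpresentation {d : ℕ} {γ : Fin d → G} (hγ : D.Gen γ)
    {Y : G → Matrix (ι₁ × ι) (ι₁ × ι) E} (he : (D.tfib ρ).Eqv Y) (hf : (D.tfib ρ).Fin0 Y)
    (h0 : ∀ u, D.tpmap ρ Y u = 0) :
    ∃ A : Fin d → G → Matrix (ι₁ × ι) (ι₁ × ι) E,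
      (∀ i, (D.tfib ρ).Eqv (A i) ∧ (D.tfib ρ).Fin0 (A i)) ∧
      Y = ∑ i, (D.tfib ρ).conv (D.tker ρ (γ i)) (A i) := by
  have hrel : ∀ i i' : ι₁,
      (fun z => I4_blk i i' ((ρ z ⊗ₖ (1 : Matrix ι ι E)) * Y z)) ∈ D.Rel := by
    intro i i'
    refine D.mem_rel (D.I4_untw_eqv ρ he i i') (D.I4_untw_fin0 ρ hf i i') fun u => ?_
    have h1 := h0 u
    rw [D.I4_tpmap_eq ρ hf] at h1
    rw [D.pmap_eq_conv, ← D.I4_blk_conv ρ hf, h1, map_zero]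
  choose B hB hBY using fun i i' => D.rel_gen hγ (hrel i i')
  have hfin := fun l => D.I4_tw_fin0 ρ (B := fun i i' => B i i' l) fun i i' => (hB i i' l).2
  refine ⟨fun l x => (ρ x⁻¹ ⊗ₖ (1 : Matrix ι ι E)) * I4_asm fun i i' => B i i' l x,
    fun l => ⟨D.I4_tw_eqv ρ fun i i' => (hB i i' l).1, hfin l⟩, ?_⟩
  funext x
  rw [← I4_U_cancel ρ x (Y x), ← I4_U_cancel ρ x ((∑ i, _ : G → _) x)]
  congr 1
  refine I4_blk_ext fun i i' => ?_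
  refine (congrFun (hBY i i') x).trans ?_
  rw [Finset.sum_apply, Finset.sum_apply, Finset.mul_sum, map_sum]
  refine Finset.sum_congr rfl fun l _ => ?_
  refine Eq.trans ?_ (D.I4_blk_conv ρ (q := D.kap (γ l) - D.fib.del) (hfin l) i i' x).symm
  simp only [I4_U_cancel', I4_blk_asm]

end Iw

end Pool.Agent.MP_4d0c14_b
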