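import Pool.Agent.MP_4d0c14_b.C1

/-! Transport of the density property along an automorphism. -/

namespace Pool.Agent.MP_4d0c14_b

open scoped Matrix

/-- the bijection of coset spaces induced by an automorphism -/
def T1_quot {G : Type} [Group G] (θ : G ≃* G) (H H' : Subgroup G) (hH : ∀ g, g ∈ H' ↔ θ g ∈ H) :
    G ⧸ H' ≃ G ⧸ H :=
  Quotient.congr θ.toEquiv fun a b => by
    rw [QuotientGroup.leftRel_apply, QuotientGroup.leftRel_apply, hH, map_mul, map_inv]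
    rfl

theorem T1_quot_mk {G : Type} [Group G] (θ : G ≃* G) (H H' : Subgroup G)
    (hH : ∀ g, g ∈ H' ↔ θ g ∈ H) (g : G) :
    T1_quot θ H H' hH (g : G ⧸ H') = (θ g : G ⧸ H) := rfl

/-- conjugation by an invertible matrix as an additive equivalence -/
def T1_conj {E ι : Type} [Field E] [Fintype ι] [DecidableEq ι] (S S' : Matrix ι ι E)
    (hS : S' * S = 1) : Matrix ι ι E ≃+ Matrix ι ι E where
  toFun X := S * X * S'
  invFun X := S' * X * S
  left_inv X := by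
    show S' * (S * X * S') * S = X
    rw [← Matrix.mul_assoc, ← Matrix.mul_assoc, hS, Matrix.one_mul, Matrix.mul_assoc, hS,
      Matrix.mul_one]
  right_inv X := by
    have hS' : S * S' = 1 := mul_eq_one_comm.mp hS
    show S * (S' * X * S) * S' = X
    rw [← Matrix.mul_assoc, ← Matrix.mul_assoc, hS', Matrix.one_mul, Matrix.mul_assoc, hS',
      Matrix.mul_one]
  map_add' X Y := by rw [Matrix.mul_add, Matrix.add_mul]

theorem T1_conv {G E ι : Type} [Group G] [Field E]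
    [Fintype ι] [DecidableEq ι] {D D' : Fib G E ι} (θ : G ≃* G) (S S' : Matrix ι ι E)
    (hS : S' * S = 1) (hH : ∀ g, g ∈ D'.H ↔ θ g ∈ D.H) {κ κ' Y : G → Matrix ι ι E}
    (hκ : D.LEqv κ) (hκ' : ∀ x, κ' x = S * κ (θ x) * S') (hY : D.Eqv Y) (x : G) :
    D'.conv κ' (fun y => S * Y (θ y) * S') x = S * D.conv κ Y (θ x) * S' := by
  have e := (T1_conj S S' hS).map_finsum fun q : G ⧸ D.H => κ (q.out⁻¹ * θ x) * Y q.out
  refine Eq.trans ?_ e.symm
  rw [← finsum_comp_equiv (T1_quot θ D.H D'.H hH)]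
  refine finsum_congr fun q => ?_
  have hq : T1_quot θ D.H D'.H hH q = (θ q.out : G ⧸ D.H) := by
    rw [← T1_quot_mk θ D.H D'.H hH, QuotientGroup.out_eq']
  rw [hq, Fib.term_out hκ hY, hκ', map_mul, map_inv]
  show _ = S * _ * S'
  simp only [Matrix.mul_assoc]
  rw [← Matrix.mul_assoc S' S, hS, Matrix.one_mul]

theorem T1_del {G E ι : Type} [Group G] [Field E]
    [Fintype ι] [DecidableEq ι] {D D' : Fib G E ι} (θ : G ≃* G) (S S' : Matrix ι ι E)
    (hH : ∀ g, g ∈ D'.H ↔ θ g ∈ D.H)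
    (hμ : ∀ h ∈ D'.H, D'.μ h = S * D.μ (θ h) * S') (x : G) :
    D'.del x = S * D.del (θ x) * S' := by
  unfold Fib.del
  by_cases hx : x ∈ D'.H
  · rw [if_pos hx, if_pos ((hH x).1 hx), hμ _ (D'.H.inv_mem hx), map_inv]
  · rw [if_neg hx, if_neg (fun h => hx ((hH x).2 h)), Matrix.mul_zero, Matrix.zero_mul]

theorem Fib.Dense.transport {G E ι : Type} [Group G] [NormedField E] [IsUltrametricDist E]
    [Fintype ι] [DecidableEq ι] {D D' : Fib G E ι} (θ : G ≃* G) (S S' : Matrix ι ι E)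
    (hS : S' * S = 1) (hH : ∀ g, g ∈ D'.H ↔ θ g ∈ D.H)
    (hμ : ∀ h ∈ D'.H, D'.μ h = S * D.μ (θ h) * S') {d : ℕ} {κ κ' : Fin d → G → Matrix ι ι E}
    (hκ : ∀ i, D.LEqv (κ i)) (hκ' : ∀ i x, κ' i x = S * κ i (θ x) * S') (h : D.Dense κ) :
    D'.Dense κ' := by
  classical
  intro ε hε
  obtain ⟨C, hC, hSC⟩ := MLe.exists_bound S
  obtain ⟨C', hC', hSC'⟩ := MLe.exists_bound S'
  have hε' : 0 < ε / (C * C') := by positivity
  obtain ⟨Y, hY, hYε⟩ := h _ hε'
  refine ⟨fun i y => S * Y i (θ y) * S', fun i => ⟨fun x g hg => ?_, ?_⟩, fun x => ?_⟩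
  · show S * Y i (θ (x * g)) * S' = D'.μ g⁻¹ * (S * Y i (θ x) * S')
    rw [map_mul, (hY i).1 _ _ ((hH g).1 hg), hμ _ (D'.H.inv_mem hg), map_inv]
    simp only [Matrix.mul_assoc]
    rw [← Matrix.mul_assoc S' S, hS, Matrix.one_mul]
  · obtain ⟨T, hT⟩ := (hY i).2
    refine ⟨T.image θ.symm, fun x hx => ?_⟩
    obtain ⟨t, ht, htx⟩ := hT (θ x) fun h0 => hx (by
      show S * Y i (θ x) * S' = 0
      rw [h0, Matrix.mul_zero, Matrix.zero_mul])
    refine ⟨θ.symm t, Finset.mem_image_of_mem _ ht, ?_⟩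
    rw [hH, map_mul, map_inv, MulEquiv.apply_symm_apply]
    exact htx
  · have e : D'.del x - ∑ i, D'.conv (κ' i) (fun y => S * Y i (θ y) * S') x =
        S * (D.del (θ x) - ∑ i, D.conv (κ i) (Y i) (θ x)) * S' := by
      rw [T1_del θ S S' hH hμ, Matrix.mul_sub, Matrix.sub_mul, Matrix.mul_sum, Matrix.sum_mul]
      congr 1
      exact Finset.sum_congr rfl fun i _ => T1_conv θ S S' hS hH (hκ i) (hκ' i) (hY i).1 x
    rw [e]
    refine ((hSC.mul (hYε (θ x)) hC.le hε'.le).mul hSC' (by positivity) hC'.le).mono (le_of_eq ?_)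
    field_simp

end Pool.Agent.MP_4d0c14_b
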