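import Pool.Agent.MP_4d0c14_b.GIw
import Pool.Agent.MP_4d0c14_b.I4
import Pool.Agent.MP_4d0c14_b.T1

/-! The generators of the induced representation; transposition. -/

namespace Pool.Agent.MP_4d0c14_b

open scoped Matrix Kronecker

namespace TypeData

variable {n k m : ℕ} {F E : Type} [NormedField F] [IsUltrametricDist F] [ProperSpace F]

section aux

variable [Field E] (D : TypeData n k m F E)

omit [IsUltrametricDist F] [ProperSpace F]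

theorem GE6_mem {j : GL (Fin n) F} : tr j ∈ D.transpose.J ↔ j ∈ D.J := by
  change tr (tr j) ∈ D.J ↔ _
  rw [tr_tr]

theorem GE6_mem2 {j : GL (Fin n) F} : j ∈ D.transpose.transpose.J ↔ j ∈ D.J := D.GE6_mem

theorem GE6_dpart (X : Matrix (Fin n) (Fin n) F) : D.transpose.dpart Xᵀ = (D.dpart X)ᵀ := by
  ext a c
  change (if D.b a = D.b c then X c a else 0) = if D.b c = D.b a then X c a else 0
  simp only [eq_comm]

theorem GE6_inH {r : ℝ} (hr : 0 ≤ r) {g : GL (Fin n) F} (h : D.InH r g) :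
    D.transpose.InH r (tr g) := by
  obtain ⟨j, hj, hf, X, hX, hB, hg⟩ := h
  have h1 : tr j ∈ D.transpose.J := D.GE6_mem.2 hj
  have h2 : D.transpose.Flat (tr j) := fun i i' => by rw [D.sl_tr, D.sl_tr, hf i i']
  have h3 := D.transpose.levi _ h1
  refine ⟨tr j, h1, h2, ((tr j)⁻¹ : GL (Fin n) F) * Xᵀ * ((tr j)⁻¹⁻¹ : GL (Fin n) F), ?_, ?_, ?_⟩
  · rw [D.transpose.dpart_mul_levi h3.inv.inv, D.transpose.dpart_levi_mul h3.inv, D.GE6_dpart, hX]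
    simp
  · have := Bd.conj D.transpose (D.bd_tr.2 hB) hr (D.transpose.J.inv_mem h1) zero_le_one
      fun a c _ => by
        rw [D.transpose.sl_inv h3, D.transpose.sl_inv h3, one_mul, h2 (D.transpose.b a)]
    rwa [one_mul] at this
  · rw [inv_inv, Matrix.mul_add, Matrix.mul_one, ← Matrix.mul_assoc, ← Matrix.mul_assoc,
      Units.mul_inv, Matrix.one_mul, coe_tr, coe_tr, hg, Matrix.transpose_mul,
      Matrix.transpose_add, Matrix.transpose_one, Matrix.add_mul, Matrix.one_mul]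

theorem GE6_levi {r : ℝ} {y w : GL (Fin n) F} (hy : IsLevi D.b y) (hw : IsUnip D.b w)
    (h : D.InH r (y * w)) : y ∈ D.J := by
  obtain ⟨j, hj, -, X, hX, -, hg⟩ := h
  have h1 := congrArg D.dpart hg
  have h2 : D.dpart 1 = 1 := D.dpart_unip isUnip_one
  rw [Units.val_mul, D.dpart_levi_mul hy, D.dpart_unip hw, D.dpart_levi_mul (D.levi _ hj),
    D.dpart_add, hX, h2, add_zero, Matrix.mul_one, Matrix.mul_one] at h1
  rwa [Units.ext h1]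

end aux

theorem GE6_kron {ι κ E : Type} [Field E] [Fintype ι] [DecidableEq ι] [Fintype κ] [DecidableEq κ]
    {S : GL ι E} {A A' : Matrix ι ι E} (h : Aᵀ * S = S * A') (B : Matrix κ κ E) :
    (A ⊗ₖ B)ᵀ = ((S : Matrix ι ι E) ⊗ₖ (1 : Matrix κ κ E)) * (A' ⊗ₖ Bᵀ) *
      (((S⁻¹ : GL ι E) : Matrix ι ι E) ⊗ₖ (1 : Matrix κ κ E)) := by
  rw [← Matrix.mul_kronecker_mul, ← Matrix.mul_kronecker_mul, ← h, Matrix.one_mul, Matrix.mul_one,
    Matrix.mul_assoc, Units.mul_inv, Matrix.mul_one, Matrix.kroneckerMap_transpose]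

/-- Inverse transpose. -/
def GE6_theta (n : ℕ) (F : Type) [Field F] : GL (Fin n) F ≃* GL (Fin n) F where
  toFun g := tr g⁻¹
  invFun g := tr g⁻¹
  left_inv g := by simp only [← tr_inv, inv_inv, tr_tr]
  right_inv g := by simp only [← tr_inv, inv_inv, tr_tr]
  map_mul' g h := by rw [mul_inv_rev, tr_mul]

section

variable [Field E] (D : TypeData n k m F E) {r : ℝ} (hr : D.Good r) (ϖ : Fˣ)
  (hϖ : ‖(ϖ : F)‖ < 1)

theorem phi_mem (v : Fin m → E) : (fun u => (D.iw hr ϖ hϖ).phi u *ᵥ v) ∈ indSpace D := by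
  classical
  obtain ⟨r₁, h1, -, h2⟩ := D.near_mem hr
  refine ⟨fun j u g hu => ?_, ⟨r₁, h1, fun h g hh => ?_⟩, fun g => ?_⟩
  · have h3 := (D.iw hr ϖ hϖ).phi_left (p := j * u) ⟨j, j.2, u, hu, rfl⟩ g
    have h4 : (D.iw hr ϖ hϖ).lam (j * u) = D.lam j := D.lamF_mul_unip j.2 hu
    simp only [h3, h4, Matrix.mulVec_mulVec]
  · have h3 := (D.iw hr ϖ hϖ).phi_right (h2 h hh).1 g
    have h4 : (D.iw hr ϖ hϖ).lam h = 1 := (h2 h hh).2
    simp only [h3, h4, Matrix.mul_one]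
  · have key : ∀ x, (D.iw hr ϖ hϖ).phi (x * g) *ᵥ v ≠ 0 →
        ∃ j ∈ D.J, ∃ u, IsUnip D.b u ∧ ∃ h ∈ D.HH hr, x * g = j * u * h := by
      intro x hx
      by_contra hc
      refine hx ?_
      rw [(D.iw hr ϖ hϖ).phi_eq_zero, Matrix.zero_mulVec]
      rintro ⟨_, ⟨j, hj, u, hu, rfl⟩, h, hh, e⟩
      exact hc ⟨j, hj, u, hu, h, hh, e⟩
    by_cases h0 : ∃ x₀, IsLevi D.b x₀ ∧ (D.iw hr ϖ hϖ).phi (x₀ * g) *ᵥ v ≠ 0
    · obtain ⟨x₀, hx₀, h0⟩ := h0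
      obtain ⟨j₀, hj₀, u₀, hu₀, h₀, hh₀, e₀⟩ := key x₀ h0
      refine ⟨{x₀}, fun x hx h3 => ⟨x₀, Finset.mem_singleton_self _, ?_⟩⟩
      obtain ⟨j, hj, u, hu, h, hh, e⟩ := key x h3
      have hy : IsLevi D.b (j⁻¹ * (x * x₀⁻¹) * j₀) :=
        ((D.levi _ hj).inv.mul (hx.mul hx₀.inv)).mul (D.levi _ hj₀)
      have h4 : j⁻¹ * (x * x₀⁻¹) * j₀ *
          ((j⁻¹ * (x * x₀⁻¹) * j₀)⁻¹ * u⁻¹ * (j⁻¹ * (x * x₀⁻¹) * j₀)⁻¹⁻¹ * u₀) = h * h₀⁻¹ := by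
        rw [eq_mul_inv_of_mul_eq e, eq_mul_inv_of_mul_eq e₀]
        group
      have h5 := D.GE6_levi (r := r) hy ((hu.inv.conj hy.inv).mul hu₀)
        (h4 ▸ (D.HH hr).mul_mem hh ((D.HH hr).inv_mem hh₀))
      have h6 := D.J.mul_mem (D.J.mul_mem hj h5) (D.J.inv_mem hj₀)
      rwa [show j * (j⁻¹ * (x * x₀⁻¹) * j₀) * j₀⁻¹ = x * x₀⁻¹ by group] at h6
    · exact ⟨∅, fun x hx h3 => (h0 ⟨x, hx, h3⟩).elim⟩

omit [IsUltrametricDist F] [ProperSpace F] in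
theorem Good.transpose (hr : D.Good r) : D.transpose.Good r := by
  refine ⟨hr.1, hr.2.1, fun g hg hn => ?_⟩
  obtain ⟨h1, h2⟩ := hr.2.2 (tr g) (IsLevi.tr hg) hn.tr
  exact ⟨h1, (congrArg Matrix.transpose h2).trans Matrix.transpose_one⟩

omit [IsUltrametricDist F] [ProperSpace F] in
theorem inH_tr (hr : D.Good r) (g : GL (Fin n) F) : D.transpose.InH r (tr g) ↔ D.InH r g := by
  refine ⟨fun h => ?_, D.GE6_inH hr.1.le⟩
  obtain ⟨j, hj, hf, X, hX, hB, hg⟩ := D.transpose.GE6_inH hr.1.le h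
  exact ⟨j, D.GE6_mem2.1 hj, hf, X, hX,
    fun a ha a' ha' => hB a (D.GE6_mem2.2 ha) a' (D.GE6_mem2.2 ha'), hg⟩

omit [IsUltrametricDist F] [ProperSpace F] in
theorem lamF_tr (g : GL (Fin n) F) : D.transpose.lamF (tr g) = (D.lamF g)ᵀ := by
  by_cases h : ∃ j : D.J, ((j : GL (Fin n) F) : Matrix (Fin n) (Fin n) F) = D.dpart g
  · obtain ⟨⟨j, hj⟩, h⟩ := h
    rw [D.lamF_eq hj h, D.transpose.lamF_eq (D.GE6_mem.2 hj)
      (by rw [coe_tr, coe_tr, D.GE6_dpart, ← h])]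
    exact congrArg (fun x => (D.lam x)ᵀ) (Subtype.ext (tr_tr j))
  · have h' : ¬∃ j : D.transpose.J, ((j : GL (Fin n) F) : Matrix (Fin n) (Fin n) F) =
        D.transpose.dpart (tr g : GL (Fin n) F) := by
      rintro ⟨j, hj⟩
      refine h ⟨⟨tr j.1, j.2⟩, ?_⟩
      rw [coe_tr, hj, coe_tr, D.GE6_dpart, Matrix.transpose_transpose]
    rw [lamF, lamF, dif_neg h, dif_neg h', Matrix.transpose_zero]

omit [IsUltrametricDist F] [ProperSpace F] in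
theorem pos_tr (j : GL (Fin n) F) : D.transpose.Pos (tr j) ↔ D.Pos j := by
  have h : D.transpose.sl (tr j) = D.sl j := funext (D.sl_tr j)
  rw [Pos, Pos, h, D.GE6_mem]

theorem kap_tr {j : GL (Fin n) F} (hj : D.Pos j) (x : GL (Fin n) F) :
    (D.transpose.iw (Good.transpose D hr) ϖ hϖ).kap (tr j) (tr x) =
      ((D.iw hr ϖ hϖ).kap j x)ᵀ := by
  by_cases h : ∃ h ∈ D.HH hr, ∃ h' ∈ D.HH hr, x = h * j * h'
  · obtain ⟨h, hh, h', hh', rfl⟩ := h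
    rw [(D.iw hr ϖ hϖ).kap_mul hj hh hh', tr_mul, tr_mul, ← mul_assoc,
      (D.transpose.iw (Good.transpose D hr) ϖ hϖ).kap_mul ((D.pos_tr j).2 hj)
        ((D.inH_tr hr h').2 hh') ((D.inH_tr hr h).2 hh), Matrix.transpose_mul,
      Matrix.transpose_mul, ← tr_inv, ← tr_inv, ← tr_inv, ← Matrix.mul_assoc]
    change D.transpose.lamF _ * D.transpose.lamF _ * D.transpose.lamF _ = _
    rw [D.lamF_tr, D.lamF_tr, D.lamF_tr]
    rfl
  · rw [(D.iw hr ϖ hϖ).kap_eq_zero h, (D.transpose.iw (Good.transpose D hr) ϖ hϖ).kap_eq_zero,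
      Matrix.transpose_zero]
    rintro ⟨a, ha, a', ha', e⟩
    refine h ⟨tr a', (D.inH_tr hr _).1 (by rwa [tr_tr]), tr a, (D.inH_tr hr _).1 (by rwa [tr_tr]),
      ?_⟩
    rw [← tr_tr x, e, tr_mul, tr_mul, tr_tr, mul_assoc]

theorem gen_tr {d : ℕ} {γ : Fin d → GL (Fin n) F} (h : (D.iw hr ϖ hϖ).Gen γ) :
    (D.transpose.iw (Good.transpose D hr) ϖ hϖ).Gen fun i => tr (γ i) := by
  have key : ∀ a ∈ Submonoid.closure (Set.range γ),
      a ∈ D.J ∧ tr a ∈ Submonoid.closure (Set.range fun i => tr (γ i)) := by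
    intro a ha
    induction ha using Submonoid.closure_induction with
    | mem x hx =>
      obtain ⟨i, rfl⟩ := hx
      exact ⟨(h.1 i).1, Submonoid.subset_closure ⟨i, rfl⟩⟩
    | one => exact ⟨D.J.one_mem, by rw [tr_one]; exact Submonoid.one_mem _⟩
    | mul x y _ _ hx hy =>
      exact ⟨D.J.mul_mem hx.1 hy.1, (tr_mul x y).symm ▸ Submonoid.mul_mem _ hy.2 hx.2⟩
  refine ⟨fun i => (D.pos_tr _).2 (h.1 i), fun j hj => ?_⟩
  have hj' : D.Pos (tr j) := (D.pos_tr _).1 (by rwa [tr_tr])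
  obtain ⟨a, ha, b, hb, h1⟩ := h.2 _ hj'
  refine ⟨tr a, (key a ha).2, tr b, (key b hb).2, ?_⟩
  have la := D.levi _ (key a ha).1
  have lb := (D.levi _ (key b hb).1).inv
  have lj := D.levi _ hj'.1
  have h2 := ((D.inH_iff_flat hr (lb.mul (lj.mul la))).1 h1).2
  have h3 : D.InH r (a * tr j * b⁻¹) := (D.inH_iff_flat hr ((la.mul lj).mul lb)).2
    ⟨D.J.mul_mem (D.J.mul_mem (key a ha).1 hj'.1) (D.J.inv_mem (key b hb).1), fun i i' => by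
      have := h2 i i'
      rw [D.sl_mul lb (lj.mul la), D.sl_mul lb (lj.mul la), D.sl_mul lj la, D.sl_mul lj la] at this
      rw [D.sl_mul (la.mul lj) lb, D.sl_mul (la.mul lj) lb, D.sl_mul la lj, D.sl_mul la lj]
      linear_combination this⟩
  have h4 := (D.inH_tr hr _).2 h3
  rwa [tr_mul, tr_mul, tr_tr, tr_inv] at h4

end

theorem dense_dual [NormedField E] [IsUltrametricDist E] (D : TypeData n k m F E) {r : ℝ}
    (hr : D.Good r) (ϖ : Fˣ) (hϖ : ‖(ϖ : F)‖ < 1) {N : ℕ}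
    (ρ : GL (Fin n) F →* Matrix (Fin N) (Fin N) E)
    (hform : ∃ S : GL (Fin N) E, ∀ g, (ρ g)ᵀ * S = S * ρ (tr g)) {d : ℕ}
    {γ : Fin d → GL (Fin n) F} (hγ : ∀ i, D.Pos (γ i))
    (h : ((D.transpose.iw (Good.transpose D hr) ϖ hϖ).tfib ρ).Dense
      fun i => (D.transpose.iw (Good.transpose D hr) ϖ hϖ).tker ρ (tr (γ i))) :
    ((D.iw hr ϖ hϖ).tfib ρ).dual.Dense fun i => dK ((D.iw hr ϖ hϖ).tker ρ (γ i)) := by
  obtain ⟨S, hS⟩ := hform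
  refine Fib.Dense.transport (GE6_theta n F)
    ((S : Matrix (Fin N) (Fin N) E) ⊗ₖ (1 : Matrix (Fin m) (Fin m) E))
    (((S⁻¹ : GL (Fin N) E) : Matrix (Fin N) (Fin N) E) ⊗ₖ (1 : Matrix (Fin m) (Fin m) E))
    ?_ (fun g => ?_) (fun g _ => ?_) (fun i => ?_) (fun i x => ?_) h
  · rw [← Matrix.mul_kronecker_mul, Units.inv_mul, Matrix.one_mul, Matrix.one_kronecker_one]
  · exact (D.HH hr).inv_mem_iff.symm.trans (D.inH_tr hr g⁻¹).symm
  · change (ρ g⁻¹ ⊗ₖ D.lamF g⁻¹)ᵀ = _ * (ρ (tr g⁻¹) ⊗ₖ D.transpose.lamF (tr g⁻¹)) * _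
    rw [D.lamF_tr, GE6_kron (hS g⁻¹)]
  · exact ((D.transpose.iw (Good.transpose D hr) ϖ hϖ).tker_ker ρ ((D.pos_tr _).2 (hγ i))).2.1
  · have h1 := D.kap_tr hr ϖ hϖ D.pos_one x⁻¹
    rw [tr_one, Iw.kap_one, Iw.kap_one] at h1
    change (ρ x⁻¹⁻¹ ⊗ₖ ((D.iw hr ϖ hϖ).kap (γ i) x⁻¹ - (D.iw hr ϖ hϖ).fib.del x⁻¹))ᵀ =
      _ * (ρ (tr x⁻¹)⁻¹ ⊗ₖ ((D.transpose.iw (Good.transpose D hr) ϖ hϖ).kap (tr (γ i)) (tr x⁻¹) -
        (D.transpose.iw (Good.transpose D hr) ϖ hϖ).fib.del (tr x⁻¹))) * _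
    rw [D.kap_tr hr ϖ hϖ (hγ i), h1, ← Matrix.transpose_sub, ← tr_inv, GE6_kron (hS _)]

end TypeData

end Pool.Agent.MP_4d0c14_b
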