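import Pool.Agent.MP_4d0c14_b.Lat

/-! The lattice is discrete and residually finite. -/

namespace Pool.Agent.MP_4d0c14_b

open scoped Matrix

variable {p n d : ℕ} {F S : Type} [NormedField F] [CommRing S] [StarRing S] {j : S →+* F}
  {bas : Module.Basis (Fin d) ℤ S} {t : S →+ ℝ}

omit [StarRing S] in
theorem L3_tf (bas : Module.Basis (Fin d) ℤ S) {s : S} {a : ℤ} (ha : a ≠ 0) (h : a • s = 0) :
    s = 0 := by
  apply bas.repr.injective
  ext i
  have h2 := congrArg (fun z => bas.repr z i) h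
  simp only [map_zsmul, Finsupp.smul_apply, smul_eq_mul, map_zero, Finsupp.zero_apply] at h2
  simpa using (mul_eq_zero.1 h2).resolve_left ha

theorem L3_zero (h : IsOrd p j bas t) {s : S} (hs : t (star s * s) = 0) : s = 0 := by
  have hsub : Set.range (fun k : ℤ => k • s) ⊆ {s | t (star s * s) ≤ 0} := by
    rintro _ ⟨k, rfl⟩
    have e : star (k • s) * (k • s) = (k * k) • (star s * s) := by
      rw [star_zsmul, smul_mul_smul_comm]
    simp only [Set.mem_ofPred_eq, e, map_zsmul, hs, smul_zero, le_refl]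
  by_contra hne
  refine Set.infinite_range_of_injective (f := fun k : ℤ => k • s) ?_ ((h.fin 0).subset hsub)
  intro a b hab
  by_contra hab'
  exact hne (L3_tf bas (sub_ne_zero.2 hab') (by rw [sub_smul]; exact sub_eq_zero.2 hab))

theorem IsOrd.eq_zero (h : IsOrd p j bas t) {x : Fin n → S} (hx : ∑ i, star (x i) * x i = 0) :
    x = 0 := by
  have h1 : ∑ i, t (star (x i) * x i) = 0 := by rw [← map_sum, hx, map_zero]
  funext i
  exact L3_zero h ((Finset.sum_eq_zero_iff_of_nonneg fun i _ => h.nonneg (x i)).1 h1 i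
    (Finset.mem_univ i))

omit [StarRing S] in
theorem L3_map_smul {R : Type} [CommRing R] (φ : S →+* R) (e : ℕ)
    (X : Matrix (Fin n) (Fin n) S) : ((p : S) ^ e • X).map φ = (p : R) ^ e • X.map φ := by
  ext a b
  simp

theorem L3_ct_smul (e : ℕ) (X : Matrix (Fin n) (Fin n) S) :
    ((p : S) ^ e • X)ᴴ = (p : S) ^ e • Xᴴ := by
  ext a b
  simp [mul_comm]

theorem L3_up {g : GL (Fin n) F} {m : ℕ} {X : Matrix (Fin n) (Fin n) S} (hX : Repr p j g m X)
    (e : ℕ) : Repr p j g (e + m) ((p : S) ^ e • X) := by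
  constructor
  · rw [L3_map_smul, ← hX.1, smul_smul, pow_add]
  · rw [L3_ct_smul, L3_map_smul, ← hX.2, smul_smul, pow_add]

theorem L3_down (hp0 : (p : F) ≠ 0) {g : GL (Fin n) F} {m e : ℕ} {X : Matrix (Fin n) (Fin n) S}
    (hX : Repr p j g (e + m) ((p : S) ^ e • X)) : Repr p j g m X := by
  have hi := smul_right_injective (Matrix (Fin n) (Fin n) F) (pow_ne_zero e hp0)
  constructor
  · apply hi
    have h1 := hX.1
    rw [L3_map_smul, pow_add, ← smul_smul] at h1
    exact h1
  · apply hi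
    have h1 := hX.2
    rw [L3_ct_smul, L3_map_smul, pow_add, ← smul_smul] at h1
    exact h1

theorem L3_unif (h : IsOrd p j bas t) (hp0 : (p : F) ≠ 0) (hp : ‖(p : F)‖ < 1) (C : ℝ) :
    ∃ m0 : ℕ, ∀ g ∈ Gam p n j, Bnd C g → ∃ X, Repr p j g m0 X := by
  obtain ⟨c, hc⟩ := h.sat
  have hM : 0 < max C 1 := lt_max_of_lt_right one_pos
  obtain ⟨c', hc'⟩ := exists_pow_lt_of_lt_one (one_div_pos.2 hM) hp
  rw [lt_div_iff₀ hM] at hc'
  refine ⟨c + c', ?_⟩
  rintro g ⟨-, m, X, hX⟩ hg
  rcases le_total m (c + c') with hm | hm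
  · obtain ⟨e, he⟩ := Nat.exists_eq_add_of_le' hm
    exact ⟨_, he ▸ L3_up hX e⟩
  · obtain ⟨e, rfl⟩ := Nat.exists_eq_add_of_le' hm
    have key : ∀ y : F, ‖y‖ ≤ C → ‖(p : F) ^ (e + (c + c')) * y‖ ≤ ‖(p : F)‖ ^ (e + c) := by
      intro y hy
      rw [norm_mul, norm_pow, ← add_assoc, pow_add, mul_assoc]
      refine mul_le_of_le_one_right (by positivity) (le_trans ?_ hc'.le)
      exact mul_le_mul_of_nonneg_left (hy.trans (le_max_left _ _)) (by positivity)
    have hdiv : ∀ a b, ∃ s', X a b = (p : S) ^ e * s' := by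
      intro a b
      apply hc e
      · have e1 := congrFun (congrFun hX.1 a) b
        rw [Matrix.smul_apply, Matrix.map_apply, smul_eq_mul] at e1
        rw [← e1]
        exact key _ (hg a b).1
      · have e1 := congrFun (congrFun hX.2 b) a
        rw [Matrix.smul_apply, Matrix.map_apply, smul_eq_mul, Matrix.conjTranspose_apply] at e1
        rw [← e1]
        exact key _ (hg b a).2
    choose X' hX' using hdiv
    have e2 : X = (p : S) ^ e • Matrix.of X' := by
      ext a b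
      simp [hX']
    exact ⟨Matrix.of X', L3_down hp0 (e2 ▸ hX)⟩

theorem L3_gram (h : IsOrd p j bas t) {g : GL (Fin n) F} {m : ℕ} {X : Matrix (Fin n) (Fin n) S}
    (hX : Repr p j g m X) (a b : Fin n) : t (star (X a b) * X a b) ≤ t ((p : S) ^ (m + m)) := by
  have h1 : Xᴴ * X = (p : S) ^ (m + m) • (1 : Matrix (Fin n) (Fin n) S) := by
    apply Matrix.map_injective h.inj
    simp only
    rw [Matrix.map_mul, L3_map_smul, ← hX.1, ← hX.2, Matrix.smul_mul, Matrix.mul_smul, smul_smul,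
      ← Units.val_mul, inv_mul_cancel, pow_add, Matrix.map_one _ (map_zero j) (map_one j)]
    rfl
  have h2 := congrFun (congrFun h1 b) b
  simp only [Matrix.mul_apply, Matrix.conjTranspose_apply, Matrix.smul_apply,
    Matrix.one_apply_eq, smul_eq_mul, mul_one] at h2
  rw [← h2, map_sum]
  exact Finset.single_le_sum (f := fun a => t (star (X a b) * X a b))
    (fun a _ => h.nonneg _) (Finset.mem_univ a)

theorem IsOrd.finite_bnd (h : IsOrd p j bas t) (hp0 : (p : F) ≠ 0) (hp : ‖(p : F)‖ < 1) (C : ℝ) :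
    {g | g ∈ Gam p n j ∧ Bnd C g}.Finite := by
  obtain ⟨m, hm⟩ := L3_unif (n := n) h hp0 hp C
  have hT : {X : Matrix (Fin n) (Fin n) S | ∀ a, X a ∈
      {r : Fin n → S | ∀ b, r b ∈ {s | t (star s * s) ≤ t ((p : S) ^ (m + m))}}}.Finite :=
    Set.Finite.pi' fun _ => Set.Finite.pi' fun _ => h.fin _
  refine (hT.biUnion (t := fun X => {g | Repr p j g m X}) fun X _ => ?_).subset ?_
  · refine Set.Subsingleton.finite fun g hg g' hg' => Units.ext ?_
    exact smul_right_injective (Matrix (Fin n) (Fin n) F) (pow_ne_zero m hp0)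
      (hg.1.trans hg'.1.symm)
  · rintro g ⟨hg, hb⟩
    obtain ⟨X, hX⟩ := hm g hg hb
    exact Set.mem_iUnion₂.2 ⟨X, fun a b => L3_gram h hX a b, hX⟩

theorem L3_indep (h : IsOrd p j bas t) {R : Type} [CommRing R] (φ : S →+* R) {u : R}
    (hu : u * (p : R) = 1) {g : GL (Fin n) F} {m m' : ℕ} {X X' : Matrix (Fin n) (Fin n) S}
    (hX : Repr p j g m X) (hX' : Repr p j g m' X') : u ^ m • X.map φ = u ^ m' • X'.map φ := by
  have h1 : (p : S) ^ m' • X = (p : S) ^ m • X' := by
    apply Matrix.map_injective h.inj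
    simp only
    rw [← (L3_up hX m').1, ← (L3_up hX' m).1, add_comm]
  have h2 := congrArg (fun Y : Matrix (Fin n) (Fin n) S => (u ^ m * u ^ m') • Y.map φ) h1
  simp only [L3_map_smul, smul_smul] at h2
  have e1 : u ^ m * u ^ m' * (p : R) ^ m' = u ^ m := by
    rw [mul_assoc, ← mul_pow, hu, one_pow, mul_one]
  have e2 : u ^ m * u ^ m' * (p : R) ^ m = u ^ m' := by
    rw [mul_right_comm, ← mul_pow, hu, one_pow, one_mul]
  rwa [e1, e2] at h2

theorem L3_hom (h : IsOrd p j bas t) {R : Type} [CommRing R] (φ : S →+* R) {u : R}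
    (hu : u * (p : R) = 1) : ∃ f : Gam p n j →* Matrix (Fin n) (Fin n) R,
      ∀ (g : Gam p n j) m X, Repr p j (g : GL (Fin n) F) m X → f g = u ^ m • X.map φ := by
  choose M Y hY using fun g : Gam p n j => g.2.2
  have key : ∀ (g : Gam p n j) m X, Repr p j (g : GL (Fin n) F) m X →
      u ^ M g • (Y g).map φ = u ^ m • X.map φ := fun g m X hX => L3_indep h φ hu (hY g) hX
  refine ⟨⟨⟨fun g => u ^ M g • (Y g).map φ, ?_⟩, fun g g' => ?_⟩, key⟩
  · rw [key 1 0 1 ⟨by simp, by simp⟩]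
    simp
  · simp only
    rw [key (g * g') _ _ ((hY g).mul (hY g')), Matrix.map_mul, Matrix.smul_mul, Matrix.mul_smul,
      smul_smul, pow_add]

theorem IsOrd.residuallyFinite (h : IsOrd p j bas t) (hp0 : (p : F) ≠ 0) :
    Group.ResiduallyFinite (Gam p n j) := by
  refine Group.residuallyFinite_of_forall_exists_finite_monoidHom.{_, 0} fun g hg => ?_
  obtain ⟨-, m, X, hX⟩ := g.2
  have hne : ∃ a b i, bas.repr ((X - (p : S) ^ m • (1 : Matrix (Fin n) (Fin n) S)) a b) i ≠ 0 := by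
    by_contra hcon
    push Not at hcon
    have h0 : X = (p : S) ^ m • (1 : Matrix (Fin n) (Fin n) S) := by
      rw [← sub_eq_zero]
      ext a b
      apply bas.repr.injective
      ext i
      simpa using hcon a b i
    apply hg
    refine Subtype.ext (Units.ext ?_)
    apply smul_right_injective (Matrix (Fin n) (Fin n) F) (pow_ne_zero m hp0)
    simp only
    rw [hX.1, h0, L3_map_smul, Matrix.map_one _ (map_zero j) (map_one j)]
    rfl
  obtain ⟨a, b, i, hk⟩ := hne
  set s := (X - (p : S) ^ m • (1 : Matrix (Fin n) (Fin n) S)) a b with hs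
  set k : ℤ := bas.repr s i with hkd
  have hp1 : (1 : ℤ) ≤ p := by
    rcases Nat.eq_zero_or_pos p with rfl | h1
    · exact absurd Nat.cast_zero hp0
    · exact_mod_cast h1
  have hlt : |k| < p * |k| + 1 := by nlinarith [abs_nonneg k]
  have hN0 : (p : ℤ) * |k| + 1 ≠ 0 := ((abs_nonneg k).trans_lt hlt).ne'
  have : IsDomain S := h.inj.isDomain j
  have : Module.Free ℤ S := Module.Free.of_basis bas
  have : Module.Finite ℤ S := Module.Finite.of_basis bas
  let I : Ideal S := Ideal.span {(((p : ℤ) * |k| + 1 : ℤ) : S)}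
  have hI : I ≠ ⊥ := by
    rw [Ne, Ideal.span_singleton_eq_bot]
    intro h0
    exact one_ne_zero (L3_tf bas (s := (1 : S)) hN0 (by rw [zsmul_one]; exact h0))
  have : Finite (S ⧸ I) := I.finiteQuotientOfFreeOfNeBot hI
  have hu : ((-|k| : ℤ) : S ⧸ I) * (p : S ⧸ I) = 1 := by
    have h0 : Ideal.Quotient.mk I (((p : ℤ) * |k| + 1 : ℤ) : S) = 0 :=
      Ideal.Quotient.eq_zero_iff_mem.2 (Ideal.mem_span_singleton_self _)
    rw [map_intCast] at h0
    push_cast at h0 ⊢
    linear_combination -h0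
  obtain ⟨f, hf⟩ := L3_hom (n := n) h (Ideal.Quotient.mk I) hu
  refine ⟨(Matrix (Fin n) (Fin n) (S ⧸ I))ˣ, inferInstance, inferInstance, f.toHomUnits, ?_⟩
  intro h1
  have h2 : f g = 1 := congrArg Units.val h1
  rw [hf g m X hX] at h2
  have h3 : X.map (Ideal.Quotient.mk I) = (p : S ⧸ I) ^ m • (1 : Matrix (Fin n) (Fin n) (S ⧸ I)) := by
    rw [← h2, smul_smul, ← mul_pow, mul_comm, hu, one_pow, one_smul]
  have h4 : Ideal.Quotient.mk I s = 0 := by
    have e1 := congrFun (congrFun h3 a) b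
    have e2 := congrFun (congrFun (L3_map_smul (p := p) (Ideal.Quotient.mk I) m
      (1 : Matrix (Fin n) (Fin n) S)) a) b
    rw [Matrix.map_one _ (map_zero _) (map_one _), ← e1, Matrix.map_apply, Matrix.map_apply] at e2
    rw [hs, Matrix.sub_apply, map_sub, e2, sub_self]
  obtain ⟨s', hs'⟩ := Ideal.mem_span_singleton'.1 (Ideal.Quotient.eq_zero_iff_mem.1 h4)
  have h5 : ((p : ℤ) * |k| + 1) ∣ k := by
    refine ⟨bas.repr s' i, ?_⟩
    conv_lhs => rw [hkd, ← hs', mul_comm, ← zsmul_eq_mul, map_zsmul]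
    rfl
  exact hk (Int.eq_zero_of_abs_lt_dvd h5 hlt)

end Pool.Agent.MP_4d0c14_b
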