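import Pool.Agent.MP_4d0c14_b.L5
import Pool.Agent.MP_4d0c14_b.M1
import Pool.Agent.MP_4d0c14_b.M3

/-! The lattice is cocompact modulo the centre. -/

namespace Pool.Agent.MP_4d0c14_b

open scoped Matrix

/-- two frames with the same Gram matrix which are congruent differ by an element with only
`p` in the denominators -/
theorem repr_of_congr {p n : ℕ} {F S : Type} [Field F] [CommRing S] [StarRing S] {j : S →+* F}
    (hj : Function.Injective j) (hp : (p : F) ≠ 0) {c M M' e : ℕ}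
    {X X' W G₀ : Matrix (Fin n) (Fin n) S} {δ Δ : S} {Y Y' : GL (Fin n) F}
    (hY : (p : F) ^ M • (Y : Matrix (Fin n) (Fin n) F) = X.map j)
    (hY' : (p : F) ^ M' • (Y' : Matrix (Fin n) (Fin n) F) = X'.map j)
    (hG : (p : S) ^ c • (Xᴴ * X) = (p : S) ^ (2 * M) • G₀)
    (hG' : (p : S) ^ c • (X'ᴴ * X') = (p : S) ^ (2 * M') • G₀)
    (hδ : G₀.det * δ = (p : S) ^ e * Δ) (hΔ : Δ ≠ 0)
    (hW : (p : S) ^ M • X' = (p : S) ^ M' • X + Δ • W) :
    ∃ m Z, Repr p j (Y' * Y⁻¹) m Z := by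
  have hm : ∀ (a : S) (A : Matrix (Fin n) (Fin n) S), (a • A).map j = j a • A.map j :=
    fun a A => by ext; simp
  have ha : ∀ A B : Matrix (Fin n) (Fin n) S, (A + B).map j = A.map j + B.map j :=
    fun A B => by ext; simp
  have hc : ∀ (k : ℕ) {A B : Matrix (Fin n) (Fin n) F}, (p : F) ^ k • A = (p : F) ^ k • B → A = B :=
    fun k _ _ h => smul_right_injective _ (pow_ne_zero k hp) h
  have h1 : (p : F) ^ c • (Xᴴ.map j * Y) = (p : F) ^ M • G₀.map j := by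
    have := congrArg (fun A => Matrix.map A j) hG
    simp only [hm, Matrix.map_mul, map_pow, map_natCast, ← hY, Matrix.mul_smul] at this
    refine hc M ?_
    rw [smul_comm, this, smul_smul, ← pow_add, two_mul]
  have h2 : (δ • G₀.adjugate).map j * G₀.map j = ((p : F) ^ e * j Δ) • 1 := by
    rw [← Matrix.map_mul, Matrix.smul_mul, Matrix.adjugate_mul, smul_smul, mul_comm, hδ, hm,
      Matrix.map_one _ (map_zero j) (map_one j), map_mul, map_pow, map_natCast]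
  have h3 := congrArg (fun A => Matrix.map A j) hW
  simp only [hm, ha, map_pow, map_natCast, ← hY, ← hY'] at h3
  obtain ⟨Z, hZ⟩ : ∃ Z : Matrix (Fin n) (Fin n) S,
      (p : F) ^ (2 * M + M' + e) • (Y' : Matrix (Fin n) (Fin n) F) = Z.map j * Y := by
    refine ⟨(p : S) ^ (2 * M + M' + e) • 1 + (p : S) ^ c • (W * (δ • G₀.adjugate) * Xᴴ), ?_⟩
    rw [ha, hm, hm, Matrix.map_one _ (map_zero j) (map_one j), Matrix.map_mul, Matrix.map_mul,
      map_pow, map_pow, map_natCast, Matrix.add_mul, Matrix.smul_mul, Matrix.smul_mul,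
      Matrix.one_mul, Matrix.mul_assoc, ← Matrix.mul_smul, h1, Matrix.mul_smul, Matrix.mul_assoc,
      h2, Matrix.mul_smul, Matrix.mul_one]
    linear_combination (norm := module) ((p : F) ^ (M + e)) • h3
  generalize 2 * M + M' + e = m at hZ
  have h4 : (p : F) ^ m • ((Y' * Y⁻¹ : GL (Fin n) F) : Matrix (Fin n) (Fin n) F) = Z.map j := by
    rw [Units.val_mul, ← Matrix.smul_mul, hZ, Matrix.mul_assoc, Units.mul_inv, Matrix.mul_one]
  refine ⟨m, Z, h4, ?_⟩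
  have h5 : (p : S) ^ M' • (Z * X) = (p : S) ^ (m + M) • X' := by
    refine Matrix.map_injective hj ?_
    simp only [hm, Matrix.map_mul, map_pow, map_natCast, ← hY, ← hY', Matrix.mul_smul, ← hZ]
    module
  have h6 := congrArg Matrix.conjTranspose h5
  simp only [Matrix.conjTranspose_smul, Matrix.conjTranspose_mul, star_pow, star_natCast] at h6
  have h7 : (p : S) ^ (c + 2 * M') • (Xᴴ * (Zᴴ * Z) * X) =
      (p : S) ^ (c + 2 * M') • (p : S) ^ (2 * m) • (Xᴴ * X) := by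
    have e1 : ((p : S) ^ M' • (Xᴴ * Zᴴ)) * ((p : S) ^ M' • (Z * X)) =
        ((p : S) ^ (m + M) • X'ᴴ) * ((p : S) ^ (m + M) • X') := by rw [h5, h6]
    simp only [Matrix.smul_mul, Matrix.mul_smul, Matrix.mul_assoc] at e1 ⊢
    linear_combination (norm := module) (p : S) ^ c • e1 + (p : S) ^ (2 * (m + M)) • hG' -
      (p : S) ^ (2 * (m + M')) • hG
  have h8 := congrArg (fun A => Matrix.map A j) h7
  simp only [hm, Matrix.map_mul, map_pow, map_natCast] at h8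
  have hX : (X.map j).det ≠ 0 := by
    rw [← hY, Matrix.det_smul]
    exact mul_ne_zero (pow_ne_zero _ (pow_ne_zero _ hp)) Y.det_ne_zero
  have hXh : (Xᴴ.map j).det ≠ 0 := by
    rw [← RingHom.mapMatrix_apply, ← RingHom.map_det] at hX ⊢
    rw [Matrix.det_conjTranspose, map_ne_zero_iff _ hj, star_ne_zero]
    exact (map_ne_zero_iff _ hj).1 hX
  have h9 : Zᴴ.map j * Z.map j = (p : F) ^ (2 * m) • 1 := by
    refine ((Matrix.isUnit_iff_isUnit_det _).2 (IsUnit.mk0 _ hXh)).mul_left_cancel ?_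
    refine ((Matrix.isUnit_iff_isUnit_det _).2 (IsUnit.mk0 _ hX)).mul_right_cancel ?_
    simpa using hc _ h8
  refine hc m ?_
  rw [smul_smul, ← pow_add, ← two_mul, ← Matrix.one_mul (Units.val _), ← Matrix.smul_mul, ← h9,
    ← h4, Matrix.mul_assoc, Matrix.smul_mul, Units.mul_inv, Matrix.mul_smul, Matrix.mul_one]

theorem exists_int_multiple {S : Type} [CommRing S] [IsDomain S] [Module.Free ℤ S]
    [Module.Finite ℤ S] {s : S} (hs : s ≠ 0) : ∃ (N : ℕ) (δ : S), 0 < N ∧ s * δ = N := by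
  have := Ideal.finiteQuotientOfFreeOfNeBot (Ideal.span {s}) (by simpa using hs)
  have h1 : Ideal.Quotient.mk (Ideal.span {s}) (Nat.card (S ⧸ Ideal.span {s}) : S) = 0 := by
    rw [map_natCast, ← nsmul_one, card_nsmul_eq_zero']
  obtain ⟨δ, hδ⟩ := Ideal.mem_span_singleton.1 (Ideal.Quotient.eq_zero_iff_mem.1 h1)
  exact ⟨_, δ, Nat.card_pos, hδ.symm⟩

theorem L6_frame (p : ℕ) [Fact p.Prime] {n : ℕ} {F S : Type} [NontriviallyNormedField F]
    [IsUltrametricDist F] [CommRing S] [StarRing S] {j : S →+* F} (hj : Function.Injective j)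
    (hp : (p : F) ≠ 0) {c M : ℕ} (hM : c ≤ M)
    (hc : ∀ (m : ℕ) (s : S), ‖j s‖ ≤ ‖(p : F)‖ ^ (m + c) →
      ‖j (star s)‖ ≤ ‖(p : F)‖ ^ (m + c) → ∃ s', s = (p : S) ^ m * s')
    {g : GL (Fin n) F} {X : Matrix (Fin n) (Fin n) S} (hX : X.det ≠ 0)
    (hL : ∀ a, InLat p j g M fun i => X i a) :
    ∃ (G : Matrix (Fin n) (Fin n) S) (Y : GL (Fin n) F), Xᴴ * X = (p : S) ^ (2 * M - c) • G ∧
      G.det ≠ 0 ∧ (p : F) ^ M • (Y : Matrix (Fin n) (Fin n) F) = X.map j ∧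
      ∀ C, 1 ≤ C → MLe C ((p : F) ^ c • (G.map j)⁻¹) → Bnd C (g⁻¹ * Y) ∧
        ‖((g⁻¹ * Y : GL (Fin n) F) : Matrix (Fin n) (Fin n) F).det‖ ≤ 1 := by
  have := hj.isDomain j
  have e0 : 2 * M - c + c = 2 * M := by omega
  choose G hG using fun a b => hc (2 * M - c) (∑ i, star (X i a) * X i b)
    (e0.symm ▸ InLat.herm p n (hL a) (hL b))
    (by rw [e0]; simpa [mul_comm] using InLat.herm p n (hL b) (hL a))
  have h1 : Xᴴ * X = (p : S) ^ (2 * M - c) • Matrix.of G := by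
    ext a b
    simpa [Matrix.mul_apply] using hG a b
  have hd : ∀ A : Matrix (Fin n) (Fin n) S, A.det ≠ 0 → (A.map j).det ≠ 0 := fun A h => by
    rwa [← RingHom.mapMatrix_apply, ← RingHom.map_det, map_ne_zero_iff _ hj]
  have h2 : (Matrix.of G).det ≠ 0 := fun h0 => by
    have := congrArg Matrix.det h1
    rw [Matrix.det_mul, Matrix.det_smul, h0, mul_zero, Matrix.det_conjTranspose] at this
    exact mul_ne_zero (star_ne_zero.2 hX) hX this
  have hq := pow_ne_zero M hp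
  let Y := Matrix.GeneralLinearGroup.mkOfDetNeZero (((p : F) ^ M)⁻¹ • X.map j) (by
    rw [Matrix.det_smul]; exact mul_ne_zero (pow_ne_zero _ (inv_ne_zero hq)) (hd X hX))
  have hY : (Y : Matrix (Fin n) (Fin n) F) = ((p : F) ^ M)⁻¹ • X.map j := rfl
  have hs : ∀ A : Matrix (Fin n) (Fin n) F, MLe (‖(p : F)‖ ^ M) A → MLe 1 (((p : F) ^ M)⁻¹ • A) :=
    fun A h => by
      have := h.smul ((p : F) ^ M)⁻¹
      rwa [norm_inv, norm_pow, inv_mul_cancel₀ (pow_ne_zero _ (norm_ne_zero_iff.2 hp))] at this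
  have hA : MLe 1 ((g⁻¹ * Y : GL (Fin n) F) : Matrix (Fin n) (Fin n) F) := by
    rw [Units.val_mul, hY, Matrix.mul_smul]
    exact hs _ fun i a => (hL a).1 i
  have hB : MLe 1 (((p : F) ^ M)⁻¹ • (Xᴴ.map j * (g : Matrix (Fin n) (Fin n) F))) :=
    hs _ fun a i => (hL a).2 i
  refine ⟨Matrix.of G, Y, h1, h2, by rw [hY, smul_inv_smul₀ hq], fun C hC h => ⟨bnd_iff.2
    ⟨hA.mono hC, ?_⟩, by simpa using hA.norm_det_le zero_le_one⟩⟩
  have h3 := h.mul hB (zero_le_one.trans hC) zero_le_one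
  rw [mul_one] at h3
  convert h3 using 1
  refine Units.inv_eq_of_mul_eq_one_left ?_
  have h4 : Xᴴ.map j * X.map j = (p : F) ^ (2 * M - c) • (Matrix.of G).map j := by
    rw [← Matrix.map_mul, h1]
    ext
    simp
  rw [Units.val_mul, hY, Matrix.mul_assoc, Matrix.smul_mul _ (_ * _), Matrix.mul_assoc,
    ← Matrix.mul_assoc g.val, Units.mul_inv, Matrix.one_mul, Matrix.mul_smul (Xᴴ.map j), h4]
  simp only [Matrix.smul_mul, Matrix.mul_smul, smul_smul,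
    Matrix.nonsing_inv_mul _ (IsUnit.mk0 _ (hd _ h2))]
  rw [show _ * (_ * _) * _ = (1 : F) by
    field_simp
    rw [← pow_add, e0, ← pow_mul, mul_comm], one_smul]

theorem L6_fin {ρ a : ℝ} (h0 : 0 < ρ) (h1 : ρ < 1) (ha : 0 < a) :
    {r : ℝ | (∃ e : ℤ, r = ρ ^ e) ∧ a ≤ r ∧ r ≤ 1}.Finite := by
  obtain ⟨k, hk⟩ := exists_pow_lt_of_lt_one ha h1
  refine ((Set.finite_Icc (0 : ℤ) k).image (ρ ^ ·)).subset ?_
  rintro _ ⟨⟨e, rfl⟩, h2, h3⟩
  refine ⟨e, ⟨(zpow_le_one_iff_right_of_lt_one₀ h0 h1).1 h3, ?_⟩, rfl⟩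
  rw [← zpow_le_zpow_iff_right_of_lt_one₀ h0 h1, zpow_natCast]
  exact hk.le.trans h2

theorem L6_main (p : ℕ) [Fact p.Prime] (n : ℕ) {F S : Type} [NontriviallyNormedField F]
    [IsUltrametricDist F] [NormedAlgebra ℚ_[p] F] [FiniteDimensional ℚ_[p] F] [CommRing S]
    [StarRing S] {j : S →+* F} {bas : Module.Basis (Fin (2 * Module.finrank ℚ_[p] F)) ℤ S}
    {t : S →+ ℝ} (h : IsOrd p j bas t) (ϖ : Fˣ) (hϖ : ‖(ϖ : F)‖ < 1)
    (hmax : ∀ x : F, ‖x‖ < 1 → ‖x‖ ≤ ‖(ϖ : F)‖) {a : ℝ} (ha : 0 < a) :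
    ∃ C : ℝ, ∀ g : GL (Fin n) F, a ≤ ‖(g : Matrix (Fin n) (Fin n) F).det‖ →
      ‖(g : Matrix (Fin n) (Fin n) F).det‖ ≤ 1 → ∃ γ ∈ Gam p n j, Bnd C (γ⁻¹ * g) := by
  have hpp : p.Prime := Fact.out
  have := h.inj.isDomain j
  have := Module.Free.of_basis bas
  have := Module.Finite.of_basis bas
  have hp : (p : F) ≠ 0 := by
    rw [← map_natCast (algebraMap ℚ_[p] F), map_ne_zero]
    exact_mod_cast hpp.ne_zero
  obtain ⟨c, hc⟩ := h.sat
  obtain ⟨T, hT⟩ := short_matrix p n h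
  obtain ⟨C1, hC1⟩ := exists_coord_mul n bas
  set GG : Set (Matrix (Fin n) (Fin n) S) :=
    {G | ∀ a b l, |bas.repr (G a b) l| ≤ C1 * (T : ℤ) ^ 2 * p ^ c} with hGG
  have hfin : GG.Finite := by
    refine Set.Finite.of_finite_image (f := fun G a b l => bas.repr (G a b) l)
      ((Set.Finite.pi' fun _ => Set.Finite.pi' fun _ => Set.Finite.pi' fun _ => Set.finite_Icc
        (-(C1 * (T : ℤ) ^ 2 * p ^ c)) (C1 * (T : ℤ) ^ 2 * p ^ c)).subset ?_) fun G _ G' _ e => ?_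
    · rintro _ ⟨G, hG, rfl⟩ a b l
      exact abs_le.1 (hG a b l)
    · ext a b
      exact bas.ext_elem fun l => congrFun (congrFun (congrFun e a) b) l
  have hN : ∀ G : Matrix (Fin n) (Fin n) S, ∃ N : ℕ, 0 < N ∧ (G.det ≠ 0 → G.det ∣ N) := fun G => by
    by_cases h0 : G.det = 0
    · exact ⟨1, one_pos, fun h => absurd h0 h⟩
    · obtain ⟨N, δ, h1, h2⟩ := exists_int_multiple h0
      exact ⟨N, h1, fun _ => ⟨δ, h2.symm⟩⟩
  choose N hN0 hN using hN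
  obtain ⟨e, Δ, hΔ, hNΔ⟩ := Nat.exists_eq_pow_mul_and_not_dvd
    (Finset.prod_pos fun G (_ : G ∈ hfin.toFinset) => hN0 G).ne' p hpp.ne_one
  have hΔ0 : Δ ≠ 0 := fun h0 => hΔ (h0 ▸ dvd_zero p)
  have hΔS : (Δ : S) ≠ 0 := fun h0 => by
    have h1 := congrArg j h0
    rw [map_natCast, map_zero, ← map_natCast (algebraMap ℚ_[p] F), map_eq_zero] at h1
    exact hΔ0 (by exact_mod_cast h1)
  have := Ideal.finiteQuotientOfFreeOfNeBot (Ideal.span {(Δ : S)}) (by simpa using hΔS)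
  choose b hb0 hb using fun G : Matrix (Fin n) (Fin n) S =>
    MLe.exists_bound ((p : F) ^ c • (G.map j)⁻¹)
  obtain ⟨C2, hC2⟩ := (hfin.image b).bddAbove
  have hC : (0 : ℝ) < max C2 1 := lt_max_of_lt_right one_pos
  let Fr : Matrix (Fin n) (Fin n) S × Matrix (Fin n) (Fin n) (S ⧸ Ideal.span {(Δ : S)}) × ℝ →
      GL (Fin n) F → Prop := fun τ Y => ∃ (M : ℕ) (X : Matrix (Fin n) (Fin n) S),
    (Δ : S) ∣ (p : S) ^ M - 1 ∧ (p : F) ^ M • (Y : Matrix (Fin n) (Fin n) F) = X.map j ∧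
      (p : S) ^ c • (Xᴴ * X) = (p : S) ^ (2 * M) • τ.1 ∧
      X.map (Ideal.Quotient.mk _) = τ.2.1 ∧ ‖(Y : Matrix (Fin n) (Fin n) F).det‖ = τ.2.2
  choose Y0 hY0 using fun τ => (exists_true_iff_nonempty.2 inferInstance).elim fun Y1 _ =>
    (by
      by_cases h1 : ∃ Y, Fr τ Y
      · exact ⟨h1.choose, fun _ _ => h1.choose_spec⟩
      · exact ⟨Y1, fun Y h2 => absurd ⟨Y, h2⟩ h1⟩ : ∃ Y0, ∀ Y, Fr τ Y → Fr τ Y0)
  choose b' hb0' hb' using fun τ => exists_bnd (Y0 τ)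
  obtain ⟨C3, hC3⟩ := ((hfin.prod (Set.finite_univ.prod (L6_fin (norm_pos_iff.2 ϖ.ne_zero) hϖ
    (mul_pos ha (inv_pos.2 (pow_pos hC n)))))).image b').bddAbove
  refine ⟨C3 * max C2 1, fun g hg1 hg2 => ?_⟩
  obtain ⟨M₀, hM⟩ := hT g
  have hφ : 0 < Δ.totient := Nat.totient_pos.2 (Nat.pos_of_ne_zero hΔ0)
  have hM1 : max M₀ c ≤ Δ.totient * max M₀ c := Nat.le_mul_of_pos_left _ hφ
  have hM2 : (Δ : S) ∣ (p : S) ^ (Δ.totient * max M₀ c) - 1 := by
    have h1 := (Nat.ModEq.pow_totient ((Nat.Prime.coprime_iff_not_dvd hpp).2 hΔ)).pow (max M₀ c)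
    have h2 := _root_.map_dvd (Int.castRingHom S) h1.symm.dvd
    simpa [pow_mul] using h2
  generalize Δ.totient * max M₀ c = M at hM1 hM2
  obtain ⟨X, hX, hL, hco⟩ := hM M ((le_max_left _ _).trans hM1)
  have hcM : c ≤ M := (le_max_right _ _).trans hM1
  obtain ⟨G, Y, h1, h2, h3, h4⟩ := L6_frame p h.inj hp hcM hc hX hL
  have hG : G ∈ GG := fun a b l => by
    have e1 := hC1 (fun i => X i a) (fun i => X i b) _ (fun i => hco i a) (fun i => hco i b) l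
    have e2 : ∑ i, star (X i a) * X i b = ((p : ℤ) ^ (2 * M - c)) • G a b := by
      simpa [Matrix.mul_apply] using congrFun (congrFun h1 a) b
    have e3 : (0 : ℤ) < (p : ℤ) ^ (2 * M - c) := pow_pos (by exact_mod_cast hpp.pos) _
    rw [e2, map_zsmul, Finsupp.smul_apply, smul_eq_mul, abs_mul, abs_of_pos e3] at e1
    refine le_of_mul_le_mul_left (e1.trans_eq ?_) e3
    rw [mul_pow, ← pow_mul, show M * 2 = 2 * M - c + c by omega, pow_add]
    ring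
  obtain ⟨h5, h6⟩ := h4 (max C2 1) (le_max_right _ _)
    ((hb G).mono ((hC2 ⟨G, hG, rfl⟩).trans (le_max_left _ _)))
  have hF : Fr (G, X.map (Ideal.Quotient.mk _), ‖(Y : Matrix (Fin n) (Fin n) F).det‖) Y :=
    ⟨M, X, hM2, h3, by rw [h1, smul_smul, ← pow_add, show c + (2 * M - c) = 2 * M by omega],
      rfl, rfl⟩
  have hdet : ‖(Y : Matrix (Fin n) (Fin n) F).det‖ = ‖(g : Matrix (Fin n) (Fin n) F).det‖ *
      ‖((g⁻¹ * Y : GL (Fin n) F) : Matrix (Fin n) (Fin n) F).det‖ := by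
    rw [← norm_mul, ← Matrix.det_mul, ← Units.val_mul, mul_inv_cancel_left]
  have hb3 := hC3 ⟨(G, X.map (Ideal.Quotient.mk _), ‖(Y : Matrix (Fin n) (Fin n) F).det‖),
    ⟨hG, trivial, exists_norm_eq_zpow ϖ hϖ hmax Y.det_ne_zero, by
      have e1 := (bnd_iff.1 h5).2.norm_det_le hC.le
      rw [Matrix.coe_units_inv, Matrix.det_nonsing_inv, Ring.inverse_eq_inv', norm_inv,
        Fintype.card_fin] at e1
      rw [hdet]
      exact mul_le_mul hg1 (inv_le_of_inv_le₀ (norm_pos_iff.2 (g⁻¹ * Y).det_ne_zero) e1)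
        (inv_pos.2 (pow_pos hC n)).le (norm_nonneg _),
      hdet ▸ mul_le_one₀ hg2 (norm_nonneg _) h6⟩, rfl⟩
  obtain ⟨M', X', k1, k2, k3, k4, k5⟩ := hY0 _ Y hF
  have hb4 := (hb' _).mono hb3
  have hb5 := (hb0' _).le.trans hb3
  generalize Y0 _ = Y' at k2 k5 hb4
  refine ⟨Y * Y'⁻¹, ⟨?_, ?_⟩, ?_⟩
  · rw [Units.val_mul, Matrix.det_mul, Matrix.coe_units_inv, Matrix.det_nonsing_inv,
      Ring.inverse_eq_inv', norm_mul, norm_inv, k5,
      mul_inv_cancel₀ (norm_ne_zero_iff.2 Y.det_ne_zero)]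
  · obtain ⟨δ, hδ⟩ := (hN G h2).trans (Nat.cast_dvd_cast (α := S)
      (Finset.dvd_prod_of_mem N (hfin.mem_toFinset.2 hG)))
    choose W hW using fun a b => Ideal.mem_span_singleton.1
      (Ideal.Quotient.eq.1 (congrFun (congrFun k4 a) b).symm)
    obtain ⟨u, hu⟩ := hM2
    obtain ⟨v, hv⟩ := k1
    refine repr_of_congr (W := Matrix.of W + v • X - u • X') (e := e) h.inj hp k2 h3 k3
      (by rw [h1, smul_smul, ← pow_add, show c + (2 * M - c) = 2 * M by omega])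
      (by rw [← hδ, hNΔ]; simp) hΔS ?_
    ext a b
    have := hW a b
    simp only [Matrix.smul_apply, Matrix.add_apply, Matrix.sub_apply,
      Matrix.of_apply, smul_eq_mul] at this ⊢
    linear_combination this + X a b * hv - X' a b * hu
  · have := hb4.mul h5.inv hb5 hC.le
    rwa [mul_inv_rev, inv_inv, ← mul_assoc, ← inv_inv Y', ← mul_inv_rev] at this

theorem cocompact (p : ℕ) [Fact p.Prime] (n : ℕ) {F S : Type} [NontriviallyNormedField F]
    [IsUltrametricDist F] [NormedAlgebra ℚ_[p] F] [FiniteDimensional ℚ_[p] F] [CommRing S]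
    [StarRing S] {j : S →+* F} {bas : Module.Basis (Fin (2 * Module.finrank ℚ_[p] F)) ℤ S}
    {t : S →+ ℝ} (h : IsOrd p j bas t) (ϖ : Fˣ) (hϖ : ‖(ϖ : F)‖ < 1)
    (hmax : ∀ x : F, ‖x‖ < 1 → ‖x‖ ≤ ‖(ϖ : F)‖) :
    ∃ C : ℝ, ∀ g : GL (Fin n) F, ∃ γ ∈ Gam p n j, ∃ e : ℤ,
      Bnd C (dg (fun _ => ϖ ^ e) * (γ⁻¹ * g)) := by
  rcases Nat.eq_zero_or_pos n with rfl | hn
  · exact ⟨0, fun g => ⟨1, one_mem _, 0, fun i => i.elim0⟩⟩
  have h0 : 0 < ‖(ϖ : F)‖ := norm_pos_iff.2 ϖ.ne_zero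
  obtain ⟨C, hC⟩ := L6_main p n h ϖ hϖ hmax (pow_pos h0 n)
  refine ⟨C, fun g => ?_⟩
  obtain ⟨e, he⟩ := exists_norm_eq_zpow ϖ hϖ hmax g.det_ne_zero
  have hn' : (0 : ℤ) < n := by exact_mod_cast hn
  have h1 : ‖((dg (fun _ => ϖ ^ (-(e / n))) * g : GL (Fin n) F) : Matrix (Fin n) (Fin n) F).det‖ =
      ‖(ϖ : F)‖ ^ (e % n) := by
    rw [Units.val_mul, Matrix.det_mul, norm_mul, he, coe_dg, Matrix.det_diagonal,
      Finset.prod_const, Finset.card_univ, Fintype.card_fin, norm_pow, Units.val_zpow_eq_zpow_val,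
      norm_zpow, ← zpow_natCast, ← zpow_mul, ← zpow_add₀ h0.ne', Int.emod_def]
    congr 1
    ring
  obtain ⟨γ, h2, h3⟩ := hC (dg (fun _ => ϖ ^ (-(e / n))) * g) (by
    rw [h1, ← zpow_natCast]
    exact zpow_le_zpow_right_of_le_one₀ h0 hϖ.le (Int.emod_lt_of_pos _ hn').le) (by
    rw [h1]
    exact zpow_le_one₀ h0 hϖ.le (Int.emod_nonneg _ hn'.ne'))
  refine ⟨γ, h2, -(e / n), ?_⟩
  rwa [← mul_assoc, dg_const_comm, mul_assoc, ← mul_assoc] at *

end Pool.Agent.MP_4d0c14_b
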