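import Pool.Agent.MP_4d0c14_b.L2
import Pool.Agent.MP_4d0c14_b.L3
import Pool.Agent.MP_4d0c14_b.L6
import Pool.Agent.MP_4d0c14_b.GE4
import Pool.Agent.MP_4d0c14_b.Fib

/-! The lattice acts on `G ⧸ H` with finite stabilisers and finitely many orbits. -/

namespace Pool.Agent.MP_4d0c14_b

theorem L7_norm_p (p : ℕ) [Fact p.Prime] (F : Type) [NontriviallyNormedField F]
    [NormedAlgebra ℚ_[p] F] : ‖(p : F)‖ = ‖(p : ℚ_[p])‖ := by
  rw [← map_natCast (algebraMap ℚ_[p] F) p, norm_algebraMap']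

theorem TypeData.hasLat (p : ℕ) [Fact p.Prime] {n k m : ℕ} {F E : Type}
    [NontriviallyNormedField F] [IsUltrametricDist F] [NormedAlgebra ℚ_[p] F]
    [FiniteDimensional ℚ_[p] F] [Field E] (D : TypeData n k m F E) {r : ℝ} (hr : D.Good r)
    (ϖ : Fˣ) (hϖ : ‖(ϖ : F)‖ < 1) (hmax : ∀ x : F, ‖x‖ < 1 → ‖x‖ ≤ ‖(ϖ : F)‖) :
    HasLat (D.HH hr) := by
  have : ProperSpace F := FiniteDimensional.proper ℚ_[p] F
  have hp : ‖(p : F)‖ < 1 := by
    rw [L7_norm_p]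
    exact Padic.norm_p_lt_one
  have hp0 : (p : F) ≠ 0 := by
    rw [← norm_ne_zero_iff, L7_norm_p, norm_ne_zero_iff]
    exact Nat.cast_ne_zero.2 (Fact.out : p.Prime).ne_zero
  obtain ⟨S, _, _, j, bas, t, h⟩ := exists_ord p F
  refine ⟨Gam p n j, h.residuallyFinite hp0, ?_, fun x => ?_⟩
  · obtain ⟨C, hC⟩ := cocompact p n h ϖ hϖ hmax
    obtain ⟨r₁, hr₁, -, hnear⟩ := D.near_mem hr
    obtain ⟨T, hT⟩ := finite_cover (n := n) (F := F) C hr₁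
    refine ⟨T, fun x => ?_⟩
    obtain ⟨γ, hγ, e, hb⟩ := hC x
    obtain ⟨s, hs, -, hn⟩ := hT _ hb
    refine ⟨γ, hγ, s, hs, ?_⟩
    have h1 := (hnear _ hn).1
    have h2 := (D.scalar_mem hr (ϖ ^ e)).1
    have e1 : (γ * s)⁻¹ * x =
        (dg (fun _ => ϖ ^ e))⁻¹ * (s⁻¹ * (dg (fun _ => ϖ ^ e) * (γ⁻¹ * x))) := by
      rw [← mul_assoc s⁻¹, ← dg_const_comm, mul_assoc, inv_mul_cancel_left, mul_inv_rev,
        mul_assoc]
    rw [e1]
    exact (D.HH hr).mul_mem ((D.HH hr).inv_mem h2) h1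
  · obtain ⟨C, hC0, hC⟩ := D.hh_bnd_of_det hr
    obtain ⟨B, hB0, hB⟩ := exists_bnd x
    refine (h.finite_bnd (n := n) hp0 hp (B * C * B)).subset ?_
    rintro γ ⟨hγ, hx⟩
    refine ⟨hγ, ?_⟩
    have hd : ‖((x⁻¹ * γ * x : GL (Fin n) F) : Matrix (Fin n) (Fin n) F).det‖ = 1 := by
      rw [Units.val_mul, Units.val_mul, Matrix.det_mul, Matrix.det_mul, mul_right_comm,
        ← Matrix.det_mul, ← Units.val_mul, inv_mul_cancel, Units.val_one, Matrix.det_one, one_mul]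
      exact hγ.1
    have h1 := (hB.mul (hC _ hx hd) hB0.le hC0.le).mul hB.inv (by positivity) hB0.le
    have e1 : x * (x⁻¹ * γ * x) * x⁻¹ = γ := by group
    rwa [e1] at h1

end Pool.Agent.MP_4d0c14_b
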