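import Pool.Agent.MP_4d0c14_b.F1
import Pool.Agent.MP_4d0c14_b.F2
import Pool.Agent.MP_4d0c14_b.C4
import Pool.Agent.MP_4d0c14_b.E1
import Pool.Agent.MP_4d0c14_b.E4
import Pool.Agent.MP_4d0c14_b.GE5
import Pool.Agent.MP_4d0c14_b.GE6
import Pool.Agent.MP_4d0c14_b.L7

/-! The theorems for two and for three blocks. -/

namespace Pool.Agent.MP_4d0c14_b

open scoped Matrix

namespace TypeData

variable {n k m N : ℕ} {F E ι : Type} [NormedField F] [IsUltrametricDist F] [ProperSpace F]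
  [CharZero F] [NontriviallyNormedField E] [IsUltrametricDist E] [CharZero E] [Fintype ι]
  (D : TypeData n k m F E) {r : ℝ} (hr : D.Good r) (ϖ : Fˣ)
  (hϖ : ‖(ϖ : F)‖ < 1) {κ : ι → F →+* E} {a : ι → Fin n → ℤ}
  {ρ : GL (Fin n) F →* Matrix (Fin N) (Fin N) E}

theorem norm_or_dense (ok : AlgOK κ a ρ) (hκ : ∀ σ x, ‖κ σ x‖ = ‖x‖) (p : ℕ) (hp0 : p ≠ 0)
    (hp : ‖(p : F)‖ < 1)
    (hcent : ‖((D.omega fun _ => ϖ : Eˣ) : E)‖ * ‖(ϖ : F)‖ ^ (∑ σ, ∑ i, a σ i) = 1)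
    (hirr : (indRep D).ρ.IsIrreducible) {d : ℕ} {γ : Fin d → GL (Fin n) F}
    (hγ : (D.iw hr ϖ hϖ).Gen γ) :
    NormOn ρ (indRep D).ρ ∨
      ((D.iw hr ϖ hϖ).tfib ρ).Dense fun i => (D.iw hr ϖ hϖ).tker ρ (γ i) := by
  have := D.nonempty_of_irr hirr
  exact (D.iw hr ϖ hϖ).norm_or_dense ρ (D.tfib_bdd hr ϖ hϖ ok hκ hcent) hγ (indRep D).ρ hirr
    (indSpace D).subtype Subtype.val_injective (fun _ _ _ => rfl)
    (fun v => ⟨⟨_, D.phi_mem hr ϖ hϖ v⟩, fun _ => rfl⟩) (D.burn_fix ok p hp0 hp)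

theorem not_approx (hmax : ∀ x : F, ‖x‖ < 1 → ‖x‖ ≤ ‖(ϖ : F)‖) (ok : AlgOK κ a ρ)
    (hκ : ∀ σ x, ‖κ σ x‖ = ‖x‖) (p : ℕ) (hp0 : p ≠ 0) (hp : ‖(p : F)‖ < 1)
    (hcent : ‖((D.omega fun _ => ϖ : Eˣ) : E)‖ * ‖(ϖ : F)‖ ^ (∑ σ, ∑ i, a σ i) = 1)
    (hE : ∀ I, Emerton D a ϖ (resCard F) I) (hirr : (indRep D).ρ.IsIrreducible) {d : ℕ}
    {γ : Fin d → GL (Fin n) F} (hγ : (D.iw hr ϖ hϖ).Gen γ) :
    ¬((D.iw hr ϖ hϖ).tfib ρ).Approx fun i => (D.iw hr ϖ hϖ).tker ρ (γ i) := by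
  intro h
  have := D.nonempty_of_irr hirr
  have := ok.nonempty
  obtain ⟨U, hU, C, hC⟩ := D.orbit_bound hr ϖ hϖ hmax ok hκ hcent hE
  exact (D.iw hr ϖ hϖ).not_small_unit ρ U hU C hC
    ((D.iw hr ϖ hϖ).exists_small_unit ρ hγ.1 (D.burn_conj hr ϖ hϖ ok p hp0 hp) h)

end TypeData

variable (p : ℕ) [Fact p.Prime] {n m : ℕ} {F E : Type}
  [NontriviallyNormedField F] [IsUltrametricDist F] [NormedAlgebra ℚ_[p] F]
  [FiniteDimensional ℚ_[p] F]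
  [NontriviallyNormedField E] [NormedAlgebra ℚ_[p] E] [CompleteSpace E]

omit [IsUltrametricDist F] [FiniteDimensional ℚ_[p] F] in
theorem norm_p_lt : ‖(p : F)‖ < 1 := by
  have : (p : F) = algebraMap ℚ_[p] F p := by simp
  rw [this, norm_algebraMap']
  exact Padic.norm_p_lt_one

theorem two_blocks (a : (F →ₐ[ℚ_[p]] E) → Fin n → ℤ) (ha : ∀ σ, Antitone (a σ))
    (D : TypeData n 2 m F E) (ϖ : Fˣ) (hϖ : ‖(ϖ : F)‖ < 1)
    (hmax : ∀ x : F, ‖x‖ < 1 → ‖x‖ ≤ ‖(ϖ : F)‖)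
    (hcent : ‖((D.omega fun _ => ϖ : Eˣ) : E)‖ * ‖(ϖ : F)‖ ^ (∑ σ, ∑ i, a σ i) = 1)
    (hE : ∀ I, Emerton D a ϖ (resCard F) I) (hirr : (indRep D).ρ.IsIrreducible) :
    HasInvariantNorm (algRep (fun σ : F →ₐ[ℚ_[p]] E => σ.toRingHom) a) (indRep D) := by
  have : IsUltrametricDist E := IsUltrametricDist.of_normedAlgebra ℚ_[p]
  have : ProperSpace F := FiniteDimensional.proper ℚ_[p] F
  have : CharZero E := charZero_of_injective_algebraMap (algebraMap ℚ_[p] E).injective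
  have : CharZero F := charZero_of_injective_algebraMap (algebraMap ℚ_[p] F).injective
  have hp0 : p ≠ 0 := (Fact.out : p.Prime).ne_zero
  have hp : ‖(p : F)‖ < 1 := norm_p_lt p
  have hκ : ∀ (σ : F →ₐ[ℚ_[p]] E) (x : F), ‖σ.toRingHom x‖ = ‖x‖ :=
    fun σ x => MP_4d0c14_nt.norm_emb p σ x
  obtain ⟨N, e, ρ, he⟩ := exists_model (fun σ : F →ₐ[ℚ_[p]] E => σ.toRingHom) ha
  have ok := he.algOK p hp0 hp ha
  obtain ⟨r, hr⟩ := D.exists_good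
  obtain ⟨γ, hγ⟩ := D.exists_gen_two hr ϖ hϖ hmax
  refine NormOn.hasInvariantNorm he _ ((D.norm_or_dense hr ϖ hϖ ok hκ p hp0 hp hcent hirr
    hγ).resolve_right fun hd => D.not_approx hr ϖ hϖ hmax ok hκ p hp0 hp hcent hE hirr hγ ?_)
  exact Fib.core_one (D.tfib_bdd hr ϖ hϖ ok hκ hcent) (D.hasLat p hr ϖ hϖ hmax) _
    (fun i => (D.iw hr ϖ hϖ).tker_ker ρ (hγ.1 i)) hd

theorem three_blocks (a : (F →ₐ[ℚ_[p]] E) → Fin n → ℤ) (ha : ∀ σ, Antitone (a σ))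
    (D : TypeData n 3 m F E) (ϖ : Fˣ) (hϖ : ‖(ϖ : F)‖ < 1)
    (hmax : ∀ x : F, ‖x‖ < 1 → ‖x‖ ≤ ‖(ϖ : F)‖)
    (hcent : ‖((D.omega fun _ => ϖ : Eˣ) : E)‖ * ‖(ϖ : F)‖ ^ (∑ σ, ∑ i, a σ i) = 1)
    (hE : ∀ I, Emerton D a ϖ (resCard F) I) (hirr : (indRep D).ρ.IsIrreducible)
    (hdual : Nonempty (indRep D ≅ indRep D.transpose)) :
    HasInvariantNorm (algRep (fun σ : F →ₐ[ℚ_[p]] E => σ.toRingHom) a) (indRep D) := by
  have : IsUltrametricDist E := IsUltrametricDist.of_normedAlgebra ℚ_[p]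
  have : ProperSpace F := FiniteDimensional.proper ℚ_[p] F
  have : CharZero E := charZero_of_injective_algebraMap (algebraMap ℚ_[p] E).injective
  have : CharZero F := charZero_of_injective_algebraMap (algebraMap ℚ_[p] F).injective
  have hp0 : p ≠ 0 := (Fact.out : p.Prime).ne_zero
  have hp : ‖(p : F)‖ < 1 := norm_p_lt p
  have hκ : ∀ (σ : F →ₐ[ℚ_[p]] E) (x : F), ‖σ.toRingHom x‖ = ‖x‖ :=
    fun σ x => MP_4d0c14_nt.norm_emb p σ x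
  obtain ⟨N, e, ρ, he⟩ := exists_model (fun σ : F →ₐ[ℚ_[p]] E => σ.toRingHom) ha
  have ok := he.algOK p hp0 hp ha
  obtain ⟨r, hr⟩ := D.exists_good
  obtain ⟨γ, hγ⟩ := D.exists_gen_three hr ϖ hϖ hmax
  obtain ⟨φ⟩ := hdual
  let f := Representation.equivOfIso φ
  have hf : ∀ g w, f.toLinearEquiv ((indRep D).ρ g w) =
      (indRep D.transpose).ρ g (f.toLinearEquiv w) :=
    fun g w => LinearMap.congr_fun (f.isIntertwining' g) w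
  refine NormOn.hasInvariantNorm he _ ?_
  by_contra hno
  have hd := (D.norm_or_dense hr ϖ hϖ ok hκ p hp0 hp hcent hirr hγ).resolve_left hno
  have hd' := (D.transpose.norm_or_dense (TypeData.Good.transpose D hr) ϖ hϖ ok hκ p hp0 hp hcent
    (isIrreducible_of_equiv f.toLinearEquiv hf hirr) (D.gen_tr hr ϖ hϖ hγ)).resolve_left
    fun h => hno (h.of_equiv f.toLinearEquiv hf)
  obtain ⟨X⟩ := D.nonempty_h1Data p hr ϖ hϖ ok hκ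
  refine D.not_approx hr ϖ hϖ hmax ok hκ p hp0 hp hcent hE hirr hγ ?_
  exact Fib.core_two (D.tfib_bdd hr ϖ hϖ ok hκ hcent) (D.hasLat p hr ϖ hϖ hmax) X _
    (fun i => (D.iw hr ϖ hϖ).tker_ker ρ (hγ.1 i))
    ((D.iw hr ϖ hϖ).tker_comm ρ (hγ.1 0) (hγ.1 1) (D.comm_mem hr (hγ.1 0).1 (hγ.1 1).1)) hd
    (D.dense_dual hr ϖ hϖ ρ ok.form hγ.1 hd')

end Pool.Agent.MP_4d0c14_b
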