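import Pool.Agent.MP_4d0c14_b.Fib

/-! Direct finiteness for equivariant operators on `C₀(Γ, W)`, `Γ` residually finite. -/

namespace Pool.Agent.MP_4d0c14_b

open scoped ZeroAtInfty

/-- Pure linear algebra: a separating family of stable subspaces of finite codimension. -/
theorem mul_eq_one_symm_of_family {E V σ : Type} [Field E] [AddCommGroup V] [Module E V]
    (N : σ → Submodule E V) (hfin : ∀ i, FiniteDimensional E (V ⧸ N i))
    (hsep : ∀ y, (∀ i, y ∈ N i) → y = 0) (α β : V →ₗ[E] V)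
    (hα : ∀ i, ∀ y ∈ N i, α y ∈ N i) (hβ : ∀ i, ∀ y ∈ N i, β y ∈ N i)
    (h : ∀ y, α (β y) = y) (y : V) : β (α y) = y := by
  rw [← sub_eq_zero]
  refine hsep _ fun i => ?_
  have := hfin i
  have h1 : (N i).mapQ (N i) α (hα i) * (N i).mapQ (N i) β (hβ i) = 1 := by
    refine LinearMap.ext fun z => ?_
    obtain ⟨z, rfl⟩ := (N i).mkQ_surjective z
    simp [Module.End.mul_apply, h]
  have h2 := congrArg (fun f : Module.End E (V ⧸ N i) => f ((N i).mkQ y)) (mul_eq_one_comm.1 h1)
  simp only [Module.End.mul_apply, Submodule.mkQ_apply, Submodule.mapQ_apply,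
    Module.End.one_apply] at h2
  exact (Submodule.Quotient.eq _).1 h2

theorem G1_quot {E V U : Type} [Field E] [AddCommGroup V] [Module E V] [AddCommGroup U]
    [Module E U] [FiniteDimensional E U] (N : Submodule E V) (L : U →ₗ[E] V)
    (h : ∀ z, z ∈ N ⊔ LinearMap.range L) : FiniteDimensional E (V ⧸ N) := by
  refine Module.Finite.of_surjective (N.mkQ.comp L) fun z => ?_
  obtain ⟨z, rfl⟩ := N.mkQ_surjective z
  obtain ⟨a, ha, b, ⟨w, rfl⟩, rfl⟩ := Submodule.mem_sup.1 (h z)
  refine ⟨w, ?_⟩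
  rw [map_add, Submodule.mkQ_apply _ a, (Submodule.Quotient.mk_eq_zero _).2 ha, zero_add]
  rfl

variable {Γ W E : Type} [Group Γ] [TopologicalSpace Γ] [DiscreteTopology Γ]
  [NontriviallyNormedField E] [NormedAddCommGroup W] [NormedSpace E W]

/-- `S` commutes with left translations. -/
def IsEquiv (S : C₀(Γ, W) →L[E] C₀(Γ, W)) : Prop :=
  ∀ (γ : Γ) (y y' : C₀(Γ, W)), (∀ x, y' x = y (γ * x)) → ∀ x, S y' x = S y (γ * x)

omit [Group Γ] in
theorem G1_tendsto (y : C₀(Γ, W)) : Filter.Tendsto y Filter.cofinite (nhds 0) := by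
  have := y.zero_at_infty'
  rwa [Filter.cocompact_eq_cofinite] at this

/-- left translation -/
def G1_tr (γ : Γ) (y : C₀(Γ, W)) : C₀(Γ, W) where
  toFun x := y (γ * x)
  continuous_toFun := continuous_of_discreteTopology
  zero_at_infty' := by
    rw [Filter.cocompact_eq_cofinite]
    exact (G1_tendsto y).comp (mul_right_injective γ).tendsto_cofinite

theorem G1_tr_apply (γ : Γ) (y : C₀(Γ, W)) (x : Γ) : G1_tr γ y x = y (γ * x) := rfl

theorem exists_translate (γ : Γ) (y : C₀(Γ, W)) : ∃ y' : C₀(Γ, W), ∀ x, y' x = y (γ * x) :=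
  ⟨G1_tr γ y, fun _ => rfl⟩

theorem IsEquiv.one : IsEquiv (1 : C₀(Γ, W) →L[E] C₀(Γ, W)) := fun _ _ _ h x => h x

theorem IsEquiv.mul {S T : C₀(Γ, W) →L[E] C₀(Γ, W)} (hS : IsEquiv S) (hT : IsEquiv T) :
    IsEquiv (S * T) := fun γ y y' h x => hS γ (T y) (T y') (hT γ y y' h) x

theorem IsEquiv.add {S T : C₀(Γ, W) →L[E] C₀(Γ, W)} (hS : IsEquiv S) (hT : IsEquiv T) :
    IsEquiv (S + T) := fun γ y y' h x => by
  change S y' x + T y' x = S y (γ * x) + T y (γ * x)
  rw [hS γ y y' h x, hT γ y y' h x]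

theorem IsEquiv.neg {S : C₀(Γ, W) →L[E] C₀(Γ, W)} (hS : IsEquiv S) : IsEquiv (-S) :=
  fun γ y y' h x => by
    change -(S y' x) = -(S y (γ * x))
    rw [hS γ y y' h x]

theorem IsEquiv.sub {S T : C₀(Γ, W) →L[E] C₀(Γ, W)} (hS : IsEquiv S) (hT : IsEquiv T) :
    IsEquiv (S - T) := by
  rw [sub_eq_add_neg]
  exact hS.add hT.neg

theorem IsEquiv.sum {σ : Type} {s : Finset σ} {S : σ → C₀(Γ, W) →L[E] C₀(Γ, W)}
    (hS : ∀ i ∈ s, IsEquiv (S i)) : IsEquiv (∑ i ∈ s, S i) :=
  Finset.sum_induction S IsEquiv (fun _ _ ha hb => ha.add hb) (fun _ _ _ _ _ => rfl) hS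

theorem G1_comm {S : C₀(Γ, W) →L[E] C₀(Γ, W)} (hS : IsEquiv S) (γ : Γ) (y : C₀(Γ, W)) :
    S (G1_tr γ y) = G1_tr γ (S y) :=
  ZeroAtInftyContinuousMap.ext fun x => hS γ y _ (fun _ => rfl) x

theorem IsEquiv.inv {S T : C₀(Γ, W) →L[E] C₀(Γ, W)} (hS : IsEquiv S) (h₁ : S * T = 1)
    (h₂ : T * S = 1) : IsEquiv T := by
  intro γ y y' h x
  have h1 : S (T y) = y := congrArg (fun f : C₀(Γ, W) →L[E] C₀(Γ, W) => f y) h₁
  have h2 : ∀ z, T (S z) = z := fun z => congrArg (fun f : C₀(Γ, W) →L[E] C₀(Γ, W) => f z) h₂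
  have h3 : y' = S (G1_tr γ (T y)) := by
    rw [G1_comm hS, h1]
    exact ZeroAtInftyContinuousMap.ext h
  rw [h3, h2, G1_tr_apply]

omit [Group Γ] in
theorem G1_norm_le (y : C₀(Γ, W)) (x : Γ) : ‖y x‖ ≤ ‖y‖ := y.toBCF.norm_coe_le_norm x

omit [Group Γ] in
theorem G1_fin (y : C₀(Γ, W)) {ε : ℝ} (hε : 0 < ε) : {x | ε ≤ ‖y x‖}.Finite := by
  have h := (G1_tendsto y).eventually (Metric.ball_mem_nhds (0 : W) hε)
  rw [Filter.eventually_cofinite] at h
  simpa using h

open Classical in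
/-- the delta functions -/
noncomputable def G1_d (γ : Γ) : W →ₗ[E] C₀(Γ, W) where
  toFun v :=
    { toFun x := if x = γ then v else 0
      continuous_toFun := continuous_of_discreteTopology
      zero_at_infty' := by
        rw [Filter.cocompact_eq_cofinite]
        refine tendsto_const_nhds.congr' ?_
        filter_upwards [Filter.eventually_cofinite_ne γ] with x hx
        simp [hx] }
  map_add' v w := ZeroAtInftyContinuousMap.ext fun x => by
    change (if x = γ then v + w else 0) = (if x = γ then v else 0) + (if x = γ then w else 0)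
    split_ifs <;> simp
  map_smul' c v := ZeroAtInftyContinuousMap.ext fun x => by
    change (if x = γ then c • v else 0) = c • (if x = γ then v else 0)
    split_ifs <;> simp

omit [Group Γ] in
open Classical in
theorem G1_d_apply (γ : Γ) (v : W) (x : Γ) :
    G1_d (E := E) γ v x = if x = γ then v else 0 := rfl

omit [Group Γ] in
theorem G1_sum_apply {σ : Type} (s : Finset σ) (f : σ → C₀(Γ, W)) (x : Γ) :
    (∑ i ∈ s, f i) x = ∑ i ∈ s, f i x := by
  classical
  induction s using Finset.induction_on with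
  | empty => rfl
  | insert a s ha ih =>
    rw [Finset.sum_insert ha, Finset.sum_insert ha, ← ih]
    rfl

omit [Group Γ] in
theorem G1_dense (M : Submodule E C₀(Γ, W)) (hM : IsClosed (M : Set C₀(Γ, W)))
    (hd : ∀ γ v, G1_d (E := E) γ v ∈ M) (y : C₀(Γ, W)) : y ∈ M := by
  classical
  refine hM.closure_subset (Metric.mem_closure_iff.2 fun ε hε => ?_)
  have hf := G1_fin y (half_pos hε)
  refine ⟨∑ x ∈ hf.toFinset, G1_d (E := E) x (y x), M.sum_mem fun x _ => hd _ _, ?_⟩
  refine lt_of_le_of_lt ?_ (half_lt_self hε)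
  rw [dist_eq_norm, ← ZeroAtInftyContinuousMap.norm_toBCF_eq_norm,
    BoundedContinuousFunction.norm_le (half_pos hε).le]
  intro x
  change ‖y x - (∑ x ∈ hf.toFinset, G1_d (E := E) x (y x)) x‖ ≤ ε / 2
  rw [G1_sum_apply]
  simp only [G1_d_apply, Finset.sum_ite_eq, Set.Finite.mem_toFinset, Set.mem_ofPred_eq]
  split_ifs with h
  · rw [sub_self, norm_zero]
    exact (half_pos hε).le
  · rw [sub_zero]
    exact (not_le.1 h).le

theorem G1_summable [CompleteSpace W] [IsUltrametricDist W] (H : Subgroup Γ) (g : Γ)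
    (y : C₀(Γ, W)) : Summable fun h : H => y (h * g) :=
  NonarchimedeanAddGroup.summable_of_tendsto_cofinite_zero ((G1_tendsto y).comp
    (Function.Injective.tendsto_cofinite fun _ _ h => Subtype.ext (mul_right_cancel h)))

/-- the sum over a coset -/
noncomputable def G1_av [CompleteSpace W] [IsUltrametricDist W] (H : Subgroup Γ) (g : Γ) :
    C₀(Γ, W) →L[E] W :=
  LinearMap.mkContinuous
    { toFun y := ∑' h : H, y (h * g)
      map_add' y z := (G1_summable H g y).tsum_add (G1_summable H g z)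
      map_smul' c y := (G1_summable H g y).tsum_const_smul c } 1 fun y => by
    rw [one_mul]
    exact IsUltrametricDist.norm_tsum_le_of_forall_le_of_nonneg (norm_nonneg _)
      fun h => G1_norm_le y _

theorem G1_av_apply [CompleteSpace W] [IsUltrametricDist W] (H : Subgroup Γ) (g : Γ)
    (y : C₀(Γ, W)) : G1_av (E := E) H g y = ∑' h : H, y (h * g) := rfl

/-- the closed span of the differences of translates -/
noncomputable def G1_N (E : Type) [NontriviallyNormedField E] [NormedSpace E W]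
    (H : Subgroup Γ) : Submodule E C₀(Γ, W) :=
  (Submodule.span E {z | ∃ n ∈ H, ∃ y : C₀(Γ, W), z = G1_tr n y - y}).topologicalClosure

theorem G1_mem (H : Subgroup Γ) {n : Γ} (hn : n ∈ H) (y : C₀(Γ, W)) :
    G1_tr n y - y ∈ G1_N E H :=
  Submodule.le_topologicalClosure _ (Submodule.subset_span ⟨n, hn, y, rfl⟩)

theorem G1_le (H : Subgroup Γ) (M : Submodule E C₀(Γ, W)) (hM : IsClosed (M : Set C₀(Γ, W)))
    (h : ∀ n ∈ H, ∀ y : C₀(Γ, W), G1_tr n y - y ∈ M) : G1_N E H ≤ M := by
  refine Submodule.topologicalClosure_minimal _ (Submodule.span_le.2 ?_) hM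
  rintro z ⟨n, hn, y, rfl⟩
  exact h n hn y

omit [TopologicalSpace Γ] [DiscreteTopology Γ] in
theorem G1_sep [Group.ResiduallyFinite Γ] (s : Finset Γ) :
    ∃ H : FiniteIndexNormalSubgroup Γ, ∀ x ∈ s, x ∈ H.toSubgroup → x = 1 := by
  classical
  induction s using Finset.induction_on with
  | empty => exact ⟨.ofSubgroup ⊤, by simp⟩
  | insert a s ha ih =>
    obtain ⟨H, hH⟩ := ih
    by_cases h1 : a = 1
    · refine ⟨H, fun x hx hxH => ?_⟩
      rcases Finset.mem_insert.1 hx with rfl | hx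
      · exact h1
      · exact hH x hx hxH
    · obtain ⟨H', hH'⟩ := Group.exists_finiteIndexNormalSubgroup_notMem a h1
      refine ⟨.ofSubgroup (H.toSubgroup ⊓ H'.toSubgroup), fun x hx hxH => ?_⟩
      rcases Finset.mem_insert.1 hx with rfl | hx
      · exact absurd hxH.2 hH'
      · exact hH x hx hxH.1

theorem exists_family [Group.ResiduallyFinite Γ] [CompleteSpace E] [IsUltrametricDist W]
    [FiniteDimensional E W] :
    ∃ (σ : Type) (N : σ → Submodule E C₀(Γ, W)), (∀ i, FiniteDimensional E (C₀(Γ, W) ⧸ N i)) ∧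
      (∀ y, (∀ i, y ∈ N i) → y = 0) ∧
      ∀ S : C₀(Γ, W) →L[E] C₀(Γ, W), IsEquiv S → ∀ i, ∀ y ∈ N i, S y ∈ N i := by
  classical
  have hW : CompleteSpace W := FiniteDimensional.complete E W
  refine ⟨FiniteIndexNormalSubgroup Γ, fun H => G1_N E H.toSubgroup, fun H => ?_, fun y hy => ?_,
    fun S hS H => ?_⟩
  · have hfq : Fintype (Γ ⧸ H.toSubgroup) := Fintype.ofFinite _
    let L : ((Γ ⧸ H.toSubgroup) → W) →ₗ[E] C₀(Γ, W) :=
      ∑ q : Γ ⧸ H.toSubgroup, (G1_d q.out).comp (LinearMap.proj q)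
    have hL : ∀ (q : Γ ⧸ H.toSubgroup) (v : W), L (Pi.single q v) = G1_d (E := E) q.out v := by
      intro q v
      simp only [L, LinearMap.sum_apply, LinearMap.comp_apply, LinearMap.proj_apply]
      rw [Finset.sum_eq_single q]
      · rw [Pi.single_eq_same]
      · intro b _ hb
        rw [Pi.single_eq_of_ne hb, map_zero]
      · intro h
        exact absurd (Finset.mem_univ q) h
    have hcl : IsClosed ((G1_N E H.toSubgroup ⊔ LinearMap.range L : Submodule E C₀(Γ, W)) :
        Set C₀(Γ, W)) :=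
      Submodule.isClosed_sup_finiteDimensional _ _ (Submodule.isClosed_topologicalClosure _)
    have htop := G1_dense _ hcl (by
      intro γ v
      have h1 : ((γ : Γ ⧸ H.toSubgroup).out)⁻¹ * γ ∈ H.toSubgroup :=
        QuotientGroup.eq.1 (QuotientGroup.out_eq' _)
      have h2 : γ * ((γ : Γ ⧸ H.toSubgroup).out)⁻¹ ∈ H.toSubgroup :=
        H.isNormal'.mem_comm h1
      have h3 : G1_tr (γ * ((γ : Γ ⧸ H.toSubgroup).out)⁻¹) (G1_d (E := E) γ v) =
          G1_d (E := E) (γ : Γ ⧸ H.toSubgroup).out v := by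
        refine ZeroAtInftyContinuousMap.ext fun x => ?_
        rw [G1_tr_apply, G1_d_apply, G1_d_apply]
        refine if_congr ?_ rfl rfl
        rw [mul_assoc, mul_eq_left, inv_mul_eq_one, eq_comm]
      have h4 := G1_mem (E := E) H.toSubgroup h2 (G1_d (E := E) γ v)
      rw [h3] at h4
      have h5 := Submodule.sub_mem _ (Submodule.mem_sup_right (S := G1_N E H.toSubgroup)
        (LinearMap.mem_range.2 ⟨_, hL γ v⟩)) (Submodule.mem_sup_left h4)
      rwa [sub_sub_cancel] at h5)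
    exact G1_quot _ L htop
  · refine ZeroAtInftyContinuousMap.ext fun g => ?_
    by_contra hne
    have hpos : 0 < ‖y g‖ := norm_pos_iff.2 hne
    have hf := G1_fin y (half_pos hpos)
    obtain ⟨H, hH⟩ := G1_sep (hf.toFinset.image (· * g⁻¹))
    have hker : G1_N E H.toSubgroup ≤ LinearMap.ker (G1_av (E := E) (W := W) H.toSubgroup g :
        C₀(Γ, W) →ₗ[E] W) := by
      refine G1_le _ _ (G1_av (E := E) (W := W) H.toSubgroup g).isClosed_ker fun n hn z => ?_
      rw [LinearMap.mem_ker, map_sub, sub_eq_zero]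
      change ∑' h : H.toSubgroup, z (n * (h * g)) = ∑' h : H.toSubgroup, z (h * g)
      rw [← (Equiv.mulLeft (⟨n, hn⟩ : H.toSubgroup)).tsum_eq fun h : H.toSubgroup => z (h * g)]
      simp [mul_assoc]
    have h0 : ∑' h : H.toSubgroup, y (h * g) = 0 := hker (hy H)
    rw [(G1_summable H.toSubgroup g y).tsum_eq_add_tsum_ite 1] at h0
    have h1 : ‖∑' h : H.toSubgroup, if h = 1 then 0 else y (h * g)‖ ≤ ‖y g‖ / 2 := by
      refine IsUltrametricDist.norm_tsum_le_of_forall_le_of_nonneg (half_pos hpos).le fun h => ?_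
      split_ifs with hh
      · rw [norm_zero]
        exact (half_pos hpos).le
      · by_contra hlt
        refine hh (Subtype.ext (hH h (Finset.mem_image.2 ⟨h * g, ?_, by simp⟩) h.2))
        rw [Set.Finite.mem_toFinset]
        exact (not_le.1 hlt).le
    rw [← neg_eq_iff_add_eq_zero] at h0
    rw [← h0, norm_neg, OneMemClass.coe_one, one_mul] at h1
    linarith
  · refine G1_le H.toSubgroup ((G1_N E H.toSubgroup).comap (S : C₀(Γ, W) →ₗ[E] C₀(Γ, W)))
      ((Submodule.isClosed_topologicalClosure _).preimage S.continuous) fun n hn y => ?_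
    rw [Submodule.mem_comap, map_sub]
    change S (G1_tr n y) - S y ∈ _
    rw [G1_comm hS]
    exact G1_mem _ hn _

end Pool.Agent.MP_4d0c14_b
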