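import Pool.Agent.MP_4d0c14_b.G1

/-! Equivariant one-sided inverses from the density hypothesis. -/

namespace Pool.Agent.MP_4d0c14_b

open scoped ZeroAtInfty Matrix

section G2_Alg

variable {Γ J E : Type} [Group Γ] [Fintype J] [DecidableEq J] [Field E]

/-- The product of two kernels. -/
noncomputable def G2_mul (k k' : Γ →₀ Matrix J J E) : Γ →₀ Matrix J J E :=
  k.sum fun η A => k'.sum fun η' A' => Finsupp.single (η * η') (A * A')

/-- Evaluation of the operator as an additive function of the kernel. -/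
noncomputable def G2_opH (y : Γ → J → E) (γ : Γ) : (Γ →₀ Matrix J J E) →+ (J → E) :=
  AddMonoidHom.mk' (fun k => op k y γ) fun _ _ =>
    Finsupp.sum_add_index' (fun _ => Matrix.zero_mulVec _) fun _ _ _ => Matrix.add_mulVec _ _ _

omit [DecidableEq J] in
theorem G2_opH_apply (y : Γ → J → E) (γ : Γ) (k : Γ →₀ Matrix J J E) :
    G2_opH y γ k = op k y γ := rfl

omit [DecidableEq J] in
theorem G2_op_single (η : Γ) (A : Matrix J J E) (y : Γ → J → E) (γ : Γ) :
    op (Finsupp.single η A) y γ = A *ᵥ y (γ * η) :=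
  Finsupp.sum_single_index (Matrix.zero_mulVec _)

omit [DecidableEq J] in
theorem G2_op_mul (k k' : Γ →₀ Matrix J J E) (y : Γ → J → E) (γ : Γ) :
    op (G2_mul k k') y γ = op k (op k' y) γ := by
  rw [← G2_opH_apply]
  simp only [G2_mul, Finsupp.sum, map_sum, G2_opH_apply, G2_op_single]
  simp only [op, Finsupp.sum, Matrix.mulVec_sum, Matrix.mulVec_mulVec, mul_assoc]

omit [DecidableEq J] in
theorem G2_mul_apply (k k' : Γ →₀ Matrix J J E) (ζ : Γ) :
    G2_mul k k' ζ = k.sum fun η A => A * k' (η⁻¹ * ζ) := by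
  classical
  simp only [G2_mul, Finsupp.sum, Finsupp.finsetSum_apply]
  refine Finset.sum_congr rfl fun η _ => ?_
  rw [Finset.sum_eq_single (η⁻¹ * ζ)]
  · rw [mul_inv_cancel_left, Finsupp.single_eq_same]
  · intro b _ hb
    refine Finsupp.single_eq_of_ne fun h => hb ?_
    rw [h, inv_mul_cancel_left]
  · intro h
    rw [Finsupp.notMem_support_iff.1 h, Matrix.mul_zero, Finsupp.single_zero, Finsupp.zero_apply]

omit [DecidableEq J] in
theorem G2_mul_apply' (k k' : Γ →₀ Matrix J J E) (ζ : Γ) :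
    G2_mul k k' ζ = k'.sum fun η A => k (ζ * η⁻¹) * A := by
  classical
  simp only [G2_mul, Finsupp.sum, Finsupp.finsetSum_apply]
  rw [Finset.sum_comm]
  refine Finset.sum_congr rfl fun η _ => ?_
  rw [Finset.sum_eq_single (ζ * η⁻¹)]
  · rw [inv_mul_cancel_right, Finsupp.single_eq_same]
  · intro b _ hb
    refine Finsupp.single_eq_of_ne fun h => hb ?_
    rw [h, mul_inv_cancel_right]
  · intro h
    rw [Finsupp.notMem_support_iff.1 h, Matrix.zero_mul, Finsupp.single_zero, Finsupp.zero_apply]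

omit [DecidableEq J] in
theorem G2_op_st (k : Γ →₀ Matrix J J E) (y : Γ → J → E) (γ : Γ) :
    op (st k) y γ = k.sum fun η A => Aᵀ *ᵥ y (γ * η⁻¹) := by
  rw [op, st, Finsupp.sum_mapRange_index (fun _ => Matrix.zero_mulVec _),
    Finsupp.sum_equivMapDomain]
  rfl

omit [Group Γ] [DecidableEq J] in
theorem G2_exists_ker (y : J → Γ → J → E) (hy : ∀ j, (Function.support (y j)).Finite) :
    ∃ r : Γ →₀ Matrix J J E, ∀ η j q, r η j q = y j η q := by
  refine ⟨Finsupp.ofSupportFinite (fun η => Matrix.of fun j q => y j η q) ?_, fun _ _ _ => rfl⟩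
  refine (Set.finite_iUnion hy).subset fun η hη => ?_
  by_contra h
  refine hη ?_
  ext j q
  have : y j η = 0 := by
    by_contra h'
    exact h (Set.mem_iUnion.2 ⟨j, h'⟩)
  simp [this]

omit [DecidableEq J] in
theorem G2_right (a r : Γ →₀ Matrix J J E) (y : J → Γ → J → E) (hr : ∀ η j q, r η j q = y j η q)
    (ζ : Γ) (p j : J) : G2_mul a (st r) ζ p j = op a (y j) ζ⁻¹ p := by
  rw [G2_mul_apply]
  simp only [op, Finsupp.sum, Matrix.sum_apply, Finset.sum_apply, Matrix.mul_apply, st_apply,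
    Matrix.transpose_apply, hr, Matrix.mulVec, dotProduct, mul_inv_rev, inv_inv]

omit [DecidableEq J] in
theorem G2_left (a r : Γ →₀ Matrix J J E) (y : J → Γ → J → E) (hr : ∀ η j q, r η j q = y j η q)
    (ζ : Γ) (j p : J) : G2_mul r a ζ j p = op (st a) (y j) ζ p := by
  rw [G2_mul_apply', G2_op_st]
  simp only [Finsupp.sum, Matrix.sum_apply, Finset.sum_apply, Matrix.mul_apply,
    Matrix.transpose_apply, hr, Matrix.mulVec, dotProduct, mul_comm]

theorem G2_op_err {d : ℕ} (a b : Fin d → Γ →₀ Matrix J J E) (y : Γ → J → E) (γ : Γ) :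
    op (Finsupp.single 1 1 - ∑ i, G2_mul (a i) (b i)) y γ =
      y γ - ∑ i, op (a i) (op (b i) y) γ := by
  rw [← G2_opH_apply, map_sub, map_sum]
  simp only [G2_opH_apply, G2_op_single, G2_op_mul, Matrix.one_mulVec, mul_one]

end G2_Alg

variable {Γ J E : Type} [Group Γ] [TopologicalSpace Γ] [DiscreteTopology Γ] [Fintype J]
  [DecidableEq J] [NontriviallyNormedField E] [IsUltrametricDist E]

theorem c0_coe (y : C₀(Γ, J → E)) : C0 (fun γ => y γ) := by
  intro ε hε
  have h := y.zero_at_infty'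
  rw [Filter.cocompact_eq_cofinite, NormedAddGroup.tendsto_nhds_zero] at h
  exact (Filter.eventually_cofinite.1 (h ε hε)).subset fun γ hγ => not_lt.2 (le_of_lt hγ)

theorem C0.exists_coe {y : Γ → J → E} (h : C0 y) : ∃ y' : C₀(Γ, J → E), ∀ γ, y' γ = y γ := by
  refine ⟨⟨⟨y, continuous_of_discreteTopology⟩, ?_⟩, fun _ => rfl⟩
  rw [Filter.cocompact_eq_cofinite, NormedAddGroup.tendsto_nhds_zero]
  intro ε hε
  refine Filter.eventually_cofinite.2 ((h (ε / 2) (half_pos hε)).subset fun γ hγ => ?_)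
  exact (half_lt_self hε).trans_le (not_lt.1 hγ)

omit [DecidableEq J] [IsUltrametricDist E] in
theorem G2_tendsto (k : Γ →₀ Matrix J J E) (y : C₀(Γ, J → E)) :
    Filter.Tendsto (op k fun η => y η) (Filter.cocompact Γ) (nhds 0) := by
  have h := y.zero_at_infty'
  rw [Filter.cocompact_eq_cofinite] at h ⊢
  have h1 : ∀ η ∈ k.support, Filter.Tendsto (fun γ => k η *ᵥ y (γ * η)) Filter.cofinite
      (nhds 0) := by
    intro η _
    have hc : Continuous fun v : J → E => k η *ᵥ v :=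
      Continuous.matrix_mulVec continuous_const continuous_id
    have h2 := (hc.tendsto 0).comp (h.comp (mul_left_injective η).tendsto_cofinite)
    rw [Matrix.mulVec_zero] at h2
    exact h2
  have h3 := tendsto_finsetSum k.support h1
  rw [Finset.sum_const_zero] at h3
  exact h3

/-- The operator as a linear map. -/
noncomputable def G2_lin (k : Γ →₀ Matrix J J E) : C₀(Γ, J → E) →ₗ[E] C₀(Γ, J → E) where
  toFun y := ⟨⟨op k fun η => y η, continuous_of_discreteTopology⟩, G2_tendsto k y⟩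
  map_add' y y' := by
    ext1 γ
    change op k (fun η => (y + y') η) γ = op k (fun η => y η) γ + op k (fun η => y' η) γ
    simp only [op, Finsupp.sum, ZeroAtInftyContinuousMap.add_apply, Matrix.mulVec_add,
      Finset.sum_add_distrib]
  map_smul' c y := by
    ext1 γ
    change op k (fun η => (c • y) η) γ = c • op k (fun η => y η) γ
    simp only [op, Finsupp.sum, ZeroAtInftyContinuousMap.smul_apply, Matrix.mulVec_smul,
      Finset.smul_sum]

omit [DecidableEq J] in
theorem G2_lin_le (k : Γ →₀ Matrix J J E) {ε : ℝ} (hε : 0 ≤ ε) (h : ∀ η ∈ k.support, MLe ε (k η))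
    (y : C₀(Γ, J → E)) : ‖G2_lin k y‖ ≤ ε * ‖y‖ := by
  have h0 : 0 ≤ ε * ‖y‖ := mul_nonneg hε (norm_nonneg _)
  rw [← ZeroAtInftyContinuousMap.norm_toBCF_eq_norm]
  refine (BoundedContinuousFunction.norm_le h0).2 fun γ => ?_
  change ‖∑ η ∈ k.support, k η *ᵥ y (γ * η)‖ ≤ _
  refine IsUltrametricDist.norm_sum_le_of_forall_le_of_nonneg h0 fun η hη => ?_
  refine ((h η hη).mulVec hε _).trans (mul_le_mul_of_nonneg_left ?_ hε)
  exact y.toBCF.norm_coe_le_norm (γ * η)

theorem exists_opL (k : Γ →₀ Matrix J J E) : ∃ S : C₀(Γ, J → E) →L[E] C₀(Γ, J → E),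
    (∀ y γ, S y γ = op k (fun η => y η) γ) ∧ IsEquiv S ∧
      ∀ ε : ℝ, 0 ≤ ε → (∀ η, MLe ε (k η)) → ‖S‖ ≤ ε := by
  choose C hC0 hC using fun η => MLe.exists_bound (k η)
  have h0 : 0 ≤ ∑ η ∈ k.support, C η := Finset.sum_nonneg fun η _ => (hC0 η).le
  have h1 : ∀ η ∈ k.support, MLe (∑ η ∈ k.support, C η) (k η) := fun η hη =>
    (hC η).mono (Finset.single_le_sum (fun η _ => (hC0 η).le) hη)
  refine ⟨(G2_lin k).mkContinuous _ (G2_lin_le k h0 h1), fun _ _ => rfl, ?_, fun ε hε h => ?_⟩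
  · intro γ y y' hy x
    change op k (fun η => y' η) x = op k (fun η => y η) (γ * x)
    simp only [op, hy, mul_assoc]
  · exact ContinuousLinearMap.opNorm_le_bound _ hε (G2_lin_le k hε fun η _ => h η)

theorem G2_unit {E V : Type} [NontriviallyNormedField E] [NormedAddCommGroup V] [NormedSpace E V]
    [CompleteSpace V] (S : V →L[E] V) (h : ‖S‖ < 1) :
    ∃ U : V →L[E] V, (1 - S) * U = 1 ∧ U * (1 - S) = 1 := by
  obtain ⟨u, hu⟩ := isUnit_one_sub_of_norm_lt_one h
  exact ⟨(u⁻¹ : Units _), hu ▸ u.mul_inv, hu ▸ u.inv_mul⟩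

theorem G2_inv [CompleteSpace E] {d : ℕ} (a b : Fin d → Γ →₀ Matrix J J E)
    (A B : Fin d → C₀(Γ, J → E) →L[E] C₀(Γ, J → E))
    (hA : ∀ i y γ, A i y γ = op (a i) (fun η => y η) γ)
    (hB : ∀ i y γ, B i y γ = op (b i) (fun η => y η) γ)
    (h : ∀ η, MLe (1 / 2) ((Finsupp.single 1 1 - ∑ i, G2_mul (a i) (b i) :
      Γ →₀ Matrix J J E) η)) :
    ∃ U : C₀(Γ, J → E) →L[E] C₀(Γ, J → E), IsEquiv U ∧ (∑ i, A i * B i) * U = 1 ∧
      U * ∑ i, A i * B i = 1 := by
  obtain ⟨S, hS, hSe, hSn⟩ := exists_opL (Finsupp.single 1 1 - ∑ i, G2_mul (a i) (b i))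
  have h1 : ‖S‖ < 1 := (hSn _ (by norm_num) h).trans_lt (by norm_num)
  have h2 : ∑ i, A i * B i = 1 - S := by
    ext1 y
    ext1 γ
    have h3 : ∀ s : Finset (Fin d), (∑ i ∈ s, A i * B i) y γ = ∑ i ∈ s, A i (B i y) γ := by
      intro s
      induction s using Finset.induction_on with
      | empty => rfl
      | insert i s hi ih => rw [Finset.sum_insert hi, Finset.sum_insert hi, ← ih]; rfl
    change _ = y γ - S y γ
    rw [h3, hS, G2_op_err, sub_sub_cancel]
    refine Finset.sum_congr rfl fun i _ => ?_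
    rw [hA]
    congr 1
    funext η
    exact hB i y η
  obtain ⟨U, hU, hU'⟩ := G2_unit (V := C₀(Γ, J → E)) S h1
  rw [h2]
  exact ⟨U, (IsEquiv.one.sub hSe).inv hU hU', hU, hU'⟩

theorem exists_right_inv [CompleteSpace E] {d : ℕ} (a : Fin d → Γ →₀ Matrix J J E)
    (ha : DenseG a) (A : Fin d → C₀(Γ, J → E) →L[E] C₀(Γ, J → E))
    (hA : ∀ i y γ, A i y γ = op (a i) (fun η => y η) γ) :
    ∃ s : Fin d → C₀(Γ, J → E) →L[E] C₀(Γ, J → E), (∀ i, IsEquiv (s i)) ∧
      ∑ i, A i * s i = 1 := by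
  classical
  choose y hy hy' using ha
  choose r hr using fun i => G2_exists_ker (fun j => y j i) fun j => hy j i
  choose B hB hBe _ using fun i => exists_opL (st (r i))
  obtain ⟨U, hU, h1, -⟩ := G2_inv a (fun i => st (r i)) A B hA hB (by
    intro η p j
    refine le_trans (le_of_eq ?_) ((norm_le_pi_norm _ p).trans (hy' j η⁻¹))
    congr 1
    simp only [Finsupp.sub_apply, Finsupp.finsetSum_apply, Matrix.sub_apply, Matrix.sum_apply,
      Pi.sub_apply, Finset.sum_apply, G2_right _ _ _ (hr _)]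
    congr 1
    by_cases h : η = 1
    · subst h
      simp [Matrix.one_apply, Pi.single_apply]
    · simp [h])
  refine ⟨fun i => B i * U, fun i => (hBe i).mul hU, ?_⟩
  rw [← h1]
  ext1 v
  simp only [ContinuousLinearMap.sum_apply, ContinuousLinearMap.mul_apply]

theorem exists_left_inv [CompleteSpace E] {d : ℕ} (a : Fin d → Γ →₀ Matrix J J E)
    (ha : DenseG fun i => st (a i)) (A : Fin d → C₀(Γ, J → E) →L[E] C₀(Γ, J → E))
    (hA : ∀ i y γ, A i y γ = op (a i) (fun η => y η) γ) :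
    ∃ r : Fin d → C₀(Γ, J → E) →L[E] C₀(Γ, J → E), (∀ i, IsEquiv (r i)) ∧
      ∑ i, r i * A i = 1 := by
  classical
  choose y hy hy' using ha
  choose r hr using fun i => G2_exists_ker (fun j => y j i) fun j => hy j i
  choose B hB hBe _ using fun i => exists_opL (r i)
  obtain ⟨U, hU, -, h1⟩ := G2_inv r a B A hB hA (by
    intro η j p
    refine le_trans (le_of_eq ?_) ((norm_le_pi_norm _ p).trans (hy' j η))
    congr 1
    simp only [Finsupp.sub_apply, Finsupp.finsetSum_apply, Matrix.sub_apply, Matrix.sum_apply,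
      Pi.sub_apply, Finset.sum_apply, G2_left _ _ _ (hr _)]
    congr 1
    by_cases h : η = 1
    · subst h
      simp [Matrix.one_apply, Pi.single_apply, eq_comm]
    · simp [h])
  refine ⟨fun i => U * B i, fun i => hU.mul (hBe i), ?_⟩
  rw [← h1]
  ext1 v
  simp only [ContinuousLinearMap.sum_apply, ContinuousLinearMap.mul_apply, map_sum]

end Pool.Agent.MP_4d0c14_b
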