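import Pool.Agent.MP_4d0c14_b.G2

/-! Exactness of the Koszul complex on `c₀(Γ)^J` for one and for two operators. -/

namespace Pool.Agent.MP_4d0c14_b

open scoped ZeroAtInfty

theorem G3_prod_fin {E V : Type} [Field E] [AddCommGroup V] [Module E V] (N : Submodule E V)
    [FiniteDimensional E (V ⧸ N)] : FiniteDimensional E ((V × V) ⧸ N.prod N) := by
  let f : V × V →ₗ[E] (V ⧸ N) × (V ⧸ N) := N.mkQ.prodMap N.mkQ
  have hk : LinearMap.ker f = N.prod N := by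
    simp only [f, LinearMap.ker_prodMap, Submodule.ker_mkQ]
  refine FiniteDimensional.of_injective ((N.prod N).liftQ f hk.ge) ?_
  rw [← LinearMap.ker_eq_bot]
  exact Submodule.ker_liftQ_eq_bot _ _ _ hk.le

theorem G3_two {E V σ : Type} [Field E] [AddCommGroup V] [Module E V]
    (N : σ → Submodule E V) (hfin : ∀ i, FiniteDimensional E (V ⧸ N i))
    (hsep : ∀ y, (∀ i, y ∈ N i) → y = 0) (A₀ A₁ s₀ s₁ r₀ r₁ : V →ₗ[E] V)
    (hA₀ : ∀ i, ∀ y ∈ N i, A₀ y ∈ N i) (hA₁ : ∀ i, ∀ y ∈ N i, A₁ y ∈ N i)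
    (hs₀ : ∀ i, ∀ y ∈ N i, s₀ y ∈ N i) (hs₁ : ∀ i, ∀ y ∈ N i, s₁ y ∈ N i)
    (hr₀ : ∀ i, ∀ y ∈ N i, r₀ y ∈ N i) (hr₁ : ∀ i, ∀ y ∈ N i, r₁ y ∈ N i)
    (hs : ∀ y, A₀ (s₀ y) + A₁ (s₁ y) = y) (hr : ∀ y, r₀ (A₀ y) + r₁ (A₁ y) = y)
    (hc : ∀ y, A₀ (A₁ y) = A₁ (A₀ y)) (y₀ y₁ : V) (hy : A₀ y₀ + A₁ y₁ = 0) :
    ∃ z, y₀ = -A₁ z ∧ y₁ = A₀ z := by
  let d : V × V →ₗ[E] V := A₀.coprod A₁
  let β : V × V →ₗ[E] V × V := (s₀.coprod (-A₁)).prod (s₁.coprod A₀)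
  let α : V × V →ₗ[E] V × V :=
    d.prod (r₀ ∘ₗ (LinearMap.snd E V V - s₁ ∘ₗ d) - r₁ ∘ₗ (LinearMap.fst E V V - s₀ ∘ₗ d))
  have hβ : ∀ v : V × V, β v = (s₀ v.1 - A₁ v.2, s₁ v.1 + A₀ v.2) := fun v => by
    simp [β, sub_eq_add_neg]
  have hα : ∀ v : V × V, α v = (A₀ v.1 + A₁ v.2,
      r₀ (v.2 - s₁ (A₀ v.1 + A₁ v.2)) - r₁ (v.1 - s₀ (A₀ v.1 + A₁ v.2))) := fun v => by
    simp [α, d]
  have key := mul_eq_one_symm_of_family (fun i => (N i).prod (N i))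
    (fun i => haveI := hfin i; G3_prod_fin (N i))
    (fun v hv => Prod.ext (hsep _ fun i => (hv i).1) (hsep _ fun i => (hv i).2)) α β
    (fun i v hv => by
      have h1 : A₀ v.1 + A₁ v.2 ∈ N i := (N i).add_mem (hA₀ i _ hv.1) (hA₁ i _ hv.2)
      rw [hα]
      exact ⟨h1, (N i).sub_mem (hr₀ i _ ((N i).sub_mem hv.2 (hs₁ i _ h1)))
        (hr₁ i _ ((N i).sub_mem hv.1 (hs₀ i _ h1)))⟩)
    (fun i v hv => by
      rw [hβ]
      exact ⟨(N i).sub_mem (hs₀ i _ hv.1) (hA₁ i _ hv.2),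
        (N i).add_mem (hs₁ i _ hv.1) (hA₀ i _ hv.2)⟩)
    (fun v => by
      have h1 : A₀ (s₀ v.1 - A₁ v.2) + A₁ (s₁ v.1 + A₀ v.2) = v.1 := by
        rw [map_sub, map_add, hc]
        conv_rhs => rw [← hs v.1]
        abel
      rw [hβ, hα]
      refine Prod.ext h1 ?_
      simp only [h1]
      rw [add_sub_cancel_left, sub_sub_cancel_left, map_neg, sub_neg_eq_add, hr]) (y₀, y₁)
  rw [hα, hβ] at key
  simp only [hy, map_zero, sub_zero, zero_sub, zero_add] at key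
  exact ⟨_, (congrArg Prod.fst key).symm, (congrArg Prod.snd key).symm⟩

variable {Γ J E : Type} [Group Γ] [Group.ResiduallyFinite Γ] [Fintype J]
  [DecidableEq J] [NontriviallyNormedField E] [IsUltrametricDist E] [CompleteSpace E]

theorem koszul_one (a : Fin 1 → Γ →₀ Matrix J J E) (ha : DenseG a) :
    (∀ y, C0 y → ∃ z, C0 z ∧ op (a 0) z = y) ∧ ∀ z, C0 z → op (a 0) z = 0 → z = 0 := by
  letI : TopologicalSpace Γ := ⊥
  haveI : DiscreteTopology Γ := ⟨rfl⟩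
  choose A hA hAe _ using fun i => exists_opL (E := E) (a i)
  obtain ⟨s, hse, hs⟩ := exists_right_inv a ha A hA
  obtain ⟨σ, N, hfin, hsep, hN⟩ := exists_family (Γ := Γ) (W := J → E) (E := E)
  have hs' : ∀ y, A 0 (s 0 y) = y := fun y => by
    have := congrArg (fun T => T y) hs
    simpa using this
  refine ⟨fun y hy => ?_, fun z hz h0 => ?_⟩
  · obtain ⟨y', hy'⟩ := hy.exists_coe
    refine ⟨fun γ => s 0 y' γ, c0_coe _, funext fun γ => ?_⟩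
    rw [← hA, hs', hy']
  · obtain ⟨z', hz'⟩ := hz.exists_coe
    have h1 : A 0 z' = 0 := by
      ext γ : 1
      rw [hA, funext hz', h0]; rfl
    have h2 := mul_eq_one_symm_of_family N hfin hsep (A 0).toLinearMap (s 0).toLinearMap
      (hN _ (hAe 0)) (hN _ (hse 0)) hs' z'
    simp only [ContinuousLinearMap.coe_coe, h1, map_zero] at h2
    funext γ
    rw [← hz', ← h2]; rfl

theorem koszul_two (a : Fin 2 → Γ →₀ Matrix J J E) (ha : DenseG a)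
    (ha' : DenseG fun i => st (a i))
    (hc : ∀ y, C0 y → op (a 0) (op (a 1) y) = op (a 1) (op (a 0) y)) :
    (∀ y, C0 y → ∃ z₀ z₁, C0 z₀ ∧ C0 z₁ ∧ op (a 0) z₀ + op (a 1) z₁ = y) ∧
    (∀ y₀ y₁, C0 y₀ → C0 y₁ → op (a 0) y₀ + op (a 1) y₁ = 0 →
      ∃ z, C0 z ∧ y₀ = -op (a 1) z ∧ y₁ = op (a 0) z) ∧
    ∃ C : ℝ, 0 < C ∧ ∀ z, C0 z → ∀ M : ℝ, 0 ≤ M → (∀ γ, ‖op (a 0) z γ‖ ≤ M) →
      (∀ γ, ‖op (a 1) z γ‖ ≤ M) → ∀ γ, ‖z γ‖ ≤ C * M := by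
  letI : TopologicalSpace Γ := ⊥
  haveI : DiscreteTopology Γ := ⟨rfl⟩
  choose A hA hAe _ using fun i => exists_opL (E := E) (a i)
  obtain ⟨s, hse, hs⟩ := exists_right_inv a ha A hA
  obtain ⟨r, hre, hr⟩ := exists_left_inv a ha' A hA
  obtain ⟨σ, N, hfin, hsep, hN⟩ := exists_family (Γ := Γ) (W := J → E) (E := E)
  have hA' : ∀ i y, (fun γ => A i y γ) = op (a i) (fun η => y η) := fun i y => funext (hA i y)
  have hs' : ∀ y, A 0 (s 0 y) + A 1 (s 1 y) = y := fun y => by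
    have := congrArg (fun T => T y) hs
    simpa [Fin.sum_univ_two] using this
  have hr' : ∀ y, r 0 (A 0 y) + r 1 (A 1 y) = y := fun y => by
    have := congrArg (fun T => T y) hr
    simpa [Fin.sum_univ_two] using this
  have hc' : ∀ y, A 0 (A 1 y) = A 1 (A 0 y) := fun y => by
    ext γ : 1
    rw [hA, hA, hA', hA', hc _ (c0_coe y)]
  refine ⟨fun y hy => ?_, fun y₀ y₁ h₀ h₁ h => ?_, ‖r 0‖ + ‖r 1‖ + 1, by positivity,
    fun z hz M hM m₀ m₁ γ => ?_⟩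
  · obtain ⟨y', hy'⟩ := hy.exists_coe
    refine ⟨fun γ => s 0 y' γ, fun γ => s 1 y' γ, c0_coe _, c0_coe _, funext fun γ => ?_⟩
    rw [Pi.add_apply, ← hA, ← hA, ← hy', ← ZeroAtInftyContinuousMap.add_apply, hs']
  · obtain ⟨y₀', e₀⟩ := h₀.exists_coe
    obtain ⟨y₁', e₁⟩ := h₁.exists_coe
    have h2 : A 0 y₀' + A 1 y₁' = 0 := by
      ext γ : 1
      rw [ZeroAtInftyContinuousMap.add_apply, hA, hA, funext e₀, funext e₁, ← Pi.add_apply, h]; rfl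
    obtain ⟨z, z₀, z₁⟩ := G3_two N hfin hsep (A 0).toLinearMap (A 1).toLinearMap
      (s 0).toLinearMap (s 1).toLinearMap (r 0).toLinearMap (r 1).toLinearMap
      (hN _ (hAe 0)) (hN _ (hAe 1)) (hN _ (hse 0)) (hN _ (hse 1)) (hN _ (hre 0)) (hN _ (hre 1))
      hs' hr' hc' y₀' y₁' h2
    refine ⟨fun γ => z γ, c0_coe _, funext fun γ => ?_, funext fun γ => ?_⟩
    · rw [← e₀, z₀, Pi.neg_apply, ← hA]; rfl
    · rw [← e₁, z₁, ← hA]; rfl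
  · obtain ⟨z', e⟩ := hz.exists_coe
    have nb : ∀ y : C₀(Γ, J → E), (∀ γ, ‖y γ‖ ≤ M) → ‖y‖ ≤ M := fun y hy => by
      rw [← ZeroAtInftyContinuousMap.norm_toBCF_eq_norm]
      exact (BoundedContinuousFunction.norm_le hM).2 hy
    have b₀ : ‖A 0 z'‖ ≤ M := nb _ fun γ => by rw [hA, funext e]; exact m₀ γ
    have b₁ : ‖A 1 z'‖ ≤ M := nb _ fun γ => by rw [hA, funext e]; exact m₁ γ
    have b₂ : ‖z γ‖ ≤ ‖z'‖ := by
      rw [← e, ← ZeroAtInftyContinuousMap.norm_toBCF_eq_norm]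
      exact z'.toBCF.norm_coe_le_norm γ
    have b₃ : ‖z'‖ ≤ ‖r 0‖ * M + ‖r 1‖ * M := by
      conv_lhs => rw [← hr' z']
      exact (norm_add_le _ _).trans (add_le_add ((r 0).le_opNorm_of_le b₀)
        ((r 1).le_opNorm_of_le b₁))
    nlinarith

end Pool.Agent.MP_4d0c14_b
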