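import Pool.Agent.MP_4d0c14_b.C2

/-! Restriction of equivariant functions on `G` to a lattice acting freely on `G ⧸ H`. -/

namespace Pool.Agent.MP_4d0c14_b

open scoped Matrix

theorem HasLat.free {G : Type} [Group G] {H : Subgroup G} (h : HasLat H) :
    Nonempty (FreeLat H) := by
  classical
  obtain ⟨Γ, rf, ⟨T, hT⟩, hfin⟩ := h
  let B : Set Γ := {γ | γ ≠ 1 ∧ ∃ t ∈ T, t⁻¹ * (γ : G) * t ∈ H}
  have hB : B.Finite := by
    refine (T.finite_toSet.biUnion fun t _ =>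
      (hfin t).preimage Subtype.val_injective.injOn).subset ?_
    rintro γ ⟨-, t, ht, h⟩
    exact Set.mem_biUnion ht ⟨γ.2, h⟩
  have := hB.to_subtype
  choose K hK using fun γ : B => Group.exists_finiteIndexNormalSubgroup_notMem γ.1 γ.2.1
  let N₀ : Subgroup Γ := ⨅ γ, (K γ).toSubgroup
  have hN₁ : N₀.FiniteIndex := Subgroup.finiteIndex_iInf fun γ => inferInstance
  have hN₂ : N₀.Normal := Subgroup.normal_iInf_normal fun γ => inferInstance
  let Λ : Subgroup G := N₀.map Γ.subtype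
  have free : ∀ x : G, ∀ g ∈ Λ, x⁻¹ * g * x ∈ H → g = 1 := by
    rintro x _ ⟨g, hg, rfl⟩ hx
    obtain ⟨γ, hγ, t, ht, h1⟩ := hT x
    have h2 := hN₂.conj_mem' g hg ⟨γ, hγ⟩
    by_contra h0
    have h3 : (⟨γ, hγ⟩ : Γ)⁻¹ * g * ⟨γ, hγ⟩ ∈ B := by
      refine ⟨fun h4 => h0 ?_, t, ht, ?_⟩
      · rw [mul_assoc, inv_mul_eq_one, right_eq_mul] at h4
        rw [h4, map_one]
      · convert H.mul_mem (H.mul_mem h1 hx) (H.inv_mem h1) using 1
        simp only [Subgroup.coe_mul, Subgroup.coe_inv, Subgroup.coe_subtype]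
        group
    exact hK ⟨_, h3⟩ (Subgroup.mem_iInf.1 h2 _)
  let s : Setoid G := ⟨fun x y => ∃ g ∈ Λ, (g * x)⁻¹ * y ∈ H,
    fun x => ⟨1, Λ.one_mem, by simp⟩,
    fun ⟨g, hg, h⟩ => ⟨g⁻¹, Λ.inv_mem hg, by convert H.inv_mem h using 1; group⟩,
    fun ⟨g, hg, h⟩ ⟨g', hg', h'⟩ => ⟨g' * g, Λ.mul_mem hg' hg, by
      convert H.mul_mem h h' using 1; group⟩⟩
  have hQ : Finite (Quotient s) := by
    refine Finite.of_surjective
      (fun z : (Γ ⧸ N₀) × T => Quotient.mk s ((z.1.out⁻¹ : Γ) * z.2)) fun q => ?_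
    obtain ⟨x, rfl⟩ := Quotient.exists_rep q
    obtain ⟨γ, hγ, t, ht, h1⟩ := hT x
    obtain ⟨m, hm⟩ := QuotientGroup.mk_out_eq_mul N₀ (⟨γ, hγ⟩ : Γ)⁻¹
    refine ⟨(QuotientGroup.mk (⟨γ, hγ⟩ : Γ)⁻¹, ⟨t, ht⟩), Quotient.sound ⟨m, ⟨m, m.2, rfl⟩, ?_⟩⟩
    rw [hm]
    convert h1 using 1
    simp only [mul_inv_rev, inv_inv, Subgroup.coe_mul, Subgroup.coe_inv]
    group
  let e := Finite.equivFin (Quotient s)
  refine ⟨⟨Λ, ?_, _, fun i => (e.symm i).out, ?_, fun q => ?_⟩⟩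
  · rw [Group.residuallyFinite_iff_forall_finiteIndexNormalSubgroup]
    intro g hg
    have h1 := Group.eq_one_iff_forall_finiteIndexNormalSubroup
      (Subgroup.inclusion (Subgroup.map_subtype_le N₀) g) fun K => hg (K.comap _)
    exact Subtype.ext (congrArg (fun z : Γ => (z : G)) h1)
  · rintro ⟨g, i⟩ ⟨g', i'⟩ h
    have h1 := QuotientGroup.eq.1 h
    have h2 : i = i' := by
      refine e.symm.injective ?_
      rw [← Quotient.out_eq (e.symm i), ← Quotient.out_eq (e.symm i')]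
      refine Quotient.sound ⟨(g' : G)⁻¹ * g, Λ.mul_mem (Λ.inv_mem g'.2) g.2, ?_⟩
      convert h1 using 1
      group
    subst h2
    have h3 := free (e.symm i).out _ (Λ.mul_mem (Λ.inv_mem g.2) g'.2) (by
      convert h1 using 1
      group)
    exact Prod.ext (Subtype.ext (inv_mul_eq_one.1 h3)) rfl
  · obtain ⟨x, rfl⟩ := QuotientGroup.mk_surjective q
    obtain ⟨g, hg, h⟩ := Quotient.mk_out (s := s) x
    refine ⟨(⟨g, hg⟩, e (Quotient.mk s x)), QuotientGroup.eq.2 ?_⟩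
    simpa using h

namespace Fib

variable {G E ι : Type} [Group G] [NormedField E] [IsUltrametricDist E] [Fintype ι]
  [DecidableEq ι] {D : Fib G E ι} (L : FreeLat D.H)

/-- the column `c` of `Y`, as a function on the lattice -/
def res (Y : G → Matrix ι ι E) (c : ι) : L.Γ → Fin L.N × ι → E :=
  fun γ p => Y (γ * L.a p.1) p.2 c

/-- `k` is the matrix of the convolution by `κ` -/
def IsMat (κ : G → Matrix ι ι E) (k : L.Γ →₀ Matrix (Fin L.N × ι) (Fin L.N × ι) E) : Prop :=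
  ∀ η p' p, k η p' p = κ (((η : G) * L.a p.1)⁻¹ * L.a p'.1) p'.2 p.2

omit [IsUltrametricDist E] in
theorem G4_rep (x : G) : ∃ p : L.Γ × Fin L.N, ((p.1 : G) * L.a p.2)⁻¹ * x ∈ D.H := by
  obtain ⟨p, hp⟩ := L.bij.2 (x : G ⧸ D.H)
  exact ⟨p, QuotientGroup.eq.1 hp⟩

omit [IsUltrametricDist E] in
theorem G4_uniq {p q : L.Γ × Fin L.N}
    (h : ((p.1 : G) * L.a p.2)⁻¹ * ((q.1 : G) * L.a q.2) ∈ D.H) : p = q :=
  L.bij.1 (QuotientGroup.eq.2 h)

omit [IsUltrametricDist E] in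
theorem G4_fin (T : Finset G) :
    {γ : L.Γ | ∃ b, ∃ t ∈ T, t⁻¹ * ((γ : G) * L.a b) ∈ D.H}.Finite := by
  choose ρ hρ using G4_rep L
  refine (T.finite_toSet.image fun t => (ρ t).1).subset ?_
  rintro γ ⟨b, t, ht, h⟩
  have h1 := D.H.mul_mem (hρ t) h
  rw [mul_assoc, mul_inv_cancel_left] at h1
  exact ⟨t, ht, congrArg Prod.fst (G4_uniq L (q := (γ, b)) h1)⟩

omit [IsUltrametricDist E] in
theorem G4_eqv {Y : G → Matrix ι ι E} (hY : D.Eqv Y) {z x : G} (h : z⁻¹ * x ∈ D.H) :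
    Y x = D.μ (z⁻¹ * x)⁻¹ * Y z := by
  rw [← hY z _ h, mul_inv_cancel_left]

theorem exists_mat {κ : G → Matrix ι ι E} (hκ : D.Fin0 κ) : ∃ k, IsMat L κ k := by
  classical
  obtain ⟨T, hT⟩ := hκ
  refine ⟨Finsupp.ofSupportFinite (fun η => Matrix.of fun p' p =>
    κ (((η : G) * L.a p.1)⁻¹ * L.a p'.1) p'.2 p.2) ?_, fun _ _ _ => rfl⟩
  refine ((G4_fin L ((Finset.univ ×ˢ T).image fun z => L.a z.1 * z.2)).preimage
    inv_injective.injOn).subset fun η hη => ?_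
  by_contra hc
  refine hη (Matrix.ext fun p' p => ?_)
  by_contra h0
  obtain ⟨t, ht, h1⟩ := hT (((η : G) * L.a p.1)⁻¹ * L.a p'.1) fun h => h0 (congrFun (congrFun h p'.2) p.2)
  refine hc ⟨p'.1, _, Finset.mem_image.2 ⟨(p.1, t), by simpa using ht, rfl⟩, ?_⟩
  convert h1 using 1
  simp only [Subgroup.coe_inv]
  group

theorem IsMat.dual {κ : G → Matrix ι ι E} {k : L.Γ →₀ Matrix (Fin L.N × ι) (Fin L.N × ι) E}
    (h : IsMat L κ k) : IsMat (D := D.dual) L (dK κ) (st k) := by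
  intro η p' p
  have h1 := h η⁻¹ p p'
  have e : (((η⁻¹ : L.Γ) : G) * L.a p'.1)⁻¹ * L.a p.1 = (((η : G) * L.a p.1)⁻¹ * L.a p'.1)⁻¹ := by
    simp only [Subgroup.coe_inv]
    group
  rw [e] at h1
  exact (congrFun (congrFun (st_apply k η) p') p).trans h1

theorem res_conv {κ Y : G → Matrix ι ι E} {k : L.Γ →₀ Matrix (Fin L.N × ι) (Fin L.N × ι) E}
    (h : IsMat L κ k) (hκ : D.Ker κ) (hY : D.Eqv Y) (c : ι) :
    res L (D.conv κ Y) c = op k (res L Y c) := by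
  classical
  funext γ p'
  have hi : ∀ z z' : L.Γ × Fin L.N, ((γ : G) * z.1 * L.a z.2)⁻¹ * (γ * z'.1 * L.a z'.2) ∈ D.H →
      z = z' := fun z z' hz => G4_uniq L (by convert hz using 1; group)
  have key := conv_eq_sum hκ.2.1 hY (γ * L.a p'.1)
    ((k.support ×ˢ Finset.univ).image fun z : L.Γ × Fin L.N => (γ : G) * z.1 * L.a z.2)
    (by
      simp only [Finset.forall_mem_image]
      intro z _ z' _ hz
      rw [hi z z' hz])
    (fun g hg => by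
      obtain ⟨z, hz⟩ := G4_rep L ((γ : G)⁻¹ * g)
      refine ⟨_, Finset.mem_image.2 ⟨z, ?_, rfl⟩, by convert hz using 1; group⟩
      simp only [Finset.mem_product, Finset.mem_univ, and_true, Finsupp.mem_support_iff]
      intro h0
      have h1 : κ (((z.1 : G) * L.a z.2)⁻¹ * L.a p'.1) = 0 := Matrix.ext fun i' i => by
        rw [← h z.1 (p'.1, i') (z.2, i), h0]
        rfl
      have h2 := hκ.2.1 (((z.1 : G) * L.a z.2)⁻¹ * L.a p'.1) _ (D.H.inv_mem hz)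
      have e : (((z.1 : G) * L.a z.2)⁻¹ * ((γ : G)⁻¹ * g))⁻¹ *
          (((z.1 : G) * L.a z.2)⁻¹ * L.a p'.1) = g⁻¹ * (γ * L.a p'.1) := by group
      rw [e, h1, Matrix.zero_mul] at h2
      exact hg (by rw [h2, Matrix.zero_mul]))
  rw [res, key, Finset.sum_image fun z _ z' _ hz => hi z z' (by
    rw [hz, inv_mul_cancel]; exact D.H.one_mem), Finset.sum_product, Matrix.sum_apply, op,
    Finsupp.sum, Finset.sum_apply]
  refine Finset.sum_congr rfl fun η _ => ?_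
  rw [Matrix.sum_apply, Matrix.mulVec, dotProduct, Fintype.sum_prod_type]
  refine Finset.sum_congr rfl fun b _ => ?_
  rw [Matrix.mul_apply]
  refine Finset.sum_congr rfl fun i _ => ?_
  have e : ((γ : G) * η * L.a b)⁻¹ * (γ * L.a p'.1) = ((η : G) * L.a b)⁻¹ * L.a p'.1 := by group
  rw [h η p' (b, i), e]
  rfl

theorem res_inj {Y Y' : G → Matrix ι ι E} (hY : D.Eqv Y) (hY' : D.Eqv Y')
    (h : ∀ c, res L Y c = res L Y' c) : Y = Y' := by
  funext x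
  obtain ⟨p, hp⟩ := G4_rep L x
  have e : Y (p.1 * L.a p.2) = Y' (p.1 * L.a p.2) :=
    Matrix.ext fun i c => congrFun (congrFun (h c) p.1) (p.2, i)
  rw [G4_eqv hY hp, G4_eqv hY' hp, e]

theorem exists_lift (y : ι → L.Γ → Fin L.N × ι → E) :
    ∃ Y, D.Eqv Y ∧ ∀ c, res L Y c = y c := by
  choose ρ hρ using G4_rep L
  refine ⟨fun x => D.μ (x⁻¹ * ((ρ x).1 * L.a (ρ x).2)) *
    Matrix.of fun i c => y c (ρ x).1 ((ρ x).2, i), fun x h hh => ?_, fun c => ?_⟩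
  · have h1 : x⁻¹ * ((ρ x).1 * L.a (ρ x).2) ∈ D.H := by
      convert D.H.inv_mem (hρ x) using 1
      group
    have h2 : ρ (x * h) = ρ x := G4_uniq L (by
      convert D.H.mul_mem (D.H.mul_mem (hρ (x * h)) (D.H.inv_mem hh)) h1 using 1
      group)
    simp only [h2]
    rw [mul_inv_rev, mul_assoc, D.μ_mul _ (D.H.inv_mem hh) _ h1, Matrix.mul_assoc]
  · funext γ p
    have h1 : ρ (γ * L.a p.1) = (γ, p.1) := G4_uniq L (hρ _)
    simp only [res, h1, inv_mul_cancel, D.μ_one, Matrix.one_mul, Matrix.of_apply]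

theorem Dec.c0_res {Y : G → Matrix ι ι E} (h : D.Dec Y) (c : ι) : C0 (res L Y c) := by
  intro ε hε
  obtain ⟨T, hT⟩ := h ε hε
  refine (G4_fin L T).subset fun γ hγ => ?_
  by_contra hc
  exact not_le.2 hγ ((pi_norm_le_iff_of_nonneg hε.le).2 fun p : Fin L.N × ι =>
    hT _ (fun t ht h1 => hc ⟨p.1, t, ht, h1⟩) p.2 c)

theorem G4_mle {C M : ℝ} (hC : 0 ≤ C) (hM : 0 ≤ M) (hB : ∀ h ∈ D.H, MLe C (D.μ h))
    {Y : G → Matrix ι ι E} (hY : D.Eqv Y) {x : G} {p : L.Γ × Fin L.N}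
    (hp : ((p.1 : G) * L.a p.2)⁻¹ * x ∈ D.H) (h : ∀ c, ‖res L Y c p.1‖ ≤ M) :
    MLe (C * M) (Y x) := by
  rw [G4_eqv hY hp]
  exact (hB _ (D.H.inv_mem hp)).mul
    (fun i c => (norm_le_pi_norm (res L Y c p.1) (p.2, i)).trans (h c)) hC hM

theorem dec_of_res (hB : D.Bdd) {Y : G → Matrix ι ι E} (hY : D.Eqv Y)
    (h : ∀ c, C0 (res L Y c)) : D.Dec Y := by
  classical
  obtain ⟨C, hC, hB⟩ := hB
  intro ε hε
  have h1 := Set.finite_iUnion fun c => h c (ε / C) (div_pos hε hC)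
  refine ⟨(h1.toFinset ×ˢ Finset.univ).image fun z : L.Γ × Fin L.N => (z.1 : G) * L.a z.2,
    fun x hx => ?_⟩
  obtain ⟨p, hp⟩ := G4_rep L x
  have h2 := G4_mle L hC.le (div_pos hε hC).le hB hY hp fun c => not_lt.1 fun hc =>
    hx _ (Finset.mem_image.2 ⟨p, Finset.mem_product.2
      ⟨h1.mem_toFinset.2 (Set.mem_iUnion.2 ⟨c, hc⟩), Finset.mem_univ _⟩, rfl⟩) hp
  rwa [mul_div_cancel₀ _ hC.ne'] at h2

theorem norm_res_le {Y : G → Matrix ι ι E} {M : ℝ} (hM : 0 ≤ M) (h : ∀ x, MLe M (Y x)) (c : ι)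
    (γ : L.Γ) : ‖res L Y c γ‖ ≤ M :=
  (pi_norm_le_iff_of_nonneg hM).2 fun p => h _ p.2 c

theorem mle_of_res (hB : D.Bdd) : ∃ C : ℝ, 0 < C ∧ ∀ Y : G → Matrix ι ι E, D.Eqv Y →
    ∀ M : ℝ, 0 ≤ M → (∀ c γ, ‖res L Y c γ‖ ≤ M) → ∀ x, MLe (C * M) (Y x) := by
  obtain ⟨C, hC, hB⟩ := hB
  refine ⟨C, hC, fun Y hY M hM h x => ?_⟩
  obtain ⟨p, hp⟩ := G4_rep L x
  exact G4_mle L hC.le hM hB hY hp fun c => h c _

theorem Dense.denseG {d : ℕ} {κ : Fin d → G → Matrix ι ι E} (hd : D.Dense κ)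
    (hκ : ∀ i, D.Ker (κ i)) {k : Fin d → L.Γ →₀ Matrix (Fin L.N × ι) (Fin L.N × ι) E}
    (h : ∀ i, IsMat L (κ i) (k i)) : DenseG k := by
  classical
  rintro ⟨b, i⟩
  obtain ⟨Y, hY, hx⟩ := hd (1 / 2) (by norm_num)
  refine ⟨fun l => res L (fun x => Y l ((L.a b)⁻¹ * x) * 1) i, fun l => ?_, fun γ => ?_⟩
  · obtain ⟨T, hT⟩ := (hY l).2.translate (L.a b)⁻¹ 1
    refine (G4_fin L T).subset fun γ hγ => ?_
    obtain ⟨p, hp⟩ := Function.ne_iff.1 hγ
    obtain ⟨t, ht, h1⟩ := hT (γ * L.a p.1) fun h0 => hp (congrFun (congrFun h0 p.2) i)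
    exact ⟨p.1, t, ht, h1⟩
  · refine (pi_norm_le_iff_of_nonneg (by norm_num)).2 fun p => ?_
    refine le_of_eq_of_le (congrArg norm ?_) (hx ((L.a b)⁻¹ * (γ * L.a p.1)) p.2 i)
    rw [Pi.sub_apply, Matrix.sub_apply, Finset.sum_apply, Matrix.sum_apply]
    congr 1
    · have hu : (L.a b)⁻¹ * (γ * L.a p.1) ∈ D.H → ((1 : L.Γ), b) = (γ, p.1) := fun h1 =>
        G4_uniq L (by simpa using h1)
      rw [del]
      split_ifs with h1 h2 h2
      · obtain rfl : b = p.1 := congrArg Prod.snd (hu h2)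
        subst h1
        simp [D.μ_one, Pi.single_apply, Matrix.one_apply, Prod.ext_iff]
      · rw [Pi.single_eq_of_ne, Matrix.zero_apply]
        rintro rfl
        exact h2 (by simp [h1])
      · exact absurd (congrArg Prod.fst (hu h2)).symm h1
      · rfl
    · refine Finset.sum_congr rfl fun l _ => ?_
      rw [← res_conv L (h l) (hκ l) ((hY l).1.translate _ _), res,
        conv_translate (hκ l).2.1 (hY l).1 (Or.inr (hY l).2), Matrix.mul_one]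

end Fib

end Pool.Agent.MP_4d0c14_b
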