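import Pool.Agent.MP_4d0c14_b.G3
import Pool.Agent.MP_4d0c14_b.G4

/-! Exactness of the Koszul complex on the completed compact induction; the case of one
operator. -/

namespace Pool.Agent.MP_4d0c14_b

open scoped Matrix

namespace Fib

variable {G E ι : Type} [Group G] [NontriviallyNormedField E] [IsUltrametricDist E]
  [CompleteSpace E] [Fintype ι] [DecidableEq ι] {D : Fib G E ι}

omit [IsUltrametricDist E] [CompleteSpace E] in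
theorem G5_res_add (L : FreeLat D.H) (Y Y' : G → Matrix ι ι E) (c : ι) :
    res L (Y + Y') c = res L Y c + res L Y' c := rfl

omit [IsUltrametricDist E] [CompleteSpace E] in
theorem G5_res_neg (L : FreeLat D.H) (Y : G → Matrix ι ι E) (c : ι) :
    res L (-Y) c = -res L Y c := rfl

theorem exact_one (hB : D.Bdd) (hL : HasLat D.H) (κ : Fin 1 → G → Matrix ι ι E)
    (hκ : ∀ i, D.Ker (κ i)) (hd : D.Dense κ) :
    (∀ Y, D.Eqv Y → D.Dec Y → ∃ Z, D.Eqv Z ∧ D.Dec Z ∧ D.conv (κ 0) Z = Y) ∧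
      ∀ Z, D.Eqv Z → D.Dec Z → D.conv (κ 0) Z = 0 → Z = 0 := by
  obtain ⟨L⟩ := hL.free
  have := L.rf
  choose k hk using fun i => exists_mat L (hκ i).2.2
  obtain ⟨h1, h2⟩ := koszul_one k (hd.denseG L hκ hk)
  have he : ∀ i Z, D.Eqv (D.conv (κ i) Z) := fun i Z =>
    conv_eqv (hκ i).1 (Or.inl (hκ i).2.2)
  refine ⟨fun Y hY hY' => ?_, fun Z hZ hZ' h0 => ?_⟩
  · choose z hz hz' using fun c => h1 (res L Y c) (hY'.c0_res L c)
    obtain ⟨Z, hZ, hZz⟩ := exists_lift L z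
    refine ⟨Z, hZ, dec_of_res L hB hZ fun c => by rw [hZz]; exact hz c, ?_⟩
    refine res_inj L (he 0 Z) hY fun c => ?_
    rw [res_conv L (hk 0) (hκ 0) hZ c, hZz, hz']
  · refine res_inj L hZ Eqv.zero fun c => ?_
    refine h2 _ (hZ'.c0_res L c) ?_
    rw [← res_conv L (hk 0) (hκ 0) hZ c, h0]
    rfl

theorem exact_two (hB : D.Bdd) (hL : HasLat D.H) (κ : Fin 2 → G → Matrix ι ι E)
    (hκ : ∀ i, D.Ker (κ i)) (hc : D.conv (κ 0) (κ 1) = D.conv (κ 1) (κ 0)) (hd : D.Dense κ)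
    (hd' : D.dual.Dense fun i => dK (κ i)) :
    (∀ Y, D.Eqv Y → D.Dec Y → ∃ Z₀ Z₁, (D.Eqv Z₀ ∧ D.Dec Z₀) ∧ (D.Eqv Z₁ ∧ D.Dec Z₁) ∧
      D.conv (κ 0) Z₀ + D.conv (κ 1) Z₁ = Y) ∧
    (∀ Y₀ Y₁, D.Eqv Y₀ → D.Dec Y₀ → D.Eqv Y₁ → D.Dec Y₁ →
      D.conv (κ 0) Y₀ + D.conv (κ 1) Y₁ = 0 →
      ∃ Z, D.Eqv Z ∧ D.Dec Z ∧ Y₀ = -D.conv (κ 1) Z ∧ Y₁ = D.conv (κ 0) Z) ∧
    ∃ C : ℝ, 0 < C ∧ ∀ Z, D.Eqv Z → D.Dec Z → ∀ M : ℝ, 0 ≤ M →
      (∀ x, MLe M (D.conv (κ 0) Z x)) → (∀ x, MLe M (D.conv (κ 1) Z x)) →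
      ∀ x, MLe (C * M) (Z x) := by
  obtain ⟨L⟩ := hL.free
  have := L.rf
  choose k hk using fun i => exists_mat L (hκ i).2.2
  have he : ∀ i Z, D.Eqv (D.conv (κ i) Z) := fun i Z =>
    conv_eqv (hκ i).1 (Or.inl (hκ i).2.2)
  have hc' : ∀ y, C0 y → op (k 0) (op (k 1) y) = op (k 1) (op (k 0) y) := by
    intro y _
    obtain ⟨Y, hY, hYy⟩ := exists_lift L fun _ : ι => y
    funext γ p
    have e1 : op (k 0) (op (k 1) y) = res L (D.conv (D.conv (κ 0) (κ 1)) Y) p.2 := by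
      rw [← conv_assoc (hκ 0).2.1 (hκ 1) hY (Or.inl (hκ 0).2.2),
        res_conv L (hk 0) (hκ 0) (he 1 Y), res_conv L (hk 1) (hκ 1) hY, hYy]
    have e2 : op (k 1) (op (k 0) y) = res L (D.conv (D.conv (κ 1) (κ 0)) Y) p.2 := by
      rw [← conv_assoc (hκ 1).2.1 (hκ 0) hY (Or.inl (hκ 1).2.2),
        res_conv L (hk 1) (hκ 1) (he 0 Y), res_conv L (hk 0) (hκ 0) hY, hYy]
    rw [e1, e2, hc]
  obtain ⟨h1, h2, C, hC, h3⟩ := koszul_two k (hd.denseG L hκ hk)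
    (hd'.denseG (D := D.dual) L (fun i => (hκ i).dual) (fun i => (hk i).dual L)) hc'
  refine ⟨fun Y hY hY' => ?_, fun Y₀ Y₁ hY₀ hY₀' hY₁ hY₁' h0 => ?_, ?_⟩
  · choose z₀ z₁ hz₀ hz₁ hz using fun c => h1 (res L Y c) (hY'.c0_res L c)
    obtain ⟨Z₀, hZ₀, hZz₀⟩ := exists_lift L z₀
    obtain ⟨Z₁, hZ₁, hZz₁⟩ := exists_lift L z₁
    refine ⟨Z₀, Z₁, ⟨hZ₀, dec_of_res L hB hZ₀ fun c => by rw [hZz₀]; exact hz₀ c⟩,
      ⟨hZ₁, dec_of_res L hB hZ₁ fun c => by rw [hZz₁]; exact hz₁ c⟩, ?_⟩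
    refine res_inj L ((he 0 Z₀).add (he 1 Z₁)) hY fun c => ?_
    rw [G5_res_add, res_conv L (hk 0) (hκ 0) hZ₀ c, res_conv L (hk 1) (hκ 1) hZ₁ c, hZz₀, hZz₁,
      hz]
  · have hs : ∀ c, op (k 0) (res L Y₀ c) + op (k 1) (res L Y₁ c) = 0 := fun c => by
      rw [← res_conv L (hk 0) (hκ 0) hY₀ c, ← res_conv L (hk 1) (hκ 1) hY₁ c, ← G5_res_add, h0]
      rfl
    choose z hz hz₀ hz₁ using fun c =>
      h2 (res L Y₀ c) (res L Y₁ c) (hY₀'.c0_res L c) (hY₁'.c0_res L c) (hs c)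
    obtain ⟨Z, hZ, hZz⟩ := exists_lift L z
    refine ⟨Z, hZ, dec_of_res L hB hZ fun c => by rw [hZz]; exact hz c, ?_, ?_⟩
    · refine res_inj L hY₀ (he 1 Z).neg fun c => ?_
      rw [G5_res_neg, res_conv L (hk 1) (hκ 1) hZ c, hZz, hz₀]
    · refine res_inj L hY₁ (he 0 Z) fun c => ?_
      rw [res_conv L (hk 0) (hκ 0) hZ c, hZz, hz₁]
  · obtain ⟨C', hC', hm⟩ := mle_of_res L hB
    refine ⟨C' * C, mul_pos hC' hC, fun Z hZ hZ' M hM b0 b1 x => ?_⟩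
    rw [mul_assoc]
    refine hm Z hZ (C * M) (mul_nonneg hC.le hM) (fun c γ => ?_) x
    refine h3 _ (hZ'.c0_res L c) M hM (fun η => ?_) (fun η => ?_) γ
    · rw [← res_conv L (hk 0) (hκ 0) hZ c]
      exact norm_res_le L hM b0 c η
    · rw [← res_conv L (hk 1) (hκ 1) hZ c]
      exact norm_res_le L hM b1 c η

theorem core_one (hB : D.Bdd) (hL : HasLat D.H) (κ : Fin 1 → G → Matrix ι ι E)
    (hκ : ∀ i, D.Ker (κ i)) (hd : D.Dense κ) : D.Approx κ := by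
  obtain ⟨h1, h2⟩ := exact_one hB hL κ hκ hd
  obtain ⟨Z, hZ, hZ', hZe⟩ := h1 D.del del_ker.1 del_ker.2.2.dec
  have hl : D.LEqv Z := by
    intro x h hh
    have h0 := h2 ((fun y => Z (h * y) * D.μ h) - Z) ((hZ.translate h _).sub hZ)
      ((hZ'.translate h _).sub hZ') (by
        rw [conv_sub_right (Or.inl (hκ 0).2.2)]
        funext y
        rw [Pi.sub_apply, conv_translate (hκ 0).2.1 hZ (Or.inl (hκ 0).2.2), hZe,
          del_ker.2.1 y h hh, mul_assoc, D.μ_inv_mul hh, mul_one, sub_self, Pi.zero_apply])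
    have h3 : Z (h * x) * D.μ h = Z x := sub_eq_zero.mp (congrFun h0 x)
    rw [← h3, mul_assoc, D.μ_mul_inv hh, mul_one]
  refine approx_of_sol hB hκ (fun _ => Z) (fun _ => ⟨hZ, hl, hZ'⟩) ?_
  rw [Fin.sum_univ_one, hZe]

end Fib

end Pool.Agent.MP_4d0c14_b
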