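import Pool.Agent.MP_4d0c14_b.Geo
import Pool.Agent.MP_4d0c14_b.M1

/-! Slopes and invariant bounds. -/

namespace Pool.Agent.MP_4d0c14_b

open scoped Matrix

section Blocks

variable {n k : ℕ} {F : Type} [Field F] {b : Fin n → Fin k} {g h : GL (Fin n) F}

theorem GE1_bt {α : Type} [LinearOrder α] {c : Fin n → α}
    (hg : (g : Matrix (Fin n) (Fin n) F).BlockTriangular c) :
    ((g⁻¹ : GL (Fin n) F) : Matrix (Fin n) (Fin n) F).BlockTriangular c := by
  rw [Matrix.GeneralLinearGroup.coe_inv]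
  letI := g.invertible
  exact Matrix.blockTriangular_inv_of_blockTriangular hg

theorem GE1_levi_bt (hg : IsLevi b g) : (g : Matrix (Fin n) (Fin n) F).BlockTriangular b :=
  fun i j hij => hg i j hij.ne'

theorem GE1_unip_bt (hg : IsUnip b g) : (g : Matrix (Fin n) (Fin n) F).BlockTriangular b :=
  fun i j hij => (hg i j hij.le).trans (Matrix.one_apply_ne fun e => hij.ne' (congrArg b e))

theorem GE1_unip_mul (hg : IsUnip b g) {Y : Matrix (Fin n) (Fin n) F} (hY : Y.BlockTriangular b)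
    {i j : Fin n} (hij : b j ≤ b i) : ((g : Matrix (Fin n) (Fin n) F) * Y) i j = Y i j := by
  rw [Matrix.mul_apply, Finset.sum_eq_single i]
  · rw [hg i i le_rfl, Matrix.one_apply_eq, one_mul]
  · intro e _ he
    rcases le_or_gt (b e) (b i) with h1 | h1
    · rw [hg i e h1, Matrix.one_apply_ne he.symm, zero_mul]
    · rw [hY (hij.trans_lt h1), mul_zero]
  · exact fun h1 => absurd (Finset.mem_univ i) h1

theorem GE1_blk_mul (hg : IsLevi b g) (Y : Matrix (Fin n) (Fin n) F) (i : Fin k) :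
    ((g : Matrix (Fin n) (Fin n) F) * Y).toSquareBlock b i =
      (g : Matrix (Fin n) (Fin n) F).toSquareBlock b i * Y.toSquareBlock b i := by
  ext a c
  simp only [Matrix.toSquareBlock_def, Matrix.of_apply, Matrix.mul_apply]
  rw [← Finset.sum_subtype (Finset.univ.filter fun e => b e = i) (by simp)
    fun e => (g : Matrix (Fin n) (Fin n) F) a e * Y e c]
  refine (Finset.sum_filter_of_ne fun e _ he => ?_).symm
  by_contra h1
  exact he (by rw [hg a e fun h2 => h1 (h2.symm.trans a.2), zero_mul])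

theorem GE1_blk_one (b : Fin n → Fin k) (i : Fin k) :
    (1 : Matrix (Fin n) (Fin n) F).toSquareBlock b i = 1 := by
  ext a c
  simp [Matrix.toSquareBlock_def, Matrix.one_apply, Subtype.ext_iff]

theorem GE1_det_ne (hg : IsLevi b g) (i : Fin k) :
    ((g : Matrix (Fin n) (Fin n) F).toSquareBlock b i).det ≠ 0 := by
  have h1 := GE1_blk_mul hg ((g⁻¹ : GL (Fin n) F) : Matrix (Fin n) (Fin n) F) i
  rw [Units.mul_inv, GE1_blk_one] at h1
  have h2 := congrArg Matrix.det h1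
  rw [Matrix.det_one, Matrix.det_mul] at h2
  exact left_ne_zero_of_mul_eq_one h2.symm

theorem GE1_entry (hg : IsLevi b g) (hh : IsLevi b h) {X Y : Matrix (Fin n) (Fin n) F}
    {a c : Fin n} (hXY : ∀ a' c', b a' = b a → b c' = b c → X a' c' = Y a' c') :
    ((g : Matrix (Fin n) (Fin n) F) * X * (h : Matrix (Fin n) (Fin n) F)) a c =
      ((g : Matrix (Fin n) (Fin n) F) * Y * (h : Matrix (Fin n) (Fin n) F)) a c := by
  simp only [Matrix.mul_apply]
  refine Finset.sum_congr rfl fun c' _ => ?_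
  by_cases h1 : b c' = b c
  · congr 1
    refine Finset.sum_congr rfl fun a' _ => ?_
    by_cases h2 : b a' = b a
    · rw [hXY a' c' h2 h1]
    · rw [hg a a' (Ne.symm h2), zero_mul, zero_mul]
  · rw [hh c' c h1, mul_zero, mul_zero]

theorem IsLevi.mul (hg : IsLevi b g) (hh : IsLevi b h) : IsLevi b (g * h) := by
  intro i j hij
  rw [Units.val_mul, Matrix.mul_apply]
  refine Finset.sum_eq_zero fun e _ => ?_
  by_cases h1 : b i = b e
  · rw [hh e j (h1 ▸ hij), mul_zero]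
  · rw [hg i e h1, zero_mul]

theorem IsLevi.inv (hg : IsLevi b g) : IsLevi b g⁻¹ := by
  intro i j hij
  rcases lt_or_gt_of_ne hij with h1 | h1
  · exact GE1_bt (c := fun a => OrderDual.toDual (b a)) (fun a c hac => hg a c hac.ne') h1
  · exact GE1_bt (GE1_levi_bt hg) h1

theorem isLevi_dg (b : Fin n → Fin k) (t : Fin n → Fˣ) : IsLevi b (dg t) := fun _ _ hij =>
  Matrix.diagonal_apply_ne _ fun e => hij (congrArg b e)

theorem IsLevi.tr (hg : IsLevi b g) : IsLevi b (tr g) := fun i j hij => hg j i hij.symm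

theorem IsLevi.cen_comm (hg : IsLevi b g) (z : Fin k → Fˣ) :
    dg (fun a => z (b a)) * g = g * dg (fun a => z (b a)) := by
  ext a c
  by_cases hac : b a = b c
  · simp [hac, mul_comm]
  · simp [hg a c hac]

theorem isUnip_one : IsUnip b (1 : GL (Fin n) F) := fun _ _ _ => rfl

theorem IsUnip.mul (hg : IsUnip b g) (hh : IsUnip b h) : IsUnip b (g * h) := fun i j hij =>
  (GE1_unip_mul hg (GE1_unip_bt hh) hij).trans (hh i j hij)

theorem IsUnip.inv (hg : IsUnip b g) : IsUnip b g⁻¹ := fun i j hij => by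
  rw [← GE1_unip_mul hg (GE1_bt (GE1_unip_bt hg)) hij, Units.mul_inv]

theorem IsUnip.conj (hg : IsUnip b g) (hh : IsLevi b h) : IsUnip b (h * g * h⁻¹) := by
  intro i j hij
  rw [mul_assoc, Units.val_mul, Units.val_mul, ← h.mul_inv, Matrix.mul_apply,
    Matrix.mul_apply (M := (h : Matrix (Fin n) (Fin n) F))]
  refine Finset.sum_congr rfl fun e _ => ?_
  by_cases h1 : b i = b e
  · rw [GE1_unip_mul hg (GE1_levi_bt hh.inv) (h1 ▸ hij)]
  · rw [hh i e h1, zero_mul, zero_mul]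

theorem IsUnip.isUp1 (hb : Monotone b) (hg : IsUnip b g) : IsUp1 g := fun i j hij =>
  hg i j (hb hij)

end Blocks

namespace TypeData

variable {n k m : ℕ} {F E : Type} [NormedField F] [Field E] (D : TypeData n k m F E)
  {j j' : GL (Fin n) F} {X Y : Matrix (Fin n) (Fin n) F} {s s' : ℝ}

theorem GE1_card (i : Fin k) : Fintype.card {a // D.b a = i} ≠ 0 := by
  obtain ⟨a, ha⟩ := D.surj i
  exact (Fintype.card_pos_iff.2 ⟨⟨a, ha⟩⟩).ne'

theorem GE1_nonneg (j : GL (Fin n) F) (i : Fin k) : 0 ≤ D.sl j i :=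
  Real.rpow_nonneg (norm_nonneg _) _

theorem GE1_pow (j : GL (Fin n) F) (i : Fin k) : D.sl j i ^ Fintype.card {a // D.b a = i} =
    ‖((j : Matrix (Fin n) (Fin n) F).toSquareBlock D.b i).det‖ := by
  rw [sl, one_div, Real.rpow_inv_natCast_pow (norm_nonneg _) (D.GE1_card i)]

theorem sl_pos (hj : IsLevi D.b j) (i : Fin k) : 0 < D.sl j i :=
  Real.rpow_pos_of_pos (norm_pos_iff.2 (GE1_det_ne hj i)) _

theorem sl_mul (hj : IsLevi D.b j) (hj' : IsLevi D.b j') (i : Fin k) :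
    D.sl (j * j') i = D.sl j i * D.sl j' i := by
  rw [sl, sl, sl, Units.val_mul, GE1_blk_mul hj, Matrix.det_mul, norm_mul,
    Real.mul_rpow (norm_nonneg _) (norm_nonneg _)]

theorem sl_one (i : Fin k) : D.sl 1 i = 1 := by
  rw [sl, Units.val_one, GE1_blk_one, Matrix.det_one, norm_one, Real.one_rpow]

theorem sl_inv (hj : IsLevi D.b j) (i : Fin k) : D.sl j⁻¹ i = (D.sl j i)⁻¹ := by
  refine eq_inv_of_mul_eq_one_right ?_
  rw [← D.sl_mul hj hj.inv, mul_inv_cancel, sl_one]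

theorem sl_cen (z : Fin k → Fˣ) (i : Fin k) : D.sl (D.cen z) i = ‖(z i : F)‖ := by
  have e : ((D.cen z : GL (Fin n) F) : Matrix (Fin n) (Fin n) F).toSquareBlock D.b i =
      Matrix.diagonal fun _ => (z i : F) := by
    ext a c
    simp [cen, Matrix.toSquareBlock_def, Matrix.diagonal_apply, Subtype.ext_iff, a.2]
  rw [sl, e, Matrix.det_diagonal, Finset.prod_const, Finset.card_univ, norm_pow, one_div,
    Real.pow_rpow_inv_natCast (norm_nonneg _) (D.GE1_card i)]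

theorem sl_tr (j : GL (Fin n) F) (i : Fin k) : D.transpose.sl (tr j) i = D.sl j i := by
  change ‖(((j : Matrix (Fin n) (Fin n) F).toSquareBlock D.b i)ᵀ).det‖ ^
    (1 / (Fintype.card {a // D.b a = i} : ℝ)) = _
  rw [Matrix.det_transpose, sl]

theorem norm_det_of_flat (hj : IsLevi D.b j) (h : ∀ i, D.sl j i = s) :
    ‖(j : Matrix (Fin n) (Fin n) F).det‖ = s ^ n := by
  have e : ∑ i, Fintype.card {a // D.b a = i} = n := by
    rw [← Fintype.card_sigma, Fintype.card_congr (Equiv.sigmaFiberEquiv D.b), Fintype.card_fin]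
  rw [(GE1_levi_bt hj).det_fintype, norm_prod]
  simp only [← D.GE1_pow, h]
  rw [Finset.prod_pow_eq_pow_sum, e]

theorem sl_pow_factorial (ϖ : Fˣ) (hz : ∀ x : F, x ≠ 0 → ∃ e : ℤ, ‖x‖ = ‖(ϖ : F)‖ ^ e)
    (hj : IsLevi D.b j) (i : Fin k) : ∃ e : ℤ, D.sl j i ^ n.factorial = ‖(ϖ : F)‖ ^ e := by
  obtain ⟨e, he⟩ := hz _ (GE1_det_ne hj i)
  have h1 : Fintype.card {a // D.b a = i} ≤ n :=
    (Fintype.card_subtype_le _).trans (Fintype.card_fin n).le
  obtain ⟨q, hq⟩ := Nat.dvd_factorial (Nat.pos_of_ne_zero (D.GE1_card i)) h1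
  exact ⟨e * q, by rw [hq, pow_mul, GE1_pow, he, zpow_mul, zpow_natCast]⟩

theorem Bd.mle (h : D.Bd s X) : MLe s X := fun a c => by
  simpa [sl_one] using h 1 D.J.one_mem 1 D.J.one_mem a c

theorem Bd.mono (h : D.Bd s X) (hs : s ≤ s') : D.Bd s' X := fun j hj j' hj' a c =>
  (h j hj j' hj' a c).trans (mul_le_mul_of_nonneg_right
    (mul_le_mul_of_nonneg_right hs (D.GE1_nonneg _ _)) (D.GE1_nonneg _ _))

theorem bd_zero (hs : 0 ≤ s) : D.Bd s 0 := fun j _ j' _ a c => by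
  rw [Matrix.mul_zero, Matrix.zero_mul, Matrix.zero_apply, norm_zero]
  exact mul_nonneg (mul_nonneg hs (D.GE1_nonneg _ _)) (D.GE1_nonneg _ _)

theorem Bd.neg (h : D.Bd s X) : D.Bd s (-X) := fun j hj j' hj' a c => by
  rw [Matrix.mul_neg, Matrix.neg_mul, Matrix.neg_apply, norm_neg]
  exact h j hj j' hj' a c

theorem Bd.mask (h : D.Bd s X) (hs : 0 ≤ s) (R : Fin k → Fin k → Prop) [DecidableRel R] :
    D.Bd s (Matrix.of fun a c => if R (D.b a) (D.b c) then X a c else 0) := by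
  intro j hj j' hj' a c
  by_cases hR : R (D.b a) (D.b c)
  · rw [GE1_entry (Y := X) (D.levi j hj) (D.levi j' hj') fun a' c' h1 h2 => by
      rw [Matrix.of_apply, h1, h2, if_pos hR]]
    exact h j hj j' hj' a c
  · rw [GE1_entry (Y := 0) (D.levi j hj) (D.levi j' hj') fun a' c' h1 h2 => by
      rw [Matrix.of_apply, h1, h2, if_neg hR, Matrix.zero_apply]]
    exact D.bd_zero hs j hj j' hj' a c

theorem Bd.left (h : D.Bd s X) (hs : 0 ≤ s) (hj : j ∈ D.J) {θ : ℝ} (hθ : ∀ i, D.sl j i ≤ θ) :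
    D.Bd (θ * s) ((j : Matrix (Fin n) (Fin n) F) * X) := by
  intro j1 h1 j2 h2 a c
  have h3 := h _ (D.J.mul_mem h1 hj) j2 h2 a c
  rw [D.sl_mul (D.levi _ h1) (D.levi _ hj), Units.val_mul,
    Matrix.mul_assoc (j1 : Matrix (Fin n) (Fin n) F)] at h3
  refine h3.trans (mul_le_mul_of_nonneg_right ?_ (D.GE1_nonneg _ _))
  have h4 := mul_le_mul_of_nonneg_left (hθ (D.b a)) (mul_nonneg hs (D.GE1_nonneg j1 (D.b a)))
  linarith

theorem Bd.conj (h : D.Bd s X) (hs : 0 ≤ s) (hj : j ∈ D.J) {θ : ℝ} (hθ0 : 0 ≤ θ)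
    (hθ : ∀ a c, X a c ≠ 0 → D.sl j (D.b a) ≤ θ * D.sl j (D.b c)) :
    D.Bd (θ * s) ((j : Matrix (Fin n) (Fin n) F) * X *
      ((j⁻¹ : GL (Fin n) F) : Matrix (Fin n) (Fin n) F)) := by
  intro j1 h1 j2 h2 a c
  have l1 := D.levi _ (D.J.mul_mem h1 hj)
  have l2 := D.levi _ (D.J.mul_mem (D.J.inv_mem hj) h2)
  have e : (j1 : Matrix (Fin n) (Fin n) F) * ((j : Matrix (Fin n) (Fin n) F) * X *
      ((j⁻¹ : GL (Fin n) F) : Matrix (Fin n) (Fin n) F)) * (j2 : Matrix (Fin n) (Fin n) F) =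
      ((j1 * j : GL (Fin n) F) : Matrix (Fin n) (Fin n) F) * X *
        ((j⁻¹ * j2 : GL (Fin n) F) : Matrix (Fin n) (Fin n) F) := by
    simp only [Units.val_mul, Matrix.mul_assoc]
  rw [e]
  by_cases h0 : ∀ a' c', D.b a' = D.b a → D.b c' = D.b c → X a' c' = 0
  · rw [GE1_entry (Y := 0) l1 l2 h0, Matrix.mul_zero, Matrix.zero_mul, Matrix.zero_apply, norm_zero]
    exact mul_nonneg (mul_nonneg (mul_nonneg hθ0 hs) (D.GE1_nonneg _ _)) (D.GE1_nonneg _ _)
  · push Not at h0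
    obtain ⟨a', c', e1, e2, h0⟩ := h0
    have h4 := hθ a' c' h0
    rw [e1, e2, ← div_le_iff₀ (D.sl_pos (D.levi _ hj) _), div_eq_mul_inv] at h4
    have h3 := h _ (D.J.mul_mem h1 hj) _ (D.J.mul_mem (D.J.inv_mem hj) h2) a c
    rw [D.sl_mul (D.levi _ h1) (D.levi _ hj), D.sl_mul (D.levi _ hj).inv (D.levi _ h2),
      D.sl_inv (D.levi _ hj)] at h3
    have h5 := mul_le_mul_of_nonneg_left h4
      (mul_nonneg (mul_nonneg hs (D.GE1_nonneg j1 (D.b a))) (D.GE1_nonneg j2 (D.b c)))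
    linarith

theorem bd_tr : D.transpose.Bd s Xᵀ ↔ D.Bd s X := by
  have e : ∀ (g g' : GL (Fin n) F) (a c : Fin n),
      (((tr g' : GL (Fin n) F) : Matrix (Fin n) (Fin n) F) * Xᵀ *
        ((tr g : GL (Fin n) F) : Matrix (Fin n) (Fin n) F)) c a =
      ((g : Matrix (Fin n) (Fin n) F) * X * (g' : Matrix (Fin n) (Fin n) F)) a c := by
    intro g g' a c
    rw [coe_tr, coe_tr, ← Matrix.transpose_mul, ← Matrix.transpose_mul, Matrix.transpose_apply,
      Matrix.mul_assoc]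
  constructor
  · intro h j hj j' hj' a c
    have h1 := h (tr j') hj' (tr j) hj c a
    rw [e, sl_tr, sl_tr, mul_right_comm] at h1
    exact h1
  · intro h j hj j' hj' a c
    have h1 := h (tr j') hj' (tr j) hj c a
    rw [← e, ← D.sl_tr (tr j'), ← D.sl_tr (tr j), mul_right_comm] at h1
    exact h1

variable [IsUltrametricDist F]

theorem GE1_le {C : ℝ} (hC : 0 < C) (h : Bnd C j) (i : Fin k) : D.sl j i ≤ C := by
  refine le_of_pow_le_pow_left₀ (D.GE1_card i) hC.le ?_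
  rw [GE1_pow]
  exact MLe.norm_det_le hC.le fun a c => (h a c).1

theorem sl_le_of_bnd {C : ℝ} (hC : 0 < C) (hj : IsLevi D.b j) (h : Bnd C j) (i : Fin k) :
    C⁻¹ ≤ D.sl j i ∧ D.sl j i ≤ C := by
  refine ⟨?_, D.GE1_le hC h i⟩
  have h1 := D.GE1_le hC h.inv i
  rw [D.sl_inv hj] at h1
  exact inv_le_of_inv_le₀ (D.sl_pos hj i) h1

theorem entry_le : ∃ C : ℝ, 0 < C ∧ ∀ j ∈ D.J, ∀ a c,
    ‖(j : Matrix (Fin n) (Fin n) F) a c‖ ≤ C * D.sl j (D.b a) := by
  obtain ⟨C, hC⟩ := D.bdd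
  have h0 : 0 < max C 1 := lt_max_of_lt_right one_pos
  refine ⟨max C 1 * max C 1, mul_pos h0 h0, fun j hj a c => ?_⟩
  obtain ⟨z, hz⟩ := hC j hj
  have hz' : Bnd (max C 1) (D.cen z * j) := hz.mono (le_max_left _ _)
  have l1 : IsLevi D.b (D.cen z) := isLevi_dg _ _
  have h1 := (D.sl_le_of_bnd h0 (l1.mul (D.levi j hj)) hz' (D.b a)).1
  rw [D.sl_mul l1 (D.levi j hj), sl_cen, inv_le_iff_one_le_mul₀ h0] at h1
  have h2 := (hz' a c).1
  rw [Units.val_mul, cen, coe_dg, Matrix.diagonal_mul, norm_mul] at h2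
  have h3 := mul_le_mul_of_nonneg_left h1 (norm_nonneg ((j : Matrix (Fin n) (Fin n) F) a c))
  have h4 := mul_le_mul_of_nonneg_right h2 (mul_nonneg h0.le (D.GE1_nonneg j (D.b a)))
  linarith

theorem bd_of_mle : ∃ C : ℝ, 0 < C ∧ ∀ (s : ℝ) (X : Matrix (Fin n) (Fin n) F), 0 ≤ s → MLe s X →
    D.Bd (C * s) X := by
  obtain ⟨C, hC, h⟩ := D.entry_le
  refine ⟨C * C, mul_pos hC hC, fun s X hs hX j hj j' hj' a c => ?_⟩
  have p1 := mul_nonneg hC.le (D.GE1_nonneg j (D.b a))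
  have p2 := mul_nonneg hC.le (D.GE1_nonneg j' (D.b c))
  have e : C * C * s * D.sl j (D.b a) * D.sl j' (D.b c) =
      C * D.sl j (D.b a) * s * (C * D.sl j' (D.b c)) := by ring
  rw [e, Matrix.mul_apply]
  refine IsUltrametricDist.norm_sum_le_of_forall_le_of_nonneg
    (mul_nonneg (mul_nonneg p1 hs) p2) fun c' _ => ?_
  rw [norm_mul]
  refine mul_le_mul ?_ ?_ (norm_nonneg _) (mul_nonneg p1 hs)
  · rw [Matrix.mul_apply]
    refine IsUltrametricDist.norm_sum_le_of_forall_le_of_nonneg (mul_nonneg p1 hs) fun a' _ => ?_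
    rw [norm_mul]
    exact mul_le_mul (h j hj a a') (hX a' c') (norm_nonneg _) p1
  · by_cases h1 : D.b c' = D.b c
    · exact h1 ▸ h j' hj' c' c
    · rw [D.levi j' hj' c' c h1, norm_zero]
      exact p2

theorem Bd.add (h : D.Bd s X) (h' : D.Bd s Y) : D.Bd s (X + Y) := fun j hj j' hj' a c => by
  rw [Matrix.mul_add, Matrix.add_mul, Matrix.add_apply]
  exact (IsUltrametricDist.norm_add_le_max _ _).trans
    (max_le (h j hj j' hj' a c) (h' j hj j' hj' a c))

theorem Bd.sub (h : D.Bd s X) (h' : D.Bd s Y) : D.Bd s (X - Y) := by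
  rw [sub_eq_add_neg]
  exact Bd.add D h (Bd.neg D h')

theorem Bd.mul (h : D.Bd s X) (h' : D.Bd s' Y) (hs : 0 ≤ s) (hs' : 0 ≤ s') :
    D.Bd (s * s') (X * Y) := by
  intro j hj j' hj' a c
  have p1 := mul_nonneg hs (D.GE1_nonneg j (D.b a))
  have p2 := mul_nonneg hs' (D.GE1_nonneg j' (D.b c))
  have e : s * s' * D.sl j (D.b a) * D.sl j' (D.b c) =
      s * D.sl j (D.b a) * (s' * D.sl j' (D.b c)) := by ring
  rw [e, ← Matrix.mul_assoc, Matrix.mul_assoc _ Y, Matrix.mul_apply]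
  refine IsUltrametricDist.norm_sum_le_of_forall_le_of_nonneg (mul_nonneg p1 p2) fun x _ => ?_
  have h1 := h j hj 1 D.J.one_mem a x
  have h2 := h' 1 D.J.one_mem j' hj' x c
  rw [sl_one, mul_one, Units.val_one, Matrix.mul_one] at h1
  rw [sl_one, mul_one, Units.val_one, Matrix.one_mul] at h2
  rw [norm_mul]
  exact mul_le_mul h1 h2 (norm_nonneg _) p1

/-- a priori bound for the solution of a contraction equation -/
theorem bd_of_fix {r : ℝ} (hr0 : 0 ≤ r) (hr : r < 1) (hs : 0 ≤ s)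
    (h : ∀ t : ℝ, 0 ≤ t → D.Bd t Y → D.Bd (max s (r * t)) Y) : D.Bd s Y := by
  obtain ⟨C, hC, h1⟩ := D.bd_of_mle
  obtain ⟨t, ht, h2⟩ := MLe.exists_bound Y
  have h3 : ∀ p : ℕ, D.Bd (max s (r ^ p * (C * t))) Y := by
    intro p
    induction p with
    | zero =>
      rw [pow_zero, one_mul]
      exact Bd.mono D (h1 t Y ht.le h2) (le_max_right _ _)
    | succ p ih =>
      refine Bd.mono D (h _ (le_max_of_le_left hs) ih) (max_le (le_max_left _ _) ?_)
      rw [mul_max_of_nonneg _ _ hr0, pow_succ', mul_assoc]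
      exact max_le_max (mul_le_of_le_one_left hs hr.le) le_rfl
  intro j hj j' hj' a c
  have h4 : Filter.Tendsto (fun p : ℕ => max s (r ^ p * (C * t)) * D.sl j (D.b a) * D.sl j' (D.b c))
      Filter.atTop (nhds (max s (0 * (C * t)) * D.sl j (D.b a) * D.sl j' (D.b c))) :=
    ((tendsto_const_nhds.max ((tendsto_pow_atTop_nhds_zero_of_lt_one hr0 hr).mul_const _)).mul_const
      _).mul_const _
  rw [zero_mul, max_eq_left hs] at h4
  exact ge_of_tendsto' h4 fun p => h3 p j hj j' hj' a c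

end TypeData

end Pool.Agent.MP_4d0c14_b
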