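import Pool.Agent.MP_4d0c14_b.GE1

/-! The groups `H`, `P`, `L` and the representation `lamF`. -/

namespace Pool.Agent.MP_4d0c14_b

open scoped Matrix

namespace TypeData

variable {n k m : ℕ} {F E : Type} [NormedField F] [Field E] (D : TypeData n k m F E)
  {g h j : GL (Fin n) F} {r : ℝ}

theorem dpart_levi (hj : IsLevi D.b j) : D.dpart j = j := by
  ext a c
  by_cases h : D.b a = D.b c
  · simp [dpart, h]
  · simp [dpart, h, hj a c h]

theorem dpart_levi_mul (hj : IsLevi D.b j) (X : Matrix (Fin n) (Fin n) F) :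
    D.dpart ((j : Matrix (Fin n) (Fin n) F) * X) = j * D.dpart X := by
  ext a c
  simp only [dpart, Matrix.of_apply, Matrix.mul_apply]
  by_cases h : D.b a = D.b c
  · rw [if_pos h]
    refine Finset.sum_congr rfl fun e _ => ?_
    by_cases he : D.b e = D.b c
    · rw [if_pos he]
    · rw [if_neg he, hj a e (fun h' => he (h'.symm.trans h)), zero_mul, zero_mul]
  · rw [if_neg h]
    refine (Finset.sum_eq_zero fun e _ => ?_).symm
    by_cases he : D.b e = D.b c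
    · rw [hj a e (fun h' => h (h'.trans he)), zero_mul]
    · rw [if_neg he, mul_zero]

theorem dpart_mul_levi (hj : IsLevi D.b j) (X : Matrix (Fin n) (Fin n) F) :
    D.dpart (X * (j : Matrix (Fin n) (Fin n) F)) = D.dpart X * j := by
  ext a c
  simp only [dpart, Matrix.of_apply, Matrix.mul_apply]
  by_cases h : D.b a = D.b c
  · rw [if_pos h]
    refine Finset.sum_congr rfl fun e _ => ?_
    by_cases he : D.b a = D.b e
    · rw [if_pos he]
    · rw [if_neg he, hj e c (fun h' => he (h.trans h'.symm)), mul_zero, mul_zero]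
  · rw [if_neg h]
    refine (Finset.sum_eq_zero fun e _ => ?_).symm
    by_cases he : D.b a = D.b e
    · rw [hj e c (fun h' => h (he.trans h')), mul_zero]
    · rw [if_neg he, zero_mul]

theorem dpart_add (X Y : Matrix (Fin n) (Fin n) F) : D.dpart (X + Y) = D.dpart X + D.dpart Y := by
  ext a c
  by_cases h : D.b a = D.b c <;> simp [dpart, h]

theorem GE2_dpart_neg (X : Matrix (Fin n) (Fin n) F) : D.dpart (-X) = -D.dpart X := by
  ext a c
  by_cases h : D.b a = D.b c <;> simp [dpart, h]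

theorem GE2_dpart_sub (X Y : Matrix (Fin n) (Fin n) F) :
    D.dpart (X - Y) = D.dpart X - D.dpart Y := by
  rw [sub_eq_add_neg, D.dpart_add, D.GE2_dpart_neg, ← sub_eq_add_neg]

theorem GE2_dpart_dpart (X : Matrix (Fin n) (Fin n) F) : D.dpart (D.dpart X) = D.dpart X := by
  ext a c
  by_cases h : D.b a = D.b c <;> simp [dpart, h]

theorem GE2_dpart_zero : D.dpart 0 = 0 := by
  ext a c
  simp [dpart]

theorem GE2_dpart_one : D.dpart 1 = 1 := by
  ext a c
  by_cases h : D.b a = D.b c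
  · simp [dpart, h]
  · have : a ≠ c := fun h' => h (by rw [h'])
    simp [dpart, h, Matrix.one_apply_ne this]

theorem GE2_dpart_of (hj : IsLevi D.b j) {X : Matrix (Fin n) (Fin n) F} (hX : D.dpart X = 0)
    (hg : (g : Matrix (Fin n) (Fin n) F) = (j : Matrix (Fin n) (Fin n) F) * (1 + X)) :
    D.dpart g = j := by
  rw [hg, D.dpart_levi_mul hj, D.dpart_add, hX, D.GE2_dpart_one, add_zero, Matrix.mul_one]

theorem GE2_bd_dpart {s : ℝ} {X : Matrix (Fin n) (Fin n) F} (h : D.Bd s X) (hs : 0 ≤ s) :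
    D.Bd s (D.dpart X) :=
  Bd.mask D h hs fun i i' => i = i'

theorem GE2_flat_inv (hj : j ∈ D.J) (hf : D.Flat j) : D.Flat j⁻¹ := fun i i' => by
  rw [D.sl_inv (D.levi _ hj), D.sl_inv (D.levi _ hj), hf i i']

theorem GE2_flat_mul {j' : GL (Fin n) F} (hj : j ∈ D.J) (hj' : j' ∈ D.J) (hf : D.Flat j)
    (hf' : D.Flat j') : D.Flat (j * j') := fun i i' => by
  rw [D.sl_mul (D.levi _ hj) (D.levi _ hj'), D.sl_mul (D.levi _ hj) (D.levi _ hj'), hf i i',
    hf' i i']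

theorem GE2_bd_conj {s : ℝ} {X : Matrix (Fin n) (Fin n) F} (h : D.Bd s X) (hs : 0 ≤ s)
    (hj : j ∈ D.J) (hf : D.Flat j) :
    D.Bd s ((j : Matrix (Fin n) (Fin n) F) * X *
      ((j⁻¹ : GL (Fin n) F) : Matrix (Fin n) (Fin n) F)) := by
  have := Bd.conj D h hs hj (θ := 1) zero_le_one fun a c _ => by
    rw [one_mul]; exact (hf _ _).le
  rwa [one_mul] at this

theorem dpart_unip (hg : IsUnip D.b g) : D.dpart g = 1 := by
  ext a c
  by_cases h : D.b a = D.b c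
  · rw [← hg a c h.ge]
    simp [dpart, h]
  · have : a ≠ c := fun h' => h (by rw [h'])
    simp [dpart, h, Matrix.one_apply_ne this]

theorem lamF_eq (hj : j ∈ D.J) (h : (j : Matrix (Fin n) (Fin n) F) = D.dpart g) :
    D.lamF g = D.lam ⟨j, hj⟩ := by
  have hex : ∃ j : D.J, ((j : GL (Fin n) F) : Matrix (Fin n) (Fin n) F) = D.dpart g :=
    ⟨⟨j, hj⟩, h⟩
  unfold lamF
  rw [dif_pos hex]
  congr 1
  exact Subtype.ext (Units.ext (hex.choose_spec.trans h.symm))

theorem lamF_of_mem (hj : j ∈ D.J) : D.lamF j = D.lam ⟨j, hj⟩ :=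
  D.lamF_eq hj (D.dpart_levi (D.levi _ hj)).symm

theorem lamF_mul_unip (hj : j ∈ D.J) (hg : IsUnip D.b g) : D.lamF (j * g) = D.lam ⟨j, hj⟩ :=
  D.lamF_eq hj (by
    rw [Units.val_mul, D.dpart_levi_mul (D.levi _ hj), D.dpart_unip hg, Matrix.mul_one])

theorem inH_iff_flat (hr : D.Good r) (hj : IsLevi D.b j) : D.InH r j ↔ j ∈ D.J ∧ D.Flat j := by
  constructor
  · rintro ⟨j0, hj0, hf, X, hX, -, e⟩
    have h1 := D.GE2_dpart_of (D.levi _ hj0) hX e
    rw [D.dpart_levi hj] at h1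
    have h2 : j = j0 := Units.ext h1
    rw [h2]
    exact ⟨hj0, hf⟩
  · rintro ⟨h1, h2⟩
    exact ⟨j, h1, h2, 0, D.GE2_dpart_zero, D.bd_zero hr.1.le, by simp⟩

theorem InH.bd_of_dpart (hg : D.InH r g) (h : D.dpart g = 1) :
    D.Bd r ((g : Matrix (Fin n) (Fin n) F) - 1) := by
  obtain ⟨j0, hj0, -, X, hX, hb, e⟩ := hg
  have h1 := D.GE2_dpart_of (D.levi _ hj0) hX e
  rw [h] at h1
  rw [e, ← h1, Matrix.one_mul, add_sub_cancel_left]
  exact hb

/-- The group `J N`. -/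
def PP : Subgroup (GL (Fin n) F) where
  carrier := {g | ∃ j ∈ D.J, ∃ u, IsUnip D.b u ∧ g = j * u}
  mul_mem' := by
    rintro _ _ ⟨j, hj, u, hu, rfl⟩ ⟨j', hj', u', hu', rfl⟩
    exact ⟨j * j', D.J.mul_mem hj hj', j'⁻¹ * u * j'⁻¹⁻¹ * u',
      (hu.conj (D.levi _ hj').inv).mul hu', by group⟩
  one_mem' := ⟨1, D.J.one_mem, 1, isUnip_one, by simp⟩
  inv_mem' := by
    rintro _ ⟨j, hj, u, hu, rfl⟩
    exact ⟨j⁻¹, D.J.inv_mem hj, j * u⁻¹ * j⁻¹, hu.inv.conj (D.levi _ hj), by group⟩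

/-- The unipotent radical. -/
def UU : Subgroup (GL (Fin n) F) where
  carrier := {g | IsUnip D.b g}
  mul_mem' := IsUnip.mul
  one_mem' := isUnip_one
  inv_mem' := IsUnip.inv

/-- The opposite unipotent radical. -/
def LL : Subgroup (GL (Fin n) F) where
  carrier := {g | IsUnip D.b (tr g)}
  mul_mem' := fun {g h} hg hh => by
    change IsUnip D.b (tr (g * h))
    rw [tr_mul]
    exact IsUnip.mul hh hg
  one_mem' := by
    change IsUnip D.b (tr 1)
    rw [tr_one]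
    exact isUnip_one
  inv_mem' := fun {g} hg => by
    change IsUnip D.b (tr g⁻¹)
    rw [tr_inv]
    exact IsUnip.inv hg

theorem lamF_mulP (hg : g ∈ D.PP) (hh : h ∈ D.PP) : D.lamF (g * h) = D.lamF g * D.lamF h := by
  obtain ⟨j, hj, u, hu, rfl⟩ := hg
  obtain ⟨j', hj', u', hu', rfl⟩ := hh
  have e : j * u * (j' * u') = j * j' * (j'⁻¹ * u * j'⁻¹⁻¹ * u') := by group
  rw [e, D.lamF_mul_unip (D.J.mul_mem hj hj') ((hu.conj (D.levi _ hj').inv).mul hu'),
    D.lamF_mul_unip hj hu, D.lamF_mul_unip hj' hu', ← map_mul]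
  rfl

theorem lamF_L (hg : g ∈ D.LL) : D.lamF g = 1 := by
  have hu : IsUnip D.b (tr g) := hg
  have h1 : D.dpart g = 1 := by
    ext a c
    by_cases h : D.b a = D.b c
    · have h2 := hu c a h.le
      rw [coe_tr, Matrix.transpose_apply] at h2
      simp [dpart, h, h2, Matrix.one_apply, eq_comm]
    · have : a ≠ c := fun h' => h (by rw [h'])
      simp [dpart, h, Matrix.one_apply_ne this]
  rw [D.lamF_eq D.J.one_mem (by rw [h1, Units.val_one])]
  exact map_one D.lam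

variable [IsUltrametricDist F]

/-- a perturbation with a small block diagonal part -/
theorem inH_of (hr : D.Good r) (hj : j ∈ D.J) (hf : D.Flat j) {Y : Matrix (Fin n) (Fin n) F}
    (hY : D.Bd r Y) (hd : D.Bd (r * r) (D.dpart Y))
    (hg : (g : Matrix (Fin n) (Fin n) F) = (j : Matrix (Fin n) (Fin n) F) * (1 + Y)) :
    D.InH r g ∧ D.lamF g = D.lam ⟨j, hj⟩ := by
  obtain ⟨hr0, hr1, hr2⟩ := hr
  have hrr : r * r < r := by nlinarith
  obtain ⟨j0, hj0⟩ := exists_gl_of_mle (hrr.trans hr1) (Bd.mle D hd)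
  have hl : IsLevi D.b j0 := fun a c h => by
    have : a ≠ c := fun h' => h (by rw [h'])
    simp [hj0, dpart, h, Matrix.one_apply_ne this]
  have hn : Near r j0 := fun a c => by
    rw [hj0, add_sub_cancel_left]
    exact (Bd.mle D hd a c).trans_lt hrr
  obtain ⟨hm, hlam⟩ := hr2 j0 hl hn
  have hs : ∀ i, D.sl j0 i = 1 := fun i => by
    have := D.sl_le_of_bnd one_pos hl (hn.bnd hr0 hr1.le) i
    rw [inv_one] at this
    exact le_antisymm this.2 this.1
  have hf0 : D.Flat j0 := fun i i' => by rw [hs, hs]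
  have hb : D.Bd r (((j0⁻¹ : GL (Fin n) F) : Matrix (Fin n) (Fin n) F) * (Y - D.dpart Y)) := by
    have := Bd.left D (Bd.sub D hY (Bd.mono D hd hrr.le)) hr0.le (D.J.inv_mem hm) (θ := 1)
      fun i => by rw [D.sl_inv hl, hs, inv_one]
    rwa [one_mul] at this
  have hz : D.dpart (((j0⁻¹ : GL (Fin n) F) : Matrix (Fin n) (Fin n) F) * (Y - D.dpart Y)) = 0 := by
    rw [D.dpart_levi_mul hl.inv, D.GE2_dpart_sub, D.GE2_dpart_dpart, sub_self, Matrix.mul_zero]
  have e : (g : Matrix (Fin n) (Fin n) F) = ((j * j0 : GL (Fin n) F) : Matrix (Fin n) (Fin n) F) *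
      (1 + ((j0⁻¹ : GL (Fin n) F) : Matrix (Fin n) (Fin n) F) * (Y - D.dpart Y)) := by
    rw [hg, Units.val_mul, Matrix.mul_assoc, Matrix.mul_add (j0 : Matrix (Fin n) (Fin n) F),
      ← Matrix.mul_assoc (j0 : Matrix (Fin n) (Fin n) F), Units.mul_inv, Matrix.one_mul,
      Matrix.mul_one, hj0]
    congr 1
    abel
  refine ⟨⟨j * j0, D.J.mul_mem hj hm, D.GE2_flat_mul hj hm hf hf0, _, hz, hb, e⟩, ?_⟩
  rw [D.lamF_eq (D.J.mul_mem hj hm) (D.GE2_dpart_of (D.levi _ (D.J.mul_mem hj hm)) hz e).symm]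
  have : (⟨j * j0, D.J.mul_mem hj hm⟩ : D.J) = ⟨j, hj⟩ * ⟨j0, hm⟩ := rfl
  rw [this, map_mul, hlam, mul_one]

theorem InH.mul (hr : D.Good r) (hg : D.InH r g) (hh : D.InH r h) :
    D.InH r (g * h) ∧ D.lamF (g * h) = D.lamF g * D.lamF h := by
  obtain ⟨j, hj, hf, X, hX, hb, e⟩ := hg
  obtain ⟨j', hj', hf', X', hX', hb', e'⟩ := hh
  have hr0 := hr.1.le
  have hrr : r * r ≤ r := by nlinarith [hr.2.1]
  have hb1 := D.GE2_bd_conj hb hr0 (D.J.inv_mem hj') (D.GE2_flat_inv hj' hf')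
  rw [inv_inv] at hb1
  set X1 := ((j'⁻¹ : GL (Fin n) F) : Matrix (Fin n) (Fin n) F) * X *
    (j' : Matrix (Fin n) (Fin n) F) with hX1
  have hd1 : D.dpart X1 = 0 := by
    rw [hX1, D.dpart_mul_levi (D.levi _ hj'), D.dpart_levi_mul (D.levi _ hj').inv, hX,
      Matrix.mul_zero, Matrix.zero_mul]
  have hm := Bd.mul D hb1 hb' hr0 hr0
  have hY : D.Bd r (X1 + X' + X1 * X') := Bd.add D (Bd.add D hb1 hb') (Bd.mono D hm hrr)
  have hd : D.Bd (r * r) (D.dpart (X1 + X' + X1 * X')) := by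
    rw [D.dpart_add, D.dpart_add, hd1, hX', add_zero, zero_add]
    exact D.GE2_bd_dpart hm (mul_nonneg hr0 hr0)
  have e1 : (j' : Matrix (Fin n) (Fin n) F) * X1 = X * j' := by
    rw [hX1, ← Matrix.mul_assoc, ← Matrix.mul_assoc, Units.mul_inv, Matrix.one_mul]
  have e2 : ((g * h : GL (Fin n) F) : Matrix (Fin n) (Fin n) F) =
      ((j * j' : GL (Fin n) F) : Matrix (Fin n) (Fin n) F) * (1 + (X1 + X' + X1 * X')) := by
    have e3 : (1 : Matrix (Fin n) (Fin n) F) + (X1 + X' + X1 * X') = (1 + X1) * (1 + X') := by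
      noncomm_ring
    have e4 : (j' : Matrix (Fin n) (Fin n) F) * (1 + X1) = (1 + X) * j' := by
      rw [Matrix.mul_add, Matrix.add_mul, e1, Matrix.mul_one, Matrix.one_mul]
    rw [Units.val_mul, Units.val_mul, e, e', e3, Matrix.mul_assoc, Matrix.mul_assoc,
      ← Matrix.mul_assoc (j' : Matrix (Fin n) (Fin n) F), e4, Matrix.mul_assoc]
  obtain ⟨h1, h2⟩ := D.inH_of hr (D.J.mul_mem hj hj') (D.GE2_flat_mul hj hj' hf hf') hY hd e2
  refine ⟨h1, ?_⟩
  rw [h2, D.lamF_eq hj (D.GE2_dpart_of (D.levi _ hj) hX e).symm,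
    D.lamF_eq hj' (D.GE2_dpart_of (D.levi _ hj') hX' e').symm, ← map_mul]
  rfl

theorem InH.inv (hr : D.Good r) (hg : D.InH r g) : D.InH r g⁻¹ := by
  obtain ⟨j, hj, hf, X, hX, hb, e⟩ := hg
  have hr0 := hr.1.le
  obtain ⟨Y, hY⟩ : ∃ Y : Matrix (Fin n) (Fin n) F,
      1 + Y = ((g⁻¹ * j : GL (Fin n) F) : Matrix (Fin n) (Fin n) F) :=
    ⟨((g⁻¹ * j : GL (Fin n) F) : Matrix (Fin n) (Fin n) F) - 1, by abel⟩
  have e0 : 1 + X = ((j⁻¹ * g : GL (Fin n) F) : Matrix (Fin n) (Fin n) F) := by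
    rw [Units.val_mul, e, ← Matrix.mul_assoc, Units.inv_mul, Matrix.one_mul]
  have e1 : (1 + X) * (1 + Y) = 1 := by
    rw [e0, hY, ← Units.val_mul]
    have : j⁻¹ * g * (g⁻¹ * j) = 1 := by group
    rw [this, Units.val_one]
  have e2 : Y = -X - X * Y := by
    have e3 : (1 + X) * (1 + Y) = 1 + (Y - (-X - X * Y)) := by noncomm_ring
    rw [e3] at e1
    exact sub_eq_zero.1 (by simpa using e1)
  have hbY : D.Bd r Y := D.bd_of_fix hr0 hr.2.1 hr0 fun t ht h => by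
    rw [e2]
    exact Bd.sub D (Bd.mono D (Bd.neg D hb) (le_max_left _ _))
      (Bd.mono D (Bd.mul D hb h hr0 ht) (le_max_right _ _))
  have hrr : 0 ≤ r * r := mul_nonneg hr0 hr0
  have hd : D.Bd (r * r) (D.dpart Y) := by
    rw [e2, D.GE2_dpart_sub, D.GE2_dpart_neg, hX, neg_zero, zero_sub]
    exact Bd.neg D (D.GE2_bd_dpart (Bd.mul D hb hbY hr0 hr0) hrr)
  have hd' : D.Bd (r * r) (D.dpart ((j : Matrix (Fin n) (Fin n) F) * Y *
      ((j⁻¹ : GL (Fin n) F) : Matrix (Fin n) (Fin n) F))) := by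
    rw [D.dpart_mul_levi (D.levi _ hj).inv, D.dpart_levi_mul (D.levi _ hj)]
    exact D.GE2_bd_conj hd hrr hj hf
  refine (D.inH_of hr (D.J.inv_mem hj) (D.GE2_flat_inv hj hf) (D.GE2_bd_conj hbY hr0 hj hf) hd'
    ?_).1
  have e4 : (1 : Matrix (Fin n) (Fin n) F) + (j : Matrix (Fin n) (Fin n) F) * Y *
      ((j⁻¹ : GL (Fin n) F) : Matrix (Fin n) (Fin n) F) = (j : Matrix (Fin n) (Fin n) F) * (1 + Y) *
      ((j⁻¹ : GL (Fin n) F) : Matrix (Fin n) (Fin n) F) := by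
    rw [Matrix.mul_add, Matrix.add_mul, Matrix.mul_one, Units.mul_inv]
  rw [e4, hY, ← Units.val_mul, ← Units.val_mul, ← Units.val_mul]
  congr 1
  group

/-- The group `H`. -/
def HH (hr : D.Good r) : Subgroup (GL (Fin n) F) where
  carrier := {g | D.InH r g}
  mul_mem' := fun hg hh => (InH.mul D hr hg hh).1
  one_mem' := (D.inH_iff_flat hr (D.levi _ D.J.one_mem)).2
    ⟨D.J.one_mem, fun i i' => by rw [D.sl_one, D.sl_one]⟩
  inv_mem' := InH.inv D hr

theorem mem_HH {hr : D.Good r} : g ∈ D.HH hr ↔ D.InH r g := Iff.rfl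

end TypeData

end Pool.Agent.MP_4d0c14_b
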