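import Pool.Agent.MP_4d0c14_b.GE2

/-! Iwahori decomposition of `H` and positive elements. -/

namespace Pool.Agent.MP_4d0c14_b

open scoped Matrix
open Filter

namespace TypeData

variable {n k m : ℕ} {F E : Type} [NormedField F] [IsUltrametricDist F] [Field E]
  (D : TypeData n k m F E) {r : ℝ} (hr : D.Good r)

/-- The strictly lower block part. -/
def GE3_low : Matrix (Fin n) (Fin n) F →ₗ[F] Matrix (Fin n) (Fin n) F where
  toFun X := Matrix.of fun a c => if D.b c < D.b a then X a c else 0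
  map_add' X Y := by
    ext a c
    by_cases h : D.b c < D.b a <;> simp [h]
  map_smul' t X := by
    ext a c
    by_cases h : D.b c < D.b a <;> simp [h]

omit [IsUltrametricDist F] in
theorem GE3_low_apply (X : Matrix (Fin n) (Fin n) F) (a c : Fin n) :
    D.GE3_low X a c = if D.b c < D.b a then X a c else 0 := rfl

omit [IsUltrametricDist F] in
theorem GE3_low_low (X : Matrix (Fin n) (Fin n) F) : D.GE3_low (D.GE3_low X) = D.GE3_low X := by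
  ext a c
  by_cases h : D.b c < D.b a <;> simp [GE3_low_apply, h]

omit [IsUltrametricDist F] in
theorem GE3_low_one : D.GE3_low 1 = 0 := by
  ext a c
  rw [GE3_low_apply]
  split_ifs with h
  · exact Matrix.one_apply_ne fun e => by rw [e] at h; exact lt_irrefl _ h
  · rfl

omit [IsUltrametricDist F] in
theorem GE3_low_bd {s : ℝ} {X : Matrix (Fin n) (Fin n) F} (h : D.Bd s X) (hs : 0 ≤ s) :
    D.Bd s (D.GE3_low X) := Bd.mask D h hs fun i i' => i' < i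

omit [IsUltrametricDist F] in
theorem GE3_low_levi {j : GL (Fin n) F} (hj : IsLevi D.b j) (X : Matrix (Fin n) (Fin n) F) :
    D.GE3_low ((j : Matrix (Fin n) (Fin n) F) * X) = j * D.GE3_low X := by
  ext a c
  rw [GE3_low_apply, Matrix.mul_apply, Matrix.mul_apply]
  split_ifs with h
  · refine Finset.sum_congr rfl fun d _ => ?_
    by_cases e : D.b a = D.b d
    · rw [GE3_low_apply, if_pos (e ▸ h)]
    · rw [hj a d e, zero_mul, zero_mul]
  · refine (Finset.sum_eq_zero fun d _ => ?_).symm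
    by_cases e : D.b a = D.b d
    · rw [GE3_low_apply, if_neg (e ▸ h), mul_zero]
    · rw [hj a d e, zero_mul]

theorem GE3_fix {r s : ℝ} (hr0 : 0 ≤ r) (hr1 : r < 1) (hs : 0 ≤ s)
    {X W Z : Matrix (Fin n) (Fin n) F} (hX : D.Bd r X) (hW : D.Bd s W)
    (h : Z + D.GE3_low (X * D.GE3_low Z) = D.GE3_low W) : D.GE3_low Z = Z ∧ D.Bd s Z := by
  have e : Z = D.GE3_low (W - X * D.GE3_low Z) := by rw [map_sub, ← h, add_sub_cancel_right]
  have e1 : D.GE3_low Z = Z := by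
    have := D.GE3_low_low (W - X * D.GE3_low Z)
    rwa [← e] at this
  refine ⟨e1, D.bd_of_fix hr0 hr1 hs fun t ht hZ => ?_⟩
  rw [e1] at e
  have h1 : D.Bd (max s (r * t)) (W - X * Z) :=
    Bd.sub D (Bd.mono D hW (le_max_left _ _))
      (Bd.mono D (Bd.mul D hX hZ hr0 ht) (le_max_right _ _))
  have h2 := D.GE3_low_bd h1 (le_max_of_le_left hs)
  rwa [← e] at h2

theorem GE3_solve {r : ℝ} (hr0 : 0 ≤ r) (hr1 : r < 1) {X : Matrix (Fin n) (Fin n) F}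
    (hX : D.Bd r X) : ∃ Z, D.GE3_low Z = Z ∧ D.Bd r Z ∧ D.GE3_low ((1 + X) * (1 + Z)) = 0 := by
  let T : Matrix (Fin n) (Fin n) F →ₗ[F] Matrix (Fin n) (Fin n) F :=
    LinearMap.id + D.GE3_low ∘ₗ LinearMap.mulLeft F X ∘ₗ D.GE3_low
  have hT : ∀ Z, T Z = Z + D.GE3_low (X * D.GE3_low Z) := fun Z => rfl
  have hi : Function.Injective T := by
    refine (injective_iff_map_eq_zero T).2 fun Z hZ => ?_
    rw [hT, ← map_zero D.GE3_low] at hZ
    have h1 := (D.GE3_fix hr0 hr1 le_rfl hX (D.bd_zero le_rfl) hZ).2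
    exact MLe.eq_zero fun ε hε => (Bd.mle D h1).mono hε.le
  obtain ⟨Z, hZ⟩ := LinearMap.injective_iff_surjective.1 hi (D.GE3_low (-X))
  rw [hT] at hZ
  obtain ⟨h1, h2⟩ := D.GE3_fix hr0 hr1 hr0 hX (Bd.neg D hX) hZ
  refine ⟨Z, h1, h2, ?_⟩
  rw [h1, map_neg] at hZ
  have e : (1 + X) * (1 + Z) = 1 + X + (Z + X * Z) := by noncomm_ring
  rw [e, map_add, map_add, map_add, GE3_low_one, h1, hZ]
  abel

omit [IsUltrametricDist F] in
theorem GE3_flat_one : D.Flat 1 := fun i i' => by rw [D.sl_one, D.sl_one]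

omit [IsUltrametricDist F] in
theorem GE3_dpart_one : D.dpart 1 = 1 := D.dpart_levi (D.levi _ D.J.one_mem)

omit [IsUltrametricDist F] in
theorem GE3_conj_inH {r : ℝ} {j c : GL (Fin n) F} (hj : j ∈ D.J) (hd : D.dpart c = 1)
    (hb : D.Bd r ((j : Matrix (Fin n) (Fin n) F) * ((c : Matrix (Fin n) (Fin n) F) - 1) *
      ((j⁻¹ : GL (Fin n) F) : Matrix (Fin n) (Fin n) F))) : D.InH r (j * c * j⁻¹) := by
  refine ⟨1, D.J.one_mem, D.GE3_flat_one, _, ?_, hb, ?_⟩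
  · have h1 := D.dpart_add ((c : Matrix (Fin n) (Fin n) F) - 1) 1
    rw [sub_add_cancel, hd, GE3_dpart_one, eq_comm, add_eq_right] at h1
    rw [D.dpart_mul_levi (D.levi _ hj).inv, D.dpart_levi_mul (D.levi _ hj), h1, Matrix.mul_zero,
      Matrix.zero_mul]
  · rw [Units.val_one, Matrix.one_mul, Matrix.mul_sub, Matrix.sub_mul, Matrix.mul_one,
      Units.mul_inv, Units.val_mul, Units.val_mul]
    abel

omit [IsUltrametricDist F] in
theorem GE3_conj_LL {g c : GL (Fin n) F} (hg : IsLevi D.b g) (hc : c ∈ D.LL) :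
    g * c * g⁻¹ ∈ D.LL := by
  change IsUnip D.b (tr (g * c * g⁻¹))
  have h := IsUnip.conj (show IsUnip D.b (tr c) from hc) hg.tr.inv
  rwa [inv_inv, ← tr_inv, mul_assoc, ← tr_mul, ← tr_mul] at h

omit [IsUltrametricDist F] in
theorem GE3_unip_lt {u : GL (Fin n) F} (hu : IsUnip D.b u) {a c : Fin n}
    (h : ((u : Matrix (Fin n) (Fin n) F) - 1) a c ≠ 0) : D.b a < D.b c := by
  by_contra h1
  exact h (by rw [Matrix.sub_apply, hu a c (not_lt.1 h1), sub_self])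

omit [IsUltrametricDist F] in
theorem GE3_tt_pow (ϖ : Fˣ) (K : ℕ) : D.tt ϖ ^ K = D.cen fun i => ϖ ^ (K * (i : ℕ)) := by
  have h := map_pow (dgHom (n := n) (F := F)) (fun a => ϖ ^ (D.b a : ℕ)) K
  refine h.symm.trans (congrArg dg ?_)
  funext a
  rw [Pi.pow_apply, ← pow_mul, mul_comm]

omit [IsUltrametricDist F] in
theorem GE3_sl_tt (ϖ : Fˣ) (K : ℕ) (i : Fin k) :
    D.sl (D.tt ϖ ^ K) i = ‖(ϖ : F)‖ ^ (K * (i : ℕ)) := by
  rw [GE3_tt_pow, sl_cen, Units.val_pow_eq_pow_val, norm_pow]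

theorem GE3_pow_le {x : ℝ} (h0 : 0 ≤ x) (h1 : x ≤ 1) (K : ℕ) {a c : ℕ} (h : a < c) :
    x ^ (K * c) ≤ x ^ (K * a) * x ^ K := by
  rw [← pow_add]
  exact pow_le_pow_of_le_one h0 h1 (by nlinarith)

theorem GE3_ev {x A B : ℝ} (h0 : 0 ≤ x) (h1 : x < 1) (hB : 0 < B) :
    ∀ᶠ K : ℕ in atTop, x ^ K * A ≤ B := by
  have h := (tendsto_pow_atTop_nhds_zero_of_lt_one h0 h1).mul_const A
  rw [zero_mul] at h
  exact (h.eventually (gt_mem_nhds hB)).mono fun K hK => hK.le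

theorem hh_dec {h : GL (Fin n) F} (hh : h ∈ D.HH hr) :
    ∃ p ∈ D.PP, ∃ c ∈ D.LL, p ∈ D.HH hr ∧ c ∈ D.HH hr ∧ h = p * c := by
  obtain ⟨j, hj, hf, X, hX0, hX, he⟩ := D.mem_HH.1 hh
  obtain ⟨Z, hZ1, hZ2, hZ3⟩ := D.GE3_solve hr.1.le hr.2.1 hX
  obtain ⟨g, hg⟩ := exists_gl_of_mle hr.2.1 (Bd.mle D hZ2)
  have hZ0 : ∀ a c, D.b a ≤ D.b c → Z a c = 0 := fun a c h => by
    rw [← hZ1, GE3_low_apply, if_neg (not_lt.2 h)]
  have hgL : g ∈ D.LL := fun a c h => by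
    rw [coe_tr, Matrix.transpose_apply, hg, Matrix.add_apply, hZ0 c a h, add_zero]
    exact congrFun₂ Matrix.transpose_one a c
  have hgH : g ∈ D.HH hr := by
    refine ⟨1, D.J.one_mem, D.GE3_flat_one, Z, ?_, hZ2, by rw [hg, Units.val_one, Matrix.one_mul]⟩
    ext a c
    change (if D.b a = D.b c then Z a c else 0) = 0
    split_ifs with h
    · exact hZ0 a c h.le
    · rfl
  have hp : h * g ∈ D.HH hr := (D.HH hr).mul_mem hh hgH
  obtain ⟨j', hj', -, X', hX0', -, he'⟩ := D.mem_HH.1 hp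
  refine ⟨h * g, ⟨j', hj', j'⁻¹ * (h * g), fun a c hac => ?_, by group⟩, g⁻¹,
    D.LL.inv_mem hgL, hp, (D.HH hr).inv_mem hgH, by group⟩
  rcases hac.eq_or_lt with e | e
  · have h1 : D.dpart X' a c = X' a c := if_pos e.symm
    rw [Units.val_mul, he', ← Matrix.mul_assoc, Units.inv_mul, Matrix.one_mul, Matrix.add_apply,
      ← h1, hX0', Matrix.zero_apply, add_zero]
  · have h1 : D.GE3_low ((j'⁻¹ * (h * g) : GL (Fin n) F) : Matrix (Fin n) (Fin n) F) = 0 := by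
      rw [Units.val_mul, D.GE3_low_levi (D.levi _ hj').inv, Units.val_mul, he, hg,
        Matrix.mul_assoc, D.GE3_low_levi (D.levi _ hj), hZ3, Matrix.mul_zero, Matrix.mul_zero]
    have h2 := congrFun₂ h1 a c
    rw [GE3_low_apply, if_pos e] at h2
    rw [h2, Matrix.zero_apply,
      Matrix.one_apply_ne fun e' => by rw [e'] at e; exact lt_irrefl _ e]

omit [IsUltrametricDist F] in
theorem pos_one : D.Pos 1 := ⟨D.J.one_mem, fun a c _ => by rw [D.sl_one, D.sl_one]⟩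

omit [IsUltrametricDist F] in
theorem Pos.mul {j j' : GL (Fin n) F} (hj : D.Pos j) (hj' : D.Pos j') : D.Pos (j * j') := by
  refine ⟨D.J.mul_mem hj.1 hj'.1, fun a c hac => ?_⟩
  rw [D.sl_mul (D.levi _ hj.1) (D.levi _ hj'.1), D.sl_mul (D.levi _ hj.1) (D.levi _ hj'.1)]
  exact mul_le_mul (hj.2 hac) (hj'.2 hac) (D.sl_pos (D.levi _ hj'.1) _).le
    (D.sl_pos (D.levi _ hj.1) _).le

omit [IsUltrametricDist F] in
theorem pos_tt (ϖ : Fˣ) (hϖ : ‖(ϖ : F)‖ < 1) : D.Pos (D.tt ϖ) := by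
  refine ⟨D.cen_mem _, fun a c hac => ?_⟩
  unfold tt
  rw [sl_cen, sl_cen, Units.val_pow_eq_pow_val, Units.val_pow_eq_pow_val, norm_pow, norm_pow]
  exact pow_le_pow_of_le_one (norm_nonneg _) hϖ.le hac

omit [IsUltrametricDist F] in
theorem mem_PP_of_mem {j : GL (Fin n) F} (hj : j ∈ D.J) : j ∈ D.PP :=
  ⟨j, hj, 1, isUnip_one, (mul_one j).symm⟩

theorem pos_LL {j : GL (Fin n) F} (hj : D.Pos j) {c : GL (Fin n) F} (hc : c ∈ D.LL) :
    j * c * j⁻¹ ∈ D.LL ∧ j⁻¹ * c * j ∈ D.LL ∧ (c ∈ D.HH hr → j * c * j⁻¹ ∈ D.HH hr) := by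
  refine ⟨D.GE3_conj_LL (D.levi _ hj.1) hc, ?_, fun hH => ?_⟩
  · have h := D.GE3_conj_LL (D.levi _ hj.1).inv hc
    rwa [inv_inv] at h
  · have h1 : ∀ a d, D.b a ≤ D.b d →
        (c : Matrix (Fin n) (Fin n) F) a d = (1 : Matrix (Fin n) (Fin n) F) a d := fun a d h =>
      (hc d a h).trans (congrFun₂ Matrix.transpose_one a d)
    have hd : D.dpart c = 1 := by
      ext a d
      change (if D.b a = D.b d then (c : Matrix (Fin n) (Fin n) F) a d else 0) = _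
      split_ifs with h
      · exact h1 a d h.le
      · exact (Matrix.one_apply_ne fun e => h (by rw [e])).symm
    refine D.GE3_conj_inH hj.1 hd ?_
    have h2 := Bd.conj D (InH.bd_of_dpart D hH hd) hr.1.le hj.1 zero_le_one fun a d h => by
      rw [one_mul]
      refine hj.2 (le_of_not_ge fun h3 => h ?_)
      rw [Matrix.sub_apply, h1 a d h3, sub_self]
    rwa [one_mul] at h2

theorem pos_PP {j : GL (Fin n) F} (hj : D.Pos j) {p : GL (Fin n) F} (hp : p ∈ D.PP)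
    (hp' : p ∈ D.HH hr) : j⁻¹ * p * j ∈ D.HH hr := by
  obtain ⟨j0, hj0, u, hu, rfl⟩ := hp
  obtain ⟨j1, hj1, hf, X, hX0, -, he⟩ := D.mem_HH.1 hp'
  have e : j0 = j1 := by
    have h1 := congrArg D.dpart he
    rw [Units.val_mul, D.dpart_levi_mul (D.levi _ hj0), D.dpart_levi_mul (D.levi _ hj1),
      D.dpart_unip hu, D.dpart_add, GE3_dpart_one, hX0, add_zero, Matrix.mul_one,
      Matrix.mul_one] at h1
    exact Units.ext h1
  subst e
  have l := D.levi _ hj.1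
  have l0 := D.levi _ hj0
  have h0 : j0 ∈ D.HH hr := (D.inH_iff_flat hr l0).2 ⟨hj0, hf⟩
  have huH : u ∈ D.HH hr := by
    have := (D.HH hr).mul_mem ((D.HH hr).inv_mem h0) hp'
    rwa [inv_mul_cancel_left] at this
  have h1 : j⁻¹ * j0 * j ∈ D.HH hr := by
    refine (D.inH_iff_flat hr ((l.inv.mul l0).mul l)).2
      ⟨D.J.mul_mem (D.J.mul_mem (D.J.inv_mem hj.1) hj0) hj.1, fun i i' => ?_⟩
    rw [D.sl_mul (l.inv.mul l0) l, D.sl_mul (l.inv.mul l0) l, D.sl_mul l.inv l0,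
      D.sl_mul l.inv l0, D.sl_inv l, D.sl_inv l, hf i i']
    have := (D.sl_pos l i).ne'
    have := (D.sl_pos l i').ne'
    field_simp
  have h2 : j⁻¹ * u * j⁻¹⁻¹ ∈ D.HH hr := by
    refine D.GE3_conj_inH (D.J.inv_mem hj.1) (D.dpart_unip hu) ?_
    have h3 := Bd.conj D (InH.bd_of_dpart D huH (D.dpart_unip hu)) hr.1.le (D.J.inv_mem hj.1)
      zero_le_one fun a d h => by
        rw [one_mul, D.sl_inv l, D.sl_inv l]
        exact inv_anti₀ (D.sl_pos l _) (hj.2 (D.GE3_unip_lt hu h).le)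
    rwa [one_mul] at h3
  have h3 := (D.HH hr).mul_mem h1 h2
  rwa [show j⁻¹ * j0 * j * (j⁻¹ * u * j⁻¹⁻¹) = j⁻¹ * (j0 * u) * j by group] at h3

omit [IsUltrametricDist F] in
theorem ev_pos_tt (ϖ : Fˣ) (hϖ : ‖(ϖ : F)‖ < 1) {j : GL (Fin n) F} (hj : j ∈ D.J) :
    ∀ᶠ K : ℕ in atTop, D.Pos (j * D.tt ϖ ^ K) := by
  have l := D.levi _ hj
  have h1 : ∀ᶠ K : ℕ in atTop, ∀ i i' : Fin k, ‖(ϖ : F)‖ ^ K * D.sl j i' ≤ D.sl j i :=
    eventually_all.2 fun i => eventually_all.2 fun i' =>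
      GE3_ev (norm_nonneg _) hϖ (D.sl_pos l i)
  filter_upwards [h1] with K hK
  have ht : D.tt ϖ ^ K ∈ D.J := D.J.pow_mem (D.cen_mem _) K
  refine ⟨D.J.mul_mem hj ht, fun a c hac => ?_⟩
  rcases hac.eq_or_lt with e | e
  · rw [e]
  · rw [D.sl_mul l (D.levi _ ht), D.sl_mul l (D.levi _ ht), GE3_sl_tt, GE3_sl_tt]
    have h2 := GE3_pow_le (norm_nonneg (ϖ : F)) hϖ.le K (show (a : ℕ) < c from e)
    have h3 : 0 ≤ ‖(ϖ : F)‖ ^ (K * (a : ℕ)) := by positivity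
    calc D.sl j c * ‖(ϖ : F)‖ ^ (K * (c : ℕ))
        ≤ D.sl j c * (‖(ϖ : F)‖ ^ (K * (a : ℕ)) * ‖(ϖ : F)‖ ^ K) :=
          mul_le_mul_of_nonneg_left h2 (D.sl_pos l c).le
      _ = ‖(ϖ : F)‖ ^ K * D.sl j c * ‖(ϖ : F)‖ ^ (K * (a : ℕ)) := by ring
      _ ≤ D.sl j a * ‖(ϖ : F)‖ ^ (K * (a : ℕ)) := mul_le_mul_of_nonneg_right (hK a c) h3

theorem ev_PP (ϖ : Fˣ) (hϖ : ‖(ϖ : F)‖ < 1) {p : GL (Fin n) F} (hp : p ∈ D.PP) :
    ∀ᶠ K : ℕ in atTop, ∃ j, D.Pos j ∧ j⁻¹ * (p * D.tt ϖ ^ K) ∈ D.HH hr := by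
  obtain ⟨j0, hj0, u, hu, rfl⟩ := hp
  obtain ⟨C, hC, hC'⟩ := D.bd_of_mle
  obtain ⟨s, hs, hs'⟩ := MLe.exists_bound ((u : Matrix (Fin n) (Fin n) F) - 1)
  have hb := hC' s _ hs.le hs'
  filter_upwards [D.ev_pos_tt ϖ hϖ hj0,
    GE3_ev (A := C * s) (norm_nonneg (ϖ : F)) hϖ hr.1] with K hK hK'
  refine ⟨_, hK, ?_⟩
  have ht : D.tt ϖ ^ K ∈ D.J := D.J.pow_mem (D.cen_mem _) K
  have l := D.levi _ ht
  have h0 : 0 < ‖(ϖ : F)‖ := norm_pos_iff.2 ϖ.ne_zero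
  have h2 : (D.tt ϖ ^ K)⁻¹ * u * (D.tt ϖ ^ K)⁻¹⁻¹ ∈ D.HH hr := by
    refine D.GE3_conj_inH (D.J.inv_mem ht) (D.dpart_unip hu) (Bd.mono D ?_ hK')
    refine Bd.conj D hb (mul_pos hC hs).le (D.J.inv_mem ht) (by positivity) fun a d h => ?_
    rw [D.sl_inv l, D.sl_inv l, GE3_sl_tt, GE3_sl_tt, ← div_eq_mul_inv,
      le_div_iff₀ (by positivity), inv_mul_le_iff₀ (by positivity)]
    exact GE3_pow_le h0.le hϖ.le K (D.GE3_unip_lt hu h)
  generalize D.tt ϖ ^ K = t at h2 ⊢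
  rwa [show t⁻¹ * u * t⁻¹⁻¹ = (j0 * t)⁻¹ * (j0 * u * t) by group] at h2

end TypeData

end Pool.Agent.MP_4d0c14_b
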