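import Pool.Agent.MP_4d0c14_b.Fib

/-! Abstract Iwahori decomposition and the Hecke operators of positive elements. -/

namespace Pool.Agent.MP_4d0c14_b

open scoped Matrix Kronecker
open Filter

/-- `H` has an Iwahori decomposition with respect to `P` and `L`; `lam` is a representation of `H`
and of `P`, trivial on `L ∩ H`. -/
structure Iw (G E ι : Type) [Group G] [Field E] [Fintype ι] [DecidableEq ι] where
  H : Subgroup G
  P : Subgroup G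
  L : Subgroup G
  lam : G → Matrix ι ι E
  Pos : G → Prop
  t : G
  lam_one : lam 1 = 1
  lam_mulH : ∀ h ∈ H, ∀ h' ∈ H, lam (h * h') = lam h * lam h'
  lam_mulP : ∀ p ∈ P, ∀ p' ∈ P, lam (p * p') = lam p * lam p'
  lam_L : ∀ c ∈ L, c ∈ H → lam c = 1
  fin : ∀ g : G, ∃ T : Finset G, ∀ h ∈ H, ∃ t ∈ T, t⁻¹ * (h * g) ∈ H
  dec : ∀ h ∈ H, ∃ p ∈ P, ∃ c ∈ L, p ∈ H ∧ c ∈ H ∧ h = p * c
  pos_one : Pos 1
  pos_mul : ∀ j j', Pos j → Pos j' → Pos (j * j')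
  pos_t : Pos t
  pos_mem : ∀ j, Pos j → j ∈ P
  pos_L : ∀ j, Pos j → ∀ c ∈ L, j * c * j⁻¹ ∈ L ∧ j⁻¹ * c * j ∈ L ∧ (c ∈ H → j * c * j⁻¹ ∈ H)
  pos_P : ∀ j, Pos j → ∀ p ∈ P, p ∈ H → j⁻¹ * p * j ∈ H
  ev_P : ∀ p ∈ P, ∀ᶠ K : ℕ in atTop, ∃ j, Pos j ∧ j⁻¹ * (p * t ^ K) ∈ H
  ev_pos : ∀ j, Pos j → ∀ᶠ K : ℕ in atTop, Pos (j⁻¹ * t ^ K)

namespace Iw

variable {G E ι : Type} [Group G] [Field E] [Fintype ι] [DecidableEq ι] (D : Iw G E ι)

/-- the underlying fibre data -/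
def fib : Fib G E ι where
  H := D.H
  μ := D.lam
  μ_one := D.lam_one
  μ_mul := D.lam_mulH
  fin := D.fin

open Classical in
/-- `phi (p h) = lam p * lam h`, zero outside `P H` -/
noncomputable def phi (x : G) : Matrix ι ι E :=
  if h : ∃ y : G × G, y.1 ∈ D.P ∧ y.2 ∈ D.H ∧ x = y.1 * y.2 then
    D.lam h.choose.1 * D.lam h.choose.2 else 0

open Classical in
/-- `kap j (h j h') = lam h'⁻¹ * lam j⁻¹ * lam h⁻¹`, zero outside `H j H` -/
noncomputable def kap (j x : G) : Matrix ι ι E :=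
  if h : ∃ y : G × G, y.1 ∈ D.H ∧ y.2 ∈ D.H ∧ x = y.1 * j * y.2 then
    D.lam h.choose.2⁻¹ * D.lam j⁻¹ * D.lam h.choose.1⁻¹ else 0

/-- the map from the compact induction to the parabolic induction -/
noncomputable def pmap (Y : G → Matrix ι ι E) (u : G) : Matrix ι ι E :=
  ∑ᶠ q : G ⧸ D.H, D.phi (u * q.out) * Y q.out

/-- the positive elements `γ i` generate all positive elements, up to `H` and cancellation -/
def Gen {d : ℕ} (γ : Fin d → G) : Prop :=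
  (∀ i, D.Pos (γ i)) ∧ ∀ j, D.Pos j → ∃ a ∈ Submonoid.closure (Set.range γ),
    ∃ b ∈ Submonoid.closure (Set.range γ), b⁻¹ * (j * a) ∈ D.H

variable {ι₁ : Type} [Fintype ι₁] [DecidableEq ι₁] (ρ : G →* Matrix ι₁ ι₁ E)

/-- the fibre data of `ρ ⊗ lam` -/
def tfib : Fib G E (ι₁ × ι) where
  H := D.H
  μ := fun h => ρ h ⊗ₖ D.lam h
  μ_one := by rw [map_one, D.lam_one, Matrix.one_kronecker_one]
  μ_mul := fun h hh h' hh' => by rw [map_mul, D.lam_mulH h hh h' hh', Matrix.mul_kronecker_mul]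
  fin := D.fin

/-- the kernel of `U_j - 1` on the compact induction of `ρ ⊗ lam` -/
noncomputable def tker (j : G) : G → Matrix (ι₁ × ι) (ι₁ × ι) E :=
  fun x => ρ x⁻¹ ⊗ₖ (D.kap j x - D.fib.del x)

/-- the map from the compact induction of `ρ ⊗ lam` to `ρ ⊗ π` -/
noncomputable def tpmap (Y : G → Matrix (ι₁ × ι) (ι₁ × ι) E) (u : G) :
    Matrix (ι₁ × ι) (ι₁ × ι) E :=
  ∑ᶠ q : G ⧸ D.H, (ρ q.out ⊗ₖ D.phi (u * q.out)) * Y q.out

end Iw

end Pool.Agent.MP_4d0c14_b
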