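import Pool.Agent.MP_4d0c14_b.GE3
import Pool.Agent.MP_4d0c14_b.GE4
import Pool.Agent.MP_4d0c14_b.Iw

/-! The Iwahori data of a type. -/

namespace Pool.Agent.MP_4d0c14_b

namespace TypeData

variable {n k m : ℕ} {F E : Type} [NormedField F] [IsUltrametricDist F] [ProperSpace F] [Field E]
  (D : TypeData n k m F E) {r : ℝ} (hr : D.Good r) (ϖ : Fˣ) (hϖ : ‖(ϖ : F)‖ < 1)

/-- The Iwahori data. -/
noncomputable def iw : Iw (GL (Fin n) F) E (Fin m) where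
  H := D.HH hr
  P := D.PP
  L := D.LL
  lam := D.lamF
  Pos := D.Pos
  t := D.tt ϖ
  lam_one := D.lamF_L D.LL.one_mem
  lam_mulH := fun _ hh _ hh' => (InH.mul D hr hh hh').2
  lam_mulP := fun _ hp _ hp' => D.lamF_mulP hp hp'
  lam_L := fun _ hc _ => D.lamF_L hc
  fin := D.hh_fin hr ϖ hϖ
  dec := fun _ hh => D.hh_dec hr hh
  pos_one := D.pos_one
  pos_mul := fun _ _ hj hj' => Pos.mul D hj hj'
  pos_t := D.pos_tt ϖ hϖ
  pos_mem := fun _ hj => D.mem_PP_of_mem hj.1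
  pos_L := fun _ hj _ hc => D.pos_LL hr hj hc
  pos_P := fun _ hj _ hp hp' => D.pos_PP hr hj hp hp'
  ev_P := fun _ hp => D.ev_PP hr ϖ hϖ hp
  ev_pos := fun _ hj => D.ev_pos_tt ϖ hϖ (D.J.inv_mem hj.1)

end TypeData

end Pool.Agent.MP_4d0c14_b
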