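import Pool.Agent.MP_4d0c14_b.Mat

/-! Slopes, invariant bounds and the group `H` attached to a type. -/

namespace Pool.Agent.MP_4d0c14_b

open scoped Matrix

namespace TypeData

variable {n k m : ℕ} {F E : Type} [NormedField F] [Field E] (D : TypeData n k m F E)

/-- The central element with entry `z i` on the block `i`. -/
def cen (z : Fin k → Fˣ) : GL (Fin n) F := dg fun a => z (D.b a)

/-- The block diagonal part. -/
def dpart (X : Matrix (Fin n) (Fin n) F) : Matrix (Fin n) (Fin n) F :=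
  Matrix.of fun a c => if D.b a = D.b c then X a c else 0

/-- The slope of the block `i`. -/
noncomputable def sl (j : GL (Fin n) F) (i : Fin k) : ℝ :=
  ‖((j : Matrix (Fin n) (Fin n) F).toSquareBlock D.b i).det‖ ^
    (1 / (Fintype.card {a // D.b a = i} : ℝ))

/-- The `J`-invariant bound. -/
def Bd (s : ℝ) (X : Matrix (Fin n) (Fin n) F) : Prop :=
  ∀ j ∈ D.J, ∀ j' ∈ D.J, ∀ a c,
    ‖((j : Matrix (Fin n) (Fin n) F) * X * (j' : Matrix (Fin n) (Fin n) F)) a c‖ ≤
      s * D.sl j (D.b a) * D.sl j' (D.b c)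

/-- All slopes are equal. -/
def Flat (j : GL (Fin n) F) : Prop := ∀ i i', D.sl j i = D.sl j i'

open Classical in
/-- `lam` of the block diagonal part. -/
noncomputable def lamF (g : GL (Fin n) F) : Matrix (Fin m) (Fin m) E :=
  if h : ∃ j : D.J, ((j : GL (Fin n) F) : Matrix (Fin n) (Fin n) F) = D.dpart g then
    D.lam h.choose else 0

/-- Membership in `H`. -/
def InH (r : ℝ) (g : GL (Fin n) F) : Prop :=
  ∃ j ∈ D.J, D.Flat j ∧ ∃ X, D.dpart X = 0 ∧ D.Bd r X ∧
    (g : Matrix (Fin n) (Fin n) F) = (j : Matrix (Fin n) (Fin n) F) * (1 + X)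

/-- An admissible radius. -/
def Good (r : ℝ) : Prop :=
  0 < r ∧ r < 1 ∧ ∀ g, IsLevi D.b g → Near r g → ∃ h : g ∈ D.J, D.lam ⟨g, h⟩ = 1

/-- Positive elements. -/
def Pos (j : GL (Fin n) F) : Prop := j ∈ D.J ∧ Antitone (D.sl j)

/-- A strictly positive central element. -/
def tt (ϖ : Fˣ) : GL (Fin n) F := D.cen fun i => ϖ ^ (i : ℕ)

theorem cen_mem (z : Fin k → Fˣ) : D.cen z ∈ D.J := (D.centre z).1

theorem lam_cen (z : Fin k → Fˣ) :
    D.lam ⟨D.cen z, D.cen_mem z⟩ = (D.omega z : E) • (1 : Matrix (Fin m) (Fin m) E) :=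
  (D.centre z).2

theorem cen_mul (z z' : Fin k → Fˣ) : D.cen (z * z') = D.cen z * D.cen z' := dg_mul _ _

theorem cen_inv (z : Fin k → Fˣ) : D.cen z⁻¹ = (D.cen z)⁻¹ := dg_inv _

theorem exists_good : ∃ r, D.Good r := by
  obtain ⟨r, hr, h⟩ := D.smooth
  exact ⟨min r (1 / 2), lt_min hr (by norm_num), (min_le_right _ _).trans_lt (by norm_num),
    fun g hg hn => h g hg (hn.mono (min_le_left _ _))⟩

end TypeData

end Pool.Agent.MP_4d0c14_b
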