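import Pool.Agent.MP_4d0c14_b.A4

/-! Degrees: root subgroups change the degree strictly; the extreme component lemma. -/

namespace Pool.Agent.MP_4d0c14_b

open scoped Matrix

/-- All components of degree less than `d` vanish. -/
def H1_Fil {E J σ : Type} [Field E] [Fintype J] (π : σ → Matrix J J E) (deg : σ → ℤ) (d : ℤ)
    (X : Matrix J J E) : Prop :=
  ∀ A B, deg A - deg B < d → π A * X * π B = 0

theorem H1_Fil_mul {E J σ : Type} [Field E] [Fintype J] [DecidableEq J] [Fintype σ]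
    [DecidableEq σ] {π : σ → Matrix J J E} {deg : σ → ℤ} (hsum : ∑ M, π M = 1)
    (horth : ∀ M M', π M * π M' = if M = M' then π M else 0) {d e : ℤ} {X Y : Matrix J J E}
    (hX : H1_Fil π deg d X) (hY : H1_Fil π deg e Y) : H1_Fil π deg (d + e) (X * Y) := by
  intro A B h
  have h1 : π A * (X * Y) * π B = ∑ C, (π A * X * π C) * (π C * Y * π B) := by
    have h2 : ∀ C, (π A * X * π C) * (π C * Y * π B) = π A * X * π C * (Y * π B) := by
      intro C
      have h3 : π C * π C = π C := by rw [horth, if_pos rfl]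
      calc (π A * X * π C) * (π C * Y * π B) = π A * X * (π C * π C) * (Y * π B) := by
            simp only [Matrix.mul_assoc]
        _ = _ := by rw [h3]
    simp only [h2]
    rw [← Finset.sum_mul, ← Finset.mul_sum, hsum]
    simp only [Matrix.mul_assoc, Matrix.one_mul]
  rw [h1]
  refine Finset.sum_eq_zero fun C _ => ?_
  by_cases h4 : deg A - deg C < d
  · rw [hX A C h4, Matrix.zero_mul]
  · rw [hY C B (by omega), Matrix.mul_zero]

theorem H1_sand {E J σ : Type} [Field E] [Fintype J] [DecidableEq J] [Fintype σ]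
    [DecidableEq σ] {π : σ → Matrix J J E} {deg : σ → ℤ} (hsum : ∑ M, π M = 1)
    (horth : ∀ M M', π M * π M' = if M = M' then π M else 0) {d : ℤ} {U V X : Matrix J J E}
    (hU : H1_Fil π deg 1 (U - 1)) (hV : H1_Fil π deg 1 (V - 1)) (hX : H1_Fil π deg d X)
    {A B : σ} (h : deg A - deg B ≤ d) : π A * (U * X * V) * π B = π A * X * π B := by
  have e : U * X * V = X + ((U - 1) * X + X * (V - 1) + (U - 1) * X * (V - 1)) := by
    noncomm_ring
  have h1 := H1_Fil_mul hsum horth hU hX A B (by omega)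
  have h2 := H1_Fil_mul hsum horth hX hV A B (by omega)
  have h3 := H1_Fil_mul hsum horth (H1_Fil_mul hsum horth hU hX) hV A B (by omega)
  rw [e]
  simp only [Matrix.mul_add, Matrix.add_mul]
  rw [h1, h2, h3]
  simp

theorem H1_zpow_inj {E : Type} [Field E] [CharZero E] {z : ℕ} (hz : 2 ≤ z) {c d : ℤ}
    (h : (z : E) ^ c = (z : E) ^ d) : c = d := by
  have h1 : (z : ℚ) ^ c = (z : ℚ) ^ d := by
    apply Rat.cast_injective (α := E)
    simpa using h
  have h2 : (1 : ℚ) < z := by exact_mod_cast hz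
  exact zpow_right_injective₀ (by linarith) h2.ne' h1

/-- The extreme component lemma. -/
theorem extreme_component {E J A σ : Type} [Field E] [CharZero E] [Fintype J] [DecidableEq J]
    [AddCommGroup A] [Fintype σ] [DecidableEq σ] (B : AddSubgroup A) (π : σ → Matrix J J E)
    (deg : σ → ℤ) (hsum : ∑ M, π M = 1)
    (horth : ∀ M M', π M * π M' = if M = M' then π M else 0)
    (U u : A → Matrix J J E) (u₀ : Matrix J J E) (z : ℕ) (hz : 2 ≤ z) (c : ℕ) (hc : 1 ≤ c)
    (hU : ∀ s ∈ B, ∀ M M', deg M ≤ deg M' → π M * (U s - 1) * π M' = 0)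
    (hu : ∀ s ∈ B, ∀ s' ∈ B, u (s + s') = u s + U s * u s' * U (-s))
    (hu₀ : ∀ M M', deg M ≠ deg M' → π M * u₀ * π M' = 0)
    (hrel : ∀ s ∈ B, ∀ M M', π M * u (z ^ c • s) * π M' =
      (z : E) ^ (deg M - deg M') • (π M * u s * π M') +
        π M * (u₀ - U (z ^ c • s) * u₀ * U (-(z ^ c • s))) * π M') :
    ∀ s ∈ B, ∀ M M', deg M ≤ deg M' → π M * u s * π M' = 0 := by
  classical
  by_contra hcon
  push Not at hcon
  obtain ⟨s₁, hs₁, M₁, M₁', hle₁, hne₁⟩ := hcon
  obtain ⟨⟨M, M'⟩, hmem, hmin⟩ := Finset.exists_min_image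
    (Finset.univ.filter fun x : σ × σ => deg x.1 ≤ deg x.2 ∧ ∃ s ∈ B, π x.1 * u s * π x.2 ≠ 0)
    (fun x => deg x.1 - deg x.2) ⟨(M₁, M₁'), by simpa using ⟨hle₁, s₁, hs₁, hne₁⟩⟩
  obtain ⟨hle, s, hs, hne⟩ := (Finset.mem_filter.1 hmem).2
  simp only at hle hne hmin
  have hUF : ∀ s ∈ B, H1_Fil π deg 1 (U s - 1) := fun s hs A C h => hU s hs A C (by omega)
  have huF : ∀ s ∈ B, H1_Fil π deg (deg M - deg M') (u s) := by
    intro s hs A C h
    by_contra h0
    have := hmin (A, C) (Finset.mem_filter.2 ⟨Finset.mem_univ _, by simp only; omega, s, hs, h0⟩)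
    simp only at this
    omega
  have hadd : ∀ s ∈ B, ∀ s' ∈ B,
      π M * u (s + s') * π M' = π M * u s * π M' + π M * u s' * π M' := by
    intro s hs s' hs'
    rw [hu s hs s' hs', Matrix.mul_add, Matrix.add_mul,
      H1_sand hsum horth (hUF s hs) (hUF _ (B.neg_mem hs)) (huF s' hs') le_rfl]
  have hsm : ∀ m : ℕ, π M * u (m • s) * π M' = (m : E) • (π M * u s * π M') := by
    intro m
    induction m with
    | zero =>
      have := hadd 0 B.zero_mem 0 B.zero_mem
      rw [add_zero] at this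
      simpa using this
    | succ m ih =>
      rw [succ_nsmul, hadd _ (B.nsmul_mem hs m) s hs, ih, Nat.cast_succ, add_smul, one_smul]
  have h0 : H1_Fil π deg 0 u₀ := fun A C h => hu₀ A C (by omega)
  have h1 := hrel s hs M M'
  have hzs := B.nsmul_mem hs (z ^ c)
  rw [hsm, Matrix.mul_sub, Matrix.sub_mul,
    H1_sand hsum horth (hUF _ hzs) (hUF _ (B.neg_mem hzs)) h0 (by omega), sub_self, add_zero,
    Nat.cast_pow, ← zpow_natCast, ← sub_eq_zero, ← sub_smul, smul_eq_zero] at h1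
  rcases h1 with h1 | h1
  · have := H1_zpow_inj hz (sub_eq_zero.1 h1)
    omega
  · exact hne h1

variable {n : ℕ} {F E ι : Type} [Field F] [CharZero F] [Field E] [CharZero E] [Fintype ι]
  {κ : ι → F →+* E} {a : ι → Fin n → ℤ} {N : ℕ} {ρ : GL (Fin n) F →* Matrix (Fin N) (Fin N) E}
  {w l : Fin N → E} {D : ℕ} {π : Fin (D + 1) → Matrix (Fin N) (Fin N) E}

omit [CharZero F] in
theorem H1_conj (h : Graded κ a ρ w l π) (z : Fˣ) (y : ℚ) (hz : (z : F) = y)
    (X : Matrix (Fin N) (Fin N) E) (M M' : Fin (D + 1)) :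
    π M * (ρ (dg fun i => z ^ (i : ℕ)) * X * ρ (dg fun i => z ^ (i : ℕ))⁻¹) * π M' =
      (y : E) ^ (((M : ℕ) : ℤ) - ((M' : ℕ) : ℤ)) • (π M * X * π M') := by
  have hy : y ≠ 0 := by
    rintro rfl
    simp at hz
  have hyE : (y : E) ≠ 0 := by exact_mod_cast hy
  have hχ := chi_ne_zero κ a (fun i : Fin n => z ^ (i : ℕ))
  set χ := chi κ a (fun i : Fin n => z ^ (i : ℕ)) with hχd
  set T : GL (Fin n) F := dg fun i => z ^ (i : ℕ) with hT
  have he : ρ T = χ • ∑ M : Fin (D + 1), ((y : E) ^ (M : ℕ)) • π M := h.eig z y hz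
  have h1 : π M * ρ T = (χ * (y : E) ^ (M : ℕ)) • π M := by
    rw [he, Matrix.mul_smul, Finset.mul_sum, Finset.sum_eq_single M]
    · rw [Matrix.mul_smul, h.orth, if_pos rfl, smul_smul]
    · intro b _ hb
      rw [Matrix.mul_smul, h.orth, if_neg (Ne.symm hb), smul_zero]
    · simp
  have h2 : ρ T * π M' = (χ * (y : E) ^ (M' : ℕ)) • π M' := by
    rw [he, Matrix.smul_mul, Finset.sum_mul, Finset.sum_eq_single M']
    · rw [Matrix.smul_mul, h.orth, if_pos rfl, smul_smul]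
    · intro b _ hb
      rw [Matrix.smul_mul, h.orth, if_neg hb, smul_zero]
    · simp
  have h3 : ρ T⁻¹ * π M' = (χ * (y : E) ^ (M' : ℕ))⁻¹ • π M' := by
    have h4 := congrArg (fun Y => ρ T⁻¹ * Y) h2
    simp only [← Matrix.mul_assoc, ← map_mul, inv_mul_cancel, map_one, Matrix.one_mul,
      Matrix.mul_smul] at h4
    rw [eq_inv_smul_iff₀ (mul_ne_zero hχ (pow_ne_zero _ hyE))]
    exact h4.symm
  calc π M * (ρ T * X * ρ T⁻¹) * π M' = (π M * ρ T) * X * (ρ T⁻¹ * π M') := by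
        simp only [Matrix.mul_assoc]
    _ = _ := by
      rw [h1, h3, Matrix.smul_mul, Matrix.smul_mul, Matrix.mul_smul, smul_smul, zpow_sub₀ hyE,
        zpow_natCast, zpow_natCast]
      congr 1
      field_simp

theorem Graded.comm_dg (h : Graded κ a ρ w l π) (t : Fin n → Fˣ) (M : Fin (D + 1)) :
    π M * ρ (dg t) = ρ (dg t) * π M := by
  have hoff : ∀ A B : Fin (D + 1), A ≠ B → π A * ρ (dg t) * π B = 0 := by
    intro A B hAB
    have h1 := H1_conj h (Units.mk0 (2 : F) two_ne_zero) 2 (by simp) (ρ (dg t)) A B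
    rw [← map_mul, ← map_mul, ← dg_mul, mul_comm _ t, dg_mul, mul_inv_cancel_right,
      ← sub_eq_zero] at h1
    nth_rewrite 1 [← one_smul E (π A * ρ (dg t) * π B)] at h1
    rw [← sub_smul, smul_eq_zero] at h1
    rcases h1 with h1 | h1
    · have h2 : ((2 : ℕ) : E) ^ (0 : ℤ) = ((2 : ℕ) : E) ^ (((A : ℕ) : ℤ) - ((B : ℕ) : ℤ)) := by
        simpa using sub_eq_zero.1 h1
      have h3 := H1_zpow_inj le_rfl h2
      exact absurd (Fin.ext (by omega)) hAB
    · exact h1
  have h1 : π M * ρ (dg t) = π M * ρ (dg t) * π M := by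
    conv_lhs => rw [← Matrix.mul_one (π M * ρ (dg t)), ← h.sum, Finset.mul_sum]
    rw [Finset.sum_eq_single M]
    · intro b _ hb
      exact hoff _ _ (Ne.symm hb)
    · simp
  have h2 : ρ (dg t) * π M = π M * ρ (dg t) * π M := by
    conv_lhs => rw [← Matrix.one_mul (ρ (dg t)), ← h.sum, Finset.sum_mul, Finset.sum_mul]
    rw [Finset.sum_eq_single M]
    · intro b _ hb
      exact hoff _ _ hb
    · simp
  rw [h2, ← h1]

theorem Graded.conj (h : Graded κ a ρ w l π) (z : Fˣ) (y : ℚ) (hz : (z : F) = y)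
    (X : Matrix (Fin N) (Fin N) E) (M M' : Fin (D + 1)) :
    π M * (ρ (dg fun i => z ^ (i : ℕ)) * X * ρ (dg fun i => z ^ (i : ℕ))⁻¹) * π M' =
      (y : E) ^ (((M : ℕ) : ℤ) - ((M' : ℕ) : ℤ)) • (π M * X * π M') :=
  H1_conj h z y hz X M M'

theorem H1_deg (hreg : ∀ i j, (fun g => ρ g i j) ∈ Reg n κ) {i j : Fin n} (hij : i ≠ j) (s : F)
    (P Q : Matrix (Fin N) (Fin N) E) (c e : ℕ) (hc : c ≠ 0)
    (hx : ∀ x : ℚ, x ≠ 0 → (x : E) ^ e • (P * (ρ (tv i j hij ((x : F) ^ c * s)) - 1) * Q) =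
      P * (ρ (tv i j hij s) - 1) * Q) : P * (ρ (tv i j hij s) - 1) * Q = 0 := by
  classical
  ext p q
  have hf : (fun g => (P * (ρ g - 1) * Q) p q) ∈ Reg n κ := by
    have e1 : (fun g => (P * (ρ g - 1) * Q) p q) =
        (∑ k, ∑ m, (P p m * Q k q) • (fun g => ρ g m k)) - algebraMap E _ ((P * Q) p q) := by
      funext g
      rw [Matrix.mul_sub, Matrix.sub_mul, Matrix.mul_one, Matrix.sub_apply]
      simp only [Matrix.mul_apply, Pi.sub_apply, Finset.sum_apply, Pi.smul_apply, smul_eq_mul,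
        Pi.algebraMap_apply, Algebra.algebraMap_self, RingHom.id_apply, Finset.sum_mul]
      congr 1
      refine Finset.sum_congr rfl fun k _ => Finset.sum_congr rfl fun m _ => ?_
      ring
    rw [e1]
    exact Subalgebra.sub_mem _ (Subalgebra.sum_mem _ fun k _ => Subalgebra.sum_mem _ fun m _ =>
      Subalgebra.smul_mem _ (hreg m k) _) (Subalgebra.algebraMap_mem _ _)
  obtain ⟨K, R, hR⟩ := reg_curve hf (Matrix.transvection i j (Polynomial.X * Polynomial.C s))
  have hR' : ∀ y : ℚ, (P * (ρ (tv i j hij ((y : F) * s)) - 1) * Q) p q = R.eval (y : E) := by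
    intro y
    have h1 := hR y (tv i j hij ((y : F) * s)) (by
      ext u v
      simp only [coe_tv, Matrix.transvection, Matrix.add_apply, Matrix.map_apply, Matrix.one_apply,
        Matrix.single_apply]
      split_ifs <;> simp [mul_comm s])
    rw [coe_tv, Matrix.det_transvection_of_ne _ _ hij] at h1
    simpa using h1
  have h0 : R.eval 0 = 0 := by
    have := hR' 0
    rw [Rat.cast_zero, zero_mul, tv_zero, map_one, sub_self] at this
    simpa using this.symm
  have h1 : (P * (ρ (tv i j hij s) - 1) * Q) p q = R.eval 1 := by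
    simpa using hR' 1
  have h2 : R.comp (Polynomial.X ^ c) * Polynomial.X ^ e - Polynomial.C (R.eval 1) = 0 := by
    apply Polynomial.eq_zero_of_infinite_isRoot
    have hinf : ((fun x : ℚ => (x : E)) '' {x | x ≠ 0}).Infinite :=
      Set.Infinite.image Rat.cast_injective.injOn (Set.finite_singleton (0 : ℚ)).infinite_compl
    refine hinf.mono ?_
    rintro _ ⟨x, hx0, rfl⟩
    have h3 := congrFun (congrFun (hx x hx0) p) q
    have h4 := hR' (x ^ c)
    rw [Rat.cast_pow, Rat.cast_pow] at h4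
    rw [Matrix.smul_apply, h4, h1, smul_eq_mul] at h3
    simp only [Set.mem_ofPred_eq, Polynomial.IsRoot.def, Polynomial.eval_sub, Polynomial.eval_mul,
      Polynomial.eval_comp, Polynomial.eval_pow, Polynomial.eval_X, Polynomial.eval_C]
    rw [← h3]
    ring
  have h5 := congrArg (Polynomial.eval 0) h2
  simp only [Polynomial.eval_sub, Polynomial.eval_mul, Polynomial.eval_comp, Polynomial.eval_pow,
    Polynomial.eval_X, Polynomial.eval_C, zero_pow hc, h0, zero_mul, zero_sub, neg_eq_zero,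
    Polynomial.eval_zero] at h5
  rw [h1, h5]
  rfl

theorem H1_conj_tv (h : Graded κ a ρ w l π) {i j : Fin n} (hij : i ≠ j) (s : F) (y : ℚ)
    (hy : y ≠ 0) (M M' : Fin (D + 1)) :
    π M * (ρ (tv i j hij ((y : F) ^ (i : ℕ) * s / (y : F) ^ (j : ℕ))) - 1) * π M' =
      (y : E) ^ (((M : ℕ) : ℤ) - ((M' : ℕ) : ℤ)) • (π M * (ρ (tv i j hij s) - 1) * π M') := by
  have hyF : (y : F) ≠ 0 := by exact_mod_cast hy
  have h1 := H1_conj h (Units.mk0 (y : F) hyF) y rfl (ρ (tv i j hij s) - 1) M M'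
  rw [Matrix.mul_sub, Matrix.sub_mul, Matrix.mul_one, ← map_mul, ← map_mul, ← map_mul,
    mul_inv_cancel, map_one, dg_conj_tv] at h1
  simpa using h1

theorem Graded.deg_up (h : Graded κ a ρ w l π) (hreg : ∀ i j, (fun g => ρ g i j) ∈ Reg n κ)
    {i j : Fin n} (hij : i < j) (s : F) {M M' : Fin (D + 1)} (hM : M' ≤ M) :
    π M * (ρ (tv i j hij.ne s) - 1) * π M' = 0 := by
  have hij' : (i : ℕ) < j := hij
  have hM' : (M' : ℕ) ≤ M := hM
  refine H1_deg hreg hij.ne s _ _ ((j : ℕ) - i) ((M : ℕ) - M') (by omega) fun x hx => ?_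
  have hxF : (x : F) ≠ 0 := by exact_mod_cast hx
  have hxE : (x : E) ≠ 0 := by exact_mod_cast hx
  have h1 := H1_conj_tv h hij.ne s x⁻¹ (inv_ne_zero hx) M M'
  have e : ((x⁻¹ : ℚ) : F) ^ (i : ℕ) * s / ((x⁻¹ : ℚ) : F) ^ (j : ℕ) =
      (x : F) ^ ((j : ℕ) - i) * s := by
    rw [Rat.cast_inv, pow_sub₀ _ hxF hij'.le, inv_pow, inv_pow]
    field_simp
  rw [e] at h1
  rw [h1, smul_smul, Rat.cast_inv, ← Nat.cast_sub hM', zpow_natCast, ← mul_pow,
    mul_inv_cancel₀ hxE, one_pow, one_smul]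

theorem Graded.deg_low (h : Graded κ a ρ w l π) (hreg : ∀ i j, (fun g => ρ g i j) ∈ Reg n κ)
    {i j : Fin n} (hij : j < i) (s : F) {M M' : Fin (D + 1)} (hM : M ≤ M') :
    π M * (ρ (tv i j hij.ne' s) - 1) * π M' = 0 := by
  have hij' : (j : ℕ) < i := hij
  have hM' : (M : ℕ) ≤ M' := hM
  refine H1_deg hreg hij.ne' s _ _ ((i : ℕ) - j) ((M' : ℕ) - M) (by omega) fun x hx => ?_
  have hxF : (x : F) ≠ 0 := by exact_mod_cast hx
  have hxE : (x : E) ≠ 0 := by exact_mod_cast hx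
  have h1 := H1_conj_tv h hij.ne' s x hx M M'
  have e : (x : F) ^ (i : ℕ) * s / (x : F) ^ (j : ℕ) = (x : F) ^ ((i : ℕ) - j) * s := by
    rw [pow_sub₀ _ hxF hij'.le]
    field_simp
  rw [e] at h1
  rw [h1, smul_smul, ← zpow_natCast, ← zpow_add₀ hxE, Nat.cast_sub hM', sub_add_sub_cancel,
    sub_self, zpow_zero, one_smul]

theorem Graded.nilpotent_up (h : Graded κ a ρ w l π)
    (hreg : ∀ i j, (fun g => ρ g i j) ∈ Reg n κ) {i j : Fin n} (hij : i < j) (s : F) :
    IsNilpotent (ρ (tv i j hij.ne s) - 1) := by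
  have h1 : H1_Fil π (fun M => -((M : ℕ) : ℤ)) 1 (ρ (tv i j hij.ne s) - 1) := by
    intro A B hAB
    exact h.deg_up hreg hij s (Fin.le_def.2 (by simp only at hAB; omega))
  have h2 : ∀ m : ℕ, H1_Fil π (fun M => -((M : ℕ) : ℤ)) m ((ρ (tv i j hij.ne s) - 1) ^ m) := by
    intro m
    induction m with
    | zero =>
      intro A B hAB
      rw [pow_zero, Matrix.mul_one, h.orth, if_neg]
      rintro rfl
      simp at hAB
    | succ m ih =>
      rw [pow_succ, Nat.cast_succ]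
      exact H1_Fil_mul h.sum h.orth ih h1
  refine ⟨D + 1, ?_⟩
  rw [← Matrix.one_mul (_ ^ (D + 1)), ← Matrix.mul_one (_ * _), ← h.sum]
  conv_lhs => enter [1, 2, 1, 2]; rw [h.sum]
  rw [Finset.sum_mul, Finset.sum_mul]
  refine Finset.sum_eq_zero fun A _ => ?_
  rw [Finset.mul_sum]
  refine Finset.sum_eq_zero fun B _ => h2 (D + 1) A B ?_
  have := B.2
  simp only
  omega

end Pool.Agent.MP_4d0c14_b
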