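import Pool.Agent.MP_4d0c14_b.Mat

/-! A continuous unipotent one-parameter group is polynomial, so it contains no logarithm. -/

namespace Pool.Agent.MP_4d0c14_b

/-- The span of the geometric sequences. -/
def Geo (L : Type) [Field L] : Submodule L (ℕ → L) :=
  Submodule.span L (Set.range fun (β : L) (m : ℕ) => β ^ m)

theorem Geo.mul {L : Type} [Field L] {x y : ℕ → L} (hx : x ∈ Geo L) (hy : y ∈ Geo L) :
    x * y ∈ Geo L := by
  have h := Submodule.mul_mem_mul hx hy
  rw [Geo, Submodule.span_mul_span] at h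
  refine Submodule.span_mono ?_ h
  rintro _ ⟨_, ⟨a, rfl⟩, _, ⟨b, rfl⟩, rfl⟩
  exact ⟨a * b, funext fun m => mul_pow a b m⟩

theorem Geo.eq_zero {L : Type} [Field L] [CharZero L] {χ c : L} (hχ : χ ≠ 0)
    (h : (fun m : ℕ => (m : L) * χ ^ m * c) ∈ Geo L) : c = 0 := by
  have hli : LinearIndependent L fun (β : L) (m : ℕ) => β ^ m :=
    (linearIndependent_monoidHom (Multiplicative ℕ) L).comp _ (powersHom L).injective
  obtain ⟨a, ha⟩ := Finsupp.mem_span_range_iff_exists_finsupp.1 h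
  have h1 : ∀ m : ℕ, ∑ β ∈ a.support, a β * β ^ m = m * χ ^ m * c := fun m => by
    simpa [Finsupp.sum] using congrFun ha m
  have h2 := linearIndependent_iff'.1 hli a.support (fun β => a β * (β - χ) ^ 2) (funext fun m => by
    have e : ∀ β, a β * (β - χ) ^ 2 * β ^ m =
        a β * β ^ (m + 2) - 2 * χ * (a β * β ^ (m + 1)) + χ ^ 2 * (a β * β ^ m) := fun β => by ring
    simp only [Finset.sum_apply, Pi.smul_apply, smul_eq_mul, e, Finset.sum_add_distrib,
      Finset.sum_sub_distrib, ← Finset.mul_sum, h1, Pi.zero_apply]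
    push_cast
    ring)
  have h3 : ∑ β ∈ a.support, a β * β ^ 1 = χ * ∑ β ∈ a.support, a β * β ^ 0 := by
    rw [Finset.mul_sum]
    refine Finset.sum_congr rfl fun β hβ => ?_
    rw [sub_eq_zero.1 (pow_eq_zero_iff two_ne_zero |>.1
      ((mul_eq_zero.1 (h2 β hβ)).resolve_left (Finsupp.mem_support_iff.1 hβ)))]
    ring
  rw [h1, h1] at h3
  simpa [hχ] using h3

theorem Geo.linear {K F L : Type} [Field K] [CharZero K] [Field F] [Algebra K F]
    [FiniteDimensional K F] [Field L] [Algebra K L] [IsAlgClosed L] (f : F →ₗ[K] L) (c θ : F) :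
    (fun m : ℕ => f (c * θ ^ m)) ∈ Geo L := by
  have h := (linearIndependent_algHom_toLinearMap K F L).span_eq_top_of_card_eq_finrank'
    (by rw [AlgHom.card, Module.finrank_linearMap_self])
  have hf : f ∈ (⊤ : Submodule L _) := trivial
  rw [← h] at hf
  induction hf using Submodule.span_induction with
  | mem _ h =>
    obtain ⟨σ, rfl⟩ := h
    have h : (fun m : ℕ => σ θ ^ m) ∈ Geo L := Submodule.subset_span ⟨_, rfl⟩
    simpa only [AlgHom.toLinearMap_apply, map_mul, map_pow] using! Submodule.smul_mem _ (σ c) h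
  | zero => exact zero_mem _
  | add _ _ _ _ h h' => exact add_mem h h'
  | smul a _ _ h => exact Submodule.smul_mem _ a h

/-- The sequences that become sums of geometric sequences over the algebraic closure. -/
noncomputable def H2_G (E : Type) [Field E] : Subalgebra E (ℕ → E) where
  carrier := {x | (fun m => algebraMap E (AlgebraicClosure E) (x m)) ∈ Geo _}
  mul_mem' hx hy := by simpa only [Set.mem_ofPred_eq, Pi.mul_apply, map_mul] using! Geo.mul hx hy
  add_mem' hx hy := by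
    simpa only [Set.mem_ofPred_eq, Pi.add_apply, map_add] using! (Geo _).add_mem hx hy
  algebraMap_mem' c := by
    have h : (fun m : ℕ => (1 : AlgebraicClosure E) ^ m) ∈ Geo _ := Submodule.subset_span ⟨1, rfl⟩
    simpa only [Pi.smul_def, one_pow, smul_eq_mul, mul_one] using!
      Submodule.smul_mem _ (algebraMap E (AlgebraicClosure E) c) h

theorem H2_poly {K E : Type} [Field K] [Field E] [Algebra K E] {z : ℕ → K}
    (hz : (fun m => algebraMap K E (z m)) ∈ H2_G E) (P : Polynomial K) :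
    (fun m => algebraMap K E (P.eval (z m))) ∈ H2_G E := by
  induction P using Polynomial.induction_on' with
  | add P Q hP hQ => simpa only [Polynomial.eval_add, map_add] using! add_mem hP hQ
  | monomial n a =>
    simpa only [Polynomial.eval_monomial, map_mul, map_pow] using!
      (H2_G E).smul_mem (pow_mem hz n) (algebraMap K E a)

theorem H2_pow {K R : Type} [Field K] [CharZero K] [Ring R] [Algebra K R] {A : R} {D : ℕ}
    (hA : A ^ D = 0) (m : ℕ) : (A + 1) ^ m = ∑ j ∈ Finset.range D,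
      (descPochhammer K j).eval (m : K) • ((j.factorial : K)⁻¹ • A ^ j) := by
  have h : ∀ j, (descPochhammer K j).eval (m : K) • ((j.factorial : K)⁻¹ • A ^ j) =
      A ^ j * 1 ^ (m - j) * m.choose j := fun j => by
    rw [smul_smul, ← div_eq_mul_inv, ← Nat.cast_choose_eq_descPochhammer_div, one_pow, mul_one,
      Nat.cast_smul_eq_nsmul, nsmul_eq_mul']
  simp only [h]
  rw [(Commute.one_right A).add_pow]
  refine (Finset.sum_subset (Finset.range_mono (Nat.le_add_right _ D)) fun j _ hj => ?_).trans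
    (Finset.sum_subset (Finset.range_mono (Nat.le_add_left _ _)) fun j _ hj => ?_).symm
  · rw [Nat.choose_eq_zero_of_lt (by simpa using hj), Nat.cast_zero, mul_zero]
  · rw [pow_eq_zero_of_le (by simpa using hj) hA, zero_mul, zero_mul]

section

open Filter Topology

variable {p : ℕ} [Fact p.Prime] {F E J : Type} [NontriviallyNormedField F]
  [IsUltrametricDist F] [NormedAlgebra ℚ_[p] F] [NormedField E] [NormedAlgebra ℚ_[p] E]
  [Fintype J] [DecidableEq J] {U : F → Matrix J J E} {s : ℝ}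

omit [IsUltrametricDist F] in
theorem H2_lt {x : F} (hx : ‖x‖ < s) {z : ℚ_[p]} (hz : ‖z‖ ≤ 1) : ‖z • x‖ < s :=
  (norm_smul z x).trans_lt ((mul_le_of_le_one_left (norm_nonneg _) hz).trans_lt hx)

omit [IsUltrametricDist F] in
theorem H2_one (hadd : ∀ x y : F, ‖x‖ < s → ‖y‖ < s → U (x + y) = U x * U y) (h0 : U 0 = 1)
    (hc : Tendsto U (𝓝 0) (𝓝 1)) {x : F} (hx : ‖x‖ < s) {D : ℕ} (hD : (U x - 1) ^ D = 0)
    (z : ℤ_[p]) : U ((z : ℚ_[p]) • x) = ∑ j ∈ Finset.range D,
      (descPochhammer ℚ_[p] j).eval (z : ℚ_[p]) • ((j.factorial : ℚ_[p])⁻¹ • (U x - 1) ^ j) := by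
  refine PadicInt.denseRange_natCast.induction_on z (isClosed_eq
    (continuous_iff_continuousAt.2 fun z₀ => ?_) (by fun_prop)) fun m => ?_
  · have h1 : Continuous fun z : ℤ_[p] => ((z - z₀ : ℤ_[p]) : ℚ_[p]) • x := by fun_prop
    have h2 := (hc.comp (h1.tendsto' z₀ 0 (by simp))).const_mul (U ((z₀ : ℚ_[p]) • x))
    rw [mul_one] at h2
    refine h2.congr fun z => ?_
    rw [Function.comp_apply, ← hadd _ _ (H2_lt hx z₀.2) (H2_lt hx (z - z₀).2), ← add_smul,
      PadicInt.coe_sub, add_sub_cancel]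
  · rw [PadicInt.coe_natCast, ← H2_pow hD, sub_add_cancel]
    induction m with
    | zero => rw [Nat.cast_zero, zero_smul, h0, pow_zero]
    | succ m ih =>
      rw [Nat.cast_succ, add_smul, one_smul, hadd _ _ (H2_lt hx
        (IsUltrametricDist.norm_natCast_le_one _ m)) hx, ih, pow_succ]

theorem H2_sum (hs : 0 < s) (hadd : ∀ x y : F, ‖x‖ < s → ‖y‖ < s → U (x + y) = U x * U y)
    (hnil : ∀ x : F, ‖x‖ < s → IsNilpotent (U x - 1)) (h0 : U 0 = 1)
    (hc : Tendsto U (𝓝 0) (𝓝 1)) {ι : Type} (e : ι → F) (he : ∀ k, ‖e k‖ < s)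
    (z : ι → ℕ → ℚ_[p]) (h1 : ∀ k m, ‖z k m‖ ≤ 1)
    (h2 : ∀ k, (fun m => algebraMap ℚ_[p] E (z k m)) ∈ H2_G E) (T : Finset ι) :
    (∀ m, ‖∑ k ∈ T, z k m • e k‖ < s) ∧
      ∀ i j, (fun m => U (∑ k ∈ T, z k m • e k) i j) ∈ H2_G E := by
  induction T using Finset.cons_induction with
  | empty => exact ⟨fun _ => by simpa using hs, fun i j => by
      simpa only [Finset.sum_empty, h0] using! (H2_G E).algebraMap_mem _⟩
  | cons k T hk ih =>
    simp only [Finset.sum_cons]
    refine ⟨fun m => (IsUltrametricDist.norm_add_le_max _ _).trans_lt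
      (max_lt (H2_lt (he k) (h1 k m)) (ih.1 m)), fun i j => ?_⟩
    obtain ⟨D, hD⟩ := hnil _ (he k)
    have h3 : ∀ m, U (z k m • e k) = _ := fun m => H2_one hadd h0 hc (he k) hD ⟨z k m, h1 k m⟩
    simp only [fun m => hadd _ _ (H2_lt (he k) (h1 k m)) (ih.1 m), Matrix.mul_apply, h3,
      Matrix.sum_apply, Matrix.smul_apply, Algebra.smul_def (A := E)]
    rw [← Finset.sum_fn]
    refine sum_mem fun l _ => mul_mem (a := fun m => _) ?_ (ih.2 l j)
    rw [← Finset.sum_fn]
    exact sum_mem fun d _ => mul_mem (H2_poly (h2 k) _) ((H2_G E).algebraMap_mem _)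

end

theorem unip_no_log (p : ℕ) [Fact p.Prime] {F E J : Type} [NontriviallyNormedField F]
    [IsUltrametricDist F] [NormedAlgebra ℚ_[p] F] [FiniteDimensional ℚ_[p] F] [NormedField E]
    [IsUltrametricDist E] [NormedAlgebra ℚ_[p] E] [Fintype J] [DecidableEq J]
    (U : F → Matrix J J E) {s : ℝ} (hs : 0 < s)
    (hadd : ∀ x y : F, ‖x‖ < s → ‖y‖ < s → U (x + y) = U x * U y)
    (hnil : ∀ x : F, ‖x‖ < s → IsNilpotent (U x - 1))
    (hcont : ∀ ε : ℝ, 0 < ε → ∃ δ : ℝ, 0 < δ ∧ ∀ x : F, ‖x‖ < δ → MLe ε (U x - 1)) :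
    ∃ s' : ℝ, 0 < s' ∧ s' ≤ s ∧ ∀ θ c : F, (∀ m : ℕ, ‖c * (θ ^ m - 1)‖ < s') →
      ∀ (A : Matrix J J E) (χ h : E), χ ≠ 0 →
        (∀ m : ℕ, (m : E) * χ ^ m * h = ∑ i, ∑ j, A i j * U (c * (θ ^ m - 1)) i j) → h = 0 := by
  have h0 : U 0 = 1 := sub_eq_zero.1 (MLe.eq_zero fun ε hε => by
    obtain ⟨δ, h1, h2⟩ := hcont ε hε
    exact h2 0 (by simpa using h1))
  have hc : Filter.Tendsto U (nhds 0) (nhds 1) :=
    tendsto_pi_nhds.2 fun i => tendsto_pi_nhds.2 fun j =>
      Metric.nhds_basis_closedBall.tendsto_right_iff.2 fun ε hε => by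
        obtain ⟨δ, h1, h2⟩ := hcont ε hε
        filter_upwards [Metric.ball_mem_nhds 0 h1] with x hx
        exact mem_closedBall_iff_norm.2 (h2 x (mem_ball_zero_iff.1 hx) i j)
  let b := Module.finBasis ℚ_[p] F
  obtain ⟨t, ht, t0⟩ := (((Filter.eventually_all.2 fun k => ContinuousAt.eventually_lt
    (f := fun t : ℚ_[p] => ‖t • b k‖) (x₀ := 0) (by fun_prop) continuousAt_const
    (by simpa using hs)).filter_mono nhdsWithin_le_nhds).and
    (self_mem_nhdsWithin (s := {0}ᶜ))).exists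
  obtain ⟨s', h1, h2⟩ := Metric.eventually_nhds_iff.1 (Filter.eventually_all.2 fun k =>
    ContinuousAt.eventually_lt (f := fun x => ‖(t⁻¹ • b.coord k) x‖) (x₀ := 0)
      (t⁻¹ • b.coord k).continuous_of_finiteDimensional.norm.continuousAt
      (continuousAt_const (y := 1)) (by simp))
  refine ⟨min s' s, lt_min h1 hs, min_le_right _ _, fun θ c hm A χ h hχ he => ?_⟩
  have h3 := (H2_sum hs hadd hnil h0 hc _ ht (fun k m => (t⁻¹ • b.coord k) (c * (θ ^ m - 1)))
    (fun k m => (h2 ((dist_zero_right _).trans_lt ((hm m).trans_le (min_le_left _ _))) k).le) (fun k => by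
      have h4 := fun θ => Geo.linear
        (Algebra.linearMap ℚ_[p] (AlgebraicClosure E) ∘ₗ (t⁻¹ • b.coord k)) c θ
      change _ ∈ Geo _
      simpa only [mul_sub, map_sub, ← IsScalarTower.algebraMap_apply, one_pow] using!
        sub_mem (h4 θ) (h4 1)) Finset.univ).2
  simp only [LinearMap.smul_apply, smul_smul, smul_eq_mul, mul_right_comm t⁻¹,
    inv_mul_cancel₀ t0, one_mul, Module.Basis.coord_apply, Module.Basis.sum_repr] at h3
  have h5 : (fun m : ℕ => (m : E) * χ ^ m * h) ∈ H2_G E := by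
    have h4 := sum_mem (t := Finset.univ) fun i _ => sum_mem (t := Finset.univ) fun j _ =>
      (H2_G E).smul_mem (h3 i j) (A i j)
    convert h4 using 1
    funext m
    simp only [he, Finset.sum_apply, Pi.smul_apply, smul_eq_mul]
  have : CharZero (AlgebraicClosure E) :=
    charZero_of_injective_algebraMap (algebraMap ℚ_[p] _).injective
  have hi := (algebraMap E (AlgebraicClosure E)).injective
  refine (map_eq_zero_iff _ hi).1 (Geo.eq_zero ((map_ne_zero_iff _ hi).2 hχ) ?_)
  change _ ∈ Geo _ at h5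
  simpa only [map_mul, map_pow, map_natCast] using h5

end Pool.Agent.MP_4d0c14_b
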