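import Pool.Agent.MP_4d0c14_b.H1
import Pool.Agent.MP_4d0c14_b.H2
import Pool.Agent.MP_4d0c14_b.M3

/-! The torus part of a cocycle. -/

namespace Pool.Agent.MP_4d0c14_b

open scoped Matrix

/-- `u` is a cocycle of the congruence subgroup of radius `s` for the conjugation action. -/
def Coc {n N : ℕ} {F E : Type} [NormedField F] [Field E]
    (ρ : GL (Fin n) F →* Matrix (Fin N) (Fin N) E) (s : ℝ)
    (u : GL (Fin n) F → Matrix (Fin N) (Fin N) E) : Prop :=
  ∀ k k', Near s k → Near s k' → u (k * k') = u k + ρ k * u k' * ρ k⁻¹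

/-- `u` tends to zero at the identity. -/
def Cts {n N : ℕ} {F E : Type} [NormedField F] [NormedField E]
    (u : GL (Fin n) F → Matrix (Fin N) (Fin N) E) : Prop :=
  ∀ ε : ℝ, 0 < ε → ∃ δ : ℝ, 0 < δ ∧ ∀ k, Near δ k → MLe ε (u k)

theorem sl2_identity {n : ℕ} {F : Type} [Field F] {i j : Fin n} (hij : i ≠ j) (x y : F) (θ : Fˣ)
    (hθ : (θ : F) = 1 + x * y) :
    tv i j hij x * tv j i hij.symm y = tv j i hij.symm (y / θ) *
      dg (fun c => if c = i then θ else if c = j then θ⁻¹ else 1) * tv i j hij (x / θ) := by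
  have h0 : (θ : F) ≠ 0 := θ.ne_zero
  have hD : (Matrix.diagonal fun c =>
      (((if c = i then θ else if c = j then θ⁻¹ else 1 : Fˣ)) : F)) =
      1 + Matrix.single i i ((θ : F) - 1) + Matrix.single j j ((θ : F)⁻¹ - 1) := by
    ext a b
    by_cases hab : a = b
    · subst hab
      by_cases h1 : a = i
      · subst h1
        simp [hij.symm]
      · by_cases h2 : a = j
        · subst h2
          simp [h1, Ne.symm h1]
        · simp [h1, h2, Ne.symm h1, Ne.symm h2]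
    · have e1 : ¬ (i = a ∧ i = b) := fun h => hab (h.1.symm.trans h.2)
      have e2 : ¬ (j = a ∧ j = b) := fun h => hab (h.1.symm.trans h.2)
      simp [hab, Matrix.single_apply, e1, e2]
  apply Units.ext
  simp only [Units.val_mul, coe_tv, coe_dg, hD, Matrix.transvection, Matrix.add_mul,
    Matrix.mul_add, Matrix.one_mul, Matrix.mul_one, Matrix.single_mul_single_same,
    Matrix.single_mul_single_of_ne _ _ _ _ hij, Matrix.single_mul_single_of_ne _ _ _ _ hij.symm,
    add_zero]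
  obtain ⟨B, hB⟩ : ∃ B : Fin n → Fin n → Matrix (Fin n) (Fin n) F, ∀ a b c,
      Matrix.single a b c = c • B a b := ⟨fun a b => Matrix.single a b 1, fun a b c => by simp⟩
  simp only [hB]
  generalize (θ : F) = z at hθ h0
  match_scalars <;> field_simp <;> rw [hθ] <;> ring

theorem H3_nil {J E : Type} [Fintype J] [DecidableEq J] [Field E] {A : Matrix J J E}
    (hA : IsNilpotent A) (B : Matrix J J E) : IsNilpotent (Matrix.fromBlocks A B 0 A) := by
  obtain ⟨m, hm⟩ := hA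
  have key : ∀ k : ℕ, ∃ B', (Matrix.fromBlocks A B 0 A) ^ k =
      Matrix.fromBlocks (A ^ k) B' 0 (A ^ k) := by
    intro k
    induction k with
    | zero => exact ⟨0, by simp⟩
    | succ k ih =>
      obtain ⟨B', h⟩ := ih
      refine ⟨A ^ k * B + B' * A, ?_⟩
      rw [pow_succ, h, Matrix.fromBlocks_multiply, pow_succ]
      simp
  obtain ⟨B', h⟩ := key m
  refine ⟨m * 2, ?_⟩
  rw [pow_mul, h, hm, pow_two, Matrix.fromBlocks_multiply]
  simp

theorem H3_norm_one {F : Type} [NormedField F] [IsUltrametricDist F] {θ : F}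
    (h : ‖θ - 1‖ < 1) : ‖θ‖ = 1 := by
  have e : θ = 1 + (θ - 1) := by ring
  rw [e, IsUltrametricDist.norm_add_eq_max_of_norm_ne_norm (by rw [norm_one]; exact h.ne'),
    norm_one]
  exact max_eq_left h.le

theorem H3_pow_sub {F : Type} [NormedField F] [IsUltrametricDist F] {θ : F}
    (h : ‖θ - 1‖ < 1) (m : ℕ) : ‖θ ^ m - 1‖ ≤ ‖θ - 1‖ := by
  induction m with
  | zero => simp
  | succ m ih =>
    have e : θ ^ (m + 1) - 1 = (θ ^ m - 1) * θ + (θ - 1) := by ring
    rw [e]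
    refine (IsUltrametricDist.norm_add_le_max _ _).trans (max_le ?_ le_rfl)
    rw [norm_mul, H3_norm_one h, mul_one]
    exact ih

theorem H3_v {n N : ℕ} {F E : Type} [NormedField F] [Field E]
    {ρ : GL (Fin n) F →* Matrix (Fin N) (Fin N) E} {s : ℝ}
    {u : GL (Fin n) F → Matrix (Fin N) (Fin N) E} (hu : Coc ρ s u) {k k' : GL (Fin n) F}
    (hk : Near s k) (hk' : Near s k') :
    u (k * k') * ρ (k * k') = u k * ρ k * ρ k' + ρ k * (u k' * ρ k') := by
  have e : ρ k⁻¹ * (ρ k * ρ k') = ρ k' := by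
    rw [← mul_assoc, ← map_mul, inv_mul_cancel, map_one, one_mul]
  rw [hu k k' hk hk', map_mul, add_mul, mul_assoc (ρ k * u k'), e]
  simp only [mul_assoc]

theorem H3_cor {n : ℕ} {F : Type} [Field F] {i j : Fin n} (hij : i ≠ j) (θ : Fˣ) :
    (fun c => if c = i then θ else if c = j then θ⁻¹ else 1) =
      (Pi.mulSingle i θ / Pi.mulSingle j θ : Fin n → Fˣ) := by
  funext c
  by_cases h1 : c = i
  · subst h1
    simp [hij]
  · by_cases h2 : c = j
    · subst h2
      simp [h1]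
    · simp [h1, h2]

theorem H3_single {n : ℕ} {F : Type} [NormedField F] {s : ℝ} (hs0 : 0 < s) (i : Fin n) {θ : Fˣ}
    (h : ‖(θ : F) - 1‖ < s) : Near s (dg (Pi.mulSingle i θ : Fin n → Fˣ)) := by
  rw [near_dg hs0]
  intro c
  by_cases h1 : c = i
  · subst h1
    simpa using h
  · simpa [h1] using hs0

theorem torus_part (p : ℕ) [Fact p.Prime] {n N D : ℕ} {F E ι : Type} [NontriviallyNormedField F]
    [IsUltrametricDist F] [NormedAlgebra ℚ_[p] F] [FiniteDimensional ℚ_[p] F] [NormedField E]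
    [IsUltrametricDist E] [NormedAlgebra ℚ_[p] E] [Fintype ι] {κ : ι → F →+* E}
    {a : ι → Fin n → ℤ} {ρ : GL (Fin n) F →* Matrix (Fin N) (Fin N) E} (ok : AlgOK κ a ρ)
    (hκ : ∀ σ x, ‖κ σ x‖ = ‖x‖) {w l : Fin N → E} {π : Fin (D + 1) → Matrix (Fin N) (Fin N) E}
    (hg : Graded κ a ρ w l π) {s : ℝ} (hs0 : 0 < s) (hs : s ≤ 1)
    {u : GL (Fin n) F → Matrix (Fin N) (Fin N) E} (hu : Coc ρ s u) (hc : Cts u)
    (hz : ∀ z : Fˣ, Near s (dg fun _ : Fin n => z) → u (dg fun _ => z) = 0)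
    (hup : ∀ (i j : Fin n) (h : i < j) (x : F), ‖x‖ < s → u (tv i j h.ne x) *ᵥ w = 0)
    (hlow : ∀ (i j : Fin n) (h : j < i) (x : F), ‖x‖ < s → l ᵥ* u (tv i j h.ne' x) = 0)
    (hdg : ∀ t, Near s (dg t) → ∃ c : E, u (dg t) *ᵥ w = c • w)
    (t : Fin n → Fˣ) (ht : Near s (dg t)) : u (dg t) *ᵥ w = 0 := by
  haveI : CharZero F := charZero_of_injective_algebraMap (algebraMap ℚ_[p] F).injective
  haveI : CharZero E := charZero_of_injective_algebraMap (algebraMap ℚ_[p] E).injective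
  haveI : ProperSpace F := FiniteDimensional.proper ℚ_[p] F
  let T : Subgroup (Fin n → Fˣ) := (KK n F s hs0 hs).comap dgHom
  have hT : ∀ t, t ∈ T ↔ Near s (dg t) := fun _ => Iff.rfl
  let H : (Fin n → Fˣ) → E := fun t => l ⬝ᵥ (u (dg t) *ᵥ w)
  have hH : ∀ t ∈ T, u (dg t) *ᵥ w = H t • w := fun t ht => by
    obtain ⟨c, h⟩ := hdg t ht
    simp only [H, h, dotProduct_smul, hg.lw, smul_eq_mul, mul_one]
  have hv : ∀ t, l ⬝ᵥ ((u (dg t) * ρ (dg t)) *ᵥ w) = chi κ a t * H t := fun t => by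
    rw [← Matrix.mulVec_mulVec, hg.tor, Matrix.mulVec_smul, dotProduct_smul, smul_eq_mul]
  have hadd : ∀ t ∈ T, ∀ t' ∈ T, H (t * t') = H t + H t' := fun t ht t' ht' => by
    have h := hv (t * t')
    rw [dg_mul, H3_v hu ((hT t).1 ht) ((hT t').1 ht'), Matrix.add_mulVec, dotProduct_add, ← Matrix.mulVec_mulVec,
      hg.tor, Matrix.mulVec_smul, dotProduct_smul, hv, ← Matrix.mulVec_mulVec,
      ← Matrix.mulVec_mulVec, hg.tor, Matrix.mulVec_smul, hH t' ht', Matrix.mulVec_smul,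
      Matrix.mulVec_smul, hg.tor, chi_mul] at h
    simp only [dotProduct_smul, hg.lw, smul_eq_mul, mul_one] at h
    apply mul_left_cancel₀ (mul_ne_zero (chi_ne_zero κ a t) (chi_ne_zero κ a t'))
    rw [← h]
    ring
  have hone : H 1 = 0 := by
    have := hadd 1 T.one_mem 1 T.one_mem
    rw [mul_one] at this
    exact left_eq_add.1 this
  have hpow : ∀ t ∈ T, ∀ m : ℕ, H (t ^ m) = m * H t := fun t ht m => by
    induction m with
    | zero => simpa using hone
    | succ m ih => rw [pow_succ, hadd _ (T.pow_mem ht m) _ ht, ih]; push_cast; ring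
  have hchi : ∀ (d : Fin n → Fˣ) (m : ℕ), chi κ a (d ^ m) = chi κ a d ^ m := fun d m => by
    induction m with
    | zero => simpa using chi_one κ a
    | succ m ih => rw [pow_succ, chi_mul, ih, pow_succ]
  let Z : Subgroup (Fin n → Fˣ) :=
    { carrier := {t | t ∈ T ∧ H t = 0}
      mul_mem' := fun {x y} hx hy =>
        ⟨T.mul_mem hx.1 hy.1, by rw [hadd _ hx.1 _ hy.1, hx.2, hy.2, add_zero]⟩
      one_mem' := ⟨T.one_mem, hone⟩
      inv_mem' := fun {x} hx => ⟨T.inv_mem hx.1, by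
        have := hadd _ hx.1 _ (T.inv_mem hx.1)
        rw [mul_inv_cancel, hone, hx.2, zero_add] at this
        exact this.symm⟩ }
  have hroot : ∀ t ∈ T, ∀ m : ℕ, 0 < m → t ^ m ∈ Z → t ∈ Z := fun t ht m hm h => by
    refine ⟨ht, ?_⟩
    have := h.2
    rw [hpow t ht] at this
    exact (mul_eq_zero.1 this).resolve_left (Nat.cast_ne_zero.2 hm.ne')
  have hcor : ∀ (i j : Fin n), i < j → ∀ θ : Fˣ, ‖(θ : F) - 1‖ < s →
      (Pi.mulSingle i θ / Pi.mulSingle j θ : Fin n → Fˣ) ∈ Z := by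
    intro i j hij
    have hmem : ∀ θ : Fˣ, ‖(θ : F) - 1‖ < s →
        (Pi.mulSingle i θ / Pi.mulSingle j θ : Fin n → Fˣ) ∈ T := fun θ h =>
      T.div_mem (H3_single hs0 i h) (H3_single hs0 j h)
    have hp : ∀ (θ : Fˣ) (m : ℕ), (Pi.mulSingle i (θ ^ m) / Pi.mulSingle j (θ ^ m) : Fin n → Fˣ) =
        (Pi.mulSingle i θ / Pi.mulSingle j θ) ^ m := fun θ m => by
      rw [div_pow, Pi.mulSingle_pow, Pi.mulSingle_pow]
    obtain ⟨y, hy0, hy⟩ := NormedField.exists_norm_lt F hs0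
    have hy1 : y ≠ 0 := norm_pos_iff.1 hy0
    let U : F → Matrix (Fin N ⊕ Fin N) (Fin N ⊕ Fin N) E := fun x =>
      Matrix.fromBlocks (ρ (tv i j hij.ne x)) (u (tv i j hij.ne x) * ρ (tv i j hij.ne x)) 0
        (ρ (tv i j hij.ne x))
    have hU1 : ∀ x, U x - 1 = Matrix.fromBlocks (ρ (tv i j hij.ne x) - 1)
        (u (tv i j hij.ne x) * ρ (tv i j hij.ne x)) 0 (ρ (tv i j hij.ne x) - 1) := fun x => by
      ext (c | c) (d | d) <;> simp [U, Matrix.one_apply]
    obtain ⟨s', hs'0, hs', hU⟩ := unip_no_log p U hs0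
      (fun x x' hx hx' => by
        simp only [U]
        rw [Matrix.fromBlocks_multiply, tv_add,
          H3_v hu ((near_tv hs0 _ _ _ _).2 hx) ((near_tv hs0 _ _ _ _).2 hx'), map_mul, add_comm]
        simp)
      (fun x _ => by
        rw [hU1]
        exact H3_nil (hg.nilpotent_up ok.reg hij x) _)
      (fun ε hε => by
        obtain ⟨r, hr, h1⟩ := ok.cont hκ (lt_min hε one_pos)
        obtain ⟨r', hr', h2⟩ := hc ε hε
        refine ⟨min r r', lt_min hr hr', fun x hx => ?_⟩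
        have k1 := h1 _ ((near_tv hr i j hij.ne x).2 (hx.trans_le (min_le_left _ _)))
        have k2 := h2 _ ((near_tv hr' i j hij.ne x).2 (hx.trans_le (min_le_right _ _)))
        have k3 : MLe 1 (ρ (tv i j hij.ne x)) := by
          have := (k1.mono (min_le_right _ _)).add MLe.one
          rwa [sub_add_cancel] at this
        have k4 := k2.mul k3 hε.le zero_le_one
        rw [mul_one] at k4
        rw [hU1]
        rintro (c | c) (d | d)
        · exact k1.mono (min_le_left _ _) c d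
        · exact k4 c d
        · simpa using hε.le
        · exact k1.mono (min_le_left _ _) c d)
    have hsy : s' * ‖y‖ < s := by nlinarith
    have hsmall : ∀ θ : Fˣ, ‖(θ : F) - 1‖ < s' * ‖y‖ →
        (Pi.mulSingle i θ / Pi.mulSingle j θ : Fin n → Fˣ) ∈ Z := by
      intro θ hθ
      have hθ1 : ‖(θ : F) - 1‖ < 1 := (hθ.trans hsy).trans_le hs
      have hx : ∀ m : ℕ, ‖y⁻¹ * ((θ : F) ^ m - 1)‖ < s' := fun m => by
        rw [norm_mul, norm_inv, inv_mul_lt_iff₀ hy0, mul_comm]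
        exact (H3_pow_sub hθ1 m).trans_lt hθ
      have hd := hmem θ (hθ.trans hsy)
      refine ⟨hd, hU θ y⁻¹ hx (Matrix.vecMulVec (Sum.elim l 0)
        (Sum.elim ((u (tv j i hij.ne' y) * ρ (tv j i hij.ne' y)) *ᵥ w)
          (ρ (tv j i hij.ne' y) *ᵥ w))) _ _
        (chi_ne_zero κ a (Pi.mulSingle i θ / Pi.mulSingle j θ)) fun m => ?_⟩
      have hn : ‖((θ ^ m : Fˣ) : F)‖ = 1 := by
        rw [Units.val_pow_eq_pow_val, norm_pow, H3_norm_one hθ1, one_pow]
      have hX := (hx m).trans_le hs'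
      have e := sl2_identity hij.ne (y⁻¹ * ((θ : F) ^ m - 1)) y (θ ^ m) (by
        rw [Units.val_pow_eq_pow_val]; field_simp; ring)
      rw [H3_cor hij.ne, hp] at e
      have hL : ‖y / ((θ ^ m : Fˣ) : F)‖ < s := by rwa [norm_div, hn, div_one]
      have hR : ‖y⁻¹ * ((θ : F) ^ m - 1) / ((θ ^ m : Fˣ) : F)‖ < s := by
        rwa [norm_div, hn, div_one]
      have nL := (near_tv hs0 j i hij.ne' _).2 hL
      have nD := (hT _).1 (T.pow_mem hd m)
      have e1 := H3_v hu ((near_tv hs0 i j hij.ne _).2 hX) ((near_tv hs0 j i hij.ne' _).2 hy)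
      rw [e, H3_v hu (nL.mul hs0 hs nD) ((near_tv hs0 i j hij.ne _).2 hR), H3_v hu nL nD] at e1
      have e2 := congrArg (fun X => l ⬝ᵥ (X *ᵥ w)) e1
      have f1 : ∀ X Y : Matrix (Fin N) (Fin N) E,
          l ⬝ᵥ ((u (tv j i hij.ne' (y / ((θ ^ m : Fˣ) : F))) * X * Y) *ᵥ w) = 0 := fun X Y => by
        rw [mul_assoc, ← Matrix.mulVec_mulVec, Matrix.dotProduct_mulVec, hlow j i hij _ hL,
          zero_dotProduct]
      have f2 : ∀ X : Matrix (Fin N) (Fin N) E,
          l ⬝ᵥ ((ρ (tv j i hij.ne' (y / ((θ ^ m : Fˣ) : F))) * X) *ᵥ w) = l ⬝ᵥ (X *ᵥ w) :=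
        fun X => by
          rw [← Matrix.mulVec_mulVec, Matrix.dotProduct_mulVec, hg.low _ (isLow1_tv hij _)]
      have f3 := hg.up _ (isUp1_tv hij (y⁻¹ * ((θ : F) ^ m - 1) / ((θ ^ m : Fˣ) : F)))
      simp only [Matrix.add_mulVec, dotProduct_add] at e2
      rw [← Matrix.mulVec_mulVec, f3, Matrix.add_mulVec, dotProduct_add, f1, f2, hv,
        ← Matrix.mulVec_mulVec, ← Matrix.mulVec_mulVec, f3, hup i j hij _ hR,
        Matrix.mulVec_zero, dotProduct_zero, hchi, hpow _ hd] at e2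
      have e3 : ∀ (L W : Fin N ⊕ Fin N → E) (X : Matrix (Fin N ⊕ Fin N) (Fin N ⊕ Fin N) E),
          ∑ c, ∑ d, Matrix.vecMulVec L W c d * X c d = L ⬝ᵥ (X *ᵥ W) := fun L W X => by
        simp only [Matrix.vecMulVec_apply, dotProduct, Matrix.mulVec, Finset.mul_sum]
        exact Finset.sum_congr rfl fun c _ => Finset.sum_congr rfl fun d _ => by ring
      rw [e3]
      simp only [U, Matrix.fromBlocks_mulVec, sumElim_dotProduct_sumElim, zero_dotProduct,
        add_zero, Sum.elim_comp_inl, Sum.elim_comp_inr, dotProduct_add, Matrix.mulVec_mulVec]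
      linear_combination e2
    intro θ hθ
    obtain ⟨m, hm, h⟩ := exists_pow_sub_one_lt (H3_norm_one (hθ.trans_le hs))
      (mul_pos hs'0 hy0)
    refine hroot _ (hmem θ hθ) m hm ?_
    rw [← hp]
    exact hsmall _ (by rwa [Units.val_pow_eq_pow_val])
  have hsing : ∀ (i : Fin n) (θ : Fˣ), ‖(θ : F) - 1‖ < s →
      (Pi.mulSingle i θ : Fin n → Fˣ) ∈ Z := by
    intro i θ hθ
    refine hroot _ (H3_single hs0 i hθ) n (Fin.pos i) ?_
    have hc : (fun _ : Fin n => θ) ∈ Z := by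
      have hn : Near s (dg fun _ : Fin n => θ) := (near_dg hs0 _).2 fun _ => hθ
      exact ⟨hn, by simp only [H, hz θ hn, Matrix.zero_mulVec, dotProduct_zero]⟩
    have e : (Pi.mulSingle i θ : Fin n → Fˣ) ^ n =
        (∏ j, (Pi.mulSingle i θ / Pi.mulSingle j θ : Fin n → Fˣ)) * fun _ => θ := by
      rw [Finset.prod_div_distrib, Finset.prod_const, Finset.card_univ, Fintype.card_fin,
        Finset.univ_prod_mulSingle (fun _ : Fin n => θ), div_mul_cancel]
    rw [e]
    refine Z.mul_mem (Z.prod_mem fun j _ => ?_) hc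
    rcases lt_trichotomy i j with h | h | h
    · exact hcor i j h θ hθ
    · rw [h, div_self']
      exact Z.one_mem
    · rw [← inv_div]
      exact Z.inv_mem (hcor j i h θ hθ)
  have hZ : t ∈ Z := by
    rw [← Finset.univ_prod_mulSingle t]
    exact Z.prod_mem fun i _ => hsing i _ ((near_dg hs0 t).1 ht i)
  rw [hH t ht, hZ.2, zero_smul]

end Pool.Agent.MP_4d0c14_b
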