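import Pool.Agent.MP_4d0c14_b.H3

/-! Whitehead lemma for congruence subgroups. -/

namespace Pool.Agent.MP_4d0c14_b

open scoped Matrix

section Aux

variable {n N : ℕ} {F E : Type}

theorem H4_mul_inv [Field F] [Field E] (ρ : GL (Fin n) F →* Matrix (Fin N) (Fin N) E)
    (k : GL (Fin n) F) : ρ k * ρ k⁻¹ = 1 := by rw [← map_mul, mul_inv_cancel, map_one]

theorem H4_inv_mul [Field F] [Field E] (ρ : GL (Fin n) F →* Matrix (Fin N) (Fin N) E)
    (k : GL (Fin n) F) : ρ k⁻¹ * ρ k = 1 := by rw [← map_mul, inv_mul_cancel, map_one]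

theorem H4_coc_sub [NormedField F] [Field E] {ρ : GL (Fin n) F →* Matrix (Fin N) (Fin N) E}
    {s : ℝ} {u : GL (Fin n) F → Matrix (Fin N) (Fin N) E} (hu : Coc ρ s u)
    (b : Matrix (Fin N) (Fin N) E) : Coc ρ s fun k => u k - (ρ k * b * ρ k⁻¹ - b) := by
  intro k k' hk hk'
  simp only [hu k k' hk hk', mul_inv_rev, map_mul, mul_sub, sub_mul, mul_assoc]
  abel

theorem H4_coc_one [NormedField F] [Field E] {ρ : GL (Fin n) F →* Matrix (Fin N) (Fin N) E}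
    {s : ℝ} (hs0 : 0 < s) {u : GL (Fin n) F → Matrix (Fin N) (Fin N) E} (hu : Coc ρ s u) :
    u 1 = 0 := by
  have := hu 1 1 (near_one hs0) (near_one hs0)
  simpa using this

theorem H4_zpow_ne [Field E] [CharZero E] {z : ℕ} (hz : 2 ≤ z) {d : ℤ} (hd : d ≠ 0) :
    (z : E) ^ d - 1 ≠ 0 := by
  intro h
  have h1 : ((z : ℚ) ^ d) = 1 := by
    have : (((z : ℚ) ^ d : ℚ) : E) = ((1 : ℚ) : E) := by
      push_cast
      exact sub_eq_zero.1 h
    exact_mod_cast this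
  have h2 : (1 : ℚ) < z := by exact_mod_cast hz
  exact hd ((zpow_eq_one_iff_right₀ (by positivity) h2.ne').1 h1)

/-- the action on the extension -/
def H4_R [Field E] (A B : Matrix (Fin N) (Fin N) E) :
    ((Fin N → E) × (Fin N → E)) →ₗ[E] ((Fin N → E) × (Fin N → E)) where
  toFun x := (A *ᵥ x.1 + B *ᵥ x.2, A *ᵥ x.2)
  map_add' x y := by
    simp only [Prod.fst_add, Prod.snd_add, Matrix.mulVec_add, Prod.mk_add_mk]
    congr 1
    abel
  map_smul' c x := by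
    simp [Matrix.mulVec_smul]

theorem H4_R_apply [Field E] (A B : Matrix (Fin N) (Fin N) E) (x y : Fin N → E) :
    H4_R A B (x, y) = (A *ᵥ x + B *ᵥ y, A *ᵥ y) := rfl

theorem H4_R_mul [NormedField F] [Field E] {ρ : GL (Fin n) F →* Matrix (Fin N) (Fin N) E}
    {s : ℝ} {u : GL (Fin n) F → Matrix (Fin N) (Fin N) E} (hu : Coc ρ s u)
    {k k' : GL (Fin n) F} (hk : Near s k) (hk' : Near s k') (x : (Fin N → E) × (Fin N → E)) :
    H4_R (ρ (k * k')) (u (k * k') * ρ (k * k')) x =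
      H4_R (ρ k) (u k * ρ k) (H4_R (ρ k') (u k' * ρ k') x) := by
  obtain ⟨x, y⟩ := x
  have e : u (k * k') * ρ (k * k') = ρ k * (u k' * ρ k') + u k * ρ k * ρ k' := by
    rw [hu k k' hk hk', map_mul, add_mul, mul_assoc (ρ k * u k'), ← mul_assoc (ρ k⁻¹),
      H4_inv_mul, one_mul, add_comm]
    simp only [mul_assoc]
  rw [e]
  simp only [H4_R_apply, map_mul, Matrix.mulVec_add, Matrix.add_mulVec, Matrix.mulVec_mulVec,
    add_assoc]

variable {ι : Type} [Fintype ι] {a : ι → Fin n → ℤ} {D : ℕ}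

theorem H4_pi_w [Field F] [Field E] {κ : ι → F →+* E}
    {ρ : GL (Fin n) F →* Matrix (Fin N) (Fin N) E} {w l : Fin N → E}
    {π : Fin (D + 1) → Matrix (Fin N) (Fin N) E} (hg : Graded κ a ρ w l π) (x : Fin N → E) :
    π 0 *ᵥ x = (l ⬝ᵥ x) • w := by
  rw [hg.zero, Matrix.vecMulVec_mulVec, op_smul_eq_smul]

theorem H4_l_pi [Field F] [Field E] {κ : ι → F →+* E}
    {ρ : GL (Fin n) F →* Matrix (Fin N) (Fin N) E} {w l : Fin N → E}
    {π : Fin (D + 1) → Matrix (Fin N) (Fin N) E} (hg : Graded κ a ρ w l π) :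
    l ᵥ* π 0 = l := by
  rw [hg.zero, Matrix.vecMul_vecMulVec, hg.lw, one_smul]

theorem H4_left [Field F] [Field E] {κ : ι → F →+* E}
    {ρ : GL (Fin n) F →* Matrix (Fin N) (Fin N) E} {w l : Fin N → E}
    {π : Fin (D + 1) → Matrix (Fin N) (Fin N) E} (hg : Graded κ a ρ w l π)
    (X : Matrix (Fin N) (Fin N) E) : X *ᵥ w = ∑ M, (π M * X * π 0) *ᵥ w := by
  have h1 : π 0 *ᵥ w = w := by rw [H4_pi_w hg, hg.lw, one_smul]
  rw [← Matrix.sum_mulVec, ← Finset.sum_mul, ← Finset.sum_mul, hg.sum, one_mul,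
    ← Matrix.mulVec_mulVec, h1]

theorem H4_right [Field F] [Field E] {κ : ι → F →+* E}
    {ρ : GL (Fin n) F →* Matrix (Fin N) (Fin N) E} {w l : Fin N → E}
    {π : Fin (D + 1) → Matrix (Fin N) (Fin N) E} (hg : Graded κ a ρ w l π)
    (X : Matrix (Fin N) (Fin N) E) (h : ∀ M, π 0 * X * π M = 0) : l ᵥ* X = 0 := by
  have h1 : π 0 * X = 0 := by
    rw [← mul_one (π 0 * X), ← hg.sum, Finset.mul_sum]
    exact Finset.sum_eq_zero fun M _ => h M
  rw [← H4_l_pi hg, Matrix.vecMul_vecMul, h1, Matrix.vecMul_zero]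

variable [NormedField F] [CharZero F] [Field E] [CharZero E] {κ : ι → F →+* E}
  {ρ : GL (Fin n) F →* Matrix (Fin N) (Fin N) E} {w l : Fin N → E}
  {π : Fin (D + 1) → Matrix (Fin N) (Fin N) E} {s : ℝ}
  {u : GL (Fin n) F → Matrix (Fin N) (Fin N) E}

theorem H4_dg (hg : Graded κ a ρ w l π) (hu : Coc ρ s u) {z : ℕ} (hz : 2 ≤ z) {ζ : Fˣ}
    (hζ : (ζ : F) = z) (hτ : Near s (dg fun i : Fin n => ζ ^ (i : ℕ)))
    (h0 : ∀ M M', M ≠ M' → π M * u (dg fun i : Fin n => ζ ^ (i : ℕ)) * π M' = 0)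
    (t : Fin n → Fˣ) (ht : Near s (dg t)) (M M' : Fin (D + 1)) (hM : M ≠ M') :
    π M * u (dg t) * π M' = 0 := by
  have h1 := hu _ _ hτ ht
  have h2 := hu _ _ ht hτ
  rw [← dg_mul, mul_comm, dg_mul, h2] at h1
  have h3 := congrArg (fun X => π M * X * π M') h1
  simp only [mul_add, add_mul] at h3
  rw [hg.conj ζ (z : ℚ) (by simpa using hζ), h0 M M' hM, zero_add] at h3
  have h4 : π M * (ρ (dg t) * u (dg fun i : Fin n => ζ ^ (i : ℕ)) * ρ (dg t)⁻¹) * π M' = 0 := by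
    rw [← dg_inv, mul_assoc (π M), mul_assoc _ (ρ (dg t⁻¹)), ← hg.comm_dg, ← mul_assoc,
      ← mul_assoc, ← mul_assoc, hg.comm_dg, mul_assoc (ρ (dg t)), mul_assoc (ρ (dg t)),
      h0 M M' hM, mul_zero, zero_mul]
  rw [h4, add_zero, Rat.cast_natCast] at h3
  have h5 : ((z : E) ^ (((M : ℕ) : ℤ) - ((M' : ℕ) : ℤ)) - 1) • (π M * u (dg t) * π M') = 0 := by
    rw [sub_smul, one_smul, ← h3, sub_self]
  refine (smul_eq_zero.1 h5).resolve_left (H4_zpow_ne hz ?_)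
  intro h
  exact hM (Fin.ext (by omega))

theorem H4_root [IsUltrametricDist F] (hg : Graded κ a ρ w l π) (hs0 : 0 < s)
    (hu : Coc ρ s u) {z c : ℕ} (hz : 2 ≤ z) (hc : 1 ≤ c) {ζ : Fˣ} {y : ℚ} (hζ : (ζ : F) = y)
    (hτ : Near s (dg fun i : Fin n => ζ ^ (i : ℕ)))
    (h0 : ∀ M M', M ≠ M' → π M * u (dg fun i : Fin n => ζ ^ (i : ℕ)) * π M' = 0)
    {i j : Fin n} (h : i ≠ j) (hij : (ζ : F) ^ (i : ℕ) / (ζ : F) ^ (j : ℕ) = (z : F) ^ c)
    (deg : Fin (D + 1) → ℤ)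
    (hdeg : ∀ M M' : Fin (D + 1),
      (y : E) ^ (((M : ℕ) : ℤ) - ((M' : ℕ) : ℤ)) = (z : E) ^ (deg M - deg M'))
    (hU : ∀ x M M', deg M ≤ deg M' → π M * (ρ (tv i j h x) - 1) * π M' = 0)
    (x : F) (hx : ‖x‖ < s) (M M' : Fin (D + 1)) (hM : deg M ≤ deg M') :
    π M * u (tv i j h x) * π M' = 0 := by
  refine extreme_component (ballG F s hs0) π deg hg.sum hg.orth (fun x => ρ (tv i j h x))
    (fun x => u (tv i j h x)) (u (dg fun i : Fin n => ζ ^ (i : ℕ))) z hz c hc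
    (fun x _ => hU x) ?_ (fun M M' hM => h0 M M' fun e => hM (by rw [e])) ?_ x hx M M' hM
  · intro x hx x' hx'
    simp only [tv_add, tv_neg]
    exact hu _ _ ((near_tv hs0 i j h x).2 hx) ((near_tv hs0 i j h x').2 hx')
  · intro x hx M M'
    have hx' : ‖(z ^ c • x : F)‖ < s := (ballG F s hs0).nsmul_mem hx _
    have e : tv i j h (z ^ c • x) * (dg fun i : Fin n => ζ ^ (i : ℕ)) =
        (dg fun i : Fin n => ζ ^ (i : ℕ)) * tv i j h x := by
      rw [← eq_mul_inv_iff_mul_eq, dg_conj_tv]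
      congr 1
      rw [nsmul_eq_mul, Nat.cast_pow, ← hij]
      simp only [Units.val_pow_eq_pow_val]
      ring
    have h1 := hu _ _ ((near_tv hs0 i j h _).2 hx') hτ
    rw [e, hu _ _ hτ ((near_tv hs0 i j h x).2 hx)] at h1
    have h2 := eq_sub_of_add_eq h1.symm
    simp only [tv_neg]
    rw [h2, ← hdeg, ← hg.conj ζ y hζ]
    simp only [mul_add, add_mul, mul_sub, sub_mul]
    abel

end Aux

variable (p : ℕ) [Fact p.Prime] {n N : ℕ} {F E ι : Type} [NontriviallyNormedField F]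
  [IsUltrametricDist F] [NormedAlgebra ℚ_[p] F] [FiniteDimensional ℚ_[p] F] [NormedField E]
  [IsUltrametricDist E] [NormedAlgebra ℚ_[p] E] [Fintype ι] {κ : ι → F →+* E}
  {a : ι → Fin n → ℤ} {ρ : GL (Fin n) F →* Matrix (Fin N) (Fin N) E}

omit [IsUltrametricDist F] [FiniteDimensional ℚ_[p] F] in
theorem H4_norm_p : ‖(p : F)‖ < 1 := by
  rw [← map_natCast (algebraMap ℚ_[p] F), norm_algebraMap']
  exact Padic.norm_p_lt_one

omit [NormedAlgebra ℚ_[p] F] [FiniteDimensional ℚ_[p] F] [NormedAlgebra ℚ_[p] E] in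
theorem H4_cts (ok : AlgOK κ a ρ) (hκ : ∀ σ x, ‖κ σ x‖ = ‖x‖)
    {u : GL (Fin n) F → Matrix (Fin N) (Fin N) E} (hc : Cts u) (b : Matrix (Fin N) (Fin N) E) :
    Cts fun k => u k - (ρ k * b * ρ k⁻¹ - b) := by
  intro ε hε
  obtain ⟨C, hC, hb⟩ := MLe.exists_bound b
  obtain ⟨δ, hδ, h1⟩ := hc ε hε
  have hη : 0 < min 1 (ε / C) := lt_min one_pos (div_pos hε hC)
  obtain ⟨r, hr, h2⟩ := ok.cont hκ hη
  have h0 : 0 < min 1 (min δ r) := lt_min one_pos (lt_min hδ hr)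
  refine ⟨min 1 (min δ r), h0, fun k hk => ?_⟩
  have hk' := hk.inv h0 (min_le_left _ _)
  have h3 := h2 k (hk.mono ((min_le_right _ _).trans (min_le_right _ _)))
  have h4 := h2 k⁻¹ (hk'.mono ((min_le_right _ _).trans (min_le_right _ _)))
  have h5 : MLe 1 (ρ k⁻¹) := by
    have := (h4.mono (min_le_left _ _)).add MLe.one
    rwa [sub_add_cancel] at this
  have h6 : min 1 (ε / C) * C ≤ ε := (le_div_iff₀ hC).1 (min_le_right _ _)
  have e : ρ k * b * ρ k⁻¹ - b = (ρ k - 1) * b * ρ k⁻¹ + b * (ρ k⁻¹ - 1) := by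
    simp only [sub_mul, mul_sub, one_mul, mul_one]
    abel
  refine (h1 k (hk.mono ((min_le_right _ _).trans (min_le_left _ _)))).sub ?_
  rw [e]
  refine MLe.add (((h3.mul hb hη.le hC.le).mul h5 (mul_pos hη hC).le zero_le_one).mono ?_)
    ((hb.mul h4 hC.le hη.le).mono ?_)
  · rwa [mul_one]
  · rwa [mul_comm]

include p in
/-- after subtracting a coboundary the cocycle kills the highest weight vector -/
theorem normalise (ok : AlgOK κ a ρ) (hκ : ∀ σ x, ‖κ σ x‖ = ‖x‖) {D : ℕ} {w l : Fin N → E}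
    {π : Fin (D + 1) → Matrix (Fin N) (Fin N) E} (hg : Graded κ a ρ w l π) {s : ℝ} (hs0 : 0 < s)
    (hs : s ≤ 1) {u : GL (Fin n) F → Matrix (Fin N) (Fin N) E} (hu : Coc ρ s u) (hc : Cts u)
    (hz : ∀ z : Fˣ, Near s (dg fun _ : Fin n => z) → u (dg fun _ => z) = 0) :
    ∃ b : Matrix (Fin N) (Fin N) E,
      (∀ k, Near s k → IsUp1 k → (u k - (ρ k * b * ρ k⁻¹ - b)) *ᵥ w = 0) ∧
      (∀ k, Near s k → IsLow1 k → l ᵥ* (u k - (ρ k * b * ρ k⁻¹ - b)) = 0) ∧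
      ∀ t, Near s (dg t) → (u (dg t) - (ρ (dg t) * b * ρ (dg t)⁻¹ - b)) *ᵥ w = 0 := by
  have : CharZero F := charZero_of_injective_algebraMap (algebraMap ℚ_[p] F).injective
  have : CharZero E := charZero_of_injective_algebraMap (algebraMap ℚ_[p] E).injective
  obtain ⟨m, hm⟩ := exists_pow_lt_of_lt_one hs0 (H4_norm_p p (F := F))
  obtain ⟨z, hzd⟩ : ∃ z : ℕ, z = p ^ m + 1 := ⟨_, rfl⟩
  have hz2 : 2 ≤ z := by
    have := Nat.one_le_pow m p (Fact.out : p.Prime).pos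
    omega
  have hz0 : (z : F) ≠ 0 := Nat.cast_ne_zero.2 (by omega)
  have hz1 : ‖(z : F) - 1‖ < s := by
    rw [hzd]
    simpa using hm
  have hzi : ∀ i : ℕ, ‖(z : F) ^ i - 1‖ < s := by
    intro i
    induction i with
    | zero => simpa using hs0
    | succ i ih =>
      have e : (z : F) ^ (i + 1) - 1 = z * ((z : F) ^ i - 1) + ((z : F) - 1) := by ring
      rw [e]
      refine (IsUltrametricDist.norm_add_le_max _ _).trans_lt (max_lt ?_ hz1)
      rw [norm_mul]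
      exact (mul_le_of_le_one_left (norm_nonneg _)
        (IsUltrametricDist.norm_natCast_le_one F z)).trans_lt ih
  obtain ⟨ζ, hζ⟩ : ∃ ζ : Fˣ, (ζ : F) = z := ⟨Units.mk0 _ hz0, rfl⟩
  have hτ : Near s (dg fun i : Fin n => ζ ^ (i : ℕ)) :=
    (near_dg hs0 _).2 fun i => by simpa [hζ] using hzi i
  have hτ' : Near s (dg fun i : Fin n => ζ⁻¹ ^ (i : ℕ)) := by
    have := hτ.inv hs0 hs
    rw [← dg_inv] at this
    convert this using 2
    ext i
    simp
  obtain ⟨b, hb⟩ : ∃ b : Matrix (Fin N) (Fin N) E, ∀ M M' : Fin (D + 1), π M * b * π M' =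
      ((z : E) ^ (((M : ℕ) : ℤ) - ((M' : ℕ) : ℤ)) - 1)⁻¹ •
        (π M * u (dg fun i : Fin n => ζ ^ (i : ℕ)) * π M') := by
    refine ⟨∑ M : Fin (D + 1), ∑ M' : Fin (D + 1),
      ((z : E) ^ (((M : ℕ) : ℤ) - ((M' : ℕ) : ℤ)) - 1)⁻¹ •
        (π M * u (dg fun i : Fin n => ζ ^ (i : ℕ)) * π M'), fun M M' => ?_⟩
    have e : ∀ (X : Matrix (Fin N) (Fin N) E) (A B : Fin (D + 1)),
        π M * (π A * X * π B) * π M' = if M = A then if B = M' then π M * X * π M' else 0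
          else 0 := by
      intro X A B
      rw [mul_assoc (π M), mul_assoc _ (π B), hg.orth, ← mul_assoc, ← mul_assoc, hg.orth]
      split_ifs with h1 h2 h2 <;> simp [*]
    simp only [Finset.mul_sum, Finset.sum_mul, mul_smul_comm, smul_mul_assoc, e]
    rw [Finset.sum_eq_single M, Finset.sum_eq_single M'] <;> simp +contextual [eq_comm]
  refine ⟨b, ?_⟩
  have hu' := H4_coc_sub hu b
  have hc' := H4_cts ok hκ hc b
  have hz' : ∀ z : Fˣ, Near s (dg fun _ : Fin n => z) →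
      (fun k => u k - (ρ k * b * ρ k⁻¹ - b)) (dg fun _ => z) = 0 := by
    intro z h
    have e : ρ (dg fun _ : Fin n => z) * b = b * ρ (dg fun _ : Fin n => z) := by
      rw [ok.cen]
      simp
    simp only [hz z h, e, mul_assoc, H4_mul_inv, mul_one, sub_self]
  have h0 : ∀ M M', M ≠ M' → π M * (fun k => u k - (ρ k * b * ρ k⁻¹ - b))
      (dg fun i : Fin n => ζ ^ (i : ℕ)) * π M' = 0 := by
    intro M M' hM
    have h1 : (z : E) ^ (((M : ℕ) : ℤ) - ((M' : ℕ) : ℤ)) - 1 ≠ 0 :=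
      H4_zpow_ne hz2 fun h => hM (Fin.ext (by omega))
    simp only [mul_sub, sub_mul]
    rw [hg.conj ζ (z : ℚ) (by simpa using hζ), Rat.cast_natCast]
    nth_rewrite 2 [← one_smul E (π M * b * π M')]
    rw [← sub_smul, hb, smul_smul, mul_inv_cancel₀ h1, one_smul, sub_self]
  show (∀ k, Near s k → IsUp1 k → (fun k => u k - (ρ k * b * ρ k⁻¹ - b)) k *ᵥ w = 0) ∧
      (∀ k, Near s k → IsLow1 k → l ᵥ* (fun k => u k - (ρ k * b * ρ k⁻¹ - b)) k = 0) ∧
      ∀ t, Near s (dg t) → (fun k => u k - (ρ k * b * ρ k⁻¹ - b)) (dg t) *ᵥ w = 0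
  generalize (fun k => u k - (ρ k * b * ρ k⁻¹ - b)) = v at hu' hc' hz' h0 ⊢
  have hdg := H4_dg hg hu' hz2 hζ hτ h0
  have hup : ∀ (i j : Fin n) (h : i < j) (x : F), ‖x‖ < s → v (tv i j h.ne x) *ᵥ w = 0 := by
    intro i j h x hx
    have hij : (i : ℕ) < j := h
    rw [H4_left hg]
    refine Finset.sum_eq_zero fun M _ => ?_
    rw [H4_root (c := j - i) (y := (z : ℚ)⁻¹) hg hs0 hu' hz2 (by omega) (by simp [hζ]) hτ'
      (hdg _ hτ') h.ne ?_ (fun M => -((M : ℕ) : ℤ)) ?_ ?_ x hx M 0 (by simp), Matrix.zero_mulVec]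
    · rw [Units.val_inv_eq_inv_val, hζ, pow_sub₀ _ hz0 hij.le, inv_pow, inv_pow, div_inv_eq_mul,
        mul_comm]
    · intro M M'
      rw [Rat.cast_inv, Rat.cast_natCast, inv_zpow']
      congr 1
      ring
    · intro x M M' hM
      exact hg.deg_up ok.reg h x (Fin.le_def.2 (by omega))
  have hlow : ∀ (i j : Fin n) (h : j < i) (x : F), ‖x‖ < s → l ᵥ* v (tv i j h.ne' x) = 0 := by
    intro i j h x hx
    have hij : (j : ℕ) < i := h
    refine H4_right hg _ fun M => ?_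
    refine H4_root (c := i - j) (y := (z : ℚ)) hg hs0 hu' hz2 (by omega) (by simp [hζ]) hτ
      h0 h.ne' ?_ (fun M => ((M : ℕ) : ℤ)) ?_ ?_ x hx 0 M (by simp)
    · rw [hζ, pow_sub₀ _ hz0 hij.le, div_eq_mul_inv]
    · intro M M'
      rw [Rat.cast_natCast]
    · intro x M M' hM
      exact hg.deg_low ok.reg h x (Fin.le_def.2 (by omega))
  refine ⟨fun k hk hk' => ?_, fun k hk hk' => ?_,
    torus_part p ok hκ hg hs0 hs hu' hc' hz' hup hlow fun t ht => ?_⟩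
  · refine up1_induction hs0 hs (fun k => v k *ᵥ w = 0) (by simp [H4_coc_one hs0 hu']) ?_ hk' hk
    intro i j h x k hx _ hk hq
    rw [hu' _ _ ((near_tv hs0 i j _ x).2 hx) hk, Matrix.add_mulVec, hup i j h x hx, zero_add,
      ← Matrix.mulVec_mulVec, hg.up _ (isUp1_tv h x).inv, ← Matrix.mulVec_mulVec, hq,
      Matrix.mulVec_zero]
  · refine low1_induction hs0 hs (fun k => l ᵥ* v k = 0) (by simp [H4_coc_one hs0 hu']) ?_ hk' hk
    intro i j h x k hx hl hk hq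
    rw [hu' _ _ hk ((near_tv hs0 i j _ x).2 hx), Matrix.vecMul_add, hq, zero_add,
      ← Matrix.vecMul_vecMul, ← Matrix.vecMul_vecMul, hg.low _ hl, hlow i j h x hx,
      Matrix.zero_vecMul]
  · refine ⟨l ⬝ᵥ ((v (dg t) * π 0) *ᵥ w), ?_⟩
    rw [H4_left hg, Finset.sum_eq_single 0, ← H4_pi_w hg, Matrix.mulVec_mulVec, mul_assoc]
    · intro M _ hM
      rw [hdg t ht M 0 hM, Matrix.zero_mulVec]
    · simp

include p in
theorem whitehead (ok : AlgOK κ a ρ) (hκ : ∀ σ x, ‖κ σ x‖ = ‖x‖) {s : ℝ} (hs0 : 0 < s)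
    (hs : s ≤ 1) {u : GL (Fin n) F → Matrix (Fin N) (Fin N) E} (hu : Coc ρ s u) (hc : Cts u)
    (hz : ∀ z : Fˣ, Near s (dg fun _ : Fin n => z) → u (dg fun _ => z) = 0) :
    ∃ b : Matrix (Fin N) (Fin N) E, ∀ k, Near s k → u k = ρ k * b * ρ k⁻¹ - b := by
  have : CharZero F := charZero_of_injective_algebraMap (algebraMap ℚ_[p] F).injective
  have : CharZero E := charZero_of_injective_algebraMap (algebraMap ℚ_[p] E).injective
  have hp0 : p ≠ 0 := (Fact.out : p.Prime).ne_zero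
  have hp := H4_norm_p p (F := F)
  obtain ⟨w, l, D, π, hg⟩ := ok.grad
  obtain ⟨b, h1, h2, h3⟩ := normalise p ok hκ hg hs0 hs hu hc hz
  have hu' := H4_coc_sub hu b
  suffices h : ∃ b' : Matrix (Fin N) (Fin N) E, ∀ k, Near s k →
      (fun k => u k - (ρ k * b * ρ k⁻¹ - b)) k * ρ k = b' * ρ k - ρ k * b' by
    obtain ⟨b', hb'⟩ := h
    refine ⟨b - b', fun k hk => ?_⟩
    have h4 := congrArg (· * ρ k⁻¹) (hb' k hk)
    simp only [sub_mul (b' * ρ k), mul_assoc _ (ρ k) (ρ k⁻¹), H4_mul_inv, mul_one] at h4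
    rw [sub_eq_iff_eq_add.1 h4, mul_sub, sub_mul]
    abel
  change ∀ k, Near s k → IsUp1 k → (fun k => u k - (ρ k * b * ρ k⁻¹ - b)) k *ᵥ w = 0 at h1
  change ∀ k, Near s k → IsLow1 k → l ᵥ* (fun k => u k - (ρ k * b * ρ k⁻¹ - b)) k = 0 at h2
  change ∀ t, Near s (dg t) → (fun k => u k - (ρ k * b * ρ k⁻¹ - b)) (dg t) *ᵥ w = 0 at h3
  generalize (fun k => u k - (ρ k * b * ρ k⁻¹ - b)) = v at hu' h1 h2 h3 ⊢
  let Y : Submodule E ((Fin N → E) × (Fin N → E)) :=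
    Submodule.span E {x | ∃ k, IsLow1 k ∧ Near s k ∧ x = H4_R (ρ k) (v k * ρ k) (0, w)}
  have hY : ∀ k, Near s k → ∀ x ∈ Y, H4_R (ρ k) (v k * ρ k) x ∈ Y := by
    intro k hk
    refine Submodule.span_le (p := Y.comap (H4_R (ρ k) (v k * ρ k))).2 ?_
    rintro _ ⟨k', -, hk', rfl⟩
    obtain ⟨c, d, t, hc1, hd1, hc2, hd2, ht, e⟩ := exists_ldu hs0 hs (hk.mul hs0 hs hk')
    have e1 : H4_R (ρ d) (v d * ρ d) (0, w) = (0, w) := by
      rw [H4_R_apply, ← Matrix.mulVec_mulVec, hg.up d hd1, h1 d hd2 hd1]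
      simp
    have e2 : H4_R (ρ (dg t)) (v (dg t) * ρ (dg t)) (0, w) = chi κ a t • (0, w) := by
      rw [H4_R_apply, ← Matrix.mulVec_mulVec, hg.tor, Matrix.mulVec_smul, h3 t ht]
      simp
    show H4_R (ρ k) (v k * ρ k) _ ∈ Y
    rw [← H4_R_mul hu' hk hk', e, H4_R_mul hu' (hc2.mul hs0 hs ht) hd2, H4_R_mul hu' hc2 ht, e1,
      e2, map_smul]
    exact Y.smul_mem _ (Submodule.subset_span ⟨c, hc1, hc2, rfl⟩)
  have hl : ∀ x ∈ Y, l ⬝ᵥ x.1 = 0 := by
    intro x hx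
    induction hx using Submodule.span_induction with
    | mem x hx =>
      obtain ⟨k, hk1, hk, rfl⟩ := hx
      rw [H4_R_apply, Matrix.mulVec_zero, zero_add, ← Matrix.mulVec_mulVec,
        Matrix.dotProduct_mulVec, h2 k hk hk1, zero_dotProduct]
    | zero => simp
    | add x y _ _ hx hy => simp [hx, hy]
    | smul c x _ hx => simp [hx]
  have hX : ∀ x, (x, 0) ∈ Y → x = 0 := by
    intro x hx
    by_contra h0
    have h4 := ok.irred p hp0 hp hs0 (Y.comap (LinearMap.inl E _ _))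
      (fun k hk y hy => by simpa [H4_R_apply] using hY k hk _ hy) (v := x) hx h0
    have h5 : (w, 0) ∈ Y := by
      have : w ∈ Y.comap (LinearMap.inl E _ _) := h4 ▸ Submodule.mem_top
      exact this
    have h6 := hl _ h5
    rw [hg.lw] at h6
    exact one_ne_zero h6
  have hw : w ≠ 0 := by
    intro h
    have := hg.lw
    simp [h] at this
  have hS : LinearMap.range ((LinearMap.snd E _ _).comp Y.subtype) = ⊤ := by
    refine ok.irred p hp0 hp hs0 _ ?_ (v := w) ?_ hw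
    · rintro k hk _ ⟨x, rfl⟩
      exact ⟨⟨_, hY k hk _ x.2⟩, rfl⟩
    · refine ⟨⟨_, Submodule.subset_span ⟨1, fun _ _ _ => rfl, near_one hs0, rfl⟩⟩, ?_⟩
      simp [H4_R_apply]
  obtain ⟨g, hg'⟩ := LinearMap.exists_rightInverse_of_surjective _ hS
  have hb' : ∀ y, (LinearMap.toMatrix' ((LinearMap.fst E _ _).comp (Y.subtype.comp g)) *ᵥ y, y)
      ∈ Y := by
    intro y
    have e : (g y).1.2 = y := LinearMap.congr_fun hg' y
    have e' : LinearMap.toMatrix' ((LinearMap.fst E _ _).comp (Y.subtype.comp g)) *ᵥ y =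
        (g y).1.1 := by
      rw [← Matrix.toLin'_apply, Matrix.toLin'_toMatrix']
      rfl
    rw [e']
    convert (g y).2 using 1
    exact Prod.ext rfl e.symm
  generalize LinearMap.toMatrix' ((LinearMap.fst E _ _).comp (Y.subtype.comp g)) = b' at hb'
  refine ⟨b', fun k hk => Matrix.toLin'.injective (LinearMap.ext fun y => ?_)⟩
  have h4 := Y.sub_mem (hY k hk _ (hb' y)) (hb' (ρ k *ᵥ y))
  rw [H4_R_apply, Prod.mk_sub_mk, sub_self] at h4
  have h5 := hX _ h4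
  simp only [Matrix.toLin'_apply, Matrix.sub_mulVec]
  simp only [Matrix.mulVec_mulVec] at h5
  rw [← sub_eq_zero, ← h5]
  abel

end Pool.Agent.MP_4d0c14_b
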