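import Pool.Agent.MP_4d0c14_b.Iw
import Pool.Agent.MP_4d0c14_b.C1

/-! The kernels `kap j`, the function `phi` and the eigenvalue relation. -/

namespace Pool.Agent.MP_4d0c14_b

open scoped Matrix

namespace Iw

variable {G E ι : Type} [Group G] [Field E] [Fintype ι] [DecidableEq ι] (D : Iw G E ι)

theorem I1_invH {h : G} (hh : h ∈ D.H) : D.lam h * D.lam h⁻¹ = 1 := by
  rw [← D.lam_mulH _ hh _ (D.H.inv_mem hh), mul_inv_cancel, D.lam_one]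

theorem I1_invP {p : G} (hp : p ∈ D.P) : D.lam p * D.lam p⁻¹ = 1 := by
  rw [← D.lam_mulP _ hp _ (D.P.inv_mem hp), mul_inv_cancel, D.lam_one]

theorem I1_invP' {p : G} (hp : p ∈ D.P) : D.lam p⁻¹ * D.lam p = 1 := by
  rw [← D.lam_mulP _ (D.P.inv_mem hp) _ hp, inv_mul_cancel, D.lam_one]

theorem dec' {h : G} (hh : h ∈ D.H) : ∃ c ∈ D.L, ∃ p ∈ D.P, c ∈ D.H ∧ p ∈ D.H ∧ h = c * p := by
  obtain ⟨p, hp, c, hc, hpH, hcH, e⟩ := D.dec _ (D.H.inv_mem hh)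
  refine ⟨c⁻¹, D.L.inv_mem hc, p⁻¹, D.P.inv_mem hp, D.H.inv_mem hcH, D.H.inv_mem hpH, ?_⟩
  rw [← mul_inv_rev, ← e, inv_inv]

theorem pos_pow {j : G} (hj : D.Pos j) (K : ℕ) : D.Pos (j ^ K) := by
  induction K with
  | zero => rw [pow_zero]; exact D.pos_one
  | succ k ih => rw [pow_succ]; exact D.pos_mul _ _ ih hj

theorem phi_mul {p h : G} (hp : p ∈ D.P) (hh : h ∈ D.H) :
    D.phi (p * h) = D.lam p * D.lam h := by
  have hx : ∃ y : G × G, y.1 ∈ D.P ∧ y.2 ∈ D.H ∧ p * h = y.1 * y.2 := ⟨(p, h), hp, hh, rfl⟩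
  unfold phi
  rw [dif_pos hx]
  obtain ⟨h1, h2, h3⟩ := hx.choose_spec
  generalize hx.choose.1 = a at h1 h3 ⊢
  generalize hx.choose.2 = b at h2 h3 ⊢
  have e1 : a⁻¹ * p = b * h⁻¹ := by
    rw [inv_mul_eq_iff_eq_mul, ← mul_assoc, ← h3, mul_inv_cancel_right]
  have hsP : a⁻¹ * p ∈ D.P := D.P.mul_mem (D.P.inv_mem h1) hp
  have hsH : a⁻¹ * p ∈ D.H := e1 ▸ D.H.mul_mem h2 (D.H.inv_mem hh)
  have e2 : D.lam p = D.lam a * D.lam (a⁻¹ * p) := by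
    rw [← D.lam_mulP _ h1 _ hsP, mul_inv_cancel_left]
  have e3 : D.lam b = D.lam (a⁻¹ * p) * D.lam h := by
    rw [← D.lam_mulH _ hsH _ hh, e1, inv_mul_cancel_right]
  rw [e2, e3, mul_assoc]

theorem phi_eq_zero {x : G} (hx : ¬∃ p ∈ D.P, ∃ h ∈ D.H, x = p * h) : D.phi x = 0 := by
  unfold phi
  exact dif_neg fun ⟨y, h1, h2, h3⟩ => hx ⟨y.1, h1, y.2, h2, h3⟩

theorem phi_one : D.phi 1 = 1 := by
  have := D.phi_mul D.P.one_mem D.H.one_mem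
  rwa [mul_one, D.lam_one, mul_one] at this

theorem phi_left {p : G} (hp : p ∈ D.P) (x : G) : D.phi (p * x) = D.lam p * D.phi x := by
  by_cases hx : ∃ p ∈ D.P, ∃ h ∈ D.H, x = p * h
  · obtain ⟨a, ha, h, hh, rfl⟩ := hx
    rw [← mul_assoc, D.phi_mul (D.P.mul_mem hp ha) hh, D.phi_mul ha hh, D.lam_mulP _ hp _ ha,
      mul_assoc]
  · rw [D.phi_eq_zero hx, mul_zero]
    refine D.phi_eq_zero fun ⟨a, ha, h, hh, e⟩ =>
      hx ⟨p⁻¹ * a, D.P.mul_mem (D.P.inv_mem hp) ha, h, hh, ?_⟩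
    rw [mul_assoc, ← e, inv_mul_cancel_left]

theorem phi_right {h : G} (hh : h ∈ D.H) (x : G) : D.phi (x * h) = D.phi x * D.lam h := by
  by_cases hx : ∃ p ∈ D.P, ∃ h ∈ D.H, x = p * h
  · obtain ⟨a, ha, b, hb, rfl⟩ := hx
    rw [mul_assoc, D.phi_mul ha (D.H.mul_mem hb hh), D.phi_mul ha hb, D.lam_mulH _ hb _ hh,
      mul_assoc]
  · rw [D.phi_eq_zero hx, zero_mul]
    refine D.phi_eq_zero fun ⟨a, ha, b, hb, e⟩ =>
      hx ⟨a, ha, b * h⁻¹, D.H.mul_mem hb (D.H.inv_mem hh), ?_⟩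
    rw [← mul_assoc, ← e, mul_inv_cancel_right]

theorem I1_key {j s s' : G} (hj : D.Pos j) (hs : s ∈ D.H) (hs' : s' ∈ D.H) (e : s * j = j * s') :
    D.lam j⁻¹ * D.lam s = D.lam s' * D.lam j⁻¹ := by
  obtain ⟨c, hc, p, hp, hcH, hpH, rfl⟩ := D.dec' hs
  have hjP := D.pos_mem j hj
  have h1 : j⁻¹ * p * j ∈ D.H := D.pos_P j hj p hp hpH
  have h2 : j⁻¹ * p * j ∈ D.P := D.P.mul_mem (D.P.mul_mem (D.P.inv_mem hjP) hp) hjP
  have e1 : s' = (j⁻¹ * c * j) * (j⁻¹ * p * j) := by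
    have : s' = j⁻¹ * (c * p * j) := by rw [e, inv_mul_cancel_left]
    rw [this]; group
  have h3 : j⁻¹ * c * j ∈ D.H := by
    have : j⁻¹ * c * j = s' * (j⁻¹ * p * j)⁻¹ := by rw [e1, mul_inv_cancel_right]
    rw [this]; exact D.H.mul_mem hs' (D.H.inv_mem h1)
  rw [e1, D.lam_mulH _ hcH _ hpH, D.lam_L c hc hcH, one_mul, D.lam_mulH _ h3 _ h1,
    D.lam_L _ (D.pos_L j hj c hc).2.1 h3, one_mul, ← D.lam_mulP _ (D.P.inv_mem hjP) _ hp,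
    ← D.lam_mulP _ h2 _ (D.P.inv_mem hjP), mul_inv_cancel_right]

theorem kap_mul {j h h' : G} (hj : D.Pos j) (hh : h ∈ D.H) (hh' : h' ∈ D.H) :
    D.kap j (h * j * h') = D.lam h'⁻¹ * D.lam j⁻¹ * D.lam h⁻¹ := by
  have hx : ∃ y : G × G, y.1 ∈ D.H ∧ y.2 ∈ D.H ∧ h * j * h' = y.1 * j * y.2 :=
    ⟨(h, h'), hh, hh', rfl⟩
  unfold kap
  rw [dif_pos hx]
  obtain ⟨h1, h2, h3⟩ := hx.choose_spec
  generalize hx.choose.1 = a at h1 h3 ⊢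
  generalize hx.choose.2 = b at h2 h3 ⊢
  have hs : a⁻¹ * h ∈ D.H := D.H.mul_mem (D.H.inv_mem h1) hh
  have hs' : b * h'⁻¹ ∈ D.H := D.H.mul_mem h2 (D.H.inv_mem hh')
  have e : a⁻¹ * h * j = j * (b * h'⁻¹) := by
    have : a⁻¹ * h * j = a⁻¹ * (h * j * h') * h'⁻¹ := by group
    rw [this, h3]; group
  have e1 : D.lam a⁻¹ = D.lam (a⁻¹ * h) * D.lam h⁻¹ := by
    rw [← D.lam_mulH _ hs _ (D.H.inv_mem hh), mul_inv_cancel_right]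
  have e2 : D.lam h'⁻¹ = D.lam b⁻¹ * D.lam (b * h'⁻¹) := by
    rw [← D.lam_mulH _ (D.H.inv_mem h2) _ hs', inv_mul_cancel_left]
  rw [e1, e2, mul_assoc (D.lam b⁻¹) (D.lam (b * h'⁻¹)), ← D.I1_key hj hs hs' e]
  simp only [mul_assoc]

theorem kap_eq_zero {j x : G} (hx : ¬∃ h ∈ D.H, ∃ h' ∈ D.H, x = h * j * h') : D.kap j x = 0 := by
  unfold kap
  exact dif_neg fun ⟨y, h1, h2, h3⟩ => hx ⟨y.1, h1, y.2, h2, h3⟩

theorem I1_mem {j x : G} (hx : D.kap j x ≠ 0) : ∃ h ∈ D.H, ∃ h' ∈ D.H, x = h * j * h' := by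
  by_contra h
  exact hx (D.kap_eq_zero h)

theorem I1_self {j : G} (hj : D.Pos j) : D.kap j j = D.lam j⁻¹ := by
  have := D.kap_mul hj D.H.one_mem D.H.one_mem
  rwa [one_mul, mul_one, inv_one, D.lam_one, one_mul, mul_one] at this

theorem kap_ker {j : G} (hj : D.Pos j) : D.fib.Ker (D.kap j) := by
  refine ⟨fun x h hh => ?_, fun x h hh => ?_, ?_⟩
  · have hh : h ∈ D.H := hh
    change _ = D.lam h⁻¹ * _
    by_cases hx : ∃ h ∈ D.H, ∃ h' ∈ D.H, x = h * j * h'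
    · obtain ⟨a, ha, b, hb, rfl⟩ := hx
      rw [mul_assoc (a * j), D.kap_mul hj ha (D.H.mul_mem hb hh), D.kap_mul hj ha hb, mul_inv_rev,
        D.lam_mulH _ (D.H.inv_mem hh) _ (D.H.inv_mem hb)]
      simp only [mul_assoc]
    · rw [D.kap_eq_zero hx, mul_zero]
      refine D.kap_eq_zero fun ⟨a, ha, b, hb, e⟩ =>
        hx ⟨a, ha, b * h⁻¹, D.H.mul_mem hb (D.H.inv_mem hh), ?_⟩
      rw [← mul_assoc, ← e, mul_inv_cancel_right]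
  · have hh : h ∈ D.H := hh
    change _ = _ * D.lam h⁻¹
    by_cases hx : ∃ h ∈ D.H, ∃ h' ∈ D.H, x = h * j * h'
    · obtain ⟨a, ha, b, hb, rfl⟩ := hx
      rw [← mul_assoc, ← mul_assoc, D.kap_mul hj (D.H.mul_mem hh ha) hb, D.kap_mul hj ha hb,
        mul_inv_rev, D.lam_mulH _ (D.H.inv_mem ha) _ (D.H.inv_mem hh)]
      simp only [mul_assoc]
    · rw [D.kap_eq_zero hx, zero_mul]
      refine D.kap_eq_zero fun ⟨a, ha, b, hb, e⟩ =>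
        hx ⟨h⁻¹ * a, D.H.mul_mem (D.H.inv_mem hh) ha, b, hb, ?_⟩
      rw [mul_assoc, mul_assoc, ← mul_assoc a, ← e, inv_mul_cancel_left]
  · obtain ⟨T, hT⟩ := D.fin j
    refine ⟨T, fun x hx => ?_⟩
    obtain ⟨a, ha, b, hb, rfl⟩ := D.I1_mem hx
    obtain ⟨t, ht, h1⟩ := hT a ha
    refine ⟨t, ht, ?_⟩
    rw [← mul_assoc]
    exact D.H.mul_mem h1 hb

theorem kap_one : D.kap 1 = D.fib.del := by
  funext x
  unfold Fib.del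
  split_ifs with hx
  · have := D.kap_mul D.pos_one hx D.H.one_mem
    rw [mul_one, mul_one, inv_one, D.lam_one, one_mul, one_mul] at this
    exact this
  · refine D.kap_eq_zero fun ⟨a, ha, b, hb, e⟩ => hx ?_
    rw [e, mul_one]
    exact D.H.mul_mem ha hb

theorem kap_congr {j j' : G} (hj : D.Pos j) (hj' : D.Pos j') (h : j⁻¹ * j' ∈ D.H) :
    D.kap j' = D.kap j := by
  funext x
  have hP : j⁻¹ * j' ∈ D.P := D.P.mul_mem (D.P.inv_mem (D.pos_mem j hj)) (D.pos_mem j' hj')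
  by_cases hx : ∃ h ∈ D.H, ∃ h' ∈ D.H, x = h * j' * h'
  · obtain ⟨a, ha, b, hb, rfl⟩ := hx
    have e : a * j' * b = a * j * (j⁻¹ * j' * b) := by group
    have e2 : D.lam j'⁻¹ = D.lam (j⁻¹ * j')⁻¹ * D.lam j⁻¹ := by
      rw [← D.lam_mulP _ (D.P.inv_mem hP) _ (D.P.inv_mem (D.pos_mem j hj))]
      congr 1
      group
    rw [D.kap_mul hj' ha hb, e, D.kap_mul hj ha (D.H.mul_mem h hb), mul_inv_rev,
      D.lam_mulH _ (D.H.inv_mem hb) _ (D.H.inv_mem h), e2]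
    simp only [mul_assoc]
  · rw [D.kap_eq_zero hx]
    refine (D.kap_eq_zero fun ⟨a, ha, b, hb, e⟩ =>
      hx ⟨a, ha, (j⁻¹ * j')⁻¹ * b, D.H.mul_mem (D.H.inv_mem h) hb, ?_⟩).symm
    rw [e]; group

/-- a point of the cell of `y ∈ H j H` -/
theorem cell_rep {j y u : G} (hj : D.Pos j) (hy : ∃ h ∈ D.H, ∃ h' ∈ D.H, y = h * j * h')
    (hu : ∃ p ∈ D.P, ∃ h ∈ D.H, u * y = p * h) :
    ∃ c ∈ D.H, (c * j)⁻¹ * y ∈ D.H ∧ u * c ∈ D.P := by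
  obtain ⟨h, hh, h', hh', rfl⟩ := hy
  obtain ⟨p, hp, h3, hh3, e⟩ := hu
  obtain ⟨c0, _, p0, hp0, hc0H, hp0H, rfl⟩ := D.dec' hh
  have h2 : j⁻¹ * p0 * j * h' ∈ D.H := D.H.mul_mem (D.pos_P j hj p0 hp0 hp0H) hh'
  obtain ⟨p', hp', c', hc', _, hc'H, e'⟩ := D.dec _ (D.H.mul_mem hh3 (D.H.inv_mem h2))
  refine ⟨c0 * (j * c' * j⁻¹)⁻¹,
    D.H.mul_mem hc0H (D.H.inv_mem ((D.pos_L j hj c' hc').2.2 hc'H)), ?_, ?_⟩
  · have : (c0 * (j * c' * j⁻¹)⁻¹ * j)⁻¹ * (c0 * p0 * j * h') = c' * (j⁻¹ * p0 * j * h') := by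
      group
    rw [this]
    exact D.H.mul_mem hc'H h2
  · have : u * (c0 * (j * c' * j⁻¹)⁻¹) =
        u * (c0 * p0 * j * h') * (j⁻¹ * p0 * j * h')⁻¹ * c'⁻¹ * j⁻¹ := by group
    rw [this, e, mul_assoc p, e', ← mul_assoc p, mul_inv_cancel_right]
    exact D.P.mul_mem (D.P.mul_mem hp hp') (D.P.inv_mem (D.pos_mem j hj))

/-- the cells of the cosets in `H j H` are disjoint -/
theorem cell_unique {j y y' u : G} (hj : D.Pos j) (hy : ∃ h ∈ D.H, ∃ h' ∈ D.H, y = h * j * h')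
    (hy' : ∃ h ∈ D.H, ∃ h' ∈ D.H, y' = h * j * h')
    (hu : ∃ p ∈ D.P, ∃ h ∈ D.H, u * y = p * h) (hu' : ∃ p ∈ D.P, ∃ h ∈ D.H, u * y' = p * h) :
    y⁻¹ * y' ∈ D.H := by
  obtain ⟨c, hc, h1, h2⟩ := D.cell_rep hj hy hu
  obtain ⟨c', hc', h1', h2'⟩ := D.cell_rep hj hy' hu'
  have hP : c⁻¹ * c' ∈ D.P := by
    have : c⁻¹ * c' = (u * c)⁻¹ * (u * c') := by group
    rw [this]
    exact D.P.mul_mem (D.P.inv_mem h2) h2'
  have h3 := D.pos_P j hj _ hP (D.H.mul_mem (D.H.inv_mem hc) hc')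
  have : y⁻¹ * y' = ((c * j)⁻¹ * y)⁻¹ * (j⁻¹ * (c⁻¹ * c') * j) * ((c' * j)⁻¹ * y') := by group
  rw [this]
  exact D.H.mul_mem (D.H.mul_mem (D.H.inv_mem h1) h3) h1'

theorem phi_mul_kap {j y u : G} (hj : D.Pos j) (hy : ∃ h ∈ D.H, ∃ h' ∈ D.H, y = h * j * h')
    (hu : ∃ p ∈ D.P, ∃ h ∈ D.H, u * y = p * h) : D.phi (u * y) * D.kap j y = D.phi u := by
  obtain ⟨c, hc, h1, h2⟩ := D.cell_rep hj hy hu
  obtain ⟨h, hh⟩ : ∃ h, h = (c * j)⁻¹ * y := ⟨_, rfl⟩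
  obtain ⟨p, hp⟩ : ∃ p, p = u * c := ⟨_, rfl⟩
  rw [← hh] at h1
  rw [← hp] at h2
  have ey : y = c * j * h := by rw [hh, mul_inv_cancel_left]
  have eu : u = p * c⁻¹ := by rw [hp, mul_inv_cancel_right]
  have hjP := D.pos_mem j hj
  have e : u * y = p * j * h := by rw [eu, ey]; group
  rw [e, D.phi_mul (D.P.mul_mem h2 hjP) h1, ey, D.kap_mul hj hc h1, eu,
    D.phi_mul h2 (D.H.inv_mem hc), D.lam_mulP _ h2 _ hjP]
  calc D.lam p * D.lam j * D.lam h * (D.lam h⁻¹ * D.lam j⁻¹ * D.lam c⁻¹)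
      = D.lam p * (D.lam j * (D.lam h * D.lam h⁻¹) * D.lam j⁻¹) * D.lam c⁻¹ := by
        simp only [mul_assoc]
    _ = _ := by rw [D.I1_invH h1, mul_one, D.I1_invP hjP, mul_one]

theorem mem_dc_mul {j j' h : G} (hj : D.Pos j) (hj' : D.Pos j') (hh : h ∈ D.H) :
    ∃ c ∈ D.H, ∃ h' ∈ D.H, j * h * j' = c * (j * j') * h' ∧
      D.lam j * D.lam h * D.lam j' = D.lam c * D.lam (j * j') * D.lam h' := by
  obtain ⟨c0, hc0, p0, hp0, hc0H, hp0H, rfl⟩ := D.dec' hh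
  have hjP := D.pos_mem j hj
  have hjP' := D.pos_mem j' hj'
  have h1 := (D.pos_L j hj c0 hc0).2.2 hc0H
  refine ⟨j * c0 * j⁻¹, h1, j'⁻¹ * p0 * j', D.pos_P j' hj' p0 hp0 hp0H, by group, ?_⟩
  rw [D.lam_mulH _ hc0H _ hp0H, D.lam_L _ hc0 hc0H, one_mul,
    D.lam_L _ (D.pos_L j hj c0 hc0).1 h1, one_mul, ← D.lam_mulP _ hjP _ hp0,
    ← D.lam_mulP _ (D.P.mul_mem hjP hp0) _ hjP', ← D.lam_mulP _ (D.P.mul_mem hjP hjP') _
      (D.P.mul_mem (D.P.mul_mem (D.P.inv_mem hjP') hp0) hjP')]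
  congr 1
  group

theorem I1_conv_at {j j' : G} (hj : D.Pos j) (hj' : D.Pos j') :
    D.fib.conv (D.kap j) (D.kap j') (j' * j) = D.lam (j' * j)⁻¹ := by
  rw [Fib.conv_eq_sum (D.kap_ker hj).2.1 (D.kap_ker hj').1 _ {j'} (by simp), Finset.sum_singleton,
    inv_mul_cancel_left, D.I1_self hj, D.I1_self hj', mul_inv_rev,
    D.lam_mulP _ (D.P.inv_mem (D.pos_mem j hj)) _ (D.P.inv_mem (D.pos_mem j' hj'))]
  intro g hg
  obtain ⟨a1, ha1, b1, hb1, e1⟩ := D.I1_mem (left_ne_zero_of_mul hg)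
  obtain ⟨a, ha, b, hb, rfl⟩ := D.I1_mem (right_ne_zero_of_mul hg)
  obtain ⟨c, hc, p, hp, _, hpH, rfl⟩ := D.dec' ha
  have hb2 : j'⁻¹ * p * j' * b ∈ D.H := D.H.mul_mem (D.pos_P j' hj' p hp hpH) hb
  obtain ⟨c1, hc1, p1, hp1, hc1H, hp1H, e2⟩ := D.dec' (D.H.mul_mem hb2 ha1)
  have hh1 : j⁻¹ * p1 * j * b1 ∈ D.H := D.H.mul_mem (D.pos_P j hj p1 hp1 hp1H) hb1
  have heL : c1⁻¹ * (j'⁻¹ * c⁻¹ * j') ∈ D.L :=
    D.L.mul_mem (D.L.inv_mem hc1) (D.pos_L j' hj' _ (D.L.inv_mem hc)).2.1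
  have e3 : j⁻¹ * p1 * j * b1 = j⁻¹ * (c1⁻¹ * (j'⁻¹ * c⁻¹ * j')) * j := by
    have h2 : j⁻¹ * p1 * j * b1 = j⁻¹ * c1⁻¹ * ((c1 * p1) * a1⁻¹) * (a1 * j * b1) := by group
    rw [h2, ← e2, ← e1]
    group
  have h4 := (D.pos_L j hj _ (D.pos_L j hj _ heL).2.1).2.2 (e3 ▸ hh1)
  refine ⟨j', Finset.mem_singleton_self _, ?_⟩
  have e5 : j'⁻¹ * (c * p * j' * b) =
      (c1 * (j * (j⁻¹ * (c1⁻¹ * (j'⁻¹ * c⁻¹ * j')) * j) * j⁻¹))⁻¹ * (j'⁻¹ * p * j' * b) := by group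
  change _ ∈ D.H
  rw [e5]
  exact D.H.mul_mem (D.H.inv_mem (D.H.mul_mem hc1H h4)) hb2

theorem conv_kap {j j' : G} (hj : D.Pos j) (hj' : D.Pos j') :
    D.fib.conv (D.kap j) (D.kap j') = D.kap (j' * j) := by
  funext x
  have hK := (D.kap_ker hj).conv (D.kap_ker hj')
  by_cases hx : ∃ h ∈ D.H, ∃ h' ∈ D.H, x = h * (j' * j) * h'
  · obtain ⟨a, ha, b, hb, rfl⟩ := hx
    rw [hK.1 _ b hb, hK.2.1 _ a ha, D.I1_conv_at hj hj', D.kap_mul (D.pos_mul _ _ hj' hj) ha hb,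
      mul_assoc]
    rfl
  · rw [D.kap_eq_zero hx, Fib.conv_eq_sum (D.kap_ker hj).2.1 (D.kap_ker hj').1 _ ∅ (by simp),
      Finset.sum_empty]
    intro g hg
    obtain ⟨a1, ha1, b1, hb1, e1⟩ := D.I1_mem (left_ne_zero_of_mul hg)
    obtain ⟨a, ha, b, hb, rfl⟩ := D.I1_mem (right_ne_zero_of_mul hg)
    obtain ⟨c, hc, h', hh', e2, _⟩ := D.mem_dc_mul hj' hj (D.H.mul_mem hb ha1)
    refine absurd ⟨a * c, D.H.mul_mem ha hc, h' * b1, D.H.mul_mem hh' hb1, ?_⟩ hx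
    have h1 : x = a * (j' * (b * a1) * j) * b1 := by
      rw [← mul_inv_cancel_left (a * j' * b) x, e1]; group
    rw [h1, e2]; group

theorem pmap_eq_conv (Y : G → Matrix ι ι E) (u : G) :
    D.pmap Y u = D.fib.conv (fun z => D.phi z⁻¹) Y u⁻¹ := by
  unfold pmap Fib.conv
  simp only [mul_inv_rev, inv_inv]
  rfl

theorem pmap_kap {j : G} (hj : D.Pos j) : D.pmap (D.kap j) = D.phi := by
  funext u
  have hL : D.fib.LEqv (fun z => D.phi z⁻¹) := by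
    intro x h hh
    change D.phi (h * x)⁻¹ = D.phi x⁻¹ * D.lam h⁻¹
    rw [mul_inv_rev, D.phi_right (D.H.inv_mem hh)]
  have hm : ∀ g, D.phi (g⁻¹ * u⁻¹)⁻¹ * D.kap j g ≠ 0 →
      (∃ h ∈ D.H, ∃ h' ∈ D.H, g = h * j * h') ∧ ∃ p ∈ D.P, ∃ h ∈ D.H, u * g = p * h := by
    intro g hg
    refine ⟨D.I1_mem (right_ne_zero_of_mul hg), ?_⟩
    by_contra h
    apply left_ne_zero_of_mul hg
    rw [mul_inv_rev, inv_inv, inv_inv]
    exact D.phi_eq_zero h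
  rw [D.pmap_eq_conv]
  by_cases hu : ∃ p ∈ D.P, ∃ h ∈ D.H, u = p * h
  · obtain ⟨p, hp, h, hh, e⟩ := hu
    have h1 : ∃ a ∈ D.H, ∃ b ∈ D.H, h⁻¹ * j = a * j * b :=
      ⟨h⁻¹, D.H.inv_mem hh, 1, D.H.one_mem, (mul_one _).symm⟩
    have h2 : ∃ p ∈ D.P, ∃ b ∈ D.H, u * (h⁻¹ * j) = p * b :=
      ⟨p * j, D.P.mul_mem hp (D.pos_mem j hj), 1, D.H.one_mem, by rw [e]; group⟩
    rw [Fib.conv_eq_sum hL (D.kap_ker hj).1 _ {h⁻¹ * j} (by simp), Finset.sum_singleton,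
      mul_inv_rev, inv_inv, inv_inv, D.phi_mul_kap hj h1 h2]
    intro g hg
    exact ⟨_, Finset.mem_singleton_self _, D.cell_unique hj h1 (hm g hg).1 h2 (hm g hg).2⟩
  · rw [Fib.conv_eq_sum hL (D.kap_ker hj).1 _ ∅ (by simp), Finset.sum_empty, D.phi_eq_zero hu]
    intro g hg
    refine absurd ?_ hg
    rw [mul_inv_rev, inv_inv, inv_inv, D.phi_mul_kap hj (hm g hg).1 (hm g hg).2, D.phi_eq_zero hu]

end Iw

end Pool.Agent.MP_4d0c14_b
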