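import Pool.Agent.MP_4d0c14_b.I1

/-! The kernel of `pmap` is generated by the relations `U_j - 1`. -/

namespace Pool.Agent.MP_4d0c14_b

open scoped Matrix

namespace Iw

variable {G E ι : Type} [Group G] [Field E] [Fintype ι] [DecidableEq ι] (D : Iw G E ι)

/-- the generator `[g] A` of the compact induction -/
noncomputable def gen (g : G) (A : Matrix ι ι E) : G → Matrix ι ι E :=
  fun x => D.fib.del (g⁻¹ * x) * A

/-- the relations -/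
def Rel : Submodule E (G → Matrix ι ι E) :=
  Submodule.span E {Z | ∃ j A, D.Pos j ∧ D.fib.Eqv A ∧ D.fib.Fin0 A ∧
    Z = D.fib.conv (D.kap j) A - A}

theorem I2_del_mem {x : G} (hx : x ∈ D.H) : D.fib.del x = D.lam x⁻¹ := by
  unfold Fib.del
  exact if_pos hx

theorem I2_del_not {x : G} (hx : x ∉ D.H) : D.fib.del x = 0 := by
  unfold Fib.del
  exact if_neg hx

theorem I2_rel {j : G} (hj : D.Pos j) (g : G) (A : Matrix ι ι E) :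
    (fun x => D.kap j (g⁻¹ * x) * A) - D.gen g A ∈ D.Rel := by
  have hd : D.fib.Ker D.fib.del := Fib.del_ker
  refine Submodule.subset_span ⟨j, D.gen g A, hj, hd.1.translate g⁻¹ A,
    hd.2.2.translate g⁻¹ A, ?_⟩
  congr 1
  funext x
  have h := Fib.conv_translate (D.kap_ker hj).2.1 hd.1 (Or.inr hd.2.2) g⁻¹ A x
  rw [Fib.conv_del (D.kap_ker hj).2.1] at h
  exact h.symm

theorem I2_kap_phi {j w : G} (hj : D.Pos j) (hw : ∃ h ∈ D.H, ∃ h' ∈ D.H, w = h * j * h') :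
    D.kap j w = D.phi w⁻¹ := by
  have h := D.phi_mul_kap (u := w⁻¹) hj hw ⟨1, D.P.one_mem, 1, D.H.one_mem, by simp⟩
  rwa [inv_mul_cancel, D.phi_one, Matrix.one_mul] at h

theorem I2_cell {j w : G} (hj : D.Pos j) (hw : ∃ h ∈ D.H, ∃ h' ∈ D.H, w = h * j * h') :
    ∃ p ∈ D.P, ∃ h ∈ D.H, w⁻¹ = p * h := by
  obtain ⟨c, hc, -, hp⟩ := D.cell_rep (u := w⁻¹) hj hw ⟨1, D.P.one_mem, 1, D.H.one_mem, by simp⟩
  exact ⟨_, hp, c⁻¹, D.H.inv_mem hc, by simp⟩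

theorem I2_dc {j j' a b : G} (hj : D.Pos j) (hj' : D.Pos j')
    (ha : ∃ h ∈ D.H, ∃ h' ∈ D.H, a = h * j * h') (hb : ∃ h ∈ D.H, ∃ h' ∈ D.H, b = h * j' * h') :
    ∃ h ∈ D.H, ∃ h' ∈ D.H, a * b = h * (j * j') * h' := by
  obtain ⟨h1, hh1, h2, hh2, rfl⟩ := ha
  obtain ⟨h3, hh3, h4, hh4, rfl⟩ := hb
  obtain ⟨c, hc, h', hh', e, -⟩ := D.mem_dc_mul hj hj' (D.H.mul_mem hh2 hh3)
  refine ⟨h1 * c, D.H.mul_mem hh1 hc, h' * h4, D.H.mul_mem hh' hh4, ?_⟩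
  calc h1 * j * h2 * (h3 * j' * h4) = h1 * (j * (h2 * h3) * j') * h4 := by group
    _ = h1 * c * (j * j') * (h' * h4) := by rw [e]; group

theorem I2_point (g : G) (T : Finset G) (j : G → G) {s : G} (hs : D.Pos s)
    (hj : ∀ y ∈ T, D.Pos (j y) ∧ ∃ h ∈ D.H, ∃ h' ∈ D.H, g⁻¹ * y = h * j y * h')
    (hj' : ∀ y ∈ T, D.Pos ((j y)⁻¹ * s))
    (hT : ∀ u, (∃ p ∈ D.P, ∃ h ∈ D.H, u * g = p * h) →
      ∃! y, y ∈ T ∧ ∃ p ∈ D.P, ∃ h ∈ D.H, u * y = p * h) (x : G) :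
    D.kap s (g⁻¹ * x) = ∑ y ∈ T, D.kap ((j y)⁻¹ * s) (y⁻¹ * x) * D.phi (y⁻¹ * g) := by
  have hdc : ∀ y ∈ T, ∀ b, (∃ h ∈ D.H, ∃ h' ∈ D.H, b = h * ((j y)⁻¹ * s) * h') →
      ∃ h ∈ D.H, ∃ h' ∈ D.H, g⁻¹ * y * b = h * s * h' := by
    intro y hy b hb
    have h := D.I2_dc (hj y hy).1 (hj' y hy) (hj y hy).2 hb
    rwa [mul_inv_cancel_left] at h
  by_cases hx : ∃ h ∈ D.H, ∃ h' ∈ D.H, g⁻¹ * x = h * s * h'
  · have hu := D.I2_cell hs hx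
    rw [mul_inv_rev, inv_inv] at hu
    obtain ⟨y, ⟨hy, p, hp, h, hh, e⟩, hun⟩ := hT x⁻¹ hu
    rw [Finset.sum_eq_single_of_mem y hy]
    · have hz := hdc y hy (h⁻¹ * ((j y)⁻¹ * s) * 1) ⟨h⁻¹, D.H.inv_mem hh, 1, D.H.one_mem, rfl⟩
      have hm := D.cell_unique (u := x⁻¹ * g) hs hz hx
        ⟨p * ((j y)⁻¹ * s), D.P.mul_mem hp (D.pos_mem _ (hj' y hy)), 1, D.H.one_mem, by
          calc x⁻¹ * g * (g⁻¹ * y * (h⁻¹ * ((j y)⁻¹ * s) * 1))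
              = x⁻¹ * y * (h⁻¹ * ((j y)⁻¹ * s)) := by group
            _ = p * ((j y)⁻¹ * s) * 1 := by rw [e]; group⟩
        ⟨1, D.P.one_mem, 1, D.H.one_mem, by group⟩
      have h1 := D.I2_kap_phi (w := y⁻¹ * x) (hj' y hy) ⟨h⁻¹, D.H.inv_mem hh, _, hm, by group⟩
      have h2 := D.I2_kap_phi hs hx
      have h3 := D.I2_kap_phi (hj y hy).1 (hj y hy).2
      have e' : x⁻¹ * g * (g⁻¹ * y) = x⁻¹ * y := by group
      have h4 := D.phi_mul_kap (u := x⁻¹ * g) (hj y hy).1 (hj y hy).2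
        ⟨p, hp, h, hh, by rw [e', e]⟩
      rw [mul_inv_rev, inv_inv] at h1 h2 h3
      rw [h1, h2, ← h3, ← h4, e']
    · intro y' hy' hne
      rw [D.kap_eq_zero, Matrix.zero_mul]
      intro hb
      have h1 := D.I2_cell (hj' y' hy') hb
      rw [mul_inv_rev, inv_inv] at h1
      exact hne (hun y' ⟨hy', h1⟩)
  · rw [D.kap_eq_zero hx]
    refine (Finset.sum_eq_zero fun y hy => ?_).symm
    rw [D.kap_eq_zero, Matrix.zero_mul]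
    intro hb
    have h := hdc y hy _ hb
    rw [mul_assoc, mul_inv_cancel_left] at h
    exact hx h

/-- decomposition of a function of finite support into generators -/
theorem eq_sum_gen {Y : G → Matrix ι ι E} (he : D.fib.Eqv Y) (T : Finset G)
    (hT : ∀ t ∈ T, ∀ t' ∈ T, t⁻¹ * t' ∈ D.H → t = t')
    (hs : ∀ x, Y x ≠ 0 → ∃ t ∈ T, t⁻¹ * x ∈ D.H) : Y = ∑ t ∈ T, D.gen t (Y t) := by
  funext x
  rw [Finset.sum_apply]
  by_cases hx : ∃ t ∈ T, t⁻¹ * x ∈ D.H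
  · obtain ⟨t, ht, htx⟩ := hx
    rw [Finset.sum_eq_single_of_mem t ht]
    · have h := he t _ htx
      rw [mul_inv_cancel_left] at h
      rw [h, gen, D.I2_del_mem htx]
      rfl
    · intro t' ht' hne
      rw [gen, D.I2_del_not, Matrix.zero_mul]
      intro h
      refine hne (hT t' ht' t ht ?_)
      have h1 := D.H.mul_mem h (D.H.inv_mem htx)
      rwa [mul_inv_rev, inv_inv, mul_assoc, mul_inv_cancel_left] at h1
  · have h0 : Y x = 0 := by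
      by_contra h
      exact hx (hs x h)
    rw [h0]
    refine (Finset.sum_eq_zero fun t ht => ?_).symm
    rw [gen, D.I2_del_not fun h => hx ⟨t, ht, h⟩, Matrix.zero_mul]

/-- a tiling of the cell of `g` -/
theorem tiling (g : G) (A : Matrix ι ι E) (T : Finset G) (j : G → G)
    (hj : ∀ y ∈ T, D.Pos (j y) ∧ ∃ h ∈ D.H, ∃ h' ∈ D.H, g⁻¹ * y = h * j y * h')
    (hT : ∀ u, (∃ p ∈ D.P, ∃ h ∈ D.H, u * g = p * h) →
      ∃! y, y ∈ T ∧ ∃ p ∈ D.P, ∃ h ∈ D.H, u * y = p * h) :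
    D.gen g A - ∑ y ∈ T, D.gen y (D.phi (y⁻¹ * g) * A) ∈ D.Rel := by
  obtain ⟨L, hL⟩ := ((Filter.eventually_all_finset T).2
    fun y hy => D.ev_pos (j y) (hj y hy).1).exists
  have hs := D.pos_pow D.pos_t L
  have h1 := D.I2_rel hs g A
  have h2 := D.Rel.sum_mem fun y (hy : y ∈ T) => D.I2_rel (hL y hy) y (D.phi (y⁻¹ * g) * A)
  have h3 : (fun x => D.kap (D.t ^ L) (g⁻¹ * x) * A) = ∑ y ∈ T,
      fun x => D.kap ((j y)⁻¹ * D.t ^ L) (y⁻¹ * x) * (D.phi (y⁻¹ * g) * A) := by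
    funext x
    rw [D.I2_point g T j hs hj hL hT x, Finset.sum_apply, Finset.sum_mul]
    exact Finset.sum_congr rfl fun y _ => Matrix.mul_assoc _ _ _
  rw [Finset.sum_sub_distrib, ← h3] at h2
  have h4 := D.Rel.sub_mem h2 h1
  rwa [sub_sub_sub_cancel_left] at h4

/-- small cells meeting the cell of `g` refine it -/
theorem key (g : G) : ∀ᶠ K : ℕ in Filter.atTop, ∀ y u,
    (∃ h ∈ D.H, ∃ h' ∈ D.H, y = h * D.t ^ K * h') → (∃ p ∈ D.P, ∃ h ∈ D.H, u * y = p * h) →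
    (∃ p ∈ D.P, ∃ h ∈ D.H, u * g = p * h) →
    ∃ j, D.Pos j ∧ ∃ h ∈ D.H, ∃ h' ∈ D.H, g⁻¹ * y = h * j * h' := by
  obtain ⟨T, hT⟩ := D.fin g
  have h1 : ∀ τ ∈ T, ∀ᶠ K : ℕ in Filter.atTop, ∀ p' ∈ D.P, τ⁻¹ * p' ∈ D.H →
      ∃ j, D.Pos j ∧ ∃ h ∈ D.H, ∃ h' ∈ D.H, p'⁻¹ * D.t ^ K = h * j * h' := by
    intro τ _
    by_cases hτ : ∃ p ∈ D.P, τ⁻¹ * p ∈ D.H
    · obtain ⟨p, hp, hτp⟩ := hτ
      filter_upwards [D.ev_P p⁻¹ (D.P.inv_mem hp)] with K hK p' _ hτp'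
      obtain ⟨j, hj, hh⟩ := hK
      exact ⟨j, hj, _, D.H.mul_mem (D.H.inv_mem hτp') hτp, _, hh, by group⟩
    · exact Filter.Eventually.of_forall fun K p' hp' h => absurd ⟨p', hp', h⟩ hτ
  filter_upwards [(Filter.eventually_all_finset T).2 h1] with K hK y u hy hu hg
  obtain ⟨c, hc, h2, huc⟩ := D.cell_rep (D.pos_pow D.pos_t K) hy hu
  obtain ⟨p, hp, h, hh, e⟩ := hg
  obtain ⟨τ, hτ, h3⟩ := hT c⁻¹ (D.H.inv_mem hc)
  have e1 : (u * c)⁻¹ * p = c⁻¹ * g * h⁻¹ := by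
    calc (u * c)⁻¹ * p = (u * c)⁻¹ * (p * h) * h⁻¹ := by group
      _ = c⁻¹ * g * h⁻¹ := by rw [← e]; group
  obtain ⟨j, hj, a, ha, b, hb, e2⟩ := hK τ hτ _ (D.P.mul_mem (D.P.inv_mem huc) hp) (by
    rw [e1, ← mul_assoc]
    exact D.H.mul_mem h3 (D.H.inv_mem hh))
  refine ⟨j, hj, h⁻¹ * a, D.H.mul_mem (D.H.inv_mem hh) ha, _, D.H.mul_mem hb h2, ?_⟩
  rw [e1] at e2
  calc g⁻¹ * y = h⁻¹ * ((c⁻¹ * g * h⁻¹)⁻¹ * D.t ^ K) * ((c * D.t ^ K)⁻¹ * y) := by group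
    _ = h⁻¹ * a * j * (b * ((c * D.t ^ K)⁻¹ * y)) := by rw [e2]; group

end Iw

end Pool.Agent.MP_4d0c14_b
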