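import Pool.Agent.MP_4d0c14_b.I2

/-! The presentation of the parabolic induction. -/

namespace Pool.Agent.MP_4d0c14_b

open scoped Matrix

namespace Iw

variable {G E ι : Type} [Group G] [Field E] [Fintype ι] [DecidableEq ι] (D : Iw G E ι)

/-- `u` lies in the cell of `g` -/
def I3_cell (g u : G) : Prop := ∃ p ∈ D.P, ∃ h ∈ D.H, u * g = p * h

theorem I3_self (y : G) : D.I3_cell y y⁻¹ := ⟨1, one_mem _, 1, one_mem _, by simp⟩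

theorem I3_up {a y j u : G} (hj : D.Pos j) (hy : ∃ h ∈ D.H, ∃ h' ∈ D.H, a⁻¹ * y = h * j * h')
    (hu : D.I3_cell y u) : D.I3_cell a u := by
  obtain ⟨c, hc, -, h⟩ := D.cell_rep (u := u * a) hj hy
    (by rwa [mul_assoc, mul_inv_cancel_left])
  exact ⟨_, h, c⁻¹, inv_mem hc, by rw [mul_inv_cancel_right]⟩

theorem I3_reps {j : G} (hj : D.Pos j) : ∃ R : Finset G,
    (∀ s ∈ R, ∃ h ∈ D.H, ∃ h' ∈ D.H, s = h * j * h') ∧
    ∀ a u, D.I3_cell a u → ∃! s, s ∈ R ∧ D.I3_cell (a * s) u := by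
  classical
  obtain ⟨T, hT⟩ := D.fin j
  obtain ⟨R, h1, h2, h3⟩ := Fib.exists_reps D.H
    (T.filter fun s => ∃ h ∈ D.H, ∃ h' ∈ D.H, s = h * j * h')
  have h4 := fun s (hs : s ∈ R) => (Finset.mem_filter.1 (h1 hs)).2
  refine ⟨R, h4, fun a u ⟨p, hp, h, hh, e⟩ => ?_⟩
  obtain ⟨s, hs, h5⟩ := hT h⁻¹ (inv_mem hh)
  obtain ⟨s', hs', h6⟩ := h3 s (Finset.mem_filter.2 ⟨hs, h⁻¹, inv_mem hh, _, inv_mem h5, by group⟩)
  have h7 : D.I3_cell (a * s') u := ⟨p * j, mul_mem hp (D.pos_mem j hj), _,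
    inv_mem (mul_mem h6 h5), by rw [← mul_assoc, e]; group⟩
  refine ⟨s', ⟨hs', h7⟩, fun y hy => h2 y hy.1 s' hs' (D.cell_unique (u := u * a) hj (h4 y hy.1)
    (h4 s' hs') ?_ ?_)⟩
  · rw [mul_assoc]; exact hy.2
  · rw [mul_assoc]; exact h7

theorem I3_tile (T : Finset G) : ∃ W : Finset G, ∀ a ∈ T,
    (∀ y ∈ W, D.I3_cell a y⁻¹ → ∃ j, D.Pos j ∧ ∃ h ∈ D.H, ∃ h' ∈ D.H, a⁻¹ * y = h * j * h') ∧
    ∀ u, D.I3_cell a u → ∃! y, (y ∈ W ∧ D.I3_cell a y⁻¹) ∧ D.I3_cell y u := by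
  classical
  obtain ⟨K, hK⟩ := ((Filter.eventually_all_finset T).2 fun a₀ _ =>
    (Filter.eventually_all_finset T).2 fun a _ => D.key (a₀⁻¹ * a)).exists
  obtain ⟨R, r1, r2⟩ := D.I3_reps (D.pos_pow D.pos_t K)
  have f1 : ∀ a₀ ∈ T, ∀ a ∈ T, ∀ y u, a₀⁻¹ * y ∈ R → D.I3_cell y u → D.I3_cell a u →
      ∃ j, D.Pos j ∧ ∃ h ∈ D.H, ∃ h' ∈ D.H, a⁻¹ * y = h * j * h' := by
    intro a₀ h₀ a ha y u h1 h2 h3
    have := hK a₀ h₀ a ha (a₀⁻¹ * y) (u * a₀) (r1 _ h1) (by rwa [mul_assoc, mul_inv_cancel_left])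
      (by rwa [mul_assoc, mul_inv_cancel_left])
    rwa [mul_inv_rev, inv_inv, mul_assoc, mul_inv_cancel_left] at this
  have f2 : ∀ a₀ ∈ T, ∀ y u, a₀⁻¹ * y ∈ R → D.I3_cell y u → ∀ a ∈ T,
      (D.I3_cell a u ↔ D.I3_cell a y⁻¹) := by
    intro a₀ h₀ y u h1 h2 a ha
    constructor <;> intro h3
    · obtain ⟨j, hj, h4⟩ := f1 a₀ h₀ a ha y u h1 h2 h3
      exact D.I3_up hj h4 (D.I3_self y)
    · obtain ⟨j, hj, h4⟩ := f1 a₀ h₀ a ha y y⁻¹ h1 (D.I3_self y) h3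
      exact D.I3_up hj h4 h2
  obtain ⟨c, c1, c2⟩ : ∃ c : G → G, (∀ a ∈ T, ∀ u, D.I3_cell a u → c u ∈ T ∧ D.I3_cell (c u) u) ∧
      ∀ u u', (∀ a ∈ T, D.I3_cell a u ↔ D.I3_cell a u') → c u = c u' :=
    ⟨fun u => Classical.epsilon fun a => a ∈ T ∧ D.I3_cell a u,
      fun a ha u h => Classical.epsilon_spec (p := fun a => a ∈ T ∧ D.I3_cell a u) ⟨a, ha, h⟩,
      fun u u' h => congrArg _ (funext fun a => propext (and_congr_right (h a)))⟩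
  refine ⟨((T ×ˢ R).image fun x => x.1 * x.2).filter fun y => c y⁻¹ ∈ T ∧ (c y⁻¹)⁻¹ * y ∈ R,
    fun a ha => ⟨fun y hy h => ?_, fun u hu => ?_⟩⟩
  · obtain ⟨-, h1, h2⟩ := Finset.mem_filter.1 hy
    exact f1 _ h1 a ha y _ h2 (D.I3_self y) h
  · obtain ⟨h1, h2⟩ := c1 a ha u hu
    obtain ⟨s, ⟨h3, h4⟩, h5⟩ := r2 _ _ h2
    have h6 := f2 _ h1 (c u * s) u (by rwa [inv_mul_cancel_left]) h4
    have h7 := c2 _ _ h6
    refine ⟨c u * s, ⟨⟨Finset.mem_filter.2 ⟨Finset.mem_image.2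
      ⟨(c u, s), Finset.mem_product.2 ⟨h1, h3⟩, rfl⟩, ?_⟩, (h6 a ha).1 hu⟩, h4⟩, fun y hy => ?_⟩
    · rw [← h7, inv_mul_cancel_left]
      exact ⟨h1, h3⟩
    · obtain ⟨-, h8, h9⟩ := Finset.mem_filter.1 hy.1.1
      rw [← c2 _ _ (f2 _ h8 y u h9 hy.2)] at h9
      rw [← h5 _ ⟨h9, by rw [mul_inv_cancel_left]; exact hy.2⟩, mul_inv_cancel_left]

/-- the span of the images of the generators -/
def I3_R {d : ℕ} (γ : Fin d → G) : Submodule E (G → Matrix ι ι E) where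
  carrier := {Y | ∃ A : Fin d → G → Matrix ι ι E, (∀ i, D.fib.Eqv (A i) ∧ D.fib.Fin0 (A i)) ∧
    Y = ∑ i, D.fib.conv (D.kap (γ i) - D.fib.del) (A i)}
  add_mem' := by
    rintro _ _ ⟨A, hA, rfl⟩ ⟨B, hB, rfl⟩
    refine ⟨A + B, fun i => ⟨(hA i).1.add (hB i).1, (hA i).2.add (hB i).2⟩, ?_⟩
    rw [← Finset.sum_add_distrib]
    exact Finset.sum_congr rfl fun i _ => (Fib.conv_add_right (Or.inr ⟨(hA i).2, (hB i).2⟩)).symm
  zero_mem' := ⟨0, fun _ => ⟨Fib.Eqv.zero, Fib.Fin0.zero⟩,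
    (Finset.sum_eq_zero fun _ _ => Fib.conv_zero_right).symm⟩
  smul_mem' := by
    rintro c _ ⟨A, hA, rfl⟩
    refine ⟨c • A, fun i => ⟨(hA i).1.smul c, (hA i).2.smul c⟩, ?_⟩
    rw [Finset.smul_sum]
    exact Finset.sum_congr rfl fun i _ => (Fib.conv_smul_right c).symm

theorem I3_conv {a a' : G} (ha : D.Pos a) (ha' : D.Pos a') {A : G → Matrix ι ι E}
    (h1 : D.fib.Eqv A) (h2 : D.fib.Fin0 A) :
    D.fib.conv (D.kap (a * a')) A = D.fib.conv (D.kap a') (D.fib.conv (D.kap a) A) ∧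
      D.fib.Eqv (D.fib.conv (D.kap a) A) ∧ D.fib.Fin0 (D.fib.conv (D.kap a) A) :=
  ⟨by rw [Fib.conv_assoc (D.kap_ker ha').2.1 (D.kap_ker ha) h1 (Or.inr h2), D.conv_kap ha' ha],
    Fib.conv_eqv (D.kap_ker ha).1 (Or.inr h2), Fib.conv_fin0 (D.kap_ker ha).2.2 h2⟩

theorem I3_closure {d : ℕ} {γ : Fin d → G} (hγ : ∀ i, D.Pos (γ i)) {a : G}
    (ha : a ∈ Submonoid.closure (Set.range γ)) : D.Pos a ∧ ∀ A, D.fib.Eqv A → D.fib.Fin0 A →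
      D.fib.conv (D.kap a) A - A ∈ D.I3_R γ := by
  induction ha using Submonoid.closure_induction with
  | mem x hx =>
    obtain ⟨i, rfl⟩ := hx
    refine ⟨hγ i, fun A h1 h2 => ⟨Pi.single i A, fun k => ?_, ?_⟩⟩
    · rcases eq_or_ne k i with rfl | h
      · rw [Pi.single_eq_same]; exact ⟨h1, h2⟩
      · rw [Pi.single_eq_of_ne h]; exact ⟨Fib.Eqv.zero, Fib.Fin0.zero⟩
    · rw [Finset.sum_eq_single i (fun k _ h => by rw [Pi.single_eq_of_ne h, Fib.conv_zero_right])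
        (by simp), Pi.single_eq_same, Fib.conv_sub_left (Or.inr h2), Fib.del_conv h1]
  | one =>
    refine ⟨D.pos_one, fun A h1 _ => ?_⟩
    rw [D.kap_one, Fib.del_conv h1, sub_self]
    exact zero_mem _
  | mul x y _ _ hx hy =>
    refine ⟨D.pos_mul _ _ hx.1 hy.1, fun A h1 h2 => ?_⟩
    obtain ⟨h3, h4, h5⟩ := D.I3_conv hx.1 hy.1 h1 h2
    rw [h3, ← sub_add_sub_cancel _ (D.fib.conv (D.kap x) A)]
    exact add_mem (hy.2 _ h4 h5) (hx.2 _ h1 h2)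

theorem mem_rel {Y : G → Matrix ι ι E} (he : D.fib.Eqv Y) (hf : D.fib.Fin0 Y)
    (h0 : ∀ u, D.pmap Y u = 0) : Y ∈ D.Rel := by
  classical
  obtain ⟨T₀, hT₀⟩ := hf
  obtain ⟨T, -, t1, t2⟩ := Fib.exists_reps D.H T₀
  have hs : ∀ x, Y x ≠ 0 → ∃ t ∈ T, t⁻¹ * x ∈ D.H := fun x hx => by
    obtain ⟨t, ht, h1⟩ := hT₀ x hx
    obtain ⟨t', ht', h2⟩ := t2 t ht
    exact ⟨t', ht', by simpa [mul_assoc] using mul_mem h2 h1⟩
  have h1 : ∀ u, ∑ a ∈ T, D.phi (u * a) * Y a = 0 := fun u => by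
    rw [← h0 u, D.pmap_eq_conv, Fib.conv_eq_sum (fun x h hh => by
      rw [mul_inv_rev]; exact D.phi_right (inv_mem hh) _) he _ T t1
      fun g hg => hs g fun e => hg (by rw [e, mul_zero])]
    simp
  obtain ⟨W, hW⟩ := D.I3_tile T
  have h2 : ∀ a ∈ T, D.gen a (Y a) - ∑ y ∈ W, D.gen y (D.phi (y⁻¹ * a) * Y a) ∈ D.Rel := by
    intro a ha
    obtain ⟨w1, w2⟩ := hW a ha
    choose! j hj using w1
    rw [← Finset.sum_filter_of_ne (p := fun y => D.I3_cell a y⁻¹) fun y _ h => not_not.1 fun e =>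
      h (funext fun x => by simp [gen, D.phi_eq_zero e])]
    refine D.tiling a _ _ j (fun y hy => hj y (Finset.mem_filter.1 hy).1 (Finset.mem_filter.1 hy).2)
      fun u hu => ?_
    simp only [Finset.mem_filter]
    exact w2 u hu
  have h3 := Submodule.sum_mem _ h2
  rw [Finset.sum_sub_distrib, ← D.eq_sum_gen he T t1 hs, Finset.sum_comm,
    Finset.sum_eq_zero fun y _ => funext fun x => ?_, sub_zero] at h3
  · exact h3
  · simp only [Finset.sum_apply, gen]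
    rw [← Finset.mul_sum, h1, mul_zero]
    rfl

theorem rel_gen {d : ℕ} {γ : Fin d → G} (hγ : D.Gen γ) {Y : G → Matrix ι ι E} (hY : Y ∈ D.Rel) :
    ∃ A : Fin d → G → Matrix ι ι E, (∀ i, D.fib.Eqv (A i) ∧ D.fib.Fin0 (A i)) ∧
      Y = ∑ i, D.fib.conv (D.kap (γ i) - D.fib.del) (A i) := by
  refine (Submodule.span_le (p := D.I3_R γ)).2 ?_ hY
  rintro _ ⟨j, A, hj, h1, h2, rfl⟩
  obtain ⟨a, ha, b, hb, h3⟩ := hγ.2 j hj
  obtain ⟨a1, a2⟩ := D.I3_closure hγ.1 ha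
  obtain ⟨b1, b2⟩ := D.I3_closure hγ.1 hb
  obtain ⟨h4, h5, h6⟩ := D.I3_conv hj a1 h1 h2
  have h7 := sub_mem (b2 A h1 h2) (a2 _ h5 h6)
  rw [← D.kap_congr b1 (D.pos_mul _ _ hj a1) h3, h4, sub_sub_sub_cancel_left] at h7
  exact h7

end Iw

end Pool.Agent.MP_4d0c14_b
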