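import Mathlib

/-! A generator of `F / ℚ_p` whose minimal polynomial has integer coefficients and real roots. -/

namespace Pool.Agent.MP_4d0c14_b

open Polynomial

open Filter in
lemma L1_alt (M : ℕ) (hM : 0 < M) (f : ℕ) (c : ℕ → ℤ) :
    ∃ P : ℤ[X], P.Monic ∧ P.natDegree = f ∧ (∀ i < f, (M : ℤ) ∣ P.coeff i - c i) ∧
      ∃ y : ℕ → ℝ, (∀ i j, i < j → j ≤ f → y i < y j) ∧
        ∀ i ≤ f, 0 < (-1) ^ (f + i) * aeval (y i) P := by
  induction f generalizing c with
  | zero =>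
    refine ⟨1, monic_one, natDegree_one, fun i hi => absurd hi (Nat.not_lt_zero i), fun _ => 0,
      fun i j h1 h2 => by omega, fun i hi => ?_⟩
    obtain rfl := Nat.le_zero.1 hi
    simp
  | succ f ih =>
    obtain ⟨Q, h1, h2, h3, y, h4, h5⟩ := ih fun i => c (i + 1)
    have hN : ∀ᶠ N : ℕ in atTop, ∀ i ∈ Finset.range (f + 1),
        |(c 0 : ℝ)| < ((N : ℝ) * M - y i) * ((-1) ^ (f + i) * aeval (y i) Q) := by
      refine (Finset.eventually_all _).2 fun i hi => ?_
      refine Tendsto.eventually_gt_atTop (Tendsto.atTop_mul_const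
        (h5 i (Nat.lt_succ_iff.1 (Finset.mem_range.1 hi))) ?_) _
      exact tendsto_atTop_add_const_right _ _
        (tendsto_natCast_atTop_atTop.atTop_mul_const (by exact_mod_cast hM))
    obtain ⟨N, hN⟩ := hN.exists
    have h6 : ((X - C ((N : ℤ) * M)) * Q).Monic := (monic_X_sub_C _).mul h1
    have h7 : ((X - C ((N : ℤ) * M)) * Q).natDegree = f + 1 := by
      rw [(monic_X_sub_C _).natDegree_mul h1, natDegree_X_sub_C, h2, add_comm]
    have h8 : ((X - C ((N : ℤ) * M)) * Q + C (c 0)).natDegree = f + 1 := by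
      rw [natDegree_add_C, h7]
    have h9 : ((X - C ((N : ℤ) * M)) * Q + C (c 0)).Monic :=
      h6.add_of_left (degree_C_le.trans_lt (natDegree_pos_iff_degree_pos.1 (by omega)))
    have h10 := ((((X - C ((N : ℤ) * M)) * Q + C (c 0)).map
      (algebraMap ℤ ℝ)).tendsto_atTop_of_leadingCoeff_nonneg (by
        rw [h9.degree_map]
        exact natDegree_pos_iff_degree_pos.1 (by omega)) (by
        rw [(h9.map _).leadingCoeff]
        exact zero_le_one)).eventually_gt_atTop 0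
    obtain ⟨z, hz1, hz2⟩ := (h10.and (eventually_gt_atTop (y f))).exists
    rw [eval_map_algebraMap] at hz1
    refine ⟨_, h9, h8, fun i hi => ?_, fun i => if i ≤ f then y i else z, fun i j hij hj => ?_,
      fun i hi => ?_⟩
    · rw [sub_mul, coeff_add, coeff_sub, coeff_C_mul]
      cases i with
      | zero =>
        rw [coeff_X_mul_zero, coeff_C_zero]
        exact ⟨-N * Q.coeff 0, by ring⟩
      | succ i =>
        obtain ⟨t, ht⟩ := h3 i (by omega)
        rw [coeff_X_mul, coeff_C_succ]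
        exact ⟨t - N * Q.coeff (i + 1), by linear_combination ht⟩
    · simp only [if_pos (by omega : i ≤ f)]
      split_ifs with h
      · exact h4 i j hij h
      · rcases (by omega : i < f ∨ i = f) with h' | rfl
        · exact (h4 i f h' le_rfl).trans hz2
        · exact hz2
    · by_cases h : i ≤ f
      · have e := hN i (Finset.mem_range.2 (by omega))
        simp only [if_pos h]
        rw [map_add, map_mul, map_sub, aeval_X, aeval_C, aeval_C, eq_intCast, eq_intCast,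
          Int.cast_mul, Int.cast_natCast, Int.cast_natCast]
        have e2 : |(-1 : ℝ) ^ (f + i) * c 0| = |(c 0 : ℝ)| := by simp [abs_mul]
        have e3 := le_abs_self ((-1 : ℝ) ^ (f + i) * c 0)
        rw [show f + 1 + i = f + i + 1 by ring, pow_succ]
        linarith
      · obtain rfl : i = f + 1 := by omega
        simp only [if_neg h]
        rwa [← two_mul, pow_mul, neg_one_sq, one_pow, one_mul]

theorem exists_real_rooted (f : ℕ) (c : ℕ → ℤ) (M : ℕ) (hM : 0 < M) :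
    ∃ P : ℤ[X], P.Monic ∧ P.natDegree = f ∧ (∀ i < f, (M : ℤ) ∣ P.coeff i - c i) ∧
      ∃ x : Fin f → ℝ, Function.Injective x ∧ ∀ i, aeval (x i) P = 0 := by
  obtain ⟨P, h1, h2, h3, y, h4, h5⟩ := L1_alt M hM f c
  have key : ∀ i : Fin f, ∃ x ∈ Set.Ioo (y i) (y (i + 1)), aeval x P = 0 := fun i => by
    have a1 := h5 i i.2.le
    have a2 := h5 (i + 1) i.2
    have hc : Continuous fun t : ℝ => (-1 : ℝ) ^ (f + (i + 1)) * aeval t P :=
      continuous_const.mul P.continuous_aeval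
    obtain ⟨x, hx, e⟩ := intermediate_value_Ioo (h4 i (i + 1) (Nat.lt_succ_self _) i.2).le
      hc.continuousOn (show (0 : ℝ) ∈ _ from ⟨by
        rw [← add_assoc, pow_succ]
        linarith, a2⟩)
    exact ⟨x, hx, (mul_eq_zero.1 e).resolve_left (pow_ne_zero _ (by norm_num))⟩
  choose x hx hx' using key
  refine ⟨P, h1, h2, h3, x, StrictMono.injective fun i j hij => ?_, hx'⟩
  refine (hx i).2.trans (lt_of_le_of_lt ?_ (hx j).1)
  rcases (Nat.succ_le_of_lt hij : (i : ℕ) + 1 ≤ j).lt_or_eq with h | h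
  · exact (h4 _ _ h j.2.le).le
  · exact (congrArg y h).le

section
variable {F : Type} [NontriviallyNormedField F] [IsUltrametricDist F]

lemma L1_pow {x y : F} (hx : ‖x‖ ≤ 1) (hy : ‖y‖ ≤ 1) (i : ℕ) : ‖x ^ i - y ^ i‖ ≤ ‖x - y‖ := by
  induction i with
  | zero => simp
  | succ i ih =>
    rw [show x ^ (i + 1) - y ^ (i + 1) = x * (x ^ i - y ^ i) + (x - y) * y ^ i by ring]
    refine (IsUltrametricDist.norm_add_le_max _ _).trans (max_le ?_ ?_)
    · rw [norm_mul]
      exact (mul_le_of_le_one_left (norm_nonneg _) hx).trans ih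
    · rw [norm_mul, norm_pow]
      exact mul_le_of_le_one_right (norm_nonneg _) (pow_le_one₀ (norm_nonneg _) hy)

lemma L1_eval {Q : F[X]} {δ : ℝ} (h : ∀ i, ‖Q.coeff i‖ ≤ δ) {x y : F} (hx : ‖x‖ ≤ 1)
    (hy : ‖y‖ ≤ 1) : ‖Q.eval x‖ ≤ δ ∧ ‖Q.eval x - Q.eval y‖ ≤ δ * ‖x - y‖ := by
  have h0 : 0 ≤ δ := (norm_nonneg _).trans (h 0)
  rw [eval_eq_sum_range, eval_eq_sum_range, ← Finset.sum_sub_distrib]
  refine ⟨IsUltrametricDist.norm_sum_le_of_forall_le_of_nonneg h0 fun i _ => ?_,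
    IsUltrametricDist.norm_sum_le_of_forall_le_of_nonneg (by positivity) fun i _ => ?_⟩
  · rw [norm_mul, norm_pow]
    exact (mul_le_of_le_one_right (norm_nonneg _) (pow_le_one₀ (norm_nonneg _) hx)).trans (h i)
  · rw [← mul_sub, norm_mul]
    exact mul_le_mul (h i) (L1_pow hx hy i) (norm_nonneg _) h0

lemma L1_near {x y : F} (hy : ‖y‖ ≤ 1) (h : ‖x - y‖ ≤ 1) : ‖x‖ ≤ 1 := by
  rw [← sub_add_cancel x y]
  exact (IsUltrametricDist.norm_add_le_max _ _).trans (max_le h hy)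

end

theorem exists_root_near {F : Type} [NontriviallyNormedField F] [IsUltrametricDist F]
    [CompleteSpace F] (P₀ : F[X]) (hP₀ : ∀ i, ‖P₀.coeff i‖ ≤ 1) (θ₀ : F) (hθ₀ : ‖θ₀‖ ≤ 1)
    (h0 : P₀.eval θ₀ = 0) (h1 : P₀.derivative.eval θ₀ ≠ 0) {ε : ℝ} (hε : 0 < ε) :
    ∃ δ : ℝ, 0 < δ ∧ ∀ P : F[X], (∀ i, ‖(P - P₀).coeff i‖ ≤ δ) →
      ∃ θ : F, ‖θ - θ₀‖ ≤ ε ∧ P.eval θ = 0 := by
  set d := P₀.derivative.eval θ₀ with hd
  have hd0 : 0 < ‖d‖ := norm_pos_iff.2 h1
  obtain ⟨s, hs, ha⟩ := (P₀.hasStrictDerivAt θ₀).hasStrictFDerivAt.approximates_deriv_on_nhds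
    (c := ‖d‖₊ / 4) (Or.inr (by have := nnnorm_pos.2 h1; positivity))
  obtain ⟨r, hr, hrs⟩ := Metric.nhds_basis_closedBall.mem_iff.1 hs
  have hρ : 0 < min r (min ε 1) := by positivity
  set ρ := min r (min ε 1) with hρd
  have hρ1 : ρ ≤ 1 := (min_le_right _ _).trans (min_le_right _ _)
  refine ⟨‖d‖ / 4 * ρ, by positivity, fun P hP => ?_⟩
  have hb : ∀ x ∈ Metric.closedBall θ₀ ρ, ‖x‖ ≤ 1 := fun x hx =>
    L1_near hθ₀ ((mem_closedBall_iff_norm.1 hx).trans hρ1)
  have h2 : ApproximatesLinearOn (fun x => P.eval x) (ContinuousLinearMap.toSpanSingleton F d)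
      (Metric.closedBall θ₀ ρ) (‖d‖₊ / 2) := fun x hx y hy => by
    have a1 := ha x (hrs (Metric.closedBall_subset_closedBall (min_le_left _ _) hx)) y
      (hrs (Metric.closedBall_subset_closedBall (min_le_left _ _) hy))
    have a2 := (L1_eval hP (hb x hx) (hb y hy)).2
    have a3 : ‖d‖ / 4 * ρ * ‖x - y‖ ≤ ‖d‖ / 4 * ‖x - y‖ := by
      gcongr
      exact mul_le_of_le_one_right (by positivity) hρ1
    have a4 := norm_add_le (P₀.eval x - P₀.eval y - ContinuousLinearMap.toSpanSingleton F d (x - y))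
      ((P - P₀).eval x - (P - P₀).eval y)
    rw [show P₀.eval x - P₀.eval y - ContinuousLinearMap.toSpanSingleton F d (x - y) +
      ((P - P₀).eval x - (P - P₀).eval y) =
        P.eval x - P.eval y - ContinuousLinearMap.toSpanSingleton F d (x - y) by
      simp only [eval_sub]; ring] at a4
    push_cast at a1 ⊢
    linarith
  obtain ⟨θ, hθ, e⟩ := h2.surjOn_closedBall_of_nonlinearRightInverse
    ⟨fun y => y / d, ‖d‖₊⁻¹, fun y => by simp [div_eq_inv_mul], fun y => by simp [h1]⟩ hρ.le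
    subset_rfl (show (0 : F) ∈ _ by
      have a1 := (L1_eval hP hθ₀ hθ₀).1
      rw [eval_sub, h0, sub_zero] at a1
      rw [mem_closedBall_iff_norm', sub_zero]
      refine a1.trans (mul_le_mul_of_nonneg_right ?_ hρ.le)
      push_cast
      rw [inv_inv]
      linarith)
  exact ⟨θ, (mem_closedBall_iff_norm.1 hθ).trans ((min_le_right _ _).trans (min_le_left _ _)), e⟩

open IntermediateField in
theorem exists_theta (p : ℕ) [Fact p.Prime] (F : Type) [NontriviallyNormedField F]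
    [IsUltrametricDist F] [NormedAlgebra ℚ_[p] F] [FiniteDimensional ℚ_[p] F] :
    ∃ (θ : F) (P : ℤ[X]), ‖θ‖ ≤ 1 ∧ P.Monic ∧ P.natDegree = Module.finrank ℚ_[p] F ∧
      aeval θ P = 0 ∧
      LinearIndependent ℚ_[p] (fun i : Fin (Module.finrank ℚ_[p] F) => θ ^ (i : ℕ)) ∧
      ∃ x : Fin (Module.finrank ℚ_[p] F) → ℝ, Function.Injective x ∧ ∀ i, aeval (x i) P = 0 := by
  have := FiniteDimensional.complete ℚ_[p] F
  obtain ⟨θ₀, h1, h2⟩ : ∃ θ₀ : F, ‖θ₀‖ ≤ 1 ∧ ℚ_[p]⟮θ₀⟯ = ⊤ := by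
    obtain ⟨α, hα⟩ := Field.exists_primitive_element ℚ_[p] F
    obtain ⟨c, hc0, hc⟩ := NormedField.exists_norm_lt ℚ_[p] (r := (‖α‖ + 1)⁻¹) (by positivity)
    refine ⟨c • α, ?_, ?_⟩
    · rw [norm_smul]
      refine (mul_le_mul hc.le (le_add_of_nonneg_right zero_le_one) (norm_nonneg _)
        (by positivity)).trans (inv_mul_cancel₀ (by positivity)).le
    · rw [eq_top_iff, ← hα, adjoin_simple_le_iff]
      have := smul_mem _ (mem_adjoin_simple_self ℚ_[p] (c • α)) (x := c⁻¹)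
      rwa [inv_smul_smul₀ (norm_pos_iff.1 hc0)] at this
  have hn := (Field.primitive_element_iff_minpoly_natDegree_eq _ _).1 h2
  have hm := minpoly.monic (Algebra.IsIntegral.isIntegral (R := ℚ_[p]) θ₀)
  have h3 : ∀ i, ‖(minpoly ℚ_[p] θ₀).coeff i‖ ≤ 1 := (spectralValue_le_one_iff hm).1
    ((NormedAlgebra.norm_eq_spectralNorm ℚ_[p] θ₀).symm.trans_le h1)
  have h4 : LinearIndependent ℚ_[p] (fun i : Fin (Module.finrank ℚ_[p] F) => θ₀ ^ (i : ℕ)) :=
    hn ▸ linearIndependent_pow θ₀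
  have h5 : ∀ᶠ θ in nhds θ₀,
      LinearIndependent ℚ_[p] (fun i : Fin (Module.finrank ℚ_[p] F) => θ ^ (i : ℕ)) :=
    ((by fun_prop : Continuous fun (θ : F) (i : Fin (Module.finrank ℚ_[p] F)) =>
      θ ^ (i : ℕ)).tendsto θ₀).eventually h4.eventually
  obtain ⟨ε, hε, h6⟩ := Metric.nhds_basis_closedBall.mem_iff.1 h5
  obtain ⟨δ, hδ, h7⟩ := exists_root_near ((minpoly ℚ_[p] θ₀).map (algebraMap ℚ_[p] F))
    (fun i => by rw [coeff_map, norm_algebraMap']; exact h3 i) θ₀ h1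
    (by rw [eval_map_algebraMap, minpoly.aeval])
    (by
      rw [derivative_map, eval_map_algebraMap]
      exact (Algebra.IsSeparable.isSeparable ℚ_[p] θ₀).aeval_derivative_ne_zero (minpoly.aeval _ _))
    (lt_min hε one_pos)
  obtain ⟨N, hN⟩ := PadicInt.exists_pow_neg_lt p hδ
  choose c hc using fun i => PadicInt.denseRange_intCast.exists_dist_lt
    (⟨_, h3 i⟩ : ℤ_[p]) hδ
  obtain ⟨P, a1, a2, a3, a4⟩ := exists_real_rooted (Module.finrank ℚ_[p] F) c (p ^ N)
    (pow_pos (Fact.out : p.Prime).pos N)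
  obtain ⟨θ, b1, b2⟩ := h7 (P.map (algebraMap ℤ F)) fun i => by
    have e : (P.map (algebraMap ℤ F) - (minpoly ℚ_[p] θ₀).map (algebraMap ℚ_[p] F)).coeff i =
        algebraMap ℚ_[p] F (P.coeff i - (minpoly ℚ_[p] θ₀).coeff i) := by
      simp
    rw [e, norm_algebraMap']
    rcases lt_trichotomy i (Module.finrank ℚ_[p] F) with h | h | h
    · have c1 : ‖((P.coeff i - c i : ℤ) : ℚ_[p])‖ ≤ δ :=
        ((Padic.norm_int_le_pow_iff_dvd _ N).2 (by exact_mod_cast a3 i h)).trans hN.le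
      have c2 : ‖(c i : ℚ_[p]) - (minpoly ℚ_[p] θ₀).coeff i‖ ≤ δ := by
        have := (hc i).le
        rw [dist_comm, dist_eq_norm, PadicInt.norm_def] at this
        simpa using this
      rw [← sub_add_sub_cancel _ (c i : ℚ_[p]), ← Int.cast_sub]
      exact (IsUltrametricDist.norm_add_le_max _ _).trans (max_le c1 c2)
    · have c1 : P.coeff i = 1 := by rw [h, ← a2]; exact a1.coeff_natDegree
      have c2 : (minpoly ℚ_[p] θ₀).coeff i = 1 := by rw [h, ← hn]; exact hm.coeff_natDegree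
      simp [c1, c2, hδ.le]
    · rw [coeff_eq_zero_of_natDegree_lt (a2.trans_lt h),
        coeff_eq_zero_of_natDegree_lt (hn.trans_lt h)]
      simp [hδ.le]
  exact ⟨θ, P, L1_near h1 (b1.trans (min_le_right _ _)), a1, a2, by rwa [← eval_map_algebraMap],
    h6 (mem_closedBall_iff_norm.2 (b1.trans (min_le_left _ _))), a4⟩

end Pool.Agent.MP_4d0c14_b
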