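import Pool.Agent.MP_4d0c14_b.Lat
import Pool.Agent.MP_4d0c14_b.L1

/-! Existence of an order with a positive involution. -/

namespace Pool.Agent.MP_4d0c14_b

theorem exists_sqrt_neg (p : ℕ) [Fact p.Prime] : ∃ δ : ℤ_[p], δ ^ 2 = 1 - 8 * p := by
  have h2 : (0 : ℝ) < ‖(2 : ℤ_[p])‖ := norm_pos_iff.2 two_ne_zero
  have h2' : ‖(2 : ℤ_[p])‖ ≤ 1 := PadicInt.norm_le_one _
  have hp : ‖(p : ℤ_[p])‖ < 1 := by
    rw [PadicInt.norm_p]
    exact inv_lt_one_of_one_lt₀ (by exact_mod_cast (Fact.out : p.Prime).one_lt)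
  obtain ⟨z, hz, -⟩ := hensels_lemma (p := p) (R := ℤ_[p])
    (F := Polynomial.X ^ 2 - Polynomial.C (1 - 8 * (p : ℤ_[p]))) (a := 1) (by
      have e1 : Polynomial.aeval (1 : ℤ_[p])
          (Polynomial.X ^ 2 - Polynomial.C (1 - 8 * (p : ℤ_[p]))) = 2 * 2 * (2 * p) := by
        simp only [map_sub, map_pow, Polynomial.aeval_X, Polynomial.aeval_C, Algebra.algebraMap_self,
          RingHom.id_apply]
        ring
      have e2 : Polynomial.aeval (1 : ℤ_[p]) (Polynomial.derivative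
          (Polynomial.X ^ 2 - Polynomial.C (1 - 8 * (p : ℤ_[p])))) = 2 := by
        rw [Polynomial.derivative_sub, Polynomial.derivative_C, sub_zero,
          Polynomial.derivative_X_pow]
        simp
      rw [e1, e2, norm_mul, norm_mul, norm_mul, pow_two]
      have h3 : ‖(2 : ℤ_[p])‖ * ‖(p : ℤ_[p])‖ < 1 :=
        mul_lt_one_of_nonneg_of_lt_one_right h2' (norm_nonneg _) hp
      have h4 := mul_pos h2 h2
      nlinarith)
  refine ⟨z, ?_⟩
  simp only [map_sub, map_pow, Polynomial.aeval_X, Polynomial.aeval_C, Algebra.algebraMap_self,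
    RingHom.id_apply] at hz
  exact sub_eq_zero.1 hz

theorem L2_coord {k E : Type} [NontriviallyNormedField k] [CompleteSpace k] [NormedAddCommGroup E]
    [NormedSpace k E] {f : ℕ} (v : Fin f → E) (hv : LinearIndependent k v) :
    ∃ K : ℝ, 0 < K ∧ ∀ (a : Fin f → k) (l : Fin f), ‖a l‖ ≤ K * ‖∑ i, a i • v i‖ := by
  obtain ⟨K, hK, h⟩ := (Fintype.linearCombination k v).exists_antilipschitzWith (by
    rw [LinearMap.ker_eq_bot']
    intro a ha
    rw [Fintype.linearCombination_apply] at ha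
    exact funext (Fintype.linearIndependent_iff.1 hv a ha))
  refine ⟨K, hK, fun a l => (norm_le_pi_norm a l).trans ?_⟩
  have h1 := h.le_mul_dist a 0
  rw [map_zero, dist_zero_right, dist_zero_right, Fintype.linearCombination_apply] at h1
  exact h1

theorem L2_expand {R T : Type} [CommRing R] [CommRing T] {f : ℕ} (b : Module.Basis (Fin f) ℤ R)
    (φ : R →+* T) (r : R) : φ r = ∑ l, ((b.repr r l : ℤ) : T) * φ (b l) := by
  conv_lhs => rw [← b.sum_repr r]
  simp only [map_sum, zsmul_eq_mul, map_mul, map_intCast]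

theorem L2_R (p : ℕ) [Fact p.Prime] (F : Type) [NontriviallyNormedField F]
    [IsUltrametricDist F] [NormedAlgebra ℚ_[p] F] [FiniteDimensional ℚ_[p] F] :
    ∃ (R : Type) (_ : CommRing R) (j0 : R →+* F)
      (b : Module.Basis (Fin (Module.finrank ℚ_[p] F)) ℤ R)
      (σ : Fin (Module.finrank ℚ_[p] F) → (R →+* ℝ)),
      (∀ l, ‖j0 (b l)‖ ≤ 1) ∧ LinearIndependent ℚ_[p] (fun l => j0 (b l)) ∧
        LinearIndependent ℝ (fun l => fun i => σ i (b l)) := by
  obtain ⟨θ, P, hθ, hP, hd, h0, hli, x, hx, hx0⟩ := exists_theta p F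
  let b : Module.Basis (Fin (Module.finrank ℚ_[p] F)) ℤ (AdjoinRoot P) :=
    (AdjoinRoot.powerBasis' hP).basis.reindex (finCongr hd)
  have hb : ∀ l, b l = AdjoinRoot.root P ^ (l : ℕ) := by
    intro l
    simp only [b, Module.Basis.reindex_apply, PowerBasis.basis_eq_pow]
    rfl
  refine ⟨AdjoinRoot P, inferInstance,
    AdjoinRoot.lift (algebraMap ℤ F) θ (by rw [← Polynomial.aeval_def]; exact h0), b,
    fun i => AdjoinRoot.lift (algebraMap ℤ ℝ) (x i) (by rw [← Polynomial.aeval_def]; exact hx0 i),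
    fun l => ?_, ?_, ?_⟩
  · rw [hb, map_pow, AdjoinRoot.lift_root, norm_pow]
    exact pow_le_one₀ (norm_nonneg _) hθ
  · simpa only [hb, map_pow, AdjoinRoot.lift_root] using hli
  · simp only [hb, map_pow, AdjoinRoot.lift_root]
    rw [Fintype.linearIndependent_iff]
    intro a ha
    have h := Matrix.eq_zero_of_forall_index_sum_mul_pow_eq_zero (v := a) hx (fun i => by
      have := congrFun ha i
      simpa only [Finset.sum_apply, Pi.smul_apply, smul_eq_mul, Pi.zero_apply] using this)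
    exact fun l => congrFun h l

theorem L2_fin {R : Type} [CommRing R] {f : ℕ} (b : Module.Basis (Fin f) ℤ R)
    (σ : Fin f → (R →+* ℝ)) (h : LinearIndependent ℝ (fun l => fun i => σ i (b l))) (C : ℝ) :
    {r : R | ∀ i, |σ i r| ≤ C}.Finite := by
  obtain ⟨K, hK, hc⟩ := L2_coord _ h
  obtain ⟨D, hD⟩ := exists_int_ge (K * max C 0)
  have hfin : (Set.pi Set.univ fun _ : Fin f => Set.Icc (-D) D).Finite :=
    Set.Finite.pi fun _ => Set.finite_Icc _ _
  refine (hfin.preimage (f := b.equivFun) b.equivFun.injective.injOn).subset ?_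
  intro r hr l _
  have h1 := hc (fun l => ((b.repr r l : ℤ) : ℝ)) l
  have h2 : ‖∑ i, ((b.repr r i : ℤ) : ℝ) • (fun j => σ j (b i))‖ ≤ max C 0 := by
    refine (pi_norm_le_iff_of_nonneg (le_max_right _ _)).2 fun j => ?_
    simp only [Finset.sum_apply, Pi.smul_apply, smul_eq_mul]
    rw [← L2_expand b (σ j) r]
    exact (hr j).trans (le_max_left _ _)
  have h3 : |((b.repr r l : ℤ) : ℝ)| ≤ D :=
    h1.trans ((mul_le_mul_of_nonneg_left h2 hK.le).trans hD)
  have h4 : |(b.repr r l : ℤ)| ≤ D := by exact_mod_cast h3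
  exact abs_le.1 h4

theorem L2_smul (p : ℕ) [Fact p.Prime] {F : Type} [NontriviallyNormedField F]
    [NormedAlgebra ℚ_[p] F] {R : Type} [CommRing R] {f : ℕ} (b : Module.Basis (Fin f) ℤ R)
    (j0 : R →+* F) (r : R) : j0 r = ∑ l, ((b.repr r l : ℤ) : ℚ_[p]) • j0 (b l) := by
  rw [L2_expand b j0 r]
  refine Finset.sum_congr rfl fun l _ => ?_
  rw [Algebra.smul_def, map_intCast]

theorem L2_sat (p : ℕ) [Fact p.Prime] {F : Type} [NontriviallyNormedField F]
    [NormedAlgebra ℚ_[p] F] {R : Type} [CommRing R] {f : ℕ} (b : Module.Basis (Fin f) ℤ R)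
    (j0 : R →+* F) (h : LinearIndependent ℚ_[p] (fun l => j0 (b l))) :
    ∃ K : ℝ, 0 < K ∧ ∀ (m : ℕ) (r : R), K * ‖j0 r‖ ≤ ‖(p : F)‖ ^ m →
      ∃ r', r = (p : R) ^ m * r' := by
  obtain ⟨K, hK, hc⟩ := L2_coord _ h
  refine ⟨K, hK, fun m r hr => ?_⟩
  have hp : ‖(p : F)‖ = (p : ℝ)⁻¹ := by
    rw [← map_natCast (algebraMap ℚ_[p] F), norm_algebraMap', Padic.norm_p]
  have hd : ∀ l, ((p : ℤ) ^ m) ∣ b.repr r l := by
    intro l
    rw [← Padic.norm_int_le_pow_iff_dvd]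
    have h1 := hc (fun l => ((b.repr r l : ℤ) : ℚ_[p])) l
    rw [← L2_smul p b j0 r] at h1
    refine h1.trans (hr.trans_eq ?_)
    rw [hp, zpow_neg, zpow_natCast, inv_pow]
  choose c hc using hd
  refine ⟨∑ l, c l • b l, ?_⟩
  conv_lhs => rw [← b.sum_repr r]
  rw [Finset.mul_sum]
  refine Finset.sum_congr rfl fun l _ => ?_
  rw [hc l, zsmul_eq_mul, zsmul_eq_mul]
  push_cast
  ring

theorem L2_inj (p : ℕ) [Fact p.Prime] {F : Type} [NontriviallyNormedField F]
    [NormedAlgebra ℚ_[p] F] {R : Type} [CommRing R] {f : ℕ} (b : Module.Basis (Fin f) ℤ R)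
    (j0 : R →+* F) (h : LinearIndependent ℚ_[p] (fun l => j0 (b l))) (δ : ℚ_[p])
    (hδ : δ ^ 2 = 1 - 8 * p) (r s : R) (h0 : j0 r + algebraMap ℚ_[p] F δ * j0 s = 0) :
    r = 0 ∧ s = 0 := by
  have h1 : ∑ l, (((b.repr r l : ℤ) : ℚ_[p]) + δ * ((b.repr s l : ℤ) : ℚ_[p])) • j0 (b l) = 0 := by
    rw [← h0, ← Algebra.smul_def, L2_smul p b j0 r, L2_smul p b j0 s, Finset.smul_sum,
      ← Finset.sum_add_distrib]
    refine Finset.sum_congr rfl fun l _ => ?_
    rw [add_smul, mul_smul]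
  have h2 := Fintype.linearIndependent_iff.1 h _ h1
  have h3 : ∀ l, b.repr r l = 0 ∧ b.repr s l = 0 := by
    intro l
    have h4 : ((b.repr r l : ℤ) : ℚ_[p]) = -(δ * ((b.repr s l : ℤ) : ℚ_[p])) :=
      eq_neg_of_add_eq_zero_left (h2 l)
    have h5 : (((b.repr r l : ℤ) ^ 2 : ℤ) : ℚ_[p]) =
        (((1 - 8 * p) * (b.repr s l : ℤ) ^ 2 : ℤ) : ℚ_[p]) := by
      push_cast
      rw [h4, neg_sq, mul_pow, hδ]
    have h6 : (b.repr r l : ℤ) ^ 2 = (1 - 8 * p) * (b.repr s l : ℤ) ^ 2 := Int.cast_injective h5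
    have hp : (1 : ℤ) ≤ p := by exact_mod_cast (Fact.out : p.Prime).one_lt.le
    have h7 := sq_nonneg (b.repr r l : ℤ)
    have h8 := sq_nonneg (b.repr s l : ℤ)
    have h9 : (b.repr s l : ℤ) ^ 2 = 0 := by nlinarith
    rw [h9, mul_zero] at h6
    exact ⟨pow_eq_zero_iff two_ne_zero |>.1 h6, pow_eq_zero_iff two_ne_zero |>.1 h9⟩
  exact ⟨b.repr.injective (by ext l; simp [(h3 l).1]), b.repr.injective (by ext l; simp [(h3 l).2])⟩

theorem L2_bas {R S : Type} [CommRing R] [CommRing S] [Algebra R S] {f : ℕ}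
    (b : Module.Basis (Fin f) ℤ R) (c : Module.Basis (Fin 2) R S) :
    Nonempty (Module.Basis (Fin (2 * f)) ℤ S) :=
  ⟨(b.smulTower' c).reindex finProdFinEquiv⟩

/-- The embedding of the quadratic extension. -/
def L2_j {R F : Type} [CommRing R] [CommRing F] (a : R) (j0 : R →+* F) (d : F)
    (hd : d * d = j0 a) : QuadraticAlgebra R a 0 →+* F where
  toFun z := j0 z.re + d * j0 z.im
  map_one' := by simp [QuadraticAlgebra.re_one, QuadraticAlgebra.im_one]
  map_mul' z w := by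
    simp only [QuadraticAlgebra.re_mul, QuadraticAlgebra.im_mul, map_add, map_mul, map_zero, ← hd]
    ring
  map_zero' := by simp
  map_add' z w := by
    simp only [QuadraticAlgebra.re_add, QuadraticAlgebra.im_add, map_add]
    ring

/-- The trace form. -/
def L2_t {R : Type} [CommRing R] (a : R) {f : ℕ} (σ : Fin f → (R →+* ℝ)) :
    QuadraticAlgebra R a 0 →+ ℝ where
  toFun z := ∑ i, σ i z.re
  map_zero' := by simp
  map_add' z w := by simp only [QuadraticAlgebra.re_add, map_add, Finset.sum_add_distrib]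

theorem L2_t_norm {R : Type} [CommRing R] (p : ℕ) {f : ℕ} (σ : Fin f → (R →+* ℝ))
    (z : QuadraticAlgebra R (1 - 8 * p) 0) :
    L2_t (1 - 8 * (p : R)) σ (star z * z) =
      ∑ i, ((σ i z.re) ^ 2 + (8 * p - 1) * (σ i z.im) ^ 2) := by
  show ∑ i, σ i (star z * z).re = _
  refine Finset.sum_congr rfl fun i _ => ?_
  simp only [QuadraticAlgebra.re_mul, QuadraticAlgebra.re_star, QuadraticAlgebra.im_star, map_add,
    map_mul, map_zero, map_sub, map_one, map_neg, map_natCast, map_ofNat]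
  ring

theorem exists_ord (p : ℕ) [Fact p.Prime] (F : Type) [NontriviallyNormedField F]
    [IsUltrametricDist F] [NormedAlgebra ℚ_[p] F] [FiniteDimensional ℚ_[p] F] :
    ∃ (S : Type) (_ : CommRing S) (_ : StarRing S) (j : S →+* F)
      (bas : Module.Basis (Fin (2 * Module.finrank ℚ_[p] F)) ℤ S) (t : S →+ ℝ),
      IsOrd p j bas t := by
  obtain ⟨R, _, j0, b, σ, h1, h2, h3⟩ := L2_R p F
  obtain ⟨δ0, hδ0⟩ := exists_sqrt_neg p
  have hδ : (δ0 : ℚ_[p]) ^ 2 = 1 - 8 * p := by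
    have h := congrArg (algebraMap ℤ_[p] ℚ_[p]) hδ0
    simp only [map_pow, map_sub, map_one, map_mul, map_natCast, map_ofNat] at h
    exact h
  have hp1 : (1 : ℝ) ≤ p := by exact_mod_cast (Fact.out : p.Prime).one_lt.le
  have hδn : (δ0 : ℚ_[p]) ≠ 0 := by
    intro h
    rw [h] at hδ
    have h' : (((1 : ℤ) - 8 * p : ℤ) : ℚ_[p]) = ((0 : ℤ) : ℚ_[p]) := by
      push_cast
      rw [← hδ]
      ring
    have h'' := Int.cast_injective h'
    omega
  set d : F := algebraMap ℚ_[p] F δ0 with hdd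
  have hd : d * d = j0 (1 - 8 * p) := by
    rw [hdd, ← map_mul, ← pow_two, hδ]
    simp only [map_sub, map_mul, map_one, map_natCast, map_ofNat]
  have hd1 : ‖d‖ ≤ 1 := by
    rw [hdd, norm_algebraMap']
    exact δ0.2
  have hd0 : 0 < ‖d‖ := by
    rw [hdd, norm_algebraMap']
    exact norm_pos_iff.2 hδn
  have h20 : 0 < ‖(2 : F)‖ := by
    rw [← map_ofNat (algebraMap ℚ_[p] F) 2, norm_algebraMap']
    exact norm_pos_iff.2 two_ne_zero
  have hpF : ‖(p : F)‖ < 1 := by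
    rw [← map_natCast (algebraMap ℚ_[p] F), norm_algebraMap']
    exact Padic.norm_p_lt_one
  have hint : ∀ r, ‖j0 r‖ ≤ 1 := by
    intro r
    rw [L2_expand b j0 r]
    refine IsUltrametricDist.norm_sum_le_of_forall_le_of_nonneg zero_le_one fun l _ => ?_
    rw [norm_mul]
    exact mul_le_one₀ (IsUltrametricDist.norm_intCast_le_one F _) (norm_nonneg _) (h1 l)
  obtain ⟨bas⟩ := L2_bas b (QuadraticAlgebra.basis (1 - 8 * (p : R)) 0)
  have hj : ∀ z, L2_j (1 - 8 * (p : R)) j0 d hd z = j0 z.re + d * j0 z.im := fun _ => rfl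
  have hnn : ∀ (z : QuadraticAlgebra R (1 - 8 * p) 0) (i : Fin (Module.finrank ℚ_[p] F)),
      (0 : ℝ) ≤ (σ i z.re) ^ 2 + (8 * p - 1) * (σ i z.im) ^ 2 := fun z i =>
    add_nonneg (sq_nonneg _) (mul_nonneg (by linarith) (sq_nonneg _))
  refine ⟨QuadraticAlgebra R (1 - 8 * p) 0, inferInstance, inferInstance,
    L2_j (1 - 8 * (p : R)) j0 d hd, bas, L2_t (1 - 8 * (p : R)) σ, ?_, ?_, ?_, ?_, ?_⟩
  · rw [injective_iff_map_eq_zero]
    intro z hz
    obtain ⟨e1, e2⟩ := L2_inj p b j0 h2 δ0 hδ z.re z.im hz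
    exact QuadraticAlgebra.ext e1 e2
  · intro z
    rw [hj]
    refine (IsUltrametricDist.norm_add_le_max _ _).trans (max_le (hint _) ?_)
    rw [norm_mul]
    exact mul_le_one₀ hd1 (norm_nonneg _) (hint _)
  · obtain ⟨K, hK, hs⟩ := L2_sat p b j0 h2
    obtain ⟨c, hc⟩ := exists_pow_lt_of_lt_one (div_pos (mul_pos h20 hd0) hK) hpF
    refine ⟨c, fun m z hz hz' => ?_⟩
    rw [hj] at hz hz'
    simp only [QuadraticAlgebra.re_star, QuadraticAlgebra.im_star, zero_mul, add_zero,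
      map_neg] at hz'
    have hq : 0 ≤ ‖(p : F)‖ ^ m := pow_nonneg (norm_nonneg _) m
    have hb : K * ‖(p : F)‖ ^ (m + c) ≤ ‖(2 : F)‖ * ‖d‖ * ‖(p : F)‖ ^ m := by
      rw [lt_div_iff₀ hK] at hc
      rw [pow_add]
      nlinarith
    have e1 : ‖(2 : F)‖ * ‖j0 z.re‖ ≤ ‖(p : F)‖ ^ (m + c) := by
      rw [← norm_mul]
      have e : 2 * j0 z.re = (j0 z.re + d * j0 z.im) + (j0 z.re + d * -j0 z.im) := by ring
      rw [e]
      exact (IsUltrametricDist.norm_add_le_max _ _).trans (max_le hz hz')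
    have e2 : ‖(2 : F)‖ * ‖d‖ * ‖j0 z.im‖ ≤ ‖(p : F)‖ ^ (m + c) := by
      rw [← norm_mul, ← norm_mul]
      have e : 2 * d * j0 z.im = (j0 z.re + d * j0 z.im) + -(j0 z.re + d * -j0 z.im) := by ring
      rw [e]
      exact (IsUltrametricDist.norm_add_le_max _ _).trans (max_le hz (by rwa [norm_neg]))
    obtain ⟨r1, hr1⟩ := hs m z.re (by
      refine le_of_mul_le_mul_left ?_ h20
      have e3 := mul_le_mul_of_nonneg_left e1 hK.le
      have e4 : ‖(2 : F)‖ * ‖d‖ * ‖(p : F)‖ ^ m ≤ ‖(2 : F)‖ * 1 * ‖(p : F)‖ ^ m :=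
        mul_le_mul_of_nonneg_right (mul_le_mul_of_nonneg_left hd1 h20.le) hq
      nlinarith)
    obtain ⟨r2, hr2⟩ := hs m z.im (by
      refine le_of_mul_le_mul_left ?_ (mul_pos h20 hd0)
      have e3 := mul_le_mul_of_nonneg_left e2 hK.le
      nlinarith)
    refine ⟨⟨r1, r2⟩, ?_⟩
    rw [← Nat.cast_pow]
    refine QuadraticAlgebra.ext ?_ ?_
    · simp only [QuadraticAlgebra.re_mul, QuadraticAlgebra.re_natCast, QuadraticAlgebra.im_natCast]
      rw [hr1]
      push_cast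
      ring
    · simp only [QuadraticAlgebra.im_mul, QuadraticAlgebra.re_natCast, QuadraticAlgebra.im_natCast]
      rw [hr2]
      push_cast
      ring
  · intro z
    rw [L2_t_norm]
    exact Finset.sum_nonneg fun i _ => hnn z i
  · intro C
    have hf := L2_fin b σ h3 (C + 1)
    refine ((hf.prod hf).preimage (f := QuadraticAlgebra.equivProd (1 - 8 * (p : R)) 0)
      (Equiv.injective _).injOn).subset ?_
    intro z hz
    have hz' : ∑ i, ((σ i z.re) ^ 2 + (8 * p - 1) * (σ i z.im) ^ 2) ≤ C := by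
      rw [← L2_t_norm]
      exact hz
    have hi : ∀ i, (σ i z.re) ^ 2 + (8 * p - 1) * (σ i z.im) ^ 2 ≤ C := fun i =>
      (Finset.single_le_sum (fun i _ => hnn z i) (Finset.mem_univ i)).trans hz'
    have hab : ∀ y : ℝ, y ^ 2 ≤ C → |y| ≤ C + 1 := by
      intro y hy
      have := sq_abs y
      nlinarith [sq_nonneg (|y| - 1), abs_nonneg y]
    refine ⟨fun i => hab (σ i z.re) ?_, fun i => hab (σ i z.im) ?_⟩
    · have := hi i
      nlinarith [sq_nonneg (σ i z.im)]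
    · have := hi i
      nlinarith [sq_nonneg (σ i z.im), sq_nonneg (σ i z.re)]

end Pool.Agent.MP_4d0c14_b
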