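import Pool.Agent.MP_4d0c14_b.Lat
import Pool.Agent.MP_4d0c14_b.M2

/-! Counting residue classes. -/

namespace Pool.Agent.MP_4d0c14_b

open scoped Matrix

theorem L4_norm_p (p : ℕ) [Fact p.Prime] (F : Type) [NontriviallyNormedField F]
    [NormedAlgebra ℚ_[p] F] : ‖(p : F)‖ = (p : ℝ)⁻¹ := by
  rw [← map_natCast (algebraMap ℚ_[p] F) p, norm_algebraMap', Padic.norm_p]

theorem L4_coord (p : ℕ) [hp : Fact p.Prime] (F : Type) [NontriviallyNormedField F]
    [NormedAlgebra ℚ_[p] F] [FiniteDimensional ℚ_[p] F] {ι : Type} [Fintype ι]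
    (b : Module.Basis ι ℚ_[p] F) :
    ∃ c : ℕ, (∀ l x, ‖b.coord l x‖ ≤ (p : ℝ) ^ c * ‖x‖) ∧ ∀ l, ‖b l‖ ≤ (p : ℝ) ^ c := by
  have h1 : (1 : ℝ) < p := by exact_mod_cast hp.out.one_lt
  obtain ⟨K, hK⟩ := (Set.finite_range fun l : ι =>
    max ‖LinearMap.toContinuousLinearMap (b.coord l)‖ ‖b l‖).bddAbove
  obtain ⟨c, hc⟩ := pow_unbounded_of_one_lt K h1
  refine ⟨c, fun l x => ?_, fun l => ((le_max_right _ _).trans (hK ⟨l, rfl⟩)).trans hc.le⟩
  have h2 := (LinearMap.toContinuousLinearMap (b.coord l)).le_opNorm x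
  rw [LinearMap.coe_toContinuousLinearMap'] at h2
  exact h2.trans (mul_le_mul_of_nonneg_right
    (((le_max_left _ _).trans (hK ⟨l, rfl⟩)).trans hc.le) (norm_nonneg _))

theorem L4_zmod (p : ℕ) [Fact p.Prime] (N : ℕ) (u v : ℤ_[p])
    (h : PadicInt.toZModPow N u = PadicInt.toZModPow N v) :
    ‖(u : ℚ_[p]) - (v : ℚ_[p])‖ ≤ ((p : ℝ) ^ N)⁻¹ := by
  rw [← sub_eq_zero, ← map_sub, ← RingHom.mem_ker, PadicInt.ker_toZModPow,
    ← PadicInt.norm_le_pow_iff_mem_span_pow, PadicInt.norm_def, PadicInt.coe_sub, zpow_neg,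
    zpow_natCast] at h
  exact h

theorem exists_net (p : ℕ) [Fact p.Prime] (F : Type) [NontriviallyNormedField F]
    [IsUltrametricDist F] [NormedAlgebra ℚ_[p] F] [FiniteDimensional ℚ_[p] F] :
    ∃ C : ℕ, ∀ a : ℕ, ∃ h : F → Fin (C * p ^ (a * Module.finrank ℚ_[p] F)),
      ∀ x y : F, ‖x‖ ≤ 1 → ‖y‖ ≤ 1 → h x = h y → ‖x - y‖ ≤ ‖(p : F)‖ ^ a := by
  classical
  have hp : p.Prime := Fact.out
  have h0 : (0 : ℝ) < p := by exact_mod_cast hp.pos
  set f := Module.finrank ℚ_[p] F with hf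
  let b : Module.Basis (Fin f) ℚ_[p] F := Module.finBasis ℚ_[p] F
  obtain ⟨c, hc, hb⟩ := L4_coord p F b
  refine ⟨p ^ (2 * c * f), fun a => ?_⟩
  have : NeZero (p ^ (a + 2 * c)) := ⟨pow_ne_zero _ hp.ne_zero⟩
  have hcard : Fintype.card (Fin f → ZMod (p ^ (a + 2 * c))) = p ^ (2 * c * f) * p ^ (a * f) := by
    rw [Fintype.card_fun, ZMod.card, Fintype.card_fin, ← pow_mul, ← pow_add]
    congr 1
    ring
  let e := Fintype.equivFinOfCardEq hcard
  have hint : ∀ (x : F), ‖x‖ ≤ 1 → ∀ l, ‖(p : ℚ_[p]) ^ c * b.coord l x‖ ≤ 1 := by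
    intro x hx l
    rw [norm_mul, norm_pow, Padic.norm_p, inv_pow, inv_mul_le_iff₀ (pow_pos h0 c)]
    exact (hc l x).trans (mul_le_mul_of_nonneg_left hx (pow_pos h0 c).le)
  refine ⟨fun x => e fun l => if hx : ‖x‖ ≤ 1 then
    PadicInt.toZModPow (a + 2 * c) (⟨(p : ℚ_[p]) ^ c * b.coord l x, hint x hx l⟩ : ℤ_[p]) else 0,
    fun x y hx hy hxy => ?_⟩
  have h1 := e.injective hxy
  have h2 : ∀ l, ‖b.coord l (x - y)‖ ≤ ((p : ℝ) ^ (a + c))⁻¹ := by
    intro l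
    have h3 := congrFun h1 l
    simp only [dif_pos hx, dif_pos hy] at h3
    replace h3 : ‖(p : ℚ_[p]) ^ c * b.coord l x - (p : ℚ_[p]) ^ c * b.coord l y‖ ≤
        ((p : ℝ) ^ (a + 2 * c))⁻¹ := L4_zmod p _ _ _ h3
    rw [← mul_sub, ← map_sub, norm_mul, norm_pow, Padic.norm_p, inv_pow,
      inv_mul_le_iff₀ (pow_pos h0 c)] at h3
    refine h3.trans (le_of_eq ?_)
    field_simp
    ring
  rw [← b.sum_repr (x - y), L4_norm_p p F]
  refine IsUltrametricDist.norm_sum_le_of_forall_le_of_nonneg (by positivity) fun l _ => ?_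
  rw [norm_smul]
  have h4 := h2 l
  rw [Module.Basis.coord_apply] at h4
  refine (mul_le_mul h4 (hb l) (norm_nonneg _) (by positivity)).trans (le_of_eq ?_)
  rw [inv_pow]
  field_simp
  ring

theorem L4_vecMul {α β E : Type*} [NormedField E] [IsUltrametricDist E] [Fintype α] [Fintype β]
    {a : ℝ} {X : Matrix α β E} (hX : MLe a X) (ha : 0 ≤ a) (v : α → E) :
    ‖v ᵥ* X‖ ≤ a * ‖v‖ := by
  rw [← Matrix.mulVec_transpose]
  exact hX.transpose.mulVec ha v

theorem exists_hash (p : ℕ) [Fact p.Prime] (n : ℕ) {F S : Type} [NontriviallyNormedField F]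
    [IsUltrametricDist F] [NormedAlgebra ℚ_[p] F] [FiniteDimensional ℚ_[p] F] [CommRing S]
    [StarRing S] (j : S →+* F) (hj : ∀ s, ‖j s‖ ≤ 1) :
    ∃ C : ℕ, ∀ g : GL (Fin n) F, ∃ M₀ : ℕ, ∀ M, M₀ ≤ M →
      ∃ h : (Fin n → S) → Fin (C * (p ^ M) ^ (2 * Module.finrank ℚ_[p] F * n)),
        ∀ x y, h x = h y → InLat p j g M (x - y) := by
  classical
  have hp : p.Prime := Fact.out
  have h0 : (0 : ℝ) < p := by exact_mod_cast hp.pos
  have h1 : (1 : ℝ) < p := by exact_mod_cast hp.one_lt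
  obtain ⟨C, hC⟩ := exists_net p F
  generalize Module.finrank ℚ_[p] F = f at hC ⊢
  choose net hnet using hC
  refine ⟨(C ^ 2 * p ^ f) ^ n, fun g => ?_⟩
  obtain ⟨k₁, k₂, t, hk₁, hk₂, -, rfl⟩ := exists_cartan g
  rw [bnd_iff] at hk₁ hk₂
  have ht : ∀ i, ∃ c : ℤ, ‖(t i : F)‖ ∈ Set.Ico ((p : ℝ) ^ c) ((p : ℝ) ^ (c + 1)) := fun i =>
    exists_mem_Ico_zpow (norm_pos_iff.2 (t i).ne_zero) h1
  choose c hc using ht
  obtain ⟨M₀, hM₀⟩ := (Set.finite_range fun i => (c i).natAbs).bddAbove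
  refine ⟨M₀, fun M hM => ?_⟩
  have hcM : ∀ i, (c i).natAbs ≤ M := fun i => (hM₀ ⟨i, rfl⟩).trans hM
  let a : Fin n → ℕ := fun i => ((M : ℤ) - c i).toNat
  let b : Fin n → ℕ := fun i => ((M : ℤ) + c i + 1).toNat
  have ha : ∀ i, (a i : ℤ) = M - c i := fun i => by
    have := hcM i
    simp only [a]
    omega
  have hb : ∀ i, (b i : ℤ) = M + c i + 1 := fun i => by
    have := hcM i
    simp only [b]
    omega
  have hab : ∀ i, a i + b i = 2 * M + 1 := fun i => by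
    have := ha i
    have := hb i
    omega
  have hcard : Fintype.card (∀ i : Fin n, Fin (C * p ^ (a i * f)) × Fin (C * p ^ (b i * f))) =
      (C ^ 2 * p ^ f) ^ n * (p ^ M) ^ (2 * f * n) := by
    rw [Fintype.card_pi]
    have e : ∀ i : Fin n, Fintype.card (Fin (C * p ^ (a i * f)) × Fin (C * p ^ (b i * f))) =
        C ^ 2 * p ^ f * (p ^ M) ^ (2 * f) := by
      intro i
      rw [Fintype.card_prod, Fintype.card_fin, Fintype.card_fin]
      calc C * p ^ (a i * f) * (C * p ^ (b i * f)) = C ^ 2 * p ^ ((a i + b i) * f) := by ring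
        _ = _ := by rw [hab i]; ring
    rw [Finset.prod_congr rfl fun i _ => e i, Finset.prod_const, Finset.card_univ,
      Fintype.card_fin, mul_pow, ← pow_mul (p ^ M)]
  let e := Fintype.equivFinOfCardEq hcard
  let u : (Fin n → S) → Fin n → F := fun x =>
    ((k₁⁻¹ : GL (Fin n) F) : Matrix (Fin n) (Fin n) F) *ᵥ fun c => j (x c)
  let w : (Fin n → S) → Fin n → F := fun x =>
    (fun c => j (star (x c))) ᵥ* (k₁ : Matrix (Fin n) (Fin n) F)
  have hu : ∀ x i, ‖u x i‖ ≤ 1 := fun x i => by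
    refine (norm_le_pi_norm _ i).trans ((hk₁.2.mulVec zero_le_one _).trans ?_)
    rw [one_mul]
    exact (pi_norm_le_iff_of_nonneg zero_le_one).2 fun c => hj _
  have hw : ∀ x i, ‖w x i‖ ≤ 1 := fun x i => by
    refine (norm_le_pi_norm _ i).trans ((L4_vecMul hk₁.1 zero_le_one _).trans ?_)
    rw [one_mul]
    exact (pi_norm_le_iff_of_nonneg zero_le_one).2 fun c => hj _
  have hus : ∀ x y, u (x - y) = u x - u y := fun x y => by
    simp only [u]
    rw [← Matrix.mulVec_sub]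
    congr 1
    ext c
    simp
  have hws : ∀ x y, w (x - y) = w x - w y := fun x y => by
    simp only [w]
    rw [← Matrix.sub_vecMul]
    congr 1
    ext c
    simp
  refine ⟨fun x => e fun i => (net (a i) (u x i), net (b i) (w x i)), fun x y hxy => ?_⟩
  have h2 := e.injective hxy
  have h3 : ∀ i, ‖u (x - y) i‖ ≤ (p : ℝ) ^ (c i - M) := fun i => by
    have h4 := hnet (a i) _ _ (hu x i) (hu y i) (congrArg Prod.fst (congrFun h2 i))
    rw [L4_norm_p p F, inv_pow, ← zpow_natCast, ← zpow_neg, ha, neg_sub] at h4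
    rw [hus]
    exact h4
  have h5 : ∀ i, ‖w (x - y) i‖ ≤ (p : ℝ) ^ (-((M : ℤ) + c i + 1)) := fun i => by
    have h4 := hnet (b i) _ _ (hw x i) (hw y i) (congrArg Prod.snd (congrFun h2 i))
    rw [L4_norm_p p F, inv_pow, ← zpow_natCast, ← zpow_neg, hb] at h4
    rw [hws]
    exact h4
  have hq : ‖(p : F)‖ ^ M = (p : ℝ) ^ (-(M : ℤ)) := by
    rw [L4_norm_p p F, inv_pow, ← zpow_natCast, ← zpow_neg]
  have hq0 : (0 : ℝ) ≤ (p : ℝ) ^ (-(M : ℤ)) := by positivity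
  constructor
  · intro i
    have e1 : (((k₁ * dg t * k₂)⁻¹ : GL (Fin n) F) : Matrix (Fin n) (Fin n) F) *ᵥ
        (fun c => j ((x - y) c)) = ((k₂⁻¹ : GL (Fin n) F) : Matrix (Fin n) (Fin n) F) *ᵥ
          fun i => (((t i)⁻¹ : Fˣ) : F) * u (x - y) i := by
      rw [mul_inv_rev, mul_inv_rev, ← dg_inv, Units.val_mul, Units.val_mul,
        ← Matrix.mulVec_mulVec, ← Matrix.mulVec_mulVec, coe_dg]
      congr 1
      ext i
      rw [Matrix.mulVec_diagonal]
      rfl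
    rw [e1, hq]
    refine (norm_le_pi_norm _ i).trans ((hk₂.2.mulVec zero_le_one _).trans ?_)
    rw [one_mul]
    refine (pi_norm_le_iff_of_nonneg hq0).2 fun l => ?_
    rw [norm_mul, Units.val_inv_eq_inv_val, norm_inv,
      inv_mul_le_iff₀ (norm_pos_iff.2 (t l).ne_zero)]
    refine (h3 l).trans ?_
    rw [sub_eq_add_neg, zpow_add₀ h0.ne']
    exact mul_le_mul_of_nonneg_right (hc l).1 hq0
  · intro i
    have e1 : (fun c => j (star ((x - y) c))) ᵥ*
        ((k₁ * dg t * k₂ : GL (Fin n) F) : Matrix (Fin n) (Fin n) F) =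
        (fun i => w (x - y) i * (t i : F)) ᵥ* (k₂ : Matrix (Fin n) (Fin n) F) := by
      rw [Units.val_mul, Units.val_mul, ← Matrix.vecMul_vecMul, ← Matrix.vecMul_vecMul, coe_dg]
      congr 1
      ext i
      rw [Matrix.vecMul_diagonal]
    rw [e1, hq]
    refine (norm_le_pi_norm _ i).trans ((L4_vecMul hk₂.1 zero_le_one _).trans ?_)
    rw [one_mul]
    refine (pi_norm_le_iff_of_nonneg hq0).2 fun l => ?_
    rw [norm_mul]
    refine (mul_le_mul (h5 l) (hc l).2.le (norm_nonneg _) (by positivity)).trans (le_of_eq ?_)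
    rw [← zpow_add₀ h0.ne']
    congr 1
    ring

theorem card_le_of_incongruent {V : Type} [AddCommGroup V] [Module.Free ℤ V] [Module.Finite ℤ V]
    (A : Submodule ℤ V) (m : ℕ) (hm : 0 < m) (Y : Finset V) (hY : ∀ y ∈ Y, y ∈ A)
    (h : ∀ y ∈ Y, ∀ y' ∈ Y, ∀ z ∈ A, y - y' = (m : ℤ) • z → y = y') :
    Y.card ≤ m ^ Module.finrank ℤ A := by
  classical
  have : NeZero m := ⟨hm.ne'⟩
  let b := Module.finBasis ℤ A
  let φ : V → Fin (Module.finrank ℤ A) → ZMod m := fun y l =>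
    if hy : y ∈ A then ((b.repr ⟨y, hy⟩ l : ℤ) : ZMod m) else 0
  have h1 : Y.card ≤ (Finset.univ : Finset (Fin (Module.finrank ℤ A) → ZMod m)).card := by
    refine Finset.card_le_card_of_injOn φ (fun _ _ => Finset.mem_coe.2 (Finset.mem_univ _)) ?_
    intro y hy y' hy' hyy
    have hy := Finset.mem_coe.1 hy
    have hy' := Finset.mem_coe.1 hy'
    have h2 : ∀ l, ∃ z : ℤ, b.repr (⟨y, hY y hy⟩ - ⟨y', hY y' hy'⟩) l = (m : ℤ) * z := by
      intro l
      have h3 := congrFun hyy l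
      simp only [φ, dif_pos (hY y hy), dif_pos (hY y' hy')] at h3
      rw [map_sub, Finsupp.sub_apply]
      exact (ZMod.intCast_eq_intCast_iff_dvd_sub _ _ _).1 h3.symm
    choose z hz using h2
    have h4 : (⟨y, hY y hy⟩ - ⟨y', hY y' hy'⟩ : A) = (m : ℤ) • ∑ l, z l • b l := by
      rw [← b.sum_repr (⟨y, hY y hy⟩ - ⟨y', hY y' hy'⟩), Finset.smul_sum]
      exact Finset.sum_congr rfl fun l _ => by rw [hz l, mul_smul]
    exact h y hy y' hy' (∑ l, z l • b l : A) (Submodule.coe_mem _) (congrArg Subtype.val h4)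
  rwa [Finset.card_univ, Fintype.card_fun, ZMod.card, Fintype.card_fin] at h1

end Pool.Agent.MP_4d0c14_b
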