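import Pool.Agent.MP_4d0c14_b.L3
import Pool.Agent.MP_4d0c14_b.L4

/-! Short vectors. -/

namespace Pool.Agent.MP_4d0c14_b

open scoped Matrix

theorem L5_T (C2 C3 e d : ℕ) (hd : 0 < d) : ∃ T : ℕ, C2 * (C3 * T + 1) ^ e < T ^ (e + d) := by
  refine ⟨C2 * (C3 + 1) ^ e + 1, ?_⟩
  set T := C2 * (C3 + 1) ^ e + 1 with hT
  have hT1 : 1 ≤ T := by omega
  have h1 : C3 * T + 1 ≤ (C3 + 1) * T := by nlinarith
  have h2 : (C3 * T + 1) ^ e ≤ (C3 + 1) ^ e * T ^ e := by
    rw [← mul_pow]; exact Nat.pow_le_pow_left h1 e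
  have h3 : 0 < T ^ e := by positivity
  have h4 : T ≤ T ^ d := Nat.le_self_pow hd.ne' T
  calc C2 * (C3 * T + 1) ^ e ≤ C2 * ((C3 + 1) ^ e * T ^ e) := Nat.mul_le_mul_left _ h2
    _ = T ^ e * (C2 * (C3 + 1) ^ e) := by ring
    _ < T ^ e * T := Nat.mul_lt_mul_of_pos_left (by omega) h3
    _ ≤ T ^ e * T ^ d := Nat.mul_le_mul_left _ h4
    _ = T ^ (e + d) := (pow_add _ _ _).symm

/-- The kernel of a nonzero linear form over a domain of rank `d`. -/
theorem L5_ker {n d : ℕ} {S : Type} [CommRing S] [IsDomain S] (bas : Module.Basis (Fin d) ℤ S)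
    (φ : Fin n → S) (hφ : φ ≠ 0) (A : Submodule ℤ (Fin n → S)) (hA : ∀ x ∈ A, φ ⬝ᵥ x = 0) :
    Module.finrank ℤ A + d ≤ d * n := by
  have := Module.Free.of_basis bas
  have := Module.Finite.of_basis bas
  obtain ⟨i, hi⟩ := Function.ne_iff.1 hφ
  have h1 := Submodule.finrank_quotient_add_finrank A
  have h2 : Module.finrank ℤ (Fin n → S) = d * n := by
    rw [Module.finrank_pi_fintype, Finset.sum_const, Module.finrank_eq_card_basis bas]
    simp [mul_comm]
  have h3 : Function.Injective (A.mkQ ∘ₗ LinearMap.single ℤ (fun _ : Fin n => S) i) := by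
    rw [injective_iff_map_eq_zero]
    intro s hs
    have h4 := hA _ ((Submodule.Quotient.mk_eq_zero A).1 hs)
    rw [LinearMap.coe_single, dotProduct_single] at h4
    exact (mul_eq_zero.1 h4).resolve_left hi
  have h5 := LinearMap.finrank_le_finrank_of_injective h3
  rw [Module.finrank_eq_card_basis bas, Fintype.card_fin] at h5
  omega

variable (p : ℕ) [Fact p.Prime] (n : ℕ) {F S : Type} [NontriviallyNormedField F]
  [IsUltrametricDist F] [NormedAlgebra ℚ_[p] F] [FiniteDimensional ℚ_[p] F] [CommRing S]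
  [StarRing S] {j : S →+* F} {bas : Module.Basis (Fin (2 * Module.finrank ℚ_[p] F)) ℤ S}
  {t : S →+ ℝ}

omit [Fact p.Prime] [NormedAlgebra ℚ_[p] F] [FiniteDimensional ℚ_[p] F] in
theorem InLat.herm {g : GL (Fin n) F} {M : ℕ} {x y : Fin n → S} (hx : InLat p j g M x)
    (hy : InLat p j g M y) : ‖j (∑ i, star (x i) * y i)‖ ≤ ‖(p : F)‖ ^ (2 * M) := by
  have h1 : j (∑ i, star (x i) * y i) =
      ((fun c => j (star (x c))) ᵥ* (g : Matrix (Fin n) (Fin n) F)) ⬝ᵥ
        (((g⁻¹ : GL (Fin n) F) : Matrix (Fin n) (Fin n) F) *ᵥ fun c => j (y c)) := by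
    rw [Matrix.dotProduct_mulVec, Matrix.vecMul_vecMul, Units.mul_inv, Matrix.vecMul_one, map_sum]
    simp only [map_mul, dotProduct]
  rw [h1, two_mul, pow_add]
  refine IsUltrametricDist.norm_sum_le_of_forall_le_of_nonneg (by positivity) fun i _ => ?_
  rw [norm_mul]
  exact mul_le_mul (hx.2 i) (hy.1 i) (norm_nonneg _) (by positivity)

theorem exists_coord_mul {d : ℕ} (bas : Module.Basis (Fin d) ℤ S) : ∃ C : ℕ,
    ∀ (x y : Fin n → S) (T : ℤ), (∀ i l, |bas.repr (x i) l| ≤ T) → (∀ i l, |bas.repr (y i) l| ≤ T) →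
      ∀ l, |bas.repr (∑ i, star (x i) * y i) l| ≤ C * T ^ 2 := by
  obtain ⟨B, hB⟩ := (Set.finite_range fun u : Fin d × Fin d × Fin d =>
    (bas.repr (star (bas u.1) * bas u.2.1) u.2.2).natAbs).bddAbove
  refine ⟨n * (d * (d * B)), fun x y T hx hy l => ?_⟩
  have h1 : ∀ i, bas.repr (star (x i) * y i) l = ∑ a, ∑ b,
      bas.repr (x i) a * bas.repr (y i) b * bas.repr (star (bas a) * bas b) l := by
    intro i
    conv_lhs => rw [← bas.sum_repr (x i), ← bas.sum_repr (y i)]
    rw [star_sum, Finset.sum_mul_sum, map_sum, Finsupp.finsetSum_apply]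
    refine Finset.sum_congr rfl fun a _ => ?_
    rw [map_sum, Finsupp.finsetSum_apply]
    refine Finset.sum_congr rfl fun b _ => ?_
    rw [star_zsmul, smul_mul_smul_comm, map_smul, Finsupp.smul_apply, smul_eq_mul]
  have h2 : ∀ i a b, |bas.repr (x i) a * bas.repr (y i) b * bas.repr (star (bas a) * bas b) l| ≤
      B * T ^ 2 := by
    intro i a b
    have hT : 0 ≤ T := (abs_nonneg _).trans (hx i a)
    have h3 : |bas.repr (star (bas a) * bas b) l| ≤ B := by
      have := hB ⟨(a, b, l), rfl⟩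
      rw [Int.abs_eq_natAbs]
      exact_mod_cast this
    rw [abs_mul, abs_mul]
    calc _ ≤ T * T * B := mul_le_mul (mul_le_mul (hx i a) (hy i b) (abs_nonneg _) hT) h3
          (abs_nonneg _) (by positivity)
      _ = B * T ^ 2 := by ring
  have h4 : ∀ {m : ℕ} (f : Fin m → ℤ) (c : ℤ), (∀ i, |f i| ≤ c) → |∑ i, f i| ≤ m * c := by
    intro m f c hf
    refine (Finset.abs_sum_le_sum_abs _ _).trans ?_
    simpa using Finset.sum_le_card_nsmul Finset.univ (fun i => |f i|) c fun i _ => hf i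
  rw [map_sum, Finsupp.finsetSum_apply]
  refine (h4 _ (d * (d * (B * T ^ 2))) fun i => ?_).trans (le_of_eq (by push_cast; ring))
  rw [h1]
  exact h4 _ _ fun a => h4 _ _ fun b => h2 i a b

/-- The lattice as a subgroup. -/
def L5_lat {F S : Type} [NormedField F] [IsUltrametricDist F] [CommRing S] [StarRing S] (p : ℕ)
    {n : ℕ} (j : S →+* F) (g : GL (Fin n) F) (M : ℕ) : AddSubgroup (Fin n → S) where
  carrier := {x | InLat p j g M x}
  zero_mem' := by
    constructor
    · intro i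
      have : (fun c => j ((0 : Fin n → S) c)) = 0 := by ext c; simp
      rw [this, Matrix.mulVec_zero, Pi.zero_apply, norm_zero]
      positivity
    · intro i
      have : (fun c => j (star ((0 : Fin n → S) c))) = 0 := by ext c; simp
      rw [this, Matrix.zero_vecMul, Pi.zero_apply, norm_zero]
      positivity
  add_mem' := by
    intro x y hx hy
    constructor
    · intro i
      have : (fun c => j ((x + y) c)) = (fun c => j (x c)) + fun c => j (y c) := by ext c; simp
      rw [this, Matrix.mulVec_add, Pi.add_apply]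
      exact (IsUltrametricDist.norm_add_le_max _ _).trans (max_le (hx.1 i) (hy.1 i))
    · intro i
      have : (fun c => j (star ((x + y) c))) =
          (fun c => j (star (x c))) + fun c => j (star (y c)) := by ext c; simp
      rw [this, Matrix.add_vecMul, Pi.add_apply]
      exact (IsUltrametricDist.norm_add_le_max _ _).trans (max_le (hx.2 i) (hy.2 i))
  neg_mem' := by
    intro x hx
    constructor
    · intro i
      have : (fun c => j ((-x) c)) = -fun c => j (x c) := by ext c; simp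
      rw [this, Matrix.mulVec_neg, Pi.neg_apply, norm_neg]
      exact hx.1 i
    · intro i
      have : (fun c => j (star ((-x) c))) = -fun c => j (star (x c)) := by ext c; simp
      rw [this, Matrix.neg_vecMul, Pi.neg_apply, norm_neg]
      exact hx.2 i

omit [FiniteDimensional ℚ_[p] F] in
/-- Nonzero lattice vectors are not too short. -/
theorem L5_long (h : IsOrd p j bas t) : ∃ K c : ℕ, ∀ (g : GL (Fin n) F) (M : ℕ), c ≤ M →
    ∀ z : Fin n → S, InLat p j g M z → z ≠ 0 → ∀ U : ℤ, (∀ i l, |bas.repr (z i) l| ≤ U) →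
      ((p : ℤ) ^ M) ^ 2 ≤ K * U ^ 2 := by
  obtain ⟨c, hc⟩ := h.sat
  obtain ⟨C1, hC1⟩ := exists_coord_mul n bas
  refine ⟨C1 * p ^ c, c, fun g M hM z hz hz0 U hU => ?_⟩
  have hs0 : ∑ i, star (z i) * z i ≠ 0 := fun h0 => hz0 (h.eq_zero h0)
  have hst : star (∑ i, star (z i) * z i) = ∑ i, star (z i) * z i := by
    rw [star_sum]
    refine Finset.sum_congr rfl fun i _ => ?_
    rw [star_mul, star_star]
  have hn := InLat.herm p n hz hz
  have he : 2 * M = (2 * M - c) + c := by omega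
  obtain ⟨s', hs'⟩ := hc (2 * M - c) (∑ i, star (z i) * z i) (by rw [← he]; exact hn)
    (by rw [← he, hst]; exact hn)
  have hs'0 : bas.repr s' ≠ 0 := by
    intro h0
    rw [LinearEquiv.map_eq_zero_iff] at h0
    exact hs0 (by rw [hs', h0, mul_zero])
  obtain ⟨l, hl⟩ := Finsupp.ne_iff.1 hs'0
  have h1 := hC1 z z U hU hU l
  have h2 : (p : S) ^ (2 * M - c) * s' = ((p : ℤ) ^ (2 * M - c)) • s' := by
    rw [zsmul_eq_mul]; push_cast; rfl
  rw [hs', h2, map_smul, Finsupp.smul_apply, smul_eq_mul, abs_mul, abs_pow, Nat.abs_cast] at h1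
  have h3 : 1 ≤ |bas.repr s' l| := Int.one_le_abs hl
  have hp : (0 : ℤ) < p := by exact_mod_cast (Fact.out : p.Prime).pos
  have h4 : (p : ℤ) ^ (2 * M - c) ≤ C1 * U ^ 2 :=
    (le_mul_of_one_le_right (by positivity) h3).trans h1
  calc ((p : ℤ) ^ M) ^ 2 = (p : ℤ) ^ (2 * M - c) * p ^ c := by
        rw [← pow_add, ← he, ← pow_mul, mul_comm]
    _ ≤ C1 * U ^ 2 * p ^ c := mul_le_mul_of_nonneg_right h4 (by positivity)
    _ = _ := by push_cast; ring

theorem short_vector (h : IsOrd p j bas t) : ∃ T : ℕ, ∀ g : GL (Fin n) F, ∃ M₀ : ℕ, ∀ M, M₀ ≤ M →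
    ∀ φ : Fin n → S, φ ≠ 0 → ∃ x : Fin n → S, InLat p j g M x ∧
      (∀ i l, |bas.repr (x i) l| ≤ T * (p : ℤ) ^ M) ∧ φ ⬝ᵥ x ≠ 0 := by
  classical
  have := Module.Free.of_basis bas
  have := Module.Finite.of_basis bas
  have : IsDomain S := h.inj.isDomain j
  have hd : 0 < 2 * Module.finrank ℚ_[p] F := by
    have := Module.finrank_pos (R := ℚ_[p]) (M := F)
    omega
  obtain ⟨C2, hC2⟩ := exists_hash p n j h.int
  obtain ⟨K, c, hK⟩ := L5_long p n h
  generalize hdd : 2 * Module.finrank ℚ_[p] F = d at bas hd hC2 hK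
  obtain ⟨T, hT⟩ := L5_T C2 (K + 1) (d * (n - 1)) d hd
  refine ⟨T, fun g => ?_⟩
  obtain ⟨M₀, hM₀⟩ := hC2 g
  refine ⟨max M₀ c, fun M hM φ hφ => ?_⟩
  obtain ⟨hash, hhash⟩ := hM₀ M ((le_max_left _ _).trans hM)
  have hKM := hK g M ((le_max_right _ _).trans hM)
  have hn : d * (n - 1) + d = d * n := by
    rcases n with _ | n
    · exact absurd (Subsingleton.elim _ _) hφ
    · simp [mul_add]
  have hp : 0 < p := (Fact.out : p.Prime).pos
  by_contra hcon
  push Not at hcon
  set m := (K + 1) * T + 1 with hm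
  let e : (Fin n → Fin d → Fin (T * p ^ M)) → Fin n → S :=
    fun a i => bas.equivFun.symm fun l => ((a i l : ℕ) : ℤ)
  have he : ∀ a i l, bas.repr (e a i) l = ((a i l : ℕ) : ℤ) := by
    intro a i l
    have := bas.equivFun.apply_symm_apply fun l => ((a i l : ℕ) : ℤ)
    exact congrFun this l
  have hdiff : ∀ a b i l, |bas.repr ((e a - e b) i) l| ≤ T * (p : ℤ) ^ M := by
    intro a b i l
    rw [Pi.sub_apply, map_sub, Finsupp.sub_apply, he, he, abs_le]
    have h1 : ((a i l : ℕ) : ℤ) < T * (p : ℤ) ^ M := by exact_mod_cast (a i l).2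
    have h2 : ((b i l : ℕ) : ℤ) < T * (p : ℤ) ^ M := by exact_mod_cast (b i l).2
    have h3 : (0 : ℤ) ≤ ((a i l : ℕ) : ℤ) := by positivity
    have h4 : (0 : ℤ) ≤ ((b i l : ℕ) : ℤ) := by positivity
    constructor <;> linarith
  have hinj : Function.Injective e := by
    intro a b hab
    ext i l
    have := he a i l
    rw [hab, he] at this
    exact_mod_cast this.symm
  obtain ⟨y, -, hy⟩ := Finset.exists_lt_card_fiber_of_mul_lt_card_of_maps_to
    (s := Finset.univ) (t := Finset.univ) (f := fun a => hash (e a)) (n := m ^ (d * (n - 1)))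
    (fun _ _ => Finset.mem_univ _) (by
      simp only [Finset.card_univ, Fintype.card_fin, Fintype.card_pi, Finset.prod_const]
      rw [hn] at hT
      have : 0 < (p ^ M) ^ (d * n) := by positivity
      calc _ = C2 * m ^ (d * (n - 1)) * (p ^ M) ^ (d * n) := by ring
        _ < T ^ (d * n) * (p ^ M) ^ (d * n) := Nat.mul_lt_mul_of_pos_right hT this
        _ = _ := by rw [← mul_pow, pow_mul])
  set Y := Finset.univ.filter fun a => hash (e a) = y with hY
  obtain ⟨a₀, ha₀⟩ : Y.Nonempty := Finset.card_pos.1 ((Nat.zero_le _).trans_lt hy)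
  have hlat : ∀ a ∈ Y, ∀ b ∈ Y, InLat p j g M (e a - e b) := fun a ha b hb =>
    hhash _ _ ((Finset.mem_filter.1 ha).2.trans (Finset.mem_filter.1 hb).2.symm)
  let ψ : (Fin n → S) →ₗ[ℤ] S :=
    { toFun := fun x => φ ⬝ᵥ x
      map_add' := fun x y => dotProduct_add _ _ _
      map_smul' := fun c x => by rw [dotProduct_smul]; rfl }
  let A : Submodule ℤ (Fin n → S) := (L5_lat p j g M).toIntSubmodule ⊓ LinearMap.ker ψ
  have hA := L5_ker bas φ hφ A fun x hx => hx.2
  have hcard := card_le_of_incongruent A m (by omega) (Y.image fun a => e a - e a₀) (by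
      intro x hx
      obtain ⟨a, ha, rfl⟩ := Finset.mem_image.1 hx
      exact ⟨hlat a ha a₀ ha₀, hcon _ (hlat a ha a₀ ha₀) (hdiff a a₀)⟩) (by
      intro x hx x' hx' z hz hxz
      obtain ⟨a, ha, rfl⟩ := Finset.mem_image.1 hx
      obtain ⟨b, hb, rfl⟩ := Finset.mem_image.1 hx'
      rw [sub_sub_sub_cancel_right] at hxz
      by_cases hz0 : z = 0
      · rw [hz0, smul_zero, sub_eq_zero] at hxz
        rw [hxz]
      exfalso
      have hm0 : (0 : ℤ) < m := by positivity
      have h1 := hKM z hz.1 hz0 (T * (p : ℤ) ^ M / m) fun i l => by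
        have h2 := hdiff a b i l
        rw [hxz, Pi.smul_apply, map_smul, Finsupp.smul_apply, smul_eq_mul, abs_mul,
          abs_of_pos hm0] at h2
        exact Int.le_ediv_of_mul_le hm0 (by rwa [mul_comm])
      have h3 : T * (p : ℤ) ^ M / m * m ≤ T * (p : ℤ) ^ M := Int.ediv_mul_le _ hm0.ne'
      have h4 : 0 ≤ T * (p : ℤ) ^ M / m := Int.ediv_nonneg (by positivity) hm0.le
      generalize T * (p : ℤ) ^ M / m = U at h1 h3 h4
      have hP : (0 : ℤ) < (p : ℤ) ^ M := by positivity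
      generalize (p : ℤ) ^ M = P at h1 h3 hP
      have h5 : (U * m) ^ 2 ≤ (T * P) ^ 2 := pow_le_pow_left₀ (by positivity) h3 2
      have h6 : P ^ 2 * m ^ 2 ≤ P ^ 2 * (K * T ^ 2) := by
        calc P ^ 2 * m ^ 2 ≤ K * U ^ 2 * m ^ 2 := mul_le_mul_of_nonneg_right h1 (by positivity)
          _ = K * (U * m) ^ 2 := by ring
          _ ≤ K * (T * P) ^ 2 := mul_le_mul_of_nonneg_left h5 (by positivity)
          _ = _ := by ring
      have h7 : (m : ℤ) ^ 2 ≤ K * T ^ 2 := le_of_mul_le_mul_left h6 (by positivity)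
      have h8 : (m : ℤ) = (K + 1) * T + 1 := by rw [hm]; push_cast; ring
      rw [h8] at h7
      have hK0 : (0 : ℤ) ≤ K := by positivity
      have hT0 : (0 : ℤ) ≤ T := by positivity
      nlinarith [mul_nonneg hK0 hT0, mul_nonneg hK0 (mul_nonneg hT0 hT0),
        mul_nonneg (mul_nonneg hK0 hK0) (mul_nonneg hT0 hT0), mul_nonneg hT0 hT0])
  rw [Finset.card_image_of_injective _ (fun a b hab => hinj (sub_left_injective hab))] at hcard
  have h9 : m ^ Module.finrank ℤ A ≤ m ^ (d * (n - 1)) :=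
    Nat.pow_le_pow_right (by omega) (by omega)
  omega

theorem short_matrix (h : IsOrd p j bas t) : ∃ T : ℕ, ∀ g : GL (Fin n) F, ∃ M₀ : ℕ, ∀ M, M₀ ≤ M →
    ∃ X : Matrix (Fin n) (Fin n) S, X.det ≠ 0 ∧ (∀ c, InLat p j g M fun i => X i c) ∧
      ∀ i c l, |bas.repr (X i c) l| ≤ T * (p : ℤ) ^ M := by
  have : IsDomain S := h.inj.isDomain j
  obtain ⟨T, hT⟩ := short_vector p n h
  refine ⟨T, fun g => ?_⟩
  obtain ⟨M₀, hM₀⟩ := hT g
  refine ⟨M₀, fun M hM => ?_⟩
  have key : ∀ k, k ≤ n → ∃ v : Fin k → Fin n → S, LinearIndependent S v ∧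
      ∀ c, InLat p j g M (v c) ∧ ∀ i l, |bas.repr (v c i) l| ≤ T * (p : ℤ) ^ M := by
    intro k
    induction k with
    | zero => exact fun _ => ⟨Fin.elim0, linearIndependent_empty_type, fun c => c.elim0⟩
    | succ k ih =>
      intro hk
      obtain ⟨v, hv, hv'⟩ := ih (by omega)
      let X : Matrix (Fin n) (Fin n) S :=
        Matrix.of fun i c => if hc : (c : ℕ) < k then v ⟨c, hc⟩ i else 0
      have hX : X.det = 0 :=
        Matrix.det_eq_zero_of_column_eq_zero ⟨k, by omega⟩ fun i => by simp [X]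
      obtain ⟨φ, hφ, hφX⟩ := Matrix.exists_vecMul_eq_zero_iff.2 hX
      have hφv : ∀ c, φ ⬝ᵥ v c = 0 := by
        intro c
        have := congrFun hφX ⟨c, by omega⟩
        simpa [X, Matrix.vecMul, dotProduct] using this
      obtain ⟨x, hx1, hx2, hx3⟩ := hM₀ M hM φ hφ
      refine ⟨Fin.cons x v, LinearIndependent.finCons' x v hv ?_, ?_⟩
      · intro c y hy hc
        have h1 : φ ⬝ᵥ y = 0 := by
          obtain ⟨w, rfl⟩ := (Submodule.mem_span_range_iff_exists_fun S).1 hy
          rw [dotProduct_sum]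
          exact Finset.sum_eq_zero fun c _ => by rw [dotProduct_smul, hφv, smul_zero]
        have h2 := congrArg (fun u => φ ⬝ᵥ u) hc
        simp only [dotProduct_add, dotProduct_smul, h1, add_zero, dotProduct_zero,
          smul_eq_mul] at h2
        exact (mul_eq_zero.1 h2).resolve_right hx3
      · exact Fin.cases ⟨hx1, hx2⟩ hv'
  obtain ⟨v, hv, hv'⟩ := key n le_rfl
  refine ⟨Matrix.of fun i c => v c i, fun h0 => ?_, fun c => (hv' c).1, fun i c l => (hv' c).2 i l⟩
  obtain ⟨w, hw0, hw⟩ := Matrix.exists_mulVec_eq_zero_iff.2 h0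
  refine hw0 (funext (Fintype.linearIndependent_iff.1 hv w ?_))
  ext i
  have := congrFun hw i
  simpa [Matrix.mulVec, dotProduct, mul_comm] using this

end Pool.Agent.MP_4d0c14_b
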