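import Pool.Agent.MP_4d0c14_b.Mat

/-! Orders with a positive involution and the arithmetic lattice. -/

namespace Pool.Agent.MP_4d0c14_b

open scoped Matrix

/-- An order `S` of rank `d` with a positive involution, embedded in the integers of `F`. -/
structure IsOrd (p : ℕ) {F S : Type} [NormedField F] [CommRing S] [StarRing S] {d : ℕ}
    (j : S →+* F) (bas : Module.Basis (Fin d) ℤ S) (t : S →+ ℝ) : Prop where
  inj : Function.Injective j
  int : ∀ s, ‖j s‖ ≤ 1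
  sat : ∃ c : ℕ, ∀ (m : ℕ) (s : S), ‖j s‖ ≤ ‖(p : F)‖ ^ (m + c) →
    ‖j (star s)‖ ≤ ‖(p : F)‖ ^ (m + c) → ∃ s', s = (p : S) ^ m * s'
  nonneg : ∀ s, 0 ≤ t (star s * s)
  fin : ∀ C : ℝ, {s | t (star s * s) ≤ C}.Finite

/-- `X` represents `p ^ m g`. -/
def Repr (p : ℕ) {n : ℕ} {F S : Type} [Field F] [CommRing S] [StarRing S] (j : S →+* F)
    (g : GL (Fin n) F) (m : ℕ) (X : Matrix (Fin n) (Fin n) S) : Prop :=
  (p : F) ^ m • (g : Matrix (Fin n) (Fin n) F) = X.map j ∧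
    (p : F) ^ m • ((g⁻¹ : GL (Fin n) F) : Matrix (Fin n) (Fin n) F) = Xᴴ.map j

/-- The vector `x` lies in the lattice attached to `g`, at scale `M`. -/
def InLat (p : ℕ) {n : ℕ} {F S : Type} [NormedField F] [CommRing S] [StarRing S] (j : S →+* F)
    (g : GL (Fin n) F) (M : ℕ) (x : Fin n → S) : Prop :=
  (∀ i, ‖(((g⁻¹ : GL (Fin n) F) : Matrix (Fin n) (Fin n) F) *ᵥ fun c => j (x c)) i‖ ≤
    ‖(p : F)‖ ^ M) ∧
  ∀ i, ‖((fun c => j (star (x c))) ᵥ* (g : Matrix (Fin n) (Fin n) F)) i‖ ≤ ‖(p : F)‖ ^ M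

theorem Repr.mul {p n : ℕ} {F S : Type} [Field F] [CommRing S] [StarRing S] {j : S →+* F}
    {g h : GL (Fin n) F} {m m' : ℕ} {X X' : Matrix (Fin n) (Fin n) S} (hg : Repr p j g m X)
    (hh : Repr p j h m' X') : Repr p j (g * h) (m + m') (X * X') := by
  constructor
  · rw [Matrix.map_mul, ← hg.1, ← hh.1, pow_add, Units.val_mul, Matrix.smul_mul, Matrix.mul_smul,
      smul_smul]
  · rw [Matrix.conjTranspose_mul, Matrix.map_mul, ← hg.2, ← hh.2, pow_add, mul_inv_rev,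
      Units.val_mul, Matrix.smul_mul, Matrix.mul_smul, smul_smul, mul_comm]

theorem Repr.inv {p n : ℕ} {F S : Type} [Field F] [CommRing S] [StarRing S] {j : S →+* F}
    {g : GL (Fin n) F} {m : ℕ} {X : Matrix (Fin n) (Fin n) S} (hg : Repr p j g m X) :
    Repr p j g⁻¹ m Xᴴ :=
  ⟨hg.2, by rw [inv_inv, Matrix.conjTranspose_conjTranspose]; exact hg.1⟩

/-- The lattice. -/
def Gam (p n : ℕ) {F S : Type} [NormedField F] [CommRing S] [StarRing S] (j : S →+* F) :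
    Subgroup (GL (Fin n) F) where
  carrier := {g | ‖(g : Matrix (Fin n) (Fin n) F).det‖ = 1 ∧ ∃ m X, Repr p j g m X}
  mul_mem' := by
    rintro g h ⟨hg, m, X, hX⟩ ⟨hh, m', X', hX'⟩
    exact ⟨by rw [Units.val_mul, Matrix.det_mul, norm_mul, hg, hh, mul_one], _, _, hX.mul hX'⟩
  one_mem' := ⟨by simp, 0, 1, by simp, by simp⟩
  inv_mem' := by
    rintro g ⟨hg, m, X, hX⟩
    exact ⟨by simp [hg], _, _, hX.inv⟩

end Pool.Agent.MP_4d0c14_b
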