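import Pool.Agent.MP_4d0c14_b.Stmt

/-! Entrywise bounds for matrices over an ultrametric field. -/

namespace Pool.Agent.MP_4d0c14_b

open scoped Matrix Kronecker

/-- All entries have norm at most `C`. -/
def MLe {α β E : Type*} [Norm E] (C : ℝ) (X : Matrix α β E) : Prop := ∀ i j, ‖X i j‖ ≤ C

namespace MLe

variable {α β γ δ E : Type*} [NormedField E] {a b : ℝ}

theorem mono {X : Matrix α β E} (h : MLe a X) (hab : a ≤ b) : MLe b X :=
  fun i j => (h i j).trans hab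

theorem zero (ha : 0 ≤ a) : MLe a (0 : Matrix α β E) := fun _ _ => by simpa using ha

theorem one [DecidableEq α] : MLe 1 (1 : Matrix α α E) := fun i j => by
  by_cases h : i = j <;> simp [Matrix.one_apply, h]

theorem neg {X : Matrix α β E} (h : MLe a X) : MLe a (-X) := fun i j => by simpa using h i j

theorem transpose {X : Matrix α β E} (h : MLe a X) : MLe a Xᵀ := fun i j => h j i

theorem smul {X : Matrix α β E} (h : MLe a X) (c : E) : MLe (‖c‖ * a) (c • X) := fun i j => by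
  rw [Matrix.smul_apply, norm_smul]
  exact mul_le_mul_of_nonneg_left (h i j) (norm_nonneg _)

theorem kron {X : Matrix α β E} {Y : Matrix γ δ E} (hX : MLe a X) (hY : MLe b Y) :
    MLe (a * b) (X ⊗ₖ Y) := fun i j => by
  rw [Matrix.kroneckerMap_apply, norm_mul]
  exact mul_le_mul (hX _ _) (hY _ _) (norm_nonneg _) ((norm_nonneg _).trans (hX i.1 j.1))

theorem eq_zero {X : Matrix α β E} (h : ∀ ε : ℝ, 0 < ε → MLe ε X) : X = 0 := by
  ext i j
  exact norm_le_zero_iff.1 (le_of_forall_pos_le_add fun ε hε => by simpa using h ε hε i j)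

theorem exists_bound [Finite α] [Finite β] (X : Matrix α β E) : ∃ C, 0 < C ∧ MLe C X := by
  obtain ⟨C, hC⟩ := (Set.finite_range fun x : α × β => ‖X x.1 x.2‖).bddAbove
  exact ⟨max C 1, lt_max_of_lt_right one_pos, fun i j => (hC ⟨(i, j), rfl⟩).trans (le_max_left _ _)⟩

variable [IsUltrametricDist E]

theorem add {X Y : Matrix α β E} (hX : MLe a X) (hY : MLe a Y) : MLe a (X + Y) := fun i j =>
  (IsUltrametricDist.norm_add_le_max _ _).trans (max_le (hX i j) (hY i j))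

theorem sub {X Y : Matrix α β E} (hX : MLe a X) (hY : MLe a Y) : MLe a (X - Y) := by
  rw [sub_eq_add_neg]; exact hX.add hY.neg

theorem sum {σ : Type*} {s : Finset σ} {X : σ → Matrix α β E} (ha : 0 ≤ a)
    (h : ∀ x ∈ s, MLe a (X x)) : MLe a (∑ x ∈ s, X x) := fun i j => by
  rw [Matrix.sum_apply]
  exact IsUltrametricDist.norm_sum_le_of_forall_le_of_nonneg ha fun x hx => h x hx i j

theorem finsum {σ : Type*} {X : σ → Matrix α β E} (ha : 0 ≤ a) (h : ∀ x, MLe a (X x)) :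
    MLe a (∑ᶠ x, X x) :=
  finsum_induction (MLe a) (zero ha) (fun _ _ => add) h

theorem mul [Fintype β] {X : Matrix α β E} {Y : Matrix β γ E} (hX : MLe a X) (hY : MLe b Y)
    (ha : 0 ≤ a) (hb : 0 ≤ b) : MLe (a * b) (X * Y) := fun i j => by
  rw [Matrix.mul_apply]
  refine IsUltrametricDist.norm_sum_le_of_forall_le_of_nonneg (mul_nonneg ha hb) fun x _ => ?_
  rw [norm_mul]
  exact mul_le_mul (hX _ _) (hY _ _) (norm_nonneg _) ha

theorem mulVec [Fintype α] [Fintype β] {X : Matrix α β E} (hX : MLe a X) (ha : 0 ≤ a)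
    (v : β → E) : ‖X *ᵥ v‖ ≤ a * ‖v‖ := by
  refine (pi_norm_le_iff_of_nonneg (mul_nonneg ha (norm_nonneg _))).2 fun i => ?_
  refine IsUltrametricDist.norm_sum_le_of_forall_le_of_nonneg
    (mul_nonneg ha (norm_nonneg _)) fun x _ => ?_
  rw [norm_mul]
  exact mul_le_mul (hX _ _) (norm_le_pi_norm v x) (norm_nonneg _) ha

end MLe

section GLn

variable {n : ℕ} {F : Type}

@[simp] theorem coe_tr [Field F] (g : GL (Fin n) F) :
    ((tr g : GL (Fin n) F) : Matrix (Fin n) (Fin n) F) = (g : Matrix (Fin n) (Fin n) F)ᵀ := rfl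

@[simp] theorem tr_tr [Field F] (g : GL (Fin n) F) : tr (tr g) = g := Units.ext rfl

@[simp] theorem coe_dg [Field F] (t : Fin n → Fˣ) :
    ((dg t : GL (Fin n) F) : Matrix (Fin n) (Fin n) F) = Matrix.diagonal fun i => (t i : F) := rfl

theorem dg_mul [Field F] (s t : Fin n → Fˣ) : dg (s * t) = dg s * dg t :=
  Units.ext (by simp [Matrix.diagonal_mul_diagonal])

theorem dg_one [Field F] : dg (1 : Fin n → Fˣ) = 1 := Units.ext (by simp)

theorem dg_inv [Field F] (t : Fin n → Fˣ) : dg t⁻¹ = (dg t)⁻¹ := Units.ext rfl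

/-- The diagonal embedding as a homomorphism. -/
def dgHom [Field F] : (Fin n → Fˣ) →* GL (Fin n) F where
  toFun := dg
  map_one' := dg_one
  map_mul' := dg_mul

theorem dg_const_comm [Field F] (z : Fˣ) (g : GL (Fin n) F) :
    dg (fun _ => z) * g = g * dg (fun _ => z) := by
  ext i j
  simp [mul_comm]

/-- The elementary matrix `1 + s E_{i j}` for `i ≠ j`. -/
def tv [Field F] (i j : Fin n) (h : i ≠ j) (s : F) : GL (Fin n) F where
  val := Matrix.transvection i j s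
  inv := Matrix.transvection i j (-s)
  val_inv := by rw [Matrix.transvection_mul_transvection_same _ _ h]; simp
  inv_val := by rw [Matrix.transvection_mul_transvection_same _ _ h]; simp

@[simp] theorem coe_tv [Field F] (i j : Fin n) (h : i ≠ j) (s : F) :
    ((tv i j h s : GL (Fin n) F) : Matrix (Fin n) (Fin n) F) = Matrix.transvection i j s := rfl

theorem tv_add [Field F] (i j : Fin n) (h : i ≠ j) (s s' : F) :
    tv i j h (s + s') = tv i j h s * tv i j h s' :=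
  Units.ext (Matrix.transvection_mul_transvection_same _ _ h _ _).symm

theorem tv_zero [Field F] (i j : Fin n) (h : i ≠ j) : tv i j h (0 : F) = 1 :=
  Units.ext (Matrix.transvection_zero _ _)

theorem tv_neg [Field F] (i j : Fin n) (h : i ≠ j) (s : F) : tv i j h (-s) = (tv i j h s)⁻¹ :=
  Units.ext (by simp [tv])

/-- Upper triangular. -/
def IsUp [Field F] (g : GL (Fin n) F) : Prop :=
  ∀ i j, j < i → (g : Matrix (Fin n) (Fin n) F) i j = 0

/-- Upper triangular with diagonal entries `1`. -/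
def IsUp1 [Field F] (g : GL (Fin n) F) : Prop :=
  ∀ i j, j ≤ i → (g : Matrix (Fin n) (Fin n) F) i j = (1 : Matrix (Fin n) (Fin n) F) i j

/-- Lower triangular with diagonal entries `1`. -/
def IsLow1 [Field F] (g : GL (Fin n) F) : Prop :=
  ∀ i j, i ≤ j → (g : Matrix (Fin n) (Fin n) F) i j = (1 : Matrix (Fin n) (Fin n) F) i j

variable [NormedField F]

theorem bnd_iff {C : ℝ} {g : GL (Fin n) F} : Bnd C g ↔ MLe C (g : Matrix (Fin n) (Fin n) F) ∧
    MLe C ((g⁻¹ : GL (Fin n) F) : Matrix (Fin n) (Fin n) F) :=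
  ⟨fun h => ⟨fun i j => (h i j).1, fun i j => (h i j).2⟩, fun h i j => ⟨h.1 i j, h.2 i j⟩⟩

theorem Bnd.mono {C C' : ℝ} {g : GL (Fin n) F} (h : Bnd C g) (hC : C ≤ C') : Bnd C' g :=
  fun i j => ⟨(h i j).1.trans hC, (h i j).2.trans hC⟩

theorem Bnd.inv {C : ℝ} {g : GL (Fin n) F} (h : Bnd C g) : Bnd C g⁻¹ :=
  fun i j => ⟨(h i j).2, by rw [inv_inv]; exact (h i j).1⟩

theorem Bnd.tr {C : ℝ} {g : GL (Fin n) F} (h : Bnd C g) : Bnd C (tr g) :=
  fun i j => ⟨(h j i).1, (h j i).2⟩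

theorem exists_bnd (g : GL (Fin n) F) : ∃ C, 0 < C ∧ Bnd C g := by
  obtain ⟨a, ha, h⟩ := MLe.exists_bound (g : Matrix (Fin n) (Fin n) F)
  obtain ⟨b, -, h'⟩ := MLe.exists_bound ((g⁻¹ : GL (Fin n) F) : Matrix (Fin n) (Fin n) F)
  exact ⟨max a b, lt_max_of_lt_left ha,
    bnd_iff.2 ⟨h.mono (le_max_left _ _), h'.mono (le_max_right _ _)⟩⟩

theorem Near.mono {r s : ℝ} {g : GL (Fin n) F} (h : Near r g) (hrs : r ≤ s) : Near s g :=
  fun i j => (h i j).trans_le hrs

theorem Near.tr {r : ℝ} {g : GL (Fin n) F} (h : Near r g) : Near r (tr g) := fun i j => by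
  simpa [Matrix.one_apply, eq_comm] using h j i

theorem near_one {r : ℝ} (hr : 0 < r) : Near r (1 : GL (Fin n) F) := fun i j => by simpa using hr

variable [IsUltrametricDist F]

theorem Bnd.mul {C C' : ℝ} {g h : GL (Fin n) F} (hg : Bnd C g) (hh : Bnd C' h) (hC : 0 ≤ C)
    (hC' : 0 ≤ C') : Bnd (C * C') (g * h) := by
  rw [bnd_iff] at *
  refine ⟨hg.1.mul hh.1 hC hC', ?_⟩
  rw [mul_inv_rev, mul_comm C]
  exact hh.2.mul hg.2 hC' hC

omit [IsUltrametricDist F] in
theorem Near.exists_le {r : ℝ} (hr : 0 < r) {g : GL (Fin n) F} (h : Near r g) :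
    ∃ s, 0 ≤ s ∧ s < r ∧ MLe s ((g : Matrix (Fin n) (Fin n) F) - 1) := by
  let Y : Fin n → Fin n → F := fun i j => ((g : Matrix (Fin n) (Fin n) F) - 1) i j
  refine ⟨‖Y‖, norm_nonneg _, (pi_norm_lt_iff hr).2 fun i => (pi_norm_lt_iff hr).2 (h i),
    fun i j => (norm_le_pi_norm (Y i) j).trans (norm_le_pi_norm Y i)⟩

theorem Near.mle_one {r : ℝ} (hr : r ≤ 1) {g : GL (Fin n) F} (h : Near r g) :
    MLe 1 (g : Matrix (Fin n) (Fin n) F) := by
  have : (g : Matrix (Fin n) (Fin n) F) = (g - 1) + 1 := by simp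
  rw [this]
  exact MLe.add (fun i j => (h i j).le.trans hr) MLe.one

theorem Near.mul {r : ℝ} (hr0 : 0 < r) (hr : r ≤ 1) {g h : GL (Fin n) F} (hg : Near r g)
    (hh : Near r h) : Near r (g * h) := by
  obtain ⟨s, hs0, hs, hs'⟩ := hg.exists_le hr0
  obtain ⟨u, hu0, hu, hu'⟩ := hh.exists_le hr0
  have e : ((g * h : GL (Fin n) F) : Matrix (Fin n) (Fin n) F) - 1 =
      ((g : Matrix (Fin n) (Fin n) F) - 1) * h + (h - 1) := by
    rw [Units.val_mul, Matrix.sub_mul, Matrix.one_mul]; abel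
  have h1 := hs'.mul (hh.mle_one hr) hs0 zero_le_one
  rw [mul_one] at h1
  intro i j
  rw [e]
  exact ((h1.mono (le_max_left s u)).add (hu'.mono (le_max_right s u)) i j).trans_lt
    (max_lt hs hu)

theorem Near.inv {r : ℝ} (hr0 : 0 < r) (hr : r ≤ 1) {g : GL (Fin n) F} (hg : Near r g) :
    Near r g⁻¹ := by
  obtain ⟨s, hs0, hs, hs'⟩ := hg.exists_le hr0
  set X := (g : Matrix (Fin n) (Fin n) F) - 1 with hX
  set Y := ((g⁻¹ : GL (Fin n) F) : Matrix (Fin n) (Fin n) F) - 1 with hY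
  have e : Y = -X - X * Y := by
    have := g.mul_inv
    rw [hX, hY, Matrix.mul_sub, Matrix.sub_mul, this, Matrix.one_mul, Matrix.mul_one]
    abel
  let Z : Fin n → Fin n → F := fun i j => Y i j
  have hZ : MLe ‖Z‖ Y := fun i j => (norm_le_pi_norm (Z i) j).trans (norm_le_pi_norm Z i)
  have h1 : MLe (max s (s * ‖Z‖)) Y := by
    rw [e]
    exact (hs'.neg.mono (le_max_left _ _)).sub
      ((hs'.mul hZ hs0 (norm_nonneg _)).mono (le_max_right _ _))
  have h0 : 0 ≤ max s (s * ‖Z‖) := le_max_of_le_left hs0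
  have h2 : ‖Z‖ ≤ max s (s * ‖Z‖) :=
    (pi_norm_le_iff_of_nonneg h0).2 fun i => (pi_norm_le_iff_of_nonneg h0).2 (h1 i)
  have h3 : ‖Z‖ ≤ s := by
    rcases le_max_iff.1 h2 with h | h
    · exact h
    · have : ‖Z‖ ≤ 0 := by nlinarith [norm_nonneg Z]
      exact this.trans hs0
  exact fun i j => (hZ i j).trans_lt (h3.trans_lt hs)

theorem Near.bnd {r : ℝ} (hr0 : 0 < r) (hr : r ≤ 1) {g : GL (Fin n) F} (hg : Near r g) :
    Bnd 1 g := bnd_iff.2 ⟨hg.mle_one hr, (hg.inv hr0 hr).mle_one hr⟩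

theorem Near.conj {r : ℝ} (hr0 : 0 < r) {g k : GL (Fin n) F} (hg : Near r g) (hk : Bnd 1 k) :
    Near r (k⁻¹ * g * k) := by
  obtain ⟨s, hs0, hs, hs'⟩ := hg.exists_le hr0
  have e : ((k⁻¹ * g * k : GL (Fin n) F) : Matrix (Fin n) (Fin n) F) - 1 =
      ((k⁻¹ : GL (Fin n) F) : Matrix (Fin n) (Fin n) F) * (g - 1) * k := by
    rw [Matrix.mul_sub, Matrix.sub_mul, Matrix.mul_one, ← Units.val_mul, ← Units.val_mul,
      ← Units.val_mul, inv_mul_cancel, Units.val_one]
  rw [bnd_iff] at hk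
  have h1 := (hk.2.mul hs' zero_le_one hs0).mul hk.1 (by simpa using hs0) zero_le_one
  intro i j
  rw [e]
  exact (h1 i j).trans_lt (by simpa using hs)

variable (n F) in
/-- The congruence subgroup of radius `r ≤ 1`. -/
def KK (r : ℝ) (hr0 : 0 < r) (hr : r ≤ 1) : Subgroup (GL (Fin n) F) where
  carrier := {g | Near r g}
  mul_mem' := Near.mul hr0 hr
  one_mem' := near_one hr0
  inv_mem' := Near.inv hr0 hr

theorem mem_KK {r : ℝ} {hr0 : 0 < r} {hr : r ≤ 1} {g : GL (Fin n) F} :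
    g ∈ KK n F r hr0 hr ↔ Near r g := Iff.rfl

end GLn

end Pool.Agent.MP_4d0c14_b
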