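import Mathlib

/-!
Statement-level definitions for the Breuil-Schneider conjecture for GL(n, F):
algebraic representations, types on a Levi subgroup, parabolic induction.
-/

namespace Pool.Agent.MP_4d0c14_b

open scoped TensorProduct Matrix

/-- All entries of `g - 1` have norm less than `r`. -/
def Near {n : ℕ} {F : Type} [NormedField F] (r : ℝ) (g : GL (Fin n) F) : Prop :=
  ∀ i j, ‖((g : Matrix (Fin n) (Fin n) F) - 1) i j‖ < r

/-- All entries of `g` and of `g⁻¹` have norm at most `C`. -/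
def Bnd {n : ℕ} {F : Type} [NormedField F] (C : ℝ) (g : GL (Fin n) F) : Prop :=
  ∀ i j, ‖(g : Matrix (Fin n) (Fin n) F) i j‖ ≤ C ∧
    ‖((g⁻¹ : GL (Fin n) F) : Matrix (Fin n) (Fin n) F) i j‖ ≤ C

/-- `g` is block diagonal, the index `i` lying in the block `b i`. -/
def IsLevi {n k : ℕ} {F : Type} [Field F] (b : Fin n → Fin k) (g : GL (Fin n) F) : Prop :=
  ∀ i j, b i ≠ b j → (g : Matrix (Fin n) (Fin n) F) i j = 0

/-- `g` is block upper triangular with identity diagonal blocks. -/
def IsUnip {n k : ℕ} {F : Type} [Field F] (b : Fin n → Fin k) (g : GL (Fin n) F) : Prop :=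
  ∀ i j, b j ≤ b i → (g : Matrix (Fin n) (Fin n) F) i j = (1 : Matrix (Fin n) (Fin n) F) i j

/-- The diagonal matrix with entries `t i`. -/
def dg {n : ℕ} {F : Type} [Field F] (t : Fin n → Fˣ) : GL (Fin n) F where
  val := Matrix.diagonal fun i => (t i : F)
  inv := Matrix.diagonal fun i => (((t i)⁻¹ : Fˣ) : F)
  val_inv := by simp [Matrix.diagonal_mul_diagonal]
  inv_val := by simp [Matrix.diagonal_mul_diagonal]

/-- The transpose of an invertible matrix. -/
def tr {n : ℕ} {F : Type} [Field F] (g : GL (Fin n) F) : GL (Fin n) F where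
  val := (g : Matrix (Fin n) (Fin n) F)ᵀ
  inv := ((g⁻¹ : GL (Fin n) F) : Matrix (Fin n) (Fin n) F)ᵀ
  val_inv := by rw [← Matrix.transpose_mul, Units.inv_mul, Matrix.transpose_one]
  inv_val := by rw [← Matrix.transpose_mul, Units.mul_inv, Matrix.transpose_one]

theorem tr_mul {n : ℕ} {F : Type} [Field F] (g h : GL (Fin n) F) : tr (g * h) = tr h * tr g :=
  Units.ext (Matrix.transpose_mul _ _)

theorem tr_one {n : ℕ} {F : Type} [Field F] : tr (1 : GL (Fin n) F) = 1 :=
  Units.ext Matrix.transpose_one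

theorem tr_inv {n : ℕ} {F : Type} [Field F] (g : GL (Fin n) F) : tr g⁻¹ = (tr g)⁻¹ :=
  Units.ext rfl

theorem tr_dg {n : ℕ} {F : Type} [Field F] (t : Fin n → Fˣ) : tr (dg t) = dg t :=
  Units.ext (Matrix.diagonal_transpose _)

/-- A type on the block diagonal Levi subgroup `M` with `k` blocks: an open subgroup `J` of `M`
which contains the centre of `M` and is bounded modulo it, and a smooth representation `lam` of `J`
on `E^m` on which the centre acts by the character `omega`. -/
structure TypeData (n k m : ℕ) (F E : Type) [NormedField F] [Field E] where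
  b : Fin n → Fin k
  mono : Monotone b
  surj : Function.Surjective b
  J : Subgroup (GL (Fin n) F)
  lam : J →* Matrix (Fin m) (Fin m) E
  omega : (Fin k → Fˣ) →* Eˣ
  levi : ∀ j ∈ J, IsLevi b j
  smooth : ∃ r : ℝ, 0 < r ∧ ∀ g, IsLevi b g → Near r g → ∃ h : g ∈ J, lam ⟨g, h⟩ = 1
  centre : ∀ z : Fin k → Fˣ, ∃ h : dg (fun i => z (b i)) ∈ J,
    lam ⟨_, h⟩ = (omega z : E) • (1 : Matrix (Fin m) (Fin m) E)
  bdd : ∃ C : ℝ, ∀ j ∈ J, ∃ z : Fin k → Fˣ, Bnd C (dg (fun i => z (b i)) * j)

/-- The transposed type: the group `Jᵀ` with the representation `j ↦ (lam jᵀ)ᵀ`. -/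
def TypeData.transpose {n k m : ℕ} {F E : Type} [NormedField F] [Field E]
    (D : TypeData n k m F E) : TypeData n k m F E where
  b := D.b
  mono := D.mono
  surj := D.surj
  J :=
    { carrier := {g | tr g ∈ D.J}
      mul_mem' := fun {g h} hg hh => by
        simpa only [Set.mem_ofPred_eq, tr_mul] using D.J.mul_mem hh hg
      one_mem' := by simpa only [Set.mem_ofPred_eq, tr_one] using D.J.one_mem
      inv_mem' := fun {g} hg => by simpa only [Set.mem_ofPred_eq, tr_inv] using D.J.inv_mem hg }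
  lam :=
    { toFun := fun j => (D.lam ⟨tr j.1, j.2⟩)ᵀ
      map_one' := by
        have : (⟨tr 1, by rw [tr_one]; exact D.J.one_mem⟩ : D.J) = 1 := Subtype.ext tr_one
        exact (congrArg (fun x => (D.lam x)ᵀ) this).trans (by simp)
      map_mul' := fun g h => by
        rw [← Matrix.transpose_mul, ← map_mul]
        exact congrArg (fun x => (D.lam x)ᵀ) (Subtype.ext (tr_mul _ _)) }
  omega := D.omega
  levi := fun j hj i i' h => D.levi _ hj i' i h.symm
  smooth := by
    obtain ⟨r, hr, h⟩ := D.smooth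
    refine ⟨r, hr, fun g hg hn => ?_⟩
    obtain ⟨h1, h2⟩ := h (tr g) (fun i j hij => hg j i hij.symm) (fun i j => by
      simpa [tr, Matrix.one_apply, eq_comm] using hn j i)
    exact ⟨h1, (congrArg Matrix.transpose h2).trans Matrix.transpose_one⟩
  centre := fun z => by
    obtain ⟨h1, h2⟩ := D.centre z
    have h3 : tr (dg fun i => z (D.b i)) ∈ D.J := by rwa [tr_dg]
    refine ⟨h3, ?_⟩
    have : (⟨_, h3⟩ : D.J) = ⟨_, h1⟩ := Subtype.ext (tr_dg _)
    exact (congrArg (fun x => (D.lam x)ᵀ) this).trans (by simp [h2])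
  bdd := by
    obtain ⟨C, h⟩ := D.bdd
    refine ⟨C, fun j hj => ?_⟩
    obtain ⟨z, hz⟩ := h _ hj
    refine ⟨z, fun i i' => ?_⟩
    have hl := D.levi _ hj
    have e : dg (fun i => z (D.b i)) * j = tr (dg (fun i => z (D.b i)) * tr j) := by
      ext a c
      by_cases hac : D.b a = D.b c
      · simp [tr, dg, hac, mul_comm]
      · have := hl c a (Ne.symm hac)
        simp only [tr, Matrix.transpose_apply] at this
        simp [tr, dg, this]
    rw [e, ← tr_inv]
    exact hz i' i

/-- Right translation on all functions `G → V`. -/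
def rightReg (G E V : Type) [Monoid G] [Field E] [AddCommGroup V] [Module E V] :
    Representation E G (G → V) where
  toFun γ := LinearMap.funLeft E V fun x => x * γ
  map_one' := by
    ext f x
    simp [LinearMap.funLeft_apply]
  map_mul' g h := by
    ext f x
    simp [LinearMap.funLeft_apply, mul_assoc]

/-- Right translation on an invariant space of functions. -/
noncomputable def subRight {G E V : Type} [Monoid G] [Field E] [AddCommGroup V] [Module E V]
    (W : Submodule E (G → V)) (hW : ∀ γ, W ≤ W.comap (rightReg G E V γ)) : Rep E G :=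
  Rep.of ((rightReg G E V).subrepresentation W hW)

theorem exists_near_conj {n : ℕ} {F : Type} [NormedField F] (g : GL (Fin n) F) {r : ℝ}
    (hr : 0 < r) : ∃ s : ℝ, 0 < s ∧ ∀ k : GL (Fin n) F, Near s k → Near r (g⁻¹ * k * g) := by
  let A := ((g⁻¹ : GL (Fin n) F) : Matrix (Fin n) (Fin n) F)
  let B := (g : Matrix (Fin n) (Fin n) F)
  let f : (Fin n → Fin n → F) → Fin n → Fin n → F := fun Y i j => (A * Matrix.of Y * B) i j
  have hf : Continuous f := by
    refine continuous_pi fun i => continuous_pi fun j => ?_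
    simp only [f, Matrix.mul_apply, Matrix.of_apply]
    fun_prop
  have h0 : f 0 = 0 := by
    ext i j
    simp [f, Matrix.mul_apply]
  obtain ⟨s, hs, h⟩ := Metric.continuousAt_iff.1 (hf.continuousAt (x := 0)) r hr
  refine ⟨s, hs, fun k hk i j => ?_⟩
  have h1 : dist (f fun i j => ((k : Matrix (Fin n) (Fin n) F) - 1) i j) (f 0) < r := by
    apply h
    rw [dist_zero_right, pi_norm_lt_iff hs]
    intro i
    rw [pi_norm_lt_iff hs]
    exact hk i
  rw [h0, dist_zero_right] at h1
  have h2 := (pi_norm_lt_iff hr).1 ((pi_norm_lt_iff hr).1 h1 i) j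
  have h3 : A * ((k : Matrix (Fin n) (Fin n) F) - 1) * B =
      ((g⁻¹ * k * g : GL (Fin n) F) : Matrix (Fin n) (Fin n) F) - 1 := by
    rw [Matrix.mul_sub, Matrix.sub_mul, Matrix.mul_one, ← Units.val_mul, ← Units.val_mul,
      ← Units.val_mul, inv_mul_cancel, Units.val_one]
  rw [← h3]
  exact h2

/-- The space of the smooth unnormalised induction `Ind_P^G (c-Ind_J^M lam)`: functions
`f : GL(n, F) → E^m` with `f (j u g) = lam j (f g)` for `j ∈ J` and `u` in the unipotent radical,
right invariant under all `h` close enough to `1`, and such that `x ↦ f (x g)` is supported on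
finitely many cosets `J s` in `M`. -/
def indSpace {n k m : ℕ} {F E : Type} [NormedField F] [Field E] (D : TypeData n k m F E) :
    Submodule E (GL (Fin n) F → Fin m → E) where
  carrier := {f | (∀ (j : D.J) (u g : GL (Fin n) F), IsUnip D.b u →
      f (j * u * g) = D.lam j *ᵥ f g) ∧
    (∃ r : ℝ, 0 < r ∧ ∀ h g : GL (Fin n) F, Near r h → f (g * h) = f g) ∧
    ∀ g, ∃ S : Finset (GL (Fin n) F), ∀ x, IsLevi D.b x → f (x * g) ≠ 0 →
      ∃ s ∈ S, x * s⁻¹ ∈ D.J}
  zero_mem' := ⟨by simp, ⟨1, one_pos, by simp⟩, fun g => ⟨∅, by simp⟩⟩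
  add_mem' := by
    classical
    rintro f f' ⟨hf, ⟨r, hr, hfr⟩, hS⟩ ⟨hf', ⟨r', hr', hfr'⟩, hS'⟩
    refine ⟨fun j u g hu => ?_, ⟨min r r', lt_min hr hr', fun h g hh => ?_⟩, fun g => ?_⟩
    · simp only [Pi.add_apply, hf j u g hu, hf' j u g hu, Matrix.mulVec_add]
    · simp only [Pi.add_apply, hfr h g fun i j => (hh i j).trans_le (min_le_left _ _),
        hfr' h g fun i j => (hh i j).trans_le (min_le_right _ _)]
    · obtain ⟨S, hS⟩ := hS g
      obtain ⟨S', hS'⟩ := hS' g
      refine ⟨S ∪ S', fun x hx h0 => ?_⟩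
      by_cases h1 : f (x * g) = 0
      · obtain ⟨s, hs, h⟩ := hS' x hx (by simpa [h1] using h0)
        exact ⟨s, Finset.mem_union_right _ hs, h⟩
      · obtain ⟨s, hs, h⟩ := hS x hx h1
        exact ⟨s, Finset.mem_union_left _ hs, h⟩
  smul_mem' := by
    rintro c f ⟨hf, ⟨r, hr, hfr⟩, hS⟩
    refine ⟨fun j u g hu => ?_, ⟨r, hr, fun h g hh => ?_⟩, fun g => ?_⟩
    · simp only [Pi.smul_apply, hf j u g hu, Matrix.mulVec_smul]
    · simp only [Pi.smul_apply, hfr h g hh]
    · obtain ⟨S, hS⟩ := hS g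
      exact ⟨S, fun x hx h0 => hS x hx fun h1 => h0 (by simp [h1])⟩

theorem indSpace_le {n k m : ℕ} {F E : Type} [NormedField F] [Field E] (D : TypeData n k m F E)
    (γ : GL (Fin n) F) :
    indSpace D ≤ (indSpace D).comap (rightReg (GL (Fin n) F) E (Fin m → E) γ) := by
  rintro f ⟨hf, ⟨r, hr, hfr⟩, hS⟩
  obtain ⟨s, hs, hsr⟩ := exists_near_conj γ hr
  refine ⟨fun j u g hu => ?_, ⟨s, hs, fun h g hh => ?_⟩, fun g => ?_⟩
  · change f (j * u * g * γ) = D.lam j *ᵥ f (g * γ)
    rw [mul_assoc _ g, hf j u _ hu]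
  · change f (g * h * γ) = f (g * γ)
    simpa [mul_assoc] using hfr _ (g * γ) (hsr h hh)
  · obtain ⟨S, hS⟩ := hS (g * γ)
    refine ⟨S, fun x hx h0 => hS x hx ?_⟩
    rwa [← mul_assoc]

/-- The smooth representation `Ind_P^G (c-Ind_J^M lam)`, with `GL(n, F)` acting by right
translation. -/
noncomputable def indRep {n k m : ℕ} {F E : Type} [NormedField F] [Field E]
    (D : TypeData n k m F E) : Rep E (GL (Fin n) F) :=
  subRight (indSpace D) (indSpace_le D)

/-- The leading principal minor of size `i + 1`. -/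
def minor {n : ℕ} {F : Type} [Field F] (g : GL (Fin n) F) (i : Fin n) : F :=
  ((g : Matrix (Fin n) (Fin n) F).submatrix (Fin.castLE i.2) (Fin.castLE i.2)).det

/-- The difference `a i - a (i + 1)`, with `a n = 0`. -/
def gap {n : ℕ} (a : Fin n → ℤ) (i : Fin n) : ℤ :=
  a i - if h : (i : ℕ) + 1 < n then a ⟨i + 1, h⟩ else 0

/-- The highest weight function `∏ σ, ∏ i, κ σ (minor g i) ^ (a σ i - a σ (i + 1))`. -/
def hw {n : ℕ} {F E ι : Type} [Field F] [Field E] [Fintype ι] (κ : ι → F →+* E)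
    (a : ι → Fin n → ℤ) (g : GL (Fin n) F) : E :=
  ∏ σ, ∏ i, κ σ (minor g i) ^ gap (a σ) i

/-- The span of the right translates of the highest weight function. -/
def algSpace {n : ℕ} {F E ι : Type} [Field F] [Field E] [Fintype ι] (κ : ι → F →+* E)
    (a : ι → Fin n → ℤ) : Submodule E (GL (Fin n) F → E) :=
  Submodule.span E (Set.range fun g x => hw κ a (x * g))

theorem algSpace_le {n : ℕ} {F E ι : Type} [Field F] [Field E] [Fintype ι] (κ : ι → F →+* E)
    (a : ι → Fin n → ℤ) (γ : GL (Fin n) F) :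
    algSpace κ a ≤ (algSpace κ a).comap (rightReg (GL (Fin n) F) E E γ) := by
  rw [algSpace, Submodule.span_le]
  rintro _ ⟨g, rfl⟩
  exact Submodule.subset_span ⟨γ * g, funext fun x => congrArg _ (mul_assoc x γ g).symm⟩

/-- The algebraic representation of `GL(n, F)` over `E` with highest weight `a σ` at the
embedding `κ σ`. -/
noncomputable def algRep {n : ℕ} {F E ι : Type} [Field F] [Field E] [Fintype ι]
    (κ : ι → F →+* E) (a : ι → Fin n → ℤ) : Rep E (GL (Fin n) F) :=
  subRight (algSpace κ a) (algSpace_le κ a)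

/-- The Emerton condition for the set `I` of blocks: the product of the norm of `omega` at the
central element equal to `ϖ` on the blocks in `I` and to `1` elsewhere, of
`‖q‖ ^ #{(x, y) | b x < b y, b x ∈ I, b y ∉ I}`, and of `‖ϖ‖` to the sum of the first
`#{x | b x ∈ I}` entries of all the weights, is at most `1`. -/
def Emerton {n k m : ℕ} {F E ι : Type} [NormedField F] [NormedField E] [Fintype ι]
    (D : TypeData n k m F E) (a : ι → Fin n → ℤ) (ϖ : Fˣ) (q : ℕ) (I : Finset (Fin k)) : Prop :=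
  ‖((D.omega fun i => if i ∈ I then ϖ else 1 : Eˣ) : E)‖ *
    ‖(q : E)‖ ^ (Finset.univ.filter fun x : Fin n × Fin n =>
      D.b x.1 < D.b x.2 ∧ D.b x.1 ∈ I ∧ D.b x.2 ∉ I).card *
    ‖(ϖ : F)‖ ^ (∑ σ, ∑ i ∈ Finset.univ.filter
      (fun i : Fin n => (i : ℕ) < (Finset.univ.filter fun x => D.b x ∈ I).card), a σ i) ≤ 1

/-- The tensor product `A ⊗ B` carries a `G`-invariant non-archimedean norm. -/
def HasInvariantNorm {G E : Type} [Monoid G] [NormedField E] (A B : Rep E G) : Prop :=
  ∃ N : A.V ⊗[E] B.V → ℝ, (∀ x, 0 ≤ N x) ∧ (∀ x, N x = 0 → x = 0) ∧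
    (∀ (c : E) x, N (c • x) = ‖c‖ * N x) ∧ (∀ x y, N (x + y) ≤ max (N x) (N y)) ∧
    ∀ g x, N (A.ρ.tprod B.ρ g x) = N x

end Pool.Agent.MP_4d0c14_b
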